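import Pool.Agent.MP_e8e0b6_ag.R2.SpecA

section Part1

-- part 1: Bg

/-!
The points below the points of the geometric generic fibre.
-/

set_option autoImplicit false

namespace Pool.Agent.MP_e8e0b6_ag.R2

open Pool.Agent.MP_79c67d_ag Pool.Agent.MP_20d318_ag Pool.Agent.MP_20d318_ag.AG
  Pool.Agent.MP_20d318_ag.BV Pool.Agent.MP_20d318_ag.CB
open scoped IntermediateField Pointwise

namespace BgA

variable {k F Ω E : Type} [Field k] [Field F] [Field Ω] [Field E] [Algebra k F] [Algebra k E]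
  [Algebra Ω E] {C : Subalgebra k F} {μ : F →ₐ[k] E}

/-- The preimage of a ring of the generic fibre. -/
def pre (h : ∀ c ∈ C, μ c ∈ Set.range (algebraMap Ω E)) (O' : Subalgebra Ω E) : Subalgebra k F where
  carrier := {a | μ a ∈ O'}
  mul_mem' {a b} ha hb := by
    change μ (a * b) ∈ O'
    rw [map_mul]
    exact O'.mul_mem ha hb
  add_mem' {a b} ha hb := by
    change μ (a + b) ∈ O'
    rw [map_add]
    exact O'.add_mem ha hb
  algebraMap_mem' r := by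
    obtain ⟨c, hc⟩ := h _ (C.algebraMap_mem r)
    change μ (algebraMap k F r) ∈ O'
    rw [← hc]
    exact O'.algebraMap_mem c

variable {h : ∀ c ∈ C, μ c ∈ Set.range (algebraMap Ω E)} {O' : Subalgebra Ω E} {a : F}

theorem mem_pre : a ∈ pre h O' ↔ μ a ∈ O' := Iff.rfl

theorem isU_pre : IsU (pre h O') a ↔ IsU O' (μ a) := by simp [IsU, mem_pre]

theorem mx_pre : a ∈ mx (pre h O') ↔ μ a ∈ mx O' := by simp [mx, isU_pre, mem_pre]

theorem loc_pre (hO : IsLocalRing O') : IsLocalRing (pre h O') :=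
  isLocalRing_of fun a ha b hb => mx_pre.2 (by
    rw [map_add]; exact mx_add hO (mx_pre.1 ha) (mx_pre.1 hb))

/-- A ring that contains `C` as a module over `C`. -/
def md (A : Subalgebra k F) (hA : C ≤ A) : Submodule C F where
  carrier := A
  add_mem' ha hb := A.add_mem ha hb
  zero_mem' := A.zero_mem
  smul_mem' c _ ha := A.mul_mem (hA c.2) ha

/-- The span of the image of a ring is a ring. -/
def spn (μ : F →ₐ[k] E) (Ω : Type) [Field Ω] [Algebra Ω E] (A : Subalgebra k F) : Subalgebra Ω E :=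
  (Submodule.span Ω (μ '' A)).toSubalgebra (Submodule.subset_span ⟨1, A.one_mem, map_one μ⟩)
    fun x y hx hy => by
      have := Submodule.mul_mem_mul hx hy
      rw [Submodule.span_mul_span] at this
      refine Submodule.span_mono ?_ this
      rintro _ ⟨_, ⟨a, ha, rfl⟩, _, ⟨b, hb, rfl⟩, rfl⟩
      exact ⟨a * b, A.mul_mem ha hb, map_mul μ a b⟩

theorem span_mx (hO : IsLocalRing O') {T : Set E} (hT : ∀ t ∈ T, t ∈ mx O') {s : E}
    (hs : s ∈ Submodule.span Ω T) : s ∈ mx O' := by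
  induction hs using Submodule.span_induction with
  | mem x hx => exact hT x hx
  | zero => exact zero_mem_mx
  | add x y _ _ hx hy => exact mx_add hO hx hy
  | smul r x _ hx =>
    rw [Algebra.smul_def]
    exact mx_mul_left (O'.algebraMap_mem r) hx

end BgA

open BgA in
theorem bg_stmt : BgStmt := by
  intro hd k F Ω E J _ _ _ _ _ _ _ _ C H μ S' _ gc O' hO'
  rw [gc.eq, mp_eq_XX] at hO'
  obtain ⟨_, ⟨j, hj, rfl⟩, hp⟩ := hO'
  have hW : ch C H j ≤ pre gc.base O' := ch_le.2 ⟨fun c hc => by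
    obtain ⟨d, hd⟩ := gc.base c hc
    rw [mem_pre, ← hd]
    exact O'.algebraMap_mem d, fun a ha => by
    rw [mem_pre, map_div₀]
    exact hp.2.1 (div_mem_ch ⟨a, ha, rfl⟩)⟩
  obtain ⟨O, hO, dom⟩ := exists_ctr (loc_pre hp.1) hW
  refine ⟨O, ⟨j, hj, hO⟩, fun z => ⟨fun hz => dom.1 hz, fun hz => ?_⟩⟩
  by_cases z0 : z = 0
  · exact z0 ▸ O.zero_mem
  obtain ⟨r, hr, s, hs, hu, e⟩ := hp.2.2 _ hz
  have hA : ch ⊥ (μ '' H) (μ j) ≤ spn μ Ω (ch C H j) := ch_le.2 ⟨bot_le, by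
    rintro _ ⟨a, ha, rfl⟩
    exact Submodule.subset_span ⟨a / j, div_mem_ch ha, map_div₀ μ a j⟩⟩
  let N : Submodule C F := md (ch C H j) le_ch
  let N' : Submodule C F := N.comap (LinearMap.mulLeft C z)
  have k1 : ∀ x ∈ Submodule.span Ω (μ '' N), x / μ z ∈ Submodule.span Ω (μ '' N') := by
    intro x hx
    induction hx using Submodule.span_induction with
    | mem x hx =>
      obtain ⟨b, hb, rfl⟩ := hx
      refine Submodule.subset_span ⟨b / z, ?_, map_div₀ μ b z⟩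
      change z * (b / z) ∈ N
      rwa [mul_div_cancel₀ _ z0]
    | zero => rw [zero_div]; exact Submodule.zero_mem _
    | add x y _ _ hx hy => rw [add_div]; exact Submodule.add_mem _ hx hy
    | smul c x _ hx => rw [smul_div_assoc]; exact Submodule.smul_mem _ c hx
  have k2 : s ∈ Submodule.span Ω (μ '' N') := by
    have m0 : μ z ≠ 0 := (map_ne_zero μ).2 z0
    have e' : s = r / μ z := by
      rw [eq_div_iff m0, e, mul_div_cancel₀ _ hu.1]
    rw [e']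
    exact k1 r (hA hr)
  have k3 := hd k F Ω E C μ gc.base gc.ld N N' ⟨hA hs, k2⟩
  by_contra hn
  refine hu.not_mx (span_mx hp.1 ?_ k3)
  rintro _ ⟨b, ⟨hb, hb'⟩, rfl⟩
  refine ⟨hW hb, fun u => hn ?_⟩
  have u' : IsU O b := dom.2 b (hO.2.1 hb) (isU_pre.2 u)
  have := u'.div_mem (hO.2.1 (show z * b ∈ ch C H j from hb'))
  rwa [mul_div_cancel_right₀ _ u'.1] at this

end Pool.Agent.MP_e8e0b6_ag.R2

end Part1

section Part2

-- part 2: Can0

/-!
The canonical class in terms of a projective embedding.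
-/

set_option autoImplicit false

namespace Pool.Agent.MP_e8e0b6_ag.R2

open Pool.Agent.MP_79c67d_ag Pool.Agent.MP_20d318_ag Pool.Agent.MP_20d318_ag.AG
  Pool.Agent.MP_20d318_ag.BV Pool.Agent.MP_20d318_ag.CB
open Pool.Agent.MP_20d318_ag.RS (jac)

namespace Can0

variable {k M : Type} [Field k] [Field M] [Algebra k M] {O : Subalgebra k M}

theorem der_mx {G : Set M} (hO : O ∈ Pts (Algebra.adjoin k G)) (D : Derivation k M M)
    (h : ∀ g ∈ G, D g ∈ mx O) : ∀ f ∈ O, D f ∈ mx O := by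
  have h1 : ∀ f ∈ Algebra.adjoin k G, D f ∈ mx O := by
    intro f hf
    induction hf using Algebra.adjoin_induction with
    | mem x hx => exact h x hx
    | algebraMap r => rw [Derivation.map_algebraMap]; exact zero_mem_mx
    | add x y _ _ hx hy => rw [map_add]; exact mx_add hO.1 hx hy
    | mul x y hx' hy' hx hy =>
      rw [Derivation.leibniz, smul_eq_mul, smul_eq_mul]
      exact mx_add hO.1 (mx_mul_left (hO.2.1 hx') hy) (mx_mul_left (hO.2.1 hy') hx)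
  intro f hf
  obtain ⟨a, ha, b, hb, hu, rfl⟩ := hO.2.2 f hf
  rw [Derivation.leibniz_div, smul_eq_mul, smul_eq_mul, smul_eq_mul]
  exact mx_mul_left (O.pow_mem hu.inv_mem 2)
    (mx_sub' hO.1 (mx_mul_left hu.mem (h1 a ha)) (mx_mul_left (hO.2.1 ha) (h1 b hb)))

theorem jac_mx (hJ : Jc k M) {G : Set M} (hO : O ∈ Pts (Algebra.adjoin k G))
    (D₁ D₂ : Derivation k M M) (w : M) (h : ∀ a ∈ G, ∀ b ∈ G, w * jac D₁ D₂ a b ∈ mx O) :
    ∀ x ∈ O, ∀ y ∈ O, w * jac D₁ D₂ x y ∈ mx O := by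
  have h1 : ∀ a, (∀ b ∈ G, w * jac D₁ D₂ a b ∈ mx O) → ∀ y ∈ O, w * jac D₁ D₂ a y ∈ mx O := by
    intro a ha y hy
    obtain ⟨D, e⟩ := hJ.lin D₁ D₂ a w
    exact e y ▸ der_mx hO D (fun g hg => (e g).symm ▸ ha g hg) y hy
  intro x hx
  refine h1 x fun b hb => ?_
  have e : w * jac D₁ D₂ x b = -(w * jac D₁ D₂ b x) := by simp only [jac]; ring
  rw [e]
  exact mx_neg (h1 b (h b hb) x hx)

theorem jac_div (D₁ D₂ : Derivation k M M) (a b : M) {c : M} (hc : c ≠ 0) :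
    c ^ 3 * jac D₁ D₂ (a / c) (b / c) =
      c * jac D₁ D₂ a b - b * jac D₁ D₂ a c - a * jac D₁ D₂ c b := by
  simp only [jac, Derivation.leibniz_div, smul_eq_mul]
  field_simp
  ring

theorem pts_of {H : Set M} (hH : ∀ a ∈ H, a ≠ 0) (hO : O ∈ mp k fun _ : Unit => H) {j : M}
    (hj : j ∈ H) (hle : ∀ a ∈ H, a / j ∈ O) : O ∈ Pts (cht k (fun _ : Unit => H) fun _ => j) := by
  obtain ⟨i, hi, h⟩ := hO
  refine Pts_of_fr h (cht_le.2 fun _ => hle) fun g hg => ?_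
  obtain ⟨l, a, ha, rfl⟩ := Set.mem_iUnion.1 hg
  have h0 := hH j hj
  have hc : ∀ a ∈ H, a / j ∈ cht k (fun _ : Unit => H) fun _ => j :=
    (cht_le (S := fun _ : Unit => H) (j := fun _ => j)).1 le_rfl l
  refine ⟨a / j, hc a ha, i l / j, hc _ (hi l), ⟨div_ne_zero (hH _ (hi l)) h0, hle _ (hi l), ?_⟩,
    (div_div_div_cancel_right₀ h0 _ _).symm⟩
  rw [inv_div]
  exact cht_le.1 h.2.1 l _ hj

end Can0

open Can0 in
theorem can0_stmt : Can0Stmt := by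
  intro k M I _ _ _ _ _ _ S H D₁ D₂ hS hT hH hn
  obtain ⟨ψ, hψ⟩ := hS.s.can D₁ D₂
  have h0 : ψ ≠ 0 := by
    obtain ⟨a, b, u, hc, -, e⟩ := hψ ⊤ hS.a1.nice.toFine.top
    intro h
    exact hn a b hc.1 (by rw [e, h, mul_zero, zero_mul])
  refine ⟨ψ, h0, fun O hO => ?_⟩
  obtain ⟨a₀, b₀, u, hc, hu, e⟩ := hψ O hO
  have hl : S.lb S.K O ≠ 0 := S.lb_ne (hS.a1.gne O hO) _
  have e0 : jac D₁ D₂ a₀ b₀ * S.lb S.K O / ψ = u := by
    rw [e, S.lb_neg]
    field_simp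
  have p1 : ∀ x y, Cht O x y → IsU O (jac D₁ D₂ x y * S.lb S.K O / ψ) := by
    intro x y hxy
    obtain ⟨v, hv, e1⟩ := hS.jc.jacU O a₀ b₀ x y hc hxy
    rw [e1, mul_assoc, mul_div_assoc, e0]
    exact hv.mul hu
  have p0 : ∀ x ∈ O, ∀ y ∈ O, jac D₁ D₂ x y * S.lb S.K O / ψ ∈ O := by
    intro x hx y hy
    obtain ⟨v, hv, e1⟩ := hS.jc.jacM O a₀ b₀ hc x hx y hy
    rw [e1, mul_assoc, mul_div_assoc, e0]
    exact O.mul_mem hv hu.mem
  refine ⟨p1, fun j hj => ⟨fun a ha b hb c hc' => ?_, fun hjH => ?_⟩⟩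
  · have hj0 := hj.ne
    have hc0 := hH c hc'
    have e1 := jac_div D₁ D₂ (a / j) (b / j) (div_ne_zero hc0 hj0)
    rw [div_div_div_cancel_right₀ hj0, div_div_div_cancel_right₀ hj0] at e1
    have e2 : c ^ 3 * jac D₁ D₂ (a / c) (b / c) * S.lb S.K O / (j ^ 3 * ψ) =
        (c / j) ^ 3 * jac D₁ D₂ (a / c) (b / c) * (S.lb S.K O / ψ) := by
      field_simp
    have e3 : ∀ p q r s t v : M, (p * q - r * s - t * v) * (S.lb S.K O / ψ) =
        p * (q * S.lb S.K O / ψ) - r * (s * S.lb S.K O / ψ) - t * (v * S.lb S.K O / ψ) := by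
      intro p q r s t v
      ring
    rw [e2, e1, e3]
    exact O.sub_mem (O.sub_mem (O.mul_mem (hj.1 c hc') (p0 _ (hj.1 a ha) _ (hj.1 b hb)))
      (O.mul_mem (hj.1 b hb) (p0 _ (hj.1 a ha) _ (hj.1 c hc'))))
      (O.mul_mem (hj.1 a ha) (p0 _ (hj.1 c hc') _ (hj.1 b hb)))
  · by_contra hcon
    have e4 : ∀ x y, S.lb S.K O / ψ * jac D₁ D₂ x y = jac D₁ D₂ x y * S.lb S.K O / ψ := by
      intro x y
      ring
    have hP := pts_of hH (hT ▸ hO) hjH hj.1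
    have hm := jac_mx hS.jc hP D₁ D₂ (S.lb S.K O / ψ) (fun x hx y hy => by
      obtain ⟨_, a, ha, rfl⟩ := Set.mem_iUnion.1 hx
      obtain ⟨_, b, hb, rfl⟩ := Set.mem_iUnion.1 hy
      rw [e4]
      exact ⟨p0 _ (hj.1 a ha) _ (hj.1 b hb), fun h => hcon ⟨a, ha, b, hb, h⟩⟩) a₀
      (hc.2.2.1 (Algebra.subset_adjoin (Or.inl rfl))) b₀
      (hc.2.2.1 (Algebra.subset_adjoin (Or.inr rfl)))
    rw [e4] at hm
    exact (p1 a₀ b₀ hc).not_mx hm

end Pool.Agent.MP_e8e0b6_ag.R2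

end Part2

section Part3

-- part 3: Can1

/-!
Two lifted coordinates generate the relative differentials.
-/

set_option autoImplicit false

namespace Pool.Agent.MP_e8e0b6_ag.R2

open Pool.Agent.MP_79c67d_ag Pool.Agent.MP_20d318_ag Pool.Agent.MP_20d318_ag.AG
  Pool.Agent.MP_20d318_ag.BV Pool.Agent.MP_20d318_ag.CB

namespace Can1

variable {k F W : Type} [Field k] [Field F] [Algebra k F] {R O : Subalgebra k F} [AddCommGroup W]
  [Module O W] {d : O → W}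

/-- The functions whose differential lies in `N`. -/
theorem exists_sub (hR : R ≤ O) (ha : ∀ a b, d (a + b) = d a + d b)
    (hm : ∀ a b, d (a * b) = a • d b + b • d a) (h0 : ∀ r : O, (r : F) ∈ R → d r = 0)
    (N : Submodule O W) : ∃ T : Subalgebra k F, (∀ a, a ∈ T ↔ ∃ h : a ∈ O, d ⟨a, h⟩ ∈ N) ∧ R ≤ T ∧
      ∀ a ∈ T, ∀ b ∈ T, IsU O b → a / b ∈ T := by
  have hr : ∀ r ∈ R, ∃ h : r ∈ O, d ⟨r, h⟩ ∈ N := fun r h =>
    ⟨hR h, (h0 ⟨r, hR h⟩ h).symm ▸ N.zero_mem⟩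
  refine ⟨{ carrier := {a | ∃ h : a ∈ O, d ⟨a, h⟩ ∈ N}
            mul_mem' := ?_
            add_mem' := ?_
            algebraMap_mem' := fun c => hr _ (R.algebraMap_mem c) }, fun _ => Iff.rfl, hr, ?_⟩
  · rintro a b ⟨h1, h2⟩ ⟨h3, h4⟩
    exact ⟨O.mul_mem h1 h3, (hm ⟨a, h1⟩ ⟨b, h3⟩).symm ▸
      N.add_mem (N.smul_mem _ h4) (N.smul_mem _ h2)⟩
  · rintro a b ⟨h1, h2⟩ ⟨h3, h4⟩
    exact ⟨O.add_mem h1 h3, (ha ⟨a, h1⟩ ⟨b, h3⟩).symm ▸ N.add_mem h2 h4⟩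
  · rintro a ⟨h1, h2⟩ b ⟨h3, h4⟩ hu
    have h5 := hu.div_mem h1
    refine ⟨h5, ?_⟩
    have e : (⟨a / b, h5⟩ : O) * ⟨b, h3⟩ = ⟨a, h1⟩ := Subtype.ext (div_mul_cancel₀ a hu.ne)
    have e2 : (⟨b⁻¹, hu.inv_mem⟩ : O) * ⟨b, h3⟩ = 1 := Subtype.ext (inv_mul_cancel₀ hu.ne)
    rw [← e, hm] at h2
    have h6 := N.smul_mem ⟨b⁻¹, hu.inv_mem⟩ ((N.add_mem_iff_right (N.smul_mem _ h4)).1 h2)
    rwa [smul_smul, e2, one_smul] at h6

end Can1

theorem can1_stmt : Can1Stmt := by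
  intro k F _ _ _ R O G x y hG hO hd hx hy H f hf
  have hl := hO.1
  let _ : Algebra R O := (Subalgebra.inclusion hd.1).toRingHom.toAlgebra
  have key := Can1.exists_sub (d := KaehlerDifferential.D R O) hd.1 (map_add _)
    (KaehlerDifferential.D R O).leibniz
    fun r hr => (KaehlerDifferential.D R O).map_algebraMap ⟨r, hr⟩
  have top : ∀ N : Submodule O (KaehlerDifferential R O),
      (∀ a : O, KaehlerDifferential.D R O a ∈ N) → ⊤ ≤ N := fun N h => by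
    rw [← KaehlerDifferential.span_range_derivation, Submodule.span_le]
    rintro _ ⟨a, rfl⟩
    exact h a
  have GO : ∀ g ∈ G, g ∈ O := fun g hg =>
    hO.2.1 ((le_sup_right : _ ≤ R ⊔ Algebra.adjoin k G) (Algebra.subset_adjoin hg))
  have fg : (⊤ : Submodule O (KaehlerDifferential R O)).FG := by
    have := hG.to_subtype
    let v : G → KaehlerDifferential R O := fun g => KaehlerDifferential.D R O ⟨g, GO g g.2⟩
    obtain ⟨T, hT, h1, h2⟩ := key (Submodule.span O (Set.range v))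
    have le : R ⊔ Algebra.adjoin k G ≤ T := sup_le h1 (Algebra.adjoin_le fun g hg =>
      (hT g).2 ⟨GO g hg, Submodule.subset_span ⟨⟨g, hg⟩, rfl⟩⟩)
    rw [← top_le_iff.1 (top (Submodule.span O (Set.range v)) fun a => by
      obtain ⟨p, hp, q, hq, hu, e⟩ := hO.2.2 a a.2
      exact ((hT a).1 (e ▸ h2 p (le hp) q (le hq) hu)).2)]
    exact Submodule.fg_span (Set.finite_range v)
  obtain ⟨T, hT, h1, h2⟩ := key (Submodule.span O
    {KaehlerDifferential.D R O ⟨x, hx⟩, KaehlerDifferential.D R O ⟨y, hy⟩} ⊔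
      IsLocalRing.maximalIdeal O • ⊤)
  have le : Algebra.adjoin k {x, y} ≤ T := Algebra.adjoin_le (by
    rintro _ (rfl | rfl)
    · exact (hT _).2 ⟨hx, Submodule.mem_sup_left (Submodule.subset_span (.inl rfl))⟩
    · exact (hT _).2 ⟨hy, Submodule.mem_sup_left (Submodule.subset_span (.inr rfl))⟩)
  have sp : ∀ a ∈ Submodule.span O (mx R), a ∈ mx O ∧ a ∈ T := fun a ha => by
    induction ha using Submodule.span_induction with
    | mem b hb => exact ⟨hd.mx hb, h1 hb.1⟩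
    | zero => exact ⟨zero_mem_mx, T.zero_mem⟩
    | add b c _ _ hb hc => exact ⟨mx_add hl hb.1 hc.1, T.add_mem hb.2 hc.2⟩
    | smul c b _ hb =>
      obtain ⟨h3, h4⟩ := (hT b).1 hb.2
      refine ⟨mx_mul_left c.2 hb.1, (hT _).2 ⟨O.mul_mem c.2 h3, ?_⟩⟩
      have e : (⟨c • b, O.mul_mem c.2 h3⟩ : O) = c * ⟨b, h3⟩ := rfl
      rw [e, Derivation.leibniz]
      exact add_mem (Submodule.smul_mem _ _ h4) (Submodule.mem_sup_right
        (Submodule.smul_mem_smul ((mem_mx_iff ⟨b, h3⟩).1 hb.1) Submodule.mem_top))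
  have nak := Submodule.le_of_le_smul_of_le_jacobson_bot fg
    (IsLocalRing.maximalIdeal_le_jacobson ⊥) (top _ fun a => by
      obtain ⟨p, hp, q, hq, hu, e⟩ := H a a.2
      have := h2 _ (T.add_mem (sp _ e).2 (le hp)) q (le hq) hu
      rw [sub_add_cancel, mul_div_cancel_right₀ _ hu.ne] at this
      exact ((hT a).1 this).2)
  obtain ⟨p, q, e⟩ := Submodule.mem_span_pair.1
    (nak (Submodule.mem_top : KaehlerDifferential.D R O ⟨f, hf⟩ ∈ ⊤))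
  refine ⟨p, p.2, q, q.2, fun L _ π D π1 hπ h0 => ?_⟩
  let π' : O →+* L := RingHom.mk'
    { toFun := fun a => π a
      map_one' := π1
      map_mul' := fun a b => (hπ a a.2 b b.2).2.1 } fun a b => (hπ a a.2 b b.2).1
  let _ : Algebra O L := π'.toAlgebra
  let _ : Algebra R L := (π'.comp (algebraMap R O)).toAlgebra
  have : IsScalarTower R O L := IsScalarTower.of_algebraMap_eq' rfl
  let D' : Derivation R O L := Derivation.mk'
    { toFun := fun a => D a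
      map_add' := fun a b => (hπ a a.2 b b.2).2.2.1
      map_smul' := fun r a => by
        have := (hπ r (hd.1 r.2) a a.2).2.2.2
        rw [h0 r r.2, mul_zero, add_zero] at this
        exact this } fun a b => (hπ a a.2 b b.2).2.2.2
  have := congrArg D'.liftKaehlerDifferential e
  rw [map_add, map_smul, map_smul, Derivation.liftKaehlerDifferential_comp_D,
    Derivation.liftKaehlerDifferential_comp_D, Derivation.liftKaehlerDifferential_comp_D] at this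
  exact this.symm

end Pool.Agent.MP_e8e0b6_ag.R2

end Part3

section Part4

-- part 4: Can2

/-!
Relative Jacobian determinants of a family.
-/

set_option autoImplicit false

namespace Pool.Agent.MP_e8e0b6_ag.R2

open Pool.Agent.MP_79c67d_ag Pool.Agent.MP_20d318_ag Pool.Agent.MP_20d318_ag.AG
  Pool.Agent.MP_20d318_ag.BV Pool.Agent.MP_20d318_ag.CB
open Pool.Agent.MP_20d318_ag.RS (jac)

namespace Can2

theorem ai_iff {A B σ : Type} [CommRing A] [CommRing B] [Algebra A B] (x : σ → B) :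
    AlgebraicIndependent A x ↔
      LinearIndependent A fun d : σ →₀ ℕ => d.prod fun i n => x i ^ n := by
  have e : (MvPolynomial.aeval x : MvPolynomial σ A →ₐ[A] B).toLinearMap =
      (Finsupp.linearCombination A fun d : σ →₀ ℕ => d.prod fun i n => x i ^ n) ∘ₗ
        (MvPolynomial.basisMonomials σ A).repr.toLinearMap :=
    (MvPolynomial.basisMonomials σ A).ext fun d => by
      rw [LinearMap.comp_apply, LinearEquiv.coe_coe, Module.Basis.repr_self,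
        Finsupp.linearCombination_single, one_smul]
      simp [MvPolynomial.aeval_monomial]
  change Function.Injective (MvPolynomial.aeval x : MvPolynomial σ A →ₐ[A] B).toLinearMap ↔ _
  rw [e, LinearMap.coe_comp, LinearEquiv.coe_coe, EquivLike.injective_comp]
  rfl

theorem ders {k M : Type} [Field k] [CharZero k] [IsAlgClosed k] [Field M] [Algebra k M]
    {a b : M} (h : GenP k a b) : ∃ D₁ D₂ : Derivation k M M, jac D₁ D₂ a b ≠ 0 := by
  obtain ⟨D₁, h1⟩ := (plane_stmt k M a b h).der 0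
  obtain ⟨D₂, h2⟩ := (plane_stmt k M a b h).der 1
  have a1 : D₁ a = 1 := by simpa using h1 (MvPolynomial.X 0)
  have a2 : D₂ a = 0 := by simpa using h2 (MvPolynomial.X 0)
  have a3 : D₂ b = 1 := by simpa using h2 (MvPolynomial.X 1)
  exact ⟨D₁, D₂, by simp [jac, a1, a2, a3]⟩

theorem jac_eq {k M : Type} [Field k] [Field M] [Algebra k M] {a b x y p q p' q' : M}
    (ha : ∀ D : Derivation k M M, D a = p * D x + q * D y)
    (hb : ∀ D : Derivation k M M, D b = p' * D x + q' * D y) (D₁ D₂ : Derivation k M M) :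
    (p * q' - q * p') * jac D₁ D₂ x y = jac D₁ D₂ a b := by
  simp only [jac, ha, hb]
  ring

variable {k F M Ω E I J : Type} [Field k] [Field F] [Field M] [Field Ω] [Field E] [Algebra k F]
  [Algebra k M] [Algebra k E] [Algebra Ω E] [Fintype I] [Fintype J] {R O ξ : Subalgebra k F}
  {H : Set F} {ρ : ξ →ₐ[k] M} {S : Sd k M I} {μ : F →ₐ[k] E} {S' : Sd Ω E J} {x y : F}

theorem lift (hx : x ∈ ξ) (hy : y ∈ ξ) {m : M}
    (hm : m ∈ Algebra.adjoin k {evO ξ ρ x, evO ξ ρ y}) :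
    ∃ a ∈ Algebra.adjoin k {x, y}, evO ξ ρ a = m := by
  obtain ⟨p, rfl⟩ := mem_adjoin_pair.1 hm
  refine ⟨_, mem_adjoin_pair.2 ⟨p, rfl⟩, ?_⟩
  rw [evO_aeval ρ (fun i => by fin_cases i <;> simpa)]
  congr 2
  funext i; fin_cases i <;> rfl

theorem can (h1 : Can1Stmt) (L : Ln R H ξ ρ S) (G : Gm R H μ S') (hO : O ∈ XX R H) (hd : Dom R O)
    (hx : x ∈ O) (hy : y ∈ O) (hc : Cht (red ξ ρ O) (evO ξ ρ x) (evO ξ ρ y)) :
    ∀ f ∈ O, ∃ p ∈ O, ∃ q ∈ O, (∀ D : Derivation k M M, D (evO ξ ρ f) =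
      evO ξ ρ p * D (evO ξ ρ x) + evO ξ ρ q * D (evO ξ ρ y)) ∧
      ∀ D : Derivation Ω E E, D (μ f) = μ p * D (μ x) + μ q * D (μ y) := by
  intro f hf
  have le := L.fib.le O hO hd
  have adj : Algebra.adjoin k {x, y} ≤ O :=
    Algebra.adjoin_le (by rintro _ (rfl | rfl) <;> assumption)
  obtain ⟨j, -, hj⟩ := id hO
  obtain ⟨p, hp, q, hq, h⟩ := h1 k F R O _ x y (L.fm.fin.image _) hj hd hx hy (fun g hg => by
    obtain ⟨a, ha, b, hb, hu, e⟩ := hc.2.2.2 _ ((L.mem O le _).2 ⟨g, hg, rfl⟩)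
    obtain ⟨a', ha', rfl⟩ := lift (le hx) (le hy) ha
    obtain ⟨b', hb', rfl⟩ := lift (le hx) (le hy) hb
    have m := O.sub_mem (O.mul_mem hg (adj hb')) (adj ha')
    refine ⟨a', ha', b', hb', (L.isU O hO hd b' (adj hb')).1 hu,
      L.fib.red O hO hd _ m ((L.lh.eq_zero_iff (le m)).1 ?_)⟩
    rw [evO_sub ρ (le (O.mul_mem hg (adj hb'))) (le (adj ha')), evO_mul ρ (le hg) (le (adj hb')),
      e, div_mul_cancel₀ _ hu.ne, sub_self]) f hf
  refine ⟨p, hp, q, hq, fun D => h M (evO ξ ρ) (fun a => D (evO ξ ρ a)) (evO_one ρ)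
    (fun a ha b hb => ?_) fun r hr => ?_, fun D => h E μ (fun a => D (μ a)) (map_one μ)
      (fun a _ b _ => ?_) fun r hr => ?_⟩
  · simp only [evO_add ρ (le ha) (le hb), evO_mul ρ (le ha) (le hb), map_add, Derivation.leibniz,
      smul_eq_mul, and_self]
  · obtain ⟨e, -, he⟩ := L.res
    have := he ⟨r, hr⟩
    change D (evO ξ ρ r) = 0
    rw [this, Derivation.map_algebraMap]
  · simp only [map_add, map_mul, Derivation.leibniz, smul_eq_mul, and_self]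
  · obtain ⟨c, hc⟩ := G.base r hr
    rw [← hc, Derivation.map_algebraMap]

theorem indep (L : Ln R H ξ ρ S) (G : Gm R H μ S') (hx : x ∈ ξ) (hy : y ∈ ξ)
    (h : AlgebraicIndependent k ![evO ξ ρ x, evO ξ ρ y]) : AlgebraicIndependent Ω ![μ x, μ y] := by
  rw [ai_iff] at h ⊢
  have m : ∀ d : Fin 2 →₀ ℕ, x ^ d 0 * y ^ d 1 ∈ ξ := fun d =>
    ξ.mul_mem (ξ.pow_mem hx _) (ξ.pow_mem hy _)
  have e1 : (fun d : Fin 2 →₀ ℕ => d.prod fun i n => ![evO ξ ρ x, evO ξ ρ y] i ^ n) =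
      fun d : Fin 2 →₀ ℕ => evO ξ ρ (x ^ d 0 * y ^ d 1) := funext fun d => by
    rw [evO_mul ρ (ξ.pow_mem hx _) (ξ.pow_mem hy _), evO_pow ρ hx, evO_pow ρ hy,
      Finsupp.prod_fintype _ _ fun _ => pow_zero _, Fin.prod_univ_two]
    rfl
  have e2 : (fun d : Fin 2 →₀ ℕ => d.prod fun i n => ![μ x, μ y] i ^ n) =
      fun d : Fin 2 →₀ ℕ => μ (x ^ d 0 * y ^ d 1) := funext fun d => by
    rw [map_mul, map_pow, map_pow, Finsupp.prod_fintype _ _ fun _ => pow_zero _, Fin.prod_univ_two]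
    rfl
  rw [e1] at h
  rw [e2]
  exact G.ld _ _ (L.ind _ _ m h)

end Can2

open Can2 in
theorem can2_stmt : Can2Stmt := by
  intro h1 k F M Ω E I J _ _ _ _ _ _ _ _ _ _ _ _ _ _ _ R H ξ ρ S μ S' L G
  obtain ⟨u, w, hc⟩ := L.mf.all.a1.chart ⊤ L.mf.all.a1.nice.toFine.top
  obtain ⟨u', w', hc'⟩ := G.mf.all.a1.chart ⊤ G.mf.all.a1.nice.toFine.top
  obtain ⟨D₁, D₂, hD⟩ := ders hc.1
  obtain ⟨D₁', D₂', hD'⟩ := ders hc'.1
  obtain ⟨⟨x, hx⟩, rfl⟩ := L.surj u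
  obtain ⟨⟨y, hy⟩, rfl⟩ := L.surj w
  rw [← evO_of_mem ρ hx, ← evO_of_mem ρ hy] at hc hD
  have c0 := can h1 L G L.fib.mem L.fib.dom hx hy (L.top.symm ▸ hc)
  have c1 : ∀ f : F, ∃ p q : F, (∀ D : Derivation Ω E E, D (μ f) = μ p * D (μ x) + μ q * D (μ y)) ∧
      (f ∈ ξ → p ∈ ξ ∧ q ∈ ξ ∧ ∀ D : Derivation k M M, D (evO ξ ρ f) =
        evO ξ ρ p * D (evO ξ ρ x) + evO ξ ρ q * D (evO ξ ρ y)) := fun f => by
    by_cases hf : f ∈ ξ
    · obtain ⟨p, hp, q, hq, e1, e2⟩ := c0 f hf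
      exact ⟨p, q, e2, fun _ => ⟨hp, hq, e1⟩⟩
    · obtain ⟨a, ha, b, hb, h0, rfl⟩ := L.xb.frac ξ L.fib.mem f
      obtain ⟨p, -, q, -, -, e1⟩ := c0 a ha
      obtain ⟨p', -, q', -, -, e2⟩ := c0 b hb
      refine ⟨(b * p - a * p') / b ^ 2, (b * q - a * q') / b ^ 2, fun D => ?_,
        fun h => absurd h hf⟩
      have : μ b ≠ 0 := (map_ne_zero μ).2 h0
      simp only [map_div₀, map_sub, map_mul, map_pow, Derivation.leibniz_div, e1, e2, smul_eq_mul]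
      field_simp
      ring
  choose P Q hE hM using c1
  have n' := G.mf.all.jc.ne D₁' D₂' u' w' (μ x) (μ y) hc'.1 hD' (indep L G hx hy hc.1.ind)
  have g : ∀ a b, μ (P a * Q b - Q a * P b) * jac D₁' D₂' (μ x) (μ y) = jac D₁' D₂' (μ a) (μ b) :=
    fun a b => by
      rw [map_sub, map_mul, map_mul]
      exact jac_eq (hE a) (hE b) _ _
  refine ⟨D₁, D₂, D₁', D₂', _, _, fun a b => P a * Q b - Q a * P b, hD, n',
    fun a b h => L.mf.all.jc.ne D₁ D₂ _ _ a b hc.1 hD h.ind,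
    fun a b h => G.mf.all.jc.ne D₁' D₂' _ _ a b hc'.1 hD' h.ind, g, fun a ha b hb => ?_,
    fun O hO hd x' hx' y' hy' hc'' a ha b hb => ?_⟩
  · obtain ⟨a1, a2, a3⟩ := hM a ha
    obtain ⟨b1, b2, b3⟩ := hM b hb
    refine ⟨ξ.sub_mem (ξ.mul_mem a1 b2) (ξ.mul_mem a2 b1), ?_⟩
    rw [evO_sub ρ (ξ.mul_mem a1 b2) (ξ.mul_mem a2 b1), evO_mul ρ a1 b2, evO_mul ρ a2 b1]
    exact jac_eq a3 b3 _ _
  · obtain ⟨p, hp, q, hq, -, e1⟩ := can h1 L G hO hd hx' hy' hc'' a ha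
    obtain ⟨p', hp', q', hq', -, e2⟩ := can h1 L G hO hd hx' hy' hc'' b hb
    refine ⟨p * q' - q * p', O.sub_mem (O.mul_mem hp hq') (O.mul_mem hq hp'),
      (μ : F →+* E).injective (mul_right_cancel₀ n' ?_)⟩
    change μ _ * _ = μ _ * _
    rw [g, map_mul μ (p * q' - q * p'), mul_assoc, g, map_sub, map_mul, map_mul]
    exact (jac_eq e1 e2 _ _).symm

end Pool.Agent.MP_e8e0b6_ag.R2

end Part4

section Part5

-- part 5: Can3

/-!
The canonical classes of the two fibres come from one line bundle on the family.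
-/

set_option autoImplicit false

namespace Pool.Agent.MP_e8e0b6_ag.R2

open Pool.Agent.MP_79c67d_ag Pool.Agent.MP_20d318_ag Pool.Agent.MP_20d318_ag.AG
  Pool.Agent.MP_20d318_ag.BV Pool.Agent.MP_20d318_ag.CB
open Pool.Agent.MP_20d318_ag.RS (jac)

namespace Can3

theorem jac_div {Ω E : Type} [Field Ω] [Field E] [Algebra Ω E] (D₁ D₂ : Derivation Ω E E)
    (a b c : E) (hc : c ≠ 0) : c ^ 3 * jac D₁ D₂ (a / c) (b / c) =
      c * jac D₁ D₂ a b - b * jac D₁ D₂ a c - a * jac D₁ D₂ c b := by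
  simp only [jac, Derivation.leibniz_div, smul_eq_mul]
  field_simp
  ring

variable {k F M Ω E I J : Type} [Field k] [Field F] [Field M] [Field Ω] [Field E] [Algebra k F]
  [Algebra k M] [Algebra k E] [Algebra Ω E] [Fintype I] [Fintype J]
  {R : Subalgebra k F} {H : Set F} {ξ : Subalgebra k F} {ρ : ξ →ₐ[k] M} {S : Sd k M I}
  {μ : F →ₐ[k] E} {D₁ D₂ : Derivation k M M} {D₁' D₂' : Derivation Ω E E} {j₀ : M} {j₀' : E}
  {J₀ : F → F → F}

theorem gn_up {O : Subalgebra k F} {O' : Subalgebra Ω E} (h : ∀ a ∈ O, μ a ∈ O') {U : Set F}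
    {g : F} (hg : Gn U O g) : Gn (μ '' U) O' (μ g) := by
  obtain ⟨a, ha, u⟩ := hg.2
  refine ⟨?_, μ a, ⟨a, ha, rfl⟩, ?_⟩
  · rintro _ ⟨b, hb, rfl⟩
    rw [← map_div₀]
    exact h _ (hg.1 b hb)
  · rw [← map_div₀]
    exact ⟨by simpa using u.1, h _ u.2.1, by rw [← map_inv₀]; exact h _ u.2.2⟩

/-- The system of Jacobians of ratios. -/
def UU (H : Set F) (J₀ : F → F → F) : Set F :=
  (fun p : F × F × F => p.2.2 ^ 3 * J₀ (p.1 / p.2.2) (p.2.1 / p.2.2)) '' (H ×ˢ H ×ˢ H)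

theorem J_div (hJ : Jf (Ω := Ω) R H ξ ρ μ D₁ D₂ D₁' D₂' j₀ j₀' J₀) (a b c j : F) (hc : c ≠ 0)
    (hj : j ≠ 0) : c ^ 3 * J₀ (a / c) (b / c) = j ^ 3 * (c / j * J₀ (a / j) (b / j) -
      b / j * J₀ (a / j) (c / j) - a / j * J₀ (c / j) (b / j)) := by
  have e : ∀ a b, μ (J₀ a b) = jac D₁' D₂' (μ a) (μ b) / j₀' := fun a b =>
    eq_div_of_mul_eq hJ.ne' (hJ.g a b)
  have hc' : μ c ≠ 0 := by simpa using hc
  have hj' : μ j ≠ 0 := by simpa using hj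
  have key := jac_div D₁' D₂' (μ a / μ j) (μ b / μ j) (μ c / μ j) (div_ne_zero hc' hj')
  rw [div_div_div_cancel_right₀ hj', div_div_div_cancel_right₀ hj'] at key
  have hinj : Function.Injective μ := μ.toRingHom.injective
  apply hinj
  simp only [map_mul, map_sub, map_pow, e, map_div₀]
  rw [← mul_div_assoc, ← mul_div_assoc, ← mul_div_assoc, ← mul_div_assoc, ← sub_div, ← sub_div,
    ← key]
  field_simp

theorem closed (L : Ln R H ξ ρ S) (hJ : Jf (Ω := Ω) R H ξ ρ μ D₁ D₂ D₁' D₂' j₀ j₀' J₀) {ψ : M}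
    (hψ : ∀ O ∈ S.T, (∀ x y, Cht O x y → IsU O (jac D₁ D₂ x y * S.lb S.K O / ψ)) ∧
      ∀ j, Gn (evO ξ ρ '' H \ {0}) O j → j ∈ evO ξ ρ '' H \ {0} → ∃ a ∈ evO ξ ρ '' H \ {0},
        ∃ b ∈ evO ξ ρ '' H \ {0}, IsU O (jac D₁ D₂ (a / j) (b / j) * S.lb S.K O / ψ))
    {O : Subalgebra k F} (hO : O ∈ XX R H) (hd : Dom R O) : ∃ j w, Gn H O j ∧
      Gn (UU H J₀) O (j ^ 3 * w) ∧ IsU ξ w ∧
      IsU (red ξ ρ O) (evO ξ ρ w * j₀ * S.lb S.K (red ξ ρ O) / ψ) := by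
  have hle : O ≤ ξ := L.fib.le O hO hd
  have hT : red ξ ρ O ∈ S.T := L.eq ▸ ⟨O, ⟨hO, hd⟩, rfl⟩
  obtain ⟨j, hj, g⟩ := L.xb.gn O hO
  obtain ⟨uj, g'⟩ := L.gnU O hO hd j g
  obtain ⟨x', y', hc⟩ := L.mf.all.a1.chart _ hT
  obtain ⟨x, hx, rfl⟩ := (L.mem O hle x').1 (hc.2.2.1 (Algebra.subset_adjoin (by simp)))
  obtain ⟨y, hy, rfl⟩ := (L.mem O hle y').1 (hc.2.2.1 (Algebra.subset_adjoin (by simp)))
  have u1 := (hψ _ hT).1 _ _ hc
  obtain ⟨w1, w2⟩ := hJ.s x (hle hx) y (hle hy)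
  rw [← w2] at u1
  have w0 : evO ξ ρ (J₀ x y) ≠ 0 := fun e => u1.1 (by simp [e])
  have uw : IsU ξ (J₀ x y) := isU_of_not_mx w1 fun h => w0 ((L.lh.eq_zero_iff w1).2 h)
  have ho := hJ.o O hO hd x hx y hy hc
  refine ⟨j, J₀ x y, g, ⟨?_, ?_⟩, uw, u1⟩
  · rintro _ ⟨⟨a, b, c⟩, ⟨ha, hb, hc'⟩, rfl⟩
    obtain ⟨r1, h1, e1⟩ := ho _ (g.1 a ha) _ (g.1 b hb)
    obtain ⟨r2, h2, e2⟩ := ho _ (g.1 a ha) _ (g.1 c hc')
    obtain ⟨r3, h3, e3⟩ := ho _ (g.1 c hc') _ (g.1 b hb)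
    have := O.sub_mem (O.sub_mem (O.mul_mem (g.1 c hc') h1) (O.mul_mem (g.1 b hb) h2))
      (O.mul_mem (g.1 a ha) h3)
    convert this using 1
    dsimp only
    rw [J_div hJ a b c j (L.fm.nz c hc') g.ne, e1, e2, e3]
    have := g.ne
    have := uw.1
    field_simp
  · obtain ⟨_, ⟨⟨a, ha, rfl⟩, -⟩, _, ⟨⟨b, hb, rfl⟩, -⟩, u2⟩ :=
      (hψ _ hT).2 _ g' ⟨⟨j, hj, rfl⟩, evO_ne ρ uj⟩
    obtain ⟨r, hr, e⟩ := ho _ (g.1 a ha) _ (g.1 b hb)
    refine ⟨_, ⟨(a, b, j), ⟨ha, hb, hj⟩, rfl⟩, ?_⟩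
    rw [← evO_div ρ (L.sub a ha) uj, ← evO_div ρ (L.sub b hb) uj,
      ← (hJ.s _ (hle (g.1 a ha)) _ (hle (g.1 b hb))).2, e, evO_mul ρ (hle hr) w1] at u2
    have u3 : IsU O r := (L.isU O hO hd r hr).1 (by
      convert u2.div u1 using 1
      rw [mul_assoc, mul_assoc, mul_div_assoc, mul_div_assoc, ← mul_assoc (evO ξ ρ (J₀ x y)),
        div_self u1.1, mul_one])
    convert u3 using 1
    dsimp only
    rw [e]
    have := g.ne
    have := uw.1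
    field_simp

end Can3

open Can3 in
theorem can3_stmt : Can3Stmt := by
  intro h0 h2 k F M Ω E I J _ _ _ _ _ _ _ _ _ _ _ _ _ _ _ R H ξ ρ S μ S' L G
  obtain ⟨D₁, D₂, D₁', D₂', j₀, j₀', J₀, hJ⟩ := h2 k F M Ω E I J R H ξ ρ S μ S' L G
  obtain ⟨ψ, ψ0, hψ⟩ := h0 k M I S _ D₁ D₂ L.mf.all L.eqT (fun a ha => ha.2) hJ.n
  obtain ⟨ψ', ψ0', hψ'⟩ := h0 Ω E J S' _ D₁' D₂' G.mf.all G.eq (by
    rintro _ ⟨a, ha, rfl⟩
    simpa using L.fm.nz a ha) hJ.n'
  have hc := fun O => closed (O := O) L hJ fun O hO => ⟨(hψ O hO).1, fun j g => ((hψ O hO).2 j g).2⟩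
  have hU : Sys (XX R H) (UU H J₀) := by
    refine ⟨(L.fm.fin.prod (L.fm.fin.prod L.fm.fin)).image _, fun O hO => ?_⟩
    obtain ⟨O₁, h1, d1, hle⟩ := L.spc O hO
    obtain ⟨j, w, -, g, -⟩ := hc O₁ h1 d1
    exact g.prin.mono hle
  obtain ⟨u, hu⟩ := L.surj (ψ / j₀)
  have uu : IsU ξ u := L.lh u (by rw [hu]; exact div_ne_zero ψ0 hJ.ne)
  rw [← evO_coe] at hu
  refine ⟨fun O => u * (gn H O ^ 3 / gn (UU H J₀) O), ?_, ⟨μ u * j₀' / ψ', ?_, ?_⟩, ?_⟩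
  · convert ((L.xb.sys.dt.inv.pow 3).mul hU.dt).scal uu.1 using 3
    simp [div_eq_mul_inv]
  · exact div_ne_zero (mul_ne_zero (by simpa using uu.1) hJ.ne') ψ0'
  · intro O' hO' O hO hm
    obtain ⟨j, hj, g⟩ := L.xb.gn O hO
    obtain ⟨c1, c2⟩ := (hψ' O' hO').2 _ (gn_up hm g)
    obtain ⟨_, ⟨a, ha, rfl⟩, _, ⟨b, hb, rfl⟩, u1⟩ := c2 ⟨j, hj, rfl⟩
    have l0 : S'.lb S'.K O' ≠ 0 := fun e => u1.1 (by simp [e])
    have j0 := (gn_up hm g).ne
    have n0 := hJ.ne'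
    have e : ∀ a b c : F, μ (c ^ 3 * J₀ (a / c) (b / c)) / (μ j ^ 3 * ψ' / (S'.lb S'.K O' * j₀')) =
        μ c ^ 3 * jac D₁' D₂' (μ a / μ c) (μ b / μ c) * S'.lb S'.K O' / (μ j ^ 3 * ψ') := by
      intro a b c
      rw [← map_div₀, ← map_div₀, ← hJ.g, map_mul, map_pow]
      field_simp
    have g1 : Gn (μ '' UU H J₀) O' (μ j ^ 3 * ψ' / (S'.lb S'.K O' * j₀')) := by
      refine ⟨?_, _, ⟨_, ⟨(a, b, j), ⟨ha, hb, hj⟩, rfl⟩, rfl⟩, ?_⟩
      · rintro _ ⟨_, ⟨⟨a, b, c⟩, ⟨ha, hb, hc'⟩, rfl⟩, rfl⟩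
        exact e a b c ▸ c1 _ ⟨a, ha, rfl⟩ _ ⟨b, hb, rfl⟩ _ ⟨c, hc', rfl⟩
      · rw [e]
        convert u1 using 1
        field_simp
    have g2 := gn_up hm (gn_spec (hU.2 O hO))
    have g3 := gn_up hm (gn_spec g.prin)
    convert ((g3.unit (gn_up hm g)).pow 3).mul (g1.unit g2) using 1
    have := g2.ne
    have : μ u ≠ 0 := by simpa using uu.1
    simp only [map_mul, map_div₀, map_pow]
    field_simp
  · intro O hO hd
    obtain ⟨j, w, g, g1, uw, u1⟩ := hc O hO hd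
    have hle : O ≤ ξ := L.fib.le O hO hd
    have v := (((gn_spec g.prin).unit g).pow 3).mul (g1.unit (gn_spec g1.prin))
    have e : (u : F) * (gn H O ^ 3 / gn (UU H J₀) O) =
        (gn H O / j) ^ 3 * (j ^ 3 * w / gn (UU H J₀) O) * (u / w) := by
      have := g.ne
      have := uw.1
      field_simp
    dsimp only
    rw [e]
    refine ⟨(v.mono hle).mul (uu.div uw), ?_⟩
    rw [evO_mul ρ (hle v.2.1) (uu.div uw).2.1, evO_div ρ uu.2.1 uw, hu]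
    convert ((L.isU O hO hd _ v.2.1).2 v).div u1 using 1
    have := evO_ne ρ uw
    have := hJ.ne
    field_simp

end Pool.Agent.MP_e8e0b6_ag.R2

end Part5

section Part6

-- part 6: Cp1

/-!
The choice of two coprime sections.
-/

set_option autoImplicit false

namespace Pool.Agent.MP_e8e0b6_ag.R2

open Pool.Agent.MP_79c67d_ag Pool.Agent.MP_20d318_ag Pool.Agent.MP_20d318_ag.AG
  Pool.Agent.MP_20d318_ag.BV Pool.Agent.MP_20d318_ag.CB

namespace Cp1A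

variable {k F : Type} [Field k] [Field F] [Algebra k F] {O : Subalgebra k F} {H U : Set F}
  {a g j j' : F} {m : ℕ}

theorem span_div (h : Gn U O g) (ha : a ∈ Submodule.span k U) : a / g ∈ O := by
  induction ha using Submodule.span_induction with
  | mem b hb => exact h.1 b hb
  | zero => rw [zero_div]; exact O.zero_mem
  | add b c _ _ hb hc => rw [add_div]; exact O.add_mem hb hc
  | smul c b _ hb => rw [smul_div_assoc]; exact O.smul_mem hb c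

theorem sw (h : Gn H O j) (h' : Gn H O j') (hu : IsU O (a / (g * j ^ m))) :
    IsU O (a / (g * j' ^ m)) := by
  have h1 := h.ne
  have h2 := h'.ne
  have h3 : g ≠ 0 := left_ne_zero_of_mul (div_ne_zero_iff.1 hu.ne).2
  have e : a / (g * j' ^ m) = a / (g * j ^ m) * (j / j') ^ m := by
    rw [div_pow]; field_simp
  exact e ▸ hu.mul ((h.unit h').pow m)

end Cp1A

open Cp1A in
theorem cp1_stmt : Cp1Stmt := by
  intro hA k F M I _ _ _ _ _ _ _ R H ξ ρ S γ d m U L hb hU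
  have hN := L.mf.all.a1.nice.toFine
  have h1 : Gn H ξ 1 := gn_one L.sub ⟨1, L.one, isU_one⟩
  obtain ⟨a, ha, h2⟩ := hA k F U {ξ} (fun O => γ O * 1 ^ m) (Set.finite_singleton _) (by
    rintro _ rfl
    exact ⟨L.xb.loc _ L.fib.mem, hU _ L.fib.mem _ h1⟩)
  have hγ := (hb ξ L.fib.mem L.fib.dom).1
  have ua : IsU ξ a := by
    have := (h2 ξ rfl).mul hγ
    rwa [one_pow, mul_one, div_mul_cancel₀ _ hγ.ne] at this
  let B : Set (Place k M) := {P | plO P ∈ S.T ∧ P.ord (evO ξ ρ a) ≠ 0} ∪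
    ({P | plO P ∈ S.T ∧ P.ord (S.lb d (plO P)) ≠ 0} ∪
      ⋃ j ∈ H, {P | plO P ∈ S.T ∧ P.ord (evO ξ ρ j) ≠ 0})
  have hB : B.Finite := (hN.fin _).union ((hN.fin_cart (L.mf.all.a1.cart d)).union
    (L.fm.fin.biUnion fun j _ => hN.fin _))
  let Φ : Set (Subalgebra k F) := {O | O ∈ XX R H ∧ AG.Dom R O ∧ red ξ ρ O ∈ plO '' B}
  have hΦ : Φ.Finite := Set.Finite.of_finite_image (f := red ξ ρ)
    ((hB.image plO).subset (by rintro _ ⟨O, hO, rfl⟩; exact hO.2.2)) fun O hO O' hO' e =>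
      le_antisymm (L.rle O hO.1 hO.2.1 O' hO'.1 hO'.2.1 e.le)
        (L.rle O' hO'.1 hO'.2.1 O hO.1 hO.2.1 e.ge)
  have hg : ∀ O ∈ XX R H, Gn H O (gn H O) := fun O hO =>
    gn_spec ((L.xb.gn O hO).elim fun _ h => h.2.prin)
  obtain ⟨a', ha', h3⟩ := hA k F U Φ (fun O => γ O * gn H O ^ m) hΦ
    fun O hO => ⟨L.xb.loc _ hO.1, hU _ hO.1 _ (hg O hO.1)⟩
  refine ⟨a, ha, a', ha', ua, fun O hO j hj => span_div (hU O hO j hj) ha,
    fun O hO j hj => span_div (hU O hO j hj) ha', fun O hO hd P hP j hj => ?_⟩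
  by_cases hm : P ∈ B
  · exact Or.inr (sw (hg O hO) hj (h3 O ⟨hO, hd, P, hm, hP.symm⟩))
  obtain ⟨i, hi, h4⟩ := L.xb.gn O hO
  refine Or.inl (sw h4 hj ((L.isU O hO hd _ (span_div (hU O hO i h4) ha)).1 ?_))
  have hT : plO P ∈ S.T := by rw [← hP, L.eq]; exact ⟨O, ⟨hO, hd⟩, rfl⟩
  obtain ⟨h5, h6⟩ := hb O hO hd
  have h7 := (L.gnU O hO hd i h4).1
  rw [hP] at h6 ⊢
  have h8 := (div_ne_zero_iff.1 h6.ne).2
  have u1 : IsU (plO P) (evO ξ ρ a) :=
    (isU_plO' P).2 ⟨evO_ne ρ ua, by_contra fun h => hm (Or.inl ⟨hT, h⟩)⟩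
  have u2 : IsU (plO P) (S.lb d (plO P)) :=
    (isU_plO' P).2 ⟨h8, by_contra fun h => hm (Or.inr (Or.inl ⟨hT, h⟩))⟩
  have u3 : IsU (plO P) (evO ξ ρ i) := (isU_plO' P).2 ⟨evO_ne ρ h7, by_contra fun h =>
    hm (Or.inr (Or.inr (Set.mem_biUnion hi ⟨hT, h⟩)))⟩
  have u4 := h6.mul u2
  rw [div_mul_cancel₀ _ h8] at u4
  rw [evO_div ρ ua.mem (h5.mul (h7.pow m)), evO_mul ρ h5.mem (h7.pow m).mem, evO_pow ρ h7.mem]
  exact u1.div (u4.mul (u3.pow m))

end Pool.Agent.MP_e8e0b6_ag.R2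

end Part6

section Part7

-- part 7: Cp2

/-!
What two coprime sections detect.
-/

set_option autoImplicit false

namespace Pool.Agent.MP_e8e0b6_ag.R2

open Pool.Agent.MP_79c67d_ag Pool.Agent.MP_20d318_ag Pool.Agent.MP_20d318_ag.AG
  Pool.Agent.MP_20d318_ag.BV Pool.Agent.MP_20d318_ag.CB

namespace Cp2A

variable {k F M I : Type} [Field k] [Field F] [Field M] [Algebra k F] [Algebra k M] [Fintype I]
  {R O ξ : Subalgebra k F} {H : Set F} {ρ : ξ →ₐ[k] M} {S : Sd k M I} {a a' j : F} {m : ℕ}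
  {γ : Subalgebra k F → F} {d : I → ℤ}

/-- In a factorial ring a fraction that multiplies two coprime elements into the ring is in it. -/
theorem mem_of_cop (hO : UniqueFactorizationMonoid O) (hF : Frac O) {x α α' : F} (h : α ∈ O)
    (h' : α' ∈ O) (hc : ∀ π ∈ O, π ≠ 0 → α / π ∈ O → α' / π ∈ O → IsU O π) (h1 : x * α ∈ O)
    (h2 : x * α' ∈ O) : x ∈ O := by
  obtain ⟨p, hp, q, hq, h0, rfl⟩ := hF x
  obtain ⟨p', q', c, hr, e1, e2⟩ := UniqueFactorizationMonoid.exists_reduced_factors'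
    (⟨p, hp⟩ : O) ⟨q, hq⟩ fun e => h0 (congrArg Subtype.val e)
  obtain rfl : (c : F) * p' = p := congrArg Subtype.val e1
  obtain rfl : (c : F) * q' = q := congrArg Subtype.val e2
  have hq0 := right_ne_zero_of_mul h0
  rw [mul_div_mul_left _ _ (left_ne_zero_of_mul h0)] at h1 h2 ⊢
  have key : ∀ β ∈ O, (p' : F) / q' * β ∈ O → β / q' ∈ O := fun β hβ h3 => by
    obtain ⟨r, hr'⟩ := hr.symm.dvd_of_dvd_mul_left (z := ⟨β, hβ⟩) ⟨⟨_, h3⟩, Subtype.ext (by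
      change (p' : F) * β = q' * (p' / q' * β)
      field_simp)⟩
    obtain rfl : β = q' * r := congrArg Subtype.val hr'
    rw [mul_div_cancel_left₀ _ hq0]
    exact r.2
  exact (hc _ q'.2 hq0 (key _ h h1) (key _ h' h2)).div_mem p'.2

variable (L : Ln R H ξ ρ S)
include L

theorem span_div (hO : O ∈ XX R H) (hd : AG.Dom R O) (hj : Gn H O j) {s : M}
    (hs : s ∈ Submodule.span k (evO ξ ρ '' Fo R H m)) : s / evO ξ ρ j ^ m ∈ red ξ ρ O := by
  have hle := L.fib.le O hO hd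
  have hu := (L.gnU O hO hd j hj).1
  induction hs using Submodule.span_induction with
  | mem x hx =>
    obtain ⟨w, hw, rfl⟩ := hx
    have h1 := Fo.div_mem hj hd.1 hw
    have h2 : w ∈ ξ := by
      simpa [(hu.pow m).ne] using ξ.mul_mem (hle h1) (hu.pow m).mem
    rw [← evO_pow ρ hu.mem, ← evO_div ρ h2 (hu.pow m)]
    exact (L.mem O hle _).2 ⟨_, h1, rfl⟩
  | zero => rw [zero_div]; exact zero_mem _
  | add x y _ _ hx hy => rw [add_div]; exact add_mem hx hy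
  | smul c x _ hx => rw [smul_div_assoc]; exact Subalgebra.smul_mem _ hx c

theorem mem_red (hb : Lb R H ξ ρ S d γ) (hO : O ∈ XX R H) (hd : AG.Dom R O) (hj : Gn H O j) {s : M}
    (hu : IsU O (a / (γ O * j ^ m)))
    (hs : s * evO ξ ρ a ∈ Submodule.span k (evO ξ ρ '' Fo R H m)) :
    s * S.lb d (red ξ ρ O) ∈ red ξ ρ O := by
  have hle := L.fib.le O hO hd
  have h1 := (L.gnU O hO hd j hj).1
  obtain ⟨h2, h3⟩ := hb O hO hd
  have h4 := h2.mul (h1.pow m)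
  have ha : a ∈ ξ := by simpa [h4.ne] using ξ.mul_mem (hle hu.mem) h4.mem
  have h5 := (L.isU O hO hd _ hu.mem).2 hu
  rw [evO_div ρ ha h4, evO_mul ρ h2.mem (h1.pow m).mem, evO_pow ρ h1.mem] at h5
  have h6 := h3.div_mem (h5.div_mem (span_div L hO hd hj hs))
  have n1 := evO_ne ρ h1
  have n2 := evO_ne ρ h2
  have n3 := (div_ne_zero_iff.1 h5.ne).1
  have n4 := (div_ne_zero_iff.1 h3.ne).2
  rwa [show s * evO ξ ρ a / evO ξ ρ j ^ m / (evO ξ ρ a / (evO ξ ρ (γ O) * evO ξ ρ j ^ m)) /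
    (evO ξ ρ (γ O) / S.lb d (red ξ ρ O)) = s * S.lb d (red ξ ρ O) by field_simp] at h6

theorem cop (hγ : Dt (XX R H) γ) (hb : Lb R H ξ ρ S d γ) (hc : Cp R H ξ ρ γ m a a')
    (hO : O ∈ XX R H) (hd : AG.Dom R O) (hj : Gn H O j) :
    ∀ π ∈ O, π ≠ 0 → a / (γ O * j ^ m) / π ∈ O → a' / (γ O * j ^ m) / π ∈ O → IsU O π := by
  intro π hπ h0 h1 h2
  have hle := L.fib.le O hO hd
  have hN := L.mf.all.a1.nice
  have key : ∀ (W : Subalgebra k F) (α : F), O ≤ W → α / π ∈ O → IsU W α → IsU W π :=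
    fun W α h3 h4 h5 => IsU.of_mul (h3 hπ) (h3 h4) (by rwa [mul_div_cancel₀ _ h0])
  have h3 : IsU ξ π := key ξ _ hle h1
    (hc.ua.div ((hb O hO hd).1.mul ((L.gnU O hO hd j hj).1.pow m)))
  refine (L.isU O hO hd π hπ).1 ⟨evO_ne ρ h3, (L.mem O hle _).2 ⟨π, hπ, rfl⟩,
    hN.krull (L.eq ▸ ⟨O, ⟨hO, hd⟩, rfl⟩) fun P hP h4 => ?_⟩
  rw [L.eq] at hP
  obtain ⟨O₂, ⟨h5, h6⟩, e⟩ := hP
  have h7 : O ≤ O₂ := L.rle O hO hd O₂ h5 h6 (e ▸ h4)
  have h8 := hγ.cmp hO h5 h7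
  have n := (div_ne_zero_iff.1 h8.ne).2
  have h9 : ∀ b, IsU O₂ (b / (γ O₂ * j ^ m)) → IsU O₂ (b / (γ O * j ^ m)) := fun b h => by
    have := h.div h8
    rwa [show b / (γ O₂ * j ^ m) / (γ O / γ O₂) = b / (γ O * j ^ m) by field_simp] at this
  have h10 : IsU O₂ π := (hc.cop O₂ h5 h6 P e j (hj.mono h7)).elim
    (fun h => key _ _ h7 h1 (h9 _ h)) fun h => key _ _ h7 h2 (h9 _ h)
  exact e ▸ ((L.isU O₂ h5 h6 π h10.mem).2 h10).inv_mem

end Cp2A

open Cp2A in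
theorem cp2_stmt : Cp2Stmt := by
  intro k F M I _ _ _ _ _ _ R H ξ ρ S γ d m a a' L hγ hb hc
  refine ⟨fun s hs Q hQ => ?_, fun z hz O hO => ?_⟩
  · by_cases h0 : s = 0
    · rw [h0, zero_mul]; exact zero_mem _
    refine L.mf.all.a1.nice.eff (L.mf.all.a1.pcart d s h0) hQ fun P hP _ => mem_plO_ord.1 ?_
    rw [L.eq] at hP
    obtain ⟨O, ⟨hO, hd⟩, e⟩ := hP
    obtain ⟨j, -, hj⟩ := L.xb.gn O hO
    rw [← e]
    exact (hc.cop O hO hd P e j hj).elim (fun h => mem_red L hb hO hd hj h (mem_Zs.1 hs).1)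
      fun h => mem_red L hb hO hd hj h (mem_Zs.1 hs).2
  · obtain ⟨O₁, h1, hd, hle⟩ := L.spc O hO
    obtain ⟨j, -, hj⟩ := L.xb.gn O₁ h1
    have n := hγ.ne h1
    have e : ∀ b, z * γ O₁ * (b / (γ O₁ * j ^ m)) = z * b / j ^ m := fun b => by field_simp
    have h2 : z * γ O₁ ∈ O₁ := mem_of_cop (L.fm.ufd O₁ h1) (L.xb.frac O₁ h1) (hc.du O₁ h1 j hj)
      (hc.du' O₁ h1 j hj) (cop L hγ hb hc h1 hd hj)
      (e a ▸ Fo.div_mem hj hd.1 (mem_Zs.1 hz).1) (e a' ▸ Fo.div_mem hj hd.1 (mem_Zs.1 hz).2)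
    have h3 := (hγ.cmp h1 hO hle).div_mem (hle h2)
    rwa [show z * γ O₁ / (γ O₁ / γ O) = z * γ O by field_simp] at h3

end Pool.Agent.MP_e8e0b6_ag.R2

end Part7
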