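import Pool.Agent.MP_e8e0b6_ag.R2.SpecA

section Part1

-- part 1: Del

/-!
The local ring of the closed fibre is finite over the lifted plane.
-/

set_option autoImplicit false

namespace Pool.Agent.MP_e8e0b6_ag.R2

open Pool.Agent.MP_79c67d_ag Pool.Agent.MP_20d318_ag Pool.Agent.MP_20d318_ag.AG
  Pool.Agent.MP_20d318_ag.BV Pool.Agent.MP_20d318_ag.CB
open scoped IntermediateField

theorem del_stmt : DelStmt := by
  intro hVN k F M I _ _ _ _ _ _ R H ξ ρ S x y L hx hy hi hv e _ he hs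
  set P := fr (pl R (x, y)) ξ with hP
  have hxy : ∀ i, ![x, y] i ∈ ξ := fun i => by fin_cases i <;> simpa
  have hA : Algebra.adjoin k {x, y} ≤ pl R (x, y) := le_sup_right
  have hpl : pl R (x, y) ≤ ξ :=
    sup_le L.fib.dom.1 (Algebra.adjoin_le (by rintro _ (rfl | rfl) <;> assumption))
  have hd : Dom P ξ := ⟨fr_le hpl, fun u hu h => ⟨h.1, hu, inv_mem_fr hu hpl h⟩⟩
  have hξ := L.xb.loc ξ L.fib.mem
  have hl : IsLocalRing P := isLocalRing_of fun a ha b hb =>
    mx_of_le hd.1 (P.add_mem ha.1 hb.1) (mx_add hξ (hd.mx ha) (hd.mx hb))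
  have hR : Dom R P := L.fib.dom.of_le ((le_sup_left : R ≤ pl R (x, y)).trans le_fr) hd.1
  have ev : ∀ p : MvPolynomial (Fin 2) k, evO ξ ρ (MvPolynomial.aeval ![x, y] p) =
      MvPolynomial.aeval ![evO ξ ρ x, evO ξ ρ y] p := fun p => by
    rw [evO_aeval ρ hxy]
    congr 2
    funext i; fin_cases i <;> rfl
  have hu : ∀ a ∈ ξ, evO ξ ρ a ≠ 0 → IsU ξ a := fun a ha h =>
    isU_of_not_mx ha fun hm => h ((L.lh.eq_zero_iff ha).2 hm)
  have hin : ∀ p : MvPolynomial (Fin 2) k, MvPolynomial.aeval ![x, y] p ∈ P := fun p =>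
    le_fr (hA (mem_adjoin_pair.2 ⟨p, rfl⟩))
  have h1 : ξ ∈ Pts (P ⊔ Algebra.adjoin k H) := by
    refine Pts_of_le ((L.xb.pts 1 L.one ξ).2 ⟨L.fib.mem, gn_of_mem L.one one_ne_zero
      (by simpa using L.sub)⟩) (ch_le.2 ⟨hR.1.trans le_sup_left, fun a ha => ?_⟩)
      (sup_le hd.1 (Algebra.adjoin_le L.sub))
    rw [div_one]
    exact (le_sup_right : _ ≤ P ⊔ Algebra.adjoin k H) (Algebra.subset_adjoin ha)
  have h2 : ∀ V : Subalgebra k F, IsVal V → Dom P V → Dom ξ V := fun V hV h => by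
    obtain ⟨O, hO, h3⟩ := L.xb.val V hV (hR.1.trans h.1)
    have h4 : Dom R O := (hR.trans h).of_le (L.xb.le O hO) h3.1
    have h5 : Ind V ![x, y] := by
      refine ⟨fun i => h.1 ?_, fun p hp => (hd.2 _ (hin p) (hu _ (hd.1 (hin p)) ?_)).mono h.1⟩
      · simpa using hin (MvPolynomial.X i)
      · rw [ev]
        exact fun h0 => hp (algebraicIndependent_iff.1 hi p h0)
    obtain ⟨h6, h7⟩ := hv O hO h4 V hV h3 h5
    have h8 : ∀ i, ![x, y] i ∈ O := fun i => by fin_cases i <;> simpa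
    have hle := L.fib.le O hO h4
    have h9 : ¬ Dim (red ξ ρ O) 1 := fun h0 => h0 ⟨![evO ξ ρ x, evO ξ ρ y], fun i => by
      fin_cases i
      · exact (L.mem O hle _).2 ⟨x, h6, rfl⟩
      · exact (L.mem O hle _).2 ⟨y, h7, rfl⟩, fun p hp => by
      rw [← ev]
      exact (L.isU O hO h4 _ (aeval_mem h8 p)).2 (h3.2 _ (aeval_mem h8 p) (h5.2 p hp))⟩
    have hT : red ξ ρ O ∈ S.T := L.eq ▸ ⟨O, ⟨hO, h4⟩, rfl⟩
    rcases L.mf.all.a1.tri _ hT with h0 | h0 | ⟨Q, h0⟩
    · rwa [le_antisymm hle (L.rle ξ L.fib.mem L.fib.dom O hO h4 (h0 ▸ le_top))] at h3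
    · exact (h9 h0.dim.succ).elim
    · exact (h9 (h0 ▸ (L.mf.all.a1.dim Q (h0 ▸ hT)).2)).elim
  obtain ⟨W, hW, hz⟩ := hVN k F P ξ H hl L.fm.fin h1 h2
  have h3 : ∀ c ∈ k⟮evO ξ ρ x, evO ξ ρ y⟯, ∃ a ∈ P, evO ξ ρ a = c := fun c hc => by
    obtain ⟨r, hr, s, hs, rfl⟩ := IntermediateField.mem_adjoin_iff_div.1 hc
    obtain ⟨p, rfl⟩ := mem_adjoin_pair.1 hr
    obtain ⟨q, rfl⟩ := mem_adjoin_pair.1 hs
    rw [← ev, ← ev]
    by_cases h0 : evO ξ ρ (MvPolynomial.aeval ![x, y] q) = 0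
    · exact ⟨0, P.zero_mem, by rw [h0, div_zero, evO_zero]⟩
    · have h4 := hu _ (hd.1 (hin q)) h0
      exact ⟨_, (hd.2 _ (hin q) h4).div_mem (hin p), evO_div ρ (hd.1 (hin p)) h4⟩
  have h4 : ∀ a ∈ Submodule.span P e, a ∈ ξ := fun a ha => by
    simpa using span_div_mem (a := 1) (fun u hu => by simpa using he u hu) hd.1 ha
  have h5 : ∀ m ∈ Submodule.span k⟮evO ξ ρ x, evO ξ ρ y⟯ (evO ξ ρ '' e),
      ∃ a ∈ Submodule.span P e, evO ξ ρ a = m := fun m hm => by
    induction hm using Submodule.span_induction with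
    | mem _ h =>
      obtain ⟨a, ha, rfl⟩ := h
      exact ⟨a, Submodule.subset_span ha, rfl⟩
    | zero => exact ⟨0, zero_mem _, evO_zero ρ⟩
    | add _ _ _ _ g1 g2 =>
      obtain ⟨a, ha, rfl⟩ := g1
      obtain ⟨b, hb, rfl⟩ := g2
      exact ⟨a + b, add_mem ha hb, evO_add ρ (h4 a ha) (h4 b hb)⟩
    | smul c _ _ g1 =>
      obtain ⟨a, ha, rfl⟩ := g1
      obtain ⟨b, hb, g2⟩ := h3 c c.2
      refine ⟨b * a, Submodule.smul_mem _ (⟨b, hb⟩ : P) ha, ?_⟩
      rw [evO_mul ρ (hd.1 hb) (h4 a ha), g2]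
      rfl
  have h6 : ∀ a ∈ Submodule.span ξ (mx R), ∀ c ∈ ξ,
      c * a ∈ IsLocalRing.maximalIdeal P • Submodule.span P W := fun a ha => by
    induction ha using Submodule.span_induction with
    | mem a h =>
      intro c hc
      rw [mul_comm]
      exact Submodule.smul_mem_smul (r := (⟨a, hR.1 h.1⟩ : P))
        ((mem_mx_iff _).1 (hR.mx h)) ((hz c).1 hc)
    | zero => intro c _; rw [mul_zero]; exact zero_mem _
    | add a b _ _ g1 g2 => intro c hc; rw [mul_add]; exact add_mem (g1 c hc) (g2 c hc)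
    | smul r a _ g1 =>
      intro c hc
      change c * ((r : F) * a) ∈ _
      rw [← mul_assoc]
      exact g1 _ (ξ.mul_mem hc r.2)
  intro z hz'
  refine Submodule.le_of_le_smul_of_le_jacobson_bot (Submodule.fg_span hW)
    (IsLocalRing.maximalIdeal_le_jacobson _) (fun w hw => ?_) ((hz z).1 hz')
  have hw' := (hz w).2 hw
  obtain ⟨a, ha, h7⟩ := h5 (evO ξ ρ w) (hs ▸ Submodule.mem_top)
  have h8 := ξ.sub_mem hw' (h4 a ha)
  have h9 := h6 _ (L.fib.red ξ L.fib.mem L.fib.dom _ h8 ((L.lh.eq_zero_iff h8).1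
    (by rw [evO_sub ρ hw' (h4 a ha), h7, sub_self]))) 1 ξ.one_mem
  rw [one_mul] at h9
  simpa using Submodule.add_mem_sup ha h9

end Pool.Agent.MP_e8e0b6_ag.R2

end Part1

section Part2

-- part 2: DtA

/-!
Line bundles on a family: generation by sections after a twist, and rational classes.
-/

set_option autoImplicit false

namespace Pool.Agent.MP_e8e0b6_ag.R2

open Pool.Agent.MP_79c67d_ag Pool.Agent.MP_20d318_ag Pool.Agent.MP_20d318_ag.AG
  Pool.Agent.MP_20d318_ag.BV Pool.Agent.MP_20d318_ag.CB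
open scoped Pointwise

namespace DtA

variable {k F : Type} [Field k] [Field F] [Algebra k F] {C O : Subalgebra k F} {H U : Set F}

/-- The inverse of a principal fractional ideal. -/
theorem unit {a₀ a j : F} {N : ℕ} (h₀ : Gn U O a₀) (ha : a ≠ 0) (hj : j ≠ 0)
    (h : ∀ b, (∀ u ∈ U, b * u ∈ O) ↔ b * j ^ N / a ∈ O) : IsU O (a₀ * a / j ^ N) := by
  have n0 := h₀.ne
  have n1 := pow_ne_zero N hj
  refine ⟨div_ne_zero (mul_ne_zero n0 ha) n1, ?_, ?_⟩
  · obtain ⟨u, hu, v⟩ := h₀.2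
    have n2 := (div_ne_zero_iff.1 v.1).1
    have h1 := (h (a / j ^ N)).2 (by
      rw [div_mul_cancel₀ _ n1, div_self ha]
      exact O.one_mem) u hu
    have e : a₀ * a / j ^ N = a / j ^ N * u / (u / a₀) := by field_simp
    exact e ▸ v.div_mem h1
  · have h1 := (h a₀⁻¹).1 fun u hu => by
      rw [inv_mul_eq_div]
      exact h₀.1 u hu
    have e : (a₀ * a / j ^ N)⁻¹ = a₀⁻¹ * j ^ N / a := by field_simp
    exact e ▸ h1

theorem top_mem (fm : Fm C H) : ⊤ ∈ XX C H :=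
  fm.ne.elim fun j hj => ⟨j, hj, top_mem_Pts (fm.frac j hj)⟩

theorem gen (hI : InvStmt) : Gen := by
  intro k F _ _ _ C H γ xb ⟨U, V, hU, hV, h⟩
  obtain ⟨u, hu, g⟩ := (hU.2 ⊤ (top_mem xb.fm)).exists_mem
  obtain ⟨N, V', fin, hV'⟩ := hI k F C H U xb.fm hU.1 ⟨u, hu, g.ne⟩
  refine ⟨N, V * V', hV.1.mul fin, fun O hO j' gj' => ?_⟩
  obtain ⟨a, b, g1, g2, v⟩ := h O hO
  obtain ⟨a', j, g3, g4, hb⟩ := hV' O hO
  refine (gn_mul g2 g3).of_unit ?_
  have := g1.ne; have := g2.ne; have := g3.ne; have := g4.ne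
  have e : γ O * j' ^ N / (b * a') = γ O * a / b * (j' / j) ^ N / (a * a' / j ^ N) := by
    rw [div_pow]
    field_simp
  exact e ▸ (v.mul ((gj'.unit g4).pow N)).div (unit g1 g3.ne g4.ne hb)

variable {Ω E J : Type} [Field Ω] [Field E] [Algebra k E] [Algebra Ω E] [Fintype J]
  {μ : F →ₐ[k] E} {S' : Sd Ω E J}

theorem one (hI : InvStmt) (xb : Xb C H) (gm : Gm C H μ S') (hU : U.Finite) {c : J → ℤ}
    (hc : Cl S' (μ '' U) c) : ∃ γ, Dt (XX C H) γ ∧ Lg (XX C H) μ S' c γ := by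
  obtain ⟨φ, h0, hφ⟩ := hc
  obtain ⟨_, ⟨u₀, hu₀, rfl⟩, g₀⟩ := (hφ ⊤ gm.mf.all.a1.nice.toFine.top).exists_mem
  obtain ⟨N, V, fin, hV⟩ := hI k F C H U xb.fm hU ⟨u₀, hu₀, fun e => g₀.ne (by rw [e, map_zero])⟩
  have sV : Sys (XX C H) V := ⟨fin, fun O hO => by
    obtain ⟨a, -, g, -⟩ := hV O hO
    exact g.prin⟩
  have dt := sV.dt.inv.mul (xb.sys.dt.pow N)
  refine ⟨_, dt, φ⁻¹, inv_ne_zero h0, fun O' hO' O hO hle => ?_⟩
  obtain ⟨O₁, hO₁, e₁⟩ := gm.bg O' hO'
  have up : ∀ z, IsU O₁ z ↔ IsU O' (μ z) := fun z => by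
    simp only [IsU, e₁, map_inv₀, ne_eq, map_eq_zero]
  have cm := dt.cmp hO hO₁ fun a ha => (e₁ a).2 (hle a ha)
  obtain ⟨_, ⟨u, hu, rfl⟩, g⟩ := (hφ O' hO').exists_mem
  have n0 : u ≠ 0 := fun e => g.ne (by rw [e, map_zero])
  have gu : Gn U O₁ u := gn_of_mem hu n0 fun b hb => (e₁ _).2 (by
    rw [map_div₀]
    exact g.1 _ ⟨b, hb, rfl⟩)
  obtain ⟨a, j, g3, g4, hb⟩ := hV O₁ hO₁
  have g5 := gn_spec g3.prin
  have g6 := gn_spec g4.prin
  have u1 := (((unit gu g3.ne g4.ne hb).mul (g5.unit g3)).mul ((g4.unit g6).pow N)).mul cm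
  have e2 : ((fun O => (gn V O)⁻¹)⁻¹ * (fun O => (gn H O)⁻¹) ^ N : Subalgebra k F → F) O₁ =
      gn V O₁ / gn H O₁ ^ N := by
    simp only [Pi.mul_apply, Pi.inv_apply, Pi.pow_apply, inv_inv, inv_pow, div_eq_mul_inv]
  rw [e2] at u1
  generalize ((fun O => (gn V O)⁻¹)⁻¹ * (fun O => (gn H O)⁻¹) ^ N : Subalgebra k F → F) O = z
    at u1 ⊢
  have u2 : IsU O₁ (u * z) := by
    have := g3.ne; have := g4.ne; have := g5.ne; have := g6.ne
    have e : u * z = u * a / j ^ N * (gn V O₁ / a) * (j / gn H O₁) ^ N *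
        (z / (gn V O₁ / gn H O₁ ^ N)) := by
      rw [div_pow]
      field_simp
    exact e ▸ u1
  have u3 := ((up _).1 u2).div (g.unit (hφ O' hO'))
  have := g.ne
  have e : μ z / (φ⁻¹ * S'.lb c O') = μ (u * z) / (μ u / (φ * (S'.lb c O')⁻¹)) := by
    rw [map_mul]
    field_simp
  exact e ▸ u3

end DtA

theorem dtA_stmt : DtAStmt := by
  intro hX hM hB hL hI
  refine ⟨DtA.gen hI, ?_⟩
  intro k F Ω E J _ _ _ _ _ _ _ _ _ _ C H μ S' fm gc rat c
  have xb := hX k F C H fm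
  have gm : Gm C H μ S' := ⟨gc, hM Ω E J S' gc.mrk, hB k F Ω E J C H μ S' xb gc⟩
  have lw := hL k F Ω E J C H μ S' xb gm
  obtain ⟨U, V, c₁, c₂, hU, hV, h1, h2, rfl⟩ := rat c
  obtain ⟨γ₁, d1, l1⟩ := DtA.one hI xb gm hU h1
  obtain ⟨γ₂, d2, l2⟩ := DtA.one hI xb gm hV h2
  exact ⟨γ₁ * γ₂⁻¹, d1.mul d2.inv, sub_eq_add_neg c₁ c₂ ▸ lw.mul _ _ _ _ l1 (lw.inv _ _ l2)⟩

end Pool.Agent.MP_e8e0b6_ag.R2

end Part2

section Part3

-- part 3: Dual

/-!
Extension of the constants commutes with intersections.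
-/

set_option autoImplicit false

namespace Pool.Agent.MP_e8e0b6_ag.R2

section dual

variable {k F Ω E : Type} [Field k] [Field F] [Field Ω] [Field E] [Algebra k F] [Algebra k E]
  [Algebra Ω E] (μ : F →ₐ[k] E)

theorem dual_span (K : IntermediateField k F) (hK : ∀ c ∈ K, μ c ∈ Set.range (algebraMap Ω E))
    (s : Set F) {z : F} (hz : z ∈ Submodule.span K s) : μ z ∈ Submodule.span Ω (μ '' s) := by
  induction hz using Submodule.span_induction with
  | mem x hx => exact Submodule.subset_span ⟨x, hx, rfl⟩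
  | zero => simp
  | add x y _ _ hx hy => rw [map_add]; exact add_mem hx hy
  | smul r x _ hx =>
    obtain ⟨ω, e⟩ := hK r r.2
    have e1 : μ (r • x) = ω • μ x := by
      rw [Algebra.smul_def ω, e, ← map_mul]
      rfl
    rw [e1]
    exact Submodule.smul_mem _ _ hx

theorem dual_field (K : IntermediateField k F) (hK : ∀ c ∈ K, μ c ∈ Set.range (algebraMap Ω E))
    (hl : ∀ (ι : Type) (v : ι → F), LinearIndependent K v → LinearIndependent Ω fun i => μ (v i))
    (P P' : Submodule K F) : Submodule.span Ω (μ '' P) ⊓ Submodule.span Ω (μ '' P') ≤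
      Submodule.span Ω (μ '' (P ⊓ P' : Submodule K F)) := by
  obtain ⟨R, hR⟩ := Submodule.exists_isCompl (P ⊓ P')
  have hb : ∀ Q : Submodule K F, ∃ (ι : Type) (v : ι → F), LinearIndependent K v ∧
      Submodule.span K (Set.range v) = Q := fun Q => by
    obtain ⟨b, -, h1, h2⟩ := exists_linearIndependent K (Q : Set F)
    exact ⟨b, Subtype.val, h2, by rw [Subtype.range_coe, h1, Submodule.span_eq]⟩
  obtain ⟨ι, v, h1, h2⟩ := hb P
  obtain ⟨κ, w, h3, h4⟩ := hb (R ⊓ P')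
  have h5 : Disjoint (Submodule.span K (Set.range v)) (Submodule.span K (Set.range w)) := by
    rw [h2, h4, Submodule.disjoint_def]
    exact fun z a b => Submodule.disjoint_def.1 hR.disjoint z ⟨a, b.2⟩ b.1
  have h6 := (linearIndependent_sum.1 (hl _ _ (h1.sum_type h3 h5))).2.2
  have h7 : ∀ {ι : Type} (v : ι → F), Submodule.span Ω (μ '' Submodule.span K (Set.range v)) ≤
      Submodule.span Ω (Set.range fun i => μ (v i)) := fun v => by
    refine Submodule.span_le.2 ?_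
    rintro _ ⟨z, hz, rfl⟩
    have := dual_span μ K hK _ hz
    rwa [← Set.range_comp] at this
  have h8 : Submodule.span Ω (μ '' P') ≤ Submodule.span Ω (μ '' (P ⊓ P' : Submodule K F)) ⊔
      Submodule.span Ω (μ '' (R ⊓ P' : Submodule K F)) := by
    refine Submodule.span_le.2 ?_
    rintro _ ⟨z, hz, rfl⟩
    have h9 : z ∈ (P ⊓ P') ⊔ (R ⊓ P') := by
      rw [← sup_inf_assoc_of_le R inf_le_right, hR.sup_eq_top, top_inf_eq]
      exact hz
    obtain ⟨a, ha, b, hb, rfl⟩ := Submodule.mem_sup.1 h9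
    rw [map_add]
    exact Submodule.add_mem_sup (Submodule.subset_span ⟨a, ha, rfl⟩)
      (Submodule.subset_span ⟨b, hb, rfl⟩)
  intro x hx
  obtain ⟨a, ha, b, hb, rfl⟩ := Submodule.mem_sup.1 (h8 hx.2)
  have h9 : b ∈ Submodule.span Ω (μ '' P) :=
    (Submodule.add_mem_iff_right _ (Submodule.span_mono (Set.image_mono fun _ h => h.1) ha)).1 hx.1
  rw [← h2] at h9
  rw [← h4] at hb
  rw [Submodule.disjoint_def.1 h6 b (h7 v h9) (h7 w hb), add_zero]
  exact ha

theorem dual_frac (C : Subalgebra k F) {z : F}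
    (hz : z ∈ IntermediateField.adjoin k (C : Set F)) : ∃ a ∈ C, ∃ b ∈ C, b ≠ 0 ∧ z = a / b := by
  obtain ⟨a, ha, b, hb, e⟩ := IntermediateField.mem_adjoin_iff_div.1 hz
  rw [Algebra.adjoin_eq] at ha hb
  by_cases h : b = 0
  · exact ⟨0, C.zero_mem, 1, C.one_mem, one_ne_zero, by simp [e, h]⟩
  · exact ⟨a, ha, b, hb, h, e⟩

/-- The elements with a multiple in `N`. -/
def dualSat (C : Subalgebra k F) (N : Submodule C F) :
    Submodule (IntermediateField.adjoin k (C : Set F)) F where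
  carrier := {z | ∃ c ∈ C, c ≠ 0 ∧ c * z ∈ N}
  zero_mem' := ⟨1, C.one_mem, one_ne_zero, by simp⟩
  add_mem' := by
    rintro x y ⟨c, hc, c0, hx⟩ ⟨d, hd, d0, hy⟩
    refine ⟨c * d, C.mul_mem hc hd, mul_ne_zero c0 d0, ?_⟩
    have e : c * d * (x + y) = (⟨d, hd⟩ : C) • (c * x) + (⟨c, hc⟩ : C) • (d * y) := by
      change _ = d * (c * x) + c * (d * y)
      ring
    rw [e]
    exact N.add_mem (N.smul_mem _ hx) (N.smul_mem _ hy)
  smul_mem' := by
    rintro r x ⟨c, hc, c0, hx⟩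
    obtain ⟨a, ha, b, hb, b0, e⟩ := dual_frac C r.2
    refine ⟨c * b, C.mul_mem hc hb, mul_ne_zero c0 b0, ?_⟩
    have e1 : c * b * (r • x) = (⟨a, ha⟩ : C) • (c * x) := by
      change c * b * ((r : F) * x) = a * (c * x)
      rw [e]
      field_simp
    rw [e1]
    exact N.smul_mem _ hx

end dual

theorem dual_stmt : DualStmt := by
  intro k F Ω E _ _ _ _ _ _ _ C μ hC hl N N'
  have hK : ∀ c ∈ IntermediateField.adjoin k (C : Set F), μ c ∈ Set.range (algebraMap Ω E) := by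
    intro c hc
    obtain ⟨a, ha, b, hb, -, rfl⟩ := dual_frac C hc
    obtain ⟨α, e1⟩ := hC a ha
    obtain ⟨β, e2⟩ := hC b hb
    exact ⟨α / β, by rw [map_div₀, map_div₀, e1, e2]⟩
  have h1 := dual_field μ _ hK (fun ι v hv => hl ι v ?_) (dualSat C N) (dualSat C N')
  · have h2 : ∀ N : Submodule C F, (N : Set F) ⊆ dualSat C N := fun N z hz =>
      ⟨1, C.one_mem, one_ne_zero, by simpa using hz⟩
    refine (inf_le_inf (Submodule.span_mono (Set.image_mono (h2 N)))
      (Submodule.span_mono (Set.image_mono (h2 N')))).trans (h1.trans (Submodule.span_le.2 ?_))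
    rintro _ ⟨z, ⟨⟨c, hc, c0, hx⟩, ⟨d, hd, d0, hy⟩⟩, rfl⟩
    have h3 : c * d * z ∈ N ⊓ N' := by
      refine ⟨?_, ?_⟩
      · have e : c * d * z = (⟨d, hd⟩ : C) • (c * z) := by
          change _ = d * (c * z)
          ring
        rw [e]
        exact N.smul_mem _ hx
      · rw [mul_assoc]
        exact N'.smul_mem (⟨c, hc⟩ : C) hy
    obtain ⟨ω, e⟩ := hC _ (C.mul_mem hc hd)
    have h4 : μ (c * d) ≠ 0 := (map_ne_zero μ).2 (mul_ne_zero c0 d0)
    have e1 : μ z = ω⁻¹ • μ (c * d * z) := by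
      rw [Algebra.smul_def, map_inv₀, e, map_mul μ (c * d), inv_mul_cancel_left₀ h4]
    rw [e1]
    exact Submodule.smul_mem _ _ (Submodule.subset_span ⟨_, h3, rfl⟩)
  · rw [linearIndependent_iff'] at hv ⊢
    intro s g h i hi
    have h5 := hv s (fun i => ⟨g i, IntermediateField.subset_adjoin k _ (g i).2⟩) h i hi
    have h6 : (g i : F) = 0 := congrArg Subtype.val h5
    exact Subtype.ext h6

end Pool.Agent.MP_e8e0b6_ag.R2

end Part3

section Part4

-- part 4: Exb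

/-! Exactness of the multiples of the hyperplane class passes to the blow-up. -/

set_option autoImplicit false

namespace Pool.Agent.MP_e8e0b6_ag.R2

open Pool.Agent.MP_79c67d_ag Pool.Agent.MP_20d318_ag Pool.Agent.MP_20d318_ag.AG
  Pool.Agent.MP_20d318_ag.BV Pool.Agent.MP_20d318_ag.CB

namespace Exb

variable {k M : Type} [Field k] [Field M] [Algebra k M]

theorem ind_poly {O : Subalgebra k M} {t : M} (h : Ind O ![t]) {q : Polynomial k} (hq : q ≠ 0) :
    IsU O (Polynomial.aeval t q) := by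
  have := h.2 (q.toMvPolynomial 0) fun e => hq
    (Polynomial.toMvPolynomial_injective (0 : Fin 1) (e.trans (map_zero _).symm))
  rwa [MvPolynomial.aeval_toMvPolynomial] at this

theorem rank_step {V V' : Submodule k M} [FiniteDimensional k V] (hle : V' ≤ V) (u t : M) (n : ℕ)
    (h1 : ∀ l < n, u * t ^ l ∈ V)
    (h2 : ∀ q : Polynomial k, q ≠ 0 → u * Polynomial.aeval t q ∉ V') :
    Module.finrank k V' + n ≤ Module.finrank k V := by
  let L : Polynomial.degreeLT k n →ₗ[k] M :=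
    LinearMap.mulLeft k u ∘ₗ (Polynomial.aeval t).toLinearMap ∘ₗ (Polynomial.degreeLT k n).subtype
  have hL : ∀ q, L q = u * Polynomial.aeval t q.1 := fun _ => rfl
  have k0 : ∀ q, L q ∈ V' → q = 0 := fun q hq => by
    by_contra e
    exact h2 q.1 (fun e' => e (Subtype.ext e')) hq
  have inj : Function.Injective L := (injective_iff_map_eq_zero L).2 fun q hq =>
    k0 q (hq ▸ V'.zero_mem)
  have le : LinearMap.range L ≤ V := by
    rintro _ ⟨q, rfl⟩
    by_cases e : q.1 = 0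
    · rw [hL, e, map_zero, mul_zero]
      exact V.zero_mem
    rw [hL, Polynomial.aeval_eq_sum_range'
      ((Polynomial.natDegree_lt_iff_degree_lt e).2 (Polynomial.mem_degreeLT.1 q.2)), Finset.mul_sum]
    refine V.sum_mem fun l hl => ?_
    rw [mul_smul_comm]
    exact V.smul_mem _ (h1 l (Finset.mem_range.1 hl))
  have bot : V' ⊓ LinearMap.range L = ⊥ := eq_bot_iff.2 <| by
    rintro _ ⟨hq, q, rfl⟩
    rw [k0 q hq, map_zero]
    exact Submodule.zero_mem _
  have : FiniteDimensional k V' := Submodule.finiteDimensional_of_le hle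
  have : FiniteDimensional k (LinearMap.range L) := Submodule.finiteDimensional_of_le le
  have e := Submodule.finrank_sup_add_finrank_inf_eq V' (LinearMap.range L)
  rw [bot, finrank_bot, add_zero, LinearMap.finrank_range_of_inj inj,
    (Polynomial.degreeLTEquiv k n).finrank_eq, Module.finrank_fin_fun] at e
  rw [← e]
  exact Submodule.finrank_mono (sup_le hle le)

end Exb

open Exb in
theorem exb_stmt : ExbStmt := by
  intro k M I _ _ _ _ _ _ S O₀ a b H' e E h s s' m hm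
  have l2 : ∀ O, S.lb ((2 : ℤ) • S.h) O = S.lb S.h O ^ 2 := fun O => by
    rw [S.lb_zsmul, zpow_ofNat]
  have lm : ∀ O, S.lb ((2 * m) • S.h) O = S.lb S.h O ^ (2 * m) := fun O => by
    rw [← natCast_zsmul, S.lb_zsmul, zpow_natCast]
  obtain ⟨s0, hs0, u0⟩ := (s.s.gH O₀ h.mem).2
  rw [div_inv_eq_mul] at u0
  have m0 : ∀ O ∈ S.T, s0 * S.lb S.h O ∈ O := fun O hO =>
    div_inv_eq_mul s0 _ ▸ (s.s.gH O hO).1 s0 hs0
  have sec : ∀ α ∈ H', ∀ O ∈ S.T, α * S.lb S.h O ^ 2 ∈ O := fun α hα O hO =>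
    l2 O ▸ ((h.sec ((2 : ℤ) • S.h) (-1) α).1 fun O hO =>
      div_inv_eq_mul α _ ▸ (h.gH O hO).1 α hα).1 O hO
  obtain ⟨j, hj, hpt⟩ : plO E ∈ mp k (fun _ : Unit => H') := h.mE
  have hm' : ∀ α ∈ H', α / j () ∈ plO E := fun α hα =>
    hpt.2.1 (Algebra.subset_adjoin (Set.mem_iUnion.2 ⟨(), α, hα, rfl⟩))
  obtain ⟨α, hα, hi⟩ : ∃ α ∈ H', Ind (plO E) ![α / j ()] := by
    by_contra hc
    refine (s'.a1.dim E h.mE).1 (ratPt_of hpt rfl fun g hg => ?_)
    obtain ⟨⟨⟩, α, hα, rfl⟩ := Set.mem_iUnion.1 hg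
    exact (s'.a1.ind E h.mE _ (hm' α hα)).resolve_left fun k1 => hc ⟨α, hα, k1⟩
  have j0 : j () ≠ 0 := h.fam.nz () _ (hj ())
  have e0 : e (plO E) ≠ 0 := h.cart.ne h.mE
  have vj : E.v (j () * S.lb S.h O₀ ^ 2) = WithZero.exp (-1) := by
    have u1 := (gn_of_mem (hj ()) j0 hm').unit (h.gH _ h.mE)
    rw [div_inv_eq_mul] at u1
    change IsU _ (_ * (S.blow H' e).lb (pb _ _) _) at u1
    rw [lb_pb, (h.ov _ h.mE h.dE).1, l2, zpow_neg_one, ← mul_assoc, isU_plO, map_mul, map_inv₀,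
      mul_inv_eq_one₀ ((Valuation.ne_zero_iff _).2 e0)] at u1
    have e2 := h.oe
    rw [Place.ord, neg_eq_iff_eq_neg] at e2
    rw [u1, ← e2, WithZero.exp_log ((Valuation.ne_zero_iff _).2 e0)]
  have v0 : E.v (s0 * S.lb S.h O₀) = 1 := (isU_plO E).1 (u0.mono h.dE.1)
  have step : ∀ i < m, (S.blow H' e).h0 (pb ((2 * m) • S.h) (-((i + 1 : ℕ) : ℤ))) + (i + 1 : ℕ) ≤
      (S.blow H' e).h0 (pb ((2 * m) • S.h) (-(i : ℤ))) := by
    intro i him
    obtain ⟨r, rfl⟩ := Nat.exists_eq_add_of_le him.le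
    have := s'.s.fd (pb ((2 * (i + r)) • S.h) (-(i : ℤ)))
    have vq : ∀ z : M, E.v (s0 ^ (2 * r) * j () ^ i * z * S.lb ((2 * (i + r)) • S.h) O₀) =
        WithZero.exp (-(i : ℤ)) * E.v z := fun z => by
      rw [lm, show s0 ^ (2 * r) * j () ^ i * z * S.lb S.h O₀ ^ (2 * (i + r)) =
        (s0 * S.lb S.h O₀) ^ (2 * r) * (j () * S.lb S.h O₀ ^ 2) ^ i * z by ring, map_mul, map_mul,
        map_pow, map_pow, v0, vj, one_pow, one_mul, ← WithZero.exp_nsmul]
      simp
    have := rank_step (V := (S.blow H' e).Sec (pb ((2 * (i + r)) • S.h) (-(i : ℤ))))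
      (V' := (S.blow H' e).Sec (pb ((2 * (i + r)) • S.h) (-((i + 1 : ℕ) : ℤ))))
      (fun φ hφ => ?_) (s0 ^ (2 * r) * j () ^ i) (α / j ()) (i + 1) (fun l hl => ?_) fun q hq hφ => ?_
    · unfold Sd.h0
      exact_mod_cast this
    · rw [h.sec] at hφ ⊢
      exact ⟨hφ.1, hφ.2.trans (WithZero.exp_le_exp.2 (by push_cast; omega))⟩
    · rw [h.sec]
      refine ⟨fun O hO => ?_, ?_⟩
      · obtain ⟨n, rfl⟩ := Nat.exists_eq_add_of_le (Nat.lt_succ_iff.1 hl)
        rw [lm, show s0 ^ (2 * r) * j () ^ (l + n) * (α / j ()) ^ l *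
            S.lb S.h O ^ (2 * (l + n + r)) = (s0 * S.lb S.h O) ^ (2 * r) *
            (α * S.lb S.h O ^ 2) ^ l * (j () * S.lb S.h O ^ 2) ^ n by
              rw [div_pow, pow_add (j ()) l n]; field_simp; ring]
        exact O.mul_mem (O.mul_mem (O.pow_mem (m0 O hO) _) (O.pow_mem (sec α hα O hO) _))
          (O.pow_mem (sec _ (hj ()) O hO) _)
      · rw [Place.Ge, vq, neg_neg]
        exact mul_le_of_le_one_right' ((plO E).pow_mem (hm' α hα) l)
    · have k1 := ((h.sec _ _ _).1 hφ).2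
      rw [Place.Ge, vq, (isU_plO E).1 (ind_poly hi hq), mul_one, WithZero.exp_le_exp] at k1
      push_cast at k1
      omega
  have main : ∀ i ≤ m, 2 * (S.blow H' e).h0 (pb ((2 * m) • S.h) (-(i : ℤ))) + i * (i + 1) ≤
      2 * S.h0 ((2 * m) • S.h) := by
    intro i
    induction i with
    | zero =>
      intro _
      have := s.s.fd ((2 * m) • S.h)
      have := Submodule.finrank_mono (show (S.blow H' e).Sec (pb ((2 * m) • S.h) (-((0 : ℕ) : ℤ))) ≤
        S.Sec ((2 * m) • S.h) from fun φ hφ => ((h.sec _ _ _).1 hφ).1)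
      unfold Sd.h0
      push_cast at this ⊢
      omega
    | succ i ih =>
      intro hi
      have h1 := ih (by omega)
      have h2 := step i (by omega)
      push_cast at h1 h2 ⊢
      linarith
  have e1 : m • (S.blow H' e).h = pb ((2 * m) • S.h) (-(m : ℤ)) := by
    funext o
    cases o <;> simp [Sd.blow, pb]
    ring
  have h3 := main m le_rfl
  unfold Ex chi2 at hm ⊢
  rw [e1]
  change _ ≤ _ - ip _ (pb S.K 1) _ + 2
  rw [ip_pb, ip_pb]
  linarith

end Pool.Agent.MP_e8e0b6_ag.R2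

end Part4

section Part5

-- part 5: Exh

/-! The multiples of the hyperplane class of a marked tower are exact. -/

set_option autoImplicit false

namespace Pool.Agent.MP_e8e0b6_ag.R2

open Pool.Agent.MP_79c67d_ag Pool.Agent.MP_20d318_ag Pool.Agent.MP_20d318_ag.AG
  Pool.Agent.MP_20d318_ag.BV Pool.Agent.MP_20d318_ag.CB

theorem exh_stmt : ExhStmt := fun h1 h2 h3 k M I _ _ _ _ _ _ S h => by
  induction h with
  | p2 x y L h =>
    intro m
    have e : m • (p2 k x y).h = (p2 k x y).K + ((m : ℤ) + 3) • (p2 k x y).A := by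
      funext i
      simp [p2]
    rw [Ex, e]
    exact (h1 k M _ _ (.p2 x y L h)).1.s.ub _ (by omega)
  | fn n x y F G h =>
    have nl := h2 k M _ _ (h1 k M _ _ (.fn n x y F G h)).1
    have key : ∀ a b : ℕ, Ex (fn k n x y) ![a, b] := by
      intro a b
      induction a with
      | zero =>
        induction b with
        | zero => convert nl.ex0 using 1; funext i; fin_cases i <;> rfl
        | succ b ih =>
          refine nl.up _ ⟨1, G, h.pG⟩ (by simp [Sd.i, CB.ip, fn]; ring) _ ?_ ?_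
          · simp [Sd.i, CB.ip, fn]
            nlinarith [mul_nonneg (Int.natCast_nonneg b) (Int.natCast_nonneg n),
              Int.natCast_nonneg n]
          · convert ih using 1; funext i; fin_cases i <;> simp
      | succ a ih =>
        refine nl.up _ ⟨1, F, h.pF⟩ (by simp [Sd.i, CB.ip, fn]) _ ?_ ?_
        · simp [Sd.i, CB.ip, fn]
        · convert ih using 1; funext i; fin_cases i <;> simp
    intro m
    convert key m m using 1
    funext i
    fin_cases i <;> simp [fn]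
  | bl S O a b H' e E hS h ih =>
    exact fun m => h3 k M _ S O a b H' e E h (h1 k M _ S hS).1
      (h1 k M _ _ (.bl S O a b H' e E hS h)).1 m (ih _)

end Pool.Agent.MP_e8e0b6_ag.R2

end Part5

section Part6

-- part 6: Form

/-!
Forms and charts.
-/

set_option autoImplicit false

namespace Pool.Agent.MP_e8e0b6_ag.R2

namespace FormP

variable {A G : Type} [CommRing A] [Field G] [Algebra A G] {H : Set G} {I : Ideal A}
  {L x y Z : Submodule A G} {j z : G} {d : ℕ}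

theorem up (hj : j ∈ L) {n m : ℕ} (h : z * j ^ n ∈ L ^ n) (hm : n ≤ m) : z * j ^ m ∈ L ^ m := by
  obtain ⟨c, rfl⟩ := Nat.exists_eq_add_of_le hm
  rw [pow_add, pow_add, ← mul_assoc]
  exact Submodule.mul_mem_mul h (Submodule.pow_mem_pow _ hj c)

theorem chart (hj : j ∈ H) (h0 : j ≠ 0) (hz : z ∈ Ad A H j) :
    ∃ n, z * j ^ n ∈ Submodule.span A H ^ n := by
  have m : j ∈ Submodule.span A H := Submodule.subset_span hj
  change z ∈ Algebra.adjoin A _ at hz
  induction hz using Algebra.adjoin_induction with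
  | mem w hw =>
    obtain ⟨a, ha, rfl⟩ := hw
    exact ⟨1, by simpa [h0] using Submodule.subset_span ha⟩
  | algebraMap r => exact ⟨0, by simp⟩
  | add u v _ _ hu hv =>
    obtain ⟨n, hn⟩ := hu
    obtain ⟨n', hn'⟩ := hv
    refine ⟨n + n', ?_⟩
    rw [add_mul]
    exact Submodule.add_mem _ (up m hn (by omega)) (up m hn' (by omega))
  | mul u v _ _ hu hv =>
    obtain ⟨n, hn⟩ := hu
    obtain ⟨n', hn'⟩ := hv
    refine ⟨n + n', ?_⟩
    rw [pow_add, pow_add, mul_mul_mul_comm]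
    exact Submodule.mul_mem_mul hn hn'

theorem one (hj : j ∈ H) (h0 : j ≠ 0) (hz : z ∈ I • Ad A H j) :
    ∃ n₀, ∀ n ≥ n₀, z * j ^ n ∈ I • Fo A H n := by
  refine Submodule.smul_induction_on hz (fun r hr w hw => ?_) fun u v hu hv => ?_
  · obtain ⟨n₀, h⟩ := chart hj h0 hw
    refine ⟨n₀, fun n hn => ?_⟩
    rw [smul_mul_assoc]
    exact Submodule.smul_mem_smul hr (up (Submodule.subset_span hj) h hn)
  · obtain ⟨n₁, h1⟩ := hu
    obtain ⟨n₂, h2⟩ := hv
    refine ⟨n₁ + n₂, fun n hn => ?_⟩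
    rw [add_mul]
    exact Submodule.add_mem _ (h1 n (by omega)) (h2 n (by omega))

theorem sup_pow (hx : x ≤ L) (hy : y ≤ L) (n m : ℕ) :
    (x ⊔ y) ^ (n + m) ≤ x ^ n * L ^ m ⊔ y ^ m * L ^ n := by
  induction n generalizing m with
  | zero =>
    refine le_sup_of_le_left ?_
    rw [zero_add, pow_zero, one_mul]
    exact pow_le_pow_left' (sup_le hx hy) m
  | succ n ih =>
    induction m with
    | zero =>
      refine le_sup_of_le_right ?_
      rw [add_zero, pow_zero, one_mul]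
      exact pow_le_pow_left' (sup_le hx hy) _
    | succ m ih' =>
      rw [← add_assoc, pow_succ', Submodule.sup_mul]
      refine sup_le ?_ ?_
      · rw [add_right_comm, add_assoc]
        refine (mul_le_mul' le_rfl (ih (m + 1))).trans ?_
        rw [Submodule.mul_sup]
        refine sup_le_sup (le_of_eq (by ring)) ?_
        calc _ ≤ L * (y ^ (m + 1) * L ^ n) := mul_le_mul' hx le_rfl
          _ = _ := by ring
      · refine (mul_le_mul' le_rfl ih').trans ?_
        rw [Submodule.mul_sup]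
        refine sup_le_sup ?_ (le_of_eq (by ring))
        calc _ ≤ L * (x ^ (n + 1) * L ^ m) := mul_le_mul' hy le_rfl
          _ = _ := by ring

/-- Large powers of `x` multiply `Z` into `I • L ^ (d + n)`. -/
def Good (I : Ideal A) (L Z : Submodule A G) (d : ℕ) (x : Submodule A G) : Prop :=
  x ≤ L ∧ ∃ N, ∀ n ≥ N, Z * x ^ n ≤ I • L ^ (d + n)

theorem Good.sup (hx : Good I L Z d x) (hy : Good I L Z d y) : Good I L Z d (x ⊔ y) := by
  obtain ⟨h1, N, h2⟩ := hx
  obtain ⟨h3, N', h4⟩ := hy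
  refine ⟨sup_le h1 h3, N + N', fun n hn => ?_⟩
  obtain ⟨m, rfl⟩ := Nat.exists_eq_add_of_le (show N ≤ n by omega)
  refine (mul_le_mul' le_rfl (sup_pow h1 h3 N m)).trans ?_
  rw [Submodule.mul_sup, ← mul_assoc, ← mul_assoc]
  refine sup_le ((mul_le_mul' (h2 N le_rfl) le_rfl).trans_eq ?_)
    ((mul_le_mul' (h4 m (by omega)) le_rfl).trans_eq ?_)
  · rw [smul_mul_assoc, ← pow_add, add_assoc]
  · rw [smul_mul_assoc, ← pow_add, add_assoc, add_comm m]

end FormP

open FormP in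
theorem form_stmt : FormStmt := by
  intro A G _ _ _ H I hH h0
  refine ⟨fun j hj z hz => one hj (h0 j hj) hz, fun d z hz => ?_⟩
  have key : Good I (Submodule.span A H) (Submodule.span A {z}) d (Submodule.span A H) := by
    refine Set.Finite.induction_on_subset
      (motive := fun s _ => Good I (Submodule.span A H) (Submodule.span A {z}) d
        (Submodule.span A s)) H hH ?_ fun {j s} hj _ _ ih => ?_
    · exact ⟨by simp, 1, fun n hn => by simp [Submodule.bot_pow (show n ≠ 0 by omega)]⟩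
    · rw [Submodule.span_insert]
      refine Good.sup ⟨Submodule.span_mono (by simpa using hj), ?_⟩ ih
      obtain ⟨N, hN⟩ := one hj (h0 j hj) (hz j hj)
      refine ⟨N, fun n hn => ?_⟩
      rw [Submodule.span_pow, Submodule.span_mul_span, Set.singleton_pow,
        Set.singleton_mul_singleton, Submodule.span_singleton_le_iff_mem]
      have := hN (d + n) (by omega)
      rwa [pow_add j, ← mul_assoc, div_mul_cancel₀ _ (pow_ne_zero d (h0 j hj))] at this
  obtain ⟨-, N, hN⟩ := key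
  exact ⟨N, fun n hn w hw =>
    hN n hn (Submodule.mul_mem_mul (Submodule.mem_span_singleton_self z) hw)⟩

end Pool.Agent.MP_e8e0b6_ag.R2

end Part6

section Part7

-- part 7: Gbs

/-!
Row GBS: forms of large degree have bases with independent residues.
-/

set_option autoImplicit false

namespace Pool.Agent.MP_e8e0b6_ag.R2

open Pool.Agent.MP_79c67d_ag Pool.Agent.MP_20d318_ag Pool.Agent.MP_20d318_ag.AG
  Pool.Agent.MP_20d318_ag.BV Pool.Agent.MP_20d318_ag.CB

namespace Gbs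

variable {k F M I : Type} [Field k] [Field F] [Field M] [Algebra k F] [Algebra k M] [Fintype I]
  {R ξ : Subalgebra k F} {H : Set F} {ρ : ξ →ₐ[k] M} {S : Sd k M I} {s j : F}

theorem fo_le (L : Ln R H ξ ρ S) {n : ℕ} (hs : s ∈ Fo R H n) : s ∈ ξ := by
  simpa using Fo.div_mem (gn_of_mem L.one one_ne_zero (by simpa using L.sub)) L.fib.dom.1 hs

/-- A form that vanishes on the closed fibre vanishes there on every chart. -/
theorem chart (L : Ln R H ξ ρ S) {d : ℕ} (hs : s ∈ Fo R H d) (hm : s ∈ mx ξ) (hj : j ∈ H) :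
    s / j ^ d ∈ Submodule.span (ch R H j) (mx R) := by
  refine glob _ fun O hO => Submodule.span_mono Submodule.subset_span ?_
  obtain ⟨hX, hg⟩ := (L.xb.pts j hj O).1 hO
  have h1 : s / j ^ d ∈ O := Fo.div_mem hg (L.xb.le O hX) hs
  by_cases hd : Dom R O
  · exact L.fib.red O hX hd _ h1 (mx_div hm ((L.gnU O hX hd j hg).1.pow d))
  · obtain ⟨u, hu, h2, h3⟩ : ∃ u ∈ R, IsU O u ∧ ¬ IsU R u := by
      by_contra hn
      exact hd ⟨L.xb.le O hX, fun u hu h => by_contra fun h' => hn ⟨u, hu, h, h'⟩⟩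
    have := Submodule.smul_mem (Submodule.span O (mx R)) ⟨_, h2.div_mem h1⟩
      (Submodule.subset_span (⟨hu, h3⟩ : u ∈ mx R))
    rwa [show (⟨_, h2.div_mem h1⟩ : O) • u = s / j ^ d from div_mul_cancel₀ _ h2.ne] at this

theorem span_ad [IsLocalRing R] (hs : s ∈ Submodule.span (ch R H j) (mx R)) :
    s ∈ IsLocalRing.maximalIdeal R • Ad R H j := by
  induction hs using Submodule.span_induction with
  | mem x hx =>
    have := Submodule.smul_mem_smul (r := (⟨x, hx.1⟩ : R)) (I := IsLocalRing.maximalIdeal R)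
      (fun hu => hx.2 ((isU_iff_isUnit _).2 hu)) (mem_ch.1 (ch R H j).one_mem)
    exact (mul_one x) ▸ this
  | zero => exact zero_mem _
  | add x y _ _ hx hy => exact add_mem hx hy
  | smul c x _ hx =>
    change (c : F) * x ∈ _
    refine Submodule.smul_induction_on (p := fun x => (c : F) * x ∈ _) hx (fun r hr a ha => ?_)
      fun a b ha hb => ?_
    · rw [mul_smul_comm]
      exact Submodule.smul_mem_smul hr (mem_ch.1 ((ch R H j).mul_mem c.2 (mem_ch.2 ha)))
    · rw [mul_add]; exact add_mem ha hb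

/-- Combinations of residues lift. -/
theorem lift (hR : R ≤ ξ) {T : Set F} (hT : ∀ a ∈ T, a ∈ ξ) {m : M}
    (hm : m ∈ Submodule.span k (evO ξ ρ '' T)) : ∃ w ∈ Submodule.span R T, evO ξ ρ w = m := by
  have hx : ∀ w ∈ Submodule.span R T, w ∈ ξ := fun w hw => by
    simpa using span_div_mem (a := 1) (by simpa using hT) hR hw
  induction hm using Submodule.span_induction with
  | mem x h =>
    obtain ⟨a, ha, rfl⟩ := h
    exact ⟨a, Submodule.subset_span ha, rfl⟩
  | zero => exact ⟨0, zero_mem _, evO_zero ρ⟩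
  | add x y _ _ h1 h2 =>
    obtain ⟨a, ha, rfl⟩ := h1
    obtain ⟨b, hb, rfl⟩ := h2
    exact ⟨a + b, add_mem ha hb, evO_add ρ (hx a ha) (hx b hb)⟩
  | smul c x _ h =>
    obtain ⟨a, ha, rfl⟩ := h
    exact ⟨algebraMap k F c * a, Submodule.smul_mem _ (⟨_, R.algebraMap_mem c⟩ : R) ha, by
      rw [evO_mul ρ (ξ.algebraMap_mem c) (hx a ha), evO_const, Algebra.smul_def]⟩

/-- Nakayama's lemma for a saturated module. -/
theorem gb [IsLocalRing R] (hR : R ≤ ξ) (hρ : LocHom ξ ρ) {N : Submodule R F} (hN : N.FG)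
    (hx : ∀ s ∈ N, s ∈ ξ) (h : ∀ s ∈ N, s ∈ mx ξ → s ∈ IsLocalRing.maximalIdeal R • N) :
    Gb R ξ ρ N := by
  obtain ⟨n, g, hg⟩ := Submodule.fg_iff_exists_fin_generating_family.1 hN
  obtain ⟨κ, a, ha, h1, h2⟩ := exists_linearIndependent' k (evO ξ ρ ∘ g)
  have : Finite κ := Finite.of_injective a ha
  obtain ⟨m, ⟨e⟩⟩ := Finite.exists_equiv_fin κ
  have hgN : ∀ i, g i ∈ N := fun i => hg ▸ Submodule.subset_span ⟨i, rfl⟩
  have hle : Submodule.span R (Set.range (g ∘ a)) ≤ N :=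
    Submodule.span_le.2 (by rintro _ ⟨i, rfl⟩; exact hgN _)
  refine ⟨m, g ∘ a ∘ e.symm, fun i => hx _ (hgN _), ?_, h2.comp _ e.symm.injective⟩
  rw [← Function.comp_assoc, e.symm.surjective.range_comp]
  refine le_antisymm (Submodule.le_of_le_smul_of_le_jacobson_bot hN
    (IsLocalRing.maximalIdeal_le_jacobson _) ?_) hle
  conv_lhs => rw [← hg]
  refine Submodule.span_le.2 ?_
  rintro _ ⟨i, rfl⟩
  obtain ⟨w, hw, e1⟩ := lift (ρ := ρ) (m := evO ξ ρ (g i)) hR (T := Set.range (g ∘ a))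
    (by rintro _ ⟨i, rfl⟩; exact hx _ (hgN _))
    (by rw [← Set.range_comp, ← Function.comp_assoc, h1]; exact Submodule.subset_span ⟨i, rfl⟩)
  have h3 := N.sub_mem (hgN i) (hle hw)
  have h4 := h _ h3 ((hρ.eq_zero_iff (hx _ h3)).1 (by
    rw [evO_sub ρ (hx _ (hgN i)) (hx _ (hle hw)), e1, sub_self]))
  exact Submodule.mem_sup.2 ⟨w, hw, _, h4, by ring⟩

end Gbs

open Gbs in
theorem gbs_stmt : GbsStmt := by
  intro hF hS k F M I _ _ _ _ _ _ R H ξ ρ S L
  have := L.loc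
  have := L.fm.noeth
  have hl := L.lh.isLocalRing
  have hfg : (Submodule.span R H).FG := Submodule.fg_span L.fm.fin
  obtain ⟨m₀, h⟩ := hS R F (Submodule.span R H) (IsLocalRing.maximalIdeal R)
    { carrier := mx ξ, add_mem' := fun ha hb => mx_add hl ha hb, zero_mem' := zero_mem_mx } hfg
    (fun n w hw s hs => mx_mul_left (fo_le L hw) hs)
    (fun d s hs hm => (hF R F H _ L.fm.fin L.fm.nz).2 d s fun j hj => span_ad (chart L hs hm hj))
  exact ⟨m₀, fun m hm => gb L.fib.dom.1 L.lh (hfg.pow m) (fun s hs => fo_le L hs) (h m hm)⟩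

end Pool.Agent.MP_e8e0b6_ag.R2

end Part7

section Part8

-- part 8: GoodA

/-! A class whose members are lines in all fibres. -/

set_option autoImplicit false

namespace Pool.Agent.MP_e8e0b6_ag.R2

open Pool.Agent.MP_79c67d_ag Pool.Agent.MP_20d318_ag Pool.Agent.MP_20d318_ag.AG
  Pool.Agent.MP_20d318_ag.BV Pool.Agent.MP_20d318_ag.CB

namespace GoodA

variable {k M I : Type} [Field k] [Field M] [Algebra k M] [Fintype I] {S : Sd k M I}

theorem ef_pos {h : I → ℤ} (pos : ∀ c ∈ S.PP, 0 < ip S.B h c) {c : I → ℤ} (hc : c ∈ S.Ef) :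
    c = 0 ∨ 0 < ip S.B h c := by
  induction hc using AddSubmonoid.closure_induction with
  | mem x hx => exact Or.inr (pos x hx)
  | zero => exact Or.inl rfl
  | add x y _ _ hx hy =>
    rcases hx with rfl | hx
    · rwa [zero_add]
    · rcases hy with rfl | hy
      · exact Or.inr (by rwa [add_zero])
      · exact Or.inr (by rw [ip_add_right]; exact add_pos hx hy)

theorem nc_exc (mf : Mf S) (nl : Nl S) {d : I → ℤ} (hd : d ∈ S.PP) (mo : Mo S d) : Nc S d := by
  have m1 : ip S.B d d = -1 := mo.1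
  have m2 : ip S.B S.K d = -1 := mo.2
  have hp := mf.all.a1.hpos d hd
  have ef : d ∈ S.Ef := AddSubmonoid.subset_closure hd
  have e : ∀ n : ℕ, ip S.B (2 • S.h + n • d) d = 2 * ip S.B S.h d - n := fun n => by
    rw [← natCast_zsmul, ← natCast_zsmul, ip_add_left, ip_smul_left, ip_smul_left, m1]
    push_cast
    ring
  have ex : ∀ n : ℕ, (n : ℤ) ≤ 2 * ip S.B S.h d → Ex S (2 • S.h + n • d) := by
    intro n
    induction n with
    | zero => intro _; simpa using mf.exh 2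
    | succ n ih =>
      intro hn
      refine nl.up d hd (by rw [Sd.i, Sd.i, m1, m2]; rfl) _ (by rw [Sd.i, e]; omega) ?_
      rw [succ_nsmul d n, ← add_assoc, add_sub_cancel_right]
      exact ih (by push_cast at hn; omega)
  obtain ⟨j, hj⟩ : ∃ j : ℕ, (j : ℤ) = 2 * ip S.B S.h d - 2 :=
    ⟨(2 * ip S.B S.h d - 2).toNat, by omega⟩
  refine nl.nc d ef (by rw [Sd.i, Sd.i, m1, m2]; rfl) (by rw [Sd.i, m1])
    (Or.inr ⟨hd, by rw [Sd.i, m1]; decide⟩) (2 • S.h + j • d)
    (add_mem (nsmul_mem mf.all.a2.heff 2) (nsmul_mem ef j)) (ex j (by omega)) ?_ mf.kne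
  rw [Sd.i, ip_add_left, e, m1]
  omega

end GoodA

open GoodA in
theorem goodA_stmt : GoodAStmt := by
  intro hM hN hR hC hP Ω E J _ _ _ _ _ _ S' h' mk' hef hpos
  have mf' := hM _ _ _ S' mk'
  obtain ⟨c0, r1, r2⟩ := hR _ _ _ S' mk' mf'
  have card : ∀ {k M I : Type} [Field k] [Field M] [Algebra k M] [Fintype I] {S : Sd k M I}
      {σ : (J → ℤ) ≃+ (I → ℤ)}, Mf S → (∀ c c', ip S.B (σ c) (σ c') = ip S'.B c c') →
      σ S'.K = S.K → Fintype.card I = Fintype.card J := by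
    intro k M I _ _ _ _ S σ mf iso can
    have n1 := mf.all.s.noe
    have n2 := mf'.all.s.noe
    rw [← can, iso] at n1
    omega
  rcases (show Fintype.card J = 1 ∨ Fintype.card J = 2 ∨ 3 ≤ Fintype.card J by omega) with
    c | c | c
  · obtain ⟨l', hl', -⟩ := r1 c
    refine ⟨l', fun k M I _ _ _ _ _ _ S σ mk iso can _ _ => ?_⟩
    have mf := hM _ _ _ S mk
    obtain ⟨l, hl, nc⟩ := (hR _ _ _ S mk mf).2.1 ((card mf iso can).trans c)
    rw [hl', hl, map_zsmul] at can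
    have : σ l' = l := funext fun i => by
      have := congrFun can i
      simp only [Pi.smul_apply, smul_eq_mul] at this
      omega
    exact this ▸ nc
  · obtain ⟨f', g', zf', -, all', -⟩ := r2 c
    obtain ⟨ε, zε, mn⟩ : ∃ ε, Zf S' ε ∧ ∀ c, Zf S' c → S'.i h' ε ≤ S'.i h' c := by
      by_cases e : Zf S' g' ∧ S'.i h' g' < S'.i h' f'
      · refine ⟨g', e.1, fun c hc => ?_⟩
        rcases all' c hc with rfl | rfl
        exacts [e.2.le, le_rfl]
      · refine ⟨f', zf', fun c hc => ?_⟩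
        rcases all' c hc with rfl | rfl
        exacts [le_rfl, not_lt.1 fun e' => e ⟨hc, e'⟩]
    refine ⟨ε, fun k M I _ _ _ _ _ _ S σ mk iso can _ pos => ?_⟩
    have mf := hM _ _ _ S mk
    obtain ⟨f, g, zf, nc, all, alt⟩ := (hR _ _ _ S mk mf).2.2 ((card mf iso can).trans c)
    have z : ∀ c, Zf S (σ c) ↔ Zf S' c := fun c => by
      rw [Zf, Zf, Sd.i, Sd.i, ← can, iso, iso]
    rcases all _ ((z ε).2 zε) with e | e
    · exact e ▸ nc
    rcases alt with nc' | lt
    · exact e ▸ nc'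
    obtain ⟨f₀, rfl⟩ := σ.surjective f
    have h1 := lt _ pos
    rw [← e, Sd.i, Sd.i, iso, iso] at h1
    exact absurd h1 (not_lt.2 (mn f₀ ((z f₀).1 zf)))
  · have sq : 0 < ip S'.B h' h' := (ef_pos hpos hef).resolve_left fun h0 => by
      obtain ⟨e, he, -⟩ := mf'.lt.neg c
      have := hpos e he
      rw [h0, ip_zero_left] at this
      exact lt_irrefl _ this
    obtain ⟨e, he, mo, nef⟩ := hC _ _ _ S' h' mf'.all mf'.hg mf'.lt ⟨hpos, sq⟩ c
    refine ⟨e, fun k M I _ _ _ _ _ _ S σ mk iso can ef pos => ?_⟩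
    have mf := hM _ _ _ S mk
    refine nc_exc mf (hN _ _ _ S mf.all) (hP _ _ _ _ _ _ S' S σ h' e mf'.all mf.all mf.lt
      ⟨iso, can, ef⟩ ⟨pos, sq.trans_eq (iso h' h').symm⟩ he mo nef) ⟨?_, ?_⟩
    · exact (iso e e).trans mo.1
    · rw [← can]
      exact (iso _ e).trans mo.2

end Pool.Agent.MP_e8e0b6_ag.R2

end Part8
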