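import Pool.Agent.MP_e8e0b6_ag.R2.SpecA

section Part1

-- part 1: Gr

/-!
Semicontinuity and base change: the assembly.
-/

set_option autoImplicit false

namespace Pool.Agent.MP_e8e0b6_ag.R2

open Pool.Agent.MP_79c67d_ag Pool.Agent.MP_20d318_ag Pool.Agent.MP_20d318_ag.AG
  Pool.Agent.MP_20d318_ag.BV Pool.Agent.MP_20d318_ag.CB
open scoped Pointwise

namespace GrRow

theorem fin_sub {k F M : Type} [Field k] [AddCommGroup M] [Module k M] (f : F → M) (W : Set F)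
    (Z : Submodule k M) [FiniteDimensional k Z] (h : Z ≤ Submodule.span k (f '' W)) :
    ∃ W₀ ⊆ W, W₀.Finite ∧ Z ≤ Submodule.span k (f '' W₀) := by
  obtain ⟨T, hT⟩ := (Submodule.fg_iff_finiteDimensional Z).2 inferInstance
  have key : ∀ t ∈ T, ∃ V ⊆ W, V.Finite ∧ t ∈ Submodule.span k (f '' V) := by
    intro t ht
    obtain ⟨T', h1, h2⟩ := Submodule.mem_span_finite_of_mem_span
      (h (hT ▸ Submodule.subset_span ht))
    obtain ⟨V, h3, h4, h5⟩ := Set.Finite.exists_subset_finite_image_eq T'.finite_toSet h1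
    exact ⟨V, h3, h4, h5 ▸ h2⟩
  choose! V h1 h2 h3 using key
  refine ⟨⋃ t ∈ T, V t, Set.iUnion₂_subset h1, T.finite_toSet.biUnion h2, ?_⟩
  rw [← hT, Submodule.span_le]
  intro t ht
  exact Submodule.span_mono (Set.image_mono (Set.subset_biUnion_of_mem (u := V) ht)) (h3 t ht)

variable {k F M Ω E I J : Type} [Field k] [Field F] [Field M] [Field Ω]
  [Field E] [Algebra k F] [Algebra k M] [Algebra k E] [Algebra Ω E] [Fintype I] [Fintype J]
  {R : Subalgebra k F} {H : Set F} {ξ : Subalgebra k F} {ρ : ξ →ₐ[k] M} {S : Sd k M I}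
  {μ : F →ₐ[k] E} {S' : Sd Ω E J} {γ : Subalgebra k F → F} {c : J → ℤ} {d : I → ℤ}

theorem lin (N : Submodule R F) (A : Set M) (Z : Set F) (B : Set E) (U : Set F)
    (hb : ∀ r ∈ R, μ r ∈ Set.range (algebraMap Ω E))
    (h : ∀ u ∈ U, u ∈ ξ ∧ (∀ s ∈ A, s * evO ξ ρ u ∈ Submodule.span k (evO ξ ρ '' N)) ∧
      (∀ z ∈ Z, z * u ∈ N) ∧ ∀ y ∈ B, y * μ u ∈ Submodule.span Ω (μ '' N)) :
    ∀ u ∈ Submodule.span k U, u ∈ ξ ∧
      (∀ s ∈ A, s * evO ξ ρ u ∈ Submodule.span k (evO ξ ρ '' N)) ∧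
      (∀ z ∈ Z, z * u ∈ N) ∧ ∀ y ∈ B, y * μ u ∈ Submodule.span Ω (μ '' N) := by
  intro u hu
  induction hu using Submodule.span_induction with
  | mem x hx => exact h x hx
  | zero => simp [evO_zero]
  | add x y _ _ hx hy =>
    refine ⟨ξ.add_mem hx.1 hy.1, fun s hs => ?_, fun z hz => ?_, fun w hw => ?_⟩
    · rw [evO_add ρ hx.1 hy.1, mul_add]
      exact Submodule.add_mem _ (hx.2.1 s hs) (hy.2.1 s hs)
    · rw [mul_add]
      exact N.add_mem (hx.2.2.1 z hz) (hy.2.2.1 z hz)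
    · rw [map_add, mul_add]
      exact Submodule.add_mem _ (hx.2.2.2 w hw) (hy.2.2.2 w hw)
  | smul r x _ hx =>
    refine ⟨ξ.smul_mem hx.1 r, fun s hs => ?_, fun z hz => ?_, fun w hw => ?_⟩
    · rw [Algebra.smul_def, evO_mul ρ (ξ.algebraMap_mem r) hx.1, evO_const, mul_left_comm,
        ← Algebra.smul_def]
      exact Submodule.smul_mem _ _ (hx.2.1 s hs)
    · rw [Algebra.smul_def, mul_left_comm]
      exact N.smul_mem ⟨_, R.algebraMap_mem r⟩ (hx.2.2.1 z hz)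
    · obtain ⟨t, e⟩ := hb _ (R.algebraMap_mem r)
      rw [Algebra.smul_def, map_mul, ← e, mul_left_comm, ← Algebra.smul_def]
      exact Submodule.smul_mem _ _ (hx.2.2.2 w hw)

theorem core [CharZero k] (form : FormStmt) (gen : Gen) (gbs : Gbs) (gra : Gra) (twk : Twk)
    (twg : Twg) (cp1 : Cp1) (cp2 : Cp2Stmt) (ln : Ln R H ξ ρ S) (gm : Gm R H μ S')
    (pr : Pr R H ξ ρ S μ S' γ c d) (Z : Set F) (hZ : Z.Finite) (hS : Z ⊆ Sc (XX R H) γ) :
    ∃ Y : Submodule R F, Z ⊆ Y ∧ (∀ z ∈ Y, z ∈ Sc (XX R H) γ) ∧ S'.h0 c ≤ S.h0 d ∧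
      (S.h0 d ≤ S'.h0 c → (∀ s ∈ S.Sec d, ∃ z ∈ Y, evO ξ ρ z = s) ∧ ∀ W ⊆ (Y : Set F),
        S.Sec d ≤ Submodule.span k (evO ξ ρ '' W) → ∀ z ∈ Y, z ∈ Submodule.span R W) := by
  obtain ⟨hD, ⟨φ, hφ0, hφ⟩, hb⟩ := pr
  obtain ⟨m₁, W, hWf, hW⟩ := gen k F R H γ ln.xb hD
  have du : ∀ w ∈ W, Du R H γ m₁ w := fun w hw O hO j hj => (hW O hO j hj).1 w hw
  have ne : ∀ O ∈ XX R H, γ O ≠ 0 := fun O hO => hD.ne hO
  obtain ⟨m₀, hm₀⟩ := gbs k F M I R H ξ ρ S ln
  have e1 : ∀ᶠ n in Filter.atTop, ∀ w ∈ W, ∀ h ∈ Fo R H n, ∀ s ∈ S.Sec d,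
      s * evO ξ ρ (w * h) ∈ Submodule.span k (evO ξ ρ '' Fo R H (m₁ + n)) :=
    (Filter.eventually_all_finite hWf).2 fun w hw =>
      Filter.eventually_atTop.2 (twk k F M I R H ξ ρ S γ d m₁ w ln hb (du w hw))
  have e2 : ∀ᶠ n in Filter.atTop, ∀ w ∈ W, ∀ z ∈ Z, ∀ h ∈ Fo R H n,
      z * (w * h) ∈ Fo R H (m₁ + n) :=
    (Filter.eventually_all_finite hWf).2 fun w hw =>
      (Filter.eventually_all_finite hZ).2 fun z hz => Filter.eventually_atTop.2
        ((twg k F Ω E J R H μ S' γ m₁ w ln.xb gm (du w hw) ne).1 z (hS hz))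
  have e3 : ∀ᶠ n in Filter.atTop, ∀ w ∈ W, ∀ h ∈ Fo R H n, ∀ y ∈ S'.Sec c,
      y / φ * μ (w * h) ∈ Submodule.span Ω (μ '' Fo R H (m₁ + n)) :=
    (Filter.eventually_all_finite hWf).2 fun w hw => Filter.eventually_atTop.2
      ((twg k F Ω E J R H μ S' γ m₁ w ln.xb gm (du w hw) ne).2 c φ hφ)
  obtain ⟨n, ⟨⟨h1, h2⟩, h3⟩, hn⟩ :=
    (((e1.and e2).and e3).and (Filter.eventually_ge_atTop m₀)).exists
  have hU : ∀ O ∈ XX R H, ∀ j, Gn H O j → Gn (W * H ^ n) O (γ O * j ^ (m₁ + n)) := by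
    intro O hO j hj
    rw [pow_add, ← mul_assoc]
    exact gn_mul (hW O hO j hj) (gn_pow hj n)
  have g1 : Gn H ξ 1 := gn_of_mem ln.one one_ne_zero fun a ha => by simpa using ln.sub a ha
  have uγ : IsU ξ (γ ξ) := (hb ξ ln.fib.mem ln.fib.dom).1
  have inξ : ∀ {u : F}, u / (γ ξ * 1 ^ (m₁ + n)) ∈ ξ → u ∈ ξ := fun {u} h => by
    have := ξ.mul_mem h uγ.mem
    rwa [one_pow, mul_one, div_mul_cancel₀ _ uγ.ne] at this
  have hl := lin (ρ := ρ) (μ := μ) (Ω := Ω) (Fo R H (m₁ + n)) (S.Sec d) Z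
    ((fun y => y / φ) '' S'.Sec c) (W * H ^ n) gm.base (by
      rintro _ ⟨w, hw, h, hh, rfl⟩
      have hh' : h ∈ Fo R H n := by
        rw [Fo, Submodule.span_pow]; exact Submodule.subset_span hh
      refine ⟨inξ ((hU ξ ln.fib.mem 1 g1).1 _ (Set.mul_mem_mul hw hh)), h1 w hw h hh',
        fun z hz => h2 w hw z hz h hh', ?_⟩
      rintro _ ⟨y, hy, rfl⟩
      exact h3 w hw h hh' y hy)
  obtain ⟨a, ha, a', ha', cp⟩ := cp1 k F M I R H ξ ρ S γ d (m₁ + n) _ ln hb hU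
  obtain ⟨c1, c2⟩ := cp2 k F M I R H ξ ρ S γ d (m₁ + n) a a' ln hD hb cp
  obtain ⟨a0, a1, a2, a3⟩ := hl a ha
  obtain ⟨b0, b1, b2, b3⟩ := hl a' ha'
  have pt : ξ ∈ Pts (ch R H 1) := (ln.xb.pts 1 ln.one ξ).2 ⟨ln.fib.mem, g1⟩
  obtain ⟨p, hp, q, hq, uq, ep⟩ := pt.2.2 a a0
  obtain ⟨p', hp', q', hq', uq', ep'⟩ := pt.2.2 a' b0
  have fo : ∀ z ∈ ch R H 1, ∀ᶠ n in Filter.atTop, z ∈ Fo R H n := fun z hz => by
    have := (form R F H ⊤ ln.fm.fin ln.fm.nz).1 1 ln.one z (by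
      rw [Submodule.top_smul]; exact mem_ch.1 hz)
    simpa only [one_pow, mul_one, Submodule.top_smul] using Filter.eventually_atTop.2 this
  obtain ⟨n', f1, f2⟩ := ((fo _ ((ch R H 1).mul_mem hp hq')).and
    (fo _ ((ch R H 1).mul_mem hp' hq))).exists
  have key := gra k F M Ω E I J R H ξ ρ S μ S' (Fo R H (m₁ + n)) (Fo R H (n' + (m₁ + n))) a a'
    (q * q') (S.Sec d) _ ln gm.toGc (hm₀ _ (by omega)) (hm₀ _ (by omega)) cp.ua b0 (uq.mul uq')
    (fun w hw => by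
      have e : a * (q * q') = p * q' := by rw [ep]; field_simp [uq.ne]
      have e' : a' * (q * q') = p' * q := by rw [ep']; field_simp [uq'.ne]
      rw [e, e', Fo, pow_add _ n']
      exact ⟨Submodule.mul_mem_mul f1 hw, Submodule.mul_mem_mul f2 hw⟩)
    (le_antisymm (fun s hs => mem_Zs.2 ⟨a1 s hs, b1 s hs⟩) c1) rfl
  obtain ⟨fd, le1, k2⟩ := key
  have le0 : Module.finrank Ω (S'.Sec c) ≤ Module.finrank Ω
      (Zs (Submodule.span Ω (μ '' Fo R H (m₁ + n))) (μ a) (μ a')) := by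
    refine LinearMap.finrank_le_finrank_of_injective (f := LinearMap.codRestrict _
      ((LinearMap.mulRight Ω φ⁻¹).domRestrict (S'.Sec c)) fun y => ?_) fun y y' e => ?_
    · have e : (LinearMap.mulRight Ω φ⁻¹).domRestrict (S'.Sec c) y = y.1 / φ :=
        (div_eq_mul_inv _ _).symm
      rw [e]
      exact mem_Zs.2 ⟨a3 _ ⟨_, y.2, rfl⟩, b3 _ ⟨_, y.2, rfl⟩⟩
    · have e' : y.1 * φ⁻¹ = y'.1 * φ⁻¹ := congrArg Subtype.val e
      exact Subtype.ext (mul_right_cancel₀ (inv_ne_zero hφ0) e')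
  refine ⟨Zs (Fo R H (m₁ + n)) a a', fun z hz => mem_Zs.2 ⟨a2 z hz, b2 z hz⟩, c2, ?_,
    fun h => k2 ?_⟩
  · unfold Sd.h0
    exact_mod_cast le0.trans le1
  · unfold Sd.h0 at h
    exact le_trans (by exact_mod_cast h) le0

end GrRow

theorem gr_stmt : GrStmt := by
  intro form gen gbs gra twk twg cp1 cp2 k F M Ω E I J _ _ _ _ _ _ _ _ _ _ _ _ R H ξ ρ S μ S' γ c d
    ln gm pr
  obtain ⟨Y, -, h1, h2, h3⟩ := GrRow.core form gen gbs gra twk twg cp1 cp2 ln gm pr ∅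
    Set.finite_empty (Set.empty_subset _)
  refine ⟨h2, fun h => ⟨fun s hs => ?_, fun W hW hle z hz => ?_⟩⟩
  · obtain ⟨z, hz, e⟩ := (h3 h).1 s hs
    exact ⟨z, h1 z hz, e⟩
  · have := ln.mf.all.s.fd d
    obtain ⟨W₀, s0, f0, l0⟩ := GrRow.fin_sub _ W _ hle
    obtain ⟨Y', g0, -, -, g3⟩ := GrRow.core form gen gbs gra twk twg cp1 cp2 ln gm pr
      (insert z W₀) (f0.insert z) (Set.insert_subset hz (s0.trans hW))
    exact Submodule.span_mono s0 ((g3 h).2 W₀ ((Set.subset_insert _ _).trans g0) l0 z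
      (g0 (Set.mem_insert _ _)))

end Pool.Agent.MP_e8e0b6_ag.R2

end Part1

section Part2

-- part 2: Gra

/-!
The three kernels: over the residue field, over the local ring and over the generic field.
-/

set_option autoImplicit false

namespace Pool.Agent.MP_e8e0b6_ag.R2

open Pool.Agent.MP_79c67d_ag Pool.Agent.MP_20d318_ag Pool.Agent.MP_20d318_ag.AG
  Pool.Agent.MP_20d318_ag.BV Pool.Agent.MP_20d318_ag.CB

namespace GraP

section abs

variable {T G n n' : Type} [CommRing T] [Field G] [Algebra T G] [Fintype n] [Fintype n']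

/-- The matrix of the map `(u, v) ↦ b * (a' * u - a * v)` in the bases `s` and `t`. -/
structure Dat (s : n → G) (t : n' → G) (a a' b : G) (A : Matrix n' (n ⊕ n) T) : Prop where
  hs : LinearIndependent T s
  ht : LinearIndependent T t
  ha : a ≠ 0
  hb : b ≠ 0
  l : ∀ i, ∑ l, A l (.inl i) • t l = a' * b * s i
  r : ∀ i, ∑ l, A l (.inr i) • t l = -(a * b * s i)

/-- The function attached to a vector. -/
noncomputable def Phi (T : Type) [CommRing T] [Algebra T G] (s : n → G) (a : G) :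
    (n ⊕ n → T) →ₗ[T] G where
  toFun v := (∑ i, v (.inl i) • s i) / a
  map_add' v w := by simp [add_smul, Finset.sum_add_distrib, add_div]
  map_smul' c v := by
    simp only [Pi.smul_apply, smul_eq_mul, mul_smul, RingHom.id_apply, ← Finset.smul_sum]
    rw [div_eq_mul_inv, div_eq_mul_inv, smul_mul_assoc]

theorem Phi_apply (s : n → G) (a : G) (v : n ⊕ n → T) :
    Phi T s a v = (∑ i, v (.inl i) • s i) / a := rfl

variable {s : n → G} {t : n' → G} {a a' b : G} {A : Matrix n' (n ⊕ n) T}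

theorem Dat.ker_iff (D : Dat s t a a' b A) (v : n ⊕ n → T) : A.mulVec v = 0 ↔
    a' * ∑ i, v (.inl i) • s i = a * ∑ i, v (.inr i) • s i := by
  have e : ∑ l, A.mulVec v l • t l =
      b * (a' * ∑ i, v (.inl i) • s i - a * ∑ i, v (.inr i) • s i) := by
    have : ∀ l, A.mulVec v l • t l = ∑ x, v x • (A l x • t l) := fun l => by
      rw [Matrix.mulVec, dotProduct, Finset.sum_smul]
      exact Finset.sum_congr rfl fun x _ => by rw [mul_comm, mul_smul]
    simp only [this]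
    rw [Finset.sum_comm, Fintype.sum_sum_type]
    simp only [← Finset.smul_sum, D.l, D.r]
    simp only [Finset.mul_sum, sub_eq_add_neg, mul_add, ← Finset.sum_neg_distrib, Algebra.smul_def]
    congr 1 <;> exact Finset.sum_congr rfl fun i _ => by ring
  rw [← sub_eq_zero (a := a' * _), ← mul_eq_zero_iff_left D.hb, ← e]
  exact ⟨fun h => by simp [h], fun h => funext (Fintype.linearIndependent_iff.1 D.ht _ h)⟩

theorem sum_mem_span (c : n → T) : ∑ i, c i • s i ∈ Submodule.span T (Set.range s) :=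
  (Submodule.mem_span_range_iff_exists_fun T).2 ⟨c, rfl⟩

theorem Dat.mem (D : Dat s t a a' b A) {v : n ⊕ n → T} (h : A.mulVec v = 0) :
    Phi T s a v ∈ Zs (Submodule.span T (Set.range s)) a a' := by
  rw [D.ker_iff] at h
  rw [mem_Zs, Phi_apply, div_mul_cancel₀ _ D.ha, div_mul_eq_mul_div, mul_comm _ a', h,
    mul_div_cancel_left₀ _ D.ha]
  exact ⟨sum_mem_span _, sum_mem_span _⟩

theorem Dat.surj (D : Dat s t a a' b A) {z : G}
    (h : z ∈ Zs (Submodule.span T (Set.range s)) a a') :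
    ∃ v, A.mulVec v = 0 ∧ Phi T s a v = z := by
  obtain ⟨p, hp⟩ := (Submodule.mem_span_range_iff_exists_fun T).1 (mem_Zs.1 h).1
  obtain ⟨q, hq⟩ := (Submodule.mem_span_range_iff_exists_fun T).1 (mem_Zs.1 h).2
  refine ⟨Sum.elim p q, (D.ker_iff _).2 ?_, ?_⟩
  · simp only [Sum.elim_inl, Sum.elim_inr, hp, hq]
    ring
  · simp only [Phi_apply, Sum.elim_inl, hp, mul_div_cancel_right₀ _ D.ha]

theorem Dat.inj (D : Dat s t a a' b A) {v : n ⊕ n → T} (h : A.mulVec v = 0)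
    (h0 : Phi T s a v = 0) : v = 0 := by
  rw [D.ker_iff] at h
  rw [Phi_apply, div_eq_zero_iff, or_iff_left D.ha] at h0
  rw [h0, mul_zero, eq_comm, mul_eq_zero, or_iff_right D.ha] at h
  funext x
  rcases x with i | i
  · exact Fintype.linearIndependent_iff.1 D.hs _ h0 i
  · exact Fintype.linearIndependent_iff.1 D.hs _ h i

/-- The kernel of the matrix is the module of common multipliers. -/
noncomputable def Dat.equiv (D : Dat s t a a' b A) :
    LinearMap.ker A.mulVecLin ≃ₗ[T] Zs (Submodule.span T (Set.range s)) a a' :=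
  LinearEquiv.ofBijective (((Phi T s a).domRestrict _).codRestrict _ fun v => D.mem v.2)
    ⟨(injective_iff_map_eq_zero _).2 fun v h =>
      Subtype.ext (D.inj v.2 (congrArg Subtype.val h)),
    fun z => (D.surj z.2).elim fun v h => ⟨⟨v, h.1⟩, Subtype.ext h.2⟩⟩

end abs

section red

variable {k F M T n n' : Type} [Field k] [Field F] [Field M] [Field T] [Algebra k F] [Algebra k M]
  [Algebra T M] [Fintype n] [Fintype n'] {R ξ : Subalgebra k F} {ρ : ξ →ₐ[k] M} {e : R →+* T}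
  {s : n → F} {t : n' → F} {a a' b : F} {A : Matrix n' (n ⊕ n) R}

theorem sum_mem (hR : R ≤ ξ) (hs : ∀ i, s i ∈ ξ) (c : n → R) : ∑ i, c i • s i ∈ ξ :=
  ξ.sum_mem fun i _ => ξ.mul_mem (hR (c i).2) (hs i)

theorem ev_sum (hR : R ≤ ξ) (he : ∀ r : R, evO ξ ρ r = algebraMap T M (e r))
    (hs : ∀ i, s i ∈ ξ) (c : n → R) :
    evO ξ ρ (∑ i, c i • s i) = ∑ i, e (c i) • evO ξ ρ (s i) := by
  have h : ∑ i, c i • s i = ((∑ i, (⟨c i, hR (c i).2⟩ : ξ) * ⟨s i, hs i⟩ : ξ) : F) := by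
    rw [AddSubmonoidClass.coe_finsetSum]
    rfl
  rw [h, evO_coe, map_sum]
  refine Finset.sum_congr rfl fun i _ => ?_
  rw [map_mul, Algebra.smul_def, ← he, evO_of_mem ρ (hR (c i).2), evO_of_mem ρ (hs i)]

theorem span_ev (hR : R ≤ ξ) (he : ∀ r : R, evO ξ ρ r = algebraMap T M (e r))
    (hs : ∀ i, s i ∈ ξ) :
    Submodule.span T (evO ξ ρ '' (Submodule.span R (Set.range s) : Submodule R F)) =
      Submodule.span T (Set.range fun i => evO ξ ρ (s i)) := by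
  refine le_antisymm (Submodule.span_le.2 ?_) (Submodule.span_mono ?_)
  · rintro _ ⟨z, hz, rfl⟩
    obtain ⟨c, rfl⟩ := (Submodule.mem_span_range_iff_exists_fun R).1 hz
    rw [ev_sum hR he hs]
    exact sum_mem_span _
  · rintro _ ⟨i, rfl⟩
    exact ⟨s i, Submodule.subset_span ⟨i, rfl⟩, rfl⟩

omit [Fintype n] in
theorem Dat.map (D : Dat s t a a' b A) (hR : R ≤ ξ)
    (he : ∀ r : R, evO ξ ρ r = algebraMap T M (e r)) (hs : ∀ i, s i ∈ ξ) (ht : ∀ i, t i ∈ ξ)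
    (ha : IsU ξ a) (ha' : a' ∈ ξ) (hb : IsU ξ b)
    (is : LinearIndependent T fun i => evO ξ ρ (s i))
    (it : LinearIndependent T fun i => evO ξ ρ (t i)) :
    Dat (fun i => evO ξ ρ (s i)) (fun i => evO ξ ρ (t i)) (evO ξ ρ a) (evO ξ ρ a') (evO ξ ρ b)
      (A.map e) where
  hs := is
  ht := it
  ha := evO_ne ρ ha
  hb := evO_ne ρ hb
  l i := by
    have := congrArg (evO ξ ρ) (D.l i)
    rwa [ev_sum hR he ht, evO_mul ρ (ξ.mul_mem ha' hb.mem) (hs i), evO_mul ρ ha' hb.mem] at this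
  r i := by
    have := congrArg (evO ξ ρ) (D.r i)
    rwa [ev_sum hR he ht, evO_neg ρ (ξ.mul_mem (ξ.mul_mem ha.mem hb.mem) (hs i)),
      evO_mul ρ (ξ.mul_mem ha.mem hb.mem) (hs i), evO_mul ρ ha.mem hb.mem] at this

theorem ev_Phi (hR : R ≤ ξ) (he : ∀ r : R, evO ξ ρ r = algebraMap T M (e r))
    (hs : ∀ i, s i ∈ ξ) (ha : IsU ξ a) (w : n ⊕ n → R) :
    evO ξ ρ (Phi R s a w) = Phi T (fun i => evO ξ ρ (s i)) (evO ξ ρ a) fun x => e (w x) := by
  rw [Phi_apply, Phi_apply, evO_div ρ (sum_mem hR hs _) ha, ev_sum hR he hs]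

theorem exists_j {Ω E : Type} [Field Ω] [Field E] [Algebra k E] [Algebra Ω E] (μ : F →ₐ[k] E)
    (h : ∀ c ∈ R, μ c ∈ Set.range (algebraMap Ω E)) :
    ∃ j : R →+* Ω, ∀ r : R, μ r = algebraMap Ω E (j r) := by
  choose g hg using h
  have inj := (algebraMap Ω E).injective
  exact ⟨{
    toFun r := g r r.2
    map_one' := inj (by simp [hg])
    map_mul' x y := inj (by simp [hg])
    map_zero' := inj (by simp [hg])
    map_add' x y := inj (by simp [hg]) }, fun r => (hg _ _).symm⟩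

end red

end GraP

open GraP in
theorem gra_stmt : GraStmt := by
  intro gr1 k F M Ω E I J _ _ _ _ _ _ _ _ _ _ _ R H ξ ρ S μ S' N N' a a' b Z Z' ln gc hN hN' ha ha'
    hb hm hZ hZ'
  obtain ⟨n, σ, σm, rfl, σi⟩ := hN
  obtain ⟨n', τ, τm, rfl, τi⟩ := hN'
  obtain ⟨e, es, he⟩ := ln.res
  obtain ⟨j, hj⟩ := exists_j μ gc.base
  have hR : R ≤ ξ := ln.fib.dom.1
  have := ln.loc
  have m : ∀ i, σ i ∈ Submodule.span R (Set.range σ) := fun i => Submodule.subset_span ⟨i, rfl⟩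
  choose c hc using fun i => (Submodule.mem_span_range_iff_exists_fun R).1 (hm _ (m i)).2
  choose d hd using fun i => (Submodule.mem_span_range_iff_exists_fun R).1
    (Submodule.neg_mem _ (hm _ (m i)).1)
  let A : Matrix (Fin n') (Fin n ⊕ Fin n) R := fun l => Sum.elim (fun i => c i l) fun i => d i l
  have D : Dat σ τ a a' b A := ⟨ln.ind _ _ σm σi, ln.ind _ _ τm τi, ha.1, hb.1, hc, hd⟩
  have Dk := D.map hR he σm τm ha ha' hb σi τi
  have eμ : evO ⊤ (μ.comp (⊤ : Subalgebra k F).val) = μ :=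
    funext fun u => evO_of_mem _ Algebra.mem_top
  have hj' : ∀ r : R, evO ⊤ (μ.comp (⊤ : Subalgebra k F).val) r = algebraMap Ω E (j r) := by
    rwa [eμ]
  have DΩ := D.map (ξ := ⊤) le_top hj' (fun _ => Algebra.mem_top) (fun _ => Algebra.mem_top)
    ⟨ha.1, Algebra.mem_top, Algebra.mem_top⟩ Algebra.mem_top
    ⟨hb.1, Algebra.mem_top, Algebra.mem_top⟩ (by rw [eμ]; exact gc.ld _ _ D.hs)
    (by rw [eμ]; exact gc.ld _ _ D.ht)
  have sΩ := span_ev (s := σ) (ξ := ⊤) le_top hj' fun _ => Algebra.mem_top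
  rw [eμ] at DΩ sΩ
  rw [span_ev hR he σm] at hZ
  rw [sΩ] at hZ'
  subst hZ hZ'
  have ji : Function.Injective j := fun x y h =>
    Subtype.ext (μ.toRingHom.injective (show μ x = μ y by rw [hj, hj, h]))
  obtain ⟨g1, g2⟩ := gr1 k R Ω _ _ e j A es ji
  rw [Dk.equiv.finrank_eq, DΩ.equiv.finrank_eq] at g1 g2
  refine ⟨DΩ.equiv.finiteDimensional, g1, fun h => ⟨fun s hs => ?_, fun W hW hs z hz => ?_⟩⟩
  · obtain ⟨v, hv, rfl⟩ := Dk.surj hs
    obtain ⟨w, hw, k1⟩ := (g2 h).1 v hv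
    exact ⟨_, D.mem hw, by rw [ev_Phi hR he σm ha, funext k1]⟩
  · obtain ⟨w, hw, rfl⟩ := D.surj hz
    have k0 : ∀ w, A.mulVec w = 0 → (A.map e).mulVec (fun x => e (w x)) = 0 := fun w hw => by
      funext l
      have := RingHom.map_mulVec e A w l
      rw [hw] at this
      exact this.symm.trans (map_zero e)
    have k1 := (g2 h).2 {w | A.mulVec w = 0 ∧ Phi R σ a w ∈ W} (fun w hw => hw.1)
      (fun v hv => ?_) w hw
    · have k2 := Submodule.mem_map_of_mem (f := Phi R σ a) k1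
      rw [Submodule.map_span] at k2
      refine Submodule.span_mono ?_ k2
      rintro _ ⟨w, hw, rfl⟩
      exact hw.2
    · have k2 : Submodule.span k (evO ξ ρ '' W) ≤ (Submodule.span k ((fun w i => e (w i)) ''
          {w | A.mulVec w = 0 ∧ Phi R σ a w ∈ W})).map
            (Phi k (fun i => evO ξ ρ (σ i)) (evO ξ ρ a)) := by
        refine Submodule.span_le.2 ?_
        rintro _ ⟨z, hz, rfl⟩
        obtain ⟨w, hw, rfl⟩ := D.surj (hW hz)
        exact ⟨_, Submodule.subset_span ⟨w, ⟨hw, hz⟩, rfl⟩, (ev_Phi hR he σm ha w).symm⟩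
      obtain ⟨v', h1, h2⟩ := k2 (hs (Dk.mem hv))
      have k3 : v' ∈ LinearMap.ker (A.map e).mulVecLin := by
        refine Submodule.span_le.2 ?_ h1
        rintro _ ⟨w, hw, rfl⟩
        exact k0 w hw.1
      have k4 : v' - v = 0 := Dk.inj (Submodule.sub_mem _ k3
        (show v ∈ LinearMap.ker (A.map e).mulVecLin from hv)) (by rw [map_sub, h2, sub_self])
      exact sub_eq_zero.1 k4 ▸ h1

end Pool.Agent.MP_e8e0b6_ag.R2

end Part2

section Part3

-- part 3: InvA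

/-! The inverse of a finite set of functions on a locally factorial projective family. -/

set_option autoImplicit false

namespace Pool.Agent.MP_e8e0b6_ag.R2

open Pool.Agent.MP_79c67d_ag Pool.Agent.MP_20d318_ag Pool.Agent.MP_20d318_ag.AG
  Pool.Agent.MP_20d318_ag.BV Pool.Agent.MP_20d318_ag.CB

namespace InvA

variable {k F : Type} [Field k] [Field F] [Algebra k F] {A O : Subalgebra k F} {U : Set F}
  {b u : F}

/-- The functions that multiply `U` into `A`. -/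
def col (A : Subalgebra k F) (U : Set F) : Submodule A F where
  carrier := {b | ∀ u ∈ U, b * u ∈ A}
  add_mem' ha hb u hu := by rw [add_mul]; exact A.add_mem (ha u hu) (hb u hu)
  zero_mem' u _ := by rw [zero_mul]; exact A.zero_mem
  smul_mem' c b hb u hu := by
    change (c : F) * b * u ∈ A
    rw [mul_assoc]; exact A.mul_mem c.2 (hb u hu)

theorem fg (hA : IsNoetherianRing A) (hu : u ∈ U) (h0 : u ≠ 0) :
    ∃ G : Set F, G.Finite ∧ ∀ b, (∀ u ∈ U, b * u ∈ A) ↔ b ∈ Submodule.span A G := by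
  obtain ⟨G, hG, e⟩ := Submodule.fg_def.1 ((Submodule.fg_span_singleton (R := A) u⁻¹).of_le
    (S := col A U) fun b hb => Submodule.mem_span_singleton.2
      ⟨⟨b * u, hb u hu⟩, mul_inv_cancel_right₀ h0 b⟩)
  exact ⟨G, hG, fun b => by rw [e]; rfl⟩

theorem clear_den (h : O ∈ Pts A) (hU : U.Finite) (hb : ∀ u ∈ U, b * u ∈ O) :
    ∃ s ∈ A, IsU O s ∧ ∀ u ∈ U, s * b * u ∈ A := by
  induction U, hU using Set.Finite.induction_on with
  | empty => exact ⟨1, A.one_mem, isU_one, fun _ h => h.elim⟩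
  | @insert u U _ _ ih =>
    obtain ⟨s, hs, h1, h2⟩ := ih fun v hv => hb v (Or.inr hv)
    obtain ⟨p, hp, q, hq, h3, e⟩ := h.2.2 _ (hb u (Or.inl rfl))
    refine ⟨q * s, A.mul_mem hq hs, h3.mul h1, ?_⟩
    rintro v (rfl | hv)
    · rw [show q * s * b * v = s * (b * v * q) by ring, e, div_mul_cancel₀ _ h3.ne]
      exact A.mul_mem hs hp
    · rw [show q * s * b * v = q * (s * b * v) by ring]
      exact A.mul_mem hq (h2 v hv)

/-- The intersection of two principal fractional ideals of a factorial ring is principal. -/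
theorem inter (hF : Frac O) (hO : UniqueFactorizationMonoid O) {β β' : F} (h : β ≠ 0)
    (h' : β' ≠ 0) : ∃ γ : F, γ ≠ 0 ∧ ∀ b, b / β ∈ O ∧ b / β' ∈ O ↔ b / γ ∈ O := by
  obtain ⟨p, hp, q, hq, h0, e⟩ := hF (β / β')
  obtain ⟨q', p', c, hr, e1, e2⟩ := UniqueFactorizationMonoid.exists_reduced_factors
    (⟨q, hq⟩ : O) (fun e => h0 (congrArg Subtype.val e)) ⟨p, hp⟩
  have e3 : (c : F) * q' = q := congrArg Subtype.val e1
  have e4 : (c : F) * p' = p := congrArg Subtype.val e2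
  have c0 : (c : F) ≠ 0 := left_ne_zero_of_mul (e3 ▸ h0)
  have q0 : (q' : F) ≠ 0 := right_ne_zero_of_mul (e3 ▸ h0)
  have e5 : β * q' = β' * p' := by
    rw [← e3, ← e4, mul_div_mul_left _ _ c0, div_eq_div_iff h' q0] at e
    rw [e, mul_comm]
  have p0 : (p' : F) ≠ 0 := right_ne_zero_of_mul (e5 ▸ mul_ne_zero h q0)
  refine ⟨β * q', mul_ne_zero h q0, fun b => ⟨fun ⟨h1, h2⟩ => ?_, fun h1 => ⟨?_, ?_⟩⟩⟩
  · obtain ⟨z, hz⟩ : q' ∣ ⟨b / β, h1⟩ := hr.dvd_of_dvd_mul_right ⟨⟨b / β', h2⟩, Subtype.ext (by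
      change b / β * p' = q' * (b / β')
      rw [div_mul_eq_mul_div, mul_div_assoc', div_eq_div_iff h h']
      linear_combination -b * e5)⟩
    have e6 : b / β = q' * z := congrArg Subtype.val hz
    rw [← div_div, e6, mul_div_cancel_left₀ _ q0]
    exact z.2
  · have := O.mul_mem h1 q'.2
    rwa [← div_div, div_mul_cancel₀ _ q0] at this
  · have := O.mul_mem h1 p'.2
    rwa [e5, ← div_div, div_mul_cancel₀ _ p0] at this

theorem prin (hF : Frac O) (hO : UniqueFactorizationMonoid O) (hU : U.Finite) (hu : u ∈ U)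
    (h0 : u ≠ 0) : ∃ β : F, β ≠ 0 ∧ ∀ b, (∀ u ∈ U, b * u ∈ O) ↔ b / β ∈ O := by
  have key : ∀ V : Set F, V.Finite →
      ∃ β : F, β ≠ 0 ∧ ∀ b, (b * u ∈ O ∧ ∀ v ∈ V, b * v ∈ O) ↔ b / β ∈ O := fun V hV => by
    induction V, hV using Set.Finite.induction_on with
    | empty => exact ⟨u⁻¹, inv_ne_zero h0, fun b => by simp⟩
    | @insert v V _ _ ih =>
      obtain ⟨β, h1, h2⟩ := ih
      by_cases hv : v = 0
      · exact ⟨β, h1, fun b => by rw [← h2, hv]; simp⟩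
      · obtain ⟨γ, h3, h4⟩ := inter hF hO h1 (inv_ne_zero hv)
        refine ⟨γ, h3, fun b => ?_⟩
        rw [← h4, ← h2, div_inv_eq_mul, Set.forall_mem_insert]
        tauto
  obtain ⟨β, h1, h2⟩ := key U hU
  exact ⟨β, h1, fun b => by rw [← h2]; exact ⟨fun h => ⟨h u hu, h⟩, fun h => h.2⟩⟩

end InvA

open InvA in
theorem invA_stmt : InvAStmt := by
  rintro hx hf k F _ _ _ C H U fm hU ⟨u, hu, h0⟩
  have xb := hx k F C H fm
  choose! G hG hG' using fun j (hj : j ∈ H) => fg (xb.chn j hj) hu h0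
  obtain ⟨N, hN⟩ : ∃ N : ℕ, ∀ j ∈ H, ∀ g ∈ G j, ∀ v ∈ U, g * v * j ^ N ∈ Fo C H N := by
    refine Filter.Eventually.exists (f := Filter.atTop) ((Filter.eventually_all_finite fm.fin).2
      fun j hj => (Filter.eventually_all_finite (hG j hj)).2 fun g hg =>
        (Filter.eventually_all_finite hU).2 fun v hv => Filter.eventually_atTop.2 ?_)
    simpa only [Submodule.top_smul] using (hf C F H ⊤ fm.fin fm.nz).1 j hj (g * v) (by
      rw [Submodule.top_smul]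
      exact mem_ch.1 ((hG' j hj g).2 (Submodule.subset_span hg) v hv))
  refine ⟨N, ⋃ j ∈ H, (fun g => g * j ^ N) '' G j, fm.fin.biUnion fun j hj => (hG j hj).image _,
    fun O hO => ?_⟩
  obtain ⟨β, b0, hβ⟩ := prin (xb.frac O hO) (fm.ufd O hO) hU hu h0
  obtain ⟨j, hj, hO'⟩ := id hO
  have gj := ((xb.pts j hj O).1 hO').2
  have j0 : j ^ N ≠ 0 := pow_ne_zero _ gj.ne
  refine ⟨β * j ^ N, j, ?_, gj, fun b => by rw [mul_div_mul_right _ _ j0]; exact hβ b⟩
  refine Gn.of_span hO'.1 (gn_of_mem (S := {β * j ^ N}) rfl (mul_ne_zero b0 j0) (by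
    rintro _ rfl
    rw [div_self (mul_ne_zero b0 j0)]; exact O.one_mem)) (fun a ha => ?_) ?_
  · obtain ⟨i, hi, g, hg, rfl⟩ := Set.mem_iUnion₂.1 ha
    rw [mul_comm β, ← div_div]
    refine (hβ _).1 fun v hv => ?_
    rw [show g * i ^ N / j ^ N * v = g * v * i ^ N / j ^ N by ring]
    exact Fo.div_mem gj (xb.le O hO) (hN i hi g hg v hv)
  · rintro _ rfl
    obtain ⟨s, -, h1, h2⟩ := clear_den hO' hU ((hβ β).2 (by rw [div_self b0]; exact O.one_mem))
    have key : ∀ x ∈ Submodule.span (ch C H j) (G j), x * j ^ N ∈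
        Submodule.span O (⋃ j ∈ H, (fun g => g * j ^ N) '' G j) := fun x hx => by
      induction hx using Submodule.span_induction with
      | mem g hg => exact Submodule.subset_span (Set.mem_iUnion₂.2 ⟨j, hj, g, hg, rfl⟩)
      | zero => rw [zero_mul]; exact zero_mem _
      | add x y _ _ hx hy => rw [add_mul]; exact add_mem hx hy
      | smul c x _ hx =>
        change (c : F) * x * j ^ N ∈ _
        rw [mul_assoc]
        exact Submodule.smul_mem _ (⟨c, hO'.2.1 c.2⟩ : O) hx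
    have := Submodule.smul_mem _ (⟨s⁻¹, h1.inv_mem⟩ : O) (key _ ((hG' j hj _).1 h2))
    rwa [show (⟨s⁻¹, h1.inv_mem⟩ : O) • (s * β * j ^ N) = β * j ^ N by
      change s⁻¹ * (s * β * j ^ N) = _
      rw [mul_assoc, inv_mul_cancel_left₀ h1.ne]] at this

end Pool.Agent.MP_e8e0b6_ag.R2

end Part3

section Part4

-- part 4: Iso1

/-!
The degrees of the two fibres over the plane agree.
-/

set_option autoImplicit false

namespace Pool.Agent.MP_e8e0b6_ag.R2

open Pool.Agent.MP_79c67d_ag Pool.Agent.MP_20d318_ag Pool.Agent.MP_20d318_ag.AG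
  Pool.Agent.MP_20d318_ag.BV Pool.Agent.MP_20d318_ag.CB
open scoped IntermediateField Pointwise

namespace Iso1

/-- A monomial in two elements. -/
def mo {A : Type} [CommRing A] (x y : A) (m : Fin 2 →₀ ℕ) : A := x ^ m 0 * y ^ m 1

theorem aeval_mo {k A : Type} [Field k] [CommRing A] [Algebra k A] (x y : A) (m : Fin 2 →₀ ℕ)
    (c : k) : MvPolynomial.aeval ![x, y] (MvPolynomial.monomial m c) = c • mo x y m := by
  rw [MvPolynomial.aeval_monomial, Finsupp.prod_fintype _ _ (by simp), Fin.prod_univ_two,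
    Algebra.smul_def, mo]
  rfl

theorem up {k M ι : Type} [Field k] [Field M] [Algebra k M] {x y : M}
    (h : AlgebraicIndependent k ![x, y]) {e : ι → M} (he : LinearIndependent k⟮x, y⟯ e) :
    LinearIndependent k fun p : (Fin 2 →₀ ℕ) × ι => mo x y p.1 * e p.2 := by
  have hx : x ∈ k⟮x, y⟯ := IntermediateField.subset_adjoin _ _ (by simp)
  have hy : y ∈ k⟮x, y⟯ := IntermediateField.subset_adjoin _ _ (by simp)
  have h1 : LinearIndependent k (mo x y) := by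
    have := (MvPolynomial.basisMonomials (Fin 2) k).linearIndependent.map'
      (MvPolynomial.aeval (R := k) ![x, y]).toLinearMap (LinearMap.ker_eq_bot.2 h)
    have e0 : (MvPolynomial.aeval (R := k) ![x, y]).toLinearMap ∘
        MvPolynomial.basisMonomials (Fin 2) k = mo x y := by
      funext m
      simp only [Function.comp, MvPolynomial.coe_basisMonomials, AlgHom.toLinearMap_apply]
      rw [aeval_mo, one_smul]
    rwa [e0] at this
  have h2 : LinearIndependent k (mo (⟨x, hx⟩ : k⟮x, y⟯) ⟨y, hy⟩) := by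
    exact LinearIndependent.of_comp (k⟮x, y⟯.val.toLinearMap) h1
  exact linearIndependent_smul h2 he

open scoped IntermediateField.algebraAdjoinAdjoin in
theorem down {Ω E ι : Type} [Field Ω] [Field E] [Algebra Ω E] [Fintype ι] {x y : E} {e : ι → E}
    (h : LinearIndependent Ω fun p : (Fin 2 →₀ ℕ) × ι => mo x y p.1 * e p.2) :
    LinearIndependent Ω⟮x, y⟯ e := by
  classical
  refine (LinearIndependent.iff_fractionRing (Algebra.adjoin Ω ({x, y} : Set E)) Ω⟮x, y⟯).1 ?_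
  refine Fintype.linearIndependent_iff.2 fun g hg i => ?_
  have hp : ∀ i, ∃ p : MvPolynomial (Fin 2) Ω, MvPolynomial.aeval ![x, y] p = (g i : E) := by
    intro i
    have h1 : (g i : E) ∈ Algebra.adjoin Ω (Set.range ![x, y]) := by
      simpa [Set.pair_comm] using (g i).2
    rwa [Algebra.adjoin_range_eq_range_aeval] at h1
  choose p hp using hp
  set T := Finset.univ.biUnion fun i => (p i).support
  have hT : ∀ i, p i = ∑ m ∈ T, MvPolynomial.monomial m ((p i).coeff m) := fun i => by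
    conv_lhs => rw [(p i).as_sum]
    refine Finset.sum_subset (Finset.subset_biUnion_of_mem (fun i => (p i).support)
      (Finset.mem_univ i)) fun m _ hm => ?_
    rw [MvPolynomial.notMem_support_iff.1 hm, map_zero]
  have h0 := linearIndependent_iff'.1 h (T ×ˢ Finset.univ) (fun q => (p q.2).coeff q.1) (by
    rw [Finset.sum_product_right, ← hg]
    refine Finset.sum_congr rfl fun j _ => ?_
    change _ = (g j : E) * e j
    rw [← hp j]
    conv_rhs => rw [hT j, map_sum, Finset.sum_mul]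
    refine Finset.sum_congr rfl fun m _ => ?_
    rw [aeval_mo, smul_mul_assoc])
  apply Subtype.ext
  change (g i : E) = 0
  rw [← hp i, hT i, map_sum]
  refine Finset.sum_eq_zero fun m hm => ?_
  rw [h0 (m, i) (Finset.mem_product.2 ⟨hm, Finset.mem_univ i⟩), map_zero, map_zero]

end Iso1

open Iso1 in
theorem iso1_stmt : Iso1Stmt := by
  intro k F M Ω E I J _ _ _ _ _ _ _ _ _ _ _ R H ξ ρ S μ S' x y ln gm hx hy hi hfd dl
  let b := Module.finBasis k⟮evO ξ ρ x, evO ξ ρ y⟯ M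
  choose e he using fun i => ln.surj (b i)
  have hev : ∀ i, evO ξ ρ (e i) = b i := fun i => (evO_coe ρ (e i)).trans (he i)
  have hmo : ∀ m, mo x y m ∈ ξ := fun m => ξ.mul_mem (ξ.pow_mem hx _) (ξ.pow_mem hy _)
  have h1 := gm.ld _ _ (ln.ind _ (fun p : (Fin 2 →₀ ℕ) × Fin _ => mo x y p.1 * e p.2)
    (fun p => ξ.mul_mem (hmo _) (e _).2) (by
      convert up hi b.linearIndependent using 2 with p
      rw [evO_mul ρ (hmo _) (e _).2, hev, mo, evO_mul ρ (ξ.pow_mem hx _) (ξ.pow_mem hy _),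
        evO_pow ρ hx, evO_pow ρ hy, mo]))
  have h2 : LinearIndependent Ω⟮μ x, μ y⟯ fun i => μ (e i) := down (by
    convert h1 using 2 with p
    simp only [mo, map_mul, map_pow])
  have hbase : ∀ c ∈ R, μ c ∈ Ω⟮μ x, μ y⟯ := fun c hc => by
    obtain ⟨a, ha⟩ := gm.base c hc
    exact ha ▸ IntermediateField.algebraMap_mem _ a
  let P : Subalgebra k F :=
    { carrier := {a | μ a ∈ Ω⟮μ x, μ y⟯}
      mul_mem' := fun {a b} ha hb => by
        change μ (a * b) ∈ Ω⟮μ x, μ y⟯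
        rw [map_mul]; exact mul_mem ha hb
      add_mem' := fun {a b} ha hb => by
        change μ (a + b) ∈ Ω⟮μ x, μ y⟯
        rw [map_add]; exact add_mem ha hb
      algebraMap_mem' := fun c => hbase _ (R.algebraMap_mem c) }
  have hP : pl R (x, y) ≤ P := sup_le hbase (Algebra.adjoin_le (by
    rintro a (rfl | rfl)
    · exact IntermediateField.subset_adjoin Ω _ (by simp)
    · exact IntermediateField.subset_adjoin Ω _ (by simp)))
  set N := Submodule.span Ω⟮μ x, μ y⟯ (Set.range fun i => μ (e i)) with hN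
  have hξ : ∀ z ∈ ξ, μ z ∈ N := by
    intro z hz
    have h3 := dl (Set.range fun i => (e i : F)) (Set.finite_range _)
      (by rintro _ ⟨i, rfl⟩; exact (e i).2) (by
        rw [← Set.range_comp, ← b.span_eq]
        congr 2
        exact funext hev) z hz
    clear hz
    induction h3 using Submodule.span_induction with
    | mem _ h => obtain ⟨i, rfl⟩ := h; exact Submodule.subset_span ⟨i, rfl⟩
    | zero => rw [map_zero]; exact N.zero_mem
    | add _ _ _ _ h h' => rw [map_add]; exact N.add_mem h h'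
    | smul r w _ h =>
      obtain ⟨r, a, ha, c, hc, -, rfl⟩ := r
      have h4 : μ (a / c) ∈ Ω⟮μ x, μ y⟯ := by
        rw [map_div₀]; exact div_mem (hP ha) (hP hc)
      have := N.smul_mem ⟨_, h4⟩ h
      change μ (a / c * w) ∈ N
      rw [map_mul]
      exact this
  have hmul : N * N ≤ N := by
    rw [hN, Submodule.span_mul_span, Submodule.span_le]
    rintro _ ⟨_, ⟨i, rfl⟩, _, ⟨j, rfl⟩, rfl⟩
    have := hξ _ (ξ.mul_mem (e i).2 (e j).2)
    rwa [map_mul] at this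
  let B : Subalgebra Ω⟮μ x, μ y⟯ E := N.toSubalgebra (by simpa using hξ 1 ξ.one_mem)
    fun a c ha hc => hmul (Submodule.mul_mem_mul ha hc)
  have hdiv : ∀ a ∈ B, ∀ c ∈ B, a / c ∈ B := fun a ha c hc => by
    rw [div_eq_mul_inv]
    exact B.mul_mem ha (B.inv_mem_of_algebraic (x := ⟨c, hc⟩) (IsIntegral.of_mem_of_fg B
      (Submodule.fg_span (Set.finite_range _)) c hc).isAlgebraic)
  have htop : ⊤ ≤ N := by
    intro f _
    have h5 := gm.mf.all.a1.nice.toFine.top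
    rw [gm.eq] at h5
    obtain ⟨j, hj, -, -, h6⟩ := h5
    have h7 : cht Ω (fun _ : Unit => μ '' H) j ≤ B.restrictScalars Ω := Algebra.adjoin_le (by
      intro z hz
      obtain ⟨l, _, ⟨a, ha, rfl⟩, rfl⟩ := Set.mem_iUnion.1 hz
      obtain ⟨c, hc, e⟩ := hj l
      exact hdiv _ (hξ a (ln.sub a ha)) _ (e ▸ hξ c (ln.sub c hc)))
    obtain ⟨a, ha, c, hc, -, rfl⟩ := h6 f trivial
    exact hdiv a (h7 ha) c (h7 hc)
  rw [Module.finrank_eq_card_basis (Module.Basis.mk h2 htop), Fintype.card_fin]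

end Pool.Agent.MP_e8e0b6_ag.R2

end Part4

section Part5

-- part 5: Iso2

/-!
The squares of a positive globally generated line bundle on the two fibres agree.
-/

set_option autoImplicit false

namespace Pool.Agent.MP_e8e0b6_ag.R2

open Pool.Agent.MP_79c67d_ag Pool.Agent.MP_20d318_ag Pool.Agent.MP_20d318_ag.AG
  Pool.Agent.MP_20d318_ag.BV Pool.Agent.MP_20d318_ag.CB
open scoped IntermediateField Pointwise

namespace Iso2

variable {k F M I : Type} [Field k] [Field F] [Field M] [Algebra k F] [Algebra k M] [Fintype I]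
  {R ξ O : Subalgebra k F} {H V : Set F} {ρ : ξ →ₐ[k] M} {S : Sd k M I}
  {γ : Subalgebra k F → F} {d : I → ℤ}

theorem up {Ω E : Type} [Field Ω] [Field E] [Algebra k E] [Algebra Ω E] (μ : F →ₐ[k] E)
    {O' : Subalgebra Ω E} (hle : ∀ z ∈ O, μ z ∈ O') {b : F} (h : Gn V O b) :
    Gn (μ '' V) O' (μ b) := by
  obtain ⟨z, hz, hu⟩ := h.2
  refine ⟨?_, μ z, ⟨z, hz, rfl⟩, ?_⟩
  · rintro _ ⟨w, hw, rfl⟩
    rw [← map_div₀]
    exact hle _ (h.1 w hw)
  · rw [← map_div₀]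
    exact ⟨(_root_.map_ne_zero _).2 hu.ne, hle _ hu.mem, map_inv₀ μ _ ▸ hle _ hu.inv_mem⟩

/-- Generators can be tested on the closed fibre. -/
theorem gn_iff (ln : Ln R H ξ ρ S) (hb : Lb R H ξ ρ S d γ) (hO : O ∈ XX R H) (hd : Dom R O)
    (hV : ∀ a ∈ V, a ∈ ξ) (hm : ∀ a ∈ V, a / (γ O)⁻¹ ∈ O) :
    Gn V O (γ O)⁻¹ ↔ Gn (evO ξ ρ '' V) (red ξ ρ O) (S.lb d (red ξ ρ O))⁻¹ := by
  obtain ⟨u1, u2⟩ := hb O hO hd
  have e : ∀ a ∈ V, evO ξ ρ a / (evO ξ ρ (γ O))⁻¹ = evO ξ ρ (a / (γ O)⁻¹) := fun a ha => by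
    rw [evO_div ρ (hV a ha) u1.inv, evO_inv ρ u1]
  have m : ∀ a ∈ evO ξ ρ '' V, a / (evO ξ ρ (γ O))⁻¹ ∈ red ξ ρ O := by
    rintro _ ⟨a, ha, rfl⟩
    exact (ln.mem O (ln.fib.le O hO hd) _).2 ⟨_, hm a ha, (e a ha).symm⟩
  constructor
  · rintro ⟨-, a, ha, hu⟩
    refine Gn.of_unit ⟨m, _, ⟨a, ha, rfl⟩, ?_⟩ (by rwa [inv_div_inv])
    rw [e a ha]
    exact (ln.isU O hO hd _ (hm a ha)).2 hu
  · intro h
    obtain ⟨-, _, ⟨a, ha, rfl⟩, hu⟩ := h.of_unit (γ' := (evO ξ ρ (γ O))⁻¹)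
      (by rw [inv_div_inv, ← inv_div]; exact u2.inv)
    rw [e a ha] at hu
    exact ⟨hm, a, ha, (ln.isU O hO hd _ (hm a ha)).1 hu⟩

/-- Linear combinations lift. -/
theorem lift (hV : ∀ a ∈ V, a ∈ ξ) {b : M} (hb : b ∈ Submodule.span k (evO ξ ρ '' V)) :
    ∃ a ∈ ξ, evO ξ ρ a = b ∧ ∀ (O : Subalgebra k F) (g : F), (∀ u ∈ V, u / g ∈ O) → a / g ∈ O := by
  induction hb using Submodule.span_induction with
  | mem x hx =>
    obtain ⟨a, ha, rfl⟩ := hx
    exact ⟨a, hV a ha, rfl, fun _ _ h => h a ha⟩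
  | zero => exact ⟨0, ξ.zero_mem, evO_zero ρ, fun O _ _ => by simp⟩
  | add x y _ _ hx hy =>
    obtain ⟨a, ha, rfl, h1⟩ := hx
    obtain ⟨b, hb, rfl, h2⟩ := hy
    exact ⟨a + b, ξ.add_mem ha hb, evO_add ρ ha hb, fun O g h => by
      rw [add_div]; exact O.add_mem (h1 O g h) (h2 O g h)⟩
  | smul c x _ hx =>
    obtain ⟨a, ha, rfl, h1⟩ := hx
    exact ⟨algebraMap k F c * a, ξ.mul_mem (ξ.algebraMap_mem c) ha, by
      rw [evO_mul ρ (ξ.algebraMap_mem c) ha, evO_const, Algebra.smul_def], fun O g h => by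
      rw [mul_div_assoc]; exact O.mul_mem (O.algebraMap_mem c) (h1 O g h)⟩

theorem hv {a₀ a₁ a₂ : F} (h0 : a₀ ≠ 0) (h : ∀ O ∈ XX R H, Prin {a₀, a₁, a₂} O) :
    Hv R H (a₁ / a₀) (a₂ / a₀) := by
  intro O hO _ V _ hV hI
  have h1 : IsU V (a₁ / a₀) := by simpa using hI.2 (MvPolynomial.X 0) (MvPolynomial.X_ne_zero _)
  have h2 : IsU V (a₂ / a₀) := by simpa using hI.2 (MvPolynomial.X 1) (MvPolynomial.X_ne_zero _)
  obtain ⟨g, hg, hn⟩ := (h O hO).exists_mem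
  have hu : IsU O (a₀ / g) := hV.2 _ (hn.1 _ (by simp)) (by
    rcases hg with rfl | rfl | rfl
    · rw [div_self h0]; exact isU_one
    · rw [← inv_div]; exact h1.inv
    · rw [← inv_div]; exact h2.inv)
  exact ⟨div_div_div_cancel_right₀ hn.ne a₁ a₀ ▸ hu.div_mem (hn.1 _ (by simp)),
    div_div_div_cancel_right₀ hn.ne a₂ a₀ ▸ hu.div_mem (hn.1 _ (by simp))⟩

end Iso2

open Iso2 in
theorem iso2_stmt : Iso2Stmt := by
  intro h3 hdeg hdel h1 k F M Ω E I J _ _ _ _ _ _ _ _ _ _ _ _ _ _ _ R H ξ ρ S μ S' γ c d tw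
    ⟨hD, ⟨φ, φ0, hg⟩, hb⟩ gg
  obtain ⟨pc, pd, U, -, hU⟩ := gg trivial
  have ln := tw.ln
  have hξ : ∀ a ∈ U, a ∈ ξ := fun a ha => by
    have u := (hb ξ ln.fib.mem ln.fib.dom).1
    have := u.div_mem ((hU ξ ln.fib.mem).1 a ha)
    rwa [div_inv_eq_mul, mul_div_cancel_right₀ _ u.ne] at this
  obtain ⟨b₀, m0, b₁, m1, b₂, m2, n0, hn⟩ := h3 k M I S d (evO ξ ρ '' U) ln.mf.all fun O' hO' => by
    obtain ⟨O, ⟨hO, hd⟩, rfl⟩ := ln.eq ▸ hO'
    exact (gn_iff ln hb hO hd hξ (hU O hO).1).1 (hU O hO)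
  obtain ⟨a₀, x0, rfl, y0⟩ := lift hξ m0
  obtain ⟨a₁, x1, rfl, y1⟩ := lift hξ m1
  obtain ⟨a₂, x2, rfl, y2⟩ := lift hξ m2
  have u0 : IsU ξ a₀ := isU_of_not_mx x0 fun h => n0 ((ln.lh.eq_zero_iff x0).2 h)
  have ga : ∀ O ∈ XX R H, Gn {a₀, a₁, a₂} O (γ O)⁻¹ := fun O hO => by
    obtain ⟨O₁, hO₁, hd, hle⟩ := ln.spc O hO
    refine (((gn_iff ln hb hO₁ hd ?_ ?_).2 ?_).mono hle).of_unit ?_
    · rintro _ (rfl | rfl | rfl) <;> assumption
    · rintro _ (rfl | rfl | rfl)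
      exacts [y0 _ _ (hU _ hO₁).1, y1 _ _ (hU _ hO₁).1, y2 _ _ (hU _ hO₁).1]
    · rw [Set.image_insert_eq, Set.image_pair]
      exact hn _ (ln.eq ▸ ⟨O₁, ⟨hO₁, hd⟩, rfl⟩)
    · rw [inv_div_inv]
      exact hD.cmp hO₁ hO hle
  obtain ⟨i1, i2, i3⟩ := hdeg k M I S d _ _ _ ln.mf.all ⟨hn, n0, pd⟩
  obtain ⟨-, -, i4⟩ := hdeg Ω E J S' c (φ * μ a₀) (φ * μ a₁) (φ * μ a₂) tw.gm.mf.all
    ⟨fun O' hO' => by
      obtain ⟨O, hO, e⟩ := tw.gm.bg O' hO'
      have := (up μ (fun z hz => (e z).1 hz) (ga O hO)).smul φ0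
      rw [Set.image_insert_eq, Set.image_pair, Set.image_insert_eq, Set.image_pair] at this
      refine this.of_unit ?_
      convert hg O' hO' O hO fun z hz => (e z).1 hz using 1
      rw [map_inv₀]
      field_simp, mul_ne_zero φ0 ((_root_.map_ne_zero _).2 u0.ne), pc⟩
  rw [mul_div_mul_left _ _ φ0, mul_div_mul_left _ _ φ0, ← map_div₀, ← map_div₀] at i4
  rw [← evO_div ρ x1 u0, ← evO_div ρ x2 u0] at i1 i2 i3
  rw [← i3, ← i4, h1 k F M Ω E I J R H ξ ρ S μ S' _ _ ln tw.gm (u0.div_mem x1) (u0.div_mem x2) i1 i2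
    (hdel k F M I R H ξ ρ S _ _ ln (u0.div_mem x1) (u0.div_mem x2) i1
      (hv u0.ne fun O hO => (ga O hO).prin))]

end Pool.Agent.MP_e8e0b6_ag.R2

end Part5

section Part6

-- part 6: Iso3

/-!
Squares of classes agree on the two fibres: reduction to positive generated line bundles.
-/

set_option autoImplicit false

namespace Pool.Agent.MP_e8e0b6_ag.R2

open Pool.Agent.MP_79c67d_ag Pool.Agent.MP_20d318_ag Pool.Agent.MP_20d318_ag.AG
  Pool.Agent.MP_20d318_ag.BV Pool.Agent.MP_20d318_ag.CB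
open scoped Pointwise

namespace Iso3A

theorem gg_of {k M I : Type} [Field k] [Field M] [Algebra k M] [Fintype I] {S : Sd k M I}
    {U : Set M} {c : I → ℤ} (hU : U.Finite) (h : ∀ O ∈ S.T, Gn U O (S.lb c O)⁻¹) : S.GG c :=
  ⟨U \ {0}, hU.subset Set.sdiff_subset, fun _ ha => ha.2, fun O hO =>
    ⟨fun a ha => (h O hO).1 a ha.1, (h O hO).2.imp fun _ ha =>
      ⟨⟨ha.1, (div_ne_zero_iff.1 ha.2.1).1⟩, ha.2⟩⟩⟩

theorem fin_pow {F : Type} [Field F] {H : Set F} (h : H.Finite) (n : ℕ) : (H ^ n).Finite := by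
  induction n with
  | zero => rw [pow_zero]; exact Set.finite_one
  | succ n ih => rw [pow_succ]; exact ih.mul h

variable {k F M Ω E I J : Type} [Field k] [Field F] [Field M] [Field Ω] [Field E] [Algebra k F]
  [Algebra k M] [Algebra k E] [Algebra Ω E] [Fintype I] [Fintype J] {R : Subalgebra k F}
  {H : Set F} {ξ : Subalgebra k F} {ρ : ξ →ₐ[k] M} {S : Sd k M I} {μ : F →ₐ[k] E} {S' : Sd Ω E J}
  {γ η : Subalgebra k F → F} {U : Set F} {c h' : J → ℤ} {d h : I → ℤ}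

theorem ggg (t : Gm R H μ S') (h1 : Lg (XX R H) μ S' c γ) (hU : U.Finite)
    (h2 : ∀ O ∈ XX R H, Gn U O (γ O)⁻¹) : S'.GG c := by
  obtain ⟨φ, h0, h1⟩ := h1
  refine gg_of ((hU.image μ).image fun a => φ * a) fun O' hO' => ?_
  obtain ⟨O, hO, e⟩ := t.bg O' hO'
  have u := h1 O' hO' O hO fun a => (e a).1
  have g := h2 O hO
  have g1 : Gn (μ '' U) O' (μ (γ O)⁻¹) := by
    refine ⟨?_, ?_⟩
    · rintro _ ⟨a, ha, rfl⟩
      rw [← map_div₀]
      exact (e _).1 (g.1 a ha)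
    · obtain ⟨a, ha, v⟩ := g.2
      refine ⟨_, ⟨a, ha, rfl⟩, ?_⟩
      rw [← map_div₀]
      exact ⟨(map_ne_zero μ).2 v.1, (e _).1 v.2.1, by rw [← map_inv₀]; exact (e _).1 v.2.2⟩
  have g2 := (g1.of_unit (γ' := (φ * S'.lb c O')⁻¹) (by
    rwa [map_inv₀, inv_div_inv])).smul h0
  rwa [mul_inv, mul_inv_cancel_left₀ h0] at g2

theorem ggb (t : Ln R H ξ ρ S) (h1 : Lb R H ξ ρ S d γ) (hU : U.Finite)
    (h2 : ∀ O ∈ XX R H, Gn U O (γ O)⁻¹) : S.GG d := by
  refine gg_of (hU.image (evO ξ ρ)) fun O'' hO'' => ?_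
  rw [t.eq] at hO''
  obtain ⟨O, ⟨hO, hd⟩, rfl⟩ := hO''
  obtain ⟨u, v⟩ := h1 O hO hd
  have hle := t.fib.le O hO hd
  have g := h2 O hO
  have e : ∀ a ∈ U, evO ξ ρ a / (S.lb d (red ξ ρ O))⁻¹ =
      evO ξ ρ (a / (γ O)⁻¹) / (evO ξ ρ (γ O) / S.lb d (red ξ ρ O)) := fun a ha => by
    have ha' : a ∈ ξ := by
      have := ξ.mul_mem (hle (g.1 a ha)) u.inv_mem
      rwa [div_mul_cancel₀ _ g.ne] at this
    have := evO_ne ρ u
    rw [evO_div ρ ha' u.inv, evO_inv ρ u]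
    field_simp
  refine ⟨?_, ?_⟩
  · rintro _ ⟨a, ha, rfl⟩
    rw [e a ha]
    exact v.div_mem ((t.mem O hle _).2 ⟨_, g.1 a ha, rfl⟩)
  · obtain ⟨a, ha, w⟩ := g.2
    refine ⟨_, ⟨a, ha, rfl⟩, ?_⟩
    rw [e a ha]
    exact ((t.isU O hO hd _ w.mem).2 w).div v

theorem pr_tw (t : Tw R H ξ ρ S μ S') (p : Pr R H ξ ρ S μ S' γ c d) (q : Pr R H ξ ρ S μ S' η h' h)
    (n : ℕ) : Pr R H ξ ρ S μ S' (γ * η ^ n) (c + n • h') (d + n • h) := by
  induction n with
  | zero => simpa using p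
  | succ n ih =>
    rw [pow_succ, ← mul_assoc, succ_nsmul, succ_nsmul, ← add_assoc, ← add_assoc]
    exact ⟨ih.1.mul q.1, t.lg.mul _ _ _ _ ih.2.1 q.2.1, t.lb.mul _ _ _ _ ih.2.2 q.2.2⟩

end Iso3A

open Iso3A in
theorem iso3_stmt : Iso3Stmt := by
  intro gen iso k F M Ω E I J _ _ _ _ _ _ _ _ _ _ _ _ _ _ _ R H ξ ρ S μ S' γ c d t p _
  obtain ⟨u, h', h, hu, q, a', a⟩ := t.hyp
  obtain ⟨m, W, hW, g⟩ := gen k F R H γ⁻¹ t.ln.xb p.1.inv
  have key : ∀ s : ℕ, ∃ U : Set F, U.Finite ∧ ∀ O ∈ XX R H,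
      Gn U O ((γ * (fun O => u * (gn H O)⁻¹) ^ (m + s) : Subalgebra k F → F) O)⁻¹ := by
    intro s
    refine ⟨(fun x => (u ^ (m + s))⁻¹ * x) '' (W * H ^ s),
      (hW.mul (fin_pow t.ln.fm.fin s)).image _, fun O hO => ?_⟩
    have j := gn_spec (t.ln.xb.sys.2 O hO)
    convert (gn_mul (g O hO _ j) (gn_pow j s)).smul (inv_ne_zero (pow_ne_zero (m + s) hu.1))
      using 1
    simp only [Pi.mul_apply, Pi.pow_apply, Pi.inv_apply, mul_pow, mul_inv, inv_pow, inv_inv,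
      pow_add]
    ring
  obtain ⟨U, hU, gU⟩ := key 0
  have n1 := t.gm.mf.all.a2.gg _ (ggg t.gm (pr_tw t p q (m + 0)).2.1 hU gU)
  have n2 := t.ln.mf.all.a2.gg _ (ggb t.ln (pr_tw t p q (m + 0)).2.2 hU gU)
  have e : ∀ s : ℕ, S.i (d + (m + (s + 1)) • h) (d + (m + (s + 1)) • h) =
      S'.i (c + (m + (s + 1)) • h') (c + (m + (s + 1)) • h') := fun s =>
    iso k F M Ω E I J R H ξ ρ S μ S' _ _ _ t (pr_tw t p q (m + (s + 1))) fun _ =>
      ⟨fun x hx => by
        have b1 := n1 x hx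
        have b2 := a'.pos x hx
        simp only [Sd.i, ip_add_left, ip_nsmul_left] at b1 b2 ⊢
        push_cast at b1 ⊢
        nlinarith [mul_nonneg (Int.natCast_nonneg s) b2.le], fun x hx => by
        have b1 := n2 x hx
        have b2 := a.pos x hx
        simp only [Sd.i, ip_add_left, ip_nsmul_left] at b1 b2 ⊢
        push_cast at b1 ⊢
        nlinarith [mul_nonneg (Int.natCast_nonneg s) b2.le], key _⟩
  have e0 := e 0
  have e1 := e 1
  have e2 := e 2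
  simp only [Sd.i, ip_add_left, ip_add_right, ip_nsmul_left, ip_nsmul_right] at e0 e1 e2 ⊢
  push_cast at e0 e1 e2
  have h2 : 2 * ip S.B d d = 2 * ip S'.B c c := by
    linear_combination ((m : ℤ) + 2) * (m + 3) * e0 - 2 * ((m : ℤ) + 1) * (m + 3) * e1 +
      ((m : ℤ) + 1) * (m + 2) * e2
  omega

end Pool.Agent.MP_e8e0b6_ag.R2

end Part6
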