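import Pool.Agent.MP_e8e0b6_ag.R2.SpecA
import Pool.Agent.MP_20d318_ag.CB.Ex2
import Pool.Agent.MP_20d318_ag.CB.FnD

section Part1

-- part 1: Ln

/-!
Basic properties of a local family with normalized coordinates.
-/

set_option autoImplicit false

namespace Pool.Agent.MP_e8e0b6_ag.R2

open Pool.Agent.MP_79c67d_ag Pool.Agent.MP_20d318_ag Pool.Agent.MP_20d318_ag.AG
  Pool.Agent.MP_20d318_ag.BV Pool.Agent.MP_20d318_ag.CB

namespace LnA

variable {k F M I : Type} [Field k] [Field F] [Field M] [Algebra k F] [Algebra k M] [Fintype I]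
  {R O W ξ : Subalgebra k F} {H : Set F} {ρ : ξ →ₐ[k] M} {S : Sd k M I} {a j : F}
  {B : Subalgebra k M}

/-- Composite valuations. -/
theorem exists_val_le (hR : IsLocalRing R) (hW : IsVal W) (h : R ≤ W) :
    ∃ V : Subalgebra k F, IsVal V ∧ AG.Dom R V ∧ V ≤ W := by
  have hl := hW.isLocalRing
  let T : Subring F :=
    { carrier := {f | ∃ r ∈ R, f - r ∈ mx W}
      mul_mem' := by
        rintro f g ⟨a, ha, hf⟩ ⟨b, hb, hg⟩
        have hgW : g ∈ W := by simpa using W.add_mem hg.1 (h hb)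
        refine ⟨a * b, R.mul_mem ha hb, ?_⟩
        rw [show f * g - a * b = (f - a) * g + a * (g - b) by ring]
        exact mx_add hl (mx_mul_right hf hgW) (mx_mul_left (h ha) hg)
      one_mem' := ⟨1, R.one_mem, by simpa using zero_mem_mx⟩
      add_mem' := by
        rintro f g ⟨a, ha, hf⟩ ⟨b, hb, hg⟩
        exact ⟨a + b, R.add_mem ha hb, by rw [add_sub_add_comm]; exact mx_add hl hf hg⟩
      zero_mem' := ⟨0, R.zero_mem, by simpa using zero_mem_mx⟩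
      neg_mem' := by
        rintro f ⟨a, ha, hf⟩
        exact ⟨-a, R.neg_mem ha, by rw [← neg_sub']; exact mx_neg hf⟩ }
  let J : Ideal T :=
    { carrier := {f | ∃ r ∈ mx R, (f : F) - r ∈ mx W}
      add_mem' := by
        rintro f g ⟨a, ha, hf⟩ ⟨b, hb, hg⟩
        exact ⟨a + b, mx_add hR ha hb, by
          rw [Subring.coe_add, add_sub_add_comm]; exact mx_add hl hf hg⟩
      zero_mem' := ⟨0, zero_mem_mx, by simpa using zero_mem_mx⟩
      smul_mem' := by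
        rintro ⟨g, b, hb, hg⟩ f ⟨a, ha, hf⟩
        have hgW : g ∈ W := by simpa using W.add_mem hg.1 (h hb)
        refine ⟨b * a, mx_mul_left hb ha, ?_⟩
        change g * f - b * a ∈ mx W
        rw [show g * f - b * a = g * (f - a) + (g - b) * a by ring]
        exact mx_add hl (mx_mul_left hgW hf) (mx_mul_right hg (h ha.1)) }
  obtain ⟨V, h1, h2⟩ := Ideal.image_subset_nonunits_valuationSubring J fun e => by
    obtain ⟨r, hr, h3⟩ := (Ideal.eq_top_iff_one J).1 e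
    refine h3.2 (IsU.mono ?_ h)
    simpa [sub_eq_add_neg] using isU_one.add_mx hR (mx_neg hr)
  have h3 : ∀ r ∈ R, r ∈ T := fun r hr => ⟨r, hr, by simpa using zero_mem_mx⟩
  refine ⟨{ V.toSubring.toSubsemiring with
    algebraMap_mem' := fun c => h1 (h3 _ (R.algebraMap_mem c)) }, V.mem_or_inv_mem,
    ⟨fun r hr => h1 (h3 r hr), fun u hu hV => by_contra fun hn => ?_⟩,
    fun f hf => by_contra fun hn => ?_⟩
  · exact (V.mem_nonunits_iff_or.1 (h2 ⟨⟨u, h3 u hu⟩, ⟨u, ⟨hu, hn⟩, by simpa using zero_mem_mx⟩,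
      rfl⟩)).elim hV.1 fun e => e hV.2.2
  · have h4 := hW.inv_mx hn
    exact (V.inv_mem_nonunits_iff.1 (h2 ⟨⟨f⁻¹, 0, R.zero_mem, by simpa using h4⟩,
      ⟨0, zero_mem_mx, by simpa using h4⟩, rfl⟩)).elim (fun e => hn (e ▸ W.zero_mem)) fun e => e hf

theorem mem_red (h : O ≤ ξ) {m : M} : m ∈ red ξ ρ O ↔ ∃ a ∈ O, evO ξ ρ a = m :=
  ⟨fun ⟨a, ha, e⟩ => ⟨a, ha, (evO_coe ρ a).trans e⟩,
    fun ⟨a, ha, e⟩ => ⟨⟨a, h ha⟩, ha, (evO_of_mem ρ (h ha)).symm.trans e⟩⟩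

theorem ev_mem (h : O ≤ ξ) (ha : a ∈ O) : evO ξ ρ a ∈ red ξ ρ O := (mem_red h).2 ⟨a, ha, rfl⟩

theorem ev_unit (h : O ≤ ξ) (ha : IsU O a) : IsU (red ξ ρ O) (evO ξ ρ a) :=
  ⟨evO_ne ρ (ha.mono h), ev_mem h ha.mem, evO_inv ρ (ha.mono h) ▸ ev_mem h ha.inv_mem⟩

variable (ρ) in
/-- The functions whose residue lies in `B`. -/
def pre (B : Subalgebra k M) : Subalgebra k F := (B.comap ρ).map ξ.val

theorem mem_pre : a ∈ pre ρ B ↔ a ∈ ξ ∧ evO ξ ρ a ∈ B :=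
  ⟨fun ⟨b, hb, e⟩ => e ▸ ⟨b.2, (evO_coe ρ b).symm ▸ hb⟩,
    fun ⟨h1, h2⟩ => ⟨⟨a, h1⟩, (evO_of_mem ρ h1 ▸ h2 : ρ ⟨a, h1⟩ ∈ B), rfl⟩⟩

theorem pre_unit (hρ : LocHom ξ ρ) (ha : a ∈ ξ) : IsU (pre ρ B) a ↔ IsU B (evO ξ ρ a) := by
  refine ⟨fun h => ?_, fun h => ?_⟩
  · have hu := h.mono fun _ hb => (mem_pre.1 hb).1
    exact ⟨evO_ne ρ hu, (mem_pre.1 h.mem).2, evO_inv ρ hu ▸ (mem_pre.1 h.inv_mem).2⟩
  · have hu := isU_of_not_mx ha fun hm => h.ne ((hρ.eq_zero_iff ha).2 hm)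
    exact ⟨hu.ne, mem_pre.2 ⟨ha, h.mem⟩,
      mem_pre.2 ⟨hu.inv_mem, (evO_inv ρ hu).symm ▸ h.inv_mem⟩⟩

theorem pre_loc (hρ : LocHom ξ ρ) (hB : IsLocalRing B) : IsLocalRing (pre ρ B) :=
  isLocalRing_of fun a ha b hb => ⟨add_mem ha.1 hb.1, fun hu => by
    obtain ⟨a1, a2⟩ := mem_pre.1 ha.1
    obtain ⟨b1, b2⟩ := mem_pre.1 hb.1
    rw [pre_unit hρ (ξ.add_mem a1 b1), evO_add ρ a1 b1] at hu
    exact (mx_add hB ⟨a2, fun h => ha.2 ((pre_unit hρ a1).2 h)⟩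
      ⟨b2, fun h => hb.2 ((pre_unit hρ b1).2 h)⟩).2 hu⟩

variable (L : Lc R H ξ ρ S)
include L

theorem ev_const (ha : a ∈ R) : evO ξ ρ a ∈ (⊥ : Subalgebra k M) := by
  obtain ⟨c, h⟩ := L.rat a ha
  have h1 := L.fib.dom.mx h
  have h2 := (L.lh.eq_zero_iff h1.1).2 h1
  rw [evO_sub ρ (L.fib.dom.1 ha) (ξ.algebraMap_mem c), evO_const, sub_eq_zero] at h2
  exact h2 ▸ algebraMap_mem _ c

theorem unit_iff (hO : IsLocalRing O) (hle : O ≤ ξ) (ha : a ∈ O) :
    IsU (red ξ ρ O) (evO ξ ρ a) ↔ IsU O a := by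
  refine ⟨fun hu => ?_, ev_unit hle⟩
  obtain ⟨e, he, h1⟩ := (mem_red hle).1 hu.inv_mem
  have h0 := O.sub_mem (O.mul_mem ha he) O.one_mem
  have h2 : a * e - 1 ∈ mx O := mx_of_le hle h0 ((L.lh.eq_zero_iff (hle h0)).1 (by
    rw [evO_sub ρ (hle (O.mul_mem ha he)) ξ.one_mem, evO_one, evO_mul ρ (hle ha) (hle he), h1,
      mul_inv_cancel₀ hu.ne, sub_self]))
  exact IsU.of_mul ha he (by simpa using isU_one.add_mx hO h2)

theorem ch_pre (hs : ∀ a ∈ H, a ∈ ξ) (hj : IsU ξ j) :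
    ch R H j ≤ pre ρ (ch ⊥ (evO ξ ρ '' H \ {0}) (evO ξ ρ j)) := by
  refine ch_le.2 ⟨fun r hr => mem_pre.2 ⟨L.fib.dom.1 hr, le_ch (ev_const L hr)⟩,
    fun a ha => mem_pre.2 ⟨hj.div_mem (hs a ha), ?_⟩⟩
  rw [evO_div ρ (hs a ha) hj]
  by_cases h0 : evO ξ ρ a = 0
  · rw [h0, zero_div]; exact zero_mem _
  · exact div_mem_ch ⟨⟨a, ha, rfl⟩, h0⟩

omit L in
theorem gnU (h1 : (1 : F) ∈ H) (hs : ∀ a ∈ H, a ∈ ξ) (hle : O ≤ ξ) (hj : Gn H O j) :
    IsU ξ j ∧ Gn (evO ξ ρ '' H \ {0}) (red ξ ρ O) (evO ξ ρ j) := by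
  obtain ⟨a, ha, hu⟩ := hj.2
  have h2 : IsU ξ j := by
    refine ⟨hj.ne, ?_, by simpa using hle (hj.1 1 h1)⟩
    have := (hu.mono hle).div_mem (hs a ha)
    rwa [div_div_cancel₀ (div_ne_zero_iff.1 hu.ne).1] at this
  have h3 := ev_unit (ρ := ρ) hle hu
  rw [evO_div ρ (hs a ha) h2] at h3
  refine ⟨h2, ?_, _, ⟨⟨a, ha, rfl⟩, (div_ne_zero_iff.1 h3.ne).1⟩, h3⟩
  rintro _ ⟨⟨b, hb, rfl⟩, -⟩
  rw [← evO_div ρ (hs b hb) h2]
  exact ev_mem hle (hj.1 b hb)

theorem red_pts (h1 : (1 : F) ∈ H) (hs : ∀ a ∈ H, a ∈ ξ) (hle : O ≤ ξ) (hj : Gn H O j)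
    (hO : O ∈ Pts (ch R H j)) (hl : IsLocalRing (red ξ ρ O)) :
    red ξ ρ O ∈ Pts (ch ⊥ (evO ξ ρ '' H \ {0}) (evO ξ ρ j)) := by
  obtain ⟨h2, h3⟩ := gnU (ρ := ρ) h1 hs hle hj
  refine ⟨hl, ch_le.2 ⟨bot_le, h3.1⟩, fun s hs' => ?_⟩
  obtain ⟨f, hf, rfl⟩ := (mem_red hle).1 hs'
  obtain ⟨a, ha, b, hb, hu, rfl⟩ := hO.2.2 f hf
  exact ⟨_, (mem_pre.1 (ch_pre L hs h2 ha)).2, _, (mem_pre.1 (ch_pre L hs h2 hb)).2,
    ev_unit hle hu, evO_div ρ (hle (hO.2.1 ha)) (hu.mono hle)⟩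

end LnA

open LnA in
theorem ln_stmt : LnStmt := by
  intro k F M I _ _ _ _ _ _ R H ξ ρ S L xb mf h1 hs
  have hU := fun O (hO : O ∈ XX R H) (hd : AG.Dom R O) a (ha : a ∈ O) =>
    unit_iff L (xb.loc O hO) (L.fib.le O hO hd) ha
  have hT : ∀ O ∈ XX R H, AG.Dom R O → red ξ ρ O ∈ S.T := fun O hO hd => L.eq ▸ ⟨O, ⟨hO, hd⟩, rfl⟩
  refine ⟨L, xb, mf, h1, hs, fun O hO => ?_, fun O hO s => mem_red hO, hU, ?_,
    fun O hO hd O' hO' hd' hle => ?_, ?_,
    fun O hO hd j hj => gnU h1 hs (L.fib.le O hO hd) hj, ?_⟩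
  · obtain ⟨W, hW, hd⟩ := AG.exists_val (xb.loc O hO)
    obtain ⟨V, hV, h2, h3⟩ := exists_val_le L.loc hW ((xb.le O hO).trans hd.1)
    obtain ⟨O₁, h4, h5⟩ := xb.val V hV h2.1
    exact ⟨O₁, h4, h2.of_le (xb.le O₁ h4) h5.1, xb.sle O₁ h4 O hO W (h5.1.trans h3) hd⟩
  · exact eq_top_iff.2 fun m _ => (L.surj m).imp fun a ha => ⟨a.2, ha⟩
  · have l1 := L.fib.le O hO hd
    have l2 := L.fib.le O' hO' hd'
    obtain ⟨j, hj, g⟩ := xb.gn O hO
    obtain ⟨j', hj', g'⟩ := xb.gn O' hO'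
    have u := (gnU (ρ := ρ) h1 hs l1 g).1
    have u' := (gnU (ρ := ρ) h1 hs l2 g').1
    have h2 : IsU O' (j / j') := (hU O' hO' hd' _ (g'.1 j hj)).1 ⟨evO_ne ρ (u.div u'),
      ev_mem l2 (g'.1 j hj), by
        rw [← evO_inv ρ (u.div u'), inv_div]; exact hle (ev_mem l1 (g.1 j' hj'))⟩
    have h3 : ch R H j ≤ O' := ch_le.2 ⟨hd'.1, fun a ha => by
      rw [← div_div_div_cancel_right₀ u'.ne a j]; exact h2.div_mem (g'.1 a ha)⟩
    intro f hf
    obtain ⟨a, ha, b, hb, hu, rfl⟩ := ((xb.pts j hj O).2 ⟨hO, g⟩).2.2 f hf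
    exact ((hU O' hO' hd' b (h3 hb)).1 ((ev_unit l1 hu).mono hle)).div_mem (h3 ha)
  · let φ : R →ₐ[k] (⊥ : Subalgebra k M) :=
      (ρ.comp (Subalgebra.inclusion L.fib.dom.1)).codRestrict ⊥ fun r =>
        evO_of_mem ρ (L.fib.dom.1 r.2) ▸ ev_const L r.2
    let e := (Algebra.botEquiv k M : _ →ₐ[k] k).comp φ
    refine ⟨e, fun c => ⟨algebraMap k R c, e.commutes c⟩, fun r => ?_⟩
    have h2 := (Algebra.botEquiv k M).symm.commutes (e r)
    have h3 : (Algebra.botEquiv k M).symm (e r) = φ r := (Algebra.botEquiv k M).symm_apply_apply _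
    exact (evO_of_mem ρ (L.fib.dom.1 r.2)).trans (congrArg Subtype.val (h3.symm.trans h2))
  · rw [mp_eq_XX]
    refine Set.ext fun Q => ⟨fun hQ => ?_, ?_⟩
    · have hl := mf.all.a1.nice.loc Q hQ
      rw [L.eq] at hQ
      obtain ⟨O, ⟨hO, hd⟩, rfl⟩ := hQ
      obtain ⟨j, hj, g⟩ := xb.gn O hO
      have l1 := L.fib.le O hO hd
      exact ⟨_, ⟨⟨j, hj, rfl⟩, (gnU h1 hs l1 g).2.ne⟩,
        red_pts L h1 hs l1 g ((xb.pts j hj O).2 ⟨hO, g⟩) hl⟩
    · rintro ⟨_, ⟨⟨j, hj, rfl⟩, h0⟩, hQ⟩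
      have u : IsU ξ j := isU_of_not_mx (hs j hj) fun hm =>
        h0 ((L.lh.eq_zero_iff (hs j hj)).2 hm)
      obtain ⟨O, hO, hd⟩ := exists_ctr (pre_loc L.lh hQ.1) (R := ch R H j) fun a ha =>
        mem_pre.2 ((mem_pre.1 (ch_pre L hs u ha)).imp_right fun h => hQ.2.1 h)
      obtain ⟨h2, g⟩ := (xb.pts j hj O).1 hO
      have l1 : O ≤ ξ := fun a ha => (mem_pre.1 (hd.1 ha)).1
      have h3 := hT O h2 (L.fib.dom.of_le (xb.le O h2) l1)
      have h4 := red_pts L h1 hs l1 g hO (mf.all.a1.nice.loc _ h3)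
      refine Pts_eq h4 hQ hQ.2.1 h4.2.1 ⟨fun s h5 => ?_, fun s h5 h6 => ?_⟩ (Dom.refl Q) ▸ h3 <;>
        obtain ⟨a, ha, rfl⟩ := (mem_red l1).1 h5
      · exact (mem_pre.1 (hd.1 ha)).2
      · exact ev_unit l1 (hd.2 a ha ((pre_unit L.lh (l1 ha)).2 h6))

end Pool.Agent.MP_e8e0b6_ag.R2

end Part1

section Part2

-- part 2: Lwb

/-!
The group laws for the restriction of line bundles to the closed fibre.
-/

set_option autoImplicit false

namespace Pool.Agent.MP_e8e0b6_ag.R2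

open Pool.Agent.MP_79c67d_ag Pool.Agent.MP_20d318_ag Pool.Agent.MP_20d318_ag.AG
  Pool.Agent.MP_20d318_ag.BV Pool.Agent.MP_20d318_ag.CB

namespace Lwb

variable {k F M I : Type} [Field k] [Field F] [Field M] [Algebra k F] [Algebra k M] [Fintype I]
  {R : Subalgebra k F} {H : Set F} {ξ : Subalgebra k F} {ρ : ξ →ₐ[k] M} {S : Sd k M I}

theorem memT (L : Ln R H ξ ρ S) {O : Subalgebra k F} (hO : O ∈ XX R H) (hd : Dom R O) :
    red ξ ρ O ∈ S.T := L.eq ▸ ⟨O, ⟨hO, hd⟩, rfl⟩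

/-- The class of the restriction of a system. -/
theorem cls (L : Ln R H ξ ρ S) {U : Set F} (hU : Sys (XX R H) U) : ∃ (a₀ : F) (c : I → ℤ) (φ : M),
    φ ≠ 0 ∧ ∀ O ∈ XX R H, Dom R O → ∀ a, Gn U O a → IsU ξ (a / a₀) ∧
      IsU (red ξ ρ O) (φ * S.lb c (red ξ ρ O) / evO ξ ρ (a / a₀)) := by
  obtain ⟨a₀, g₀⟩ := hU.2 ξ L.fib.mem
  have key : ∀ O ∈ XX R H, Dom R O → ∀ a, Gn U O a → IsU ξ (a / a₀) ∧
      Gn ((fun u => evO ξ ρ (u / a₀)) '' U) (red ξ ρ O) (evO ξ ρ (a / a₀)) := by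
    intro O hO hd a g
    have hle : O ≤ ξ := L.fib.le O hO hd
    have u0 : IsU ξ (a / a₀) := (g.mono hle).unit g₀
    have e : ∀ u ∈ U, evO ξ ρ (u / a₀) / evO ξ ρ (a / a₀) = evO ξ ρ (u / a) := fun u hu => by
      rw [← evO_div ρ (g₀.1 u hu) u0, div_div_div_cancel_right₀ g₀.ne]
    obtain ⟨b, hb, ub⟩ := g.2
    refine ⟨u0, ?_, _, ⟨b, hb, rfl⟩, ?_⟩
    · rintro _ ⟨u, hu, rfl⟩
      exact (L.mem O hle _).2 ⟨_, g.1 u hu, (e u hu).symm⟩
    · rw [e b hb]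
      exact (L.isU O hO hd _ ub.2.1).2 ub
  obtain ⟨c, φ, h0, h⟩ := L.mf.all.a2.pic (gn ((fun u => evO ξ ρ (u / a₀)) '' U))
    (isCart_of_gn (hU.1.image _) fun O' hO' => by
      rw [L.eq] at hO'
      obtain ⟨O, ⟨hO, hd⟩, rfl⟩ := hO'
      obtain ⟨a, g⟩ := hU.2 O hO
      exact gn_spec (key O hO hd a g).2.prin)
  refine ⟨a₀, c, φ, h0, fun O hO hd a g => ⟨(key O hO hd a g).1, ?_⟩⟩
  have g' := (key O hO hd a g).2
  have := (h _ (memT L hO hd)).mul ((gn_spec g'.prin).unit g')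
  rwa [div_mul_div_cancel₀ (gn_spec g'.prin).ne] at this

end Lwb

open Lwb in
theorem lwb_stmt : LwbStmt := by
  intro hc k F M I _ _ _ _ _ _ _ _ R H ξ ρ S L
  have ne := fun O hO hd => L.mf.all.a1.gne _ (memT (O := O) L hO hd)
  refine ⟨fun O hO hd => ?_, fun γ γ' d d' h h' O hO hd => ?_, fun γ d h O hO hd => ?_,
    fun γ ⟨U, V, hU, hV, h⟩ => ?_, fun u d h => ?_⟩
  · rw [Pi.one_apply, evO_one, Sd.lb_zero, div_one]
    exact ⟨isU_one, isU_one⟩
  · obtain ⟨u1, u2⟩ := h O hO hd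
    obtain ⟨u3, u4⟩ := h' O hO hd
    rw [Pi.mul_apply, evO_mul ρ u1.2.1 u3.2.1, S.lb_add (ne O hO hd), mul_div_mul_comm]
    exact ⟨u1.mul u3, u2.mul u4⟩
  · obtain ⟨u1, u2⟩ := h O hO hd
    rw [Pi.inv_apply, evO_inv ρ u1, S.lb_neg, inv_div_inv, ← inv_div]
    exact ⟨u1.inv, u2.inv⟩
  · obtain ⟨a₀, c, φ, h0, h1⟩ := cls L hU
    obtain ⟨b₀, c', φ', h0', h2⟩ := cls L hV
    obtain ⟨w, hw⟩ := L.surj (φ / φ')
    have uw : IsU ξ w := L.lh w (by rw [hw]; exact div_ne_zero h0 h0')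
    rw [← evO_coe] at hw
    obtain ⟨a₁, b₁, g1, g2, -⟩ := h ξ L.fib.mem
    have n1 : a₀ ≠ 0 := (div_ne_zero_iff.1 (h1 ξ L.fib.mem L.fib.dom _ g1).1.1).2
    have n2 : b₀ ≠ 0 := (div_ne_zero_iff.1 (h2 ξ L.fib.mem L.fib.dom _ g2).1.1).2
    refine ⟨w * (a₀ / b₀), mul_ne_zero uw.1 (div_ne_zero n1 n2), c' - c, fun O hO hd => ?_⟩
    obtain ⟨a, b, g3, g4, u⟩ := h O hO
    obtain ⟨u1, u2⟩ := h1 O hO hd a g3
    obtain ⟨u3, u4⟩ := h2 O hO hd b g4
    have u5 := u.mono (L.fib.le O hO hd)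
    have e : (w : F) * (a₀ / b₀) * γ O = w * (γ O * a / b) * (b / b₀) / (a / a₀) := by
      have := g3.ne
      have := g4.ne
      field_simp
    dsimp only
    rw [e, evO_div ρ ((uw.mul u5).mul u3).2.1 u1, evO_mul ρ (uw.mul u5).2.1 u3.2.1,
      evO_mul ρ uw.2.1 u5.2.1, hw, S.lb_sub (ne O hO hd)]
    refine ⟨((uw.mul u5).mul u3).div u1, ?_⟩
    convert (((L.isU O hO hd _ u.2.1).2 u).mul u2).div u4 using 1
    have := evO_ne ρ u1
    have := evO_ne ρ u3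
    have := S.lb_ne (ne O hO hd) c
    have := S.lb_ne (ne O hO hd) c'
    field_simp
  · have g := fun O hO hd => L.gnU O hO hd _ (gn_spec (L.xb.sys.2 O hO))
    have uu : IsU ξ u := by
      have u1 := (g ξ L.fib.mem L.fib.dom).1
      simpa [u1.1] using (h ξ L.fib.mem L.fib.dom).1.mul u1
    refine ⟨uu, hc k M I S _ d (evO ξ ρ u) L.mf.all L.eqT fun O' hO' => ?_⟩
    rw [L.eq] at hO'
    obtain ⟨O, ⟨hO, hd⟩, rfl⟩ := hO'
    obtain ⟨u1, g1⟩ := g O hO hd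
    refine g1.of_unit ?_
    have := (h O hO hd).2
    dsimp only at this
    rwa [← div_eq_mul_inv, evO_div ρ uu.2.1 u1, div_right_comm] at this

end Pool.Agent.MP_e8e0b6_ag.R2

end Part2

section Part3

-- part 3: Mka

/-! Towers are marked towers, and marked towers have all the structure of a surface. -/

set_option autoImplicit false

namespace Pool.Agent.MP_e8e0b6_ag.R2

open Pool.Agent.MP_79c67d_ag Pool.Agent.MP_20d318_ag Pool.Agent.MP_20d318_ag.AG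
  Pool.Agent.MP_20d318_ag.BV Pool.Agent.MP_20d318_ag.CB

theorem Mk.surf {k M I : Type} [Field k] [CharZero k] [IsAlgClosed k] [Field M] [Algebra k M]
    [Fintype I] {S : Sd k M I} (h : Mk S) : Surf S := by
  have ha := aff_stmt plane_stmt k M
  cases h with
  | p2 x y L h =>
    have h0 := p2B_stmt plane_stmt mult_stmt k M x y L ha h
    obtain ⟨h1, h2, h3⟩ := p2C_stmt k M x y L ha h
    exact ⟨h0, h1, h2, fun c φ P hp =>
      Or.inl ((a1_stmt plane_stmt curve_stmt k M _ _ h0).hpos c ⟨φ, P, hp⟩), h3⟩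
  | fn n x y F G h =>
    obtain ⟨h0, h1, h3⟩ := fnL_stmt k M n x y F G h (fnD_stmt mult_stmt k M n x y F G h)
    exact ⟨h0, h1, fnR_stmt k M n x y F G ha h,
      fun c φ P hp => Or.inl ((a1_stmt plane_stmt curve_stmt k M _ _ h0).hpos c ⟨φ, P, hp⟩), h3⟩
  | bl S O a b H' e E _ h =>
    obtain ⟨h1, h2, h3⟩ := blE_stmt k M _ S O a b H' e E h
      (blC_stmt mult_stmt k M _ S O a b H' e E h)
    exact ⟨h1, h2, blD_stmt k M _ S O a b H' e E h, blF_stmt plane_stmt k M _ S O a b H' e E h, h3⟩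

theorem mka_stmt : MkaStmt := fun _ _ I _ _ _ _ _ _ S h =>
  ⟨sAll h.surf, hg_stmt I S.B h.surf.sym h.surf.hodge⟩

theorem mk1 : Mk1Stmt := fun k M _ _ _ _ _ T h => by
  induction h with
  | plane x y hg =>
    obtain ⟨L, h⟩ := p2A_stmt plane_stmt k M x y ⟨hg.1, hg.2⟩
    exact ⟨Unit, inferInstance, p2 k x y, h.eq, .p2 x y L h⟩
  | hirz n x y hg =>
    obtain ⟨F, G, h⟩ := fnP_stmt plane_stmt k M n x y (aff_stmt plane_stmt k M)
      (fnA_stmt plane_stmt k M n x y ⟨hg.1, hg.2⟩)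
    exact ⟨Fin 2, inferInstance, fn k n x y, h.eq, .fn n x y F G h⟩
  | blow T O _ hO hr ih =>
    obtain ⟨I, _, S, rfl, hS⟩ := ih
    have a := sAll hS.surf
    obtain ⟨x, hx, y, hy, hc⟩ := a.a1.cen O hO hr
    obtain ⟨H', e, h0⟩ := blA_stmt k M I S O x y ⟨a.s, a.a1, a.jc, hO, hr, hx, hy, hc⟩
    obtain ⟨E, h⟩ := blP_stmt plane_stmt k M I S O x y H' e
      (blB_stmt plane_stmt k M I S O x y H' e h0)
    exact ⟨Option I, inferInstance, S.blow H' e, h0.eq, .bl S O x y H' e E hS h⟩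

end Pool.Agent.MP_e8e0b6_ag.R2

end Part3

section Part4

-- part 4: Mkl

/-!
Row MKL: the lattice data of a marked tower.
-/

set_option autoImplicit false

namespace Pool.Agent.MP_e8e0b6_ag.R2

open Pool.Agent.MP_79c67d_ag Pool.Agent.MP_20d318_ag Pool.Agent.MP_20d318_ag.AG
  Pool.Agent.MP_20d318_ag.BV Pool.Agent.MP_20d318_ag.CB

namespace MklA

variable {k M : Type} [Field k] [Field M] [Algebra k M]

theorem ip1 (x y : M) (c c' : Unit → ℤ) : ip (p2 k x y).B c c' = c () * c' () := by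
  simp [CB.ip, p2]

theorem ip2 (n : ℕ) (x y : M) (c c' : Fin 2 → ℤ) :
    ip (fn k n x y).B c c' = c 0 * c' 1 + c 1 * c' 0 + n * (c 1 * c' 1) := by
  simp [CB.ip, fn, Fin.sum_univ_two]
  ring

theorem lt_p2 {x y : M} {L : Place k M} (h : P2 k x y L) : Lt (p2 k x y) := by
  have hg : (p2 k x y).GG fun _ => 1 := ⟨{x, y, 1}, h.fam.fin (), h.fam.nz (), fun O hO => by
    rw [h.lb, zpow_neg_one, inv_inv]
    exact h.gH O hO⟩
  refine ⟨fun d => ⟨fun _ => d fun _ => 1, fun c => ?_⟩, hg, ?_, hg, ?_, fun h3 => ?_⟩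
  · have e : c = c () • fun _ => 1 := by
      funext u
      simp
    show ip _ _ _ = _
    rw [ip1]
    conv_rhs => rw [e, map_zsmul, smul_eq_mul]
  · show ip _ _ _ ≤ _
    rw [ip1]
    show (-3 : ℤ) * 1 ≤ -2
    norm_num
  · show 0 < ip _ _ _
    rw [ip1]
    show (0 : ℤ) < 1 * 1
    norm_num
  · simp at h3

theorem lt_fn {n : ℕ} {x y : M} {F G : Place k M} (h : Fn1 k n x y F G) : Lt (fn k n x y) := by
  have hx : x ≠ 0 := by simpa using h.gen.x_ne 0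
  refine ⟨fun d => ⟨![d ![0, 1] - n * d ![1, 0], d ![1, 0]], fun c => ?_⟩,
    ⟨{1, x}, Set.toFinite _, ?_, fun O hO => ?_⟩, ?_,
    ⟨(fn k n x y).H, h.fam.fin (), h.fam.nz (), h.gH⟩, ?_, fun h3 => ?_⟩
  · have e : c = c 0 • ![1, 0] + c 1 • ![0, 1] := by
      funext u
      fin_cases u <;> simp
    show ip _ _ _ = _
    rw [ip2]
    conv_rhs => rw [e, map_add, map_zsmul, map_zsmul, smul_eq_mul, smul_eq_mul]
    simp only [Matrix.cons_val_zero, Matrix.cons_val_one]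
    ring
  · rintro a (rfl | rfl)
    · exact one_ne_zero
    · exact hx
  · have e : ((fn k n x y).lb (fn k n x y).f O)⁻¹ = gn (fF n x y 0) O := by
      rw [h.lb]
      simp [fn]
    rw [e]
    exact h.gF O hO 0
  · show ip _ _ _ ≤ _
    rw [ip2]
    simp [fn]
  · show 0 < ip _ _ _
    rw [ip2]
    simp only [fn, Matrix.cons_val_zero, Matrix.cons_val_one]
    positivity
  · simp at h3

theorem lt_bl {I : Type} [Fintype I] {S : Sd k M I} {O₀ : Subalgebra k M} {a b : M} {H' : Set M}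
    {e : Subalgebra k M → M} {E : Place k M} (h : Bl2 S O₀ a b H' e E) (l : Lt S) :
    Lt (S.blow H' e) := by
  refine ⟨fun d => ?_, BlE.gg_pb h l.ggf, ?_, BlE.gg_pb h l.ggA, ?_,
    fun _ => ⟨pb 0 1, ⟨_, _, BlE.prmE h⟩, ?_, ?_⟩⟩
  · obtain ⟨z, hz⟩ := l.uni (AddMonoidHom.mk' (fun c => d (pb c 0)) fun c c' => by
      rw [← map_add, pb_add, add_zero])
    refine ⟨pb z (-d (pb 0 1)), fun c => ?_⟩
    obtain ⟨c₀, m, rfl⟩ := exists_pb c
    have e1 : pb c₀ m = pb c₀ 0 + m • pb (0 : I → ℤ) 1 := by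
      funext o
      cases o <;> simp [pb]
    have e2 : ip S.B c₀ z = d (pb c₀ 0) := hz c₀
    show ip _ _ _ = _
    rw [ip_pb, e2]
    conv_rhs => rw [e1, map_add, map_zsmul, smul_eq_mul]
    ring
  · change ip _ (pb S.K 1) (pb S.f 0) ≤ _
    rw [ip_pb, mul_zero, sub_zero]
    exact l.Kf
  · change _ < ip _ (pb S.A 0) (pb S.A 0)
    rw [ip_pb, mul_zero, sub_zero]
    exact l.AA
  · change ip _ _ _ = _
    rw [ip_pb, ip_zero_left]
    norm_num
  · change ip _ (pb S.K 1) _ = _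
    rw [ip_pb, ip_zero_right]
    norm_num

theorem lt {I : Type} [Fintype I] {S : Sd k M I} (h : Mk S) : Lt S := by
  induction h with
  | p2 x y L h => exact lt_p2 h
  | fn n x y F G h => exact lt_fn h
  | bl S O₀ a b H' e E _ h ih => exact lt_bl h ih

end MklA

theorem mkl_stmt : MklStmt := by
  intro hA k M I _ _ _ _ _ _ S h
  have l := MklA.lt h
  have s := (hA k M I S h).1
  refine ⟨l, fun hK => ?_⟩
  have key : ∀ c ∈ S.Ef, 0 ≤ ip S.B S.f c := fun c hc => by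
    induction hc using AddSubmonoid.closure_induction with
    | mem c hc => exact s.a2.gg _ l.ggf c hc
    | zero => rw [ip_zero_right]
    | add c c' _ _ h1 h2 =>
      rw [ip_add_right]
      exact add_nonneg h1 h2
  have h1 := key _ hK
  have h2 : ip S.B S.K S.f ≤ -2 := l.Kf
  rw [ip_comm s.s.sym] at h1
  omega

end Pool.Agent.MP_e8e0b6_ag.R2

end Part4

section Part5

-- part 5: Nl

/-!
Exact classes and classes of lines.
-/

set_option autoImplicit false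

namespace Pool.Agent.MP_e8e0b6_ag.R2

open Pool.Agent.MP_79c67d_ag Pool.Agent.MP_20d318_ag Pool.Agent.MP_20d318_ag.AG
  Pool.Agent.MP_20d318_ag.BV Pool.Agent.MP_20d318_ag.CB

namespace NlA

variable {k M I : Type} [Field k] [Field M] [Algebra k M] [Fintype I] {S : Sd k M I}

theorem ex0 (h : SAll S) : Ex S 0 := by
  have h1 : S.Sec 0 ≤ Submodule.span k {(1 : M)} := by
    intro φ hφ
    obtain ⟨a, rfl⟩ := h.a2.const φ fun O hO => by
      have := hφ O hO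
      rwa [Sd.lb_zero, mul_one] at this
    exact Submodule.mem_span_singleton.2 ⟨a, (Algebra.algebraMap_eq_smul_one a).symm⟩
  have h2 := (Submodule.finrank_mono h1).trans (finrank_span_singleton (K := k)
    (one_ne_zero : (1 : M) ≠ 0)).le
  have h3 : S.h0 0 ≤ 1 := by unfold Sd.h0; exact_mod_cast h2
  unfold Ex chi2
  rw [ip_zero_right, ip_zero_right]
  omega

theorem chi_sub (h : SAll S) (D c : I → ℤ) : chi2 S.B S.K (D - c) =
    chi2 S.B S.K D - 2 * ip S.B D c + (ip S.B c c + ip S.B S.K c) := by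
  unfold chi2
  rw [ip_sub_left, ip_sub_right, ip_sub_right, ip_sub_right, ip_comm h.s.sym c D]
  ring

theorem up (h : SAll S) {c : I → ℤ} (hc : c ∈ S.PP) (h2 : ip S.B c c + ip S.B S.K c = -2)
    {D : I → ℤ} (hD : -1 ≤ ip S.B D c) (hE : Ex S (D - c)) : Ex S D := by
  obtain ⟨φ, P, hP⟩ := hc
  have h3 := h.a3.res c φ P hP D
  rw [max_eq_right (by omega)] at h3
  unfold Ex at hE ⊢
  rw [chi_sub h, h2] at hE
  omega

theorem hdeg (h : SAll S) {c : I → ℤ} (hc : c ∈ S.Ef) : c = 0 ∨ 0 < ip S.B S.h c := by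
  induction hc using AddSubmonoid.closure_induction with
  | mem x hx => exact Or.inr (h.a1.hpos x hx)
  | zero => exact Or.inl rfl
  | add x y _ _ hx hy =>
    rcases hx with rfl | hx
    · rwa [zero_add]
    · rcases hy with rfl | hy
      · rw [add_zero]; exact Or.inr hx
      · rw [ip_add_right]; exact Or.inr (add_pos hx hy)

theorem hnn (h : SAll S) {c : I → ℤ} (hc : c ∈ S.Ef) : 0 ≤ ip S.B S.h c := by
  rcases hdeg h hc with rfl | h1
  · rw [ip_zero_right]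
  · exact h1.le

theorem hz (h : SAll S) {c : I → ℤ} (hc : c ∈ S.Ef) (h0 : ip S.B S.h c ≤ 0) : c = 0 :=
  (hdeg h hc).resolve_right (not_lt.2 h0)

theorem sub_mem (h : SAll S) {d c : I → ℤ} (hd : d ∈ S.PP) (hc : c ∈ S.Ef) :
    0 ≤ ip S.B d c ∨ c - d ∈ S.Ef := by
  induction hc using AddSubmonoid.closure_induction with
  | mem x hx =>
    by_cases e : d = x
    · right; rw [e, sub_self]; exact S.Ef.zero_mem
    · exact Or.inl (h.a2.pos d hd x hx e)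
  | zero => left; rw [ip_zero_right]
  | add x y hx' hy' hx hy =>
    rcases hx with hx | hx
    · rcases hy with hy | hy
      · left; rw [ip_add_right]; exact add_nonneg hx hy
      · right; rw [add_sub_assoc]; exact S.Ef.add_mem hx' hy
    · right; rw [add_sub_right_comm]; exact S.Ef.add_mem hx hy'

theorem irr (h : SAll S) {d : I → ℤ} (hd : ip S.B S.h d = 1 ∨ (d ∈ S.PP ∧ ip S.B d d < 0))
    {c c' : I → ℤ} (hc : c ∈ S.Ef) (hc' : c' ∈ S.Ef) (e : d = c + c') : c = 0 ∨ c' = 0 := by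
  have n1 := hnn h hc
  have n2 := hnn h hc'
  have n3 : ip S.B S.h d = ip S.B S.h c + ip S.B S.h c' := by rw [e, ip_add_right]
  rcases hd with hd | ⟨hd, hn⟩
  · by_cases h0 : ip S.B S.h c ≤ 0
    · exact Or.inl (hz h hc h0)
    · exact Or.inr (hz h hc' (by omega))
  · have n4 : ip S.B d d = ip S.B d c + ip S.B d c' := by rw [← ip_add_right, ← e]
    rcases sub_mem h hd hc with h1 | h1
    · rcases sub_mem h hd hc' with h2 | h2
      · omega
      · have := hnn h h2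
        rw [ip_sub_right] at this
        exact Or.inl (hz h hc (by omega))
    · have := hnn h h1
      rw [ip_sub_right] at this
      exact Or.inr (hz h hc' (by omega))

theorem prm (h : SAll S) {d : I → ℤ} (hd0 : d ≠ 0)
    (hi : ∀ c ∈ S.Ef, ∀ c' ∈ S.Ef, d = c + c' → c = 0 ∨ c' = 0) {φ : M} (hφ : φ ∈ S.Sec d)
    (h0 : φ ≠ 0) : ∃ P, S.Prm d φ P := by
  classical
  have hfin := h.a1.nice.toFine.fin_cart (h.a1.pcart d φ h0)
  have hs : ∀ P, P ∈ hfin.toFinset ↔ plO P ∈ S.T ∧ P.ord (φ * S.lb d (plO P)) ≠ 0 :=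
    fun P => hfin.mem_toFinset
  generalize hfin.toFinset = s at hs
  have hdv := h.a2.dv d φ s h0 (fun P hP => ((hs P).1 hP).1) fun P hP hn => by
    by_contra h1
    exact hn ((hs P).2 ⟨hP, h1⟩)
  have hpp : ∀ P ∈ s, S.cl P ∈ S.PP := fun P hP =>
    (h.a2.cl P ((hs P).1 hP).1).elim fun ψ hψ => ⟨ψ, P, hψ⟩
  have hef : ∀ P ∈ s, ∀ n : ℤ, 0 ≤ n → n • S.cl P ∈ S.Ef := by
    intro P hP n hn
    obtain ⟨m, rfl⟩ := Int.eq_ofNat_of_zero_le hn
    rw [natCast_zsmul]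
    exact S.Ef.nsmul_mem (AddSubmonoid.subset_closure (hpp P hP)) m
  have hord : ∀ P ∈ s, 1 ≤ P.ord (φ * S.lb d (plO P)) := by
    intro P hP
    have h1 := mem_plO_ord.1 (hφ _ ((hs P).1 hP).1)
    have h2 := ((hs P).1 hP).2
    omega
  obtain ⟨P, hP⟩ : s.Nonempty := by
    rw [Finset.nonempty_iff_ne_empty]
    rintro rfl
    exact hd0 (by simpa using hdv)
  rw [← Finset.add_sum_erase s _ hP] at hdv
  have hr : ∑ Q ∈ s.erase P, Q.ord (φ * S.lb d (plO Q)) • S.cl Q ∈ S.Ef :=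
    S.Ef.sum_mem fun Q hQ => hef Q (Finset.mem_of_mem_erase hQ) _
      (zero_le_one.trans (hord Q (Finset.mem_of_mem_erase hQ)))
  have h1 := hef P hP (P.ord (φ * S.lb d (plO P)) - 1) (by have := hord P hP; omega)
  have hp := h.a1.hpos _ (hpp P hP)
  have h2 := (hi (S.cl P) (AddSubmonoid.subset_closure (hpp P hP)) _ (S.Ef.add_mem h1 hr) (by
    rw [← add_assoc, sub_smul, one_smul, add_sub_cancel]; exact hdv)).resolve_left fun e => by
      rw [e, ip_zero_right] at hp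
      exact lt_irrefl _ hp
  have h3 := congrArg (ip S.B S.h) h2
  rw [ip_add_right, ip_zero_right, ip_smul_right] at h3
  have h4 := hnn h hr
  have h5 : P.ord (φ * S.lb d (plO P)) = 1 := by
    have := hord P hP
    by_contra hne
    have : 0 < (P.ord (φ * S.lb d (plO P)) - 1) * ip S.B S.h (S.cl P) := mul_pos (by omega) hp
    omega
  rw [h5, sub_self, zero_mul, zero_add, ip_sum_right] at h3
  refine ⟨P, h0, ((hs P).1 hP).1, fun Q hQ => ?_⟩
  split_ifs with e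
  · rw [e, h5]
  · by_contra hne
    have hQs : Q ∈ s.erase P := Finset.mem_erase.2 ⟨e, (hs Q).2 ⟨hQ, hne⟩⟩
    refine (Finset.sum_pos (fun R hR => ?_) ⟨Q, hQs⟩).ne' h3
    rw [ip_smul_right]
    exact mul_pos (zero_lt_one.trans_le (hord R (Finset.mem_of_mem_erase hR)))
      (h.a1.hpos _ (hpp R (Finset.mem_of_mem_erase hR)))

end NlA

theorem nl_stmt : NlStmt := by
  intro k M I _ _ _ _ _ _ S h
  refine ⟨NlA.ex0 h, fun c hc h2 D hD hE => NlA.up h hc h2 hD hE, ?_⟩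
  intro d hd h2 h1 hc D hD hE h3 hK
  have hd0 : d ≠ 0 := by
    rintro rfl
    simp only [ip_zero_right] at h2
    omega
  have hp : ∀ φ ∈ S.Sec d, φ ≠ 0 → ∃ P, S.Prm d φ P := fun φ hφ h0 =>
    NlA.prm h hd0 (fun c hc1 c' hc2 e => NlA.irr h hc hc1 hc2 e) hφ h0
  have hpp : d ∈ S.PP := by
    obtain ⟨φ, hφ, h0⟩ := h.a2.eff2 d hd
    exact ⟨φ, hp φ hφ h0⟩
  have h3' : ip S.B (D + d) d = 1 := h3
  have h2' : ip S.B d d + ip S.B S.K d = -2 := h2
  refine ⟨NlA.up h hpp h2 h1 (by rw [sub_self]; exact NlA.ex0 h), hd, hp, D + d, h3,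
    NlA.up h hpp h2 (by omega) (by rwa [add_sub_cancel_right]), ?_⟩
  have h4 := h.a4.rr2 (D + d) fun hm => hK (by
    have := S.Ef.add_mem hm (S.Ef.add_mem hD hd)
    rwa [sub_add_cancel] at this)
  have h5 := NlA.chi_sub h (D + d) d
  rw [add_sub_cancel_right] at h5 ⊢
  unfold Ex at hE
  omega

end Pool.Agent.MP_e8e0b6_ag.R2

end Part5

section Part6

-- part 6: Rk

/-!
Marked towers of Picard number one and two.
-/

set_option autoImplicit false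

namespace Pool.Agent.MP_e8e0b6_ag.R2

open Pool.Agent.MP_79c67d_ag Pool.Agent.MP_20d318_ag Pool.Agent.MP_20d318_ag.AG
  Pool.Agent.MP_20d318_ag.BV Pool.Agent.MP_20d318_ag.CB

section

variable {k M : Type} [Field k] [Field M] [Algebra k M]

theorem rk_card {I : Type} [Fintype I] {S : Sd k M I} (h : Mk S) : 0 < Fintype.card I := by
  cases h <;> simp

theorem rk_ef {I : Type} [Fintype I] {S : Sd k M I} {c : I → ℤ} (h : c ∈ S.PP) : c ∈ S.Ef :=
  AddSubmonoid.subset_closure h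

theorem rk_pos {I : Type} [Fintype I] {S : Sd k M I} {h c : I → ℤ} (hp : Pos S h)
    (hc : c ∈ S.Ef) : c = 0 ∨ 0 < S.i h c := by
  induction hc using AddSubmonoid.closure_induction with
  | mem c hc => exact Or.inr (hp c hc)
  | zero => exact Or.inl rfl
  | add a b _ _ ha hb =>
    rcases ha with rfl | ha
    · simpa using hb
    rcases hb with rfl | hb
    · simpa using Or.inr ha
    refine Or.inr ?_
    have := CB.ip_add_right (B := S.B) h a b
    simp only [Sd.i] at *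
    omega

/-- A class of hyperplane degree one next to a prime class of arithmetic genus zero. -/
theorem rk_nc {I : Type} [Fintype I] {S : Sd k M I} (nl : Nl S) (hK : S.K ∉ S.Ef) {d D : I → ℤ}
    (hd : d ∈ S.Ef) (z : Zf S d) (h1 : S.i S.h d = 1) (hD : D ∈ S.PP)
    (g : S.i D D + S.i S.K D = -2) (hDD : -1 ≤ S.i D D) (e : S.i D d = 1) : Nc S d := by
  refine nl.nc d hd (by rw [z.1, z.2]; rfl) (by rw [z.1]; decide) (Or.inl h1) D (rk_ef hD)
    (nl.up D hD g D hDD (by rw [sub_self]; exact nl.ex0)) ?_ hK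
  have := CB.ip_add_left (B := S.B) D d d
  have z1 := z.1
  simp only [Sd.i] at *
  omega

theorem rk_p2 (x y : M) (c c' : Unit → ℤ) : CB.ip (p2 k x y).B c c' = c () * c' () := by
  simp [CB.ip, p2]

theorem rk_fn (n : ℕ) (x y : M) (c c' : Fin 2 → ℤ) :
    CB.ip (fn k n x y).B c c' = c 0 * c' 1 + c 1 * c' 0 + n * (c 1 * c' 1) := by
  simp [CB.ip, fn, Fin.sum_univ_two]
  ring

theorem rk_sec {n : ℕ} {x y : M} (h : Fn0 k n x y) : y ∈ (fn k n x y).Sec ![-(n : ℤ), 1] := by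
  intro O hO
  have h0 := h.gF O hO 0
  have h1 := h.gF O hO 1
  rw [h.lb]
  set g0 := gn (fF n x y 0) O
  set g1 := gn (fF n x y 1) O
  have e : y * (g0 ^ (-(![-(n : ℤ), 1] : Fin 2 → ℤ) 0) * g1 ^ (-(![-(n : ℤ), 1] : Fin 2 → ℤ) 1)) =
      y / g1 * g0 ^ n := by
    simp [div_eq_mul_inv]
    ring
  rw [e]
  obtain ⟨a, ha, hu⟩ := h0.2
  have ha' : a = 1 ∨ a = x := by simpa [fF] using ha
  rcases ha' with rfl | rfl
  · have : g0 ∈ O := by simpa using hu.2.2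
    exact O.mul_mem (h1.1 y (by simp [fF])) (O.pow_mem this n)
  · have h2 : g0 / a ∈ O := by simpa using hu.2.2
    have ha0 : a ≠ 0 := by simpa using h.gen.x_ne 0
    have e2 : y / g1 * g0 ^ n = a ^ n * y / g1 * (g0 / a) ^ n := by
      rw [div_pow]
      field_simp
    rw [e2]
    exact O.mul_mem (h1.1 _ (by simp [fF])) (O.pow_mem h2 n)

theorem rk_two_fn {n : ℕ} {x y : M} {F G : Place k M} (h : Fn1 k n x y F G)
    (mf : Mf (fn k n x y)) (nl : Nl (fn k n x y)) :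
    ∃ f g, Zf (fn k n x y) f ∧ Nc (fn k n x y) f ∧ (∀ c, Zf (fn k n x y) c → c = f ∨ c = g) ∧
      (Nc (fn k n x y) g ∨ ∀ h', Pos (fn k n x y) h' →
        (fn k n x y).i h' f < (fn k n x y).i h' g) := by
  have hK : (fn k n x y).K = ![(n : ℤ) - 2, -2] := rfl
  have hh : (fn k n x y).h = ![1, 1] := rfl
  have pF : ![1, 0] ∈ (fn k n x y).PP := ⟨1, F, h.pF⟩
  have pG : ![0, 1] ∈ (fn k n x y).PP := ⟨1, G, h.pG⟩
  have zf : Zf (fn k n x y) ![1, 0] := by constructor <;> simp [Sd.i, rk_fn, hK]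
  have nf : Nc (fn k n x y) ![1, 0] :=
    rk_nc nl mf.kne (rk_ef pF) zf (by simp [Sd.i, rk_fn, hh]) pG
      (by simp [Sd.i, rk_fn, hK]; ring) (by simp [Sd.i, rk_fn]) (by simp [Sd.i, rk_fn])
  have key : ∀ c, Zf (fn k n x y) c → c = ![1, 0] ∨ (c 1 = 1 ∧ 2 * c 0 = -n) := by
    intro c hc
    have h1 := hc.1
    have h2 := hc.2
    simp [Sd.i, rk_fn, hK] at h1 h2
    have h3 : c 1 * (2 * c 0 + n * c 1) = 0 := by linarith
    rcases mul_eq_zero.1 h3 with h4 | h4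
    · left
      rw [h4] at h2
      funext i
      fin_cases i
      · simp
        linarith
      · simpa using h4
    · have h5 : c 1 = 1 := by linarith
      rw [h5] at h4
      exact Or.inr ⟨h5, by linarith⟩
  rcases Nat.even_or_odd' n with ⟨r, hr | hr⟩
  · refine ⟨![1, 0], ![-(r : ℤ), 1], zf, nf, fun c hc => (key c hc).imp id fun h4 => ?_, ?_⟩
    · funext i
      fin_cases i
      · have := h4.2
        simp
        omega
      · simpa using h4.1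
    rcases Nat.eq_zero_or_pos r with rfl | hp
    · left
      have hn : (n : ℤ) = 0 := by omega
      have e : (![-((0 : ℕ) : ℤ), 1] : Fin 2 → ℤ) = ![0, 1] := by simp
      rw [e]
      exact rk_nc nl mf.kne (rk_ef pG) (by constructor <;> simp [Sd.i, rk_fn, hK, hn])
        (by simp [Sd.i, rk_fn, hh, hn]) pF (by simp [Sd.i, rk_fn, hK]) (by simp [Sd.i, rk_fn])
        (by simp [Sd.i, rk_fn])
    · right
      intro h' hp'
      have hs := mf.all.a2.eff1 _ y (rk_sec h.toFn0) (by simpa using h.gen.y_ne 0)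
      have h6 := (rk_pos hp' hs).resolve_left fun e => by simpa using congrFun e 1
      have h7 := hp' _ pF
      have hn : (n : ℤ) = 2 * r := by omega
      have hr' : (1 : ℤ) ≤ r := by omega
      simp [Sd.i, rk_fn] at h6 h7 ⊢
      rw [hn] at *
      nlinarith
  · refine ⟨![1, 0], ![1, 0], zf, nf, fun c hc => Or.inl ((key c hc).resolve_right fun h4 => ?_),
      Or.inl nf⟩
    have := h4.2
    omega

theorem rk_two_bl {x y : M} {O₀ : Subalgebra k M} {a b : M} {H' : Set M}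
    {e : Subalgebra k M → M} {E : Place k M} (h : Bl2 (p2 k x y) O₀ a b H' e E)
    (mf : Mf ((p2 k x y).blow H' e)) (nl : Nl ((p2 k x y).blow H' e)) :
    ∃ f, Zf ((p2 k x y).blow H' e) f ∧ Nc ((p2 k x y).blow H' e) f ∧
      ∀ c, Zf ((p2 k x y).blow H' e) c → c = f := by
  have hK : ((p2 k x y).blow H' e).K = pb (fun _ => -3) 1 := rfl
  have hh : ((p2 k x y).blow H' e).h = pb ((2 : ℤ) • fun _ => 1) (-1) := rfl
  have hf : ((p2 k x y).blow H' e).f = pb (fun _ => 1) 0 := rfl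
  have pE : pb 0 1 ∈ ((p2 k x y).blow H' e).PP :=
    ⟨1, E, (h.prm 0 1 1 E).2 (Or.inl ⟨rfl, rfl, rfl, fun O _ =>
      ⟨one_ne_zero, O.one_mem, by simp⟩⟩)⟩
  have zf : Zf ((p2 k x y).blow H' e) (pb (fun _ => 1) (-1)) := by
    constructor <;> simp [Sd.i, ip_pb, rk_p2, hK]
  have ef : pb (fun _ => 1) (-1) ∈ ((p2 k x y).blow H' e).Ef := by
    have h1 := mf.all.s.rr (pb (fun _ => 1) (-1)) (by simp [ip_pb, rk_p2, hf])
    have h2 : chi2 ((p2 k x y).blow H' e).B ((p2 k x y).blow H' e).K (pb (fun _ => 1) (-1)) = 4 := by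
      simp [chi2, ip_pb, rk_p2, hK]
    rw [h2, Sd.h0] at h1
    have h3 : ((p2 k x y).blow H' e).Sec (pb (fun _ => 1) (-1)) ≠ ⊥ := fun h0 => by
      rw [h0, finrank_bot] at h1
      omega
    obtain ⟨φ, hφ, h4⟩ := (Submodule.ne_bot_iff _).1 h3
    exact mf.all.a2.eff1 _ φ hφ h4
  refine ⟨_, zf, rk_nc nl mf.kne ef zf (by simp [Sd.i, ip_pb, rk_p2, hh]) pE
    (by simp [Sd.i, ip_pb, rk_p2, hK]) (by simp [Sd.i, ip_pb, rk_p2])
    (by simp [Sd.i, ip_pb, rk_p2]), fun c hc => ?_⟩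
  obtain ⟨c₀, m, rfl⟩ := exists_pb c
  have h1 := hc.1
  have h2 := hc.2
  simp only [Sd.i, ip_pb, rk_p2, hK] at h1 h2
  have h3 : m = 2 - 3 * c₀ () := by linarith
  have h4 : (2 * c₀ () - 1) * (c₀ () - 1) = 0 := by
    rw [h3] at h1
    linarith
  have h5 : c₀ () = 1 := by
    rcases mul_eq_zero.1 h4 with h5 | h5 <;> omega
  have h6 : c₀ = fun _ => 1 := funext fun _ => h5
  rw [h3, h6]
  rfl

end

theorem rk_stmt : RkStmt := by
  intro hnl k M I _ _ _ _ _ _ S hS mf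
  have nl := hnl k M I S mf.all
  refine ⟨rk_card hS, ?_⟩
  cases hS with
  | p2 x y L h =>
    refine ⟨fun _ => ⟨fun _ => 1, rfl, ?_⟩, fun hc => absurd hc (by simp)⟩
    have hK : (p2 k x y).K = fun _ => -3 := rfl
    have hh : (p2 k x y).h = fun _ => 1 := rfl
    exact nl.nc _ mf.all.a2.heff (by simp [Sd.i, rk_p2, hK, hh]) (by simp [Sd.i, rk_p2, hh])
      (Or.inl (by simp [Sd.i, rk_p2, hh])) 0 (zero_mem _) nl.ex0 (by simp [Sd.i, rk_p2, hh]) mf.kne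
  | fn n x y F G h => exact ⟨fun hc => absurd hc (by simp), fun _ => rk_two_fn h mf nl⟩
  | bl S O₀ a b H' e E hS h =>
    have h0 := rk_card hS
    refine ⟨fun hc => ?_, fun hc => ?_⟩
    · rw [Fintype.card_option] at hc
      omega
    rw [Fintype.card_option] at hc
    cases hS with
    | p2 x y L h' =>
      obtain ⟨f, h1, h2, h3⟩ := rk_two_bl h mf nl
      exact ⟨f, f, h1, h2, fun c hc => Or.inl (h3 c hc), Or.inl h2⟩
    | fn n x y F G h' => exact absurd hc (by simp)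
    | bl S' O₁ a' b' H'' e' E' hS' h' =>
      have h1 := rk_card hS'
      rw [Fintype.card_option] at hc
      omega

end Pool.Agent.MP_e8e0b6_ag.R2

end Part6
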