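import Pool.Agent.MP_e8e0b6_ag.R2.SpecA

section Part1

-- part 1: S1A

/-!
Sections on the geometric generic fibre are spanned by sections on the family.
-/

set_option autoImplicit false

namespace Pool.Agent.MP_e8e0b6_ag.R2

open Pool.Agent.MP_79c67d_ag Pool.Agent.MP_20d318_ag Pool.Agent.MP_20d318_ag.AG
  Pool.Agent.MP_20d318_ag.BV Pool.Agent.MP_20d318_ag.CB

namespace S1A

variable {k F Ω E : Type} [Field k] [Field F] [Field Ω] [Field E] [Algebra k F] [Algebra k E]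
  [Algebra Ω E]

/-- The functions that multiply `v` into a module over a larger ring. -/
def nn {C A : Subalgebra k F} (h : C ≤ A) (M : Submodule A F) (v : F) : Submodule C F where
  carrier := {z | z * v ∈ M}
  add_mem' := fun {a b} ha hb => by
    change (a + b) * v ∈ M
    rw [add_mul]
    exact M.add_mem ha hb
  zero_mem' := by
    change 0 * v ∈ M
    rw [zero_mul]
    exact M.zero_mem
  smul_mem' := fun c a ha => by
    change (c : F) * a * v ∈ M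
    rw [mul_assoc]
    exact M.smul_mem ⟨c, h c.2⟩ ha

/-- The extension of a module over a chart is a module over the chart of the fibre. -/
theorem mul_mem {C : Subalgebra k F} {H : Set F} {j : F} (μ : F →ₐ[k] E)
    (M : Submodule (ch C H j) F) {r w : E} (hr : r ∈ ch (⊥ : Subalgebra Ω E) (μ '' H) (μ j))
    (hw : w ∈ Submodule.span Ω (μ '' M)) : r * w ∈ Submodule.span Ω (μ '' M) := by
  let T : Subalgebra Ω E :=
    { carrier := {r | ∀ w ∈ Submodule.span Ω (μ '' M), r * w ∈ Submodule.span Ω (μ '' M)}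
      mul_mem' := fun {a b} ha hb w hw => by
        rw [mul_assoc]
        exact ha _ (hb w hw)
      add_mem' := fun {a b} ha hb w hw => by
        rw [add_mul]
        exact add_mem (ha w hw) (hb w hw)
      algebraMap_mem' := fun c w hw => by
        rw [← Algebra.smul_def]
        exact Submodule.smul_mem _ c hw }
  refine (ch_le (O := T)).2 ⟨bot_le, ?_⟩ hr w hw
  rintro _ ⟨a, ha, rfl⟩ w hw
  induction hw using Submodule.span_induction with
  | mem _ h =>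
    obtain ⟨m, hm, rfl⟩ := h
    rw [← map_div₀, ← map_mul]
    exact Submodule.subset_span ⟨_, M.smul_mem ⟨_, div_mem_ch ha⟩ hm, rfl⟩
  | zero => rw [mul_zero]; exact zero_mem _
  | add x y _ _ hx hy => rw [mul_add]; exact add_mem hx hy
  | smul c x _ hx => rw [mul_smul_comm]; exact Submodule.smul_mem _ c hx

theorem div_mem {C A : Subalgebra k F} (h : C ≤ A) (μ : F →ₐ[k] E) (M : Submodule A F) {v : F}
    (hv : v ≠ 0) {w : E} (hw : w ∈ Submodule.span Ω (μ '' M)) :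
    w / μ v ∈ Submodule.span Ω (μ '' nn h M v) := by
  induction hw using Submodule.span_induction with
  | mem _ h =>
    obtain ⟨m, hm, rfl⟩ := h
    rw [← map_div₀]
    refine Submodule.subset_span ⟨_, ?_, rfl⟩
    change m / v * v ∈ M
    rwa [div_mul_cancel₀ _ hv]
  | zero => rw [zero_div]; exact zero_mem _
  | add x y _ _ hx hy => rw [add_div]; exact add_mem hx hy
  | smul c x _ hx => rw [smul_div_assoc]; exact Submodule.smul_mem _ c hx

end S1A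

theorem s1A_stmt : S1AStmt := by
  intro hX hD hB k F Ω E J _ _ _ _ _ _ _ _ C H μ S' γ hF hG hγ y hy
  obtain ⟨U, V, -, hV, hγ⟩ := hγ
  let N : F × F → Submodule C F := fun i =>
    S1A.nn (le_ch (H := H) (j := i.1)) (Submodule.span _ U) i.2
  have h1 : ∀ i ∈ H ×ˢ (V \ {0}), y ∈ Submodule.span Ω (μ '' N i) := by
    rintro ⟨j, v⟩ ⟨hj, hv, hv0⟩
    have h2 : y * μ v ∈ Submodule.span (ch (⊥ : Subalgebra Ω E) (μ '' H) (μ j)) (μ '' U) := by
      refine glob _ fun O' hO' => ?_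
      have hT : O' ∈ S'.T := by
        rw [hG.eq, mp_eq_XX]
        exact ⟨_, ⟨j, hj, rfl⟩, hO'⟩
      obtain ⟨O, hO, he⟩ := hB k F Ω E J C H μ S' (hX k F C H hF) hG O' hT
      obtain ⟨a, b, g1, g2, hu⟩ := hγ O hO
      obtain ⟨u, hu1, hu2⟩ := g1.2
      have h3 := O'.mul_mem (hy O' hT O hO fun a => (he a).1)
        ((he _).1 (hu2.div_mem (hu.div_mem (g2.1 v hv))))
      have h4 : γ O * (v / b / (γ O * a / b) / (u / a)) * u = v := by
        have := g1.ne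
        have := g2.ne
        have := (div_ne_zero_iff.1 hu2.1).1
        have := left_ne_zero_of_mul (div_ne_zero_iff.1 hu.1).1
        field_simp
      rw [← h4, map_mul, map_mul, ← mul_assoc, ← mul_assoc]
      exact Submodule.smul_mem _ (⟨_, h3⟩ : O')
        (Submodule.subset_span (Submodule.subset_span ⟨u, hu1, rfl⟩))
    have h5 : ∀ w ∈ Submodule.span (ch (⊥ : Subalgebra Ω E) (μ '' H) (μ j)) (μ '' U),
        w ∈ Submodule.span Ω (μ '' Submodule.span (ch C H j) U) := fun w hw => by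
      induction hw using Submodule.span_induction with
      | mem _ h =>
        obtain ⟨u, hu, rfl⟩ := h
        exact Submodule.subset_span ⟨u, Submodule.subset_span hu, rfl⟩
      | zero => exact zero_mem _
      | add x y _ _ hx hy => exact add_mem hx hy
      | smul c x _ hx => exact S1A.mul_mem μ _ c.2 hx
    have h6 := S1A.div_mem (le_ch (H := H) (j := j)) μ _ hv0 (h5 _ h2)
    rwa [mul_div_cancel_right₀ _ ((map_ne_zero μ).2 hv0)] at h6
  have h7 : ∀ s : Set (F × F), s.Finite → (∀ i ∈ s, y ∈ Submodule.span Ω (μ '' N i)) →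
      ∀ N₀ : Submodule C F, y ∈ Submodule.span Ω (μ '' N₀) →
        ∃ N' : Submodule C F, y ∈ Submodule.span Ω (μ '' N') ∧ ∀ i ∈ s, N' ≤ N i := by
    intro s hs
    induction s, hs using Set.Finite.induction_on with
    | empty => exact fun _ N₀ h => ⟨N₀, h, fun _ h => h.elim⟩
    | @insert i s _ _ ih =>
      intro h N₀ h0
      obtain ⟨N', h8, h9⟩ := ih (fun i hi => h i (Or.inr hi)) N₀ h0
      refine ⟨N' ⊓ N i, hD k F Ω E C μ hG.base hG.ld N' (N i) ⟨h8, h i (Or.inl rfl)⟩, ?_⟩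
      rintro _ (rfl | hi)
      · exact inf_le_right
      · exact inf_le_left.trans (h9 _ hi)
  obtain ⟨j₀, hj₀⟩ := hF.ne
  obtain ⟨-, b₀, -, g₀, -⟩ := hγ ⊤ ⟨j₀, hj₀, top_mem_Pts (hF.frac j₀ hj₀)⟩
  obtain ⟨v₀, hv₀, hu₀⟩ := g₀.2
  obtain ⟨N', h8, h9⟩ := h7 _ (hF.fin.prod (hV.1.subset Set.sdiff_subset)) h1 _
    (h1 (j₀, v₀) ⟨hj₀, hv₀, (div_ne_zero_iff.1 hu₀.1).1⟩)
  refine Submodule.span_mono (Set.image_mono fun z hz O hO => ?_) h8
  obtain ⟨a, b, g1, g2, hu⟩ := hγ O hO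
  obtain ⟨j, hj, hO'⟩ := hO
  obtain ⟨v, hv, hv'⟩ := g2.2
  have hv0 := (div_ne_zero_iff.1 hv'.1).1
  have h10 : z * v / a ∈ O := span_div_mem g1.1 hO'.2.1 (h9 (j, v) ⟨hj, hv, hv0⟩ hz)
  convert hv'.div_mem (O.mul_mem h10 hu.mem) using 1
  have := g1.ne
  have := g2.ne
  field_simp

end Pool.Agent.MP_e8e0b6_ag.R2

end Part1

section Part2

-- part 2: Spn

/-!
The specialization of classes for normalized families.
-/

set_option autoImplicit false

namespace Pool.Agent.MP_e8e0b6_ag.R2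

open Pool.Agent.MP_79c67d_ag Pool.Agent.MP_20d318_ag Pool.Agent.MP_20d318_ag.AG
  Pool.Agent.MP_20d318_ag.BV Pool.Agent.MP_20d318_ag.CB

namespace SpnA

theorem ef_iff {k M I : Type} [Field k] [Field M] [Algebra k M] [Fintype I] {S : Sd k M I}
    (h : SAll S) (c : I → ℤ) : c ∈ S.Ef ↔ 0 < S.h0 c := by
  have := h.s.fd c
  rw [Sd.h0, Int.natCast_pos, Module.finrank_pos_iff, Submodule.nontrivial_iff_ne_bot,
    Submodule.ne_bot_iff]
  exact ⟨h.a2.eff2 c, fun ⟨φ, h1, h2⟩ => h.a2.eff1 c φ h1 h2⟩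

variable {k F M Ω E I J : Type} [Field k] [Field F] [Field M] [Field Ω] [Field E] [Algebra k F]
  [Algebra k M] [Algebra k E] [Algebra Ω E] [Fintype I] [Fintype J] {R : Subalgebra k F}
  {H : Set F} {ξ : Subalgebra k F} {ρ : ξ →ₐ[k] M} {S : Sd k M I} {μ : F →ₐ[k] E} {S' : Sd Ω E J}

/-- The pairs of classes of line bundles on the family. -/
def Gam (t : Tw R H ξ ρ S μ S') : AddSubgroup ((J → ℤ) × (I → ℤ)) where
  carrier := {p | ∃ γ, Pr R H ξ ρ S μ S' γ p.1 p.2}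
  zero_mem' := ⟨1, Dt.one, t.lg.one, t.lb.one⟩
  add_mem' := fun ⟨γ, a1, a2, a3⟩ ⟨γ', b1, b2, b3⟩ =>
    ⟨γ * γ', a1.mul b1, t.lg.mul _ _ _ _ a2 b2, t.lb.mul _ _ _ _ a3 b3⟩
  neg_mem' := fun ⟨γ, a1, a2, a3⟩ => ⟨γ⁻¹, a1.inv, t.lg.inv _ _ a2, t.lb.inv _ _ a3⟩

theorem part1 (t : Tw R H ξ ρ S μ S') (β : (J → ℤ) ≃+ (I → ℤ))
    (gr : ∀ γ c d, Pr R H ξ ρ S μ S' γ c d → GrC R H ξ ρ S S' γ c d)
    (hex : ∀ c, ∃ d, (c, d) ∈ Gam t) (hb : ∀ p ∈ Gam t, β p.1 = p.2)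
    (hi : ∀ c c', S.i (β c) (β c') = S'.i c c') (hK : β S'.K = S.K) :
    LA R H ξ ρ S ∧ Sp R H ξ ρ S μ S' β := by
  have eff : ∀ c ∈ S'.Ef, β c ∈ S.Ef := fun c hc => by
    obtain ⟨d, γ, hγ⟩ := hex c
    rw [hb (c, d) ⟨γ, hγ⟩, ef_iff t.ln.mf.all]
    exact ((ef_iff t.gm.mf.all c).1 hc).trans_le (gr γ c d hγ).1
  have key : ∀ d γ, Dt (XX R H) γ → Lb R H ξ ρ S d γ → Ex S d →
      (∀ s ∈ S.Sec d, ∃ z ∈ Sc (XX R H) γ, evO ξ ρ z = s) ∧
      ∀ W ⊆ Sc (XX R H) γ, S.Sec d ≤ Submodule.span k (evO ξ ρ '' W) →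
        ∀ z ∈ Sc (XX R H) γ, z ∈ Submodule.span R W := by
    intro d γ h1 h2 h3
    obtain ⟨c, hc⟩ := t.lg.ex γ h1
    have e : β c = d := hb (c, d) ⟨γ, h1, hc, h2⟩
    refine (gr γ c d ⟨h1, hc, h2⟩).2 ?_
    by_cases hq : S'.K - c ∈ S'.Ef
    · have h4 := eff _ hq
      rw [map_sub, hK, e] at h4
      have h5 : ¬ 0 < S.h0 d := fun h => t.ln.mf.kne (by
        simpa using S.Ef.add_mem h4 ((ef_iff t.ln.mf.all d).2 h))
      exact (not_lt.1 h5).trans (Int.natCast_nonneg _)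
    · have h4 := t.gm.mf.all.a4.rr2 c hq
      have h5 : chi2 S.B S.K d = chi2 S'.B S'.K c := by
        have i1 := hi c c
        have i2 := hi S'.K c
        rw [e] at i1
        rw [e, hK] at i2
        unfold chi2
        rw [← Sd.i, ← Sd.i, i1, i2]
      unfold Ex at h3
      omega
  refine ⟨⟨fun d => ?_, fun d γ h1 h2 h3 => (key d γ h1 h2 h3).1,
    fun d γ h1 h2 h3 => (key d γ h1 h2 h3).2⟩, hi, hK, eff, fun c γ h1 h2 => ?_,
    fun h' hh => ?_⟩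
  · obtain ⟨d', γ, hγ⟩ := hex (β.symm d)
    have e := hb (_, d') ⟨γ, hγ⟩
    rw [AddEquiv.apply_symm_apply] at e
    exact ⟨γ, hγ.1, e ▸ hγ.2.2⟩
  · obtain ⟨u, hu, d, hd⟩ := t.lb.ex γ h1
    have e : β c = d := hb (c, d) ⟨_, h1.scal hu, t.lg.scal _ _ u hu h2, hd⟩
    exact ⟨u, hu, e ▸ hd⟩
  · obtain ⟨u, h₁, h, hu, hp, -, ha⟩ := t.hyp
    have e : h' = h₁ := t.lg.uniq _ _ _
      (t.lg.scal _ _ u hu.1 (t.lg.sys H h' t.ln.xb.sys hh)) hp.2.1
    have e2 : β h₁ = h := hb (h₁, h) ⟨_, hp⟩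
    rw [e, e2]
    exact ha.pos

end SpnA

open SpnA in
theorem spn_stmt : SpnStmt := by
  intro lat gr iso can k F M Ω E I J _ _ _ _ _ _ _ _ _ _ _ _ _ _ _ R H ξ ρ S μ S' t
  have hsq : ∀ p ∈ Gam t, S.i p.2 p.2 = S'.i p.1 p.1 := fun p ⟨γ, hγ⟩ =>
    iso k F M Ω E I J R H ξ ρ S μ S' γ p.1 p.2 t hγ False.elim
  have hK : (S'.K, S.K) ∈ Gam t := can k F M Ω E I J R H ξ ρ S μ S' t.ln t.gm
  refine ⟨fun hc => ?_, fun hd c => ?_⟩
  · have hex : ∀ c, ∃ d, (c, d) ∈ Gam t := fun c => by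
      obtain ⟨γ, h1, h2⟩ := hc c
      obtain ⟨u, hu, d, hd⟩ := t.lb.ex γ h1
      exact ⟨d, _, h1.scal hu, t.lg.scal _ _ u hu h2, hd⟩
    obtain ⟨β, hb, hi⟩ := lat Ω E J k M I S' S (Gam t) t.gm.mf.all t.ln.mf.all t.gm.mf.hg
      t.ln.mf.hg t.gm.mf.lt hex hsq hK
    have h := part1 t β (fun γ c d => gr k F M Ω E I J R H ξ ρ S μ S' γ c d t.ln t.gm) hex hb hi
      (hb _ hK)
    exact ⟨h.1, β, h.2⟩
  · have hex : ∀ d, ∃ c, (d, c) ∈ (Gam t).comap (AddEquiv.prodComm : _ ≃+ _).toAddMonoidHom :=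
      fun d => by
        obtain ⟨γ, h1, h2⟩ := hd d
        obtain ⟨c, hc⟩ := t.lg.ex γ h1
        exact ⟨c, γ, h1, hc, h2⟩
    obtain ⟨β, hb, -⟩ := lat k M I Ω E J S S' _ t.ln.mf.all t.gm.mf.all t.ln.mf.hg t.gm.mf.hg
      t.ln.mf.lt hex (fun p hp => (hsq _ hp).symm) hK
    obtain ⟨c', hc'⟩ := hex (β.symm c)
    have e := hb _ hc'
    rw [AddEquiv.apply_symm_apply] at e
    obtain ⟨γ, h1, h2, -⟩ := hc'
    exact ⟨γ, h1, e ▸ h2⟩

end Pool.Agent.MP_e8e0b6_ag.R2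

end Part2

section Part3

-- part 3: Stab

/-! A graded module that is killed by powers of the variables vanishes in large degree. -/

set_option autoImplicit false

namespace Pool.Agent.MP_e8e0b6_ag.R2

open Polynomial

namespace Stab

variable {A G : Type} [CommRing A] [Field G] [Algebra A G] {S : Set G}

theorem coeff_mem {q : G[X]} (h : q ∈ Algebra.adjoin A ((fun a => monomial 1 a) '' S)) (i : ℕ) :
    q.coeff i ∈ Submodule.span A S ^ i := by
  induction h using Algebra.adjoin_induction generalizing i with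
  | mem x hx =>
    obtain ⟨a, ha, rfl⟩ := hx
    rw [coeff_monomial]
    split_ifs with e
    · rw [← e, pow_one]
      exact Submodule.subset_span ha
    · exact Submodule.zero_mem _
  | algebraMap r =>
    rw [Polynomial.algebraMap_apply, coeff_C]
    split_ifs with e
    · rw [e, pow_zero]
      exact Submodule.algebraMap_mem r
    · exact Submodule.zero_mem _
  | add x y _ _ hx hy => rw [coeff_add]; exact Submodule.add_mem _ (hx i) (hy i)
  | mul x y _ _ hx hy =>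
    rw [coeff_mul]
    refine Submodule.sum_mem _ fun c hc => ?_
    rw [← Finset.HasAntidiagonal.mem_antidiagonal.1 hc, pow_add]
    exact Submodule.mul_mem_mul (hx _) (hy _)

theorem one_mem' {a : G} (h : a ∈ Submodule.span A S) :
    monomial 1 a ∈ Algebra.adjoin A ((fun a => monomial 1 a) '' S) := by
  induction h using Submodule.span_induction with
  | mem x hx => exact Algebra.subset_adjoin ⟨x, hx, rfl⟩
  | zero => simp
  | add x y _ _ hx hy => rw [map_add]; exact Subalgebra.add_mem _ hx hy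
  | smul r x _ hx => rw [← smul_monomial]; exact Subalgebra.smul_mem _ hx r

theorem mono_mem (m : ℕ) {s : G} (h : s ∈ Submodule.span A S ^ m) :
    monomial m s ∈ Algebra.adjoin A ((fun a => monomial 1 a) '' S) := by
  induction m generalizing s with
  | zero =>
    rw [pow_zero, Submodule.mem_one] at h
    obtain ⟨r, rfl⟩ := h
    exact Subalgebra.algebraMap_mem _ r
  | succ m ih =>
    rw [pow_succ] at h
    refine Submodule.mul_induction_on h (fun x hx y hy => ?_) fun x y hx hy => ?_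
    · rw [← monomial_mul_monomial]
      exact Subalgebra.mul_mem _ (ih hx) (one_mem' hy)
    · rw [map_add]
      exact Subalgebra.add_mem _ hx hy

end Stab

theorem stab_stmt : StabStmt := by
  classical
  rintro A G _ _ _ _ _ I p ⟨S, rfl⟩ h1 h2
  set B := Algebra.adjoin A ((fun a => monomial 1 a) '' (S : Set G)) with hB
  have : IsNoetherianRing B := isNoetherianRing_of_fg
    (Subalgebra.fg_def.2 ⟨_, S.finite_toSet.image _, rfl⟩)
  let J : Ideal B :=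
    { carrier := {q | ∀ i, (q : G[X]).coeff i ∈ p}
      add_mem' := fun hx hy i => by
        rw [Subalgebra.coe_add, coeff_add]
        exact p.add_mem (hx i) (hy i)
      zero_mem' := fun i => by simp
      smul_mem' := fun c x hx i => by
        rw [smul_eq_mul, Subalgebra.coe_mul, coeff_mul]
        exact p.sum_mem fun a _ => h1 _ _ (Stab.coeff_mem c.2 _) _ (hx _) }
  obtain ⟨T, hT⟩ := IsNoetherian.noetherian J
  have hm : ∀ q ∈ T, q ∈ J := fun q hq => hT ▸ Submodule.subset_span hq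
  choose! f hf using fun (q : B) (hq : q ∈ T) (i : ℕ) =>
    h2 i _ (Stab.coeff_mem q.2 i) (hm q hq i)
  refine ⟨T.sup fun q => (q : G[X]).support.sup fun i => i + f q i, fun m hm0 s hs hp => ?_⟩
  have key : ∀ x ∈ Submodule.span B (T : Set B), ∀ b : B,
      ((b * x : B) : G[X]).coeff m ∈ I • Submodule.span A (S : Set G) ^ m := by
    intro x hx
    induction hx using Submodule.span_induction with
    | mem q hq =>
      intro b
      rw [Subalgebra.coe_mul, coeff_mul]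
      refine Submodule.sum_mem _ fun c hc => ?_
      have e := Finset.HasAntidiagonal.mem_antidiagonal.1 hc
      by_cases h0 : c.2 ∈ (q : G[X]).support
      · have a : c.2 + f q c.2 ≤ m := le_trans (le_trans
          (Finset.le_sup (f := fun i => i + f q i) h0)
          (Finset.le_sup (f := fun q : B => (q : G[X]).support.sup fun i => i + f q i) hq)) hm0
        rw [mul_comm, ← e, add_comm]
        exact hf q hq c.2 c.1 (by omega) _ (Stab.coeff_mem b.2 _)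
      · rw [notMem_support_iff.1 h0, mul_zero]
        exact Submodule.zero_mem _
    | zero => intro b; simp
    | add x y _ _ hx hy =>
      intro b
      rw [mul_add, Subalgebra.coe_add, coeff_add]
      exact Submodule.add_mem _ (hx b) (hy b)
    | smul c x _ hx =>
      intro b
      rw [smul_eq_mul, ← mul_assoc]
      exact hx _
  have hJ : (⟨monomial m s, Stab.mono_mem m hs⟩ : B) ∈ J := fun i => by
    change (monomial m s).coeff i ∈ p
    rw [coeff_monomial]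
    split_ifs
    exacts [hp, p.zero_mem]
  have := key _ (hT ▸ hJ) 1
  rw [one_mul] at this
  change (monomial m s).coeff m ∈ _ at this
  rwa [coeff_monomial, if_pos rfl] at this

end Pool.Agent.MP_e8e0b6_ag.R2

end Part3

section Part4

-- part 4: Twg

/-!
Twisted sections on the generic fibre and on the family are forms.
-/

set_option autoImplicit false

namespace Pool.Agent.MP_e8e0b6_ag.R2

open Pool.Agent.MP_79c67d_ag Pool.Agent.MP_20d318_ag Pool.Agent.MP_20d318_ag.AG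
  Pool.Agent.MP_20d318_ag.BV Pool.Agent.MP_20d318_ag.CB
open scoped Pointwise

namespace TwgA

variable {k F Ω E : Type} [Field k] [Field F] [Field Ω] [Field E] [Algebra k F] [Algebra k E]
  [Algebra Ω E] {R : Subalgebra k F} {H : Set F} {μ : F →ₐ[k] E}

theorem lin (hb : ∀ c ∈ R, μ c ∈ Set.range (algebraMap Ω E)) {a : F}
    (ha : a ∈ Submodule.span R H) : μ a ∈ Submodule.span Ω (μ '' H) := by
  induction ha using Submodule.span_induction with
  | mem x hx => exact Submodule.subset_span ⟨x, hx, rfl⟩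
  | zero => rw [map_zero]; exact zero_mem _
  | add x y _ _ hx hy => rw [map_add]; exact add_mem hx hy
  | smul r x _ hx =>
    obtain ⟨e, he⟩ := hb r r.2
    change μ (r * x) ∈ _
    rw [map_mul, ← he, ← Algebra.smul_def]
    exact Submodule.smul_mem _ _ hx

theorem down (hb : ∀ c ∈ R, μ c ∈ Set.range (algebraMap Ω E)) {n : ℕ} {a : F}
    (ha : a ∈ Fo R H n) : μ a ∈ Fo Ω (μ '' H) n := by
  induction ha using Submodule.pow_induction_on_left' with
  | algebraMap r =>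
    rw [Fo, pow_zero]
    exact Submodule.mem_one.2 (hb r r.2)
  | add x y i _ _ hx hy => rw [map_add]; exact add_mem hx hy
  | mem_mul m hm i x _ hx =>
    rw [map_mul, Fo, pow_succ']
    exact Submodule.mul_mem_mul (lin hb hm) hx

theorem up (n : ℕ) : Fo Ω (μ '' H) n ≤ Submodule.span Ω (μ '' Fo R H n) := by
  induction n with
  | zero =>
    rw [Fo, pow_zero, Submodule.one_le]
    exact Submodule.subset_span ⟨1, Submodule.one_le.1 (pow_zero _).ge, map_one μ⟩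
  | succ n ih =>
    rw [Fo, pow_succ']
    refine (mul_le_mul_right ih _).trans ?_
    rw [Submodule.span_mul_span, Submodule.span_le]
    rintro _ ⟨_, ⟨a, ha, rfl⟩, _, ⟨b, hb, rfl⟩, rfl⟩
    refine Submodule.subset_span ⟨a * b, ?_, map_mul μ a b⟩
    rw [Fo, pow_succ']
    exact Submodule.mul_mem_mul (Submodule.subset_span ha) hb

end TwgA

open TwgA in
theorem twg_stmt : TwgStmt := by
  intro form k F Ω E J _ _ _ _ _ _ _ _ R H μ S' γ m w xb gm hd hγ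
  refine ⟨fun z hz => ?_, fun c φ hφ => ?_⟩
  · obtain ⟨n₀, h₀⟩ := (form R F H ⊤ xb.fm.fin xb.fm.nz).2 m (z * w) fun j hj => by
      rw [Submodule.top_smul]
      refine mem_ch.1 (mem_of_pts fun O hO => ?_)
      obtain ⟨hX, g⟩ := (xb.pts j hj O).1 hO
      have n1 := hγ O hX
      refine Eq.mp (congrArg (· ∈ _) ?_) (mul_mem (hz O hX) (hd O hX j g))
      field_simp
    exact ⟨n₀, fun n hn h hh => by
      have := h₀ n hn h hh
      rwa [Submodule.top_smul, mul_assoc] at this⟩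
  have key : ∀ y ∈ S'.Sec c, ∃ n₀, ∀ n ≥ n₀, ∀ v ∈ Fo Ω (μ '' H) n,
      y / φ * μ w * v ∈ (⊤ : Ideal Ω) • Fo Ω (μ '' H) (m + n) := fun y hy => by
    refine (form Ω E _ ⊤ (xb.fm.fin.image _) ?_).2 m _ ?_
    · rintro _ ⟨j, hj, rfl⟩
      exact (map_ne_zero μ).2 (xb.fm.nz j hj)
    rintro _ ⟨j, hj, rfl⟩
    rw [Submodule.top_smul]
    refine mem_of_pts (C := Algebra.adjoin Ω _) fun O' hO' => ?_
    have hT : O' ∈ S'.T := by
      rw [gm.eq, mp_eq_XX]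
      exact ⟨μ j, ⟨j, hj, rfl⟩, by rwa [ch, bot_sup_eq]⟩
    obtain ⟨O, hO, hb⟩ := gm.bg O' hT
    have g : Gn H O j := gn_of_mem hj (xb.fm.nz j hj) fun a ha => (hb _).2 (by
      rw [map_div₀]
      exact hO'.2.1 (Algebra.subset_adjoin ⟨μ a, ⟨a, ha, rfl⟩, rfl⟩))
    have u := hφ O' hT O hO fun a ha => (hb a).1 ha
    have h1 := (hb _).1 (hd O hO j g)
    rw [map_div₀, map_mul, map_pow] at h1
    obtain ⟨n1, n2⟩ := div_ne_zero_iff.1 u.ne
    obtain ⟨n3, n4⟩ := mul_ne_zero_iff.1 n2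
    refine Eq.mp (congrArg (· ∈ _) ?_) (mul_mem (mul_mem (hy O' hT) u.mem) h1)
    field_simp
  have := gm.mf.all.s.fd c
  obtain ⟨t, ht⟩ : (S'.Sec c).FG := Module.Finite.iff_fg.1 this
  choose! f hf using key
  refine ⟨t.sup f, fun n hn h hh y hy => ?_⟩
  rw [map_mul, div_mul_comm, mul_comm]
  refine up _ ((Submodule.span_le (p := (Fo Ω _ (m + n)).comap
    (LinearMap.mulRight Ω (μ w * μ h / φ)))).2 (fun x hx => ?_) (ht ▸ hy))
  have := hf x (ht ▸ Submodule.subset_span hx) n ((Finset.le_sup hx).trans hn) _ (down gm.base hh)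
  rwa [Submodule.top_smul, mul_assoc, div_mul_comm, mul_comm] at this

end Pool.Agent.MP_e8e0b6_ag.R2

end Part4

section Part5

-- part 5: Twk

/-!
Twisted sections on the closed fibre are forms.
-/

set_option autoImplicit false

namespace Pool.Agent.MP_e8e0b6_ag.R2

open Pool.Agent.MP_79c67d_ag Pool.Agent.MP_20d318_ag Pool.Agent.MP_20d318_ag.AG
  Pool.Agent.MP_20d318_ag.BV Pool.Agent.MP_20d318_ag.CB
open scoped Pointwise

namespace TwkA

variable {k F M I : Type} [Field k] [Field F] [Field M] [Algebra k F] [Algebra k M] [Fintype I]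
  {R ξ : Subalgebra k F} {H : Set F} {ρ : ξ →ₐ[k] M} {S : Sd k M I}

theorem lin (L : Ln R H ξ ρ S) {a : F} (ha : a ∈ Submodule.span R H) :
    a ∈ ξ ∧ evO ξ ρ a ∈ Submodule.span k (evO ξ ρ '' H \ {0}) := by
  obtain ⟨e, -, he⟩ := L.res
  induction ha using Submodule.span_induction with
  | mem x hx =>
    refine ⟨L.sub x hx, ?_⟩
    by_cases h : evO ξ ρ x = 0
    · exact (congrArg (· ∈ _) h).mpr (zero_mem _)
    · exact Submodule.subset_span ⟨⟨x, hx, rfl⟩, h⟩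
  | zero => exact ⟨ξ.zero_mem, (evO_zero ρ).symm ▸ zero_mem _⟩
  | add x y _ _ hx hy => exact ⟨ξ.add_mem hx.1 hy.1, (evO_add ρ hx.1 hy.1).symm ▸ add_mem hx.2 hy.2⟩
  | smul r x _ hx =>
    have hr := L.fib.dom.1 r.2
    refine ⟨ξ.mul_mem hr hx.1, ?_⟩
    change evO ξ ρ (r * x) ∈ _
    rw [evO_mul ρ hr hx.1, he, ← Algebra.smul_def]
    exact Submodule.smul_mem _ _ hx.2

theorem down (L : Ln R H ξ ρ S) {n : ℕ} {a : F} (ha : a ∈ Fo R H n) :
    a ∈ ξ ∧ evO ξ ρ a ∈ Fo k (evO ξ ρ '' H \ {0}) n := by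
  obtain ⟨e, -, he⟩ := L.res
  induction ha using Submodule.pow_induction_on_left' with
  | algebraMap r =>
    refine ⟨L.fib.dom.1 r.2, ?_⟩
    rw [Fo, pow_zero]
    exact Submodule.mem_one.2 ⟨e r, (he r).symm⟩
  | add x y i _ _ hx hy =>
    exact ⟨ξ.add_mem hx.1 hy.1, (evO_add ρ hx.1 hy.1).symm ▸ add_mem hx.2 hy.2⟩
  | mem_mul m hm i x _ hx =>
    refine ⟨ξ.mul_mem (lin L hm).1 hx.1, ?_⟩
    rw [evO_mul ρ (lin L hm).1 hx.1, Fo, pow_succ']
    exact Submodule.mul_mem_mul (lin L hm).2 hx.2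

theorem up (L : Ln R H ξ ρ S) (n : ℕ) :
    Fo k (evO ξ ρ '' H \ {0}) n ≤ Submodule.span k (evO ξ ρ '' Fo R H n) := by
  induction n with
  | zero =>
    rw [Fo, pow_zero, Submodule.one_le]
    exact Submodule.subset_span ⟨1, Submodule.one_le.1 (pow_zero _).ge, evO_one ρ⟩
  | succ n ih =>
    rw [Fo, pow_succ']
    refine (mul_le_mul_right ih _).trans ?_
    rw [Submodule.span_mul_span, Submodule.span_le]
    rintro _ ⟨_, ⟨⟨a, ha, rfl⟩, -⟩, _, ⟨b, hb, rfl⟩, rfl⟩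
    refine Submodule.subset_span ⟨a * b, ?_, evO_mul ρ (L.sub a ha) (down L hb).1⟩
    rw [Fo, pow_succ']
    exact Submodule.mul_mem_mul (Submodule.subset_span ha) hb

end TwkA

open TwkA in
theorem twk_stmt : TwkStmt := by
  intro form k F M I _ _ _ _ _ _ R H ξ ρ S γ d m w L hb hd
  have hw : w ∈ ξ := by
    have hu := (hb ξ L.fib.mem L.fib.dom).1
    have := ξ.mul_mem (hd ξ L.fib.mem 1 (gn_one L.sub ⟨1, L.one, isU_one⟩)) hu.mem
    rwa [one_pow, mul_one, div_mul_cancel₀ _ hu.ne] at this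
  have key : ∀ s ∈ S.Sec d, ∃ n₀, ∀ n ≥ n₀, ∀ v ∈ Fo k (evO ξ ρ '' H \ {0}) n,
      s * evO ξ ρ w * v ∈ (⊤ : Ideal k) • Fo k (evO ξ ρ '' H \ {0}) (m + n) := fun s hs => by
    refine (form k M _ ⊤ ((L.fm.fin.image _).sdiff) fun j hj => hj.2).2 m _ fun j₀ hj₀ => ?_
    rw [Submodule.top_smul]
    refine mem_of_pts (C := Algebra.adjoin k _) fun O' hO' => ?_
    have hT : O' ∈ S.T := by
      rw [L.eqT, mp_eq_XX]
      exact ⟨j₀, hj₀, by rwa [ch, bot_sup_eq]⟩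
    have g₀ := gn_of_mem hj₀ hj₀.2 fun a ha => hO'.2.1 (Algebra.subset_adjoin ⟨a, ha, rfl⟩)
    have hs' := hs O' hT
    obtain ⟨O, ⟨hO, hR⟩, rfl⟩ := L.eq ▸ hT
    obtain ⟨j, -, g⟩ := L.xb.gn O hO
    obtain ⟨uj, g₁⟩ := L.gnU O hO hR j g
    obtain ⟨u1, u2⟩ := hb O hO hR
    have h1 := (L.mem O (L.fib.le O hO hR) _).2 ⟨_, hd O hO j g, rfl⟩
    rw [evO_div ρ hw (u1.mul (uj.pow m)), evO_mul ρ u1.mem (uj.pow m).mem,
      evO_pow ρ uj.mem] at h1
    have h2 := mul_mem (mul_mem (mul_mem hs' u2.mem) h1) (pow_mem (g₁.unit g₀).mem m)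
    have n1 := (div_ne_zero_iff.1 u2.ne).2
    have n2 := evO_ne ρ u1
    have n3 := g₁.ne
    refine Eq.mp (congrArg (· ∈ _) ?_) h2
    rw [div_pow]
    field_simp
  have := L.mf.all.s.fd d
  obtain ⟨t, ht⟩ : (S.Sec d).FG := Module.Finite.iff_fg.1 this
  choose! f hf using key
  refine ⟨t.sup f, fun n hn h hh s hs => ?_⟩
  rw [evO_mul ρ hw (down L hh).1]
  refine up L _ ((Submodule.span_le (p := (Fo k _ (m + n)).comap
    (LinearMap.mulRight k (evO ξ ρ w * evO ξ ρ h)))).2 (fun x hx => ?_) (ht ▸ hs))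
  have := hf x (ht ▸ Submodule.subset_span hx) n ((Finset.le_sup hx).trans hn) _ (down L hh).2
  rwa [Submodule.top_smul, mul_assoc] at this

end Pool.Agent.MP_e8e0b6_ag.R2

end Part5

section Part6

-- part 6: Xb

/-! The basic geometry of a projective family. -/

set_option autoImplicit false

namespace Pool.Agent.MP_e8e0b6_ag.R2

open Pool.Agent.MP_79c67d_ag Pool.Agent.MP_20d318_ag Pool.Agent.MP_20d318_ag.AG
  Pool.Agent.MP_20d318_ag.BV Pool.Agent.MP_20d318_ag.CB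

namespace XbR

variable {k F : Type} [Field k] [Field F] [Algebra k F] {C O W : Subalgebra k F} {H : Set F}
  {j : F}

theorem le (hO : O ∈ XX C H) : C ≤ O := hO.elim fun _ h => le_ch.trans h.2.2.1

theorem gn_of (nz : ∀ a ∈ H, a ≠ 0) (hj : j ∈ H) (h : ch C H j ≤ O) : Gn H O j :=
  gn_of_mem hj (nz j hj) (ch_le.1 h).2

theorem pts (nz : ∀ a ∈ H, a ≠ 0) (hj : j ∈ H) :
    O ∈ Pts (ch C H j) ↔ O ∈ XX C H ∧ Gn H O j := by
  refine ⟨fun h => ⟨⟨j, hj, h⟩, gn_of nz hj h.2.1⟩, fun ⟨hO, g⟩ => ?_⟩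
  have hle : ch C H j ≤ O := ch_le.2 ⟨le hO, g.1⟩
  obtain ⟨i, hi, h⟩ := hO
  have u := (gn_of nz hi h.2.1).unit g
  have h1 : ch C H i ≤ fr (ch C H j) O := ch_le.2 ⟨le_ch.trans le_fr, fun a ha => by
    rw [← div_div_div_cancel_right₀ g.ne a i]
    exact div_mem_fr (le_fr (div_mem_ch ha)) (le_fr (div_mem_ch hi)) hle u⟩
  refine ⟨h.1, hle, fun f hf => ?_⟩
  obtain ⟨a, ha, b, hb, hu, rfl⟩ := h.2.2 f hf
  exact div_mem_fr (h1 ha) (h1 hb) hle hu

theorem ctr (hW : IsLocalRing W) (hC : C ≤ W) (hP : Prin H W) : ∃ O ∈ XX C H, Dom O W := by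
  obtain ⟨j, hj, g⟩ := hP.exists_mem
  obtain ⟨O, hO, hd⟩ := exists_ctr hW (ch_le.2 ⟨hC, g.1⟩ : ch C H j ≤ W)
  exact ⟨O, ⟨j, hj, hO⟩, hd⟩

theorem sle (nz : ∀ a ∈ H, a ≠ 0) {O₁ O₂ : Subalgebra k F} (h₁ : O₁ ∈ XX C H) (h₂ : O₂ ∈ XX C H)
    (h : O₁ ≤ W) (hd : Dom O₂ W) : O₁ ≤ O₂ := by
  have hC := le h₂
  obtain ⟨i, hi, h₁⟩ := h₁
  obtain ⟨j, hj, h₂⟩ := h₂
  have g := gn_of nz hj h₂.2.1
  have u := hd.2 _ (g.1 i hi) (((gn_of nz hi h₁.2.1).mono h).unit (g.mono hd.1))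
  exact Pts_le h₁ (ch_le.2 ⟨hC, (g.of_unit u).1⟩) h hd

theorem noeth {A : Subalgebra k F} (hA : IsNoetherianRing A) (h : O ∈ Pts A) :
    IsNoetherianRing O := by
  let := (Subalgebra.inclusion h.2.1).toRingHom.toAlgebra
  let p : Submonoid A := (IsUnit.submonoid O).comap (algebraMap A O)
  have : IsLocalization p O := by
    refine ⟨⟨fun y => y.2, fun z => ?_, fun {x y} e => ⟨1, congrArg _ (Subtype.ext
      (congrArg (fun t : O => (t : F)) e))⟩⟩⟩
    obtain ⟨a, ha, b, hb, u, e⟩ := h.2.2 z z.2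
    refine ⟨(⟨a, ha⟩, ⟨⟨b, hb⟩, (isU_iff_isUnit (⟨b, u.mem⟩ : O)).1 u⟩), Subtype.ext ?_⟩
    change (z : F) * b = a
    rw [e, div_mul_cancel₀ _ u.1]
  exact IsLocalization.isNoetherianRing p O hA

theorem chn (hC : IsNoetherianRing C) (hH : H.Finite) : IsNoetherianRing (ch C H j) := by
  have h1 : IsNoetherianRing (Algebra.adjoin C ((fun a => a / j) '' H)) :=
    isNoetherianRing_of_fg ⟨(hH.image _).toFinset, by rw [Set.Finite.coe_toFinset]⟩
  exact isNoetherianRing_of_ringEquiv _ (RingEquiv.subringCongr (s := (Algebra.adjoin C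
    ((fun a => a / j) '' H)).toSubring) (t := (ch C H j).toSubring)
      (Subring.ext fun _ => mem_ch.symm))

theorem nrm (hF : Frac O) (hU : UniqueFactorizationMonoid O) : Nrm O := fun f hf => by
  have : IsFractionRing O F := IsFractionRing.of_field O F fun z => by
    obtain ⟨a, ha, b, hb, -, e⟩ := hF z
    exact ⟨⟨a, ha⟩, ⟨b, hb⟩, e⟩
  obtain ⟨y, rfl⟩ := IsIntegrallyClosed.isIntegral_iff.1 hf
  exact y.2

end XbR

open XbR in
theorem xb_stmt : XbStmt := fun _ _ _ _ _ C H h =>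
  have fr : ∀ O ∈ XX C H, Frac O := fun _ ⟨j, hj, hO⟩ => (h.frac j hj).mono hO.2.1
  { fm := h
    loc := fun _ hO => hO.elim fun _ h => h.2.1
    le := fun _ => le
    gn := fun _ ⟨j, hj, hO⟩ => ⟨j, hj, gn_of h.nz hj hO.2.1⟩
    pts := fun _ hj _ => pts h.nz hj
    ctr := fun _ => XbR.ctr
    val := fun _ hV hC => XbR.ctr hV.isLocalRing hC
      (hV.prin h.fin (h.ne.imp fun a ha => ⟨ha, h.nz a ha⟩))
    sle := fun _ h₁ _ h₂ _ => sle h.nz h₁ h₂
    sub := fun _ ⟨j, hj, h₁⟩ _ h₂ hle => Pts_of_le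
      ((pts h.nz hj).2 ⟨h₂, (gn_of h.nz hj h₁.2.1).mono hle⟩) h₁.2.1 hle
    up := fun _ ⟨j, hj, h₁⟩ _ h₂ => ⟨j, hj, Pts_trans h₁ h₂⟩
    frac := fr
    nrm := fun O hO => nrm (fr O hO) (h.ufd O hO)
    noeth := fun _ ⟨_, _, hO⟩ => noeth (chn h.noeth h.fin) hO
    chn := fun _ _ => chn h.noeth h.fin }

end Pool.Agent.MP_e8e0b6_ag.R2

end Part6

section Part7

-- part 7: Nrm

/-! Normalization of the homogeneous coordinates, and the reduction of the specialization theorem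
to normalized families. -/

set_option autoImplicit false

namespace Pool.Agent.MP_e8e0b6_ag.R2

open Pool.Agent.MP_79c67d_ag Pool.Agent.MP_20d318_ag Pool.Agent.MP_20d318_ag.AG
  Pool.Agent.MP_20d318_ag.BV Pool.Agent.MP_20d318_ag.CB

section nrm

variable {k F M Ω E I J : Type} [Field k] [Field F] [Field M] [Field Ω] [Field E] [Algebra k F]
  [Algebra k M] [Algebra k E] [Algebra Ω E] [Fintype I] [Fintype J] {C R ξ : Subalgebra k F}
  {H : Set F} {t : F} {ρ : ξ →ₐ[k] M} {S : Sd k M I} {μ : F →ₐ[k] E} {S' : Sd Ω E J}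

theorem ch_div (ht : t ≠ 0) (j : F) : ch C ((fun a => a / t) '' H) (j / t) = ch C H j := by
  rw [ch, ch, Set.image_image]
  simp only [div_div_div_cancel_right₀ ht]

theorem XX_div (ht : t ≠ 0) : XX C ((fun a => a / t) '' H) = XX C H := Set.ext fun O =>
  ⟨fun ⟨_, ⟨j, hj, e⟩, h⟩ => ⟨j, hj, by rwa [← e, ch_div ht] at h⟩,
    fun ⟨j, hj, h⟩ => ⟨j / t, ⟨j, hj, rfl⟩, by rwa [ch_div ht]⟩⟩

theorem Fib.div (h : Fib R H ξ) (ht : t ≠ 0) : Fib R ((fun a => a / t) '' H) ξ :=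
  ⟨by rw [XX_div ht]; exact h.mem, h.dom, by rw [XX_div ht]; exact h.le,
    by rw [XX_div ht]; exact h.red⟩

theorem Fm.div (h : Fm C H) (ht : t ≠ 0) : Fm C ((fun a => a / t) '' H) :=
  ⟨h.fin.image _, h.ne.image _, by rintro _ ⟨a, ha, rfl⟩; exact div_ne_zero (h.nz a ha) ht,
    by rintro _ ⟨a, ha, rfl⟩; rw [ch_div ht a]; exact h.frac a ha, h.noeth, h.ufdC,
    by rw [XX_div ht]; exact h.ufd, fun R hR => (h.fib R hR).imp fun _ f => f.div ht,
    by rw [XX_div ht]; exact h.flat⟩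

theorem Lc.div (h : Lc R H ξ ρ S) (ht : t ≠ 0) : Lc R ((fun a => a / t) '' H) ξ ρ S :=
  ⟨h.fm.div ht, h.loc, h.rat, h.fib.div ht, h.lh, h.surj, h.ind, h.mrk,
    by rw [XX_div ht]; exact h.eq⟩

theorem map_div_im (μ : F →ₐ[k] E) :
    μ '' ((fun a => a / t) '' H) = (fun a => a / μ t) '' (μ '' H) := by
  simp only [Set.image_image, map_div₀]

theorem Gc.div (h : Gc C H μ S') (ht : t ≠ 0) : Gc C ((fun a => a / t) '' H) μ S' :=
  ⟨h.mrk, by rw [h.eq, map_div_im, mp_eq_XX, mp_eq_XX, XX_div ((map_ne_zero μ).2 ht)], h.base, h.ld⟩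

theorem Lb_div (ht : t ≠ 0) : Lb R ((fun a => a / t) '' H) ξ ρ S = Lb R H ξ ρ S := by
  funext d γ
  rw [Lb, Lb, XX_div ht]

theorem Cl.div {U : Set M} {c : I → ℤ} {s : M} (h : Cl S U c) (hs : s ≠ 0) :
    Cl S ((fun a => a / s) '' U) c := by
  obtain ⟨φ, h0, h⟩ := h
  refine ⟨s⁻¹ * φ, mul_ne_zero (inv_ne_zero hs) h0, fun O hO => ?_⟩
  simpa only [div_eq_inv_mul, mul_assoc] using (h O hO).smul (inv_ne_zero hs)

/-- The class of a system. -/
theorem exists_cl (h : SAll S) {U : Set M} (hU : U.Finite) (hP : ∀ O ∈ S.T, Prin U O) :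
    ∃ c, Cl S U c := by
  obtain ⟨c, φ, h0, u⟩ := h.a2.pic _ (isCart_of_gn hU fun O hO => gn_spec (hP O hO)).inv
  refine ⟨c, φ⁻¹, inv_ne_zero h0, fun O hO => (gn_spec (hP O hO)).of_unit ?_⟩
  convert (u O hO).inv using 1
  rw [Pi.inv_apply]
  field_simp

theorem Lc.exists_nrm (h : Lc R H ξ ρ S) :
    ∃ t : F, t ≠ 0 ∧ 1 ∈ (fun a => a / t) '' H ∧ ∀ a ∈ (fun a => a / t) '' H, a ∈ ξ := by
  obtain ⟨j, hj, g⟩ := (xb_stmt k F R H h.fm).gn ξ h.fib.mem
  exact ⟨j, g.ne, ⟨j, hj, div_self g.ne⟩, by rintro _ ⟨a, ha, rfl⟩; exact g.1 a ha⟩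

end nrm

theorem amp_of (hH : HclStmt) : AmpStmt := fun k M I _ _ _ _ _ _ S H h hf nz e => by
  have hP : ∀ O ∈ S.T, Prin H O := fun O hO => by
    rw [e, mp_eq_XX] at hO
    obtain ⟨j, hj, hO⟩ := hO
    exact (XbR.gn_of nz hj hO.2.1).prin
  obtain ⟨c, φ, h0, g⟩ := exists_cl h hf hP
  refine ⟨c, ⟨φ, h0, g⟩, ?_, (hH k M I S H c φ h e fun O hO => div_eq_mul_inv φ _ ▸ g O hO).pos⟩
  obtain ⟨a, ha, -⟩ := (g ⊤ h.a1.nice.toFine.top).2
  refine h.a2.eff1 c (a / φ) (fun O hO => ?_) (div_ne_zero (nz a ha) h0)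
  convert (g O hO).1 a ha using 1
  field_simp

theorem tw_of (hH : HclStmt) (hM : MfAll) (hL : LnStmt) (hB : Bg) (hG : LwgStmt) (hW : LwbStmt)
    {k F M Ω E I J : Type} [Field k] [CharZero k] [IsAlgClosed k] [Field F] [Field M] [Field Ω]
    [CharZero Ω] [IsAlgClosed Ω] [Field E] [Algebra k F] [Algebra k M] [Algebra k E] [Algebra Ω E]
    [Fintype I] [Fintype J] {R ξ : Subalgebra k F} {H : Set F} {ρ : ξ →ₐ[k] M} {S : Sd k M I}
    {μ : F →ₐ[k] E} {S' : Sd Ω E J} (h : Lc R H ξ ρ S) (g : Gc R H μ S') (h1 : 1 ∈ H)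
    (h2 : ∀ a ∈ H, a ∈ ξ) : Tw R H ξ ρ S μ S' := by
  have xb := xb_stmt k F R H h.fm
  have ln := hL k F M I R H ξ ρ S h xb (hM k M I S h.mrk) h1 h2
  have gm : Gm R H μ S' := ⟨g, hM Ω E J S' g.mrk, hB k F Ω E J R H μ S' xb g⟩
  have lg := hG k F Ω E J R H μ S' xb gm
  have lb := hW hH k F M I R H ξ ρ S ln
  obtain ⟨u, u0, d, hd⟩ := lb.ex _ xb.sys.dt
  obtain ⟨c, φ, φ0, hc⟩ := lg.ex _ (xb.sys.dt.scal u0)
  refine ⟨ln, gm, lg, lb, u, c, d, (lb.hyp u d hd).1, ⟨xb.sys.dt.scal u0, ⟨φ, φ0, hc⟩, hd⟩,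
    hH Ω E J S' (μ '' H) c (μ u / φ) gm.mf.all g.eq fun O' hO' => ?_, (lb.hyp u d hd).2⟩
  obtain ⟨O, hO, e⟩ := gm.bg O' hO'
  have g1 := gn_spec (xb.sys.2 O hO)
  have g2 : Gn (μ '' H) O' (μ (gn H O)) := by
    obtain ⟨a, ha, v⟩ := g1.2
    refine ⟨?_, μ a, ⟨a, ha, rfl⟩, map_div₀ μ _ _ ▸ ⟨(map_ne_zero μ).2 v.1, (e _).1 v.mem,
      map_inv₀ μ _ ▸ (e _).1 v.inv_mem⟩⟩
    rintro _ ⟨b, hb, rfl⟩
    exact map_div₀ μ _ _ ▸ (e _).1 (g1.1 b hb)
  refine g2.of_unit ?_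
  convert hc O' hO' O hO fun a => (e a).1 using 1
  rw [map_mul, map_inv₀]
  field_simp

theorem sp_of (hH : HclStmt) (hM : MfAll) (hL : LnStmt) (hB : Bg) (hG : LwgStmt) (hW : LwbStmt)
    (hD : DtStmt) (hS : Spn) : SpStmt :=
  fun k F M Ω E I J _ _ _ _ _ _ _ _ _ _ _ _ _ _ _ R H ξ ρ S μ S' h g hr => by
  obtain ⟨t, ht, h1, h2⟩ := h.exists_nrm
  obtain ⟨la, σ, sp⟩ := (hS k F M Ω E I J R _ ξ ρ S μ S'
    (tw_of hH hM hL hB hG hW (h.div ht) (g.div ht) h1 h2)).1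
    (hD k F Ω E J R _ μ S' (h.fm.div ht) (g.div ht) hr)
  have e1 := la.ex
  have e2 := la.surj
  have e3 := la.span
  have e4 := sp.rel
  rw [XX_div ht, Lb_div ht] at e1 e2 e3 e4
  exact ⟨⟨e1, e2, e3⟩, σ, sp.iso, sp.can, sp.eff, e4, fun h' hc =>
    sp.amp h' (map_div_im μ ▸ hc.div ((map_ne_zero μ).2 ht))⟩

theorem ratOf_of (hH : HclStmt) (hM : MfAll) (hL : LnStmt) (hB : Bg) (hG : LwgStmt) (hW : LwbStmt)
    (hS : Spn) : RatOfStmt :=
  fun k F M Ω E I J _ _ _ _ _ _ _ _ _ _ _ _ _ _ _ R H ξ ρ S μ S' h g hr => by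
  obtain ⟨t, ht, h1, h2⟩ := h.exists_nrm
  have := (hS k F M Ω E I J R _ ξ ρ S μ S'
    (tw_of hH hM hL hB hG hW (h.div ht) (g.div ht) h1 h2)).2
  rw [XX_div ht, Lb_div ht] at this
  exact this hr

theorem mfAll_of (h1 : MkaStmt) (h2 : MklStmt) (h3 : NlStmt) (h4 : ExbStmt) (h5 : ExhStmt) :
    MfAll := fun k M I _ _ _ _ _ _ S h =>
  ⟨⟨(h1 k M I S h).1, (h2 h1 k M I S h).1.uni, (h2 h1 k M I S h).2, h5 h1 h3 h4 k M I S h⟩,
    (h1 k M I S h).2, (h2 h1 k M I S h).1⟩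

end Pool.Agent.MP_e8e0b6_ag.R2

end Part7

section Part8

-- part 8: Lwg

/-! The group laws for the classes on the geometric generic fibre. -/

set_option autoImplicit false

namespace Pool.Agent.MP_e8e0b6_ag.R2

open Pool.Agent.MP_79c67d_ag Pool.Agent.MP_20d318_ag Pool.Agent.MP_20d318_ag.AG
  Pool.Agent.MP_20d318_ag.BV Pool.Agent.MP_20d318_ag.CB

namespace LwgR

variable {k F Ω E J : Type} [Field k] [Field F] [Field Ω] [Field E] [Algebra k F] [Algebra k E]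
  [Algebra Ω E] [Fintype J] {O : Subalgebra k F} {O' : Subalgebra Ω E} {U : Set F} {a : F}
  {μ : F →ₐ[k] E} {S' : Sd Ω E J} {X : Set (Subalgebra k F)} {γ γ' : Subalgebra k F → F}
  {c c' : J → ℤ}

theorem isU (e : ∀ a ∈ O, μ a ∈ O') (h : IsU O a) : IsU O' (μ a) :=
  ⟨(map_ne_zero μ).2 h.1, e _ h.mem, map_inv₀ μ a ▸ e _ h.inv_mem⟩

theorem gn (e : ∀ a ∈ O, μ a ∈ O') (h : Gn U O a) : Gn (μ '' U) O' (μ a) := by
  obtain ⟨u, hu, v⟩ := h.2
  refine ⟨?_, μ u, ⟨u, hu, rfl⟩, map_div₀ μ u a ▸ isU e v⟩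
  rintro _ ⟨b, hb, rfl⟩
  exact map_div₀ μ b a ▸ e _ (h.1 b hb)

theorem mul (h0 : ∀ O ∈ S'.T, ∀ i, S'.g i O ≠ 0) (h : Lg X μ S' c γ) (h' : Lg X μ S' c' γ') :
    Lg X μ S' (c + c') (γ * γ') := by
  obtain ⟨φ, φ0, h⟩ := h
  obtain ⟨ψ, ψ0, h'⟩ := h'
  refine ⟨φ * ψ, mul_ne_zero φ0 ψ0, fun O' hO' O hO e => ?_⟩
  convert (h O' hO' O hO e).mul (h' O' hO' O hO e) using 1
  rw [Pi.mul_apply, map_mul, S'.lb_add (h0 O' hO'), mul_mul_mul_comm, mul_div_mul_comm]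

theorem inv (h : Lg X μ S' c γ) : Lg X μ S' (-c) γ⁻¹ := by
  obtain ⟨φ, φ0, h⟩ := h
  refine ⟨φ⁻¹, inv_ne_zero φ0, fun O' hO' O hO e => ?_⟩
  convert (h O' hO' O hO e).inv using 1
  rw [Pi.inv_apply, map_inv₀, S'.lb_neg, ← mul_inv, inv_div_inv, inv_div]

theorem sys (hU : Sys X U) (h : Cl S' (μ '' U) c) : Lg X μ S' c fun O => (BV.gn U O)⁻¹ := by
  obtain ⟨φ, φ0, h⟩ := h
  refine ⟨φ⁻¹, inv_ne_zero φ0, fun O' hO' O hO e => ?_⟩
  convert (h O' hO').unit (gn e (gn_spec (hU.2 O hO))) using 1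
  rw [map_inv₀]
  field_simp

theorem congr (h : Lg X μ S' c γ) (u : ∀ O ∈ X, IsU O (γ' O / γ O)) : Lg X μ S' c γ' := by
  obtain ⟨φ, φ0, h⟩ := h
  refine ⟨φ, φ0, fun O' hO' O hO e => ?_⟩
  convert (isU e (u O hO)).mul (h O' hO' O hO e) using 1
  rw [map_div₀, div_mul_div_cancel₀ ((map_ne_zero μ).2 (div_ne_zero_iff.1 (u O hO).1).2)]

end LwgR

open LwgR in
theorem lwg_stmt : LwgStmt := fun k F Ω E J _ _ _ _ _ _ _ _ _ _ C H μ S' _ g => by
  have a := g.mf.all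
  have cl : ∀ U, Sys (XX C H) U → ∃ c, Lg (XX C H) μ S' c fun O => (BV.gn U O)⁻¹ := fun U hU => by
    obtain ⟨c, hc⟩ := exists_cl a (hU.1.image μ) fun O' hO' => by
      obtain ⟨O, hO, e⟩ := g.bg O' hO'
      exact (LwgR.gn (fun a => (e a).1) (gn_spec (hU.2 O hO))).prin
    exact ⟨c, sys hU hc⟩
  refine ⟨⟨1, one_ne_zero, fun O' _ O _ _ => by simpa [Sd.lb_zero] using isU_one⟩,
    fun _ _ _ _ => mul a.a1.gne, fun _ _ => inv, ?_, ?_, ?_, fun _ _ => sys⟩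
  · rintro γ c u hu ⟨φ, φ0, h⟩
    have := (map_ne_zero μ).2 hu
    refine ⟨μ u * φ, mul_ne_zero this φ0, fun O' hO' O hO e => ?_⟩
    rw [map_mul, mul_assoc, mul_div_mul_left _ _ this]
    exact h O' hO' O hO e
  · rintro γ ⟨U, V, hU, hV, h⟩
    obtain ⟨c, hc⟩ := cl U hU
    obtain ⟨c', hc'⟩ := cl V hV
    refine ⟨_, congr (mul a.a1.gne hc (inv hc')) fun O hO => ?_⟩
    obtain ⟨x, y, g1, g2, u⟩ := h O hO
    have := g1.ne; have := g2.ne
    convert (u.mul ((gn_spec (hU.2 O hO)).unit g1)).div ((gn_spec (hV.2 O hO)).unit g2) using 1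
    simp only [Pi.mul_apply, Pi.inv_apply]
    field_simp
  · rintro γ c c' ⟨φ, φ0, h⟩ ⟨ψ, ψ0, h'⟩
    refine sub_eq_zero.1 (a.a1.zero _ (φ / ψ) fun O' hO' => ?_)
    obtain ⟨O, hO, e⟩ := g.bg O' hO'
    have u := h O' hO' O hO fun a => (e a).1
    have := (div_ne_zero_iff.1 u.1).1
    convert (h' O' hO' O hO fun a => (e a).1).div u using 1
    rw [S'.lb_sub (a.a1.gne O' hO')]
    field_simp

end Pool.Agent.MP_e8e0b6_ag.R2

end Part8
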