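import Pool.Agent.MP_e8e0b6_ag.R2.SpecB

section Part1

-- part 1: Br1

/-!
The standard charts of a smooth projective family over an affine base.
-/

set_option autoImplicit false

open Polynomial AlgebraicGeometry CategoryTheory Limits TensorProduct

namespace Pool.Agent.MP_e8e0b6_ag.R2

open Pool.Agent.MP_79c67d_ag Pool.Agent.MP_20d318_ag Pool.Agent.MP_20d318_ag.AG
  Pool.Agent.MP_20d318_ag.BV Pool.Agent.MP_20d318_ag.CB

attribute [local instance] MvPolynomial.gradedAlgebra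

namespace Br1A

/-- The trace of an affine chart on a closed subscheme. -/
theorem exists_cl {Y P : Scheme.{0}} (c : Y ⟶ P) [IsClosedImmersion c] {R : Type} [CommRing R]
    (j' : Spec (.of R) ⟶ P) [IsOpenImmersion j'] :
    ∃ (I : Ideal R) (j : Spec (.of (R ⧸ I)) ⟶ Y), IsOpenImmersion j ∧
      j ≫ c = sp (Ideal.Quotient.mk I) ≫ j' ∧ ∀ y, c y ∈ Set.range j' → y ∈ Set.range j := by
  obtain ⟨I, e, he⟩ := (IsClosedImmersion.Spec_iff (f := pullback.snd c j')).1 inferInstance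
  refine ⟨I, e.inv ≫ pullback.fst c j', inferInstance, ?_, fun y ⟨z, hz⟩ => ?_⟩
  · rw [Category.assoc, pullback.condition, he, Category.assoc, Iso.inv_hom_id_assoc]
  · obtain ⟨w, hw, -⟩ := Scheme.exists_preimage_of_isPullback (IsPullback.of_hasPullback c j') y z
      hz.symm
    refine ⟨e.hom w, ?_⟩
    rw [← Scheme.Hom.comp_apply, Iso.hom_inv_id_assoc, hw]

/-- The affine coordinates generate the coordinate ring. -/
theorem gen {k A : Type} [Field k] [CommRing A] [Algebra k A] {N : ℕ} (i : Fin (N + 1))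
    (I : Ideal (A ⊗[k] Pj.Ch k i)) :
    Algebra.adjoin A (Set.range fun l => Ideal.Quotient.mk I (1 ⊗ₜ[k] Pj.rat k i l)) = ⊤ := by
  set S := Algebra.adjoin A (Set.range fun l => Ideal.Quotient.mk I (1 ⊗ₜ[k] Pj.rat k i l))
  have h1 : ∀ a : A, Ideal.Quotient.mk I (a ⊗ₜ[k] 1) ∈ S := fun a => S.algebraMap_mem a
  have h2 : ∀ p : MvPolynomial (Fin (N + 1)) k,
      Ideal.Quotient.mk I (1 ⊗ₜ[k] MvPolynomial.eval₂ (Pj.cst _) (Pj.rat k i) p) ∈ S := by
    intro p
    induction p using MvPolynomial.induction_on with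
    | C x =>
      rw [MvPolynomial.eval₂_C]
      have : (1 : A) ⊗ₜ[k] (Pj.cst (MvPolynomial.X i) x : Pj.Ch k i) = algebraMap k A x ⊗ₜ[k] 1 :=
        (Algebra.TensorProduct.algebraMap_apply' x).symm.trans
          (Algebra.TensorProduct.algebraMap_apply x)
      rw [this]
      exact h1 _
    | add p q hp hq =>
      rw [MvPolynomial.eval₂_add, tmul_add, map_add]
      exact add_mem hp hq
    | mul_X p l hp =>
      rw [MvPolynomial.eval₂_mul, MvPolynomial.eval₂_X, ← mul_one (1 : A),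
        ← Algebra.TensorProduct.tmul_mul_tmul, map_mul]
      exact mul_mem hp (Algebra.subset_adjoin ⟨l, rfl⟩)
  refine eq_top_iff.2 fun z _ => ?_
  obtain ⟨w, rfl⟩ := Ideal.Quotient.mk_surjective z
  induction w using TensorProduct.induction_on with
  | zero => exact (map_zero (Ideal.Quotient.mk I)).symm ▸ zero_mem S
  | tmul a z =>
    obtain ⟨p, rfl⟩ := Pj.exists_eval z
    have := mul_mem (h1 a) (h2 p)
    rwa [← map_mul, Algebra.TensorProduct.tmul_mul_tmul, mul_one, one_mul] at this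
  | add x y hx hy =>
    rw [map_add]
    exact add_mem (hx trivial) (hy trivial)

end Br1A

theorem br1_stmt : Br1Stmt := by
  intro k _ _ _ N X S f π e hP A _ σ
  obtain ⟨φ, hφ⟩ := sp_surj (σ ≫ f)
  let := φ.toAlgebra
  have := hP.sm
  have w : (pullback.fst π σ ≫ e) ≫ projStr k N = pullback.snd π σ ≫ σ ≫ f := by
    rw [Category.assoc, hP.ov, pullback.condition_assoc]
  let c : pullback π σ ⟶ pullback (projStr k N) (σ ≫ f) := pullback.lift _ _ w
  have c1 : c ≫ pullback.fst _ _ = pullback.fst π σ ≫ e := pullback.lift_fst ..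
  have c2 : c ≫ pullback.snd _ _ = pullback.snd π σ := pullback.lift_snd ..
  let m : pullback (projStr k N) (σ ≫ f) ⟶ pullback (projStr k N) f :=
    pullback.lift (pullback.fst _ _) (pullback.snd _ _ ≫ σ) (by
      rw [Category.assoc]; exact pullback.condition)
  have m1 : m ≫ pullback.fst _ _ = pullback.fst _ _ := pullback.lift_fst ..
  have m2 : m ≫ pullback.snd _ _ = pullback.snd _ _ ≫ σ := pullback.lift_snd ..
  have P1 : IsPullback m (pullback.snd _ _) (pullback.snd _ _) σ :=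
    IsPullback.of_right (by rw [m1]; exact IsPullback.of_hasPullback _ _) m2
      (IsPullback.of_hasPullback (projStr k N) f)
  have P2 : IsPullback (pullback.fst π σ) c (pullback.lift e π hP.ov) m := by
    refine IsPullback.of_bot ?_ ?_ P1
    · rw [c2, pullback.lift_snd]
      exact IsPullback.of_hasPullback _ _
    · refine pullback.hom_ext ?_ ?_
      · rw [Category.assoc, Category.assoc, pullback.lift_fst, m1, c1]
      · rw [Category.assoc, Category.assoc, pullback.lift_snd, m2, ← Category.assoc, c2,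
          pullback.condition]
  have : IsClosedImmersion c := MorphismProperty.of_isPullback P2 hP.cl
  have H : IsPullback (pullback.fst (projStr k N) (σ ≫ f)) (pullback.snd _ _) (projStr k N)
      (sp (algebraMap k A)) := by
    rw [show sp (algebraMap k A) = σ ≫ f from hφ]
    exact IsPullback.of_hasPullback _ _
  choose j' o1 o2 o3 o4 using fun i : Fin (N + 1) =>
    Pj.bc_chart H (Pj.pchart k i) Pj.pchart_str
  choose I j p1 p2 p3 using fun i : Fin (N + 1) => Br1A.exists_cl c (j' i)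
  have hb : ∀ i, j i ≫ pullback.snd π σ = sp (algebraMap A ((A ⊗[k] Pj.Ch k i) ⧸ I i)) := fun i => by
    rw [← c2, ← Category.assoc, p2, Category.assoc, o2, sp_comp]
  refine ⟨⟨fun i => (A ⊗[k] Pj.Ch k i) ⧸ I i,
    fun i l => Ideal.Quotient.mk (I i) (1 ⊗ₜ[k] Pj.rat k i l), fun i => ?_,
    fun i => Br1A.gen i (I i), fun i => ?_⟩, j, p1, hb, fun i => ⟨(Ideal.Quotient.mk (I i)).comp
      (Algebra.TensorProduct.includeRight (R := k) (A := A)).toRingHom, ?_, fun l => rfl⟩,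
    fun i y hy => p3 i y (o4 i _ ?_)⟩
  · rw [Pj.rat_self]
    exact map_one _
  · have := p1 i
    exact RingHom.smooth_algebraMap.1 (SB.smooth_of_chart (j i) (hb i))
  · rw [← c1, ← Category.assoc, p2, Category.assoc, o3, sp_comp_assoc]
  · rwa [← Scheme.Hom.comp_apply, c1]

end Pool.Agent.MP_e8e0b6_ag.R2

end Part1

section Part2

-- part 2: Br2a

/-!
The function field of a geometric fibre.
-/

set_option autoImplicit false

open Polynomial AlgebraicGeometry CategoryTheory Limits TensorProduct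

namespace Pool.Agent.MP_e8e0b6_ag.R2

open Pool.Agent.MP_79c67d_ag Pool.Agent.MP_20d318_ag Pool.Agent.MP_20d318_ag.AG
  Pool.Agent.MP_20d318_ag.BV Pool.Agent.MP_20d318_ag.CB

attribute [local instance] MvPolynomial.gradedAlgebra

namespace Br2aA

variable {Ω B E : Type} [Field Ω] [CommRing B] [Field E] [Algebra Ω B] [Algebra Ω E]

theorem pts_iff {κ : B →ₐ[Ω] E} (hκ : Function.Injective κ) {O : Subalgebra Ω E} :
    O ∈ Pts κ.range ↔ ∃ p : PrimeSpectrum B, (O : Set E) = locS (κ : B →+* E) p.asIdeal := by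
  constructor
  · rintro ⟨hloc, hle, hfr⟩
    have hL : Loc O.toSubring := loc_iff.2 hloc
    have hm : ∀ x, (κ : B →+* E) x ∈ O.toSubring := fun x => hle ⟨x, rfl⟩
    refine ⟨⟨ctr (κ : B →+* E) hL hm, inferInstance⟩, Set.Subset.antisymm (fun f hf => ?_)
      (locS_ctr_le hL hm)⟩
    obtain ⟨_, ⟨a, rfl⟩, _, ⟨b, rfl⟩, hb, rfl⟩ := hfr f hf
    exact ⟨a, b, not_not.2 ⟨hb.2.1, hb.1, hb.2.2⟩, div_mul_cancel₀ _ hb.1⟩
  · rintro ⟨p, hp⟩
    have hm : ∀ f, f ∈ O ↔ f ∈ locS (κ : B →+* E) p.asIdeal := Set.ext_iff.1 hp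
    have he : O.toSubring = locS (κ : B →+* E) p.asIdeal := Subring.ext hm
    have hL : Loc O.toSubring := he ▸ loc_locS hκ
    refine ⟨loc_iff.1 hL, ?_, fun f hf => ?_⟩
    · rintro _ ⟨a, rfl⟩
      exact (hm _).2 (map_mem_locS a)
    · obtain ⟨a, b, hb, e⟩ := (hm f).1 hf
      have hu := (un_locS (r := (κ : B →+* E)) hκ).2 hb
      exact ⟨_, ⟨a, rfl⟩, _, ⟨b, rfl⟩, ⟨hu.2.1, (hm _).2 hu.1, (hm _).2 hu.2.2⟩,
        eq_div_of_mul_eq hu.2.1 e⟩

theorem range_eq {N : ℕ} (κ : B →ₐ[Ω] E) {r : Fin (N + 1) → B} {h : Fin (N + 1) → E} {c : E}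
    (hr : Algebra.adjoin Ω (Set.range r) = ⊤) (e : ∀ l, κ (r l) = h l / c) :
    κ.range = cht Ω (fun _ : Unit => nz h) fun _ => c := by
  rw [← Algebra.map_top, ← hr, AlgHom.map_adjoin, cht]
  refine le_antisymm (Algebra.adjoin_le ?_) (Algebra.adjoin_le ?_)
  · rintro _ ⟨_, ⟨l, rfl⟩, rfl⟩
    rw [e]
    by_cases h0 : h l = 0
    · rw [h0, zero_div]
      exact Subalgebra.zero_mem _
    · exact Algebra.subset_adjoin (Set.mem_iUnion.2 ⟨(), h l, ⟨⟨l, rfl⟩, h0⟩, rfl⟩)
  · intro z hz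
    obtain ⟨_, _, ⟨⟨l, rfl⟩, -⟩, rfl⟩ := Set.mem_iUnion.1 hz
    exact Algebra.subset_adjoin ⟨r l, ⟨l, rfl⟩, e l⟩

end Br2aA

open Br2aA in
theorem br2a_stmt (h1 : Br1Stmt) (h2 : StalkStmt) : Br2aStmt := by
  intro k _ _ _ N X S f π e hP Ω _ _ s
  obtain ⟨hint, halg, hbase, htw⟩ := hP.fib Ω s
  obtain ⟨𝓡, j, hc⟩ := h1 k N X S f π e hP Ω s
  obtain ⟨i0, hi0⟩ := Pj.pchart_cover ((gen (pullback π s) ≫ pullback.fst π s ≫ e)
    (IsLocalRing.closedPoint _))
  obtain ⟨ρ0, hρ0⟩ := exists_factor _ _ hi0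
  let h : Fin (N + 1) → (pullback π s).functionField := fun l => ρ0 (Pj.rat k i0 l)
  have hone : h i0 = 1 := by simp only [h, Pj.rat_self, map_one]
  have hco : ∀ i, h i ≠ 0 → ∃ ρ : Pj.Ch k i →+* (pullback π s).functionField,
      sp ρ ≫ Pj.pchart k i = gen (pullback π s) ≫ pullback.fst π s ≫ e ∧
      ∀ l, ρ (Pj.rat k i l) = h l / h i := fun i hi => by
    let G := MvPolynomial.eval₂Hom (ρ0.comp (Pj.cst _)) (ρ0 ∘ Pj.rat k i0)
    have hG : ∀ l, G (MvPolynomial.X l) = h l := fun l => MvPolynomial.eval₂Hom_X' _ _ _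
    have hu : IsUnit (G (MvPolynomial.X i)) := by rw [hG]; exact hi.isUnit
    have hu0 : IsUnit (G (MvPolynomial.X i0)) := by rw [hG, hone]; exact isUnit_one
    refine ⟨Pj.aw G _ hu, ?_, fun l => ?_⟩
    · rw [Pj.aw_chart G hu hu0, Pj.aw_self ρ0 hu0, hρ0]
    · have := Pj.aw_rat G hu l
      rw [hG, hG] at this
      exact eq_div_of_mul_eq hi this
  have hmem : ∀ i (ρ : Pj.Ch k i →+* (pullback π s).functionField),
      sp ρ ≫ Pj.pchart k i = gen (pullback π s) ≫ pullback.fst π s ≫ e → h i ≠ 0 := fun i ρ hρ => by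
    have := Pj.chart_trans (hρ.trans hρ0.symm) i0
    exact right_ne_zero_of_mul (this.trans_ne (hone.trans_ne one_ne_zero))
  have key : ∀ i, Nontrivial (𝓡.B i) → ∃ κ : 𝓡.B i →ₐ[Ω] (pullback π s).functionField,
      Function.Injective κ ∧ sp (κ : 𝓡.B i →+* _) ≫ j i = gen (pullback π s) ∧ h i ≠ 0 ∧
      κ.range = cht Ω (fun _ : Unit => nz h) fun _ => h i := fun i _ => by
    have := hc.opn i
    have := isDomain_chart (j i)
    obtain ⟨κ, hκ, hinj, -⟩ := exists_chart (j i)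
    have e1 : κ.comp (algebraMap Ω (𝓡.B i)) = algebraMap Ω _ := sp_inj (by
      rw [← sp_comp, ← hc.base i, ← Category.assoc, hκ]
      exact hbase)
    obtain ⟨ρ, hρ, hr⟩ := hc.co i
    have e2 : sp (κ.comp ρ) ≫ Pj.pchart k i = gen (pullback π s) ≫ pullback.fst π s ≫ e := by
      rw [← sp_comp_assoc, hρ, ← Category.assoc, hκ]
    have hi := hmem i _ e2
    obtain ⟨ρ', hρ', hr'⟩ := hco i hi
    have e3 : κ.comp ρ = ρ' := sp_cancel _ (e2.trans hρ'.symm)
    refine ⟨⟨κ, DFunLike.congr_fun e1⟩, hinj, hκ, hi, range_eq _ (𝓡.gen i) fun l => ?_⟩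
    rw [← hr' l, ← e3, ← hr l]
    rfl
  refine ⟨(pullback π s).functionField, inferInstance, halg, gen _, h, hint, inferInstance, hbase,
    ⟨i0, hone⟩, hco, hmem, ?_⟩
  convert htw using 1
  ext O
  constructor
  · rintro ⟨c, hcm, hO⟩
    obtain ⟨⟨i, hi⟩, hi'⟩ := hcm ()
    obtain rfl : c = fun _ => h i := funext fun _ => hi.symm
    obtain ⟨ρ, hρ, -⟩ := hco i hi'
    obtain ⟨p0, -⟩ := hc.rng i (gen (pullback π s) (IsLocalRing.closedPoint _))
      ⟨sp ρ (IsLocalRing.closedPoint _), by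
        rw [← Scheme.Hom.comp_apply, hρ, Scheme.Hom.comp_apply]⟩
    obtain ⟨κ, hinj, hκ, -, hr⟩ := key i (PrimeSpectrum.nonempty_iff_nontrivial.1 ⟨p0⟩)
    rw [← hr] at hO
    obtain ⟨p, hp⟩ := (pts_iff hinj).1 hO
    have := hc.opn i
    exact ⟨j i p, hp.trans (h2 _ _ (j i) _ hκ p).symm⟩
  · rintro ⟨y, hy⟩
    obtain ⟨i, hi⟩ := Pj.pchart_cover ((pullback.fst π s ≫ e) y)
    obtain ⟨p, rfl⟩ := hc.rng i y hi
    obtain ⟨κ, hinj, hκ, hi', hr⟩ := key i (PrimeSpectrum.nonempty_iff_nontrivial.1 ⟨p⟩)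
    have := hc.opn i
    refine ⟨fun _ => h i, fun _ => ⟨⟨i, rfl⟩, hi'⟩, ?_⟩
    rw [← hr]
    exact (pts_iff hinj).2 ⟨p, hy.trans (h2 _ _ (j i) _ hκ p)⟩

end Pool.Agent.MP_e8e0b6_ag.R2

end Part2

section Part3

-- part 3: Br2b

/-!
The charts of a geometric fibre.
-/

set_option autoImplicit false

open AlgebraicGeometry CategoryTheory Limits TensorProduct IsLocalRing

namespace Pool.Agent.MP_e8e0b6_ag.R2

attribute [local instance] MvPolynomial.gradedAlgebra

theorem br2b_stmt : Br2bStmt := by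
  intro k A Ω E _ _ _ _ _ _ _ _ N X S π e σ s 𝓡 j η h hs hP hG
  subst hs
  have := hG.int
  have := hG.dom
  obtain ⟨m, hm1, hm2⟩ : ∃ m : pullback π (sp (algebraMap A Ω) ≫ σ) ⟶ pullback π σ,
      m ≫ pullback.fst π σ = pullback.fst _ _ ∧
      m ≫ pullback.snd π σ = pullback.snd _ _ ≫ sp (algebraMap A Ω) :=
    ⟨pullback.lift (pullback.fst _ _) (pullback.snd _ _ ≫ sp (algebraMap A Ω))
      (by rw [Category.assoc]; exact pullback.condition), pullback.lift_fst .., pullback.lift_snd ..⟩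
  have H : IsPullback m (pullback.snd π (sp (algebraMap A Ω) ≫ σ)) (pullback.snd π σ)
      (sp (algebraMap A Ω)) :=
    IsPullback.of_right (by rw [hm1]; exact IsPullback.of_hasPullback π _) hm2
      (IsPullback.of_hasPullback π σ)
  have key : ∀ i, ∃ j' : Spec (.of (Ω ⊗[A] 𝓡.B i)) ⟶ pullback π (sp (algebraMap A Ω) ≫ σ),
      IsOpenImmersion j' ∧ (∀ z, m z ∈ Set.range (j i) → z ∈ Set.range j') ∧
      (η (closedPoint E) ∈ Set.range j' → h i ≠ 0 ∧ ∃ θ : 𝓡.B i →ₐ[A] E,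
        (∀ l, θ (𝓡.r i l) = h l / h i) ∧ Function.Injective (tens Ω θ)) := fun i => by
    have := hP.opn i
    obtain ⟨j', hj1, hj2, hj3, hj4⟩ := Pj.bc_chart H (j i) (hP.base i)
    refine ⟨j', hj1, hj4, fun hz => ?_⟩
    obtain ⟨κ, hκ⟩ := exists_factor η j' hz
    have h1 : κ.comp (algebraMap Ω (Ω ⊗[A] 𝓡.B i)) = algebraMap Ω E :=
      sp_inj (by rw [← sp_comp, ← hj2, ← Category.assoc, hκ, hG.base])
    have h2 : ∀ d : Ω, κ (d ⊗ₜ 1) = algebraMap Ω E d := fun d => DFunLike.congr_fun h1 d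
    let θ : 𝓡.B i →ₐ[A] E :=
      { κ.comp (Algebra.TensorProduct.includeRight (R := A) (A := Ω)).toRingHom with
        commutes' := fun a => by
          rw [IsScalarTower.algebraMap_apply A Ω E, ← h2]
          exact congrArg κ ((Algebra.TensorProduct.includeRight (R := A) (A := Ω)
            (B := 𝓡.B i)).commutes a) }
    obtain ⟨ρ, hρ1, hρ2⟩ := hP.co i
    have h3 : sp ((κ.comp (Algebra.TensorProduct.includeRight (R := A) (A := Ω)).toRingHom).comp ρ)
        ≫ Pj.pchart k i = η ≫ pullback.fst _ _ ≫ e := by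
      rw [← sp_comp, ← sp_comp, Category.assoc, hρ1, Category.assoc, ← Category.assoc _ (j i),
        ← hj3, Category.assoc, ← Category.assoc m, hm1, ← Category.assoc, hκ]
    have h4 := hG.mem i _ h3
    obtain ⟨ρ', h5, h6⟩ := hG.co i h4
    have h7 := sp_cancel (Pj.pchart k i) (h5.trans h3.symm)
    refine ⟨h4, θ, fun l => ?_, ?_⟩
    · rw [← h6, h7, ← hρ2]
      rfl
    · have h8 : ∀ z, tens Ω θ z = κ z := fun z => by
        induction z with
        | zero => rw [map_zero, map_zero]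
        | tmul d n =>
          rw [tens_tmul, ← h2]
          refine (map_mul κ _ _).symm.trans (congrArg κ ?_)
          exact (Algebra.TensorProduct.tmul_mul_tmul d 1 1 n).trans (by rw [mul_one, one_mul])
        | add a b ha hb => rw [map_add, map_add, ha, hb]
      have := κ.domain_nontrivial
      have := isDomain_chart j'
      have h9 : IsDominant (sp κ ≫ j') := by rw [hκ]; infer_instance
      have h10 := (PrimeSpectrum.denseRange_comap_iff_ker_le_nilRadical κ).1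
        (IsDominant.of_comp_of_isOpenImmersion (sp κ) j').denseRange
      rw [nilradical_eq_zero] at h10
      rw [show (tens Ω θ : _ → E) = κ from funext h8]
      exact (RingHom.injective_iff_ker_eq_bot κ).2 (le_bot_iff.1 h10)
  refine ⟨?_, fun i hi => ?_, fun i hi => ?_⟩
  · obtain ⟨i, hi⟩ := hG.one
    exact ⟨i, by rw [hi]; exact one_ne_zero⟩
  · obtain ⟨j', hj1, -, hj3⟩ := key i
    by_contra hn
    have := not_subsingleton_iff_nontrivial.1 hn
    obtain ⟨x, hx⟩ := η.denseRange.exists_mem_open j'.isOpenEmbedding.isOpen_range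
      (Set.range_nonempty _)
    obtain rfl : x = closedPoint E := Subsingleton.elim (α := PrimeSpectrum E) _ _
    exact (hj3 hx).1 hi
  · obtain ⟨j', -, hj2, hj3⟩ := key i
    obtain ⟨ρ', h5, -⟩ := hG.co i hi
    refine (hj3 (hj2 _ (hP.rng i _ ⟨sp ρ' (closedPoint E), ?_⟩))).2
    rw [← Scheme.Hom.comp_apply, h5, ← Scheme.Hom.comp_apply, ← Scheme.Hom.comp_apply,
      ← Category.assoc m, hm1]

end Pool.Agent.MP_e8e0b6_ag.R2

end Part3

section Part4

-- part 4: Br3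

/-!
Row BR3: the charts embed in the function field of the family.
-/

set_option autoImplicit false

open TensorProduct

namespace Pool.Agent.MP_e8e0b6_ag.R2

open Pool.Agent.MP_79c67d_ag Pool.Agent.MP_20d318_ag Pool.Agent.MP_20d318_ag.AG
  Pool.Agent.MP_20d318_ag.BV Pool.Agent.MP_20d318_ag.CB

namespace Br3A

variable {k A F Ω E B : Type} [Field k] [CommRing A] [Field F] [Field Ω] [Field E] [CommRing B]
  [Algebra k A] [Algebra k F] [Algebra k E] [Algebra A Ω] [Algebra Ω E] [Algebra A E]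
  [IsScalarTower A Ω E] [Algebra A B] {g : A →ₐ[k] F} {μ : F →ₐ[k] E}

/-- A map whose values on generators come from the smaller field. -/
theorem lift {ι : Type} {r : ι → B} (hr : Algebra.adjoin A (Set.range r) = ⊤)
    (hμ : ∀ a, μ (g a) = algebraMap A E a) (θ : B →ₐ[A] E) {T : Subalgebra k F} (hg : g.range ≤ T)
    (hT : ∀ l, ∃ z ∈ T, μ z = θ (r l)) :
    ∃ θ' : B →+* F, (∀ b, μ (θ' b) = θ b) ∧ ∀ b, θ' b ∈ T := by
  have key : ∀ b ∈ Algebra.adjoin A (Set.range r), ∃ z ∈ T, μ z = θ b := fun b hb => by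
    induction hb using Algebra.adjoin_induction with
    | mem b hb => exact hb.elim fun l hl => hl ▸ hT l
    | algebraMap a => exact ⟨g a, hg ⟨a, rfl⟩, by rw [hμ, θ.commutes]⟩
    | add b c _ _ hb hc =>
      obtain ⟨z, h1, h2⟩ := hb
      obtain ⟨w, h3, h4⟩ := hc
      exact ⟨z + w, T.add_mem h1 h3, by rw [map_add, map_add, h2, h4]⟩
    | mul b c _ _ hb hc =>
      obtain ⟨z, h1, h2⟩ := hb
      obtain ⟨w, h3, h4⟩ := hc
      exact ⟨z * w, T.mul_mem h1 h3, by rw [map_mul, map_mul, h2, h4]⟩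
  choose t h1 h2 using fun b => key b (hr ▸ Algebra.mem_top)
  have hi : Function.Injective μ := (μ : F →+* E).injective
  exact ⟨⟨⟨⟨t, hi (by rw [h2, map_one, map_one])⟩, fun b c => hi (by
    simp only [map_mul, h2])⟩, hi (by simp only [h2, map_zero]), fun b c => hi (by
    simp only [map_add, h2])⟩, h2, h1⟩

theorem ind (hg : Function.Injective g) (hΩ : Function.Injective (algebraMap A Ω))
    {θ : B →ₐ[A] E} (hθ : Function.Injective (tens Ω θ)) {θ' : B →+* F}
    (h1 : ∀ b, μ (θ' b) = θ b) (h2 : ∀ a, θ' (algebraMap A B a) = g a)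
    (h3 : ∀ f, ∃ a b, θ' b ≠ 0 ∧ f = θ' a / θ' b) {ι : Type} [Fintype ι] {v : ι → F}
    (hv : LinearIndependent g.range v) : LinearIndependent Ω fun i => μ (v i) := by
  classical
  have := hg.isDomain (g : A →+* F)
  have := flat_field hΩ
  choose a b hb e using fun i => h3 (v i)
  have hD : θ' (∏ i, b i) ≠ 0 := by
    rw [map_prod]
    exact Finset.prod_ne_zero_iff.2 fun i _ => hb i
  have e1 : ∀ i, θ' (a i * ∏ j ∈ Finset.univ.erase i, b j) = v i * θ' (∏ i, b i) := fun i => by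
    rw [← Finset.mul_prod_erase _ _ (Finset.mem_univ i), map_mul, map_mul, e i, ← mul_assoc,
      div_mul_cancel₀ _ (hb i)]
  generalize (∏ i, b i) = D at hD e1
  obtain ⟨c, hc⟩ : ∃ c : ι → B, ∀ i, θ' (c i) = v i * θ' D := ⟨_, e1⟩
  have l1 : LinearIndependent A c := Fintype.linearIndependent_iff.2 fun f hf i => by
    have h4 := congrArg θ' hf
    simp only [map_sum, Algebra.smul_def, map_mul, h2, hc, map_zero, ← mul_assoc,
      ← Finset.sum_mul] at h4
    have h5 := Fintype.linearIndependent_iff.1 hv (fun i => ⟨g (f i), f i, rfl⟩)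
      ((mul_eq_zero.1 h4).resolve_right hD) i
    exact hg ((congrArg Subtype.val h5).trans (map_zero g).symm)
  have l2 := (Module.Flat.linearIndependent_one_tmul (S := Ω) l1).map' (tens Ω θ).toLinearMap
    (LinearMap.ker_eq_bot.2 hθ)
  refine Fintype.linearIndependent_iff.2 fun f hf => Fintype.linearIndependent_iff.1 l2 f ?_
  have h4 : ∀ i, ((tens Ω θ).toLinearMap ∘ fun i => (1 : Ω) ⊗ₜ[A] c i) i = μ (v i) * μ (θ' D) :=
    fun i => by
      change tens Ω θ (1 ⊗ₜ c i) = _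
      rw [tens_tmul, map_one, one_mul, ← h1, hc, map_mul]
  simp only [h4, ← smul_mul_assoc, ← Finset.sum_mul, hf, zero_mul]

end Br3A

theorem br3_stmt : Br3Stmt := by
  intro k A F Ω E _ _ _ _ _ _ _ _ _ _ _ _ N 𝓡 g μ H h hg hμ hb hH hF
  have hi : Function.Injective μ := (μ : F →+* E).injective
  have hΩ : Function.Injective (algebraMap A Ω) := fun a a' e => hg (hi (by
    rw [hμ, hμ, IsScalarTower.algebraMap_apply A Ω E, e, ← IsScalarTower.algebraMap_apply]))
  have h0 : ∀ l, ∃ z, μ z = h l := fun l => by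
    by_cases hl : h l = 0
    · exact ⟨0, by rw [hl, map_zero]⟩
    · obtain ⟨z, -, hz⟩ : h l ∈ μ '' H := hH ▸ ⟨⟨l, rfl⟩, hl⟩
      exact ⟨z, hz⟩
  choose h' hh using h0
  have hz : ∀ l, h' l = 0 ↔ h l = 0 := fun l => by rw [← hh, map_eq_zero]
  have e : H = nz h' := by
    refine Set.Subset.antisymm (fun a ha => ?_) ?_
    · obtain ⟨⟨l, hl⟩, h1⟩ : μ a ∈ nz h := hH ▸ ⟨a, ha, rfl⟩
      exact ⟨⟨l, hi (by rw [hh, hl])⟩, fun h2 => h1 (by rw [h2, map_zero])⟩
    · rintro _ ⟨⟨l, rfl⟩, hl⟩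
      obtain ⟨z, h1, h2⟩ : h l ∈ μ '' H := hH ▸ ⟨⟨l, rfl⟩, fun h3 => hl ((hz l).2 h3)⟩
      rwa [← hi (h2.trans (hh l).symm)]
  subst e
  have hr : ∀ i, Function.Injective
      (Algebra.TensorProduct.includeRight : 𝓡.B i →ₐ[A] Ω ⊗[A] 𝓡.B i) := fun i =>
    Algebra.TensorProduct.includeRight_injective hΩ
  have key : ∀ i, h' i ≠ 0 → ∃ (θ : 𝓡.B i →ₐ[A] E) (θ' : 𝓡.B i →+* F),
      Function.Injective (tens Ω θ) ∧ (∀ b, μ (θ' b) = θ b) ∧ Function.Injective θ' ∧
      (∀ a, θ' (algebraMap A _ a) = g a) ∧ (∀ l, θ' (𝓡.r i l) = h' l / h' i) ∧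
      ∀ z, z ∈ ch g.range (nz h') (h' i) ↔ z ∈ Set.range θ' := fun i h1 => by
    obtain ⟨θ, h2, h3⟩ := hb.emb i fun h4 => h1 ((hz i).2 h4)
    obtain ⟨θ', h4, h5⟩ := Br3A.lift (𝓡.gen i) hμ θ (T := ch g.range (nz h') (h' i)) le_sup_left
      fun l => ⟨h' l / h' i, by
        by_cases hl : h' l = 0
        · rw [hl, zero_div]
          exact zero_mem _
        · exact C.div_mem_ch ⟨⟨l, rfl⟩, hl⟩, by rw [map_div₀, hh, hh, h2]⟩
    have h6 : ∀ a, θ' (algebraMap A _ a) = g a := fun a => hi (by rw [h4, hμ, θ.commutes])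
    have h7 : ∀ l, θ' (𝓡.r i l) = h' l / h' i := fun l => hi (by rw [h4, map_div₀, hh, hh, h2])
    refine ⟨θ, θ', h3, h4, fun b c e => hr i (h3 ?_), h6, h7, fun z => ⟨fun h8 => ?_, ?_⟩⟩
    · simp only [Algebra.TensorProduct.includeRight_apply, tens_tmul, ← h4, e]
    · let T : Subalgebra k F :=
        { θ'.range with
          algebraMap_mem' := fun c => ⟨_, (h6 (algebraMap k A c)).trans (g.commutes c)⟩ }
      refine C.ch_le (O := T) ?_ ?_ h8
      · rintro _ ⟨a, rfl⟩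
        exact ⟨_, h6 a⟩
      · rintro _ ⟨⟨l, rfl⟩, -⟩
        exact ⟨_, h7 l⟩
    · rintro ⟨b, rfl⟩
      exact h5 b
  obtain ⟨i, h1⟩ := hb.ne
  have h2 : h' i ≠ 0 := fun h3 => h1 ((hz i).1 h3)
  refine ⟨h', hh, rfl, ⟨hg, ⟨i, h2⟩, fun l hl => ?_, fun l hl => ?_, hF⟩, fun ι v hv => ?_⟩
  · have := hb.zero l ((hz l).1 hl)
    exact (hr l).subsingleton
  · obtain ⟨-, θ', -, -, h3⟩ := key l hl
    exact ⟨θ', h3⟩
  · obtain ⟨θ, θ', h3, h4, -, h5, -, h6⟩ := key i h2
    refine linearIndependent_iff_finset_linearIndependent.2 fun s => ?_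
    refine Br3A.ind hg hΩ h3 h4 h5 (fun f => ?_) (hv.comp Subtype.val Subtype.val_injective)
    obtain ⟨a, ha, b, hb', h7, h8⟩ := hF _ ⟨⟨i, rfl⟩, h2⟩ f
    obtain ⟨a, rfl⟩ := (h6 a).1 ha
    obtain ⟨b, rfl⟩ := (h6 b).1 hb'
    exact ⟨a, b, h7, h8⟩

end Pool.Agent.MP_e8e0b6_ag.R2

end Part4

section Part5

-- part 5: Br4

/-!
The family is locally factorial with integral fibres.
-/

set_option autoImplicit false

namespace Pool.Agent.MP_e8e0b6_ag.R2

open Pool.Agent.MP_79c67d_ag Pool.Agent.MP_20d318_ag Pool.Agent.MP_20d318_ag.AG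
  Pool.Agent.MP_20d318_ag.BV Pool.Agent.MP_20d318_ag.CB

namespace Br4A

variable {k F : Type} [Field k] [Field F] [Algebra k F] {O A : Subalgebra k F}

/-- A point is flat over its chart. -/
theorem flat_of (h : O ∈ Pts A) : (Subalgebra.inclusion h.2.1).toRingHom.Flat := by
  let _ : Algebra A O := (Subalgebra.inclusion h.2.1).toRingHom.toAlgebra
  let N : Submonoid A :=
    { carrier := {b | IsU O (b : F)}
      mul_mem' := fun ha hb => ha.mul hb
      one_mem' := isU_one }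
  have : IsLocalization N O := by
    refine (isLocalization_iff _ _).2 ⟨fun b => (isU_iff_isUnit _).1 b.2, fun f => ?_,
      fun {a b} e => ⟨1, ?_⟩⟩
    · obtain ⟨a, ha, b, hb, hu, e⟩ := h.2.2 f f.2
      refine ⟨(⟨a, ha⟩, ⟨⟨b, hb⟩, hu⟩), Subtype.ext ?_⟩
      change (f : F) * b = a
      rw [e, div_mul_cancel₀ _ hu.ne]
    · rw [Subalgebra.inclusion_injective h.2.1 e]
  exact IsLocalization.flat O N

end Br4A

theorem br4_stmt (h1 : UfdsStmt) (h2 : FibrStmt) : Br4Stmt := by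
  intro k A F _ _ _ _ _ _ _ N 𝓡 g h hA hE hF
  have hb : Function.Bijective g.rangeRestrict.toRingHom :=
    ⟨fun a b e => hE.inj (congrArg Subtype.val e), g.rangeRestrict_surjective⟩
  have hC : Algebra.Smooth k g.range := .of_equiv (AlgEquiv.ofInjective g hE.inj)
  have key : ∀ j ∈ nz h, ((Subalgebra.inclusion (le_sup_left : g.range ≤ ch g.range (nz h) j)
      ).toRingHom.comp g.rangeRestrict.toRingHom).Smooth := by
    rintro _ ⟨⟨i, rfl⟩, hi⟩
    obtain ⟨θ, t1, t2, -, t3⟩ := hE.emb i hi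
    let e : 𝓡.B i →+* ch g.range (nz h) (h i) := θ.codRestrict _ fun b => (t3 _).2 ⟨b, rfl⟩
    have he : Function.Bijective e := ⟨fun a b e => t1 (congrArg Subtype.val e), fun z => by
      obtain ⟨b, hb⟩ := (t3 z).1 z.2
      exact ⟨b, Subtype.ext hb⟩⟩
    have e1 : e.comp (algebraMap A (𝓡.B i)) = (Subalgebra.inclusion (le_sup_left :
        g.range ≤ ch g.range (nz h) (h i))).toRingHom.comp g.rangeRestrict.toRingHom :=
      RingHom.ext fun a => Subtype.ext (t2 a)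
    exact e1 ▸ (RingHom.smooth_algebraMap.2 (𝓡.sm i)).comp (RingHom.Smooth.of_bijective he)
  refine ⟨(Set.finite_range h).subset fun _ h => h.1, hE.ne.elim fun i hi => ⟨_, ⟨i, rfl⟩, hi⟩,
    fun _ h => h.2, hE.frac, Algebra.FiniteType.isNoetherianRing k _, h1 k F _ hC, ?_,
    fun R hR => ?_, ?_⟩
  · rintro O ⟨j, hj, hO⟩
    refine h1 k F _ (RingHom.smooth_algebraMap.1 ?_) O hO
    have e1 : ((Subalgebra.inclusion (le_sup_left : g.range ≤ ch g.range (nz h) j)
        ).toRingHom.comp g.rangeRestrict.toRingHom).comp (algebraMap k A) = algebraMap k _ :=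
      RingHom.ext fun c => Subtype.ext (g.commutes c)
    exact e1 ▸ (RingHom.smooth_algebraMap.2 hA).comp (key j hj)
  · have hg : ∀ a, g a ∈ R := fun a => hR.2.1 ⟨a, rfl⟩
    have := hR.1
    let p : Ideal A := (IsLocalRing.maximalIdeal R).comap (g.toRingHom.codRestrict R hg)
    have : p.IsPrime := Ideal.comap_isPrime _ _
    obtain ⟨M, _, _, _, _, h', h3, -⟩ := hF (AlgebraicClosure p.ResidueField)
    obtain ⟨ξ, -, h4, -⟩ := h2 k A F (AlgebraicClosure p.ResidueField) M N 𝓡 g h h' R hE h3 hR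
      fun a => by
        rw [IsScalarTower.algebraMap_apply A p.ResidueField, _root_.map_ne_zero, Ne,
          Ideal.algebraMap_residueField_eq_zero]
        exact (isU_iff_isUnit (⟨g a, hg a⟩ : R)).trans not_not.symm
    exact ⟨ξ, h4⟩
  · rintro O ⟨j, hj, hO⟩ hle
    exact (RingHom.Flat.comp_iff_of_bijective_right hb).1
      ((key j hj).flat.comp (Br4A.flat_of hO))

end Pool.Agent.MP_e8e0b6_ag.R2

end Part5

section Part6

-- part 6: Br5

/-!
The closed fibres of a smooth projective family of rational surfaces.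
-/

set_option autoImplicit false

namespace Pool.Agent.MP_e8e0b6_ag.R2

open Pool.Agent.MP_79c67d_ag Pool.Agent.MP_20d318_ag Pool.Agent.MP_20d318_ag.AG
  Pool.Agent.MP_20d318_ag.BV Pool.Agent.MP_20d318_ag.CB

namespace Br5A

theorem res {k F : Type} [Field k] [Field F] [Algebra k F] {R : Subalgebra k F}
    (hR : IsLocalRing R) (rat : RatPt R) : ∃ ρ : R →ₐ[k] k, LocHom R ρ := by
  have hb : Function.Bijective (Algebra.ofId k (IsLocalRing.ResidueField R)) :=
    ⟨(algebraMap k _).injective, fun x => by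
      obtain ⟨a, rfl⟩ := resid_surj x
      obtain ⟨c, hc⟩ := rat a a.2
      have := ((resid_loc (O := R)).eq_zero_iff hc.1).2 hc
      rw [evO_sub _ a.2 (R.algebraMap_mem c), evO_coe, evO_const, sub_eq_zero] at this
      exact ⟨c, this.symm⟩⟩
  exact ⟨_, (resid_loc (O := R)).comp (AlgEquiv.ofBijective _ hb).symm.toAlgHom⟩

end Br5A

theorem br5_stmt (h1 : Mk1Stmt) (h2 : Mk2Stmt) (h3 : FibrStmt) (h4 : LzStmt) (h5 : IndStmt)
    (h6 : RedtStmt) : Br5Stmt := by
  intro k A F _ _ _ _ _ _ _ N 𝓡 g h em fbs fm R hR rat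
  obtain ⟨ρ₀, l₀⟩ := Br5A.res hR.1 rat
  have hg : ∀ a, g a ∈ R := fun a => hR.2.1 ⟨a, rfl⟩
  let e : A →ₐ[k] k := ρ₀.comp (g.codRestrict R hg)
  let : Algebra A k := e.toRingHom.toAlgebra
  obtain ⟨M, _, _, _, _, h', fb, tw⟩ := fbs k
  obtain ⟨ξ, ρ, fib, lh, ha, hc⟩ := h3 k A F k M N 𝓡 g h h' R em fb hR fun a =>
    ⟨fun u => (evO_of_mem ρ₀ (hg a)) ▸ evO_ne ρ₀ u, l₀ ⟨g a, hg a⟩⟩
  let ρ' : ξ →ₐ[k] M := ⟨ρ, fun c => by
    have := ha (algebraMap k A c) (fib.dom.1 (hg _))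
    rw [IsScalarTower.algebraMap_apply A k M, show algebraMap A k (algebraMap k A c) = c from
      e.commutes c] at this
    exact (congrArg ρ (Subtype.ext (g.commutes c).symm)).trans this⟩
  obtain ⟨I, _, S, eT, mk⟩ := h1 k M _ tw
  have fR := (h4 k F _ R (nz h) ⟨hR.2.1, hR.2.2⟩).2.2 fm
  have eq := eT.trans (h6 k F M N R ξ ρ' h h' rat fib lh fb.ne fun i hi => ⟨(hc i hi).1, fun l => by
    obtain ⟨m, hm⟩ := (hc i hi).2 l
    exact ⟨m, (evO_of_mem ρ' m).trans hm⟩⟩)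
  refine ⟨M, _, _, I, _, ξ, ρ', S, fR, hR.1, rat, fib, lh, fun m => ?_,
    h5 k F M R ξ ρ' fib.dom.1 hR.1 rat fib.dom lh (fR.flat ξ fib.mem _), mk, eq⟩
  obtain ⟨O, -, hO⟩ := eq ▸ (h2 k M I S mk).all.a1.nice.toFine.top
  obtain ⟨a, -, rfl⟩ : m ∈ red ξ ρ' O := hO ▸ Algebra.mem_top
  exact ⟨a, rfl⟩

end Pool.Agent.MP_e8e0b6_ag.R2

end Part6

section Part7

-- part 7: Br6

/-!
The family is glued from the charts inside the function field.
-/

set_option autoImplicit false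

open Polynomial AlgebraicGeometry CategoryTheory Limits TensorProduct

namespace Pool.Agent.MP_e8e0b6_ag.R2

open Pool.Agent.MP_79c67d_ag Pool.Agent.MP_20d318_ag Pool.Agent.MP_20d318_ag.AG
  Pool.Agent.MP_20d318_ag.BV Pool.Agent.MP_20d318_ag.CB

attribute [local instance] MvPolynomial.gradedAlgebra

namespace Br6A

theorem isIso_sp {B C : Type} [CommRing B] [CommRing C] {φ : B →+* C}
    (h : Function.Bijective φ) : IsIso (sp φ) :=
  have : IsIso (CommRingCat.ofHom φ) := (RingEquiv.ofBijective φ h).toCommRingCatIso.isIso_hom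
  inferInstance

variable {k A : Type} [Field k] [CommRing A] [Algebra k A] {N : ℕ} {X S : Scheme.{0}}
  {f : S ⟶ Spec (.of k)} {π : X ⟶ S} {e : X ⟶ projSpace k N} {σ : Spec (.of A) ⟶ S}

theorem ext (hP : Pf f π e) {T : Scheme.{0}} {a b : T ⟶ pullback π σ}
    (h1 : a ≫ pullback.snd π σ = b ≫ pullback.snd π σ)
    (h2 : a ≫ pullback.fst π σ ≫ e = b ≫ pullback.fst π σ ≫ e) : a = b := by
  have := hP.cl
  refine pullback.hom_ext ((cancel_mono (pullback.lift e π hP.ov)).1 (pullback.hom_ext ?_ ?_)) h1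
  · simpa only [Category.assoc, pullback.lift_fst] using h2
  · simp only [Category.assoc, pullback.lift_snd, pullback.condition]
    rw [← Category.assoc, h1, Category.assoc]

theorem cst_eq (hP : Pf f π e) (hσ : σ ≫ f = sp (algebraMap k A)) {B : Type} [CommRing B]
    [Algebra A B] {j : Spec (.of B) ⟶ pullback π σ}
    (hb : j ≫ pullback.snd π σ = sp (algebraMap A B)) {i : Fin (N + 1)} {ρ : Pj.Ch k i →+* B}
    (hρ : sp ρ ≫ Pj.pchart k i = j ≫ pullback.fst π σ ≫ e) (a : k) :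
    ρ (Pj.cst _ a) = algebraMap A B (algebraMap k A a) := by
  have h : sp (ρ.comp (Pj.cst (MvPolynomial.X i))) =
      sp ((algebraMap A B).comp (algebraMap k A)) := by
    rw [← sp_comp, ← Pj.pchart_str, ← Category.assoc, hρ, Category.assoc, Category.assoc, hP.ov,
      pullback.condition_assoc, hσ, ← Category.assoc, hb, sp_comp]
  exact DFunLike.congr_fun (sp_inj h) a

end Br6A

open Br6A in
theorem br6_stmt : Br6Stmt := by
  intro k _ _ _ N X S f π e hP A F _ _ _ _ σ 𝓡 j g h hσ hc hE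
  choose ρ hρ hr using hc.co
  choose θ hinj hg hθ hch using hE.emb
  let G : MvPolynomial (Fin (N + 1)) k →+* F := MvPolynomial.eval₂Hom (algebraMap k F) h
  have hG : ∀ l, G (MvPolynomial.X l) = h l := fun l => MvPolynomial.eval₂Hom_X' _ _ l
  have hu : ∀ i, h i ≠ 0 → IsUnit (G (MvPolynomial.X i)) := fun i hi => by
    rw [hG]; exact hi.isUnit
  have h1 : ∀ i (hi : h i ≠ 0), (θ i hi).comp (ρ i) = Pj.aw G _ (hu i hi) := fun i hi =>
    Pj.ch_ext (fun a => by
      rw [RingHom.comp_apply, cst_eq hP hσ (hc.base i) (hρ i), hg, AlgHom.commutes, Pj.aw_cst]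
      exact (MvPolynomial.eval₂Hom_C _ _ a).symm) fun l => by
      rw [RingHom.comp_apply, hr, hθ, div_eq_iff hi, ← hG i, Pj.aw_rat, hG]
  have h2 : ∀ i (hi : h i ≠ 0), (sp (θ i hi) ≫ j i) ≫ pullback.snd π σ = sp (g : A →+* F) :=
    fun i hi => by
      rw [Category.assoc, hc.base, sp_comp]
      exact congrArg sp (RingHom.ext (hg i hi))
  have h3 : ∀ i (hi : h i ≠ 0) i' (hi' : h i' ≠ 0),
      sp (θ i hi) ≫ j i = sp (θ i' hi') ≫ j i' := fun i hi i' hi' =>
    ext hP ((h2 i hi).trans (h2 i' hi').symm) (by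
      rw [Category.assoc, Category.assoc, ← hρ, ← hρ, sp_comp_assoc, sp_comp_assoc, h1, h1]
      exact Pj.aw_chart G _ _)
  obtain ⟨i₀, hi₀⟩ := hE.ne
  have hx : ∀ a : nz h, ∃ i, h i = a := fun a => a.2.1
  choose x hx using hx
  have hx0 : ∀ a : nz h, h (x a) ≠ 0 := fun a => (hx a).symm ▸ a.2.2
  have hm : ∀ (a : nz h) z, z ∈ ch g.range (nz h) a ↔ z ∈ Set.range (θ (x a) (hx0 a)) :=
    fun a z => by rw [← hch, hx]
  let φ : ∀ a : nz h, 𝓡.B (x a) →+* ch g.range (nz h) a := fun a =>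
    (θ (x a) (hx0 a)).codRestrict _ fun b => (hm a _).2 ⟨b, rfl⟩
  have hφ : ∀ a, IsIso (sp (φ a)) := fun a => isIso_sp
    ⟨fun b c hbc => hinj _ _ (congrArg Subtype.val hbc), fun z => by
      obtain ⟨b, hb⟩ := (hm a z).1 z.2
      exact ⟨b, Subtype.ext hb⟩⟩
  have := hP.sep
  have := hP.sm
  refine ⟨sp (θ i₀ hi₀) ≫ j i₀, fun a => sp (φ a) ≫ j (x a), hE.inj,
    isSeparated_of (pullback.snd π σ), inferInstance, fun a => ?_, fun y => ?_, h2 i₀ hi₀,
    fun a => ?_⟩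
  · have := hφ a
    have := hc.opn (x a)
    infer_instance
  · obtain ⟨i, hi⟩ := Pj.pchart_cover ((pullback.fst π σ ≫ e) y)
    obtain ⟨p, rfl⟩ := hc.rng i y hi
    have hi0 : h i ≠ 0 := fun h0 => by
      have := hE.zero i h0
      exact (p : PrimeSpectrum (𝓡.B i)).2.ne_top (Subsingleton.elim _ _)
    let a : nz h := ⟨h i, ⟨i, rfl⟩, hi0⟩
    have e1 : 𝓡.r i (x a) = 1 := hinj i hi0 (by rw [hθ, map_one, hx, div_self hi0])
    let G' := MvPolynomial.eval₂Hom ((ρ i).comp (Pj.cst (MvPolynomial.X i))) (ρ i ∘ Pj.rat k i)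
    have u1 : IsUnit (G' (MvPolynomial.X i)) := by simp [G', Pj.rat_self]
    have u2 : IsUnit (G' (MvPolynomial.X (x a))) := by simp [G', hr, e1]
    have e2 : j i ≫ pullback.fst π σ ≫ e = sp (Pj.aw G' _ u2) ≫ Pj.pchart k (x a) := by
      rw [← hρ, ← Pj.aw_chart G' u1 u2, Pj.aw_self]
    obtain ⟨z, hz⟩ := hc.rng (x a) (j i p) ⟨sp (Pj.aw G' _ u2) p, by
      rw [← Scheme.Hom.comp_apply, ← e2, Scheme.Hom.comp_apply]⟩
    have := hφ a
    obtain ⟨w, rfl⟩ := (sp (φ a)).surjective z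
    exact ⟨a, w, by rw [Scheme.Hom.comp_apply, hz]⟩
  · rw [sp_comp_assoc]
    exact h3 _ (hx0 a) _ hi₀

end Pool.Agent.MP_e8e0b6_ag.R2

end Part7
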