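import Pool.Agent.MP_e8e0b6_ag.R2.SpecS

section Part1

-- part 1: Oi

/-!
An affine open subset of a family.
-/

set_option autoImplicit false

open Polynomial AlgebraicGeometry CategoryTheory

namespace Pool.Agent.MP_e8e0b6_ag.R2

open Pool.Agent.MP_79c67d_ag Pool.Agent.MP_20d318_ag Pool.Agent.MP_20d318_ag.AG
  Pool.Agent.MP_20d318_ag.BV Pool.Agent.MP_20d318_ag.CB

namespace OiA

variable {k F L : Type} [Field k] [Field F] [Field L] [Algebra k F] {B D P : Subalgebra k F}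
  {G : Set F}

/-- The localisation at a prime. -/
def lq (B : Subalgebra k F) (p : Ideal B) [p.IsPrime] : Subalgebra k F :=
  { locS (B.val : B →+* F) p with
    algebraMap_mem' := fun c => map_mem_locS (r := (B.val : B →+* F)) (algebraMap k B c) }

variable {p : Ideal B} [p.IsPrime]

theorem isU_lq {x : B} : IsU (lq B p) x ↔ x ∉ p :=
  Iff.trans ⟨fun h => ⟨h.2.1, h.1, h.2.2⟩, fun h => ⟨h.2.1, h.1, h.2.2⟩⟩
    (un_locS (r := (B.val : B →+* F)) Subtype.val_injective)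

theorem lq_pts : lq B p ∈ Pts B :=
  ⟨loc_iff.1 (loc_locS (r := (B.val : B →+* F)) (p := p) Subtype.val_injective),
    fun x hx => map_mem_locS (r := (B.val : B →+* F)) ⟨x, hx⟩,
    fun _ ⟨a, s, hs, e⟩ => ⟨a, a.2, s, s.2, isU_lq.2 hs, eq_div_of_mul_eq (isU_lq.2 hs).ne e⟩⟩

/-- Homomorphisms to a field extend to the localisation. -/
theorem extd (χ : B →+* L) (h : ∀ s ∉ p, χ s ≠ 0) : ∃ χ' : lq B p →+* L,
    χ'.comp (Subalgebra.inclusion (lq_pts (p := p)).2.1 : B →+* lq B p) = χ := by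
  let _ := (Subalgebra.inclusion (lq_pts (p := p)).2.1 : B →+* lq B p).toAlgebra
  have : IsLocalization.AtPrime (lq B p) p :=
    ⟨fun y => (isU_iff_isUnit _).1 (isU_lq.2 y.2), fun ⟨z, a, s, hs, e⟩ =>
      ⟨(a, ⟨s, hs⟩), Subtype.ext e⟩, fun h => ⟨1, by
        rw [Subalgebra.inclusion_injective lq_pts.2.1 h]⟩⟩
  exact ⟨_, IsLocalization.lift_comp (M := p.primeCompl) fun y => (h y y.2).isUnit⟩

/-- A basic open neighbourhood on which finitely many functions are regular. -/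
theorem nbh (hP : P ∈ Pts D) (hG : G.Finite) (h : ∀ c ∈ G, c ∈ P) :
    ∃ (W : Subalgebra k F) (hW : D ≤ W), W ≤ P ∧ (∀ c ∈ G, c ∈ W) ∧
      IsOpenImmersion (sp (Subalgebra.inclusion hW : D →+* W)) := by
  obtain ⟨b, hb, hu, hc⟩ : ∃ b ∈ D, IsU P b ∧ ∀ c ∈ G, c * b ∈ D := by
    induction G, hG using Set.Finite.induction_on with
    | empty => exact ⟨1, D.one_mem, isU_one, fun _ h => h.elim⟩
    | @insert c G _ _ ih =>
      obtain ⟨b, hb, hu, hc⟩ := ih fun c hc => h c (Set.mem_insert_of_mem _ hc)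
      obtain ⟨x, hx, y, hy, hv, e⟩ := hP.2.2 c (h c (Set.mem_insert _ _))
      refine ⟨b * y, D.mul_mem hb hy, hu.mul hv, ?_⟩
      rintro z (rfl | hz)
      · rw [e, mul_left_comm, div_mul_cancel₀ _ hv.ne]
        exact D.mul_mem hb hx
      · rw [← mul_assoc]
        exact D.mul_mem (hc z hz) hy
  let W : Subalgebra k F :=
    { carrier := {f | ∃ n : ℕ, f * b ^ n ∈ D}
      mul_mem' := fun {x y} ⟨m, hm⟩ ⟨n, hn⟩ => ⟨m + n, by
        convert D.mul_mem hm hn using 1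
        ring⟩
      add_mem' := fun {x y} ⟨m, hm⟩ ⟨n, hn⟩ => ⟨m + n, by
        convert D.add_mem (D.mul_mem hm (D.pow_mem hb n)) (D.mul_mem hn (D.pow_mem hb m)) using 1
        ring⟩
      algebraMap_mem' := fun c => ⟨0, by simp⟩ }
  have hW : D ≤ W := fun x hx => ⟨0, by simpa using hx⟩
  refine ⟨W, hW, fun x ⟨n, hn⟩ => ?_, fun c h => ⟨1, by simpa using hc c h⟩, ?_⟩
  · have := (hu.pow n).div_mem (hP.2.1 hn)
    rwa [mul_div_cancel_right₀ _ (hu.pow n).ne] at this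
  · let _ := (Subalgebra.inclusion hW : D →+* W).toAlgebra
    have : IsLocalization.Away (⟨b, hb⟩ : D) W := IsLocalization.Away.mk _
      ((isU_iff_isUnit _).1 ⟨hu.ne, hW hb, 1, by
        change b⁻¹ * b ^ 1 ∈ D
        simp [hu.ne]⟩)
      (fun ⟨z, n, hn⟩ => ⟨n, ⟨_, hn⟩, rfl⟩)
      fun x y h => ⟨0, by rw [Subalgebra.inclusion_injective hW h]⟩
    exact IsOpenImmersion.of_isLocalization (⟨b, hb⟩ : D)

end OiA

open OiA in
theorem oi_stmt : OiStmt := by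
  intro k A F _ _ _ _ _ g H Y q η j lk B G hG hB _ hX
  have := lk.sep
  have := lk.ft
  have hg : g.range ≤ B := hB ▸ le_sup_left
  obtain ⟨Φ, -, hΦ⟩ := exists_glue (r := (B.val : B →+* F)) Subtype.val_injective
    (sp ((g : A →+* F).codRestrict B fun a => hg ⟨a, rfl⟩)) q η
    (by rw [lk.base, sp_comp]; rfl) fun p _ => by
      obtain ⟨a, ha, h⟩ := hX (lq_pts (p := p))
      refine ⟨sp (Subalgebra.inclusion h.2.1 : ch g.range H a →+* lq B p) ≫ j ⟨a, ha⟩, ?_⟩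
      rw [← lk.gen ⟨a, ha⟩]
      exact sp_comp_assoc _ _ _
  have key : ∀ (p : Ideal B) [p.IsPrime], ∃ (W : Subalgebra k F) (hW : B ≤ W), W ≤ lq B p ∧
      IsOpenImmersion (sp (Subalgebra.inclusion hW : B →+* W) ≫ Φ) := fun p _ => by
    obtain ⟨a, ha, h⟩ := hX (lq_pts (p := p))
    obtain ⟨W, h1, h2, h3, h4⟩ := nbh h hG fun c hc =>
      lq_pts.2.1 (hB ▸ (le_sup_right : _ ≤ g.range ⊔ _) (Algebra.subset_adjoin hc))
    have hW : B ≤ W := hB ▸ sup_le (le_sup_left.trans h1) (Algebra.adjoin_le h3)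
    have := lk.opn ⟨a, ha⟩
    refine ⟨W, hW, h2, ?_⟩
    rw [ext_sp (r := (W.val : W →+* F)) Subtype.val_injective
      (g := sp (Subalgebra.inclusion hW : B →+* W) ≫ Φ)
      (g' := sp (Subalgebra.inclusion h1 : ch g.range H a →+* W) ≫ j ⟨a, ha⟩) (by
        rw [sp_comp_assoc, sp_comp_assoc]
        exact hΦ.trans (lk.gen ⟨a, ha⟩).symm)]
    infer_instance
  refine ⟨Φ, T.isOpenImmersion_of_local Φ (fun L _ χ χ' hχ e => ?_) fun w => ?_, hΦ⟩
  · have := RingHom.ker_isPrime χ'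
    obtain ⟨W, hW, h1, h2⟩ := key (RingHom.ker χ')
    obtain ⟨ψ, rfl⟩ := extd (p := RingHom.ker χ') χ fun s hs h =>
      hs (by rw [hχ (h.trans (map_zero χ).symm)]; exact zero_mem _)
    obtain ⟨ψ', h3⟩ := extd (p := RingHom.ker χ') χ' fun s hs => hs
    have h4 := sp_cancel (sp (Subalgebra.inclusion hW : B →+* W) ≫ Φ)
      (ρ := ψ.comp (Subalgebra.inclusion h1 : W →+* lq B (RingHom.ker χ')))
      (ρ' := ψ'.comp (Subalgebra.inclusion h1 : W →+* lq B (RingHom.ker χ'))) (by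
        rw [sp_comp_assoc, sp_comp_assoc]
        exact e.trans (congrArg (sp · ≫ Φ) h3.symm))
    exact (congrArg (·.comp (Subalgebra.inclusion hW : B →+* W)) h4).trans h3
  · obtain ⟨W, hW, h1, h2⟩ := key w.asIdeal
    have := (lq_pts (p := w.asIdeal)).1
    refine ⟨W, inferInstance, _, h2, sp (Subalgebra.inclusion h1 : W →+* lq B w.asIdeal)
      (IsLocalRing.closedPoint (lq B w.asIdeal)), ?_⟩
    rw [Scheme.Hom.comp_apply]
    refine congrArg Φ (PrimeSpectrum.ext (Ideal.ext fun x => ?_))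
    exact (not_congr ((isU_iff_isUnit _).symm.trans isU_lq)).trans not_not

end Pool.Agent.MP_e8e0b6_ag.R2

end Part1

section Part2

-- part 2: Par

/-! Row PAR: cells and a section. -/

set_option autoImplicit false

open Polynomial AlgebraicGeometry CategoryTheory

namespace Pool.Agent.MP_e8e0b6_ag.R2

open Pool.Agent.MP_79c67d_ag Pool.Agent.MP_20d318_ag Pool.Agent.MP_20d318_ag.AG
  Pool.Agent.MP_20d318_ag.BV Pool.Agent.MP_20d318_ag.CB

theorem Par.et_poly {k A : Type} [Field k] [CommRing A] [Algebra k A] (h : T.Et k A) :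
    T.Et k A[X] := by
  obtain ⟨d, z, hz⟩ := T.Multi.et_mv h 1
  let e : MvPolynomial (Fin 1) A ≃ₐ[k] A[X] :=
    (MvPolynomial.uniqueAlgEquiv A (Fin 1)).restrictScalars k
  exact ⟨d, e.toAlgHom.comp z,
    RingHom.Etale.stableUnderComposition _ _ hz (RingHom.Etale.of_bijective e.bijective)⟩

theorem par_stmt (h1 : TsenStmt) (h2 : AtsStmt) (h3 : PtsStmt) (h4 : LneStmt) (h5 : SeccStmt)
    (h6 : CellStmt) : ParStmt := by
  intro k A F Ω E J _ _ _ _ _ _ _ _ _ _ _ _ _ _ _ _ g x H μ S' Y q η j s₀ hA hT hL hs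
  obtain ⟨a, θ, -, hθ⟩ := h3 k A[X] F g H Y q η j hL (FractionRing A)
    (sp (algebraMap A (FractionRing A)) ≫ s₀)
    ((algebraMap A (FractionRing A)).comp constantCoeff) (by rw [Category.assoc, hs, sp_comp])
  let θ' : ch g.range H a →ₐ[k] FractionRing A :=
    { θ with
      commutes' := fun c => by
        have h : g (algebraMap k A[X] c) ∈ ch g.range H a := by
          rw [g.commutes]; exact Subalgebra.algebraMap_mem _ c
        have := hθ _ h
        rw [show (⟨_, h⟩ : ch g.range H a) = algebraMap k _ c from Subtype.ext (g.commutes c)]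
          at this
        refine this.trans ?_
        simp [IsScalarTower.algebraMap_apply k A (FractionRing A)] }
  have hR := h1 k A F Ω E J g H μ S' a θ' hT a.2 fun p h => (hθ p h).trans (by
    simp [coeff_zero_eq_eval_zero])
  have := hT.sm
  have : Algebra.Smooth A A[X] := ⟨inferInstance, inferInstance⟩
  have : Algebra.Smooth k A[X] := .comp k A _
  have : CharZero Ω := charZero_of_injective_algebraMap (algebraMap k Ω).injective
  obtain ⟨γ, hγ, h⟩ := h2 k F Ω E J g.range H μ S' (hT.uni F μ g.range H rfl le_rfl hT.gc.base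
    (.of_equiv (AlgEquiv.ofInjective g hT.inj)) hT.fm.frac) hR
  exact ⟨h6 k A[X] F g H Y q η j (Par.et_poly hA) hL hT.fm
      fun e => (h _ (lp_pts hT.inj) (lp_rat hT.inj)).2,
    h5 k A F g x H Y q η j hA hL (h4 k A F g x H γ hA hT.inj hT.fm hγ
      fun e => (h _ (lp_pts hT.inj) (lp_rat hT.inj)).1)⟩

end Pool.Agent.MP_e8e0b6_ag.R2

end Part2

section Part3

-- part 3: PtsR

/-! Points with values in a local ring lie in a chart. -/

set_option autoImplicit false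

open AlgebraicGeometry CategoryTheory IsLocalRing

namespace Pool.Agent.MP_e8e0b6_ag.R2

theorem pts_stmt : PtsStmt := by
  intro k A F _ _ _ _ _ g H Y q η j h T _ _ y e hy
  obtain ⟨a, ha⟩ := h.cov (y (closedPoint T))
  have := h.opn a
  obtain ⟨θ, hθ⟩ := exists_factor y (j a) ha
  obtain ⟨ψ, hψ⟩ := sp_surj (j a ≫ q)
  have h1 : ((ch g.range H a).val : ch g.range H a →+* F).comp ψ = (g : A →+* F) := sp_inj (by
    rw [← sp_comp, hψ, ← Category.assoc, h.gen a, h.base])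
  have h2 : θ.comp ψ = e := sp_inj (by rw [← sp_comp, hψ, ← Category.assoc, hθ, hy])
  refine ⟨a, θ, hθ, fun p hp => ?_⟩
  rw [← h2, RingHom.comp_apply]
  congr 1
  exact Subtype.ext (DFunLike.congr_fun h1 p).symm

end Pool.Agent.MP_e8e0b6_ag.R2

end Part3

section Part4

-- part 4: Scl

/-!
Sections over a localisation of the base.
-/

set_option autoImplicit false

namespace Pool.Agent.MP_e8e0b6_ag.R2

open Pool.Agent.MP_79c67d_ag Pool.Agent.MP_20d318_ag Pool.Agent.MP_20d318_ag.AG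
  Pool.Agent.MP_20d318_ag.BV Pool.Agent.MP_20d318_ag.CB

namespace SclA

variable {k F : Type} [Field k] [Field F] [Algebra k F] {C R B : Subalgebra k F} {z : F}

/-- An element of all local rings lies in the ring. -/
theorem mem_of_pts (h : ∀ O ∈ Pts B, z ∈ O) : z ∈ B := by
  by_contra hz
  let I : Ideal B :=
    { carrier := {b | (b : F) * z ∈ B}
      add_mem' := fun {a b} ha hb => by
        show ((a : F) + b) * z ∈ B
        rw [add_mul]
        exact B.add_mem ha hb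
      zero_mem' := by simp
      smul_mem' := fun c a ha => by
        show ((c : F) * a) * z ∈ B
        rw [mul_assoc]
        exact B.mul_mem c.2 ha }
  obtain ⟨m, hm, hle⟩ := Ideal.exists_le_maximal I fun e => hz (by
    have : ((1 : B) : F) * z ∈ B := (Ideal.eq_top_iff_one I).1 e
    simpa using this)
  obtain ⟨O, hO, hU⟩ := exists_loc B {x | ∃ h : x ∈ B, (⟨x, h⟩ : B) ∈ m} ⟨B.zero_mem, m.zero_mem⟩
    (fun ⟨_, h⟩ => hm.ne_top ((Ideal.eq_top_iff_one _).2 h))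
    (fun a ha b hb ⟨_, h1⟩ ⟨_, h2⟩ => ⟨B.add_mem ha hb, m.add_mem h1 h2⟩)
    (fun a ha b hb => ⟨fun ⟨_, h1⟩ => (hm.isPrime.mem_or_mem (x := ⟨a, ha⟩) (y := ⟨b, hb⟩) h1).imp
      (fun h => ⟨ha, h⟩) fun h => ⟨hb, h⟩, fun h1 => ⟨B.mul_mem ha hb, h1.elim
        (fun ⟨_, h⟩ => m.mul_mem_right (⟨b, hb⟩ : B) h) fun ⟨_, h⟩ =>
          m.mul_mem_left (⟨a, ha⟩ : B) h⟩⟩)
  obtain ⟨a, ha, b, hb, u, e⟩ := hO.2.2 z (h O hO)
  refine (hU b hb).1 u ⟨hb, hle (show b * z ∈ B from ?_)⟩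
  rwa [e, mul_div_cancel₀ _ u.1]

/-- Denominators come from the base. -/
theorem den (h : Lz C R) (A : Subalgebra k F) (hz : z ∈ R ⊔ A) :
    ∃ s ∈ C, IsU R s ∧ s * z ∈ C ⊔ A := by
  have l : ∀ s ∈ C, s ∈ C ⊔ A := fun s hs => le_sup_left (a := C) hs
  let T : Subalgebra k F :=
    { carrier := {f | ∃ s ∈ C, IsU R s ∧ s * f ∈ C ⊔ A}
      mul_mem' := fun {a b} ⟨s, hs, u, ha⟩ ⟨t, ht, v, hb⟩ => ⟨s * t, C.mul_mem hs ht, u.mul v, by
        rw [mul_mul_mul_comm]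
        exact mul_mem ha hb⟩
      add_mem' := fun {a b} ⟨s, hs, u, ha⟩ ⟨t, ht, v, hb⟩ => ⟨s * t, C.mul_mem hs ht, u.mul v, by
        rw [show s * t * (a + b) = t * (s * a) + s * (t * b) by ring]
        exact add_mem (mul_mem (l t ht) ha) (mul_mem (l s hs) hb)⟩
      algebraMap_mem' := fun c => ⟨1, C.one_mem, isU_one, by
        rw [one_mul]
        exact Subalgebra.algebraMap_mem _ c⟩ }
  refine (sup_le (fun f hf => ?_) (fun f hf => ⟨1, C.one_mem, isU_one, ?_⟩) : R ⊔ A ≤ T) hz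
  · obtain ⟨a, ha, b, hb, u, rfl⟩ := h.2 f hf
    exact ⟨b, hb, u, by rw [mul_div_cancel₀ _ u.1]; exact l a ha⟩
  · rw [one_mul]
    exact le_sup_right (a := C) hf

theorem common {α : Type} {T : Set α} (hT : T.Finite) (f : α → F) (A : α → Subalgebra k F)
    (h : ∀ t ∈ T, ∃ s ∈ C, IsU R s ∧ s * f t ∈ C ⊔ A t) :
    ∃ s ∈ C, IsU R s ∧ ∀ t ∈ T, s * f t ∈ C ⊔ A t := by
  induction T, hT using Set.Finite.induction_on with
  | empty => exact ⟨1, C.one_mem, isU_one, fun _ h => h.elim⟩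
  | insert _ _ ih =>
    obtain ⟨s, hs, u, h1⟩ := h _ (Set.mem_insert _ _)
    obtain ⟨s', hs', u', h2⟩ := ih fun t ht => h t (Set.mem_insert_of_mem _ ht)
    refine ⟨s * s', C.mul_mem hs hs', u.mul u', ?_⟩
    rintro t (rfl | ht)
    · rw [mul_comm s, mul_assoc]
      exact mul_mem (le_sup_left (a := C) hs') h1
    · rw [mul_assoc]
      exact mul_mem (le_sup_left (a := C) hs) (h2 t ht)

end SclA

theorem scl_stmt (h1 : LzStmt) : SclStmt := by
  intro k F _ _ _ C R H γ fm lz ⟨U, V, hU, hV, h⟩ z hz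
  obtain ⟨s, hs, us, key⟩ := SclA.common (C := C) (R := R)
    (fm.fin.prod ((hU.1.subset (Set.sdiff_subset (t := {0}))).prod hV.1))
    (fun t => z * t.2.2 / t.2.1)
    (fun t => Algebra.adjoin k ((fun a => a / t.1) '' H ∪ (fun a => a / t.2.1) '' U))
    fun ⟨j, u, v⟩ ⟨hj, hu, hv⟩ => SclA.den lz _ (SclA.mem_of_pts fun O hO => by
      have hR : R ≤ O := le_sup_left.trans hO.2.1
      have hA := Algebra.adjoin_le_iff.1 (le_sup_right.trans hO.2.1)
      obtain ⟨O', hO', hd⟩ := exists_ctr hO.1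
        (R2.C.ch_le (j := j) hR fun a ha => hA (Or.inl ⟨a, ha, rfl⟩))
      have m : O' ∈ XX R H := ⟨j, hj, hO'⟩
      obtain ⟨a, b, g1, g2, w⟩ := h O' ((h1 k F C R H lz).1 m)
      have g3 : Gn U O u := gn_of_mem hu.1 hu.2 fun c hc => hA (Or.inr ⟨c, hc, rfl⟩)
      have n1 := g1.ne
      have n2 := g2.ne
      have n3 := g3.ne
      have n4 : γ O' ≠ 0 := fun e => w.1 (by simp [e])
      have e : z * v / u = z * γ O' * (v / b) / (γ O' * a / b) * (a / u) := by field_simp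
      show z * v / u ∈ O
      rw [e]
      exact O.mul_mem (hd.1 (w.div_mem (O'.mul_mem (hz O' m) (g2.1 v hv))))
        ((g1.mono hd.1).unit g3).mem)
  refine ⟨s, hs, us, fun O hO => ?_⟩
  obtain ⟨a, b, g1, g2, w⟩ := h O hO
  obtain ⟨j, hj, hO'⟩ := hO
  obtain ⟨u, hu, g3⟩ := g1.exists_mem
  obtain ⟨v, hv, w'⟩ := g2.2
  have m : s * (z * v / u) ∈ O := (sup_le (le_sup_left.trans hO'.2.1) (Algebra.adjoin_le (by
    rintro _ (⟨c, hc, rfl⟩ | ⟨c, hc, rfl⟩)
    · exact hO'.2.1 (R2.C.div_mem_ch hc)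
    · exact g3.1 c hc)) : _ ≤ O) (key (j, u, v) ⟨hj, ⟨hu, g3.ne⟩, hv⟩)
  have n1 := g1.ne
  have n2 := g2.ne
  have n3 := g3.ne
  have n4 := (div_ne_zero_iff.1 w'.1).1
  have e : s * z * γ O = s * (z * v / u) * (γ O * a / b) * (u / a) / (v / b) := by field_simp
  rw [e]
  exact w'.div_mem (O.mul_mem (O.mul_mem m w.mem) (g3.unit g1).mem)

end Pool.Agent.MP_e8e0b6_ag.R2

end Part4

section Part5

-- part 5: Secb0

/-!
A global coordinate on a family of projective lines over an affine line.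
-/

set_option autoImplicit false

open Polynomial TensorProduct

namespace Pool.Agent.MP_e8e0b6_ag.R2

open Pool.Agent.MP_79c67d_ag Pool.Agent.MP_20d318_ag Pool.Agent.MP_20d318_ag.AG
  Pool.Agent.MP_20d318_ag.BV Pool.Agent.MP_20d318_ag.CB

namespace Secb0A

section
variable {B F ι : Type} [CommRing B] [Field F] [Algebra B F] {w : F}

theorem hinj_of (h : Transcendental B w) : HInj B ![w, 1] := fun d p hp e => by
  have h1 : MvPolynomial.aeval ![(X : B[X]), 1] p = 0 := transcendental_iff.1 h _ (by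
    rw [← AlgHom.comp_apply, MvPolynomial.comp_aeval, ← e]
    congr 2
    funext i
    fin_cases i <;> simp)
  rw [← homogenize_eq_of_isHomogeneous hp h1, homogenize_zero]

theorem tr_of {ψ : Fin 2 → F} (h : HInj B ψ) : Transcendental B (ψ 0 / ψ 1) :=
  transcendental_iff.2 fun p hp => eq_zero_of_homogenize_eq_zero le_rfl
    ((h.div (h.ne 1)) _ _ (isHomogeneous_homogenize p) (by
      rw [aeval_homogenize_of_eq_one le_rfl _ (div_self (h.ne 1))]; exact hp))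

theorem rt_iff {O : Subring F} (h0 : w ≠ 0) : Rt ![w, 1] O ↔ w ∈ O ∨ w⁻¹ ∈ O := by
  simp [Rt, Fin.exists_fin_two, Fin.forall_fin_two, h0, or_comm]

variable [IsDomain B] (𝒜 : Atlas B F ι)

theorem exists_tr (M : Submonoid B) (hM : M ≤ nonZeroDivisors B) (hw : Transcendental B w)
    (h : ∀ O, Loc O → (∀ c, algebraMap B F c ∈ O) → (∀ c ∈ M, Un O (algebraMap B F c)) →
      (𝒜.P O ↔ w ∈ O ∨ w⁻¹ ∈ O)) : ∃ T : Tr (Fin 2) 𝒜, IsLocalization M T.B := by
  have h1 := hinj_of hw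
  have h0 : ∀ c ∈ M, algebraMap B F c ≠ 0 := fun c hc =>
    (map_ne_zero_iff _ h1.inj).2 (nonZeroDivisors.ne_zero (hM hc))
  have hU : ∀ y : M, IsUnit (algebraMap B F y) := fun y => (h0 y y.2).isUnit
  let L := Localization M
  let := (IsLocalization.lift (S := L) hU).toAlgebra
  have : IsScalarTower B L F := .of_algebraMap_eq fun a => (IsLocalization.lift_eq hU a).symm
  have := IsLocalization.flat L M
  have := IsLocalization.isDomain_of_le_nonZeroDivisors L hM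
  have e := IsScalarTower.algebraMap_apply B L F
  let β : BC B F L F := ⟨AlgHom.id _ _, by
    have : tens L (AlgHom.id B F) = IsLocalization.algebraLid M L F := by
      ext y
      have := IsLocalization.tensorProduct_compatibleSMul M L L F
      exact (tens_tmul _ 1 y).trans ((Algebra.smul_def (1 : L) y).symm.trans
        (Algebra.TensorProduct.lidOfCompatibleSMul_tmul B L F 1 y).symm)
    exact this ▸ (IsLocalization.algebraLid M L F).injective, fun ω =>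
      ⟨1 ⊗ₜ ω, 1, fun h => by simpa using congrArg (tens L (AlgHom.id B F)) h, by simp⟩⟩
  refine ⟨⟨L, IsLocalization.injective L hM, F, β, ![w, 1],
    h1.transfer (RingHom.id F) fun _ _ h => h.localization L M, fun O hO hL => ?_⟩,
    (inferInstance : IsLocalization M L)⟩
  refine (h O hO (fun c => e c ▸ hL _) fun c hc => ⟨e c ▸ hL _, h0 c hc, ?_⟩).trans
    (rt_iff (h1.ne 0)).symm
  obtain ⟨u, hu⟩ := IsLocalization.map_units L (⟨c, hc⟩ : M)
  rw [e, ← show (u : L) = algebraMap B L c from hu, ← map_units_inv]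
  exact hL _

variable {k : Type} [Field k] [CharZero k] [IsAlgClosed k] [Algebra k B] [Algebra.Smooth k B]

theorem lt_of (h : ∀ e : B →ₐ[k] k, ∃ (w : F) (s : B), e s ≠ 0 ∧ Transcendental B w ∧ ∀ O, Loc O →
    (∀ c, algebraMap B F c ∈ O) → Un O (algebraMap B F s) → (𝒜.P O ↔ w ∈ O ∨ w⁻¹ ∈ O)) :
    LT (Fin 2) 𝒜 := by
  choose w s hs hw h using h
  have key : ∀ m : Ideal B, m.IsMaximal → ∃ e : B →ₐ[k] k, m = kerPt e := fun m hm =>
    (exists_point m hm.ne_top).imp fun e he => hm.eq_of_le (Ideal.IsPrime.ne_top inferInstance) he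
  refine ⟨fun m hm => ?_, ?_⟩
  · obtain ⟨e, rfl⟩ := key m hm
    obtain ⟨T, hT⟩ := exists_tr 𝒜 _ (kerPt e).primeCompl_le_nonZeroDivisors (hw e)
      fun O hO hB hu => h e O hO hB (hu _ (hs e))
    have := SB.ufd_smooth (k := k) (kerPt e)
    exact ⟨T, (IsLocalization.algEquiv (kerPt e).primeCompl (Localization.AtPrime (kerPt e))
      T.B).toMulEquiv.uniqueFactorizationMonoid this,
      (IsLocalization.map_algebraMap_ne_top_iff_disjoint (kerPt e).primeCompl T.B _).2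
        (Set.disjoint_left.2 fun _ h => h),
      fun c hc => IsLocalization.map_units T.B (⟨c, hc⟩ : (kerPt e).primeCompl)⟩
  · choose T hT using fun e => exists_tr 𝒜 (.powers (s e))
      (powers_le_nonZeroDivisors_of_noZeroDivisors fun h0 => hs e (by rw [h0, map_zero])) (hw e)
      fun O hO hB hu => h e O hO hB (hu _ (Submonoid.mem_powers _))
    have h1 : Ideal.span (Set.range s) = ⊤ := by
      by_contra h1
      obtain ⟨e, he⟩ := exists_point (k := k) _ h1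
      exact hs e (he (Ideal.subset_span ⟨e, rfl⟩))
    obtain ⟨t, h2, h3⟩ := (Ideal.span_eq_top_iff_finite _).1 h1
    choose f hf using fun a : t => h2 a.2
    refine ⟨t, inferInstance, fun a => T (f a), fun a => IsLocalization.isAlgebraic _
      (.powers (s (f a))), fun m hm => ?_⟩
    by_contra! h4
    refine hm.ne_top (top_le_iff.1 (h3 ▸ Ideal.span_le.2 fun a ha => by_contra fun h5 => ?_))
    exact (IsLocalization.map_algebraMap_ne_top_iff_disjoint (.powers (s (f ⟨a, ha⟩))) _ _).2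
      ((Ideal.disjoint_powers_iff_notMem_of_isPrime _).2 (by rwa [hf])) (h4 ⟨a, ha⟩)

end

section
variable {k A F ι : Type} [Field k] [CharZero k] [IsAlgClosed k] [CommRing A] [IsDomain A]
  [Algebra k A] [Field F] [Algebra A[X] F] [Finite ι] [Nonempty ι]

theorem coords (𝒜 : Atlas A[X] F ι) (x : A →ₐ[k] k) (hA : T.Et k A)
    (h : ∀ e : A[X] →ₐ[k] k, ∃ (w : F) (s : A[X]), e s ≠ 0 ∧ Transcendental A[X] w ∧ ∀ O, Loc O →
      (∀ c, algebraMap A[X] F c ∈ O) → Un O (algebraMap A[X] F s) → (𝒜.P O ↔ w ∈ O ∨ w⁻¹ ∈ O)) :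
    ∃ (h : A) (w : F), x h ≠ 0 ∧ Transcendental A[X] w ∧ ∀ O, Loc O →
      (∀ c, algebraMap A[X] F c ∈ O) → Un O (algebraMap A[X] F (C h)) → w ∈ O → 𝒜.P O := by
  obtain ⟨d, z, hz⟩ := hA
  have : Algebra.Smooth k A := by
    algebraize [z.toRingHom]
    have := IsScalarTower.of_algebraMap_eq' z.comp_algebraMap.symm
    have : Algebra.Smooth k (MvPolynomial (Fin d) k) := {}
    exact .comp k (MvPolynomial (Fin d) k) A
  have : Algebra.Smooth A A[X] := {}
  have := Algebra.Smooth.comp k A A[X]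
  have := Algebra.FiniteType.isNoetherianRing k A[X]
  have := isJacobsonRing_of_finiteType (A := k) (B := A[X])
  have H' := lt_of 𝒜 h
  obtain ⟨w, s, hs, hw, hO⟩ := h (SB.basePt x)
  have h0 := hinj_of hw
  have hy : PG A[X] 𝒜.P ![w, 1] := ⟨h0, fun O h1 h2 => (hO O h1 (mem_of_un h2)
    (h2 s fun e => hs (by rw [e, map_zero]))).trans (rt_iff (h0.ne 0)).symm⟩
  have hj : ![w, 1] 1 = 1 := rfl
  have := H'.finite hy hj
  have := H'.flat hy hj
  obtain ⟨m, ψ, h, hx, h1, h2, h3⟩ := SB.exists_frame x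
    (lindel z hz x (Localization.AtPrime (kerPt x))) h0.inj (𝒜.hull ![w, 1])
  obtain rfl : m = 2 := by
    simpa using H'.card hy hj h1 h3 h2 (m := kerPt (SB.basePt x)) inferInstance
      (by simpa [mem_kerPt, SB.basePt_apply])
  obtain ⟨h4, h5⟩ := H'.pc hy hj h1 h3 (C_ne_zero.2 fun e => hx (by simp [e]))
  exact ⟨h, _, hx, tr_of h4, fun O h6 h7 h8 h9 => (h5 O h6 h7 h8).2
    ⟨1, Fin.forall_fin_two.2 ⟨h9, by rw [div_self (h4.ne 1)]; exact O.one_mem⟩⟩⟩

end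

section
variable {k B F : Type} [Field k] [CommRing B] [Field F] [Algebra k B] [Algebra k F]
  {g : B →ₐ[k] F} {e : B →ₐ[k] k} {H : Set F} {w : F}

theorem prin_iff {O : Subalgebra k F} : Prin H O ↔ ∃ j ∈ H, j ≠ 0 ∧ ∀ a ∈ H, a / j ∈ O :=
  ⟨fun h => h.exists_mem.imp fun _ ⟨h1, h2, _, _, h3⟩ =>
    ⟨h1, (div_ne_zero_iff.1 h3.ne).2, h2⟩, fun ⟨_, h1, h2, h3⟩ => ⟨_, gn_of_mem h1 h2 h3⟩⟩

theorem prin_pair {O : Subalgebra k F} (h0 : w ≠ 0) : Prin {w, 1} O ↔ w ∈ O ∨ w⁻¹ ∈ O :=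
  ⟨fun h => by simpa using h.pair, fun h => h.elim
    (fun h => ⟨_, gn_right one_ne_zero (by simpa using h)⟩)
    fun h => ⟨_, gn_left h0 (by simpa using h)⟩⟩

theorem spread (h2 : SprStmt) (hg : Function.Injective g) (hH : H.Finite)
    (hw : Pw (lp g e) H w) : ∃ s, e s ≠ 0 ∧ ∀ O : Subring F, Loc O → (∀ c, g c ∈ O) → Un O (g s) →
      ((∃ j ∈ H, j ≠ 0 ∧ ∀ a ∈ H, a / j ∈ O) ↔ w ∈ O ∨ w⁻¹ ∈ O) := by
  classical
  have h0 : w ≠ 0 := fun h => hw.tr (h ▸ isAlgebraic_zero)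
  have key : ∀ G U : Set F, U.Finite → (∀ O : Subalgebra k F, IsLocalRing O → lp g e ≤ O → G ⊆ O →
      Prin U O) → ∃ s, e s ≠ 0 ∧ ∀ O : Subalgebra k F, IsLocalRing O → g.range ≤ O → ∀ t,
        IsU O (g (s * t)) → G ⊆ O → Prin U O := fun G U hU h => by
    obtain ⟨_, ⟨s, rfl⟩, h3, h4⟩ := h2 k F _ _ G U (lp_lz hg) hU fun O hO hle =>
      h O hO (le_sup_left.trans hle) (Algebra.adjoin_le_iff.1 (le_sup_right.trans hle))
    exact ⟨s, (isU_lp hg).1 h3, fun O hO h5 t h6 h7 => h4 O hO (sup_le h5 (Algebra.adjoin_le h7))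
      (.of_mul (h5 ⟨s, rfl⟩) (h5 ⟨t, rfl⟩) (by simpa using h6))⟩
  have := (hH.subset (Set.sep_subset H fun j => j ≠ 0)).fintype
  choose s hs h3 using fun j : {j ∈ H | j ≠ 0} => key ((fun a => a / j.1) '' H) {w, 1}
    (Set.toFinite _) fun O hO h3 h4 => (prin_pair h0).2 ((hw.iff O hO h3).1
      (prin_iff.2 ⟨j, j.2.1, j.2.2, fun a ha => h4 ⟨a, ha, rfl⟩⟩))
  obtain ⟨s1, h4, h5⟩ := key {w} H hH fun O hO h4 h5 => (hw.iff O hO h4).2 (.inl (h5 rfl))
  obtain ⟨s2, h6, h7⟩ := key {w⁻¹} H hH fun O hO h4 h5 => (hw.iff O hO h4).2 (.inr (h5 rfl))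
  refine ⟨s1 * (s2 * ∏ j, s j), by simp [h4, h6, hs, Finset.prod_ne_zero_iff],
    fun O hO h8 h9 => ?_⟩
  let O' : Subalgebra k F := { O with algebraMap_mem' := fun c => g.commutes c ▸ h8 _ }
  have h10 : IsLocalRing O' := loc_iff.1 hO
  have h11 : g.range ≤ O' := by rintro _ ⟨c, rfl⟩; exact h8 c
  have h12 : IsU O' (g (s1 * (s2 * ∏ j, s j))) := ⟨h9.2.1, h9.1, h9.2.2⟩
  refine ⟨fun ⟨j, h13, h14, h15⟩ => (prin_pair (O := O') h0).1 (h3 ⟨j, h13, h14⟩ O' h10 h11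
    (s1 * s2 * ∏ i ∈ Finset.univ.erase ⟨j, h13, h14⟩, s i) ?_ ?_), fun h => (prin_iff (O := O')).1
      (h.elim (fun h => h5 O' h10 h11 _ h12 (Set.singleton_subset_iff.2 h)) fun h =>
        h7 O' h10 h11 _ (by rwa [mul_left_comm] at h12) (Set.singleton_subset_iff.2 h))⟩
  · rwa [mul_left_comm, Finset.mul_prod_erase _ _ (Finset.mem_univ _), mul_assoc]
  · rintro _ ⟨a, ha, rfl⟩
    exact h15 a ha

end

end Secb0A

open Secb0A in
theorem secb0_stmt (h1 : AtlStmt) (h2 : SprStmt) : Secb0Stmt := by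
  rintro k A κ _ _ _ _ _ _ _ _ g x H _ hA hg hH hH1 hF rfl hP
  let := (g : A[X] →+* κ).toAlgebra
  have : IsScalarTower k A[X] κ := .of_algebraMap_eq fun c => (g.commutes c).symm
  choose w hw using fun e => hP e (by simp)
  choose s hs h3 using fun e => spread h2 hg hH (hw e)
  have h4 : ∀ e, Transcendental A[X] (w e) := fun e =>
    Transcendental.of_ringHom_of_comp_eq (g.codRestrict (lp g e) fun c => range_le_lp ⟨c, rfl⟩)
      (RingHom.id κ) (hw e).tr ((AlgHom.injective_codRestrict _ _ _).2 hg) rfl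
  obtain ⟨𝒜, h5⟩ := h1 A[X] κ H (w (SB.basePt x)) hH hH1 (fun ω => by
    have h5 : ch g.range H 1 ≤ (Algebra.adjoin A[X] H).restrictScalars k := C.ch_le
      (by rintro _ ⟨c, rfl⟩; exact (Algebra.adjoin A[X] H).algebraMap_mem c)
      fun a ha => by simpa using Algebra.subset_adjoin ha
    obtain ⟨a, ha, b, hb, h6, rfl⟩ := hF ω
    exact ⟨a, h5 ha, b, h5 hb, h6, div_mul_cancel₀ a h6⟩) (h4 _) (fun ω => by
    let S := (aeval (w (SB.basePt x)) : A[X][X] →ₐ[A[X]] κ).range.toSubring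
    let K := Subfield.closure (S : Set κ)
    have h5 : ∀ c, g c ∈ K := fun c => Subfield.subset_closure ⟨C c, aeval_C _ _⟩
    obtain ⟨j, -, h6, h7⟩ := (h3 (SB.basePt x) K.toSubring (fun a ha => (em (a = 0)).symm.imp
      (fun h => ⟨ha, h, K.inv_mem ha⟩) fun h => by simpa [h] using Un.one) h5
      ⟨h5 _, (map_ne_zero_iff _ hg).2 fun h => hs _ (by rw [h, map_zero]), K.inv_mem (h5 _)⟩).2
      (.inl (Subfield.subset_closure ⟨X, aeval_X _⟩))
    have h8 : ch g.range H 1 ≤ { K.toSubring with algebraMap_mem' := fun c => g.commutes c ▸ h5 _ } :=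
      C.ch_le (by rintro _ ⟨c, rfl⟩; exact h5 c) fun a ha => by
        have := K.div_mem (h7 a ha) (h7 1 hH1)
        rwa [div_div_div_cancel_right₀ h6] at this
    obtain ⟨a, ha, b, hb, -, h9⟩ := hF ω
    obtain ⟨_, h10, _, h11, rfl⟩ := Subfield.mem_closure_iff.1
      (show ω ∈ K from h9 ▸ K.div_mem (h8 ha) (h8 hb))
    rw [Subring.closure_eq] at h10 h11
    obtain ⟨p, rfl⟩ := h10
    obtain ⟨q, rfl⟩ := h11
    by_cases h12 : q = 0
    · exact ⟨0, 1, one_ne_zero, by simp [h12]⟩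
    · exact ⟨p, q, h12, div_mul_cancel₀ _ fun h => h12 (transcendental_iff.1 (h4 _) q h)⟩)
  have : Finite {j // j ∈ H ∧ j ≠ 0} := hH.subset (Set.sep_subset H fun j => j ≠ 0)
  have : Nonempty {j // j ∈ H ∧ j ≠ 0} := ⟨⟨1, hH1, one_ne_zero⟩⟩
  obtain ⟨h, u, h6, h7, h8⟩ := coords 𝒜 x hA fun e => ⟨w e, s e, hs e, h4 e,
    fun O h6 h7 h8 => (h5 O h7).trans (h3 e O h6 h7 h8)⟩
  refine ⟨h, u, h6, h7.ringHom_of_comp_eq g.rangeRestrict (RingHom.id κ)
    g.rangeRestrict_surjective Function.injective_id rfl, fun O h9 h10 h11 h12 => ?_⟩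
  have h13 : ∀ c, algebraMap A[X] κ c ∈ O.toSubring := fun c => h10 ⟨c, rfl⟩
  exact prin_iff.2 ((h5 _ h13).1 (h8 O.toSubring (loc_iff.2 h9) h13
    ⟨h11.mem, h11.ne, h11.inv_mem⟩ h12))

end Pool.Agent.MP_e8e0b6_ag.R2

end Part5

section Part6

-- part 6: SecbR

/-!
The global coordinate after inverting a function of the base.
-/

set_option autoImplicit false

open Polynomial AlgebraicGeometry CategoryTheory

namespace Pool.Agent.MP_e8e0b6_ag.R2

open Pool.Agent.MP_79c67d_ag Pool.Agent.MP_20d318_ag Pool.Agent.MP_20d318_ag.AG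
  Pool.Agent.MP_20d318_ag.BV Pool.Agent.MP_20d318_ag.CB

namespace SecbA

theorem surj {A E : Type} [CommRing A] [CommRing E] [Algebra A E] (h : A)
    [IsLocalization.Away h E] (p : E[X]) :
    ∃ (n : ℕ) (q : A[X]), p * (C h ^ n : A[X]).map (algebraMap A E) = q.map (algebraMap A E) := by
  let := Polynomial.algebra A E
  have := Polynomial.isLocalization (Submonoid.powers h) E
  rw [Submonoid.map_powers] at this
  obtain ⟨⟨q, _, n, rfl⟩, hq⟩ := IsLocalization.surj (Submonoid.powers (C h : A[X])) p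
  exact ⟨n, q, hq⟩

end SecbA

open SecbA in
theorem secb_stmt (h1 : Secb0Stmt) : SecbStmt := by
  intro k A κ _ _ _ _ _ _ _ _ g x H h het hg hfin hone hfr hx hw
  have h0 : h ≠ 0 := fun e => hx (by rw [e, map_zero])
  have le := powers_le_nonZeroDivisors_of_noZeroDivisors h0
  let E := Localization.Away h
  have : IsDomain E := IsLocalization.isDomain_of_le_nonZeroDivisors _ le
  have hgh : g (C h) ≠ 0 := fun e => h0 (C_eq_zero.1 (hg (by rw [e, map_zero])))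
  let x1 : E →ₐ[k] k := IsLocalization.liftAlgHom (M := .powers h) (f := x) fun y => by
    obtain ⟨_, i, rfl⟩ := y
    exact Ne.isUnit (by rw [map_pow]; exact pow_ne_zero _ hx)
  have hx1 : ∀ a, x1 (algebraMap A E a) = x a := fun a => IsLocalization.lift_eq _ _
  let φ : E →ₐ[k] κ := IsLocalization.liftAlgHom (M := .powers h) (f := g.comp CAlgHom) fun y => by
    obtain ⟨_, i, rfl⟩ := y
    exact Ne.isUnit (by rw [map_pow]; exact pow_ne_zero _ hgh)
  have hφ : ∀ a, φ (algebraMap A E a) = g (C a) := fun a => IsLocalization.lift_eq _ _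
  let g1 : E[X] →ₐ[k] κ := Polynomial.eval₂AlgHom φ (g X) fun _ => Commute.all _ _
  have hg1C : ∀ a, g1 (C a) = φ a := fun a => eval₂_C _ _
  have hg1X : g1 X = g X := eval₂_X _ _
  have hg1 : ∀ p : A[X], g1 (p.map (algebraMap A E)) = g p := fun p => by
    induction p using Polynomial.induction_on with
    | C a => rw [map_C, hg1C, hφ]
    | add p q hp hq => rw [Polynomial.map_add, map_add, map_add, hp, hq]
    | monomial n a ih =>
      rw [pow_succ, ← mul_assoc, Polynomial.map_mul, map_mul, map_mul g, ih, map_X, hg1X]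
  have hu : ∀ n : ℕ, IsUnit ((C h ^ n : A[X]).map (algebraMap A E)) := fun n => by
    rw [Polynomial.map_pow, map_C]
    exact ((IsLocalization.Away.algebraMap_isUnit h).map C).pow n
  have hinj : Function.Injective g1 := by
    rw [injective_iff_map_eq_zero]
    intro p hp
    obtain ⟨n, q, hq⟩ := surj h p
    have h2 : g q = 0 := by rw [← hg1, ← hq, map_mul, hp, zero_mul]
    rw [hg (h2.trans (map_zero g).symm), Polynomial.map_zero] at hq
    exact (hu n).mul_left_eq_zero.1 hq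
  have hle : g.range ≤ g1.range := by
    rintro _ ⟨p, rfl⟩
    exact ⟨p.map (algebraMap A E), hg1 p⟩
  have hlp : ∀ e1 : E[X] →ₐ[k] k, lp g1 e1 =
      lp g (e1.comp (mapAlgHom (IsScalarTower.toAlgHom k A E))) := fun e1 => by
    have he : ∀ p : A[X], (e1.comp (mapAlgHom (IsScalarTower.toAlgHom k A E))) p =
        e1 (p.map (algebraMap A E)) := fun _ => rfl
    ext f
    rw [mem_lp, mem_lp]
    constructor
    · rintro ⟨a, b, hb, hf⟩
      obtain ⟨n, qa, ha⟩ := surj h a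
      obtain ⟨m, qb, hb'⟩ := surj h b
      refine ⟨qa * C h ^ m, qb * C h ^ n, ?_, ?_⟩
      · rw [he, Polynomial.map_mul, ← hb', map_mul, map_mul]
        exact mul_ne_zero (mul_ne_zero hb ((hu m).map e1).ne_zero) ((hu n).map e1).ne_zero
      · rw [map_mul, map_mul, ← hg1 qa, ← hg1 qb, ← ha, ← hb', map_mul, map_mul, hg1, hg1, ← hf]
        ring
    · rintro ⟨a, b, hb, hf⟩
      exact ⟨a.map (algebraMap A E), b.map (algebraMap A E), hb, by rw [hg1, hg1, hf]⟩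
  obtain ⟨h2, w, hx2, htr, hO⟩ := h1 k E κ g1 x1 H 1 (het.away h E) hinj hfin hone
    (fun f => by
      obtain ⟨a, ha, b, hb, hb0, rfl⟩ := hfr f
      have : ch g.range H 1 ≤ ch g1.range H 1 := sup_le_sup_right hle _
      exact ⟨a, this ha, b, this hb, hb0, rfl⟩) rfl
    (fun e1 _ => by
      rw [hlp]
      refine hw _ ?_
      have := ((hu 1).map e1).ne_zero
      rwa [pow_one] at this)
  obtain ⟨⟨a, _, n, rfl⟩, ha⟩ := IsLocalization.surj (Submonoid.powers h) h2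
  simp only at ha
  refine ⟨a * h, w, ?_, fun hal => htr (hal.tower_top_of_subalgebra_le hle), fun O hloc hgO hU hwO =>
    ?_⟩
  · rw [map_mul, ← hx1 a, ← ha, map_mul, hx1, map_pow]
    exact mul_ne_zero (mul_ne_zero hx2 (pow_ne_zero _ hx)) hx
  · rw [map_mul, map_mul] at hU
    have hmem : ∀ p, g p ∈ O := fun p => hgO ⟨p, rfl⟩
    have ha0 : g (C a) ≠ 0 := left_ne_zero_of_mul hU.1
    have hi : (g (C h))⁻¹ ∈ O := by
      have := mul_mem (hmem (C a)) hU.2.2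
      rwa [mul_inv, ← mul_assoc, mul_inv_cancel₀ ha0, one_mul] at this
    have hia : (g (C a))⁻¹ ∈ O := by
      have := mul_mem hU.2.2 (hmem (C h))
      rwa [mul_inv, mul_assoc, inv_mul_cancel₀ hgh, mul_one] at this
    have hv : g1 (C h2) = g (C a) * (g (C h))⁻¹ ^ n := by
      rw [← hφ a, ← ha, map_mul, hφ, hg1C, map_pow, map_pow, mul_assoc, ← mul_pow,
        mul_inv_cancel₀ hgh, one_pow, mul_one]
    refine hO O hloc ?_ ⟨?_, ?_, ?_⟩ hwO
    · rintro _ ⟨p, rfl⟩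
      obtain ⟨m, q, hq⟩ := surj h p
      have h3 : g1 p = g q * (g (C h))⁻¹ ^ m := by
        rw [← hg1 q, ← hq, map_mul, hg1, map_pow, mul_assoc, ← mul_pow, mul_inv_cancel₀ hgh,
          one_pow, mul_one]
      change g1 p ∈ O
      rw [h3]
      exact mul_mem (hmem q) (pow_mem hi m)
    · rw [hv]
      exact mul_ne_zero ha0 (pow_ne_zero _ (inv_ne_zero hgh))
    · rw [hv]
      exact mul_mem (hmem _) (pow_mem hi n)
    · rw [hv, mul_inv, ← inv_pow, inv_inv]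
      exact mul_mem hia (pow_mem (hmem _) n)

end Pool.Agent.MP_e8e0b6_ag.R2

end Part6

section Part7

-- part 7: Secc

/-! A line on the family gives a section near the line over a point. -/

set_option autoImplicit false

open Polynomial AlgebraicGeometry CategoryTheory

namespace Pool.Agent.MP_e8e0b6_ag.R2

open Pool.Agent.MP_79c67d_ag Pool.Agent.MP_20d318_ag Pool.Agent.MP_20d318_ag.AG
  Pool.Agent.MP_20d318_ag.BV Pool.Agent.MP_20d318_ag.CB

namespace SeccA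

variable {k B F κ : Type} [Field k] [CommRing B] [Field F] [Field κ] [Algebra k B] [Algebra k F]
  [Algebra k κ] {g : B →ₐ[k] F} {g' : B →ₐ[k] κ} {H : Set F} {D : Subalgebra k F}
  {ρ : D →ₐ[k] κ} {j₀ : F} {H' : Set κ} {w : κ}

theorem inj (hg : Function.Injective g') (hw : Transcendental g'.range w)
    (p : B[X]) (hp : eval₂ (g' : B →+* κ) w p = 0) : p = 0 := by
  by_contra h0
  refine hw ⟨p.map (g'.rangeRestrict : B →+* g'.range), (Polynomial.map_ne_zero_iff fun a b e =>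
    hg (congrArg Subtype.val e)).2 h0, ?_⟩
  rw [aeval_def, eval₂_map]
  exact hp

theorem chart (rd : Rd H D ρ j₀ H') (hle : g.range ≤ D) (hg : ∀ p, evO D ρ (g p) = g' p)
    {O : Subalgebra k κ} (h5 : g'.range ≤ O) (hP : Prin H' O) : ∃ a ∈ H,
      ∃ l : ch g.range H a ≤ D, ∀ z, ρ (Subalgebra.inclusion l z) ∈ O := by
  obtain ⟨b, hb, gb⟩ := hP.exists_mem
  rw [rd.eq] at hb gb
  obtain ⟨a, ha, rfl⟩ := hb
  have u : IsU D (a / j₀) := isU_of_not_mx (rd.gen a ha) fun hm =>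
    gb.ne ((rd.lh.eq_zero_iff (rd.gen a ha)).2 hm)
  have e : ∀ c, c / a = c / j₀ / (a / j₀) := fun c =>
    (div_div_div_cancel_right₀ (div_ne_zero_iff.1 u.ne).2 c a).symm
  have l1 : ch g.range H a ≤ (O.comap ρ).map D.val := C.ch_le (by
    rintro _ ⟨y, rfl⟩
    refine ⟨⟨g y, hle ⟨y, rfl⟩⟩, show ρ _ ∈ O from ?_, rfl⟩
    rw [← evO_of_mem ρ, hg]
    exact h5 ⟨y, rfl⟩)
    fun c hc => ⟨⟨c / a, e c ▸ u.div_mem (rd.gen c hc)⟩, show ρ _ ∈ O by
      rw [← evO_of_mem ρ, e, evO_div ρ (rd.gen c hc) u]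
      exact gb.1 _ ⟨c, hc, rfl⟩, rfl⟩
  have l2 : ch g.range H a ≤ D := fun z hz => by
    obtain ⟨y, -, rfl⟩ := l1 hz
    exact y.2
  refine ⟨a, ha, l2, fun z => ?_⟩
  obtain ⟨y, h7, h8⟩ := l1 z.2
  have h9 : y = Subalgebra.inclusion l2 z := Subtype.ext h8
  exact h9 ▸ h7

theorem point {Y : Scheme.{0}} {q : Y ⟶ Spec (.of B)} {η : Spec (.of F) ⟶ Y}
    {j : ∀ a : H, Spec (.of (ch g.range H a)) ⟶ Y} (lk : Lk g H q η j) (rd : Rd H D ρ j₀ H')
    (hle : g.range ≤ D) (hg : ∀ p, evO D ρ (g p) = g' p) : ∃ η' : Spec (.of κ) ⟶ Y,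
      η' ≫ q = sp (g' : B →+* κ) ∧ ∀ O : Subalgebra k κ, g'.range ≤ O → Prin H' O →
        ∃ ψ : Spec (.of O.toSubring) ⟶ Y, sp O.toSubring.subtype ≫ ψ = η' := by
  have := lk.sep
  have l0 : ch g.range H j₀ ≤ D := C.ch_le hle rd.gen
  have d1 : ∀ (a : H) (l : ch g.range H a ≤ D), sp (D.val : D →+* F) ≫
      sp (Subalgebra.inclusion l : _ →+* D) ≫ j a = η := fun a l =>
    (sp_comp_assoc _ _ _).trans (lk.gen a)
  obtain ⟨δ, d0, d2⟩ : ∃ δ : Spec (.of D) ⟶ Y, sp (D.val : D →+* F) ≫ δ = η ∧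
      ∀ (a : H) (l : ch g.range H a ≤ D), sp (Subalgebra.inclusion l : _ →+* D) ≫ j a = δ :=
    ⟨_, d1 ⟨j₀, rd.mem⟩ l0, fun a l => ext_sp (r := (D.val : D →+* F)) Subtype.val_injective
      ((d1 a l).trans (d1 ⟨j₀, rd.mem⟩ l0).symm)⟩
  have d3 : δ ≫ q = sp ((g : B →+* F).codRestrict D fun p => hle ⟨p, rfl⟩) :=
    ext_sp (r := (D.val : D →+* F)) Subtype.val_injective (by
      rw [← Category.assoc, d0, lk.base, sp_comp]; rfl)
  refine ⟨sp (ρ : D →+* κ) ≫ δ, ?_, fun O h1 h2 => ?_⟩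
  · rw [Category.assoc, d3, sp_comp]
    exact congrArg sp (RingHom.ext fun y => (evO_of_mem ρ (hle ⟨y, rfl⟩)).symm.trans (hg y))
  · obtain ⟨a, ha, l, h3⟩ := chart rd hle hg h1 h2
    refine ⟨sp (((ρ : D →+* κ).comp (Subalgebra.inclusion l : _ →+* D)).codRestrict O.toSubring
      h3) ≫ j ⟨a, ha⟩, ?_⟩
    rw [← d2 ⟨a, ha⟩ l, sp_comp_assoc, sp_comp_assoc]
    rfl

theorem glue {Y : Scheme.{0}} [Y.IsSeparated] {q : Y ⟶ Spec (.of B)} [LocallyOfFiniteType q]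
    {η' : Spec (.of κ) ⟶ Y} (h1 : η' ≫ q = sp (g' : B →+* κ)) (gi : Function.Injective g')
    (tr : Transcendental g'.range w) {t : B} (h0 : t ≠ 0) (hP : ∀ O : Subalgebra k κ,
      IsLocalRing O → g'.range ≤ O → IsU O (g' t) → w ∈ O →
        ∃ ψ : Spec (.of O.toSubring) ⟶ Y, sp O.toSubring.subtype ≫ ψ = η')
    (L : Type) [CommRing L] [Algebra B[X] L] [IsLocalization.Away (C t : B[X]) L] :
    ∃ Ψ : Spec (.of L) ⟶ Y, Ψ ≫ q = sp ((algebraMap B[X] L).comp C) := by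
  obtain ⟨r, h2⟩ : ∃ r : L →+* κ, ∀ p, r (algebraMap B[X] L p) = eval₂ (g' : B →+* κ) w p :=
    ⟨IsLocalization.Away.lift (C t : B[X]) (g := eval₂RingHom (g' : B →+* κ) w)
      (Ne.isUnit fun e => h0 (C_eq_zero.1 (inj gi tr _ e))), IsLocalization.Away.lift_eq _ _⟩
  have h3 : Function.Injective r := SB.inj_loc (Submonoid.powers (C t : B[X])) (g := r)
    fun p hp => inj gi tr p (by rwa [← h2])
  refine (exists_glue h3 (sp ((algebraMap B[X] L).comp C)) q η' (by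
    rw [h1, sp_comp]
    exact congrArg sp (RingHom.ext fun y => (eval₂_C _ _).symm.trans (h2 _).symm))
    fun p hp => ?_).imp fun _ h => h.1
  have h5 : ∀ y, g' y ∈ locS r p := fun y => by
    have := map_mem_locS (r := r) (p := p) (algebraMap B[X] L (C y))
    rwa [h2, eval₂_C] at this
  have h6 := (un_locS h3).2 fun h' => hp.ne_top (p.eq_top_of_isUnit_mem h'
    (IsLocalization.Away.algebraMap_isUnit (C t : B[X])))
  have h7 := map_mem_locS (r := r) (p := p) (algebraMap B[X] L X)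
  rw [h2, eval₂_C] at h6
  rw [h2, eval₂_X] at h7
  exact hP { locS r p with algebraMap_mem' := fun c => g'.commutes c ▸ h5 _ }
    (loc_iff.1 (loc_locS h3)) (by rintro _ ⟨y, rfl⟩; exact h5 y) ⟨h6.2.1, h6.1, h6.2.2⟩ h7

end SeccA

open SeccA in
theorem secc_stmt : SeccStmt := by
  rintro k A F _ _ _ _ _ _ g x H Y q η j hA lk
    ⟨D, κ, _, _, ρ, j₀, H', g', h, w, rd, hle, hg', gi, hx, tr, hP⟩
  obtain ⟨E, _, _, _, ε, x', hE, ho, e0, -, hu, -⟩ := hA.loc x hx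
  have := lk.sep
  have := lk.ft
  obtain ⟨η', h1, h2⟩ := point lk rd hle hg'
  obtain ⟨Ψ, h4⟩ := glue h1 gi tr (t := C h) (fun e => hx (by rw [C_eq_zero.1 e, map_zero]))
    (fun O h3 h4 h5 h6 => h2 O h4 (hP O h3 h4 h5 h6)) (Localization.Away (C (C h) : A[X][X]))
  obtain ⟨θ, h5⟩ : ∃ θ : Localization.Away (C (C h) : A[X][X]) →+* E[X], ∀ p,
      θ (algebraMap A[X][X] _ p) = mapRingHom (ε : A →+* E) (eval 0 p) :=
    ⟨IsLocalization.Away.lift (C (C h) : A[X][X])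
      (g := (mapRingHom (ε : A →+* E)).comp (evalRingHom 0)) (by simpa using hu.map C),
      IsLocalization.Away.lift_eq _ _⟩
  refine ⟨E, _, ‹_›, _, ε, x', sp θ ≫ Ψ, hE, ho, e0, ?_⟩
  rw [Category.assoc, h4, sp_comp]
  exact congrArg sp (RingHom.ext fun y => (h5 _).trans (congrArg _ eval_C))

end Pool.Agent.MP_e8e0b6_ag.R2

end Part7

section Part8

-- part 8: Spr

/-!
Row SPR: spreading out.
-/

set_option autoImplicit false

open Polynomial AlgebraicGeometry CategoryTheory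

namespace Pool.Agent.MP_e8e0b6_ag.R2

open Pool.Agent.MP_79c67d_ag Pool.Agent.MP_20d318_ag Pool.Agent.MP_20d318_ag.AG
  Pool.Agent.MP_20d318_ag.BV Pool.Agent.MP_20d318_ag.CB

namespace SprA

variable {k F : Type} [Field k] [Field F] [Algebra k F]

/-- A common denominator. -/
theorem den {B O : Subalgebra k F} (hO : O ∈ Pts B) {T : Set F} (hT : T.Finite) (h : T ⊆ O) :
    ∃ b ∈ B, IsU O b ∧ ∀ t ∈ T, b * t ∈ B := by
  induction T, hT using Set.Finite.induction_on with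
  | empty => exact ⟨1, B.one_mem, isU_one, fun _ ht => ht.elim⟩
  | @insert t T _ _ ih =>
    obtain ⟨b, hb, hu, hb'⟩ := ih fun x hx => h (Or.inr hx)
    obtain ⟨a, ha, c, hc, hu', e⟩ := hO.2.2 t (h (Or.inl rfl))
    refine ⟨c * b, B.mul_mem hc hb, hu'.mul hu, ?_⟩
    rintro x (rfl | hx)
    · rw [e, mul_right_comm, mul_div_cancel₀ _ hu'.ne]
      exact B.mul_mem ha hb
    · rw [mul_assoc]
      exact B.mul_mem hc (hb' x hx)

/-- A set that contains a unit at every point over `R` spans an element of `C` that is a unit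
of `R`. -/
theorem spread {C R B : Subalgebra k F} (hL : Lz C R) (T : Set B)
    (h : ∀ O ∈ Pts B, R ≤ O → ∃ t ∈ T, IsU O (t : F)) (hC : C ≤ B) :
    ∃ s ∈ C, IsU R s ∧ ∀ O : Subalgebra k F, IsLocalRing O → B ≤ O → IsU O s →
      ∃ t ∈ T, IsU O (t : F) := by
  let S : Submonoid B :=
    { carrier := {s | (s : F) ∈ C ∧ IsU R (s : F)}
      mul_mem' := fun ha hb => ⟨C.mul_mem ha.1 hb.1, ha.2.mul hb.2⟩
      one_mem' := ⟨C.one_mem, isU_one⟩ }
  by_cases hd : Disjoint ((Ideal.span T : Ideal B) : Set B) S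
  · obtain ⟨p, hp, h1, h2⟩ := Ideal.exists_le_prime_disjoint _ S hd
    have hm : ∀ b : B, (b : F) ∈ Subtype.val '' (p : Set B) ↔ b ∈ p := fun b =>
      Subtype.val_injective.mem_set_image
    obtain ⟨O, hO, hu⟩ := exists_loc B (Subtype.val '' (p : Set B)) ((hm 0).2 p.zero_mem)
      (fun h' => hp.ne_top ((Ideal.eq_top_iff_one p).2 ((hm 1).1 h')))
      (fun a ha b hb h3 h4 => (hm (⟨a, ha⟩ + ⟨b, hb⟩)).2
        (p.add_mem ((hm ⟨a, ha⟩).1 h3) ((hm ⟨b, hb⟩).1 h4)))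
      (fun a ha b hb => (hm (⟨a, ha⟩ * ⟨b, hb⟩)).trans
        (hp.mul_mem_iff_mem_or_mem.trans (or_congr (hm ⟨a, ha⟩).symm (hm ⟨b, hb⟩).symm)))
    obtain ⟨t, ht, htu⟩ := h O hO fun f hf => by
      obtain ⟨a, ha, b, hb, hbu, rfl⟩ := hL.2 f hf
      refine IsU.div_mem ((hu b (hC hb)).2 fun h' => ?_) (hO.2.1 (hC ha))
      exact Set.disjoint_left.1 h2 ((hm ⟨b, hC hb⟩).1 h') ⟨hb, hbu⟩
    exact absurd ((hm t).2 (h1 (Ideal.subset_span ht))) ((hu t t.2).1 htu)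
  · obtain ⟨s, hs, hs'⟩ := Set.not_disjoint_iff.1 hd
    refine ⟨s, hs'.1, hs'.2, fun O hO hB hu => by_contra fun hn => hu.not_mx ?_⟩
    replace hs : s ∈ Ideal.span T := hs
    clear hs' hu
    induction hs using Submodule.span_induction with
    | mem t ht => exact ⟨hB t.2, fun h' => hn ⟨t, ht, h'⟩⟩
    | zero => exact zero_mem_mx
    | add a b _ _ ha hb => exact mx_add hO ha hb
    | smul a b _ hb => exact mx_mul_left (hB a.2) hb

end SprA

theorem spr_stmt : SprStmt := by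
  intro k F _ _ _ C R G U hL hU h
  obtain ⟨s, hs, hu, hO⟩ := SprA.spread (B := C ⊔ Algebra.adjoin k G) hL
    {b | ∃ u ∈ U, u ≠ 0 ∧ ∀ u' ∈ U, (b : F) * (u' / u) ∈ C ⊔ Algebra.adjoin k G}
    (fun O hO hR => by
      obtain ⟨u, huU, hg⟩ := (h O hO.1 (sup_le hR (le_sup_right.trans hO.2.1))).exists_mem
      obtain ⟨b, hb, hbu, hb'⟩ := SprA.den hO (hU.image fun u' => u' / u) (by
        rintro _ ⟨u', hu', rfl⟩
        exact hg.1 u' hu')
      exact ⟨⟨b, hb⟩, ⟨u, huU, hg.ne, fun u' hu' => hb' _ ⟨u', hu', rfl⟩⟩, hbu⟩) le_sup_left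
  refine ⟨s, hs, hu, fun O h1 h2 h3 => ?_⟩
  obtain ⟨b, ⟨u, huU, h0, hb⟩, hbu⟩ := hO O h1 h2 h3
  refine ⟨u, gn_of_mem huU h0 fun u' hu' => ?_⟩
  have := hbu.div_mem (h2 (hb u' hu'))
  rwa [mul_div_cancel_left₀ _ hbu.ne] at this

end Pool.Agent.MP_e8e0b6_ag.R2

end Part8

section Part9

-- part 9: Spr2

/-!
Spreading out an open subset.
-/

set_option autoImplicit false

namespace Pool.Agent.MP_e8e0b6_ag.R2

open Pool.Agent.MP_79c67d_ag Pool.Agent.MP_20d318_ag Pool.Agent.MP_20d318_ag.AG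
  Pool.Agent.MP_20d318_ag.BV Pool.Agent.MP_20d318_ag.CB

namespace Spr2A

variable {k F : Type} [Field k] [Field F] [Algebra k F] {C R : Subalgebra k F}

theorem clear (h : Lz C R) (H : Set F) {x : F} (hx : x ∈ R ⊔ Algebra.adjoin k H) :
    ∃ s ∈ C, IsU R s ∧ s * x ∈ C ⊔ Algebra.adjoin k H := by
  have l1 : C ≤ C ⊔ Algebra.adjoin k H := le_sup_left
  have l2 : Algebra.adjoin k H ≤ C ⊔ Algebra.adjoin k H := le_sup_right
  let D : Subalgebra k F :=
    { carrier := {x | ∃ s ∈ C, IsU R s ∧ s * x ∈ C ⊔ Algebra.adjoin k H}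
      mul_mem' := by
        rintro a b ⟨s, hs, us, ha⟩ ⟨t, ht, ut, hb⟩
        exact ⟨s * t, C.mul_mem hs ht, us.mul ut, by
          rw [mul_mul_mul_comm]; exact mul_mem ha hb⟩
      add_mem' := by
        rintro a b ⟨s, hs, us, ha⟩ ⟨t, ht, ut, hb⟩
        exact ⟨s * t, C.mul_mem hs ht, us.mul ut, by
          rw [show s * t * (a + b) = t * (s * a) + s * (t * b) by ring]
          exact add_mem (mul_mem (l1 ht) ha) (mul_mem (l1 hs) hb)⟩
      algebraMap_mem' := fun c => ⟨1, C.one_mem, isU_one, by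
        rw [one_mul]; exact Subalgebra.algebraMap_mem _ c⟩ }
  have : R ⊔ Algebra.adjoin k H ≤ D := by
    refine sup_le (fun f hf => ?_) fun f hf => ⟨1, C.one_mem, isU_one, by
      rw [one_mul]; exact l2 hf⟩
    obtain ⟨a, ha, b, hb, hu, rfl⟩ := h.2 f hf
    exact ⟨b, hb, hu, by rw [mul_div_cancel₀ _ hu.ne]; exact l1 ha⟩
  exact this hx

/-- a common multiplier for finitely many elements -/
theorem common {D : Subalgebra k F} {G' : Set F} (hG : G'.Finite) (A : Subalgebra k F)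
    (hA : D ≤ A) (O : Subalgebra k F) (b : F)
    (h : ∀ c ∈ G', ∃ s ∈ D, IsU O s ∧ s * (b * c) ∈ A) :
    ∃ s ∈ D, IsU O s ∧ ∀ c ∈ G', s * (b * c) ∈ A := by
  induction G', hG using Set.Finite.induction_on with
  | empty => exact ⟨1, D.one_mem, isU_one, by simp⟩
  | @insert c G' _ _ ih =>
    obtain ⟨s, hs, us, h1⟩ := ih fun d hd => h d (Set.mem_insert_of_mem _ hd)
    obtain ⟨t, ht, ut, h2⟩ := h c (Set.mem_insert _ _)
    refine ⟨s * t, D.mul_mem hs ht, us.mul ut, ?_⟩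
    rintro d (rfl | hd)
    · rw [mul_assoc]
      exact mul_mem (hA hs) h2
    · rw [mul_comm s, mul_assoc]
      exact mul_mem (hA ht) (h1 d hd)

end Spr2A

open Spr2A in
theorem spr2_stmt : Spr2Stmt := by
  intro k F _ _ _ C R G G' hL hG h
  have lG : ∀ D : Subalgebra k F, D ⊔ Algebra.adjoin k G ≤ D ⊔ Algebra.adjoin k (G ∪ G') :=
    fun D => sup_le_sup_left (Algebra.adjoin_mono Set.subset_union_left) _
  let J : Ideal (R ⊔ Algebra.adjoin k (G ∪ G') : Subalgebra k F) :=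
    { carrier := {x | ∃ s ∈ C, IsU R s ∧ ∀ O : Subalgebra k F, IsLocalRing O →
        C ⊔ Algebra.adjoin k (G ∪ G') ≤ O → (∀ b ∈ C ⊔ Algebra.adjoin k G,
          (∀ c ∈ G', b * c ∈ C ⊔ Algebra.adjoin k G) → ¬ IsU O b) → s * x.1 ∈ mx O}
      add_mem' := by
        rintro a b ⟨s, hs, us, ha⟩ ⟨t, ht, ut, hb⟩
        refine ⟨s * t, C.mul_mem hs ht, us.mul ut, fun O hO hle hn => ?_⟩
        rw [show s * t * (a + b).1 = t * (s * a.1) + s * (t * b.1) by push_cast; ring]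
        exact mx_add hO (mx_mul_left ((le_sup_left.trans hle) ht) (ha O hO hle hn))
          (mx_mul_left ((le_sup_left.trans hle) hs) (hb O hO hle hn))
      zero_mem' := ⟨1, C.one_mem, isU_one, fun O _ _ _ => by simpa using zero_mem_mx⟩
      smul_mem' := by
        rintro t a ⟨s, hs, us, ha⟩
        obtain ⟨r, hr, ur, ht⟩ := clear hL _ t.2
        refine ⟨r * s, C.mul_mem hr hs, ur.mul us, fun O hO hle hn => ?_⟩
        rw [show r * s * (t • a).1 = (r * t.1) * (s * a.1) by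
          rw [smul_eq_mul]; push_cast; ring]
        exact mx_mul_left (hle ht) (ha O hO hle hn) }
  by_cases hJ : J = ⊤
  · obtain ⟨s, hs, us, h1⟩ : (1 : (R ⊔ Algebra.adjoin k (G ∪ G') : Subalgebra k F)) ∈ J :=
      hJ ▸ Submodule.mem_top
    refine ⟨s, hs, us, fun O hO hle hu c hc => ?_⟩
    by_contra hn
    refine hu.not_mx (by simpa using h1 O hO hle fun b hb hbc ub => hn ⟨b * c, hbc c hc, b, hb, ub,
      (mul_div_cancel_left₀ c ub.ne).symm⟩)
  exfalso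
  obtain ⟨m, hm, hJm⟩ := Ideal.exists_le_maximal J hJ
  obtain ⟨O, hO, hU⟩ := exists_loc (R ⊔ Algebra.adjoin k (G ∪ G'))
    {x | ∃ hx : x ∈ R ⊔ Algebra.adjoin k (G ∪ G'), (⟨x, hx⟩ : (R ⊔ Algebra.adjoin k (G ∪ G') :
      Subalgebra k F)) ∈ m} ⟨zero_mem _, m.zero_mem⟩
    (fun ⟨_, h1⟩ => hm.ne_top ((Ideal.eq_top_iff_one m).2 h1))
    (fun a ha b hb ⟨_, h1⟩ ⟨_, h2⟩ => ⟨add_mem ha hb, m.add_mem h1 h2⟩)
    (fun a ha b hb => ⟨fun ⟨_, h1⟩ => (hm.isPrime.mem_or_mem (x := ⟨a, ha⟩) (y := ⟨b, hb⟩) h1).imp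
      (fun h => ⟨ha, h⟩) fun h => ⟨hb, h⟩, fun h1 => ⟨mul_mem ha hb, h1.elim
        (fun ⟨_, h2⟩ => m.mul_mem_right ⟨b, hb⟩ h2) fun ⟨_, h2⟩ => m.mul_mem_left ⟨a, ha⟩ h2⟩⟩)
  obtain ⟨b, hb, ub, hbc⟩ := common hG (R ⊔ Algebra.adjoin k G) le_rfl O 1 fun c hc => by
    obtain ⟨a, ha, b, hb, ub, rfl⟩ := h O hO.1 hO.2.1 hc
    exact ⟨b, hb, ub, by rwa [one_mul, mul_div_cancel₀ _ ub.ne]⟩
  refine (hU b (lG R hb)).1 ub ⟨lG R hb, hJm ?_⟩
  obtain ⟨s, hs, us, h1⟩ := clear hL G hb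
  obtain ⟨t, ht, ut, h2⟩ := common hG (C ⊔ Algebra.adjoin k G) le_sup_left R b fun c hc =>
    clear hL G (by simpa using hbc c hc)
  have l1 : C ≤ C ⊔ Algebra.adjoin k G := le_sup_left
  have h3 : t * s * b ∈ C ⊔ Algebra.adjoin k G := by
    rw [mul_assoc]
    exact mul_mem (l1 ht) h1
  refine ⟨t * s, C.mul_mem ht hs, ut.mul us, fun O' hO' hle hn =>
    ⟨hle (lG C h3), hn _ h3 fun c hc => ?_⟩⟩
  rw [show t * s * b * c = s * (t * (b * c)) by ring]
  exact mul_mem (l1 hs) (h2 c hc)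

end Pool.Agent.MP_e8e0b6_ag.R2

end Part9

section Part10

-- part 10: Zc

/-!
The centre of a local ring of the residue field on the divisor.
-/

set_option autoImplicit false

open Polynomial

namespace Pool.Agent.MP_e8e0b6_ag.R2

open Pool.Agent.MP_79c67d_ag Pool.Agent.MP_20d318_ag Pool.Agent.MP_20d318_ag.AG
  Pool.Agent.MP_20d318_ag.BV Pool.Agent.MP_20d318_ag.CB

namespace ZcA

variable {k F κ : Type} [Field k] [Field F] [Field κ] [Algebra k F] [Algebra k κ]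
  {R D : Subalgebra k F} {H : Set F} {ρ : D →ₐ[k] κ} {j j' a : F} {H' : Set κ}
  {W : Subalgebra k κ}

/-- The functions whose residue lies in `W`. -/
def pre (D : Subalgebra k F) (ρ : D →ₐ[k] κ) (W : Subalgebra k κ) : Subalgebra k F :=
  (W.comap ρ).map D.val

theorem mem_pre : a ∈ pre D ρ W ↔ a ∈ D ∧ evO D ρ a ∈ W :=
  ⟨by rintro ⟨b, hb, rfl⟩; exact ⟨b.2, (evO_coe ρ b).symm ▸ hb⟩,
    fun h => ⟨⟨a, h.1⟩, (evO_of_mem ρ h.1 ▸ h.2 : ρ ⟨a, h.1⟩ ∈ W), rfl⟩⟩

theorem unit (h : LocHom D ρ) (ha : a ∈ D) (h0 : evO D ρ a ≠ 0) : IsU D a :=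
  isU_of_not_mx ha fun hm => h0 ((h.eq_zero_iff ha).2 hm)

theorem isU_pre (h : LocHom D ρ) (ha : a ∈ D) : IsU (pre D ρ W) a ↔ IsU W (evO D ρ a) := by
  refine ⟨fun hu => ?_, fun hu => ?_⟩
  · have h1 : IsU D a := hu.mono fun _ hb => (mem_pre.1 hb).1
    exact ⟨evO_ne ρ h1, (mem_pre.1 hu.mem).2, evO_inv ρ h1 ▸ (mem_pre.1 hu.inv_mem).2⟩
  · have h1 := unit h ha hu.ne
    exact ⟨h1.ne, mem_pre.2 ⟨ha, hu.mem⟩,
      mem_pre.2 ⟨h1.inv_mem, (evO_inv ρ h1).symm ▸ hu.inv_mem⟩⟩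

theorem loc_pre (h : LocHom D ρ) (hW : IsLocalRing W) : IsLocalRing (pre D ρ W) :=
  isLocalRing_of fun a ha b hb => ⟨add_mem ha.1 hb.1, fun hu => by
    obtain ⟨a1, a2⟩ := mem_pre.1 ha.1
    obtain ⟨b1, b2⟩ := mem_pre.1 hb.1
    rw [isU_pre h (add_mem a1 b1), evO_add ρ a1 b1] at hu
    exact hu.not_mx (mx_add hW ⟨a2, fun h' => ha.2 ((isU_pre h a1).2 h')⟩
      ⟨b2, fun h' => hb.2 ((isU_pre h b1).2 h')⟩)⟩

theorem ev_div (h : Rd H D ρ j H') (hu : IsU D (j' / j)) (ha : a ∈ H) :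
    a / j' ∈ D ∧ evO D ρ (a / j') = evO D ρ (a / j) / evO D ρ (j' / j) := by
  rw [← div_div_div_cancel_right₀ (div_ne_zero_iff.1 hu.ne).2 a j']
  exact ⟨hu.div_mem (h.gen a ha), evO_div ρ (h.gen a ha) hu⟩

theorem ch_pre (hR : R ≤ D) (h : Rd H D ρ j H') (hu : IsU D (j' / j)) (h1 : red D ρ R ≤ W)
    (h2 : ∀ b ∈ H', b / evO D ρ (j' / j) ∈ W) : ch R H j' ≤ pre D ρ W :=
  C.ch_le (fun _ hr => mem_pre.2 ⟨hR hr, h1 (C.ev_mem hR hr)⟩) fun a ha =>
    mem_pre.2 ⟨(ev_div h hu ha).1, (ev_div h hu ha).2 ▸ h2 _ (h.eq ▸ ⟨a, ha, rfl⟩)⟩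

end ZcA

theorem zc_stmt : ZcStmt := by
  intro k F κ _ _ _ _ _ R D H ρ j H' hH hR h
  refine ⟨fun W hW h1 h2 => ?_, fun O hO hD => ?_⟩
  · obtain ⟨b, hb, hg⟩ := h2.exists_mem
    obtain ⟨j', hj', rfl⟩ := h.eq ▸ hb
    have hu := ZcA.unit h.lh (h.gen j' hj') hg.ne
    obtain ⟨O, hO, hd⟩ := exists_ctr (ZcA.loc_pre h.lh hW) (ZcA.ch_pre hR h hu h1 hg.1)
    have hD : O ≤ D := fun a ha => (ZcA.mem_pre.1 (hd.1 ha)).1
    refine ⟨O, ⟨j', hj', hO⟩, hD, fun m hm => ?_, fun m hm hm' => ?_⟩ <;>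
      obtain ⟨a, ha, -, rfl⟩ := C.mem_red.1 hm
    · exact (ZcA.mem_pre.1 (hd.1 ha)).2
    · exact C.ev_unit hD (hd.2 a ha ((ZcA.isU_pre h.lh (hD ha)).2 hm'))
  · obtain ⟨j', hj', hO'⟩ := id hO
    have hu : IsU D (j' / j) := ⟨div_ne_zero (hH j' hj') (hH j h.mem), h.gen j' hj', by
      rw [inv_div]; exact hD (hO'.2.1 (C.div_mem_ch h.mem))⟩
    have h1 : ∀ b ∈ H', b / evO D ρ (j' / j) ∈ red D ρ O := fun b hb => by
      obtain ⟨a, ha, rfl⟩ := h.eq ▸ hb
      exact (ZcA.ev_div h hu ha).2 ▸ C.ev_mem hD (hO'.2.1 (C.div_mem_ch ha))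
    refine ⟨⟨_, gn_of_mem (h.eq ▸ ⟨j', hj', rfl⟩) (evO_ne ρ hu) h1⟩,
      (fun b => b / evO D ρ (j' / j)) '' H', fun hf => (h.eq ▸ hf.image _ : H'.Finite).image _,
      C.red_loc hD hO'.1, sup_le (C.red_mono (C.xx_le hO)) (Algebra.adjoin_le ?_), fun m hm => ?_⟩
    · rintro _ ⟨b, hb, rfl⟩
      exact h1 b hb
    · obtain ⟨a, ha, -, rfl⟩ := C.mem_red.1 hm
      obtain ⟨p, hp, q, hq, hq', rfl⟩ := hO'.2.2 a ha
      have h2 := ZcA.ch_pre (W := red D ρ R ⊔ Algebra.adjoin k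
        ((fun b => b / evO D ρ (j' / j)) '' H')) hR h hu le_sup_left fun b hb =>
          (le_sup_right : Algebra.adjoin k _ ≤ _) (Algebra.subset_adjoin ⟨b, hb, rfl⟩)
      exact ⟨_, (ZcA.mem_pre.1 (h2 hp)).2, _, (ZcA.mem_pre.1 (h2 hq)).2, C.ev_unit hD hq',
        evO_div ρ (hD (hO'.2.1 hp)) (hq'.mono hD)⟩

end Pool.Agent.MP_e8e0b6_ag.R2

end Part10
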