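import Pool.Agent.MP_e8e0b6_ag.R2.SpecB
import Pool.Agent.MP_e8e0b6_ag.RP.S3

section Part1

-- part 1: Fibr

/-!
The generic point of a fibre.
-/

set_option autoImplicit false

open Polynomial AlgebraicGeometry CategoryTheory Limits TensorProduct

namespace Pool.Agent.MP_e8e0b6_ag.R2

open Pool.Agent.MP_79c67d_ag Pool.Agent.MP_20d318_ag Pool.Agent.MP_20d318_ag.AG
  Pool.Agent.MP_20d318_ag.BV Pool.Agent.MP_20d318_ag.CB

namespace FibrA

/-- Elements that vanish on the fibre. -/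
theorem fib_zero {A B L : Type} [CommRing A] [AddCommGroup B] [Module A B] [Field L] [Algebra A L]
    {b : B} (h : (1 : L) ⊗ₜ[A] b = 0) : ∃ t : A, algebraMap A L t ≠ 0 ∧
      t • b ∈ RingHom.ker (algebraMap A L) • (⊤ : Submodule A B) := by
  by_contra hn
  let p : Ideal A := RingHom.ker (algebraMap A L)
  have : p.IsPrime := RingHom.ker_isPrime _
  let _ : Algebra (A ⧸ p) L := (RingHom.kerLift (algebraMap A L)).toAlgebra
  have : IsScalarTower A (A ⧸ p) L :=
    IsScalarTower.of_algebraMap_eq fun a => (RingHom.kerLift_mk (algebraMap A L) a).symm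
  have : Module.Flat (A ⧸ p) L := flat_field (RingHom.kerLift_injective (algebraMap A L))
  have li : LinearIndependent (A ⧸ p) fun _ : Unit => (1 : A ⧸ p) ⊗ₜ[A] b := by
    rw [Fintype.linearIndependent_iff]
    intro c hc i
    obtain ⟨t, ht⟩ := Ideal.Quotient.mk_surjective (c ())
    rw [Fintype.sum_unique, TensorProduct.smul_tmul', smul_eq_mul, mul_one] at hc
    change c () ⊗ₜ[A] b = 0 at hc
    change c () = 0
    rw [← ht] at hc ⊢
    have h1 := congrArg (TensorProduct.quotTensorEquivQuotSMul B p) hc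
    rw [TensorProduct.quotTensorEquivQuotSMul_mk_tmul, map_zero,
      Submodule.Quotient.mk_eq_zero] at h1
    exact Ideal.Quotient.eq_zero_iff_mem.2 (by_contra fun h2 => hn ⟨t, h2, h1⟩)
  refine (Module.Flat.linearIndependent_one_tmul (S := L) li).ne_zero () ?_
  apply (TensorProduct.AlgebraTensorModule.cancelBaseChange A (A ⧸ p) L L B).injective
  rw [TensorProduct.AlgebraTensorModule.cancelBaseChange_tmul, one_smul, h, map_zero]

variable {k A B F M : Type} [Field k] [CommRing A] [CommRing B] [Field F] [Field M] [Algebra k F]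
  [Algebra k M]

/-- The local ring at the kernel of a map to a field. -/
theorem ex_pt (D : Subalgebra k F) (θ : B →+* F) (τ : B →+* M) (hi : Function.Injective θ)
    (hD : ∀ z, z ∈ D ↔ z ∈ Set.range θ)
    (hk : ∀ c : k, ∃ b, θ b = algebraMap k F c ∧ τ b = algebraMap k M c) :
    ∃ ξ ∈ Pts D, ∃ ρ : ξ →ₐ[k] M, LocHom ξ ρ ∧ ∀ b, evO ξ ρ (θ b) = τ b := by
  have m : ∀ b, θ b ∈ D := fun b => (hD _).2 ⟨b, rfl⟩
  let e : B ≃+* D := RingEquiv.ofBijective (θ.codRestrict D m)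
    ⟨fun a b h => hi (congrArg Subtype.val h), fun z => by
      obtain ⟨b, hb⟩ := (hD z).1 z.2
      exact ⟨b, Subtype.ext hb⟩⟩
  have he : ∀ b, e.symm ⟨θ b, m b⟩ = b := fun b => e.symm_apply_apply b
  let φ : D →ₐ[k] M :=
    { τ.comp e.symm.toRingHom with
      commutes' := fun c => by
        obtain ⟨b, h1, h2⟩ := hk c
        have : algebraMap k D c = ⟨θ b, m b⟩ := Subtype.ext h1.symm
        change τ (e.symm (algebraMap k D c)) = _
        rw [this, he, h2] }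
  obtain ⟨ξ, h1, ρ, h2, h3⟩ := exists_ext φ
  refine ⟨ξ, h1, ρ, h2, fun b => ?_⟩
  rw [h3 _ (m b), evO_of_mem φ (m b)]
  exact congrArg τ (he b)

theorem isU_of {ξ : Subalgebra k F} {ρ : ξ →ₐ[k] M} (h : LocHom ξ ρ) {a : F} (ha : a ∈ ξ)
    (h0 : evO ξ ρ a ≠ 0) : IsU ξ a :=
  isU_of_not_mx ha fun hm => h0 ((h.eq_zero_iff ha).2 hm)

/-- Two maps that agree on generators. -/
theorem gen_ext [Algebra A B] {ι : Type} {ξ : Subalgebra k F} (ρ : ξ →ₐ[k] M) (r : ι → B)
    (hr : Algebra.adjoin A (Set.range r) = ⊤) (θ : B →+* F) (τ : B →+* M)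
    (h1 : ∀ a, θ (algebraMap A B a) ∈ ξ ∧ evO ξ ρ (θ (algebraMap A B a)) = τ (algebraMap A B a))
    (h2 : ∀ l, θ (r l) ∈ ξ ∧ evO ξ ρ (θ (r l)) = τ (r l)) (b : B) :
    θ b ∈ ξ ∧ evO ξ ρ (θ b) = τ b := by
  have hb : b ∈ Algebra.adjoin A (Set.range r) := hr ▸ Algebra.mem_top
  induction hb using Algebra.adjoin_induction with
  | mem x hx =>
    obtain ⟨l, rfl⟩ := hx
    exact h2 l
  | algebraMap a => exact h1 a
  | add x y _ _ hx hy =>
    rw [map_add, map_add, evO_add ρ hx.1 hy.1, hx.2, hy.2]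
    exact ⟨ξ.add_mem hx.1 hy.1, rfl⟩
  | mul x y _ _ hx hy =>
    rw [map_mul, map_mul, evO_mul ρ hx.1 hy.1, hx.2, hy.2]
    exact ⟨ξ.mul_mem hx.1 hy.1, rfl⟩

/-- Functions that vanish on the fibre lie in the ideal generated by the maximal ideal. -/
theorem span_of [Algebra A B] {L : Type} [Field L] [Algebra A L] {R O : Subalgebra k F}
    (hle : R ≤ O) (θ : B →+* F) (hθ : ∀ b, θ b ∈ O) (hR : ∀ a, θ (algebraMap A B a) ∈ R)
    (hp : ∀ a, IsU R (θ (algebraMap A B a)) ↔ algebraMap A L a ≠ 0) {b : B}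
    (h : (1 : L) ⊗ₜ[A] b = 0) : θ b ∈ Submodule.span O (mx R) := by
  obtain ⟨t, ht, hb⟩ := fib_zero h
  have key : ∀ x ∈ RingHom.ker (algebraMap A L) • (⊤ : Submodule A B),
      θ x ∈ Submodule.span O (mx R) := fun x hx => by
    refine Submodule.smul_induction_on hx (fun a ha y _ => ?_) fun x y hx hy => ?_
    · rw [Algebra.smul_def, map_mul, mul_comm]
      exact C.span_mul (hθ y) (Submodule.subset_span ⟨hR a, fun u => (hp a).1 u ha⟩)
    · rw [map_add]
      exact Submodule.add_mem _ hx hy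
  have u := ((hp t).2 ht).mono hle
  have := C.span_mul u.inv_mem (key _ hb)
  rwa [Algebra.smul_def, map_mul, inv_mul_cancel_left₀ u.1] at this

end FibrA

open FibrA in
theorem fibr_stmt : FibrStmt := by
  intro k A F L M _ _ _ _ _ _ _ _ _ _ _ N 𝓡 g h h' R em fb hR hp
  let _ : Algebra k M := ((algebraMap A M).comp (algebraMap k A)).toAlgebra
  have hne : ∀ i, h' i ≠ 0 → h i ≠ 0 := fun i hi e => by
    obtain ⟨τ, -⟩ := fb.emb i hi
    have := em.zero i e
    exact one_ne_zero ((map_one τ).symm.trans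
      ((congrArg τ (Subsingleton.elim 1 0)).trans (map_zero τ)))
  obtain ⟨i₀, hi₀⟩ := fb.ne
  obtain ⟨θ₀, a1, a2, a3, a4⟩ := em.emb i₀ (hne i₀ hi₀)
  obtain ⟨τ₀, b1, -⟩ := fb.emb i₀ hi₀
  obtain ⟨ξ, hξ, ρ, lh, ev⟩ := ex_pt (k := k) _ θ₀ τ₀.toRingHom a1 a4 fun c =>
    ⟨algebraMap A _ (algebraMap k A c), (a2 _).trans (g.commutes c), τ₀.commutes _⟩
  have m0 : ∀ b, θ₀ b ∈ ξ := fun b => hξ.2.1 ((a4 _).2 ⟨b, rfl⟩)
  have eg : ∀ a, g a ∈ ξ ∧ evO ξ ρ (g a) = algebraMap A M a := fun a => by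
    rw [← a2]
    exact ⟨m0 _, (ev _).trans (τ₀.commutes a)⟩
  have e0 : ∀ l, h l / h i₀ ∈ ξ ∧ evO ξ ρ (h l / h i₀) = h' l / h' i₀ := fun l => by
    rw [← a3]
    exact ⟨m0 _, (ev _).trans (b1 l)⟩
  have eh : ∀ i, h' i ≠ 0 → ∀ l, h l / h i ∈ ξ ∧ evO ξ ρ (h l / h i) = h' l / h' i := fun i hi l => by
    have u : IsU ξ (h i / h i₀) := isU_of lh (e0 i).1 (by rw [(e0 i).2]; exact div_ne_zero hi hi₀)
    rw [← div_div_div_cancel_right₀ (hne i₀ hi₀) (h l) (h i), evO_div ρ (e0 l).1 u, (e0 l).2,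
      (e0 i).2, div_div_div_cancel_right₀ hi₀]
    exact ⟨u.div_mem (e0 l).1, rfl⟩
  have ug : ∀ a, IsU ξ (g a) ↔ IsU R (g a) := fun a => by
    rw [hp, ← map_ne_zero (algebraMap L M), ← IsScalarTower.algebraMap_apply, ← (eg a).2]
    exact ⟨evO_ne ρ, isU_of lh (eg a).1⟩
  have dom : AG.Dom R ξ := by
    refine ⟨fun f hf => ?_, fun f hf u => ?_⟩
    · obtain ⟨_, ⟨a, rfl⟩, _, ⟨b, rfl⟩, u, rfl⟩ := hR.2.2 f hf
      exact ((ug b).2 u).div_mem (eg a).1
    · obtain ⟨_, ⟨a, rfl⟩, _, ⟨b, rfl⟩, v, rfl⟩ := hR.2.2 f hf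
      have := u.mul ((ug b).2 v)
      erw [div_mul_cancel₀ _ v.1] at this
      exact ((ug a).1 this).div v
  have key : ∀ O ∈ XX R (nz h), AG.Dom R O → ∀ f ∈ O, ∃ a ∈ ξ, ∃ s, IsU O s ∧ IsU ξ s ∧ f = a / s ∧
      (a ∈ mx ξ → a ∈ Submodule.span O (mx R)) := by
    rintro O ⟨_, ⟨⟨i, rfl⟩, hi⟩, hO⟩ hd f hf
    obtain ⟨θ, c1, c2, c3, c4⟩ := em.emb i hi
    have hle : ch g.range (nz h) (h i) ≤ O :=
      C.ch_le (hR.2.1.trans hd.1) fun _ ha => hO.2.1 (C.div_mem_ch ha)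
    have hO' : O ∈ Pts (ch g.range (nz h) (h i)) := by
      refine C.pts2 hO hle (C.ch_le (fun f hf => ?_) fun _ ha => C.le_fr (C.div_mem_ch ha))
      obtain ⟨a, ha, b, hb, u, rfl⟩ := hR.2.2 f hf
      exact C.mem_fr ((le_sup_left : g.range ≤ _) ha) ((le_sup_left : g.range ≤ _) hb) (u.mono hd.1)
    have sp : ∀ b : 𝓡.B i, (1 : L) ⊗ₜ[A] b = 0 → θ b ∈ Submodule.span O (mx R) := fun b hb =>
      span_of hd.1 θ (fun b => hle ((c4 _).2 ⟨b, rfl⟩)) (fun a => by
        rw [c2]; exact hR.2.1 ⟨a, rfl⟩) (fun a => by rw [c2]; exact hp a) hb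
    have sm : ∀ x ∈ Submodule.span O (mx R), x ∈ mx O := fun x hx =>
      C.span_mx hO.1 le_rfl (fun _ hy => hd.mx hy) hx
    have hi' : h' i ≠ 0 := fun e => by
      have := fb.zero i e
      have h1 := sm _ (sp 1 (Subsingleton.elim _ _))
      rw [map_one] at h1
      exact one_not_mem_mx h1
    obtain ⟨τ, d1, d2⟩ := fb.emb i hi'
    have sp' : ∀ b, τ b = 0 → θ b ∈ Submodule.span O (mx R) := fun b hb =>
      sp b (d2 (by rw [tens_tmul, hb, mul_zero, map_zero]))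
    have ge := gen_ext ρ (𝓡.r i) (𝓡.gen i) θ τ.toRingHom (fun a => by
      rw [c2]; exact ⟨(eg a).1, (eg a).2.trans (τ.commutes a).symm⟩) fun l => by
      rw [c3]; exact ⟨(eh i hi' l).1, (eh i hi' l).2.trans (d1 l).symm⟩
    obtain ⟨a, ha, s, hs, u, rfl⟩ := hO'.2.2 f hf
    obtain ⟨a, rfl⟩ := (c4 _).1 ha
    obtain ⟨s, rfl⟩ := (c4 _).1 hs
    exact ⟨θ a, (ge a).1, θ s, u, isU_of lh (ge s).1 fun e =>
      u.not_mx (sm _ (sp' s ((ge s).2.symm.trans e))), rfl,
      fun hm => sp' a ((ge a).2.symm.trans ((lh.eq_zero_iff hm.1).2 hm))⟩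
  refine ⟨ξ, ρ.toRingHom, ⟨C.xx_base ⟨h i₀, ⟨⟨i₀, rfl⟩, hne i₀ hi₀⟩, hξ⟩ hR.2.1 dom.1, dom,
    fun O hO hd f hf => ?_, fun O hO hd f hf hm => ?_⟩, lh,
    fun a m => (evO_of_mem ρ m).symm.trans (eg a).2, fun i hi => ⟨hne i hi, fun l =>
      ⟨(eh i hi l).1, (evO_of_mem ρ _).symm.trans (eh i hi l).2⟩⟩⟩
  · obtain ⟨a, ha, s, -, v, rfl, -⟩ := key O hO hd f hf
    exact v.div_mem ha
  · obtain ⟨a, ha, s, u, v, rfl, w⟩ := key O hO hd f hf
    have h1 := mx_mul_right hm v.mem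
    rw [div_mul_cancel₀ _ v.1] at h1
    rw [div_eq_inv_mul]
    exact C.span_mul u.inv_mem (w h1)

end Pool.Agent.MP_e8e0b6_ag.R2

end Part1

section Part2

-- part 2: IndB

/-!
Independence of residues implies independence over a local ring.
-/

set_option autoImplicit false

open Polynomial AlgebraicGeometry CategoryTheory Limits TensorProduct

namespace Pool.Agent.MP_e8e0b6_ag.R2

open Pool.Agent.MP_79c67d_ag Pool.Agent.MP_20d318_ag Pool.Agent.MP_20d318_ag.AG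
  Pool.Agent.MP_20d318_ag.BV Pool.Agent.MP_20d318_ag.CB

theorem ind_stmt : IndStmt := by
  intro k F M _ _ _ _ _ R ξ ρ h hR rat hd lh fl ι v hv li
  obtain ⟨e, he⟩ := (lh.restrict hd).factor
  let _ : Algebra R ξ := (Subalgebra.inclusion h).toRingHom.toAlgebra
  have : Module.Flat R ξ := fl
  let _ : Algebra R M := (ρ.comp (Subalgebra.inclusion h)).toRingHom.toAlgebra
  let _ : Algebra (IsLocalRing.ResidueField R) M := e.toRingHom.toAlgebra
  have : IsScalarTower R (IsLocalRing.ResidueField R) M :=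
    IsScalarTower.of_algebraMap_eq fun r => (AlgHom.congr_fun he r).symm
  let φ : ξ →ₗ[R] M := { toFun := ρ, map_add' := map_add ρ, map_smul' := fun _ _ => map_mul ρ _ _ }
  let ψ : ξ →ₗ[R] F := { toFun := Subtype.val, map_add' := fun _ _ => rfl, map_smul' := fun _ _ => rfl }
  have sj : Function.Surjective (algebraMap k (IsLocalRing.ResidueField R)) := fun z => by
    obtain ⟨r, rfl⟩ := IsLocalRing.residue_surjective z
    obtain ⟨c, hc⟩ := rat r r.2
    exact ⟨c, (Ideal.Quotient.eq.2 ((mem_mx_iff (r - algebraMap k R c)).1 hc)).symm⟩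
  have h1 := li.map_of_surjective_injective _ (AddMonoidHom.id M) sj (fun _ u => u) fun c m => by
    rw [AddMonoidHom.id_apply, AddMonoidHom.id_apply, Algebra.smul_def, Algebra.smul_def,
      ← e.commutes]
    rfl
  have h2 := Module.IsLocalRing.linearIndependent_of_flat (R := R) (fun i => (⟨v i, hv i⟩ : ξ))
    (LinearIndependent.of_comp (φ.liftBaseChange (IsLocalRing.ResidueField R)) (by
      convert h1 using 1
      funext i
      simp [φ, evO_of_mem ρ (hv i)]))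
  exact h2.map' ψ (LinearMap.ker_eq_bot.2 Subtype.val_injective)

end Pool.Agent.MP_e8e0b6_ag.R2

end Part2

section Part3

-- part 3: M1

/-!
Trivial monodromy at a dominant geometric point.
-/

set_option autoImplicit false

open Polynomial AlgebraicGeometry CategoryTheory Limits TensorProduct IsLocalRing

namespace Pool.Agent.MP_e8e0b6_ag.R2

open Pool.Agent.MP_79c67d_ag Pool.Agent.MP_20d318_ag Pool.Agent.MP_20d318_ag.AG
  Pool.Agent.MP_20d318_ag.BV Pool.Agent.MP_20d318_ag.CB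

namespace M1A

theorem exists_cl {A Ω : Type} [CommRing A] [IsDomain A] [Field Ω] [IsAlgClosed Ω] (g : A →+* Ω)
    (hg : Function.Injective g) : ∃ (K : Type) (_ : Field K) (_ : IsAlgClosed K) (g₀ : A →+* K)
      (ι : K →+* Ω), ι.comp g₀ = g ∧ ∀ a : K, IsAlgebraic g₀.range a := by
  let L := FractionRing A
  let K := AlgebraicClosure L
  let : Algebra L Ω := (IsFractionRing.lift (K := L) hg).toAlgebra
  let ι : K →ₐ[L] Ω := IsAlgClosed.lift
  have h0 : Function.Injective (algebraMap A K) := by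
    rw [IsScalarTower.algebraMap_eq A L K]
    exact (algebraMap L K).injective.comp (IsFractionRing.injective A L)
  refine ⟨K, inferInstance, inferInstance, algebraMap A K, ι, RingHom.ext fun a => ?_, fun a => ?_⟩
  · change ι (algebraMap A K a) = _
    rw [IsScalarTower.algebraMap_apply A L K, ι.commutes]
    exact IsFractionRing.lift_algebraMap hg a
  · obtain ⟨p, h1, h2⟩ := (IsFractionRing.isAlgebraic_iff A L K).2
      (Algebra.IsAlgebraic.isAlgebraic a)
    refine ⟨p.map (algebraMap A K).rangeRestrict, (Polynomial.map_ne_zero_iff fun a b h =>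
      h0 (congrArg Subtype.val h)).2 h1, ?_⟩
    rw [aeval_def, eval₂_map]
    exact h2

theorem nz_map {K M E : Type} [Field K] [Field M] [Field E] [Algebra K M] [Algebra K E] {N : ℕ}
    (ν : M →ₐ[K] E) (h : Fin (N + 1) → M) : ν '' nz h = nz fun l => ν (h l) := by
  ext a
  constructor
  · rintro ⟨_, ⟨⟨l, rfl⟩, h0⟩, rfl⟩
    exact ⟨⟨l, rfl⟩, (map_ne_zero ν).2 h0⟩
  · rintro ⟨⟨l, rfl⟩, h0⟩
    exact ⟨h l, ⟨⟨l, rfl⟩, (map_ne_zero ν).1 h0⟩, rfl⟩

end M1A

open M1A in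
theorem m1_stmt (h1 : Br2aStmt) (h2 : XfStmt) (h3 : UniStmt) (h4 : C.GalStmt') (h5 : TrfStmt)
    (h6 : Mk1Stmt) : M1Stmt := by
  intro k _ _ _ N X S f π e hP hS hsc Ω _ _ _ s hs hd
  have := hS.integral
  obtain ⟨A, _, j, _, hj, -⟩ := T.Bun2.exists_aff (s (closedPoint Ω)) ⊤ trivial
  obtain ⟨g, hg⟩ := exists_factor s j hj
  have := g.domain_nontrivial
  have := isDomain_chart j
  have hi : Function.Injective g := by
    have : IsDominant (sp g ≫ j) := hg ▸ hd
    have h7 := (PrimeSpectrum.denseRange_comap_iff_ker_le_nilRadical g).1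
      (IsDominant.of_comp_of_isOpenImmersion (sp g) j).1
    rw [nilradical_eq_zero] at h7
    exact (RingHom.injective_iff_ker_eq_bot g).2 (le_bot_iff.1 h7)
  obtain ⟨K, _, _, g₀, ι, hι, ha⟩ := exists_cl g hi
  obtain ⟨φ, hφ⟩ := sp_surj (j ≫ f)
  let : Algebra k K := (g₀.comp φ).toAlgebra
  let : Algebra K Ω := ι.toAlgebra
  have : CharZero K := charZero_of_injective_algebraMap (algebraMap k K).injective
  have : CharZero Ω := charZero_of_injective_algebraMap (algebraMap k Ω).injective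
  have e1 : sp (algebraMap K Ω) ≫ sp g₀ ≫ j = s := by
    rw [sp_comp_assoc, ← hg, ← hι]
  have e2 : (sp g₀ ≫ j) ≫ f = sp (algebraMap k K) := by
    rw [Category.assoc, ← hφ, sp_comp]
  obtain ⟨M, _, _, η₀, h, G₀⟩ := h1 k N X S f π e hP K (sp g₀ ≫ j)
  obtain ⟨I, _, S₀, t₀, m₀⟩ := h6 K M _ G₀.tw
  let : Algebra k M := ((algebraMap K M).comp (algebraMap k K)).toAlgebra
  have : IsScalarTower k K M := .of_algebraMap_eq' rfl
  have u₀ := h3 k N X S f π e hP K M I _ η₀ h S₀ G₀ m₀ t₀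
  have v₀ := h4 k K M I S f _ (nz h) S₀ hS hsc e2 ⟨G₀.one, one_ne_zero⟩ (fun _ h => h.2) u₀ A j g₀
    rfl (fun a b h => hi (by rw [← hι]; exact congrArg ι h)) ha
  obtain ⟨E, _, _, _, _, η, ν, G, ld⟩ := h2 k N X S f π e hP K Ω M _ s η₀ h e1 G₀
  obtain ⟨J, _, S', t', m'⟩ := h6 Ω E _ G.tw
  have hc : ∀ a, ν (algebraMap K M a) = algebraMap Ω E (ι a) := fun a =>
    (ν.commutes a).trans (IsScalarTower.algebraMap_apply K Ω E a)
  have v := h5 K M Ω E I J (nz h) S₀ ν S' g₀.range m₀ t₀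
    ((Set.finite_range h).subset fun _ h => h.1) (fun _ h => h.2)
    ⟨m', by rw [nz_map]; exact t', fun c hc' => by
      obtain ⟨a, rfl⟩ := Algebra.mem_bot.1 hc'
      exact ⟨_, (hc a).symm⟩, ld⟩ ha v₀
  refine ⟨E, inferInstance, inferInstance, η, _, J, inferInstance, S', G, m', t',
    fun K' _ ι' s₀ hs₀ τ a1 a2 => v τ a1 ?_⟩
  obtain ⟨ρ, hρ⟩ := exists_factor s₀ j (by
    rw [← hs₀, Scheme.Hom.comp_apply] at hj
    rwa [Subsingleton.elim (α := PrimeSpectrum K') (closedPoint K') (sp ι' (closedPoint Ω))])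
  have e3 : ι'.comp ρ = g := sp_cancel j (by rw [← sp_comp_assoc, hρ, hs₀, hg])
  rintro _ ⟨_, ⟨_, ⟨a, rfl⟩, rfl⟩ | hz, rfl⟩
  · refine a2 _ (Or.inl ⟨_, ⟨ρ a, rfl⟩, ?_⟩)
    rw [hc]
    exact congrArg _ ((DFunLike.congr_fun e3 a).trans (DFunLike.congr_fun hι a).symm)
  · exact a2 _ (Or.inr (nz_map ν h ▸ ⟨_, hz, rfl⟩))

end Pool.Agent.MP_e8e0b6_ag.R2

end Part3

section Part4

-- part 4: M3

/-!
The family over a dominant family of lines.
-/

set_option autoImplicit false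

open Polynomial AlgebraicGeometry CategoryTheory Limits TensorProduct

namespace Pool.Agent.MP_e8e0b6_ag.R2

open Pool.Agent.MP_79c67d_ag Pool.Agent.MP_20d318_ag Pool.Agent.MP_20d318_ag.AG
  Pool.Agent.MP_20d318_ag.BV Pool.Agent.MP_20d318_ag.CB

namespace M3A

theorem smooth_of_et {k A : Type} [Field k] [CommRing A] [Algebra k A] (h : T.Et k A) :
    Algebra.Smooth k A := by
  obtain ⟨d, z, hz⟩ := h
  algebraize [z.toRingHom]
  have := IsScalarTower.of_algebraMap_eq' z.comp_algebraMap.symm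
  have : Algebra.Smooth k (MvPolynomial (Fin d) k) := {}
  exact Algebra.Smooth.comp k (MvPolynomial (Fin d) k) A

theorem exists_om (k B : Type) [Field k] [CommRing B] [IsDomain B] [Algebra k B] :
    ∃ (K Ω : Type) (_ : Field K) (_ : Field Ω) (_ : IsAlgClosed Ω) (_ : Algebra k Ω)
      (_ : Algebra B Ω) (_ : IsScalarTower k B Ω) (β : B →+* K) (ι : K →+* Ω),
      Function.Injective (algebraMap B Ω) ∧ ι.comp β = algebraMap B Ω ∧
      (∀ z : K, ∃ a b : B, ι z = algebraMap B Ω a / algebraMap B Ω b) ∧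
      ∀ a : Ω, IsAlgebraic B a := by
  have e : (algebraMap (FractionRing B) (AlgebraicClosure (FractionRing B))).comp
      (algebraMap B (FractionRing B)) = algebraMap B (AlgebraicClosure (FractionRing B)) :=
    (IsScalarTower.algebraMap_eq _ _ _).symm
  refine ⟨FractionRing B, AlgebraicClosure (FractionRing B), inferInstance, inferInstance,
    inferInstance, inferInstance, inferInstance, inferInstance, algebraMap _ _, algebraMap _ _,
    ?_, e, fun z => ?_, fun a => ?_⟩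
  · rw [← e]
    exact (algebraMap (FractionRing B) _).injective.comp (IsFractionRing.injective B _)
  · obtain ⟨a, b, -, rfl⟩ := IsFractionRing.div_surjective (A := B) z
    exact ⟨a, b, by rw [map_div₀, ← e]; rfl⟩
  · exact (IsFractionRing.isAlgebraic_iff B (FractionRing B) _).2
      (Algebra.IsAlgebraic.isAlgebraic a)

theorem triv_mono {Ω E J : Type} [Field Ω] [Field E] [Algebra Ω E] [Fintype J] {Z Z' : Set E}
    {S' : Sd Ω E J} (h : Triv Z S') (hZ : Z ⊆ Z') : Triv Z' S' :=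
  fun τ h1 h2 => h τ h1 fun z hz => h2 z (hZ hz)

end M3A

theorem m3_stmt (h1 : M1Stmt) (h2 : UniStmt) (h3 : MkfStmt) (h4 : Br1Stmt) (h5 : Br2bStmt)
    (h6 : Br3Stmt) (h7 : Br6Stmt) (h8 : Mk2Stmt) : M3Stmt := by
  intro k _ _ _ N X S f π e P hS hsc A _ _ _ σ hEt hσ hdom
  obtain ⟨K, Ω, _, _, _, _, _, _, β, ι, inj, hβ, hι, halg⟩ := M3A.exists_om k A[X]
  have hs : (sp (algebraMap A[X] Ω) ≫ σ) ≫ f = sp (algebraMap k Ω) := by
    rw [Category.assoc, hσ, sp_comp, ← IsScalarTower.algebraMap_eq]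
  have hd : IsDominant (sp (algebraMap A[X] Ω) ≫ σ) := by
    have := isDominant_sp inj
    infer_instance
  obtain ⟨E, _, _, η, h, J, _, S', geo, mk, hT, triv⟩ :=
    h1 k N X S f π e P hS hsc Ω (sp (algebraMap A[X] Ω) ≫ σ) hs hd
  let : Algebra k E := ((algebraMap Ω E).comp (algebraMap k Ω)).toAlgebra
  have : IsScalarTower k Ω E := IsScalarTower.of_algebraMap_eq fun _ => rfl
  let : Algebra A[X] E := ((algebraMap Ω E).comp (algebraMap A[X] Ω)).toAlgebra
  have : IsScalarTower A[X] Ω E := IsScalarTower.of_algebraMap_eq fun _ => rfl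
  have : CharZero Ω := charZero_of_injective_algebraMap (algebraMap k Ω).injective
  have one : (1 : E) ∈ nz h := ⟨geo.one, one_ne_zero⟩
  obtain ⟨F, _, _, μ, g, H, hH, hg, frac⟩ := h3 k A[X] E
    ((IsScalarTower.toAlgHom k Ω E).comp (IsScalarTower.toAlgHom k A[X] Ω)) (nz h) one
    fun a ha => ha.2
  have hg' : ∀ a, μ (g a) = algebraMap Ω E (algebraMap A[X] Ω a) := fun a => DFunLike.congr_fun hg a
  have ginj : Function.Injective g := fun a b hab =>
    inj ((algebraMap Ω E).injective (by rw [← hg', ← hg', hab]))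
  obtain ⟨𝓡, j, pc⟩ := h4 k N X S f π e P A[X] σ
  have fb : 𝓡.Fb Ω E h := h5 k A[X] Ω E N X S π e σ _ 𝓡 j η h rfl pc geo
  obtain ⟨h', -, rfl, em, -⟩ := h6 k A[X] F Ω E N 𝓡 g μ H h ginj hg' fb hH frac
  obtain ⟨η', j', lk⟩ := h7 k N X S f π e P A[X] F σ 𝓡 j g h' hσ pc em
  have uni : Uni (g.range.map μ) (μ '' nz h') S' := by
    rw [← AlgHom.range_comp, hg, hH]
    exact h2 k N X S f π e P Ω E J _ η h S' geo mk hT A[X] (IsScalarTower.toAlgHom k A[X] Ω) σ
      inj rfl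
  have sm : Algebra.Smooth k A := M3A.smooth_of_et hEt
  have : Algebra.Smooth A A[X] := {}
  have : Algebra.Smooth k A[X] := Algebra.Smooth.comp k A A[X]
  have gd : Gd g.range (nz h') μ S' := uni F μ g.range (nz h') rfl le_rfl
    (by rintro _ ⟨a, rfl⟩; exact ⟨_, (hg' a).symm⟩)
    (Algebra.Smooth.of_equiv (AlgEquiv.ofInjective g ginj)) frac
  refine ⟨F, Ω, E, J, inferInstance, inferInstance, inferInstance, inferInstance, inferInstance,
    inferInstance, inferInstance, inferInstance, inferInstance, inferInstance, g, nz h', μ, S', η',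
    j', ⟨ginj, sm, ?_, gd.fm, gd.gc, (h8 Ω E J S' mk).all, uni, fun a => ?_, ?_⟩, lk⟩
  · rw [← hH] at one
    obtain ⟨a, ha, e1⟩ := one
    rwa [μ.injective (e1.trans (map_one μ).symm)] at ha
  · refine (halg a).ringHom_of_comp_eq
      (((μ.comp g).codRestrict (g.range.map μ) fun b => ⟨g b, ⟨b, rfl⟩, rfl⟩ :
        A[X] →ₐ[k] g.range.map μ) : A[X] →+* g.range.map μ) (algebraMap Ω E)
      (fun b c hbc => ginj (μ.injective (congrArg Subtype.val hbc))) ?_
    exact RingHom.ext fun b => hg' b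
  · refine M3A.triv_mono (triv K ι (sp β ≫ σ) (by rw [← Category.assoc, sp_comp, hβ])) ?_
    rintro z (⟨_, ⟨y, rfl⟩, rfl⟩ | hz)
    · obtain ⟨a, b, hab⟩ := hι y
      exact ⟨g a / g b, by rw [map_div₀, hg', hg', hab, map_div₀]⟩
    · rw [← hH] at hz
      exact Set.image_subset_range _ _ hz

end Pool.Agent.MP_e8e0b6_ag.R2

end Part4

section Part5

-- part 5: MainB

/-!
Smooth projective families of rational surfaces over an elliptic simply connected base.
-/

set_option autoImplicit false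

open AlgebraicGeometry CategoryTheory Limits IsLocalRing Polynomial TrivSqZeroExt

namespace Pool.Agent.MP_e8e0b6_ag.R2

theorem main_stmt (hM : M3Stmt) (hP : ParStmt) (hG : GermStmt) : MainStmt := by
  intro k _ _ _ N X S f π e hf hX eS hS
  have := hX.separated
  have := hX.integral
  have := hX.smooth
  have := eS.1.separated
  have := eS.1.integral
  have := hf.sm
  have := hf.sep
  have := isSeparated_of (π ≫ f)
  refine elliptic_of_germs hX fun v hv => ?_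
  obtain ⟨U, hU, hL⟩ := exists_line eS (v ≫ π) (by rwa [Category.assoc])
  obtain ⟨A, _, j, _, φ, h1, h2, h3, h4⟩ := exists_piece (π ≫ f) (v (closedPoint _)) (π ⁻¹ᵁ U) hU
    RingHom.IsStandardSmooth fun A _ j _ φ h => (smooth_of_chart j h).locally_isStandardSmooth
  obtain ⟨θ, rfl⟩ := exists_factor v j h1
  have := θ.domain_nontrivial
  have := isDomain_chart j
  let := φ.toAlgebra
  have h5 : θ.comp φ = algebraMap k _ := sp_inj (by rw [← sp_comp, ← h3, ← Category.assoc, hv]; rfl)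
  let x : A →ₐ[k] k := ⟨(fstR k).comp θ, fun a => congrArg fst (DFunLike.congr_fun h5 a)⟩
  have h6 : epsPoint k ≫ sp θ = sp (x : A →+* k) := sp_comp _ _
  obtain ⟨σ, e1, e2, e3⟩ := hL A (j ≫ π) x (by rintro _ ⟨p, rfl⟩; exact h2 ⟨p, rfl⟩)
    (by rw [← h6]; simp)
  have e4 : σ ≫ f = sp (algebraMap k A[X]) := by rw [e1, Category.assoc, h3, sp_comp]
  obtain ⟨d, z, hz, hz'⟩ := h4.exists_etale_mvPolynomial
  have hE : T.Et k A := ⟨d, ⟨z, DFunLike.congr_fun hz⟩, hz'⟩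
  have hd : IsDominant σ := by
    have : IsDominant (sp constantCoeff ≫ σ) := by
      rw [e2]
      exact ⟨(j ≫ π).isOpenMap.isOpen_range.dense (Set.range_nonempty _)⟩
    exact IsDominant.of_comp (sp constantCoeff) σ
  obtain ⟨F, Ω, E, J, _, _, _, _, _, _, _, _, _, _, g, H₀, μ, S', η, c, hT, hK⟩ :=
    hM k N X S f π e hf eS.1 hS A σ hE e4 hd
  have H := IsPullback.of_hasPullback π σ
  obtain ⟨c1, c2⟩ := hP k A F Ω E J g x H₀ μ S' _ _ η c _ hE hT hK (H.lift_snd j _ e2.symm)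
  obtain ⟨A₂, _, _, ε, e₂, Φ, h7, h8, h9, h10⟩ := hG k A _ (pullback.snd π σ) x 2 _ _
    (isSeparated_of (pullback.snd π σ)) inferInstance hE c1 c2 (H.lift_snd j _ e2.symm)
    (H.lift_snd (sp θ ≫ j) _ e3.symm) (H.hom_ext
      (by simp [← h6]) (by
        rw [Category.assoc (epsPoint k), Category.assoc (sp (x : A →+* k)), H.lift_snd, H.lift_snd,
          sp_comp]
        refine (sp_comp _ _).trans (congrArg sp ?_)
        ext <;> simp [algebraMap_eq_inl]))
  refine ⟨A₂, _, sp (ε : A →+* A₂) ≫ j, inferInstance, Φ ≫ pullback.fst π σ, e₂, ?_, ?_, ?_⟩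
  · rw [Category.assoc, H.w_assoc, e4, h8, Category.assoc, h3, sp_comp, sp_comp]
    exact congrArg sp (RingHom.ext fun a => congrArg C (ε.commutes a).symm)
  · rw [reassoc_of% h9, H.lift_fst]
  · rw [reassoc_of% h10, H.lift_fst]

end Pool.Agent.MP_e8e0b6_ag.R2

end Part5

section Part6

-- part 6: Stalk

/-!
The local rings of an integral scheme on an affine chart.
-/

set_option autoImplicit false

open Polynomial AlgebraicGeometry CategoryTheory Limits TensorProduct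

namespace Pool.Agent.MP_e8e0b6_ag.R2

theorem stalk_stmt : StalkStmt := by
  intro Y _ B _ j _ κ hκ p
  let O := (Spec (.of B)).presheaf.stalk p
  let t : CommRingCat.of B ⟶ O := StructureSheaf.toStalk B p
  let _ : Algebra B O := t.hom.toAlgebra
  have : IsLocalization.AtPrime O p.asIdeal := StructureSheaf.IsLocalization.to_stalk B p
  let σ : Y.presheaf.stalk (j p) ⟶ Y.functionField :=
    Y.presheaf.stalkSpecializes (genericPoint_specializes (j p))
  let τ : O ⟶ Y.functionField := inv (j.stalkMap p) ≫ σ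
  have e0 : j.stalkMap p ≫ τ = σ := IsIso.hom_inv_id_assoc _ _
  have et : Spec.map t = (Spec (.of B)).fromSpecStalk p := (Spec.fromSpecStalk_eq' (.of B) p).symm
  have e1 : (t ≫ τ).hom = κ := sp_cancel j (by
    rw [hκ, sp, CommRingCat.ofHom_hom, Spec.map_comp, Category.assoc, et,
      ← Scheme.SpecMap_stalkMap_fromSpecStalk, ← Category.assoc, ← Spec.map_comp, e0, gen,
      Scheme.SpecMap_stalkSpecializes_fromSpecStalk])
  have e2 : ∀ b, τ.hom (algebraMap B O b) = κ b := DFunLike.congr_fun e1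
  ext ω
  constructor
  · rintro ⟨y, rfl⟩
    obtain ⟨⟨a, s⟩, h⟩ := IsLocalization.surj p.asIdeal.primeCompl ((j.stalkMap p).hom y : O)
    refine ⟨a, s, s.2, ?_⟩
    rw [← e2, ← e2, ← h, map_mul]
    congr 1
    exact (DFunLike.congr_fun (congrArg CommRingCat.Hom.hom e0) y).symm
  · rintro ⟨a, s, hs, h⟩
    have u := (IsLocalization.map_units O (⟨s, hs⟩ : p.asIdeal.primeCompl)).map τ.hom
    refine ⟨(inv (j.stalkMap p)).hom (IsLocalization.mk' O a (⟨s, hs⟩ : p.asIdeal.primeCompl)),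
      u.mul_right_cancel ?_⟩
    change τ.hom _ * _ = _
    rw [← map_mul, IsLocalization.mk'_spec, e2, e2, h]

end Pool.Agent.MP_e8e0b6_ag.R2

end Part6

section Part7

-- part 7: Ufds

/-!
The local rings of a smooth variety are factorial.
-/

set_option autoImplicit false

namespace Pool.Agent.MP_e8e0b6_ag.R2

open Pool.Agent.MP_79c67d_ag Pool.Agent.MP_20d318_ag Pool.Agent.MP_20d318_ag.AG
  Pool.Agent.MP_20d318_ag.BV Pool.Agent.MP_20d318_ag.CB

theorem ufds_stmt : UfdsStmt := by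
  intro k F _ _ _ _ _ B hB O h
  have := h.1
  let _ : Algebra B O := (Subalgebra.inclusion h.2.1).toRingHom.toAlgebra
  let N : Submonoid B :=
    { carrier := {b | IsU O (b : F)}
      mul_mem' := fun ha hb => ha.mul hb
      one_mem' := isU_one }
  have : IsLocalization N O := by
    refine (isLocalization_iff _ _).2 ⟨fun b => (isU_iff_isUnit _).1 b.2, fun f => ?_,
      fun {a b} e => ⟨1, ?_⟩⟩
    · obtain ⟨a, ha, b, hb, hu, e⟩ := h.2.2 f f.2
      refine ⟨(⟨a, ha⟩, ⟨⟨b, hb⟩, hu⟩), Subtype.ext ?_⟩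
      change (f : F) * b = a
      rw [e, div_mul_cancel₀ _ hu.ne]
    · rw [Subalgebra.inclusion_injective h.2.1 e]
  obtain ⟨m, hm, hle⟩ := Ideal.exists_le_maximal
    ((IsLocalRing.maximalIdeal O).comap (algebraMap B O)) (Ideal.IsPrime.ne_top inferInstance)
  have hu : ∀ b : m.primeCompl, IsUnit (algebraMap B O b) := fun b => by
    by_contra a
    exact b.2 (hle (Ideal.mem_comap.2 ((IsLocalRing.mem_maximalIdeal _).2 a)))
  have hN : m.primeCompl ≤ N := fun b hb => (isU_iff_isUnit (algebraMap B O b)).2 (hu ⟨b, hb⟩)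
  let _ : Algebra (Localization.AtPrime m) O := (IsLocalization.lift hu).toAlgebra
  have : IsScalarTower B (Localization.AtPrime m) O :=
    .of_algebraMap_eq fun b => (IsLocalization.lift_eq hu b).symm
  have := IsLocalization.isLocalization_of_submonoid_le (Localization.AtPrime m) O _ N hN
  have := SB.ufd_smooth (k := k) m
  exact UniqueFactorizationMonoid.of_isLocalization (N.map (algebraMap B (Localization.AtPrime m))) O

end Pool.Agent.MP_e8e0b6_ag.R2

end Part7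

section Part8

-- part 8: UniB

/-!
All smooth base changes of a smooth projective family of rational surfaces are good.
-/

set_option autoImplicit false

open Polynomial AlgebraicGeometry CategoryTheory Limits TensorProduct

namespace Pool.Agent.MP_e8e0b6_ag.R2

open Pool.Agent.MP_79c67d_ag Pool.Agent.MP_20d318_ag Pool.Agent.MP_20d318_ag.AG
  Pool.Agent.MP_20d318_ag.BV Pool.Agent.MP_20d318_ag.CB

namespace UniA

theorem lift {A B E : Type} [CommRing A] [CommRing B] [CommRing E] (ψ : A →+* E) (ι : B →+* E)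
    (hι : Function.Injective ι) (h : ∀ a, ∃ b, ι b = ψ a) : ∃ φ : A →+* B, ∀ a, ι (φ a) = ψ a := by
  choose φ e using h
  exact ⟨⟨⟨⟨φ, hι (by rw [e, map_one, map_one])⟩, fun a b => hι (by rw [map_mul, e, e, e, map_mul])⟩,
    hι (by rw [map_zero]; exact (e 0).trans (map_zero ψ)),
    fun a b => hι (by rw [map_add]; exact (e _).trans ((map_add ψ a b).trans (by rw [← e, ← e])))⟩, e⟩

end UniA

theorem uni_stmt (h1 : Br1Stmt) (h2 : Br2aStmt) (h3 : Br2bStmt) (h4 : Br3Stmt) (h5 : Br4Stmt)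
    (h6 : Br5Stmt) : UniStmt := by
  intro k _ _ _ N X S f π e pf Ω E J _ _ _ _ _ _ _ s η h S' geo mk eq A _ _ g σ ginj hs F _ _ μ C H
    hH hC hb sm fr
  obtain ⟨l, hl⟩ := UniA.lift ((μ : F →+* E).comp (C.val : C →+* F)) (algebraMap Ω E)
    (algebraMap Ω E).injective fun c => hb c c.2
  obtain ⟨φ, hφ⟩ := UniA.lift ((algebraMap Ω E).comp (g : A →+* Ω))
    ((μ : F →+* E).comp (C.val : C →+* F)) ((μ : F →+* E).injective.comp Subtype.val_injective)
    fun a => by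
      obtain ⟨c, hc, e⟩ := hC ⟨a, rfl⟩
      exact ⟨⟨c, hc⟩, e⟩
  have e1 : sp l ≫ sp φ ≫ σ = s := by
    rw [sp_comp_assoc, show l.comp φ = g from
      RingHom.ext fun a => (algebraMap Ω E).injective ((hl _).trans (hφ a)), hs]
  let : Algebra C Ω := l.toAlgebra
  let : Algebra C E := ((algebraMap Ω E).comp l).toAlgebra
  have : IsScalarTower C Ω E := IsScalarTower.of_algebraMap_eq fun _ => rfl
  obtain ⟨𝓡, j, pc⟩ := h1 k N X S f π e pf C (sp φ ≫ σ)
  obtain ⟨h', -, rfl, em, ld⟩ := h4 k C F Ω E N 𝓡 C.val μ H h Subtype.val_injective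
    (fun a => (hl a).symm) (h3 k C Ω E N X S π e _ s 𝓡 j η h e1 pc geo) hH
    (by rw [Subalgebra.range_val]; exact fr)
  have fbs : 𝓡.Fbs := fun L _ _ _ => by
    obtain ⟨M, _, _, η', h'', geo'⟩ := h2 k N X S f π e pf L (sp (algebraMap C L) ≫ sp φ ≫ σ)
    let : Algebra C M := ((algebraMap L M).comp (algebraMap C L)).toAlgebra
    have : IsScalarTower C L M := IsScalarTower.of_algebraMap_eq fun _ => rfl
    exact ⟨M, _, _, _, this, h'', h3 k C L M N X S π e _ _ 𝓡 j η' h'' rfl pc geo', geo'.tw⟩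
  have fm := h5 k C F N 𝓡 C.val h' sm em fbs
  have lc := h6 k C F N 𝓡 C.val h' em fbs fm
  rw [Subalgebra.range_val] at fm lc ld
  exact ⟨sm, fm, ⟨mk, hH.symm ▸ eq, hb, ld⟩, lc⟩

end Pool.Agent.MP_e8e0b6_ag.R2

end Part8

section Part9

-- part 9: Xf

/-!
Row XF: the geometric fibre over a larger field.
-/

set_option autoImplicit false

open Polynomial AlgebraicGeometry CategoryTheory Limits TensorProduct

namespace Pool.Agent.MP_e8e0b6_ag.R2

open Pool.Agent.MP_79c67d_ag Pool.Agent.MP_20d318_ag Pool.Agent.MP_20d318_ag.AG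
  Pool.Agent.MP_20d318_ag.BV Pool.Agent.MP_20d318_ag.CB

attribute [local instance] MvPolynomial.gradedAlgebra

namespace XfA

variable {k Ω E M : Type} [Field k] [Field Ω] [Field E] [Field M] [Algebra Ω E] {N : ℕ}

theorem nz_map (ν : M →+* E) (h : Fin (N + 1) → M) : ν '' nz h = nz fun l => ν (h l) := by
  ext a
  constructor
  · rintro ⟨_, ⟨⟨l, rfl⟩, h0⟩, rfl⟩
    exact ⟨⟨l, rfl⟩, (map_ne_zero ν).2 h0⟩
  · rintro ⟨⟨l, rfl⟩, h0⟩
    exact ⟨h l, ⟨⟨l, rfl⟩, (map_ne_zero ν).1 h0⟩, rfl⟩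

theorem nz_div (h : Fin (N + 1) → E) {c : E} (hc : c ≠ 0) :
    nz (fun l => h l / c) = (fun a => a / c) '' nz h := by
  ext a
  constructor
  · rintro ⟨⟨l, rfl⟩, h0⟩
    exact ⟨h l, ⟨⟨l, rfl⟩, (div_ne_zero_iff.1 h0).1⟩, rfl⟩
  · rintro ⟨_, ⟨⟨l, rfl⟩, h0⟩, rfl⟩
    exact ⟨⟨l, rfl⟩, div_ne_zero h0 hc⟩

theorem cht_div (H : Set E) (c : E) (j : Unit → E) :
    cht Ω (fun _ : Unit => (fun a => a / c) '' H) j = cht Ω (fun _ : Unit => H) fun l => c * j l := by
  simp only [cht, Set.image_image, div_div]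

theorem mp_div (H : Set E) {c : E} (hc : c ≠ 0) :
    mp Ω (fun _ : Unit => (fun a => a / c) '' H) = mp Ω fun _ : Unit => H := by
  ext O
  constructor
  · rintro ⟨j, hj, hO⟩
    refine ⟨fun l => c * j l, fun l => ?_, cht_div (Ω := Ω) H c j ▸ hO⟩
    obtain ⟨a, ha, e⟩ := hj l
    show c * j l ∈ H
    rwa [← e, mul_div_cancel₀ _ hc]
  · rintro ⟨j, hj, hO⟩
    refine ⟨fun l => j l / c, fun l => ⟨j l, hj l, rfl⟩, ?_⟩
    rw [cht_div]
    simpa only [mul_div_cancel₀ _ hc] using hO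

/-- homogeneous coordinates may be scaled -/
theorem scale {X S : Scheme.{0}} {π : X ⟶ S} {e : X ⟶ projSpace k N} {s : Spec (.of Ω) ⟶ S}
    {η : Spec (.of E) ⟶ pullback π s} {h : Fin (N + 1) → E} (G : Geo π e s η h)
    {i : Fin (N + 1)} (hi : h i ≠ 0) : Geo π e s η fun l => h l / h i where
  int := G.int
  dom := G.dom
  base := G.base
  one := ⟨i, div_self hi⟩
  co i' h0 := by
    obtain ⟨ρ, h1, h2⟩ := G.co i' (div_ne_zero_iff.1 h0).1
    exact ⟨ρ, h1, fun l => by rw [h2, div_div_div_cancel_right₀ hi]⟩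
  mem i' ρ h1 := div_ne_zero (G.mem i' ρ h1) hi
  tw := by
    rw [nz_div h hi, mp_div _ hi]
    exact G.tw

end XfA

theorem xf_stmt (h1 : Br1Stmt) (h2 : Br2aStmt) (h3 : Br2bStmt) (h4 : Br3Stmt) (h5 : XfrStmt)
    (h6 : Mk1Stmt) (h7 : Mk2Stmt) (h8 : Fm0Stmt) : XfStmt := by
  intro k _ _ _ N X S f π e P K Ω M _ _ _ _ _ _ _ _ s₀ s η₀ h hs G
  obtain ⟨𝓡, j, hc⟩ := h1 k N X S f π e P K s₀
  have F0 : 𝓡.Fb K M h := h3 k K K M N X S π e s₀ s₀ 𝓡 j η₀ h
    (by rw [Algebra.algebraMap_self, sp_id, Category.id_comp]) hc G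
  obtain ⟨E, _, _, η, h', G'⟩ := h2 k N X S f π e P Ω s
  let _ : Algebra K E := ((algebraMap Ω E).comp (algebraMap K Ω)).toAlgebra
  have : IsScalarTower K Ω E := IsScalarTower.of_algebraMap_eq fun _ => rfl
  obtain ⟨I, _, S₀, hT, hM⟩ := h6 K M _ G.tw
  have fm := (h8 K M I S₀ (nz h) (h7 K M I S₀ hM).all hT
    ((Set.finite_range h).subset fun _ ha => ha.1) fun _ ha => ha.2).2.1
  obtain ⟨i, hi⟩ := G.one
  obtain ⟨ν, hne, hν⟩ := h5 K M Ω E N 𝓡 h h' i F0 (h3 k K Ω E N X S π e s₀ s 𝓡 j η h' hs hc G')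
    hi (fm.frac 1 ⟨⟨i, hi⟩, one_ne_zero⟩)
  have G'' : Geo π e s η fun l => ν (h l) := by
    rw [funext hν]
    exact XfA.scale G' hne
  obtain ⟨_, -, -, -, ld⟩ := h4 K K M Ω E N 𝓡 (Algebra.ofId K M) ν (nz h) (fun l => ν (h l))
    (algebraMap K M).injective (fun a => ν.commutes a)
    (h3 k K Ω E N X S π e s₀ s 𝓡 j η _ hs hc G'') (XfA.nz_map (ν : M →+* E) h) fm.frac
  exact ⟨E, _, _, _, this, η, ν, G'', ld⟩

end Pool.Agent.MP_e8e0b6_ag.R2

end Part9

section Part10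

-- part 10: Xfr

/-!
Extension of the field of constants: the function field of a fibre maps to the function field of
the geometric fibre.
-/

set_option autoImplicit false

open Polynomial AlgebraicGeometry CategoryTheory Limits TensorProduct

namespace Pool.Agent.MP_e8e0b6_ag.R2

open Pool.Agent.MP_79c67d_ag Pool.Agent.MP_20d318_ag Pool.Agent.MP_20d318_ag.AG
  Pool.Agent.MP_20d318_ag.BV Pool.Agent.MP_20d318_ag.CB

namespace XfrA

variable {K L F B : Type} [Field K] [Field L] [Field F] [CommRing B] [Algebra K B] [Algebra K L]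

theorem right_inj :
    Function.Injective (Algebra.TensorProduct.includeRight : B →ₐ[K] L ⊗[K] B) :=
  Algebra.TensorProduct.includeRight_injective (algebraMap K L).injective

theorem inj_of_tens [Algebra L F] [Algebra K F] [IsScalarTower K L F] (θ : B →ₐ[K] F)
    (h : Function.Injective (tens L θ)) : Function.Injective θ := by
  intro a b e
  apply right_inj (K := K) (L := L)
  apply h
  simp only [Algebra.TensorProduct.includeRight_apply, tens_tmul, e]

end XfrA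

theorem xfr_stmt : XfrStmt := by
  intro K M Ω E _ _ _ _ _ _ _ _ _ N 𝓡 h h' i f1 f2 hi hfr
  obtain ⟨θ, hθ, iθ⟩ := f1.emb i (by rw [hi]; exact one_ne_zero)
  have jθ := XfrA.inj_of_tens θ iθ
  have nt : Nontrivial (𝓡.B i) := θ.toRingHom.domain_nontrivial
  have hi' : h' i ≠ 0 := by
    intro e
    have s1 := f2.zero i e
    have s2 : Subsingleton (𝓡.B i) := (XfrA.right_inj (L := Ω) (K := K)).subsingleton
    exact not_subsingleton _ s2
  obtain ⟨θ', hθ', iθ'⟩ := f2.emb i hi'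
  have jθ' := XfrA.inj_of_tens θ' iθ'
  have hle : ch (⊥ : Subalgebra K M) (nz h) 1 ≤ θ.range := by
    refine sup_le bot_le (Algebra.adjoin_le ?_)
    rintro _ ⟨a, ⟨⟨l, rfl⟩, -⟩, rfl⟩
    exact ⟨𝓡.r i l, by rw [← hi]; exact hθ l⟩
  obtain ⟨φ, hφ⟩ := exists_lift_frac (r := θ.toRingHom) jθ (fun ω => by
    obtain ⟨a, ha, b, hb, b0, e⟩ := hfr ω
    obtain ⟨x, rfl⟩ := hle ha
    obtain ⟨y, rfl⟩ := hle hb
    refine ⟨x, y, ?_, ?_⟩
    · rintro rfl
      exact b0 (map_zero _)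
    · rw [e]
      exact div_mul_cancel₀ _ b0) (g := θ'.toRingHom) jθ'
  refine ⟨⟨φ, fun c => ?_⟩, hi', fun l => ?_⟩
  · have := hφ (algebraMap K _ c)
    simpa using this
  · have := hφ (𝓡.r i l)
    have e1 : θ (𝓡.r i l) = h l := by rw [hθ l, hi, div_one]
    rw [← hθ' l, ← e1]
    exact this

end Pool.Agent.MP_e8e0b6_ag.R2

end Part10

section Part11

-- part 11: Redt

/-!
The closed fibre is the variety with the reduced coordinates.
-/

set_option autoImplicit false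

namespace Pool.Agent.MP_e8e0b6_ag.R2

open Pool.Agent.MP_79c67d_ag Pool.Agent.MP_20d318_ag Pool.Agent.MP_20d318_ag.AG
  Pool.Agent.MP_20d318_ag.BV Pool.Agent.MP_20d318_ag.CB

namespace RedtA

variable {k F M : Type} [Field k] [Field F] [Field M] [Algebra k F] [Algebra k M] {N : ℕ}
  {R ξ : Subalgebra k F} {ρ : ξ →ₐ[k] M} {h : Fin (N + 1) → F} {h' : Fin (N + 1) → M}
  {W : Subalgebra k M} {i : Fin (N + 1)}

theorem up (hr : RatPt R) (hd : AG.Dom R ξ) (hρ : LocHom ξ ρ)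
    (H : ∀ l, h l / h i ∈ ξ ∧ evO ξ ρ (h l / h i) = h' l / h' i)
    (hW : cht k (fun _ : Unit => nz h') (fun _ => h' i) ≤ W) :
    ch R (nz h) (h i) ≤ ZcA.pre ξ ρ W := by
  refine C.ch_le (fun r hr' => ZcA.mem_pre.2 ⟨hd.1 hr', ?_⟩) ?_
  · obtain ⟨c, hc⟩ := hr r hr'
    have h1 := (hρ.eq_zero_iff (hd.1 hc.1)).2 (hd.mx hc)
    rw [evO_sub ρ (hd.1 hr') (ξ.algebraMap_mem c), evO_const, sub_eq_zero] at h1
    rw [h1]
    exact W.algebraMap_mem c
  · rintro _ ⟨⟨l, rfl⟩, -⟩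
    refine ZcA.mem_pre.2 ⟨(H l).1, ?_⟩
    rw [(H l).2]
    by_cases h0 : h' l = 0
    · rw [h0, zero_div]; exact W.zero_mem
    · exact hW (Algebra.subset_adjoin (Set.mem_iUnion.2 ⟨(), _, ⟨⟨l, rfl⟩, h0⟩, rfl⟩))

theorem down (hn : ∀ l, h' l ≠ 0 → h l ≠ 0)
    (H : ∀ l, h l / h i ∈ ξ ∧ evO ξ ρ (h l / h i) = h' l / h' i) :
    cht k (fun _ : Unit => nz h') (fun _ => h' i) ≤ red ξ ρ (ch R (nz h) (h i)) := by
  refine Algebra.adjoin_le fun m hm => ?_
  obtain ⟨_, _, ⟨⟨l, rfl⟩, h0⟩, rfl⟩ := Set.mem_iUnion.1 hm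
  exact C.mem_red.2 ⟨_, C.div_mem_ch ⟨⟨l, rfl⟩, hn l h0⟩, (H l).1, (H l).2⟩

end RedtA

theorem redt_stmt : RedtStmt := by
  intro k F M _ _ _ _ _ N R ξ ρ h h' hr hf hρ ⟨i₀, hi₀⟩ H
  have hn : ∀ l, h' l ≠ 0 → h l ≠ 0 := fun l hl => (H l hl).1
  ext W
  constructor
  · rintro ⟨j, hj, hW⟩
    obtain ⟨⟨i, e⟩, h0⟩ := hj ()
    obtain rfl : j = fun _ => h' i := funext fun _ => e.symm
    obtain ⟨O, hO, hd⟩ := exists_ctr (ZcA.loc_pre hρ hW.1) (RedtA.up hr hf.dom hρ (H i h0).2 hW.2.1)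
    have hle : O ≤ ξ := fun a ha => (ZcA.mem_pre.1 (hd.1 ha)).1
    refine ⟨O, ⟨⟨h i, ⟨⟨i, rfl⟩, hn i h0⟩, hO⟩, le_sup_left.trans hO.2.1,
      fun u hu w => hf.dom.2 u hu (w.mono hle)⟩, le_antisymm (fun m hm => ?_) fun m hm => ?_⟩
    · obtain ⟨a, ha, -, rfl⟩ := C.mem_red.1 hm
      exact (ZcA.mem_pre.1 (hd.1 ha)).2
    · obtain ⟨a, ha, b, hb, hu, rfl⟩ := hW.2.2 m hm
      obtain ⟨p, hp, p1, rfl⟩ := C.mem_red.1 (RedtA.down (R := R) hn (H i h0).2 ha)
      obtain ⟨q, hq, q1, rfl⟩ := C.mem_red.1 (RedtA.down (R := R) hn (H i h0).2 hb)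
      have hq' := hd.2 q (hO.2.1 hq) ((ZcA.isU_pre hρ q1).2 hu)
      rw [← evO_div ρ p1 (hq'.mono hle)]
      exact C.ev_mem hle (hq'.div_mem (hO.2.1 hp))
  · rintro ⟨O, ⟨hX, hd⟩, rfl⟩
    have hle := hf.le O hX hd
    obtain ⟨_, ⟨⟨i, rfl⟩, hi⟩, hO⟩ := hX
    have hu : IsU ξ (h i / h i₀) := ⟨div_ne_zero hi (hn i₀ hi₀), ((H i₀ hi₀).2 i).1, by
      rw [inv_div]; exact hle (hO.2.1 (C.div_mem_ch ⟨⟨i₀, rfl⟩, hn i₀ hi₀⟩))⟩
    have h0 : h' i ≠ 0 := fun e => evO_ne ρ hu (by rw [((H i₀ hi₀).2 i).2, e, zero_div])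
    refine ⟨fun _ => h' i, fun _ => ⟨⟨i, rfl⟩, h0⟩, C.red_loc hle hO.1,
      (RedtA.down hn (H i h0).2).trans (C.red_mono hO.2.1), fun m hm => ?_⟩
    obtain ⟨a, ha, -, rfl⟩ := C.mem_red.1 hm
    obtain ⟨p, hp, q, hq, hq', rfl⟩ := hO.2.2 a ha
    have h2 := RedtA.up hr hf.dom hρ (H i h0).2 le_rfl
    exact ⟨_, (ZcA.mem_pre.1 (h2 hp)).2, _, (ZcA.mem_pre.1 (h2 hq)).2, C.ev_unit hle hq',
      evO_div ρ (hle (hO.2.1 hp)) (hq'.mono hle)⟩

end Pool.Agent.MP_e8e0b6_ag.R2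

end Part11
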