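import Pool.Agent.MP_e8e0b6_ag.R2.C.Bas

section Part1

-- part 1: C Alg

/-!
The module of sections over the line has two generators.
-/

set_option autoImplicit false

namespace Pool.Agent.MP_e8e0b6_ag.R2.C

open Pool.Agent.MP_79c67d_ag Pool.Agent.MP_20d318_ag Pool.Agent.MP_20d318_ag.AG
  Pool.Agent.MP_20d318_ag.BV Pool.Agent.MP_20d318_ag.CB

namespace Alg

variable {k F : Type} [Field k] [Field F] [Algebra k F] {R : Subalgebra k F}
  {N N' : Submodule R F} {I : Ideal R} {t f x y : F}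

/-- The multiples of `y` by members of `N`. -/
def ml (N : Submodule R F) (y : F) : Submodule R F := N.map (LinearMap.mulRight R y)

theorem mem_ml : x ∈ ml N y ↔ ∃ a ∈ N, a * y = x := Iff.rfl

theorem ml_smul : I • ml N y = ml (I • N) y := (Submodule.map_smul'' _ _ _).symm

/-- The ring generated by `t` as a module over the base. -/
def aa (R : Subalgebra k F) (t : F) : Submodule R F where
  carrier := ↑(R ⊔ Algebra.adjoin k {t})
  add_mem' := fun h h' => add_mem h h'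
  zero_mem' := zero_mem (R ⊔ Algebra.adjoin k {t})
  smul_mem' := fun c _ h => mul_mem ((le_sup_left : R ≤ R ⊔ Algebra.adjoin k {t}) c.2) h

theorem mem_aa : x ∈ aa R t ↔ x ∈ R ⊔ Algebra.adjoin k {t} := Iff.rfl

theorem t_mem : t ∈ R ⊔ Algebra.adjoin k {t} :=
  (le_sup_right : _ ≤ R ⊔ Algebra.adjoin k {t}) (Algebra.subset_adjoin rfl)

theorem st_smul (h : ∀ x ∈ N, f * x ∈ N) : ∀ x ∈ I • N, f * x ∈ I • N := fun _ hx =>
  Submodule.smul_induction_on hx
    (fun r hr x hx => by rw [mul_smul_comm]; exact Submodule.smul_mem_smul hr (h x hx))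
    fun x y hx hy => by rw [mul_add]; exact add_mem hx hy

theorem st_sup {P : Submodule R F} (h : ∀ x ∈ N, f * x ∈ P) (h' : ∀ x ∈ N', f * x ∈ P) :
    ∀ x ∈ N ⊔ N', f * x ∈ P := fun x hx => by
  obtain ⟨a, ha, b, hb, rfl⟩ := Submodule.mem_sup.1 hx
  rw [mul_add]; exact add_mem (h a ha) (h' b hb)

theorem st_span {P : Submodule R F} {G : Set F} (h : ∀ x ∈ G, f * x ∈ P) :
    ∀ x ∈ Submodule.span R G, f * x ∈ P := fun x hx => by
  induction hx using Submodule.span_induction with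
  | mem b hb => exact h b hb
  | zero => rw [mul_zero]; exact zero_mem _
  | add b c _ _ hb hc => rw [mul_add]; exact add_mem hb hc
  | smul c b _ hb => rw [mul_smul_comm]; exact P.smul_mem c hb

theorem st_ml (hf : f ∈ aa R t) : ∀ x ∈ ml (aa R t) y, f * x ∈ ml (aa R t) y := by
  rintro _ ⟨a, ha, rfl⟩
  exact ⟨f * a, mem_aa.2 (mul_mem (mem_aa.1 hf) (mem_aa.1 ha)), mul_assoc f a y⟩

/-- A module that contains `1` and is stable under `t` contains the ring. -/
theorem aa_le (h1 : (1 : F) ∈ N) (h : ∀ x ∈ N, t * x ∈ N) : aa R t ≤ N := by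
  let T : Subalgebra k F :=
    { carrier := {f | ∀ x ∈ N, f * x ∈ N}
      mul_mem' := fun {a b} ha hb x hx => by rw [mul_assoc]; exact ha _ (hb x hx)
      add_mem' := fun {a b} ha hb x hx => by rw [add_mul]; exact add_mem (ha x hx) (hb x hx)
      algebraMap_mem' := fun c x hx => N.smul_mem (⟨_, R.algebraMap_mem c⟩ : R) hx }
  have hle : R ⊔ Algebra.adjoin k {t} ≤ T :=
    sup_le (fun r hr x hx => N.smul_mem (⟨r, hr⟩ : R) hx)
      (Algebra.adjoin_le (Set.singleton_subset_iff.2 h))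
  intro a ha
  have := hle ha 1 h1
  rwa [mul_one] at this

theorem smul_aa [IsLocalRing R] (hx : x ∈ IsLocalRing.maximalIdeal R • aa R t) :
    x ∈ Submodule.span ↥(R ⊔ Algebra.adjoin k {t}) (mx R) :=
  Submodule.smul_induction_on hx
    (fun r hr a ha => by
      rw [show r • a = a * (r : F) from mul_comm _ _]
      exact span_mul (mem_aa.1 ha) (Submodule.subset_span ((mem_mx_iff r).2 hr)))
    fun _ _ => add_mem

theorem shf {P : Submodule R F} (h : N' ≤ P) (hx : x ∈ I • (N ⊔ N')) : x ∈ P ⊔ I • N := by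
  rw [Submodule.smul_sup, sup_comm] at hx
  exact sup_le_sup_right (Submodule.smul_le_right.trans h) _ hx

theorem nak [IsLocalRing R] (h : N'.FG) (h' : N' ≤ N ⊔ IsLocalRing.maximalIdeal R • N') : N' ≤ N :=
  Submodule.le_of_le_smul_of_le_jacobson_bot h (IsLocalRing.maximalIdeal_le_jacobson _) h'

/-- The first powers of `t`. -/
def ss (R : Subalgebra k F) (t : F) (n : ℕ) : Submodule R F :=
  Submodule.span R ((fun i => t ^ i) '' Set.Iio n)

theorem pow_ss {n i : ℕ} (h : i < n) : t ^ i ∈ ss R t n := Submodule.subset_span ⟨i, h, rfl⟩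

theorem ss_le {n : ℕ} : ss R t n ≤ aa R t :=
  Submodule.span_le.2 (by rintro _ ⟨i, -, rfl⟩; exact pow_mem t_mem i)

/-- A monic polynomial and a polynomial congruent to `1` generate the unit ideal. -/
theorem cop [IsLocalRing R] {n : ℕ} {s c : F} (hs : s ∈ ss R t n)
    (hc : c ∈ IsLocalRing.maximalIdeal R • aa R t) :
    ∃ p ∈ aa R t, ∃ q ∈ aa R t, p * (t ^ n + s) + q * (1 - c) = 1 := by
  have h1 : ∀ i ≤ n, t ^ i ∈ ss R t n ⊔ ml (aa R t) (t ^ n + s) := fun i hi => by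
    rcases hi.lt_or_eq with h | rfl
    · exact Submodule.mem_sup_left (pow_ss h)
    · have := sub_mem (Submodule.mem_sup_right (S := ss R t i)
        (mem_ml.2 ⟨1, one_mem (R ⊔ Algebra.adjoin k {t}), one_mul (t ^ i + s)⟩ :
          _ ∈ ml (aa R t) _)) (Submodule.mem_sup_left hs)
      rwa [add_sub_cancel_right] at this
  have h2 : aa R t ≤ ss R t n ⊔ ml (aa R t) (t ^ n + s) := by
    refine aa_le (by simpa using h1 0 n.zero_le) (st_sup (st_span ?_) fun x hx =>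
      Submodule.mem_sup_right (st_ml t_mem x hx))
    rintro _ ⟨i, hi, rfl⟩
    rw [← pow_succ']
    exact h1 _ hi
  have h3 : ss R t n ≤ ml (aa R t) (t ^ n + s) ⊔ ml (aa R t) (1 - c) := by
    refine nak (Submodule.fg_span ((Set.finite_Iio n).image _)) fun x hx => ?_
    have a1 := Submodule.smul_mono le_rfl h2
      (st_smul (fun y hy => mem_aa.2 (mul_mem (mem_aa.1 (ss_le hx)) (mem_aa.1 hy))) c hc)
    have a2 : x * c ∈ (ml (aa R t) (t ^ n + s) ⊔ ml (aa R t) (1 - c)) ⊔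
        IsLocalRing.maximalIdeal R • ss R t n := shf le_sup_left a1
    have a3 := add_mem a2 (Submodule.mem_sup_left (Submodule.mem_sup_right
      (mem_ml.2 ⟨x, ss_le hx, rfl⟩ : x * (1 - c) ∈ ml (aa R t) (1 - c))))
    rwa [show x * c + x * (1 - c) = x by ring] at a3
  obtain ⟨_, ⟨p, hp, rfl⟩, _, ⟨q, hq, rfl⟩, e⟩ := Submodule.mem_sup.1
    (sup_le h3 le_sup_left (h2 (one_mem (R ⊔ Algebra.adjoin k {t}))))
  exact ⟨p, hp, q, hq, e⟩

end Alg

open Alg in
theorem alg : AlgStmt := by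
  intro k F _ _ _ R n t z Y hR h
  let N : Submodule R F := Submodule.span R (Y '' Set.Iic n)
  let L : Submodule R F := ml (aa R t) z ⊔ ml (aa R t) (Y n)
  have one : (1 : F) ∈ aa R t := one_mem (R ⊔ Algebra.adjoin k {t})
  have yN : ∀ j ≤ n, Y j ∈ N := fun j hj => Submodule.subset_span ⟨j, hj, rfl⟩
  have tL : ∀ x ∈ L, t * x ∈ L :=
    st_sup (fun x hx => Submodule.mem_sup_left (st_ml t_mem x hx))
      fun x hx => Submodule.mem_sup_right (st_ml t_mem x hx)
  have zL : z ∈ L := Submodule.mem_sup_left ⟨1, one, one_mul z⟩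
  have nL : Y n ∈ L := Submodule.mem_sup_right ⟨1, one, one_mul (Y n)⟩
  have h1 : ∀ i < n, t * Y i - Y (i + 1) ∈ IsLocalRing.maximalIdeal R • (N ⊔ L) := fun i hi => by
    refine Submodule.span_le.2 ?_ (h i hi)
    rintro _ ⟨r, hr, g, hg, rfl⟩
    refine Submodule.smul_mem_smul ((mem_mx_iff (⟨r, hr.1⟩ : R)).1 hr) (?_ : g ∈ N ⊔ L)
    rcases hg with rfl | rfl | rfl | ⟨j, hj, rfl⟩
    · exact Submodule.mem_sup_right zL
    · exact Submodule.mem_sup_right (tL _ zL)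
    · exact Submodule.mem_sup_right (tL _ nL)
    · exact Submodule.mem_sup_left (yN j hj)
  have tK : ∀ x ∈ N ⊔ L, t * x ∈ N ⊔ L := by
    refine st_sup (st_span ?_) fun x hx => Submodule.mem_sup_right (tL x hx)
    rintro _ ⟨j, hj, rfl⟩
    rcases (Set.mem_Iic.1 hj).lt_or_eq with hl | rfl
    · have := add_mem (Submodule.smul_le_right (h1 j hl)) (Submodule.mem_sup_left (yN _ hl))
      rwa [sub_add_cancel] at this
    · exact Submodule.mem_sup_right (tL _ nL)
  have h2 : ∀ i ≤ n, Y i - t ^ i * Y 0 ∈ IsLocalRing.maximalIdeal R • (N ⊔ L) := fun i hi => by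
    induction i with
    | zero => simp
    | succ i ih =>
      have := sub_mem (st_smul tK _ (ih (Nat.le_of_succ_le hi))) (h1 i hi)
      rwa [show t * (Y i - t ^ i * Y 0) - (t * Y i - Y (i + 1)) = Y (i + 1) - t ^ (i + 1) * Y 0 by
        ring] at this
  have h3 : N ≤ ml (ss R t n) (Y 0) ⊔ L := by
    refine nak (Submodule.fg_span ((Set.finite_Iic n).image _)) (Submodule.span_le.2 ?_)
    rintro _ ⟨j, hj, rfl⟩
    rcases (Set.mem_Iic.1 hj).lt_or_eq with hl | rfl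
    · have a2 : Y j - t ^ j * Y 0 ∈ (ml (ss R t n) (Y 0) ⊔ L) ⊔ IsLocalRing.maximalIdeal R • N :=
        shf le_sup_right (h2 j hj)
      have a3 := add_mem a2 (Submodule.mem_sup_left (Submodule.mem_sup_left
        (mem_ml.2 ⟨_, pow_ss hl, rfl⟩ : t ^ j * Y 0 ∈ ml (ss R t n) (Y 0))))
      rwa [sub_add_cancel] at a3
    · exact Submodule.mem_sup_left (Submodule.mem_sup_right nL)
  have h4 := Submodule.smul_mono le_rfl (sup_le h3 le_sup_right) (h2 n le_rfl)
  rw [Submodule.smul_sup, Submodule.smul_sup, ml_smul, ml_smul, ml_smul] at h4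
  obtain ⟨_, ⟨s, hs, rfl⟩, w, hw, e⟩ := Submodule.mem_sup.1 h4
  obtain ⟨_, ⟨α, hα, rfl⟩, _, ⟨c, hc, rfl⟩, rfl⟩ := Submodule.mem_sup.1 hw
  have e' : s * Y 0 + (α * z + c * Y n) = Y n - t ^ n * Y 0 := e
  have hs' : s ∈ ss R t n := Submodule.smul_le_right hs
  have hα' : α ∈ R ⊔ Algebra.adjoin k {t} := mem_aa.1 (Submodule.smul_le_right hα)
  have hc' : c ∈ R ⊔ Algebra.adjoin k {t} := mem_aa.1 (Submodule.smul_le_right hc)
  obtain ⟨p, hp, q, hq, u⟩ := cop hs' hc
  have mz : z ∈ Submodule.span ↥(R ⊔ Algebra.adjoin k {t}) ({z, q * Y 0 + p * Y n} : Set F) :=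
    Submodule.subset_span (Or.inl rfl)
  have my : q * Y 0 + p * Y n ∈
      Submodule.span ↥(R ⊔ Algebra.adjoin k {t}) ({z, q * Y 0 + p * Y n} : Set F) :=
    Submodule.subset_span (Or.inr rfl)
  have m0 : Y 0 ∈ Submodule.span ↥(R ⊔ Algebra.adjoin k {t}) ({z, q * Y 0 + p * Y n} : Set F) := by
    have := sub_mem (span_mul (sub_mem (one_mem _) hc') my) (span_mul (mul_mem (mem_aa.1 hp) hα') mz)
    rwa [show (1 - c) * (q * Y 0 + p * Y n) - p * α * z = Y 0 by
      linear_combination Y 0 * u - p * e'] at this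
  have mn : Y n ∈ Submodule.span ↥(R ⊔ Algebra.adjoin k {t}) ({z, q * Y 0 + p * Y n} : Set F) := by
    have := add_mem (span_mul (add_mem (pow_mem t_mem n) (mem_aa.1 (ss_le hs'))) my)
      (span_mul (mul_mem (mem_aa.1 hq) hα') mz)
    rwa [show (t ^ n + s) * (q * Y 0 + p * Y n) + q * α * z = Y n by
      linear_combination Y n * u + q * e'] at this
  refine ⟨p, hp, q, hq, fun i hi => ?_, p * α, span_mul (mem_aa.1 hp) (smul_aa hα), c, smul_aa hc,
    by linear_combination Y 0 * u - p * e'⟩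
  obtain ⟨_, ⟨s', hs1, rfl⟩, w, hw, e1⟩ := Submodule.mem_sup.1 (h3 (yN i hi))
  obtain ⟨_, ⟨a, ha, rfl⟩, _, ⟨b, hb, rfl⟩, rfl⟩ := Submodule.mem_sup.1 hw
  rw [← e1]
  exact add_mem (span_mul (mem_aa.1 (ss_le hs1)) m0)
    (add_mem (span_mul (mem_aa.1 ha) mz) (span_mul (mem_aa.1 hb) mn))

end Pool.Agent.MP_e8e0b6_ag.R2.C

end Part1

section Part2

-- part 2: C Bz

/-!
Row BZ: the classes that describe a blow-up.
-/

set_option autoImplicit false

namespace Pool.Agent.MP_e8e0b6_ag.R2.C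

open Pool.Agent.MP_79c67d_ag Pool.Agent.MP_20d318_ag Pool.Agent.MP_20d318_ag.AG
  Pool.Agent.MP_20d318_ag.BV Pool.Agent.MP_20d318_ag.CB

namespace BzR

variable {k M I : Type} [Field k] [Field M] [Algebra k M] [Fintype I]

/-- The maximal ideal of a rational point is generated by the centered generators. -/
theorem gen {O : Subalgebra k M} {G Z : Set M} (h : O ∈ Pts (Algebra.adjoin k G))
    (hZ : Z ⊆ mx O) (hG : ∀ g ∈ G, ∃ c : k, g - algebraMap k M c ∈ Z) {s : M} (hs : s ∈ mx O) :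
    s ∈ Submodule.span O Z := by
  have key : ∀ f ∈ Algebra.adjoin k G, ∃ c : k, f - algebraMap k M c ∈ Submodule.span O Z := by
    intro f hf
    induction hf using Algebra.adjoin_induction with
    | mem g hg => exact (hG g hg).imp fun c hc => Submodule.subset_span hc
    | algebraMap c => exact ⟨c, by rw [sub_self]; exact zero_mem _⟩
    | add f g _ _ hf hg =>
      obtain ⟨c, hc⟩ := hf
      obtain ⟨c', hc'⟩ := hg
      refine ⟨c + c', ?_⟩
      rw [map_add, add_sub_add_comm]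
      exact add_mem hc hc'
    | mul f g _ hg' hf hg =>
      obtain ⟨c, hc⟩ := hf
      obtain ⟨c', hc'⟩ := hg
      refine ⟨c * c', ?_⟩
      rw [show f * g - algebraMap k M (c * c') = g * (f - algebraMap k M c) +
        algebraMap k M c * (g - algebraMap k M c') by rw [map_mul]; ring]
      exact add_mem (span_mul (h.2.1 hg') hc) (span_mul (O.algebraMap_mem c) hc')
  obtain ⟨n, hn, d, -, hd, rfl⟩ := h.2.2 s hs.1
  obtain ⟨c, hc⟩ := key n hn
  have h1 := mx_sub' h.1 (mx_mul_right hs hd.mem) (span_mx h.1 le_rfl hZ hc)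
  rw [div_mul_cancel₀ _ hd.ne, sub_sub_cancel, const_mem_mx] at h1
  rw [h1, map_zero, sub_zero] at hc
  rw [div_eq_inv_mul]
  exact span_mul hd.inv_mem hc

variable {S₀ : Sd k M I} {O₀ : Subalgebra k M} {a b : M} {H' : Set M} {e : Subalgebra k M → M}
  {E : Place k M}

theorem exE (h₀ : SAll S₀) (hB : Bl2 S₀ O₀ a b H' e E) : Ex (S₀.blow H' e) (pb 0 1) := by
  have h1 : (S₀.blow H' e).Sec (pb 0 1) ≤ Submodule.span k {1} := fun φ hφ => by
    obtain ⟨c, rfl⟩ := h₀.a2.const φ fun O hO => by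
      simpa [Sd.lb_zero] using ((hB.sec 0 1 φ).1 hφ).1 O hO
    exact Submodule.mem_span_singleton.2 ⟨c, by rw [Algebra.algebraMap_eq_smul_one]⟩
  have h2 := (Submodule.finrank_mono h1).trans (finrank_span_singleton (one_ne_zero (α := M))).le
  have h3 : chi2 (S₀.blow H' e).B (S₀.blow H' e).K (pb 0 1) = 2 := by
    change ip _ _ _ - ip _ (pb S₀.K 1) _ + 2 = _
    rw [ip_pb, ip_pb, ip_zero_right, ip_zero_right]
    norm_num
  unfold Ex Sd.h0
  omega

theorem exD (h₀ : SAll S₀) (hB : Bl2 S₀ O₀ a b H' e E) {c : I → ℤ} (hc : Ex S₀ c) {s : M}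
    (hs : s ∈ S₀.Sec c) (hu : IsU O₀ (s * S₀.lb c O₀)) : Ex (S₀.blow H' e) (pb c (-1)) := by
  have h1 : (S₀.blow H' e).Sec (pb c (-1)) < S₀.Sec c := by
    refine lt_of_le_of_ne (fun φ hφ => ((hB.sec c _ φ).1 hφ).1) fun h => ?_
    have h2 := ((hB.sec c _ s).1 (h ▸ hs)).2
    rw [neg_neg, E.ge1_iff, ← mem_mx_plO] at h2
    exact (hu.mono hB.dE.1).not_mx h2
  have := h₀.s.fd c
  have h2 := Submodule.finrank_lt_finrank_of_lt h1
  have h3 : chi2 (S₀.blow H' e).B (S₀.blow H' e).K (pb c (-1)) = chi2 S₀.B S₀.K c - 2 := by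
    change ip _ _ _ - ip _ (pb S₀.K 1) _ + 2 = ip _ _ _ - ip _ _ _ + 2 - 2
    rw [ip_pb, ip_pb]
    ring
  unfold Ex Sd.h0 at *
  omega

theorem lbE (O : Subalgebra k M) : (S₀.blow H' e).lb (pb 0 1) O = e O := by
  rw [lb_pb, Sd.lb_zero, one_mul, zpow_one]

end BzR

theorem bz : BzStmt := by
  intro hP k M I I₀ _ _ _ _ _ _ _ S S₀ O₀ a b H' e E p hS hB h₀ hE hl hp
  obtain ⟨-, P2, P3⟩ := hP k M
  have hq := P3 I I₀ S S₀ O₀ a b H' e E p hS hl hp
  obtain ⟨j, hj, hO⟩ := hl.mem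
  have hsec : ∀ s ∈ S₀.H, s ∈ S₀.Sec S₀.h := fun s hs O hO => by
    simpa only [div_inv_eq_mul] using (h₀.s.gH O hO).1 s hs
  have hdiv : ∀ s ∈ S₀.H, s / j () ∈ O₀ := fun s hs =>
    hO.2.1 (Algebra.subset_adjoin (Set.mem_iUnion.2 ⟨(), s, hs, rfl⟩))
  have h0 : j () ≠ 0 := h₀.s.fam.nz () _ (hj ())
  have hu : IsU O₀ (j () * S₀.lb S₀.h O₀) := by
    simpa only [div_inv_eq_mul] using (gn_of_mem (hj ()) h0 hdiv).unit (h₀.s.gH O₀ hl.mem)
  have hd : p (pb S₀.h 0) - p (pb 0 1) = p (pb S₀.h (-1)) := by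
    rw [← map_sub, sub_eq_add_neg, pb_neg, pb_add, neg_zero, add_zero, zero_add]
  have hlb : ∀ O ∈ S.T, ∀ O₁ ∈ (S₀.blow H' e).T, Dom O₁ O →
      IsU O (S.lb (p (pb 0 1)) O / e O₁) := fun O h1 O₁ h2 h3 => by
    have := hp.lb (pb 0 1) O h1 O₁ h2 h3
    rwa [BzR.lbE] at this
  have e0 : p.comp (pb0 I₀) S₀.h = p (pb S₀.h 0) := rfl
  have hh := P2 _ _ S S₀ _ S₀.h hq hE
  have hm := hq.sec S₀.h
  have hl0 := fun O h1 h2 => hq.lb S₀.h O h1 O₀ hl.mem h2
  rw [e0] at hh hm hl0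
  refine ⟨j (), {z | ∃ s ∈ S₀.H, ∃ c : k, s / j () - algebraMap k M c ∈ mx O₀ ∧
    z = s - c • j ()}, hh, P2 _ _ S _ p _ hp (BzR.exE h₀ hl), ?_, ?_,
    ?_, fun O h1 h2 => ?_, ?_, fun s hs => ?_, fun O h1 h2 => ?_, fun O h1 h2 => ?_, ?_⟩
  · rw [hd]
    exact P2 _ _ S _ p _ hp (BzR.exD h₀ hl hE (hsec _ (hj ())) hu)
  · rw [hp.sec, hl.sec, Sd.lb_zero, one_mul, E.ge_iff one_ne_zero]
    exact ⟨fun O _ => by simp [Sd.lb_zero], by simp⟩
  · rw [hm]
    exact hsec _ (hj ())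
  · have h3 := (hu.mono h2.1).mul (hl0 O h1 h2)
    rwa [mul_assoc, mul_div_cancel₀ _ (right_ne_zero_of_mul hu.ne)] at h3
  · rintro _ ⟨s, hs, c, hc, rfl⟩
    rw [hd, hp.sec, hl.sec, neg_neg, E.ge1_iff, ← mem_mx_plO]
    refine ⟨sub_mem (hsec s hs) (Submodule.smul_mem _ c (hsec _ (hj ()))), hl.dE.mx ?_⟩
    have h3 := mx_mul_right hc hu.mem
    rwa [← mul_assoc, sub_mul, div_mul_cancel₀ _ h0, ← Algebra.smul_def] at h3
  · have e1 : ∀ (s : M) (c : k), (s - c • j ()) / j () = s / j () - algebraMap k M c :=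
      fun s c => by rw [sub_div, Algebra.smul_def, mul_div_cancel_right₀ _ h0]
    refine BzR.gen hO ?_ (fun g hg => ?_) hs
    · rintro _ ⟨_, ⟨s, -, c, hc, rfl⟩, rfl⟩
      show (s - c • j ()) / j () ∈ mx O₀
      rwa [e1]
    · obtain ⟨_, s, hs, rfl⟩ := Set.mem_iUnion.1 hg
      obtain ⟨c, hc⟩ := hl.rat _ (hdiv s hs)
      exact ⟨c, _, ⟨s, hs, c, hc, rfl⟩, e1 s c⟩
  · obtain ⟨O₁, h3, h4⟩ := hp.maps O h1
    rcases hl.cases O₁ h3 with ⟨h5, h6⟩ | h5
    · have h7 := (hl.off O₁ h5 h6).2.2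
      have h8 := (hlb O h1 O₁ h3 h4).mul (h7.mono h4.1)
      rw [div_mul_cancel₀ _ h7.ne] at h8
      exact (h8.not_mx h2).elim
    · exact h5.trans h4
  · obtain ⟨O₁, h3, h4⟩ := hp.maps O h1
    rcases hl.cases O₁ h3 with ⟨h5, h6⟩ | h5
    · exact (h6 (h₀.a1.nice.sep _ h5 _ hl.mem O (hS.a1.nice.loc O h1) h4 h2)).elim
    · have h7 := ((hl.ov O₁ h3 h5).2.mono h4.1).of_unit (hlb O h1 O₁ h3 h4)
      refine ⟨fun s hs => ?_, h7.2.imp fun s hs => ⟨?_, hs.2⟩⟩
      · obtain ⟨u, hu', w, hw, rfl⟩ := CB.Pb.gen hl.cht hl.ma hl.mb hs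
        rw [add_div, mul_div_assoc, mul_div_assoc]
        exact O.add_mem (O.mul_mem (h2.1 hu') (h7.1 a (Or.inl rfl)))
          (O.mul_mem (h2.1 hw) (h7.1 b (Or.inr rfl)))
      · rcases hs.1 with rfl | rfl
        · exact hl.ma
        · exact hl.mb
  · obtain ⟨O, h1, h2⟩ := hS.a1.nice.cpl _ (plO_isVal E)
    obtain ⟨O₁, h3, h4⟩ := hp.maps O h1
    have h5 := hl.nice.sep _ h3 _ hl.mE _ (plO_isVal E).isLocalRing (h4.trans h2) (Dom.refl _)
    rw [h5] at h4
    exact ⟨O, h1, hl.dE.trans h4⟩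

end Pool.Agent.MP_e8e0b6_ag.R2.C

end Part2

section Part3

-- part 3: C Cen

/-!
Centering a chart along the section.
-/

set_option autoImplicit false

namespace Pool.Agent.MP_e8e0b6_ag.R2.C

open Pool.Agent.MP_79c67d_ag Pool.Agent.MP_20d318_ag Pool.Agent.MP_20d318_ag.AG
  Pool.Agent.MP_20d318_ag.BV Pool.Agent.MP_20d318_ag.CB

namespace Cen

variable {k F M I : Type} [Field k] [Field F] [Field M] [Algebra k F] [Algebra k M] [Fintype I]
  {R ξ : Subalgebra k F} {H : Set F} {ρ : ξ →ₐ[k] M} {S : Sd k M I}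

theorem pl_shift (c : F × F) {r s : F} (hr : r ∈ R) (hs : s ∈ R) :
    pl R (c.1 - r, c.2 - s) = pl R c := by
  refine le_antisymm (pl_le le_pl (sub_mem fst_mem (le_pl hr)) (sub_mem snd_mem (le_pl hs)))
    (pl_le le_pl ?_ ?_)
  · simpa using add_mem (fst_mem (R := R) (c := (c.1 - r, c.2 - s))) (le_pl hr)
  · simpa using add_mem (snd_mem (R := R) (c := (c.1 - r, c.2 - s))) (le_pl hs)

theorem ap_shift (u w : M) (α β : k) :
    ap k (u - algebraMap k M α, w - algebraMap k M β) = ap k (u, w) := by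
  refine le_antisymm (ap_le (sub_mem (fst_ap (c := (u, w))) (algebraMap_mem _ α))
    (sub_mem (snd_ap (c := (u, w))) (algebraMap_mem _ β))) (ap_le ?_ ?_)
  · simpa using add_mem (fst_ap (k := k) (c := (u - algebraMap k M α, w - algebraMap k M β)))
      (algebraMap_mem _ α)
  · simpa using add_mem (snd_ap (k := k) (c := (u - algebraMap k M α, w - algebraMap k M β)))
      (algebraMap_mem _ β)

theorem ev_shift (L : Lc R H ξ ρ S) {a r : F} (ha : a ∈ ξ) (hr : r ∈ R) :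
    ∃ α : k, evO ξ ρ (a - r) = evO ξ ρ a - algebraMap k M α := by
  obtain ⟨α, h⟩ := L.rat r hr
  have h1 := L.fib.dom.mx h
  have h2 := (L.lh.eq_zero_iff h1.1).2 h1
  rw [evO_sub ρ (L.fib.dom.1 hr) (ξ.algebraMap_mem α), evO_const, sub_eq_zero] at h2
  exact ⟨α, by rw [evO_sub ρ ha (L.fib.dom.1 hr), h2]⟩

end Cen

open Cen in
theorem cen : CenStmt := by
  intro hvn hcon hdel hpq k F M I _ _ _ _ _ _ _ _ R H ξ ρ S L O₀ T₀ t J W c sx wv ck hrat hO₀
  obtain ⟨P, pq⟩ := hpq k F M I R H ξ ρ S L O₀ T₀ t J c sx ck hrat hO₀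
  obtain ⟨O₁, h1, h2, h3, h4⟩ := wv.ex
  have hl := wv.val.isLocalRing
  have hP1 : P ≤ O₁ := ((pq.iff O₁ h1).2 h2).1
  have hPW : P ≤ W := hP1.trans h3
  have ht : t O₁ ≠ 0 := (sx.mem O₁ h1).2.ne
  have hm : ∀ u, u / t O₁ ∈ W → u ∈ mx W := fun u hu => by
    simpa [ht] using mx_mul_left hu h4
  have hJ : J ⊆ mx W := fun u hu => hm u (h3 (sx.dv O₁ h1 h2 u hu))
  have hc := hcon hvn k F R P W c L.loc pq.mem pq.dom wv.val hPW (fun V hV hVW hd => by
    obtain ⟨O, hO, hOV⟩ := xs_ctr L.fm hV hd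
    have h5 := hOV.1.trans hVW
    exact ((pq.iff O hO).2 (sx.ov O hO (mx_of_le h5 (sx.mem O hO).1
      (hm _ (sx.cmp O hO O₁ h1 W h5 h3).mem)))).trans hOV) fun f hf => by
    obtain ⟨r, hr, g, hg, h5⟩ := pq.gen f hf
    exact ⟨r, hr, g, hg, span_mx hl hPW hJ h5⟩
  obtain ⟨r, hr, w1⟩ := hc c.1 (pq.mem.2.1 fst_mem)
  obtain ⟨s, hs, w2⟩ := hc c.2 (pq.mem.2.1 snd_mem)
  obtain ⟨α, e1⟩ := ev_shift L ck.m1 hr
  obtain ⟨β, e2⟩ := ev_shift L ck.m2 hs
  have ep := pl_shift c hr hs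
  have ea : ap k (ev2 ξ ρ (c.1 - r, c.2 - s)) = ap k (ev2 ξ ρ c) := by
    simp only [ev2, e1, e2]
    exact ap_shift _ _ α β
  have hP : P ∈ Pts (pl R (c.1 - r, c.2 - s)) := ep.symm ▸ pq.mem
  have hO : O₀ ∈ Pts (ap k (ev2 ξ ρ (c.1 - r, c.2 - s))) := ea.symm ▸ hO₀
  obtain ⟨j1, j2⟩ := hdel k F R P W _ J L.loc hP pq.dom hl hPW wv.un w1 w2 pq.mJ hJ pq.gen
  have ho : ∀ a ∈ P, a ∈ mx W → evO ξ ρ a ∈ O₀ → evO ξ ρ a ∈ mx O₀ := fun a ha h5 h6 =>
    mx_of_le h2.1 h6 ((mx_iff L h1 (hP1 ha)).2 (mx_of_le h3 (hP1 ha) h5))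
  have hle : ap k (ev2 ξ ρ c) ≤ (IntermediateField.adjoin k
      {evO ξ ρ (c.1 - r), evO ξ ρ (c.2 - s)}).toSubalgebra :=
    ea ▸ IntermediateField.algebra_adjoin_le_adjoin k _
  refine ⟨_, ep, ea, ⟨ξ.sub_mem ck.m1 (L.fib.dom.1 hr), ξ.sub_mem ck.m2 (L.fib.dom.1 hs),
    genP_of ck.gen (hle fst_ap) (hle snd_ap), ea.symm ▸ ck.sub, ep.symm ▸ ck.frac,
    ep.symm ▸ ck.val⟩, hP.2.1.trans hPW, w1, w2, hO,
    ho _ (hP.2.1 fst_mem) w1 (hO.2.1 fst_ap), ho _ (hP.2.1 snd_mem) w2 (hO.2.1 snd_ap),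
    fun O hO hd => ?_⟩
  have h5 := ((pq.iff O hO).2 hd).1
  exact ⟨span_div h5 (sx.dv O hO hd) j1, span_div h5 (sx.dv O hO hd) j2⟩

end Pool.Agent.MP_e8e0b6_ag.R2.C

end Part3

section Part4

-- part 4: C Cns

/-!
Functions that are constant along a horizontal valuation.
-/

set_option autoImplicit false

namespace Pool.Agent.MP_e8e0b6_ag.R2.C

open Pool.Agent.MP_79c67d_ag Pool.Agent.MP_20d318_ag Pool.Agent.MP_20d318_ag.AG
  Pool.Agent.MP_20d318_ag.BV Pool.Agent.MP_20d318_ag.CB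

theorem con : ConStmt := by
  intro vn k F _ _ _ R P W c hR hP hRP hW hPW hV hf f hfP
  obtain ⟨B, hB, hRB, hBm, hWB, hBW, hBV⟩ := exists_aw hR hW (hRP.1.trans hPW)
  obtain ⟨Q, hQ, hPQ, hQm, hWQ, -, -⟩ := exists_aw hP.1 hW hPW
  have hBQ : B ≤ Q := fun z hz => by
    obtain ⟨a, ha, h⟩ := (hBm z).1 hz
    exact (hQm z).2 ⟨a, hRP.1 ha, h⟩
  have hle : pl R c ≤ pl B c := pl_le (hRB.1.trans le_pl) fst_mem snd_mem
  have hQP : Q ∈ Pts (B ⊔ Algebra.adjoin k {c.1, c.2}) := by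
    refine ⟨hQ, pl_le hBQ (hPQ.1 (hP.2.1 fst_mem)) (hPQ.1 (hP.2.1 snd_mem)), fun z hz => ?_⟩
    obtain ⟨p, hp, h⟩ := (hQm z).1 hz
    obtain ⟨a, ha, b, hb, hu, rfl⟩ := hP.2.2 p hp
    refine ⟨a + (z - a / b) * b, (pl B c).add_mem (hle ha)
      (le_pl (hWB (mx_mul_right h (hPW hu.mem))).1), b, hle hb, hu.mono hPQ.1, ?_⟩
    have := hu.ne
    field_simp
    ring
  obtain ⟨G, hG, hGQ⟩ := vn k F B Q {c.1, c.2} hB (Set.toFinite _) hQP fun V hVv hd => by
    have h1 : Dom P V := hV V hVv (hBV V hVv hd) (hRB.trans hd)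
    refine ⟨fun z hz => ?_, fun z hz hu => ?_⟩ <;> obtain ⟨p, hp, h⟩ := (hQm z).1 hz
    · simpa using V.add_mem (hd.mx (hWB h)).1 (h1.1 hp)
    · have h2 : IsU V p := by
        simpa using hu.add_mx hVv.isLocalRing (mx_neg (hd.mx (hWB h)))
      simpa using ((h1.2 p hp h2).mono hPQ.1).add_mx hQ (hWQ h)
  have key : ∀ g ∈ Submodule.span P (mx R), ∀ q ∈ Q,
      q * g ∈ IsLocalRing.maximalIdeal B • Submodule.span B G := by
    intro g hg
    induction hg using Submodule.span_induction with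
    | mem b hb =>
      intro q hq
      have hb' := hRB.mx hb
      have := Submodule.smul_mem_smul (I := IsLocalRing.maximalIdeal B) (r := ⟨b, hb'.1⟩)
        (fun hu => hb'.2 ((isU_iff_isUnit _).2 hu)) ((hGQ q).1 hq)
      rw [mul_comm]
      exact this
    | zero => intro q _; rw [mul_zero]; exact zero_mem _
    | add a b _ _ ha hb => intro q hq; rw [mul_add]; exact add_mem (ha q hq) (hb q hq)
    | smul a b _ hb =>
      intro q hq
      change q * ((a : F) * b) ∈ _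
      rw [← mul_assoc]
      exact hb _ (Q.mul_mem hq (hPQ.1 a.2))
  have nak : Submodule.span B G ≤ Submodule.span B {(1 : F)} := by
    refine Submodule.le_of_le_smul_of_le_jacobson_bot (I := IsLocalRing.maximalIdeal B)
      (Submodule.fg_span hG) (IsLocalRing.maximalIdeal_le_jacobson _) fun z hz => ?_
    obtain ⟨p, hp, h⟩ := (hQm z).1 ((hGQ z).2 hz)
    obtain ⟨r, hr, g, hg, h'⟩ := hf p hp
    have h1 : r + (z - p) + (p - r - g) ∈ B :=
      B.add_mem (B.add_mem (hRB.1 hr) (hWB h).1) (hWB h').1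
    have e : z = (r + (z - p) + (p - r - g)) * 1 + 1 * g := by ring
    rw [e]
    exact Submodule.add_mem_sup (span_mul h1 (Submodule.subset_span rfl)) (key g hg 1 Q.one_mem)
  exact (hBm f).1 (span_mem le_rfl (by rintro _ rfl; exact B.one_mem)
    (nak ((hGQ f).1 (hPQ.1 hfP))))

end Pool.Agent.MP_e8e0b6_ag.R2.C

end Part4

section Part5

-- part 5: C Del

/-!
The ideal of a section of the plane over a local ring.
-/

set_option autoImplicit false

namespace Pool.Agent.MP_e8e0b6_ag.R2.C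

open Pool.Agent.MP_79c67d_ag Pool.Agent.MP_20d318_ag Pool.Agent.MP_20d318_ag.AG
  Pool.Agent.MP_20d318_ag.BV Pool.Agent.MP_20d318_ag.CB

variable {k F : Type} [Field k] [Field F] [Algebra k F] {R P : Subalgebra k F} {d : F × F}

/-- Modulo the coordinates a function at the origin is a function on the base. -/
theorem del_ker (hP : P ∈ Pts (pl R d)) (hd : Dom R P) (h1 : d.1 ∈ mx P) (h2 : d.2 ∈ mx P)
    {f : F} (hf : f ∈ P) : ∃ r ∈ R, ∃ p ∈ P, ∃ q ∈ P, f = r + p * d.1 + q * d.2 := by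
  obtain ⟨a, ha, b, hb, hu, rfl⟩ := hP.2.2 f hf
  obtain ⟨r, hr, p, hp, q, hq, rfl⟩ := pl_ker ha
  obtain ⟨s, hs, p', hp', q', hq', e⟩ := pl_ker hb
  have hle := hP.2.1
  have hm := mx_add hP.1 (mx_mul_left (hle hp') h1) (mx_mul_left (hle hq') h2)
  have hs' : IsU P s := by
    have := hu.add_mx hP.1 (mx_neg hm)
    rwa [show b + -(p' * d.1 + q' * d.2) = s by rw [e]; ring] at this
  have hsR := hd.2 s hs hs'
  have h3 := hu.mul hs'
  refine ⟨r / s, hsR.div_mem hr, (p * s - r * p') / (b * s),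
    h3.div_mem (sub_mem (mul_mem (hle hp) hs'.mem) (mul_mem (hd.1 hr) (hle hp'))),
    (q * s - r * q') / (b * s),
    h3.div_mem (sub_mem (mul_mem (hle hq) hs'.mem) (mul_mem (hd.1 hr) (hle hq'))), ?_⟩
  have := hu.ne
  have := hs'.ne
  field_simp
  rw [e]
  ring

/-- The extension of the maximal ideal of the base. -/
theorem del_span (hP : P ∈ Pts (pl R d)) (hd : Dom R P) (h1 : d.1 ∈ mx P) (h2 : d.2 ∈ mx P)
    {g : F} (hg : g ∈ Submodule.span P (mx R)) :
    ∃ r ∈ R, ∃ p ∈ mx P, ∃ q ∈ mx P, g = r + p * d.1 + q * d.2 := by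
  induction hg using Submodule.span_induction with
  | mem b hb => exact ⟨b, hb.1, 0, zero_mem_mx, 0, zero_mem_mx, by ring⟩
  | zero => exact ⟨0, R.zero_mem, 0, zero_mem_mx, 0, zero_mem_mx, by ring⟩
  | add b c _ _ hb hc =>
    obtain ⟨r, hr, p, hp, q, hq, rfl⟩ := hb
    obtain ⟨r', hr', p', hp', q', hq', rfl⟩ := hc
    exact ⟨r + r', R.add_mem hr hr', _, mx_add hP.1 hp hp', _, mx_add hP.1 hq hq', by ring⟩
  | smul c b hm hb =>
    have hb' : b ∈ mx P := span_mx hP.1 le_rfl (fun _ h => hd.mx h) hm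
    obtain ⟨r, hr, p, hp, q, hq, e⟩ := hb
    obtain ⟨s, hs, p', hp', q', hq', e'⟩ := del_ker hP hd h1 h2 c.2
    refine ⟨s * r, R.mul_mem hs hr, s * p + p' * b,
      mx_add hP.1 (mx_mul_left (hd.1 hs) hp) (mx_mul_left hp' hb'), s * q + q' * b,
      mx_add hP.1 (mx_mul_left (hd.1 hs) hq) (mx_mul_left hq' hb'), ?_⟩
    change (c : F) * b = _
    linear_combination b * e' + s * e

theorem del : DelStmt := by
  intro k F _ _ _ R P W d J _ hP hd hW hPW hu w1 w2 hJ hJW hgen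
  have m1 : d.1 ∈ P := hP.2.1 fst_mem
  have m2 : d.2 ∈ P := hP.2.1 snd_mem
  have h1 := mx_of_le hPW m1 w1
  have h2 := mx_of_le hPW m2 w2
  have key : ∀ f ∈ P, f ∈ mx W → ∃ p ∈ mx P, ∃ q ∈ mx P, ∃ n ∈ Submodule.span P J,
      f = p * d.1 + q * d.2 + n := fun f hf hfW => by
    obtain ⟨r, hr, g, hg, hn⟩ := hgen f hf
    obtain ⟨r', hr', p, hp, q, hq, rfl⟩ := del_span hP hd h1 h2 hg
    have h3 := mx_sub' hW (mx_sub' hW hfW (span_mx hW hPW hJW hn))
      (mx_add hW (mx_mul_left (hPW hp.1) w1) (mx_mul_left (hPW hq.1) w2))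
    have h0 : r + r' = 0 := by_contra fun h0 => h3.2 (by
      convert hu _ (R.add_mem hr hr') h0 using 1
      ring)
    exact ⟨p, hp, q, hq, _, hn, by linear_combination h0⟩
  obtain ⟨p, hp, q, hq, n, hn, e⟩ := key _ m1 w1
  obtain ⟨p', hp', q', hq', n', hn', e'⟩ := key _ m2 w2
  have hD : IsU P ((1 - p) * (1 - q') - q * p') := by
    convert isU_one.add_mx hP.1 (mx_sub' hP.1 (mx_sub' hP.1 (mx_sub' hP.1
      (mx_mul_left hp.1 hq') hp) hq') (mx_mul_left hq.1 hp')) using 1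
    ring
  have h0 := hD.ne
  constructor
  · convert span_mul hD.inv_mem (add_mem (span_mul (sub_mem P.one_mem hq'.1) hn)
      (span_mul hq.1 hn')) using 1
    rw [eq_inv_mul_iff_mul_eq₀ h0]
    linear_combination (1 - q') * e + q * e'
  · convert span_mul hD.inv_mem (add_mem (span_mul (sub_mem P.one_mem hp.1) hn')
      (span_mul hp'.1 hn)) using 1
    rw [eq_inv_mul_iff_mul_eq₀ h0]
    linear_combination (1 - p) * e' + p' * e

end Pool.Agent.MP_e8e0b6_ag.R2.C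

end Part5

section Part6

-- part 6: C Fnc

/-!
Charts of a Hirzebruch surface.
-/

set_option autoImplicit false

namespace Pool.Agent.MP_e8e0b6_ag.R2.C

open Pool.Agent.MP_79c67d_ag Pool.Agent.MP_20d318_ag Pool.Agent.MP_20d318_ag.AG
  Pool.Agent.MP_20d318_ag.BV Pool.Agent.MP_20d318_ag.CB

namespace Fnc

variable {k M : Type} [Field k] [Field M] [Algebra k M] {O : Subalgebra k M} {f t u X Z : M}

theorem pen [Infinite k] {Y : Set (Subalgebra k M)} (hY : Y.Finite) (hl : ∀ O ∈ Y, IsLocalRing O)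
    (h0 : f ≠ 0) (h : ∀ O ∈ Y, f ∈ O ∨ f⁻¹ ∈ O) :
    ∃ l : k, ∀ O ∈ Y, (f + algebraMap k M l)⁻¹ ∈ O := by
  classical
  have hb : ∀ O ∈ Y, 1 / (if f ∈ O then 1 else f) ∈ O := fun O hO => by
    split_ifs with c
    · simp
    · simpa using (h O hO).resolve_left c
  obtain ⟨l, hl'⟩ := exists_pencil (a := f) (b := 1) hY (fun O => if f ∈ O then 1 else f) hl
    (fun O _ => by
      split_ifs with c
      · simpa using c
      · rw [div_self h0]; exact O.one_mem) hb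
  refine ⟨l, fun O hO => ?_⟩
  have hu := hl' O hO (by
    split_ifs with c
    · exact Or.inr (by simpa using isU_one)
    · exact Or.inl (by rw [div_self h0]; exact isU_one))
  have := hu.div_mem (hb O hO)
  rwa [div_div_div_cancel_right₀ (div_ne_zero_iff.1 hu.ne).2, mul_one, one_div] at this

theorem two (c : k) (h : O ∈ Pts (ap k (t, (u * Z + algebraMap k M c)⁻¹))) (hX : X ∈ O)
    (hu : IsU O u) (hB : ∀ B : Subalgebra k M, X ∈ B → u ∈ B ∧ t ∈ fr B O) (hZ : Z ≠ 0)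
    (hr : u * Z + algebraMap k M c ≠ 0) : O ∈ Pts (ap k (X, Z)) ∨ O ∈ Pts (ap k (X, Z⁻¹)) := by
  have hv : (u * Z + algebraMap k M c)⁻¹ ∈ O := h.2.1 snd_ap
  have u0 := hu.ne
  rcases isU_or_mx hv with v | v
  · have r : IsU O (u * Z + algebraMap k M c) := by simpa using v.inv
    obtain ⟨h1, h2⟩ := hB (ap k (X, Z)) fst_ap
    refine Or.inl (pts2 h (ap_le hX ?_) (ap_le h2 ?_))
    · have := hu.div_mem (O.sub_mem r.mem (O.algebraMap_mem c))
      rwa [add_sub_cancel_right, mul_div_cancel_left₀ _ u0] at this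
    · have := mem_fr (O := O) (one_mem _)
        (add_mem (mul_mem h1 snd_ap) ((ap k (X, Z)).algebraMap_mem c)) r
      rwa [one_div] at this
  · have q : IsU O (u * Z * (u * Z + algebraMap k M c)⁻¹) := by
      convert isU_one.add_mx h.1 (mx_neg (mx_mul_left (O.algebraMap_mem c) v)) using 1
      field_simp
      ring
    obtain ⟨h1, h2⟩ := hB (ap k (X, Z⁻¹)) fst_ap
    refine Or.inr (pts2 h (ap_le hX ?_) (ap_le h2 ?_))
    · convert q.div_mem (O.mul_mem hu.mem hv) using 1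
      rw [mul_div_mul_right _ _ (inv_ne_zero hr)]
      field_simp
    · have e : u + algebraMap k M c * Z⁻¹ = (u * Z + algebraMap k M c) / Z := by field_simp
      have w : IsU O (u + algebraMap k M c * Z⁻¹) := by
        convert hu.div q using 1
        rw [e]
        field_simp
      convert mem_fr (O := O) (snd_ap (c := (X, Z⁻¹)))
        (add_mem h1 (mul_mem ((ap k (X, Z⁻¹)).algebraMap_mem c) snd_ap)) w using 1
      change (u * Z + algebraMap k M c)⁻¹ = Z⁻¹ / (u + algebraMap k M c * Z⁻¹)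
      rw [e]
      field_simp

end Fnc

open Fnc

theorem fnc : FncStmt := by
  intro k M _ _ _ _ _ n x y h
  have s0 := h.gen.x_ne
  have x0 : x ≠ 0 := by simpa using s0 0
  have y0 : y ≠ 0 := by simpa using h.gen.y_ne 0
  have e1 : ∀ α : k, (x - algebraMap k M α) ^ n * y =
      (1 - algebraMap k M α * x⁻¹) ^ n * (x ^ n * y) := fun α => by
    rw [← mul_assoc, ← mul_pow]
    congr 2
    field_simp
  have gen : ∀ l : k × k, GenP k (cH n x y l).1 (cH n x y l).2 := fun l => by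
    have m1 : (cH n x y l).1 ∈ IntermediateField.adjoin k {(cH n x y l).1, (cH n x y l).2} :=
      IntermediateField.subset_adjoin _ _ (Or.inl rfl)
    have m2 : (cH n x y l).2 ∈ IntermediateField.adjoin k {(cH n x y l).1, (cH n x y l).2} :=
      IntermediateField.subset_adjoin _ _ (Or.inr rfl)
    refine genP_of h.gen ?_ ?_
    · convert add_mem (inv_mem m1) (IntermediateField.algebraMap_mem _ l.1) using 1
      simp [cH]
    · convert mul_mem (sub_mem (inv_mem m2) (IntermediateField.algebraMap_mem _ l.2))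
        (pow_mem m1 n) using 1
      have := s0 l.1
      simp only [cH, inv_inv, add_sub_cancel_right, inv_pow]
      field_simp
  refine ⟨gen, fun l O hO => ?_, fun Y hY fin => ?_⟩
  · have r0 : (x - algebraMap k M l.1) ^ n * y + algebraMap k M l.2 ≠ 0 := by
      simpa [cH] using (gen l).y_ne 0
    have ht : (x - algebraMap k M l.1)⁻¹ ∈ O := hO.2.1 fst_ap
    have s1 := s0 l.1
    rcases isU_or_mx ht with v | v
    · have s : IsU O (x - algebraMap k M l.1) := by simpa using v.inv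
      refine (two (X := x) l.2 hO ?_ (s.pow n) (fun B hB => ?_) y0 r0).elim
        (fun w => (h.k1 O ⟨h.gen, w⟩).1) fun w => (h.k2 O ⟨h.g2, w⟩).1
      · simpa using O.add_mem s.mem (O.algebraMap_mem l.1)
      · have m := B.sub_mem hB (B.algebraMap_mem l.1)
        exact ⟨B.pow_mem m n, by simpa using mem_fr B.one_mem m s⟩
    · have p : IsU O (x * (x - algebraMap k M l.1)⁻¹) := by
        convert isU_one.add_mx hO.1 (mx_mul_left (O.algebraMap_mem l.1) v) using 1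
        field_simp
        ring
      have e : 1 - algebraMap k M l.1 * x⁻¹ = (x * (x - algebraMap k M l.1)⁻¹)⁻¹ := by field_simp
      have s : IsU O (1 - algebraMap k M l.1 * x⁻¹) := e ▸ p.inv
      rw [e1] at r0
      refine (two (X := x⁻¹) (t := (x - algebraMap k M l.1)⁻¹) l.2 (e1 l.1 ▸ hO) ?_ (s.pow n)
        (fun B hB => ?_) (mul_ne_zero (pow_ne_zero _ x0) y0) r0).elim
        (fun w => (h.k3 O ⟨h.g3, w⟩).1) fun w => (h.k4 O ⟨h.g4, w⟩).1
      · convert p.div_mem ht using 1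
        field_simp
      · have m := B.sub_mem B.one_mem (B.mul_mem (B.algebraMap_mem l.1) hB)
        refine ⟨B.pow_mem m n, ?_⟩
        convert mem_fr hB m s using 1
        rw [e]
        field_simp
  · have cv := fun O hO => h.cov O (hY hO)
    have m1 : ∀ {O : Subalgebra k M} {a b : M}, Cht O a b → a ∈ O := fun w =>
      w.2.2.1 (Algebra.subset_adjoin (Or.inl rfl))
    have m2 : ∀ {O : Subalgebra k M} {a b : M}, Cht O a b → b ∈ O := fun w =>
      w.2.2.1 (Algebra.subset_adjoin (Or.inr rfl))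
    have hl : ∀ O ∈ Y, IsLocalRing O := fun O hO => by
      rcases cv O hO with w | w | w | w <;> exact w.2.1
    obtain ⟨l, h1⟩ := pen fin hl x0 fun O hO => by
      rcases cv O hO with w | w | w | w
      exacts [Or.inl (m1 w), Or.inl (m1 w), Or.inr (m1 w), Or.inr (m1 w)]
    have h2 : ∀ O ∈ Y, (x - algebraMap k M (-l))⁻¹ ∈ O := by simpa using h1
    have s1 := s0 (-l)
    generalize -l = α at h2 s1
    obtain ⟨l', h3⟩ := pen (f := (x - algebraMap k M α) ^ n * y) fin hl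
      (mul_ne_zero (pow_ne_zero _ s1) y0) fun O hO => by
      rcases cv O hO with w | w | w | w
      · exact Or.inl (O.mul_mem (O.pow_mem (O.sub_mem (m1 w) (O.algebraMap_mem α)) n) (m2 w))
      · refine Or.inr ?_
        rw [mul_inv, ← inv_pow]
        exact O.mul_mem (O.pow_mem (h2 O hO) n) (m2 w)
      · rw [e1]
        exact Or.inl (O.mul_mem (O.pow_mem (O.sub_mem O.one_mem
          (O.mul_mem (O.algebraMap_mem α) (m1 w))) n) (m2 w))
      · refine Or.inr ?_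
        rw [e1, mul_inv, ← inv_pow]
        refine O.mul_mem (O.pow_mem ?_ n) (m2 w)
        convert O.add_mem O.one_mem (O.mul_mem (O.algebraMap_mem α) (h2 O hO)) using 1
        rw [show 1 - algebraMap k M α * x⁻¹ = (x - algebraMap k M α) / x by field_simp]
        field_simp
        ring
    exact ⟨(α, l'), fun O hO => ap_le (h2 O hO) (h3 O hO)⟩

end Pool.Agent.MP_e8e0b6_ag.R2.C

end Part6
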