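import Pool.Agent.MP_e8e0b6_ag.R2.C.Bas

section Part1

-- part 1: C Fng

/-!
Row FNG: lifting the charts of a Hirzebruch surface.
-/

set_option autoImplicit false

namespace Pool.Agent.MP_e8e0b6_ag.R2.C

open Pool.Agent.MP_79c67d_ag Pool.Agent.MP_20d318_ag Pool.Agent.MP_20d318_ag.AG
  Pool.Agent.MP_20d318_ag.BV Pool.Agent.MP_20d318_ag.CB

namespace Fng

variable {k F : Type} [Field k] [Field F] [Algebra k F] {O V W R : Subalgebra k F} {S N : Set F}
  {g u X₀ X₁ z Y : F} {α κ : k}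

/-- `g` generates the span of `S`. -/
def Tv (O : Subalgebra k F) (S : Set F) (g : F) : Prop :=
  g ≠ 0 ∧ g ∈ Submodule.span O S ∧ ∀ a ∈ S, a / g ∈ O

theorem of_prin (h : Prin S O) : ∃ g, Tv O S g := by
  obtain ⟨g, hg, h⟩ := h.exists_mem
  exact ⟨g, h.ne, Submodule.subset_span hg, h.1⟩

/-- A generator over a dominating ring is a generator. -/
theorem up (hd : Dom O V) (hg : ∃ g, Tv O S g) (hu : u ∈ Submodule.span O S) (hV : Tv V S u) :
    ∀ a ∈ S, a / u ∈ O := by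
  obtain ⟨g, g0, g1, g2⟩ := hg
  have h1 : u / g ∈ O := span_div le_rfl g2 hu
  have h2 : IsU O (u / g) := hd.2 _ h1 ⟨div_ne_zero hV.1 g0, hd.1 h1, by
    rw [inv_div]; exact span_div hd.1 hV.2.2 g1⟩
  intro a ha
  rw [← div_div_div_cancel_right₀ g0 a u]
  exact h2.div_mem (g2 a ha)

/-- The lifted chart. -/
def cc (X₀ X₁ z : F) (α κ : k) (Y : F) : F × F :=
  (X₀ / (X₁ - algebraMap k F α * X₀), z / (Y + algebraMap k F κ * z))

/-- The data of a lifted chart. -/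
structure Cd (R : Subalgebra k F) (X₀ X₁ z : F) (N : Set F) (α κ : k) (Y : F) : Prop where
  x0 : X₁ - algebraMap k F α * X₀ ≠ 0
  b0 : Y + algebraMap k F κ * z ≠ 0
  zN : z ∈ N
  y1 : Y ∈ Submodule.span ↥(R ⊔ Algebra.adjoin k {X₀ / (X₁ - algebraMap k F α * X₀)}) N
  y2 : ∀ a ∈ N, a ∈ Submodule.span ↥(R ⊔ Algebra.adjoin k {X₀ / (X₁ - algebraMap k F α * X₀)})
    ({z, Y} : Set F)

theorem sp1 : X₁ - algebraMap k F α * X₀ ∈ Submodule.span W ({X₀, X₁} : Set F) :=
  sub_mem (Submodule.subset_span (Or.inr rfl))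
    (span_mul (W.algebraMap_mem α) (Submodule.subset_span (Or.inl rfl)))

theorem base_le (hR : R ≤ W) (ht : u ∈ W) : R ⊔ Algebra.adjoin k {u} ≤ W :=
  sup_le hR (Algebra.adjoin_le (by rintro _ rfl; exact ht))

theorem Cd.sp2 (h : Cd R X₀ X₁ z N α κ Y) (hR : R ≤ W) (ht : (cc X₀ X₁ z α κ Y).1 ∈ W) :
    Y + algebraMap k F κ * z ∈ Submodule.span W N :=
  add_mem (span_up (base_le hR ht) h.y1)
    (span_mul (W.algebraMap_mem κ) (Submodule.subset_span h.zN))

theorem Cd.tv1 (h : Cd R X₀ X₁ z N α κ Y) (hW : pl R (cc X₀ X₁ z α κ Y) ≤ W) :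
    Tv W {X₀, X₁} (X₁ - algebraMap k F α * X₀) := by
  have ht : X₀ / (X₁ - algebraMap k F α * X₀) ∈ W := hW fst_mem
  refine ⟨h.x0, sp1, ?_⟩
  rintro _ (rfl | rfl)
  · exact ht
  · convert W.add_mem W.one_mem (W.mul_mem (W.algebraMap_mem α) ht) using 1
    have := h.x0
    field_simp
    ring

theorem Cd.tv2 (h : Cd R X₀ X₁ z N α κ Y) (hW : pl R (cc X₀ X₁ z α κ Y) ≤ W) :
    Tv W N (Y + algebraMap k F κ * z) := by
  have hz : z / (Y + algebraMap k F κ * z) ∈ W := hW snd_mem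
  refine ⟨h.b0, h.sp2 (le_pl.trans hW) (hW fst_mem), fun a ha =>
    span_div (base_le (le_pl.trans hW) (hW fst_mem)) ?_ (h.y2 a ha)⟩
  rintro _ (rfl | rfl)
  · exact hz
  · convert W.sub_mem W.one_mem (W.mul_mem (W.algebraMap_mem κ) hz) using 1
    have := h.b0
    field_simp
    ring

/-- The chart is regular at a point where both modules are principal, if it is along a ring
that dominates the point. -/
theorem Cd.le (h : Cd R X₀ X₁ z N α κ Y) (hd : Dom O V) (hR : R ≤ O)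
    (h1 : ∃ g, Tv O {X₀, X₁} g) (h2 : ∃ g, Tv O N g) (hV : pl R (cc X₀ X₁ z α κ Y) ≤ V) :
    pl R (cc X₀ X₁ z α κ Y) ≤ O :=
  have ht : (cc X₀ X₁ z α κ Y).1 ∈ O := up hd h1 sp1 (h.tv1 hV) X₀ (Or.inl rfl)
  pl_le hR ht (up hd h2 (h.sp2 hR ht) (h.tv2 hV) z h.zN)

end Fng

open Fng in
theorem fng : FngStmt := by
  intro hF k F M I _ _ _ _ _ _ _ _ R H ξ ρ S L T₀ n x y X₀ X₁ z N hA hR
  choose Y hY using hR.ys
  have m1 : ∀ α : k, X₁ - algebraMap k F α * X₀ ∈ ξ := fun α =>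
    ξ.sub_mem hR.m1 (ξ.mul_mem (ξ.algebraMap_mem α) hR.m0)
  have m2 : ∀ α κ : k, Y α + algebraMap k F κ * z ∈ ξ := fun α κ =>
    ξ.add_mem (hY α).1 (ξ.mul_mem (ξ.algebraMap_mem κ) hR.mz)
  have e1 : ∀ α : k, evO ξ ρ (X₁ - algebraMap k F α * X₀) = x - algebraMap k M α := fun α => by
    rw [evO_sub ρ hR.m1 (ξ.mul_mem (ξ.algebraMap_mem α) hR.m0),
      evO_mul ρ (ξ.algebraMap_mem α) hR.m0, evO_const, hR.e0, hR.e1, mul_one]
  have e2 : ∀ α κ : k, evO ξ ρ (Y α + algebraMap k F κ * z) =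
      (x - algebraMap k M α) ^ n * y + algebraMap k M κ := fun α κ => by
    rw [evO_add ρ (hY α).1 (ξ.mul_mem (ξ.algebraMap_mem κ) hR.mz),
      evO_mul ρ (ξ.algebraMap_mem κ) hR.mz, evO_const, hR.ez, (hY α).2.1, mul_one]
  have u1 : ∀ α : k, IsU ξ (X₁ - algebraMap k F α * X₀) := fun α => xi_unit L (m1 α) (by
    have := (hA.gen (α, 0)).x_ne 0
    rw [map_zero, sub_zero] at this
    rw [e1]; exact fun h => this (by simp [cH, h]))
  have u2 : ∀ α κ : k, IsU ξ (Y α + algebraMap k F κ * z) := fun α κ => xi_unit L (m2 α κ) (by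
    have := (hA.gen (α, κ)).y_ne 0
    rw [map_zero, sub_zero] at this
    rw [e2]; exact fun h => this (by simp [cH, h]))
  have cd : ∀ l : k × k, Cd R X₀ X₁ z N l.1 l.2 (Y l.1) := fun l =>
    ⟨(u1 _).ne, (u2 _ _).ne, hR.zN, (hY _).2.2.1, (hY _).2.2.2⟩
  have ev : ∀ l : k × k, ev2 ξ ρ (cc X₀ X₁ z l.1 l.2 (Y l.1)) = cH n x y l := fun l => by
    simp only [ev2, cc, cH]
    rw [evO_div ρ hR.m0 (u1 _), evO_div ρ hR.mz (u2 _ _), e1, e2, hR.e0, hR.ez, one_div, one_div]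
  refine ⟨Set.range fun l : k × k => cc X₀ X₁ z l.1 l.2 (Y l.1), ?_, ?_, fun T hT hf => ?_⟩
  · rintro _ ⟨l, rfl⟩
    have c1 : (cc X₀ X₁ z l.1 l.2 (Y l.1)).1 ∈ ξ := (u1 _).div_mem hR.m0
    have c2 : (cc X₀ X₁ z l.1 l.2 (Y l.1)).2 ∈ ξ := (u2 _ _).div_mem hR.mz
    have hg := hA.gen l
    rw [← ev] at hg
    have hv : Vl R H (pl R (cc X₀ X₁ z l.1 l.2 (Y l.1))) := fun O hO V _ hd hV =>
      (cd l).le hd (xx_le hO.1) (of_prin (hR.pf O hO)) (of_prin (hR.pG O hO)) hV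
    exact ⟨c1, c2, hg, by rw [ev]; exact hA.sub l, hF k F M I R H ξ ρ S L _ c1 c2 hg hv, hv⟩
  · rintro _ ⟨l, rfl⟩ _ ⟨l', rfl⟩ V _ hV O hO hd
    exact (cd l').le hd (le_pl.trans hO.2.1) ⟨_, (cd l).tv1 hO.2.1⟩ ⟨_, (cd l).tv2 hO.2.1⟩ hV
  · obtain ⟨l, hl⟩ := hA.cov T hT hf
    exact ⟨_, ⟨l, rfl⟩, by rw [ev]; exact hl⟩

end Pool.Agent.MP_e8e0b6_ag.R2.C

end Part1

section Part2

-- part 2: C Fnr

/-! FNR: the classes of the ruling and of a section of a Hirzebruch surface. -/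

set_option autoImplicit false

namespace Pool.Agent.MP_e8e0b6_ag.R2.C

open Pool.Agent.MP_79c67d_ag Pool.Agent.MP_20d318_ag Pool.Agent.MP_20d318_ag.AG
  Pool.Agent.MP_20d318_ag.BV Pool.Agent.MP_20d318_ag.CB

namespace Fnr

variable {k M : Type} [Field k] [Field M] [Algebra k M] {n : ℕ} {x y : M}

theorem span_le {u w : M} (h : GenP k u w) {J : Type} [Fintype J] (e : J → ℕ × ℕ)
    (he : Function.Injective e) (W : Submodule k M) [FiniteDimensional k W] (T : Set M)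
    (hW : ∀ j, u ^ (e j).1 * w ^ (e j).2 ∈ W) (hT : ∀ j, u ^ (e j).1 * w ^ (e j).2 ∈ T)
    (hd : Module.finrank k W ≤ Fintype.card J) : W ≤ Submodule.span k T := by
  have li := (genP_li h).comp e he
  have h1 : Submodule.span k (Set.range ((fun e : ℕ × ℕ => u ^ e.1 * w ^ e.2) ∘ e)) = W :=
    Submodule.eq_of_le_of_finrank_le (Submodule.span_le.2 (by rintro _ ⟨j, rfl⟩; exact hW j))
      (by rw [finrank_span_eq_card li]; exact hd)
  rw [← h1]
  exact Submodule.span_mono (by rintro _ ⟨j, rfl⟩; exact hT j)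

theorem lbf (h : Fn0 k n x y) (O : Subalgebra k M) :
    (fn k n x y).lb ![1, 0] O = (gn (fF n x y 0) O)⁻¹ := by
  rw [h.lb]; simp

theorem lbG (h : Fn0 k n x y) (O : Subalgebra k M) :
    (fn k n x y).lb ![0, 1] O = (gn (fF n x y 1) O)⁻¹ := by
  rw [h.lb]; simp

theorem secf (h : Fn0 k n x y) (α : k) : (1 : M) ∈ (fn k n x y).Sec ![1, 0] ∧
    x - algebraMap k M α ∈ (fn k n x y).Sec ![1, 0] := by
  have h1 : ∀ a ∈ fF n x y 0, a ∈ (fn k n x y).Sec ![1, 0] := fun a ha O hO => by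
    rw [lbf h, ← div_eq_mul_inv]; exact (h.gF O hO 0).1 a ha
  have h2 := h1 1 (Or.inl rfl)
  refine ⟨h2, sub_mem (h1 x (Or.inr rfl)) ?_⟩
  rw [Algebra.algebraMap_eq_smul_one]
  exact Submodule.smul_mem _ _ h2

theorem secG (h : Fn0 k n x y) (α : k) : (1 : M) ∈ (fn k n x y).Sec ![0, 1] ∧
    ∀ i ≤ n, (x - algebraMap k M α) ^ i * y ∈ (fn k n x y).Sec ![0, 1] := by
  refine ⟨fun O hO => ?_, fun i hi O hO => ?_⟩ <;> rw [lbG h, ← div_eq_mul_inv]
  · exact (h.gF O hO 1).1 1 (Or.inl rfl)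
  obtain ⟨h1, a, ha, hu⟩ := h.gF O hO 0
  have g0 := (h.gF O hO 0).ne
  rcases ha with rfl | rfl
  · have hx := hu.div_mem (h1 x (Or.inr rfl))
    rw [div_div_div_cancel_right₀ g0, div_one] at hx
    rw [mul_div_assoc]
    exact O.mul_mem (O.pow_mem (O.sub_mem hx (O.algebraMap_mem α)) i)
      ((h.gF O hO 1).1 y (Or.inr (Or.inl rfl)))
  · have hx := hu.div_mem (h1 1 (Or.inl rfl))
    rw [div_div_div_cancel_right₀ g0] at hx
    have x0 : a ≠ 0 := (div_ne_zero_iff.1 hu.1).1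
    obtain ⟨j, rfl⟩ := Nat.exists_eq_add_of_le hi
    have e : (a - algebraMap k M α) ^ i * y / gn (fF (i + j) a y 1) O =
        (1 - algebraMap k M α * (1 / a)) ^ i * (1 / a) ^ j *
          (a ^ (i + j) * y / gn (fF (i + j) a y 1) O) := by
      have : 1 - algebraMap k M α * (1 / a) = (a - algebraMap k M α) / a := by field_simp
      rw [this, div_pow, div_pow, pow_add, one_pow]
      field_simp
    rw [e]
    exact O.mul_mem (O.mul_mem (O.pow_mem (O.sub_mem O.one_mem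
      (O.mul_mem (O.algebraMap_mem α) hx)) i) (O.pow_mem hx j))
      ((h.gF O hO 1).1 _ (Or.inr (Or.inr rfl)))

theorem h00 {I : Type} [Fintype I] {S : Sd k M I} (hS : SAll S) : S.h0 0 ≤ 1 := by
  have h : S.Sec 0 ≤ Submodule.span k {1} := fun φ hφ => by
    obtain ⟨a, rfl⟩ := hS.a2.const φ fun O hO => by simpa [S.lb_zero] using hφ O hO
    rw [Algebra.algebraMap_eq_smul_one]
    exact Submodule.smul_mem _ _ (Submodule.mem_span_singleton_self _)
  have := (Submodule.finrank_mono h).trans (finrank_span_singleton (one_ne_zero (α := M))).le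
  unfold Sd.h0
  exact_mod_cast this

theorem dims {F G : Place k M} (h : Fn1 k n x y F G) (hS : SAll (fn k n x y)) :
    (fn k n x y).h0 ![1, 0] ≤ 2 ∧ (fn k n x y).h0 ![0, 1] ≤ n + 2 ∧
      (fn k n x y).h0 (![0, 1] + ![1, 0]) ≤ n + 4 := by
  have h0 := h00 hS
  have h1 := hS.a3.res _ _ _ h.pF ![1, 0]
  have h2 := hS.a3.res _ _ _ h.pG ![0, 1]
  have h3 := hS.a3.res _ _ _ h.pG (![0, 1] + ![1, 0])
  have e1 : CB.ip (fn k n x y).B ![1, 0] ![1, 0] = (0 : ℤ) := by simp [CB.ip, fn, Fin.sum_univ_two]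
  have e2 : CB.ip (fn k n x y).B ![0, 1] ![0, 1] = (n : ℤ) := by simp [CB.ip, fn, Fin.sum_univ_two]
  have e3 : CB.ip (fn k n x y).B (![0, 1] + ![1, 0]) ![0, 1] = (n + 1 : ℤ) := by
    simp [CB.ip, fn, Fin.sum_univ_two]; ring
  rw [sub_self] at h1 h2
  rw [add_sub_cancel_left] at h3
  rw [e1] at h1
  rw [e2] at h2
  rw [e3] at h3
  omega

end Fnr

open Fnr

theorem fnr : FnrStmt := by
  intro hP k M I _ _ _ _ _ _ S n x y F G p h hS hp
  obtain ⟨d1, d2, d3⟩ := dims h hS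
  have h0 : Fn0 k n x y := h.toFn0
  have tr := fun c => (hP k M).2.1 I (Fin 2) S (fn k n x y) p c hp
  have gu : ∀ α : k, GenP k (x - algebraMap k M α) y := fun α => genP_of h0.gen (by
      have : x = x - algebraMap k M α + algebraMap k M α := by ring
      nth_rw 2 [this]
      exact add_mem (IntermediateField.subset_adjoin _ _ (Or.inl rfl))
        (IntermediateField.algebraMap_mem _ α))
    (IntermediateField.subset_adjoin _ _ (Or.inr rfl))
  refine ⟨h0.gen, tr _ ?_, tr _ ?_, map_add p _ _ ▸ tr _ ?_, fun O hO => ?_, fun O hO => ?_,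
    fun α => hp.sec _ ▸ (secG h0 α).2, fun α => ?_, fun α => ?_⟩
  · have : chi2 (fn k n x y).B (fn k n x y).K ![1, 0] = 4 := by
      simp [chi2, CB.ip, fn, Fin.sum_univ_two]
    unfold Ex; omega
  · have : chi2 (fn k n x y).B (fn k n x y).K ![0, 1] = 2 * n + 4 := by
      simp [chi2, CB.ip, fn, Fin.sum_univ_two]; ring
    unfold Ex; omega
  · have : chi2 (fn k n x y).B (fn k n x y).K (![0, 1] + ![1, 0]) = 2 * n + 8 := by
      simp [chi2, CB.ip, fn, Fin.sum_univ_two]; ring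
    unfold Ex; omega
  · obtain ⟨O₀, h1, h2⟩ := hp.maps O hO
    have := (hp.lb ![1, 0] O hO O₀ h1 h2).inv
    rw [lbf h0, inv_div, div_eq_mul_inv, mul_comm, ← div_eq_mul_inv] at this
    exact ((h0.gF O₀ h1 0).mono h2.1).of_unit this
  · obtain ⟨O₀, h1, h2⟩ := hp.maps O hO
    have := (hp.lb ![0, 1] O hO O₀ h1 h2).inv
    rw [lbG h0, inv_div, div_eq_mul_inv, mul_comm, ← div_eq_mul_inv] at this
    exact ((h0.gF O₀ h1 1).mono h2.1).of_unit this
  · rw [hp.sec]
    have := hS.s.fd ![0, 1]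
    refine span_le (gu α) (fun o : Option (Fin (n + 1)) => o.elim (0, 0) fun i => (i, 1)) ?_ _ _
      ?_ ?_ ?_
    · rintro (_ | i) (_ | j) e <;> simp [Fin.val_inj] at e ⊢
      exact e
    · rintro (_ | i)
      · simpa using (secG h0 α).1
      · simpa using (secG h0 α).2 i (Nat.lt_succ_iff.1 i.2)
    · rintro (_ | i)
      · exact Or.inl (by simp)
      · exact Or.inr ⟨i, Nat.lt_succ_iff.1 i.2, by simp⟩
    · unfold Sd.h0 at d2
      simp only [Fintype.card_option, Fintype.card_fin]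
      omega
  · rw [← map_add, hp.sec]
    have := hS.s.fd (![0, 1] + ![1, 0])
    have mul := hS.a2.mul ![0, 1] ![1, 0]
    refine span_le (gu α) (Sum.elim (fun j : Fin 2 => (j, 0)) fun i : Fin (n + 2) => (i, 1)) ?_ _ _
      ?_ ?_ ?_
    · rintro (i | i) (j | j) e <;> simp [Fin.val_inj] at e ⊢ <;> exact e
    · rintro (i | i)
      · fin_cases i
        · simpa using mul _ (secG h0 α).1 _ (secf h0 α).1
        · simpa using mul _ (secG h0 α).1 _ (secf h0 α).2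
      · rcases Nat.lt_or_ge n i with hi | hi
        · have e : (i : ℕ) = n + 1 := by omega
          have := mul _ ((secG h0 α).2 n le_rfl) _ (secf h0 α).2
          rw [mul_right_comm, ← pow_succ, ← e] at this
          simpa using this
        · simpa using mul _ ((secG h0 α).2 i hi) _ (secf h0 α).1
    · rintro (i | i)
      · fin_cases i
        · exact Or.inl (by simp)
        · exact Or.inr (Or.inl (by simp))
      · exact Or.inr (Or.inr ⟨i, Nat.lt_succ_iff.1 i.2, by simp⟩)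
    · unfold Sd.h0 at d3
      simp only [Fintype.card_sum, Fintype.card_fin]
      omega

end Pool.Agent.MP_e8e0b6_ag.R2.C

end Part2

section Part3

-- part 3: C Fns

/-!
Row FNS: lifting the sections of a ruled base.
-/

set_option autoImplicit false

namespace Pool.Agent.MP_e8e0b6_ag.R2.C

open Pool.Agent.MP_79c67d_ag Pool.Agent.MP_20d318_ag Pool.Agent.MP_20d318_ag.AG
  Pool.Agent.MP_20d318_ag.BV Pool.Agent.MP_20d318_ag.CB

namespace Fns

variable {k F M I : Type} [Field k] [Field F] [Field M] [Algebra k F] [Algebra k M] [Fintype I]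
  {R ξ : Subalgebra k F} {H : Set F} {ρ : ξ →ₐ[k] M} {S : Sd k M I} {X : Set (Subalgebra k F)}
  {γ γ' : Subalgebra k F → F} {a b : F}

theorem sc_mul (ha : a ∈ Sc X γ) (hb : b ∈ Sc X γ') : a * b ∈ Sc X fun O => γ O * γ' O :=
  fun O hO => by
    rw [mul_mul_mul_comm]
    exact O.mul_mem (ha O hO) (hb O hO)

theorem sc_sub (ha : a ∈ Sc X γ) (hb : b ∈ Sc X γ) : a - b ∈ Sc X γ := fun O hO => by
  rw [sub_mul]
  exact O.sub_mem (ha O hO) (hb O hO)

theorem sc_const (c : k) (ha : a ∈ Sc X γ) : algebraMap k F c * a ∈ Sc X γ := fun O hO => by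
  rw [mul_assoc]
  exact O.mul_mem (O.algebraMap_mem c) (ha O hO)

theorem ev_sum {ι : Type} (s : Finset ι) {v : ι → F} (hv : ∀ i, v i ∈ ξ) :
    evO ξ ρ (∑ i ∈ s, v i) = ∑ i ∈ s, evO ξ ρ (v i) := by
  classical
  induction s using Finset.induction_on with
  | empty => rw [Finset.sum_empty, Finset.sum_empty, evO_zero]
  | insert i s hi ih =>
    rw [Finset.sum_insert hi, Finset.sum_insert hi,
      evO_add ρ (hv i) (ξ.sum_mem fun j _ => hv j), ih]

/-- A combination with residue zero of elements with independent residues. -/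
theorem coef (L : Lc R H ξ ρ S) {ι : Type} [Fintype ι] {v : ι → F} (hv : ∀ i, v i ∈ ξ)
    (li : LinearIndependent k fun i => evO ξ ρ (v i)) (ha : a ∈ Submodule.span R (Set.range v))
    (h0 : evO ξ ρ a = 0) : ∃ c : ι → F, (∀ i, c i ∈ mx R) ∧ a = ∑ i, c i * v i := by
  obtain ⟨c, rfl⟩ := (Submodule.mem_span_range_iff_exists_fun R).1 ha
  choose e he using fun i => L.rat (c i) (c i).2
  have hc : ∀ i, (c i : F) ∈ ξ := fun i => L.fib.dom.1 (c i).2
  have h1 : ∀ i, evO ξ ρ (c i) = algebraMap k M (e i) := fun i => by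
    have h2 := L.fib.dom.mx (he i)
    have h3 := (L.lh.eq_zero_iff h2.1).2 h2
    rwa [evO_sub ρ (hc i) (ξ.algebraMap_mem _), evO_const, sub_eq_zero] at h3
  have h4 : evO ξ ρ (∑ i, (c i : F) * v i) = 0 := h0
  rw [ev_sum _ fun i => ξ.mul_mem (hc i) (hv i)] at h4
  have h5 := Fintype.linearIndependent_iff.1 li e (by
    rw [← h4]
    exact Finset.sum_congr rfl fun i _ => by rw [evO_mul ρ (hc i) (hv i), h1, Algebra.smul_def])
  exact ⟨fun i => c i, fun i => by simpa [h5 i] using he i, rfl⟩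

theorem sec_of {d : I → ℤ} {U : Set M} (h : ∀ O ∈ S.T, Gn U O (S.lb d O)⁻¹) {s : M} (hs : s ∈ U) :
    s ∈ S.Sec d := fun O hO => by
  have := (h O hO).1 s hs
  rwa [div_inv_eq_mul] at this

end Fns

open Fns in
theorem fns : FnsStmt := by
  intro alg k F M I _ _ _ _ _ _ _ _ R H ξ ρ S L A hS n x y f G C
  obtain ⟨gf, Df, Bf⟩ := A.ex f
  obtain ⟨gG, DG, BG⟩ := A.ex G
  have DS := dt_mul DG Df
  have BS := lb_mul L hS.a1.gne BG Bf
  obtain ⟨X₀, s0, e0⟩ := A.surj f gf Df Bf C.ef 1 (sec_of C.gf (Or.inl rfl))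
  obtain ⟨X₁, s1, e1⟩ := A.surj f gf Df Bf C.ef x (sec_of C.gf (Or.inr rfl))
  obtain ⟨z, sz, ez⟩ := A.surj G gG DG BG C.eG 1 (sec_of C.gG (Or.inl rfl))
  have m0 := sc_mem L Bf s0
  have m1 := sc_mem L Bf s1
  have mz := sc_mem L BG sz
  refine ⟨X₀, X₁, z, Sc (XX R H) gG, m0, m1, mz, e0, e1, ez, sz, fun O hO => ⟨_, sc_gn L Bf ?_ hO ?_⟩,
    fun O hO => ⟨_, sc_gn L BG subset_rfl hO ?_⟩, fun α => ?_⟩
  · rintro _ (rfl | rfl) <;> assumption
  · obtain ⟨s, hs, hu⟩ := (C.gf _ (red_mem L hO)).2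
    rw [div_inv_eq_mul] at hu
    rcases hs with rfl | rfl
    · exact ⟨X₀, Or.inl rfl, e0 ▸ hu⟩
    · exact ⟨X₁, Or.inr rfl, e1 ▸ hu⟩
  · obtain ⟨s, hs, hu⟩ := (C.gG _ (red_mem L hO)).2
    rw [div_inv_eq_mul] at hu
    obtain ⟨w, hw, e⟩ := A.surj G gG DG BG C.eG s (sec_of C.gG hs)
    exact ⟨w, hw, e ▸ hu⟩
  choose Y sY eY using fun j : ℕ =>
    A.surj G gG DG BG C.eG _ (C.mG α (n - j) (Nat.sub_le n j))
  have mY := fun j => sc_mem L BG (sY j)
  obtain ⟨u, hu⟩ : ∃ u, u = x - algebraMap k M α := ⟨_, rfl⟩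
  obtain ⟨x₀, hx⟩ : ∃ x₀, x₀ = X₁ - algebraMap k F α * X₀ := ⟨_, rfl⟩
  have sG := C.sG α
  have sS := C.sS α
  rw [← hu] at eY sG sS ⊢
  rw [← hx]
  have sx : x₀ ∈ Sc (XX R H) gf := hx ▸ sc_sub s1 (sc_const α s0)
  have mx0 := sc_mem L Bf sx
  have ex : evO ξ ρ x₀ = u := by
    rw [hx, evO_sub ρ m1 (ξ.mul_mem (ξ.algebraMap_mem α) m0), evO_mul ρ (ξ.algebraMap_mem α) m0,
      evO_const, e0, e1, mul_one, hu]
  have gen : GenP k u y := genP_of C.gen (by
    have h1 : u ∈ IntermediateField.adjoin k {u, y} := IntermediateField.subset_adjoin _ _ (Or.inl rfl)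
    have := add_mem h1 (IntermediateField.algebraMap_mem _ α)
    rwa [show u + algebraMap k M α = x by rw [hu]; ring] at this)
    (IntermediateField.subset_adjoin _ _ (Or.inr rfl))
  have u0 : u ≠ 0 := by simpa using (genP_li gen).ne_zero (1, 0)
  have ux : IsU ξ x₀ := xi_unit L mx0 (ex ▸ u0)
  let v : Fin 2 ⊕ Fin (n + 2) → F := Sum.elim (fun a => z * if a.1 = 0 then X₀ else x₀)
    fun j => if j.1 = 0 then Y n * X₀ else Y (n + 1 - j.1) * x₀
  let e : Fin 2 ⊕ Fin (n + 2) → ℕ × ℕ := Sum.elim (fun a => (a.1, 0)) fun j => (j.1, 1)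
  have sv : ∀ i, v i ∈ Sc (XX R H) fun O => gG O * gf O := by
    rintro (a | j) <;> simp only [v, Sum.elim_inl, Sum.elim_inr] <;> split_ifs
    exacts [sc_mul sz s0, sc_mul sz sx, sc_mul (sY _) s0, sc_mul (sY _) sx]
  have ev : ∀ i, evO ξ ρ (v i) = u ^ (e i).1 * y ^ (e i).2 := by
    rintro (a | j) <;> simp only [v, e, Sum.elim_inl, Sum.elim_inr] <;> split_ifs with h
    · rw [evO_mul ρ mz m0, ez, e0, h, pow_zero, pow_zero]
    · rw [evO_mul ρ mz mx0, ez, ex, show a.1 = 1 by omega]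
      ring
    · rw [evO_mul ρ (mY _) m0, eY, e0, h, Nat.sub_self]
      ring
    · obtain ⟨i, hi⟩ : ∃ i, j.1 = i + 1 := ⟨j.1 - 1, by omega⟩
      rw [evO_mul ρ (mY _) mx0, eY, ex, show n - (n + 1 - j.1) = i by omega, hi]
      ring
  have li : LinearIndependent k fun i => evO ξ ρ (v i) := by
    rw [funext ev]
    refine (genP_li gen).comp e ?_
    rintro (a | a) (b | b) h <;> simp only [e, Sum.elim_inl, Sum.elim_inr, Prod.mk.injEq] at h
    · rw [Fin.ext h.1]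
    · omega
    · omega
    · rw [Fin.ext h.1]
  have sp : S.Sec (G + f) ≤ Submodule.span k (evO ξ ρ '' Set.range v) :=
    sS.trans (Submodule.span_mono (by
      rintro _ (rfl | rfl | ⟨i, hi, rfl⟩)
      · exact ⟨_, ⟨Sum.inl 0, rfl⟩, by rw [ev]; simp [e]⟩
      · exact ⟨_, ⟨Sum.inl 1, rfl⟩, by rw [ev]; simp [e]⟩
      · exact ⟨_, ⟨Sum.inr ⟨i, by omega⟩, rfl⟩, by rw [ev]; simp [e]⟩))
  obtain ⟨p, hp, q, hq, h1, a, ha, b, hb, h2⟩ := alg k F R n (X₀ / x₀) z Y L.loc fun i hi => by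
    have s2 := sc_sub (sc_mul (sY i) s0) (sc_mul (sY (i + 1)) sx)
    obtain ⟨c, hc, h3⟩ := coef L (fun i => sc_mem L BS (sv i)) li
      (A.span _ _ DS BS C.eS _ (Set.range_subset_iff.2 sv) sp _ s2) (by
        rw [evO_sub ρ (ξ.mul_mem (mY _) m0) (ξ.mul_mem (mY _) mx0), evO_mul ρ (mY _) m0,
          evO_mul ρ (mY _) mx0, eY, eY, e0, ex, show n - i = n - (i + 1) + 1 by omega]
        ring)
    have h4 : X₀ / x₀ * Y i - Y (i + 1) = ∑ l, c l * (v l / x₀) := by
      simp only [← mul_div_assoc]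
      rw [← Finset.sum_div, ← h3]
      field_simp [ux.ne]
    rw [h4]
    refine Submodule.sum_mem _ fun l _ => Submodule.subset_span ⟨_, hc l, _, ?_, rfl⟩
    rcases l with a | j <;> simp only [v, Sum.elim_inl, Sum.elim_inr] <;> split_ifs with h
    · exact Or.inr (Or.inl (by ring))
    · exact Or.inl (mul_div_cancel_right₀ _ ux.ne)
    · exact Or.inr (Or.inr (Or.inl (by ring)))
    · exact Or.inr (Or.inr (Or.inr ⟨_, by omega, mul_div_cancel_right₀ _ ux.ne⟩))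
  have hA : R ⊔ Algebra.adjoin k {X₀ / x₀} ≤ ξ := sup_le L.fib.dom.1
    (Algebra.adjoin_le (Set.singleton_subset_iff.2 (ux.div_mem m0)))
  have my : q * Y 0 + p * Y n ∈ ξ :=
    ξ.add_mem (ξ.mul_mem (hA hq) (mY 0)) (ξ.mul_mem (hA hp) (mY n))
  have ma := span_mem hA (fun _ h => L.fib.dom.1 h.1) ha
  have mb := span_mem hA (fun _ h => L.fib.dom.1 h.1) hb
  refine ⟨_, my, ?_, add_mem (span_mul hq (Submodule.subset_span (sY 0)))
    (span_mul hp (Submodule.subset_span (sY n))), fun w hw => ?_⟩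
  · have := congrArg (evO ξ ρ) h2
    rwa [evO_sub ρ my (mY 0), evO_add ρ (ξ.mul_mem ma mz) (ξ.mul_mem mb my), evO_mul ρ ma mz,
      evO_mul ρ mb my, span_ev L hA ha, span_ev L hA hb, zero_mul, zero_mul, add_zero, sub_eq_zero,
      eY, Nat.sub_zero] at this
  · have h3 := A.span G gG DG BG C.eG (insert z {a | ∃ j ≤ n, a = Y j}) (by
      rintro _ (rfl | ⟨j, -, rfl⟩)
      exacts [sz, sY j]) (sG.trans (Submodule.span_mono (by
      rintro _ (rfl | ⟨i, hi, rfl⟩)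
      · exact ⟨z, Or.inl rfl, ez⟩
      · exact ⟨_, Or.inr ⟨n - i, Nat.sub_le n i, rfl⟩, by rw [eY, Nat.sub_sub_self hi]⟩))) w hw
    refine Submodule.span_le.2 ?_ (span_up le_sup_left h3)
    rintro _ (rfl | ⟨j, hj, rfl⟩)
    exacts [Submodule.subset_span (Or.inl rfl), h1 j hj]

end Pool.Agent.MP_e8e0b6_ag.R2.C

end Part3

section Part4

-- part 4: C Frc

/-!
Row FRC: lifted coordinates generate the function field of the family.
-/

set_option autoImplicit false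

namespace Pool.Agent.MP_e8e0b6_ag.R2.C

open Pool.Agent.MP_79c67d_ag Pool.Agent.MP_20d318_ag Pool.Agent.MP_20d318_ag.AG
  Pool.Agent.MP_20d318_ag.BV Pool.Agent.MP_20d318_ag.CB

namespace Frc

variable {k F : Type} [Field k] [Field F] [Algebra k F] {A w O : Subalgebra k F}

theorem frac_of (h : w ∈ Pts A) (hf : Frac w) : Frac A := fun f => by
  obtain ⟨a, ha, b, hb, h0, rfl⟩ := hf f
  obtain ⟨a1, h1, a2, h2, u1, rfl⟩ := h.2.2 a ha
  obtain ⟨b1, h3, b2, h4, u2, rfl⟩ := h.2.2 b hb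
  exact ⟨a1 * b2, A.mul_mem h1 h4, a2 * b1, A.mul_mem h2 h3,
    mul_ne_zero u1.ne (div_ne_zero_iff.1 h0).1, by rw [div_div_div_eq]⟩

/-- The lemma of Nakayama for a finite extension of a local ring. -/
theorem nak (hw : IsLocalRing w) {W G : Set F} (hW : W.Finite) (hG : G ⊆ mx w)
    (e : ∀ z, z ∈ O ↔ z ∈ Submodule.span w W)
    (h : ∀ a ∈ O, ∃ b ∈ w, a - b ∈ Submodule.span O G) : O ≤ w := by
  have key : ∀ x ∈ Submodule.span O G, ∀ c ∈ O,
      c * x ∈ IsLocalRing.maximalIdeal w • Submodule.span w W := fun x hx => by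
    induction hx using Submodule.span_induction with
    | mem r hr =>
      intro c hc
      rw [mul_comm]
      exact Submodule.smul_mem_smul ((mem_mx_iff (⟨r, (hG hr).1⟩ : w)).1 (hG hr)) ((e c).1 hc)
    | zero => intro c _; rw [mul_zero]; exact zero_mem _
    | add x y _ _ hx hy => intro c hc; rw [mul_add]; exact add_mem (hx c hc) (hy c hc)
    | smul d x _ hx =>
      intro c hc
      change c * ((d : F) * x) ∈ _
      rw [← mul_assoc]
      exact hx _ (O.mul_mem hc d.2)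
  have h1 : Submodule.span w W ≤ Submodule.span w {(1 : F)} :=
    Submodule.le_of_le_smul_of_le_jacobson_bot (Submodule.fg_span hW)
      (IsLocalRing.maximalIdeal_le_jacobson _) fun a ha => by
        obtain ⟨b, hb, h2⟩ := h a ((e a).2 ha)
        refine Submodule.mem_sup.2 ⟨b, ?_, a - b, by simpa using key _ h2 1 O.one_mem, by ring⟩
        exact Submodule.mem_span_singleton.2 ⟨⟨b, hb⟩, mul_one b⟩
  exact fun a ha => span_mem le_rfl (by rintro _ rfl; exact w.one_mem) (h1 ((e a).1 ha))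

end Frc

theorem frc : FrcStmt := by
  intro vn k F M I _ _ _ _ _ _ _ _ R H ξ ρ S L c h1 h2 hg hv
  have hle : pl R c ≤ ξ := pl_le L.fib.dom.1 h1 h2
  have hl := L.lh.isLocalRing
  obtain ⟨w, hw, hd⟩ := exists_ctr hl hle
  have hR : Dom R w := L.fib.dom.of_le (le_pl.trans hw.2.1) hd.1
  have K : ∀ a ∈ ξ, ∃ b ∈ w, a - b ∈ mx ξ := fun a ha => by
    obtain ⟨p, hp, q, hq, h0, e⟩ := (plane_stmt k M _ _ hg).frac (evO ξ ρ a)
    obtain ⟨p, hp', rfl⟩ := (ev_ap h1 h2).1 hp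
    obtain ⟨q, hq', rfl⟩ := (ev_ap h1 h2).1 hq
    have m1 : p ∈ w := hw.2.1 (ap_le_pl hp')
    have m2 : q ∈ w := hw.2.1 (ap_le_pl hq')
    have u : IsU ξ q := xi_unit L (hd.1 m2) h0
    have m : p / q ∈ w := (hd.2 q m2 u).div_mem m1
    refine ⟨p / q, m, (L.lh.eq_zero_iff (ξ.sub_mem ha (hd.1 m))).1 ?_⟩
    rw [evO_sub ρ ha (hd.1 m), evO_div ρ (hd.1 m1) u, e, sub_self]
  have hV : ∀ V : Subalgebra k F, IsVal V → Dom w V → Dom ξ V := fun V hV h3 => by
    obtain ⟨O, hO, h4⟩ := xs_ctr L.fm hV (hR.trans h3)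
    have h5 : w ≤ O := (dom_of hw (hv O hO V hV h4 (hw.2.1.trans h3.1)) h3 h4).1
    have h6 : Dom O ξ := ⟨xs_le L hO, fun u hu hu' => by
      obtain ⟨b, hb, h7⟩ := K _ hu'.inv_mem
      have h8 : u * b - 1 ∈ mx ξ := by
        rw [show u * b - 1 = -(u * (u⁻¹ - b)) by rw [mul_sub, mul_inv_cancel₀ hu'.ne]; ring]
        exact mx_neg (mx_mul_left hu'.mem h7)
      exact IsU.of_mul hu (h5 hb) (by
        simpa using isU_one.add_mx (xx_loc hO.1)
          (mx_of_le (xs_le L hO) (O.sub_mem (O.mul_mem hu (h5 hb)) O.one_mem) h8))⟩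
    rwa [xx_sep L.fm hO.1 L.fib.mem h6 (Dom.refl ξ)] at h4
  obtain ⟨j, -, hj⟩ := L.fib.mem
  obtain ⟨W, hW, e⟩ := vn k F w ξ _ hw.1 (L.fm.fin.image fun a => a / j)
    (Pts_of_le hj (sup_le_sup_right hR.1 _) (sup_le hd.1 (le_sup_right.trans hj.2.1))) hV
  refine Frc.frac_of hw ((xx_frac L.fm L.fib.mem).mono
    (Frc.nak hw.1 hW (fun _ h => hR.mx h) e fun a ha => ?_))
  obtain ⟨b, hb, h3⟩ := K a ha
  exact ⟨b, hb, L.fib.red ξ L.fib.mem L.fib.dom _ h3.1 h3⟩

end Pool.Agent.MP_e8e0b6_ag.R2.C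

end Part4

section Part5

-- part 5: C Glue

/-!
The induction on the marked tower.
-/

set_option autoImplicit false

namespace Pool.Agent.MP_e8e0b6_ag.R2.C

open Pool.Agent.MP_79c67d_ag Pool.Agent.MP_20d318_ag Pool.Agent.MP_20d318_ag.AG
  Pool.Agent.MP_20d318_ag.BV Pool.Agent.MP_20d318_ag.CB

theorem ch_of (mk2 : Mk2Stmt) (vn : VnStmt) (pbS : PbStmt) (p2c : P2cStmt) (fnc : FncStmt)
    (fnr : FnrStmt) (bz : BzStmt) (stc : StcStmt) (alg : AlgStmt) (con : ConStmt) (del : DelStmt)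
    (stk : StkStmt) (frc : FrcStmt) (nrm : NrmStmt) (wex : WexStmt) (sec : SecStmt) (pq : PqStmt)
    (cen : CenStmt) (stv : StvStmt) (stp : StpStmt) (p2f : P2fStmt) (fns : FnsStmt)
    (fng : FngStmt) (top : TopStmt) : ChStmt := by
  intro k F M I _ _ _ _ _ _ _ _ R H ξ ρ S L hA
  have hS := (mk2 k M I S L.mrk).all
  have key : ∀ {I₀ : Type} [Fintype I₀] {S₀ : Sd k M I₀}, Mk S₀ → ∀ p, Pb S S₀ p →
      ∃ 𝒞, Cg R H ξ ρ S₀.T 𝒞 := by
    intro I₀ _ S₀ h
    induction h with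
    | p2 x y P h =>
      intro p hp
      refine p2f (frc vn) k F M I R H ξ ρ S L hA _ x y (p (p2 k x y).h) (p2c k M x y P h)
        ((pbS k M).2.1 _ _ S _ p _ hp (by simpa using (mk2 k M _ _ (Mk.p2 x y P h)).exh 1))
        fun O hO => ?_
      obtain ⟨O₀, h0, hd⟩ := hp.maps O hO
      refine ((h.gH O₀ h0).mono hd.1).of_unit ?_
      have := (hp.lb (p2 k x y).h O hO O₀ h0 hd).inv
      rw [h.lb] at this
      convert this using 1
      simp [p2, div_eq_mul_inv, mul_comm]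
    | fn n x y P Q h =>
      intro p hp
      obtain ⟨X₀, X₁, z, N, hr⟩ := fns alg k F M I R H ξ ρ S L hA hS n x y _ _
        (fnr pbS k M I S n x y P Q p h (mk2 k M _ _ (Mk.fn n x y P Q h)).all hp)
      exact fng (frc vn) k F M I R H ξ ρ S L _ n x y X₀ X₁ z N (fnc k M n x y h.toFn0) hr
    | bl S₀ O₀ a b H' e E h0 h ih =>
      intro p hp
      obtain ⟨𝒞, hC⟩ := ih _ ((pbS k M).2.2 _ _ S S₀ O₀ a b H' e E p hS h hp)
      have m0 := mk2 k M _ _ h0
      obtain ⟨s₀, Z, hz⟩ := bz pbS k M I _ S S₀ O₀ a b H' e E p hS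
        (mk2 k M _ _ (Mk.bl S₀ O₀ a b H' e E h0 h)).all m0.all (by simpa using m0.exh 1) h hp
      obtain ⟨t, J, hx⟩ := sec k F M I R H ξ ρ S L hA hS O₀ _ _ s₀ Z hz
      exact stp stc stk wex (cen vn con del (pq nrm)) stv k F M I R H ξ ρ S L _ S₀ O₀ a b H' e t J
        𝒞 h.toBl1 hx hC
  obtain ⟨𝒞, hC⟩ := key L.mrk _ ((pbS k M).1 I S hS)
  exact top nrm k F M I R H ξ ρ S L hS 𝒞 hC

end Pool.Agent.MP_e8e0b6_ag.R2.C

end Part5

section Part6

-- part 6: C Nrm

/-!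
A lifted chart is the polynomial ring over the base, so its local rings are normal.
-/

set_option autoImplicit false

namespace Pool.Agent.MP_e8e0b6_ag.R2.C

open Pool.Agent.MP_79c67d_ag Pool.Agent.MP_20d318_ag Pool.Agent.MP_20d318_ag.AG
  Pool.Agent.MP_20d318_ag.BV Pool.Agent.MP_20d318_ag.CB

namespace NrmAux

variable {k F : Type} [Field k] [Field F] [Algebra k F] {R : Subalgebra k F} {c : F × F}

/-- Independent monomials give algebraically independent coordinates. -/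
theorem ai_of_li (h : LinearIndependent R fun s : Fin 2 →₀ ℕ => c.1 ^ s 0 * c.2 ^ s 1) :
    AlgebraicIndependent R ![c.1, c.2] := by
  have e : (MvPolynomial.aeval ![c.1, c.2] : MvPolynomial (Fin 2) R →ₐ[R] F).toLinearMap =
      Finsupp.linearCombination R (fun s : Fin 2 →₀ ℕ => c.1 ^ s 0 * c.2 ^ s 1) ∘ₗ
        (MvPolynomial.basisMonomials (Fin 2) R).repr.toLinearMap := by
    refine (MvPolynomial.basisMonomials (Fin 2) R).ext fun s => ?_
    rw [LinearMap.comp_apply, LinearEquiv.coe_coe, Module.Basis.repr_self]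
    simp [MvPolynomial.aeval_monomial, Finsupp.prod_fintype]
  change Function.Injective
    (MvPolynomial.aeval ![c.1, c.2] : MvPolynomial (Fin 2) R →ₐ[R] F).toLinearMap
  rw [e, LinearMap.coe_comp]
  exact Function.Injective.comp h (MvPolynomial.basisMonomials (Fin 2) R).repr.injective

/-- The plane over `R` is the image of the polynomial ring. -/
theorem mem_pl {f : F} : f ∈ pl R c ↔
    f ∈ (MvPolynomial.aeval ![c.1, c.2] : MvPolynomial (Fin 2) R →ₐ[R] F).range := by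
  constructor
  · intro hf
    let T := (MvPolynomial.aeval ![c.1, c.2] : MvPolynomial (Fin 2) R →ₐ[R] F).range
    exact pl_le (O := T.restrictScalars k) (fun r hr => T.algebraMap_mem ⟨r, hr⟩)
      ⟨MvPolynomial.X 0, by simp⟩ ⟨MvPolynomial.X 1, by simp⟩ hf
  · rintro ⟨p, rfl⟩
    change MvPolynomial.aeval ![c.1, c.2] p ∈ pl R c
    induction p using MvPolynomial.induction_on with
    | C a => rw [MvPolynomial.aeval_C]; exact le_pl a.2
    | add p q hp hq => rw [map_add]; exact add_mem hp hq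
    | mul_X p i hp =>
      rw [map_mul, MvPolynomial.aeval_X]
      refine mul_mem hp ?_
      fin_cases i
      · exact fst_mem
      · exact snd_mem

/-- The plane over a factorial ring is normal. -/
theorem nrm_pl [UniqueFactorizationMonoid R] (h : AlgebraicIndependent R ![c.1, c.2])
    (hF : Frac (pl R c)) : Nrm (pl R c) := by
  intro f hf
  let φ : MvPolynomial (Fin 2) R →+* pl R c :=
    (MvPolynomial.aeval ![c.1, c.2] : MvPolynomial (Fin 2) R →ₐ[R] F).toRingHom.codRestrict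
      (pl R c) fun p => mem_pl.2 ⟨p, rfl⟩
  have hφ : Function.Bijective φ :=
    ⟨fun p q e => h (congrArg Subtype.val e), fun a =>
      (mem_pl.1 a.2).imp fun p e => Subtype.ext e⟩
  have := (RingEquiv.ofBijective φ hφ).toMulEquiv.uniqueFactorizationMonoid inferInstance
  have := Krull.isFractionRing hF
  obtain ⟨y, hy⟩ := IsIntegrallyClosed.algebraMap_eq_of_integral hf
  exact hy ▸ y.2

end NrmAux

theorem nrm : NrmStmt := by
  intro k F M I _ _ _ _ _ _ _ _ R H ξ ρ S L c h1 h2 hg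
  have ha : AlgebraicIndependent R ![c.1, c.2] := by
    refine NrmAux.ai_of_li (L.ind _ _ (fun s => mul_mem (pow_mem h1 _) (pow_mem h2 _)) ?_)
    have := (genP_li hg).comp (fun s : Fin 2 →₀ ℕ => (s 0, s 1)) fun s t e => by
      ext i
      fin_cases i
      · exact congrArg Prod.fst e
      · exact congrArg Prod.snd e
    convert this using 2 with s
    rw [evO_mul ρ (pow_mem h1 _) (pow_mem h2 _), evO_pow ρ h1, evO_pow ρ h2]
    rfl
  refine ⟨ha, fun hF P hP => ?_⟩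
  have := L.fm.ufdC R (self_mem_Pts L.loc)
  exact nrmLoc_stmt k F _ P (NrmAux.nrm_pl ha hF) hP.2.1 hP.2.2

end Pool.Agent.MP_e8e0b6_ag.R2.C

end Part6

section Part7

-- part 7: C P2c

/-!
Charts of the plane.
-/

set_option autoImplicit false

namespace Pool.Agent.MP_e8e0b6_ag.R2.C

open Pool.Agent.MP_79c67d_ag Pool.Agent.MP_20d318_ag Pool.Agent.MP_20d318_ag.AG
  Pool.Agent.MP_20d318_ag.BV Pool.Agent.MP_20d318_ag.CB

theorem p2c : P2cStmt := by
  intro k M _ _ _ _ _ x y L h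
  obtain ⟨a, ha⟩ : ∃ a : k × k → M,
      ∀ l, a l = 1 + algebraMap k M l.1 * x + algebraMap k M l.2 * y := ⟨_, fun _ => rfl⟩
  have hc : ∀ l, cP (k := k) x y l = (x / a l, y / a l) := fun l => by rw [ha]; rfl
  have ne : ∀ l, a l ≠ 0 := fun l => by
    have := h.gen.aeval_ne (p := 1 + MvPolynomial.C l.1 * MvPolynomial.X 0 +
      MvPolynomial.C l.2 * MvPolynomial.X 1)
      fun e => by simpa using congrArg (MvPolynomial.eval fun _ => (0 : k)) e
    simpa [ha] using this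
  have dv : ∀ l j, a l / j = 1 / j + algebraMap k M l.1 * (x / j) + algebraMap k M l.2 * (y / j) :=
    fun l j => by rw [ha]; ring
  have inv : ∀ l, 1 / a l =
      1 - algebraMap k M l.1 * (x / a l) - algebraMap k M l.2 * (y / a l) := fun l => by
    have := dv l (a l)
    rw [div_self (ne l)] at this
    linear_combination -this
  refine ⟨fun l => ?_, fun l O hO => ?_, fun Y hY hf => ?_⟩
  · rw [hc]
    obtain ⟨K, hK⟩ : ∃ K, K = IntermediateField.adjoin k {x / a l, y / a l} := ⟨_, rfl⟩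
    have m1 : x / a l ∈ K := hK ▸ IntermediateField.subset_adjoin _ _ (Or.inl rfl)
    have m2 : y / a l ∈ K := hK ▸ IntermediateField.subset_adjoin _ _ (Or.inr rfl)
    have m3 : 1 / a l ∈ K := inv l ▸ sub_mem (sub_mem (one_mem _)
      (mul_mem (K.algebraMap_mem _) m1)) (mul_mem (K.algebraMap_mem _) m2)
    have m4 := div_mem m1 m3
    have m5 := div_mem m2 m3
    rw [div_div_div_cancel_right₀ (ne l), div_one, hK] at m4 m5
    exact genP_of h.gen m4 m5
  · rw [hc] at hO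
    have m1 : x / a l ∈ O := hO.2.1 fst_ap
    have m2 : y / a l ∈ O := hO.2.1 snd_ap
    have m3 : 1 / a l ∈ O := inv l ▸ sub_mem (sub_mem (one_mem _)
      (mul_mem (O.algebraMap_mem _) m1)) (mul_mem (O.algebraMap_mem _) m2)
    have g : Gn {x, y, 1} O (a l) := by
      refine ⟨by rintro _ (rfl | rfl | rfl) <;> assumption, by_contra fun hn => ?_⟩
      have := mx_add hO.1 (mx_add hO.1 ⟨m3, fun u => hn ⟨1, by simp, u⟩⟩
        (mx_mul_left (O.algebraMap_mem l.1) ⟨m1, fun u => hn ⟨x, by simp, u⟩⟩))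
        (mx_mul_left (O.algebraMap_mem l.2) ⟨m2, fun u => hn ⟨y, by simp, u⟩⟩)
      rw [← dv, div_self (ne l)] at this
      exact one_not_mem_mx this
    obtain ⟨j, hj, g'⟩ := g.exists_mem
    obtain ⟨B, hB⟩ : ∃ B, B = cht k (fun _ : Unit => ({x, y, 1} : Set M)) fun _ => j := ⟨_, rfl⟩
    have mB : ∀ b ∈ ({x, y, 1} : Set M), b / j ∈ B := fun b hb =>
      hB ▸ Algebra.subset_adjoin (Set.mem_iUnion.2 ⟨(), b, hb, rfl⟩)
    have ma : a l / j ∈ B := dv l j ▸ add_mem (add_mem (mB 1 (by simp))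
      (mul_mem (B.algebraMap_mem _) (mB x (by simp)))) (mul_mem (B.algebraMap_mem _) (mB y (by simp)))
    have fr' : ∀ b ∈ ({x, y, 1} : Set M), b / a l ∈ fr B O := fun b hb => by
      rw [← div_div_div_cancel_right₀ g'.ne b (a l)]
      exact mem_fr (mB b hb) ma (g.unit g')
    have le : B ≤ O := hB ▸ Algebra.adjoin_le (by
      rintro _ ⟨_, ⟨u, rfl⟩, b, hb, rfl⟩
      exact g'.1 b hb)
    exact ⟨fun _ => j, fun _ => hj, hB ▸ pts2 hO le (ap_le (fr' x (by simp)) (fr' y (by simp)))⟩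
  · have loc : ∀ O ∈ Y, IsLocalRing O := fun O hO => (hY hO).choose_spec.2.1
    have g := fun O hO => h.gH O (hY hO)
    have mx := fun O hO => (g O hO).1 x (by simp)
    have my := fun O hO => (g O hO).1 y (by simp)
    obtain ⟨m, hm⟩ := exists_pencil hf (gn {x, y, 1}) loc mx my
    obtain ⟨l, hl⟩ := exists_pencil (b := x + algebraMap k M m * y) hf (gn {x, y, 1}) loc
      (fun O hO => (g O hO).1 1 (by simp)) fun O hO => by
        rw [add_div, mul_div_assoc]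
        exact add_mem (mx O hO) (mul_mem (O.algebraMap_mem _) (my O hO))
    refine ⟨(l, l * m), fun O hO => ?_⟩
    have u : IsU O (a (l, l * m) / gn {x, y, 1} O) := by
      rw [show a (l, l * m) = 1 + algebraMap k M l * (x + algebraMap k M m * y) by
        rw [ha, map_mul]; ring]
      obtain ⟨b, rfl | rfl | rfl, hb⟩ := (g O hO).2
      exacts [hl O hO (Or.inr (hm O hO (Or.inl hb))), hl O hO (Or.inr (hm O hO (Or.inr hb))),
        hl O hO (Or.inl hb)]
    have m1 := u.div_mem (mx O hO)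
    have m2 := u.div_mem (my O hO)
    rw [div_div_div_cancel_right₀ (g O hO).ne] at m1 m2
    rw [hc]
    exact ap_le m1 m2

end Pool.Agent.MP_e8e0b6_ag.R2.C

end Part7
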