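import Pool.Agent.MP_e8e0b6_ag.R2.C.Bas

section Part1

-- part 1: C P2f

/-!
Lifting the charts of the plane to the family.
-/

set_option autoImplicit false

namespace Pool.Agent.MP_e8e0b6_ag.R2.C

open Pool.Agent.MP_79c67d_ag Pool.Agent.MP_20d318_ag Pool.Agent.MP_20d318_ag.AG
  Pool.Agent.MP_20d318_ag.BV Pool.Agent.MP_20d318_ag.CB

namespace P2f

variable {k F : Type} [Field k] [Field F] [Algebra k F] {A : Subalgebra k F} {z₀ z₁ z₂ u : F}

/-- A member of the net. -/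
def ln (z₀ z₁ z₂ : F) (l : k × k) : F :=
  z₀ + algebraMap k F l.1 * z₁ + algebraMap k F l.2 * z₂

theorem ln_div (l : k × k) (h0 : z₀ / u ∈ A) (h1 : z₁ / u ∈ A) (h2 : z₂ / u ∈ A) :
    ln z₀ z₁ z₂ l / u ∈ A := by
  rw [ln, add_div, add_div, mul_div_assoc, mul_div_assoc]
  exact add_mem (add_mem h0 (mul_mem (A.algebraMap_mem _) h1)) (mul_mem (A.algebraMap_mem _) h2)

theorem zero_div_ln {l : k × k} (h : ln z₀ z₁ z₂ l ≠ 0) (h1 : z₁ / ln z₀ z₁ z₂ l ∈ A)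
    (h2 : z₂ / ln z₀ z₁ z₂ l ∈ A) : z₀ / ln z₀ z₁ z₂ l ∈ A := by
  have e : z₀ / ln z₀ z₁ z₂ l = 1 - algebraMap k F l.1 * (z₁ / ln z₀ z₁ z₂ l) -
      algebraMap k F l.2 * (z₂ / ln z₀ z₁ z₂ l) := by
    field_simp
    rw [ln]
    ring
  rw [e]
  exact sub_mem (sub_mem A.one_mem (mul_mem (A.algebraMap_mem _) h1))
    (mul_mem (A.algebraMap_mem _) h2)

end P2f

open P2f in
theorem p2f : P2fStmt := by
  intro hF k F M I _ _ _ _ _ _ _ _ R H ξ ρ S L hA T₀ x y h hc hE hG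
  obtain ⟨γ, hD, hb⟩ := hA.ex h
  have sec : ∀ s ∈ ({x, y, 1} : Set M), s ∈ S.Sec h := fun s hs O hO => by
    simpa only [div_inv_eq_mul] using (hG O hO).1 s hs
  obtain ⟨z₁, s1, e1⟩ := hA.surj h γ hD hb hE x (sec _ (by simp))
  obtain ⟨z₂, s2, e2⟩ := hA.surj h γ hD hb hE y (sec _ (by simp))
  obtain ⟨z₀, s0, e0⟩ := hA.surj h γ hD hb hE 1 (sec _ (by simp))
  have m0 := sc_mem L hb s0
  have m1 := sc_mem L hb s1
  have m2 := sc_mem L hb s2
  have gn : ∀ O ∈ Xs R H, Gn {z₁, z₂, z₀} O (γ O)⁻¹ := fun O hO => by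
    refine sc_gn L hb (by rintro _ (rfl | rfl | rfl) <;> assumption) hO ?_
    obtain ⟨s, hs, hu⟩ := (hG _ (red_mem L hO)).2
    rw [div_inv_eq_mul] at hu
    rcases hs with rfl | rfl | rfl
    · exact ⟨z₁, by simp, e1 ▸ hu⟩
    · exact ⟨z₂, by simp, e2 ▸ hu⟩
    · exact ⟨z₀, by simp, e0.symm ▸ hu⟩
  have ea : ∀ l : k × k, evO ξ ρ (ln z₀ z₁ z₂ l) =
      1 + algebraMap k M l.1 * x + algebraMap k M l.2 * y := fun l => by
    have a1 := ξ.mul_mem (ξ.algebraMap_mem l.1) m1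
    have a2 := ξ.mul_mem (ξ.algebraMap_mem l.2) m2
    rw [ln, evO_add ρ (ξ.add_mem m0 a1) a2, evO_add ρ m0 a1, evO_mul ρ (ξ.algebraMap_mem _) m1,
      evO_mul ρ (ξ.algebraMap_mem _) m2, evO_const, evO_const, e0, e1, e2]
  have ua : ∀ l : k × k, IsU ξ (ln z₀ z₁ z₂ l) := fun l => by
    refine xi_unit L (ξ.add_mem (ξ.add_mem m0 (ξ.mul_mem (ξ.algebraMap_mem l.1) m1))
      (ξ.mul_mem (ξ.algebraMap_mem l.2) m2)) ?_
    have := (hc.gen l).x_ne 0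
    rw [map_zero, sub_zero] at this
    exact ea l ▸ (div_ne_zero_iff.1 this).2
  let c : k × k → F × F := fun l => (z₁ / ln z₀ z₁ z₂ l, z₂ / ln z₀ z₁ z₂ l)
  have ec : ∀ l, ev2 ξ ρ (c l) = cP x y l := fun l => Prod.ext
    ((evO_div ρ m1 (ua l)).trans (by rw [ea, e1]; rfl))
    ((evO_div ρ m2 (ua l)).trans (by rw [ea, e2]; rfl))
  have all : ∀ l l', ln z₀ z₁ z₂ l' / ln z₀ z₁ z₂ l ∈ pl R (c l) := fun l l' =>
    ln_div l' (zero_div_ln (ua l).ne fst_mem snd_mem) fst_mem snd_mem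
  refine ⟨Set.range c, ?_, ?_, fun Y hY hf => ?_⟩
  · rintro _ ⟨l, rfl⟩
    have g : GenP k (evO ξ ρ (c l).1) (evO ξ ρ (c l).2) := by
      have := hc.gen l
      rwa [← ec] at this
    have v : Vl R H (pl R (c l)) := fun O hO V _ hd hV => by
      obtain ⟨g1, s, hs, hu⟩ := gn O hO
      have g0 := (div_ne_zero_iff.1 hu.ne).2
      have a1 := ln_div l (g1 z₀ (by simp)) (g1 z₁ (by simp)) (g1 z₂ (by simp))
      have a2 : s / ln z₀ z₁ z₂ l ∈ V := by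
        rcases hs with rfl | rfl | rfl
        · exact hV fst_mem
        · exact hV snd_mem
        · exact hV (zero_div_ln (ua l).ne fst_mem snd_mem)
      have a3 : IsU O (ln z₀ z₁ z₂ l / (γ O)⁻¹) := hd.2 _ a1 (IsU.of_mul (hd.1 a1) a2 (by
        rw [div_mul_div_cancel₀' (ua l).ne]
        exact hu.mono hd.1))
      refine pl_le (xx_le hO.1) ?_ ?_
      · have := a3.div_mem (g1 z₁ (by simp))
        rwa [div_div_div_cancel_right₀ g0] at this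
      · have := a3.div_mem (g1 z₂ (by simp))
        rwa [div_div_div_cancel_right₀ g0] at this
    have n1 := (ua l).div_mem m1
    have n2 := (ua l).div_mem m2
    exact ⟨n1, n2, g, (ec l).symm ▸ hc.sub l, hF k F M I R H ξ ρ S L (c l) n1 n2 g v, v⟩
  · rintro _ ⟨l, rfl⟩ _ ⟨l', rfl⟩ V _ hV O hO hd
    have a1 := hO.2.1 (all l l')
    have a2 : IsU O (ln z₀ z₁ z₂ l' / ln z₀ z₁ z₂ l) := hd.2 _ a1
      ⟨div_ne_zero (ua l').ne (ua l).ne, hd.1 a1, by rw [inv_div]; exact hV (all l' l)⟩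
    refine pl_le (le_pl.trans hO.2.1) ?_ ?_
    · have := a2.div_mem (hO.2.1 fst_mem)
      rwa [div_div_div_cancel_right₀ (ua l).ne] at this
    · have := a2.div_mem (hO.2.1 snd_mem)
      rwa [div_div_div_cancel_right₀ (ua l).ne] at this
  · obtain ⟨l, hl⟩ := hc.cov Y hY hf
    exact ⟨c l, ⟨l, rfl⟩, (ec l).symm ▸ hl⟩

end Pool.Agent.MP_e8e0b6_ag.R2.C

end Part1

section Part2

-- part 2: C Pb

/-!
Pull-backs of classes along towers of blow-ups.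
-/

set_option autoImplicit false

namespace Pool.Agent.MP_e8e0b6_ag.R2.C

open Pool.Agent.MP_79c67d_ag Pool.Agent.MP_20d318_ag Pool.Agent.MP_20d318_ag.AG
  Pool.Agent.MP_20d318_ag.BV Pool.Agent.MP_20d318_ag.CB

theorem pbS : PbStmt := by
  intro k M _ _ _
  refine ⟨fun I _ S h => ⟨fun O hO => ⟨O, hO, Dom.refl O⟩, fun c O hO O₀ h0 hd => ?_, fun _ _ => rfl,
    fun _ => rfl, fun _ => rfl⟩, fun I I₀ _ _ S S₀ p c hp hc => ?_,
    fun I I₀ _ _ S S₀ O₀ a b H' e E p h B hp => ?_⟩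
  · rw [h.a1.nice.sep O₀ h0 O hO O (h.a1.nice.loc O hO) hd (Dom.refl O), AddMonoidHom.id_apply,
      div_self (S.lb_ne (h.a1.gne O hO) c)]
    exact isU_one
  · unfold Ex Sd.h0 chi2 at *
    rwa [hp.sec, hp.iso, hp.can]
  have bt : ∀ O₁ ∈ (S₀.blow H' e).T, S₀.bt O₁ ∈ S₀.T ∧ Dom (S₀.bt O₁) O₁ := fun O₁ h1 =>
    Classical.epsilon_spec (B.maps O₁ h1)
  refine ⟨fun O hO => ?_, fun c O hO O' h' hd => ?_, fun c c' => ?_, fun c => ?_, fun c => ?_⟩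
  · obtain ⟨O₁, h1, hd⟩ := hp.maps O hO
    exact ⟨_, (bt O₁ h1).1, (bt O₁ h1).2.trans hd⟩
  · obtain ⟨O₁, h1, hd1⟩ := hp.maps O hO
    have := hp.lb (pb c 0) O hO O₁ h1 hd1
    rwa [lb_pb, zpow_zero, mul_one, B.a1.nice.sep _ (bt O₁ h1).1 O' h' O (h.a1.nice.loc O hO)
      ((bt O₁ h1).2.trans hd1) hd] at this
  · exact (hp.iso (pb c 0) (pb c' 0)).trans (by rw [ip_pb, mul_zero, sub_zero])
  · exact (hp.can (pb c 0)).trans ((ip_pb S₀ H' e S₀.K c 1 0).trans (by rw [mul_zero, sub_zero]))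
  · refine (hp.sec (pb c 0)).trans (Submodule.ext fun φ => (B.sec c 0 φ).trans
      ⟨fun u => u.1, fun u => ⟨u, ?_⟩⟩)
    rw [neg_zero, ← mem_plO']
    exact B.dE.1 (u O₀ B.mem)

end Pool.Agent.MP_e8e0b6_ag.R2.C

end Part2

section Part3

-- part 3: C Pq

/-!
The local ring of a lifted chart at the point over the centre of a blow-up.
-/

set_option autoImplicit false

namespace Pool.Agent.MP_e8e0b6_ag.R2.C

open Pool.Agent.MP_79c67d_ag Pool.Agent.MP_20d318_ag Pool.Agent.MP_20d318_ag.AG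
  Pool.Agent.MP_20d318_ag.BV Pool.Agent.MP_20d318_ag.CB

theorem pq : PqStmt := by
  intro hN k F M I _ _ _ _ _ _ _ _ R H ξ ρ S L O₀ T₀ t J c hS hc hr h0
  obtain ⟨O₁, hO₁, hd₁⟩ := hS.ex
  have A1 : ∀ O ∈ Xs R H, Dom O₀ (red ξ ρ O) → pl R c ≤ O := fun O hO hd =>
    reg L hc.m1 hc.m2 hc.val hO (h0.2.1.trans hd.1)
  have A0 : ∀ b ∈ pl R c, evO ξ ρ b ∈ O₀ := fun b hb => h0.2.1 (ev_pl L hc.m1 hc.m2 hb)
  have A2 : ∀ O ∈ Xs R H, Dom O₀ (red ξ ρ O) → ∀ b ∈ pl R c,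
      IsU O b ↔ IsU O₀ (evO ξ ρ b) := fun O hO hd b hb =>
    (unit_iff L hO (A1 O hO hd hb)).symm.trans ⟨hd.2 _ (A0 b hb), fun h => h.mono hd.1⟩
  obtain ⟨P, hP, hd⟩ := exists_ctr (xx_loc hO₁.1) (A1 O₁ hO₁ hd₁)
  have A3 : ∀ b ∈ pl R c, IsU P b ↔ IsU O₀ (evO ξ ρ b) := fun b hb =>
    ⟨fun h => (A2 O₁ hO₁ hd₁ b hb).1 (h.mono hd.1),
      fun h => hd.2 b (hP.2.1 hb) ((A2 O₁ hO₁ hd₁ b hb).2 h)⟩
  have hR : Dom R P := hO₁.2.of_le (le_pl.trans hP.2.1) hd.1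
  have hξ : P ≤ ξ := hd.1.trans (xs_le L hO₁)
  have A4 : ∀ m ∈ O₀, ∃ a ∈ pl R c, ∃ b ∈ pl R c, IsU P b ∧ m = evO ξ ρ a / evO ξ ρ b :=
    fun m hm => by
      obtain ⟨_, ha, _, hb, hu, rfl⟩ := h0.2.2 m hm
      obtain ⟨a, ha', rfl⟩ := (ev_ap hc.m1 hc.m2).1 ha
      obtain ⟨b, hb', rfl⟩ := (ev_ap hc.m1 hc.m2).1 hb
      exact ⟨a, ap_le_pl ha', b, ap_le_pl hb', (A3 b (ap_le_pl hb')).2 hu, rfl⟩
  have hiff : ∀ O ∈ Xs R H, Dom P O ↔ Dom O₀ (red ξ ρ O) := fun O hO => by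
    constructor
    · intro h
      refine ⟨fun m hm => ?_, fun m hm hu => ?_⟩ <;>
        obtain ⟨a, ha, b, hb, hb', rfl⟩ := A4 m hm
      · exact (ev_unit (xs_le L hO) (hb'.mono h.1)).div_mem
          (ev_mem (xs_le L hO) (h.1 (hP.2.1 ha)))
      · have h1 := ev_unit (ρ := ρ) (xs_le L hO) (hb'.mono h.1)
        have h2 := hu.mul h1
        rw [div_mul_cancel₀ _ h1.ne] at h2
        exact ((A3 a ha).1 (h.2 a (hP.2.1 ha) ((unit_iff L hO (h.1 (hP.2.1 ha))).1 h2))).div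
          ((A3 b hb).1 hb')
    · intro h
      refine ⟨fun f hf => ?_, fun f hf hu => ?_⟩ <;>
        obtain ⟨a, ha, b, hb, hb', rfl⟩ := hP.2.2 f hf
      · exact ((A2 O hO h b hb).2 ((A3 b hb).1 hb')).div_mem (A1 O hO h ha)
      · have h2 := hu.mul ((A2 O hO h b hb).2 ((A3 b hb).1 hb'))
        rw [div_mul_cancel₀ _ hb'.ne] at h2
        exact ((A3 a ha).2 ((A2 O hO h a ha).1 h2)).div hb'
  have hJ : J ⊆ P := fun u hu => by_contra fun hn => by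
    obtain ⟨V, hV, h1, h2⟩ := exists_val_not_mem hP.1
      ((hN k F M I R H ξ ρ S L c hc.m1 hc.m2 hc.gen).2 hc.frac P hP) hn
    obtain ⟨O, hO, h3⟩ := xs_ctr L.fm hV (hR.trans h1)
    have h4 := (hiff O hO).1 (dom_of hP (hc.val O hO V hV h3 (hP.2.1.trans h1.1)) h1 h3)
    have h5 := O.mul_mem (hS.dv O hO h4 u hu) (hS.mem O hO).1
    rw [div_mul_cancel₀ _ (hS.mem O hO).2.ne] at h5
    exact h2 (h3.1 h5)
  refine ⟨P, hP, hR, hiff, hJ, fun f hf => ?_⟩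
  have B1 : ∀ m ∈ Submodule.span O₀ (evO ξ ρ '' J), ∃ x ∈ Submodule.span P J, evO ξ ρ x = m :=
    fun m hm => by
      induction hm using Submodule.span_induction with
      | mem _ h =>
        obtain ⟨x, hx, rfl⟩ := h
        exact ⟨x, Submodule.subset_span hx, rfl⟩
      | zero => exact ⟨0, zero_mem _, evO_zero ρ⟩
      | add _ _ _ _ h1 h2 =>
        obtain ⟨x, hx, rfl⟩ := h1
        obtain ⟨y, hy, rfl⟩ := h2
        exact ⟨x + y, add_mem hx hy,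
          evO_add ρ (hξ (span_mem le_rfl hJ hx)) (hξ (span_mem le_rfl hJ hy))⟩
      | smul e _ _ h1 =>
        obtain ⟨x, hx, rfl⟩ := h1
        obtain ⟨a, ha, b, hb, hb', he⟩ := A4 e e.2
        have h2 := hb'.div_mem (hP.2.1 ha)
        refine ⟨a / b * x, span_mul h2 hx, ?_⟩
        rw [evO_mul ρ (hξ h2) (hξ (span_mem le_rfl hJ hx)),
          evO_div ρ (hξ (hP.2.1 ha)) (hb'.mono hξ), ← he]
        rfl
  have B2 : evO ξ ρ f ∈ O₀ := by
    obtain ⟨a, ha, b, hb, hb', rfl⟩ := hP.2.2 f hf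
    rw [evO_div ρ (hξ (hP.2.1 ha)) (hb'.mono hξ)]
    exact ((A3 b hb).1 hb').div_mem (A0 a ha)
  obtain ⟨e, he⟩ := hr _ B2
  obtain ⟨x, hx, hx'⟩ := B1 _ (hS.sp _ he)
  have hxP := span_mem le_rfl hJ hx
  have h1 : f - algebraMap k F e ∈ P := P.sub_mem hf (P.algebraMap_mem e)
  refine ⟨_, R.algebraMap_mem e, f - algebraMap k F e - x, ?_, by simpa using hx⟩
  have h2 : evO ξ ρ (f - algebraMap k F e - x) = 0 := by
    rw [evO_sub ρ (hξ h1) (hξ hxP), evO_sub ρ (hξ hf) (ξ.algebraMap_mem e), evO_const, hx',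
      sub_self]
  obtain ⟨a, ha, b, hb, hb', h3⟩ := hP.2.2 _ (P.sub_mem h1 hxP)
  rw [h3] at h2 ⊢
  rw [evO_div ρ (hξ (hP.2.1 ha)) (hb'.mono hξ), div_eq_zero_iff] at h2
  rw [div_eq_inv_mul]
  exact span_mul hb'.inv_mem (span_up hP.2.1 (pl_zero L hc.m1 hc.m2 hc.gen ha
    (h2.resolve_right (evO_ne ρ (hb'.mono hξ)))))

end Pool.Agent.MP_e8e0b6_ag.R2.C

end Part3

section Part4

-- part 4: C Sec

/-! Row SEC: lifting the sections that define a blow-up. -/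

set_option autoImplicit false

namespace Pool.Agent.MP_e8e0b6_ag.R2.C

open Pool.Agent.MP_79c67d_ag Pool.Agent.MP_20d318_ag Pool.Agent.MP_20d318_ag.AG
  Pool.Agent.MP_20d318_ag.BV Pool.Agent.MP_20d318_ag.CB

theorem sec : SecStmt := by
  intro k F M I _ _ _ _ _ _ _ _ R H ξ ρ S L A hS O₀ h ε s₀ Z B
  obtain ⟨gh, Dh, Lh⟩ := A.ex h
  obtain ⟨ge, De, Le⟩ := A.ex ε
  have Dd := dt_div Dh De
  have Ld := lb_div L hS.a1.gne Lh Le
  obtain ⟨z, hz, ez⟩ := A.surj ε ge De Le B.ee 1 B.one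
  obtain ⟨s, hs, es⟩ := A.surj h gh Dh Lh B.eh s₀ B.m0
  have zu : IsU ξ z := xi_unit L (sc_mem L Le hz) (by rw [ez]; exact one_ne_zero)
  have su : IsU ξ s := xi_unit L (sc_mem L Lh hs) (by
    obtain ⟨O, hO, hd⟩ := B.ex
    rw [es]
    exact left_ne_zero_of_mul (B.u0 O hO hd).ne)
  have key : ∀ O ∈ Xs R H,
      IsU (red ξ ρ O) (evO ξ ρ (z * ge O) / S.lb ε (red ξ ρ O)) := fun O hO => by
    rw [evO_mul ρ zu.mem (Le O hO.1 hO.2).1.mem, ez, one_mul]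
    exact (Le O hO.1 hO.2).2
  refine ⟨fun O => z * ge O, {u | ∃ a ∈ Sc (XX R H) fun O => gh O / ge O, u = z * a / s},
    fun O hO => ⟨hz O hO.1, zu.mul (Le O hO.1 hO.2).1⟩, fun O hO hm => ?_,
    fun O hO hd => (B.gn _ (red_mem L hO) hd).of_unit (key O hO), ?_,
    fun O hO O' hO' W h1 h2 => ?_, fun a ha => Submodule.span_mono ?_ (B.sp a ha), ?_⟩
  · have h1 := mx_div ((mx_iff L hO (hz O hO.1)).2 hm) (key O hO)
    rw [div_div_cancel₀ (div_ne_zero_iff.1 (key O hO).ne).1] at h1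
    exact B.ov _ (red_mem L hO) h1
  · rintro O hO hd _ ⟨a, ha, rfl⟩
    have h1 : IsU O (s * gh O) :=
      (sc_unit L Lh hs hO).2 (by rw [es]; exact B.u0 _ (red_mem L hO) hd)
    have h2 := zu.ne
    have h3 := su.ne
    have h4 := (Lh O hO.1 hO.2).1.ne
    have h5 := (Le O hO.1 hO.2).1.ne
    have e : z * a / s / (z * ge O) = a * (gh O / ge O) / (s * gh O) := by field_simp
    show z * a / s / (z * ge O) ∈ O
    rw [e]
    exact h1.div_mem (ha O hO.1)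
  · show IsU W (z * ge O / (z * ge O'))
    rw [mul_div_mul_left _ _ zu.ne]
    exact dt_unit De hO.1 hO'.1 h1 h2
  · rintro _ ⟨b, hb, rfl⟩
    obtain ⟨a, ha, ea⟩ := A.surj _ _ Dd Ld B.ed b (B.mZ b hb)
    have h1 := sc_mem L Ld ha
    exact ⟨_, ⟨a, ha, rfl⟩, by
      rw [evO_div ρ (ξ.mul_mem zu.mem h1) su, evO_mul ρ zu.mem h1, ez, ea, es, one_mul]⟩
  · obtain ⟨O, hO, hd⟩ := B.ex
    obtain ⟨O', hO', rfl⟩ := exists_red L hO
    exact ⟨O', hO', hd⟩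

end Pool.Agent.MP_e8e0b6_ag.R2.C

end Part4

section Part5

-- part 5: C Stc

/-!
The affine planes of a blow-up.
-/

set_option autoImplicit false

namespace Pool.Agent.MP_e8e0b6_ag.R2.C

open Pool.Agent.MP_79c67d_ag Pool.Agent.MP_20d318_ag Pool.Agent.MP_20d318_ag.AG
  Pool.Agent.MP_20d318_ag.BV Pool.Agent.MP_20d318_ag.CB

namespace Stc

variable {k M : Type} [Field k] [Field M] [Algebra k M] {O O₀ : Subalgebra k M} {c : M × M}
  {a b g s : M}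

theorem ne (h : GenP k c.1 c.2) (l : k) : (bu l c).1 ≠ 0 := by
  have := h.aeval_ne (p := MvPolynomial.X 0 + MvPolynomial.C l * MvPolynomial.X 1) fun h0 => by
    simpa using congrArg (MvPolynomial.eval ![1, 0]) h0
  simpa [bu] using this

theorem snd_eq {l : k} (h : (bu l c).1 ≠ 0) : c.2 = (bu l c).2 * (bu l c).1 :=
  (div_mul_cancel₀ _ h).symm

theorem fst_eq (l : k) : c.1 = (bu l c).1 - algebraMap k M l * c.2 := (add_sub_cancel_right _ _).symm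

theorem genP [CharZero k] [IsAlgClosed k] (h : GenP k c.1 c.2) (l : k) :
    GenP k (bu l c).1 (bu l c).2 := by
  have h1 : (bu l c).1 ∈ IntermediateField.adjoin k {(bu l c).1, (bu l c).2} :=
    IntermediateField.subset_adjoin _ _ (Or.inl rfl)
  have h2 : c.2 ∈ IntermediateField.adjoin k {(bu l c).1, (bu l c).2} := by
    have := mul_mem (IntermediateField.subset_adjoin k {(bu l c).1, (bu l c).2} (Or.inr rfl)) h1
    rwa [← snd_eq (ne h l)] at this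
  refine genP_of h ?_ h2
  have := sub_mem h1 (mul_mem (IntermediateField.algebraMap_mem _ l) h2)
  rwa [← fst_eq] at this

/-- Division of an element of the maximal ideal. -/
theorem div (h : Cht O₀ a b) (ha : a ∈ mx O₀) (hb : b ∈ mx O₀) (hs : s ∈ mx O₀) (hle : O₀ ≤ O)
    (h1 : a / g ∈ O) (h2 : b / g ∈ O) : s / g ∈ O := by
  obtain ⟨p, hp, q, hq, rfl⟩ := Pb.gen h ha hb hs
  rw [add_div, mul_div_assoc, mul_div_assoc]
  exact O.add_mem (O.mul_mem (hle hp) h1) (O.mul_mem (hle hq) h2)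

theorem span (h : Cht O₀ a b) (ha : a ∈ mx O₀) (hb : b ∈ mx O₀) (hs : s ∈ mx O₀) (hle : O₀ ≤ O) :
    s ∈ Submodule.span O ({a, b} : Set M) := by
  obtain ⟨p, hp, q, hq, rfl⟩ := Pb.gen h ha hb hs
  exact add_mem (span_mul (hle hp) (Submodule.subset_span (Or.inl rfl)))
    (span_mul (hle hq) (Submodule.subset_span (Or.inr rfl)))

end Stc

theorem stc : StcStmt := by
  intro k M I _ _ _ _ _ _ S O₀ a b H' e c hB hg hsub h0 h1 h2
  have hc : Cht O₀ c.1 c.2 := ⟨hg, h0⟩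
  refine ⟨fun l => ⟨Stc.genP hg l, fun O hO => ?_⟩, fun Y hY hf hle => ?_⟩
  · have hn := Stc.ne hg l
    have m1 : (bu l c).1 ∈ O := hO.2.1 fst_ap
    have m2 : (bu l c).2 ∈ O := hO.2.1 snd_ap
    have n0 : (bu l c).1 ∈ mx O₀ := mx_add h0.1 h1 (mx_mul_left (O₀.algebraMap_mem l) h2)
    rcases isU_or_mx m1 with hu | hm
    · have w2 : c.2 ∈ O := by rw [Stc.snd_eq hn]; exact O.mul_mem m2 m1
      have w1 : c.1 ∈ O := by
        rw [Stc.fst_eq l]; exact O.sub_mem m1 (O.mul_mem (O.algebraMap_mem l) w2)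
      have a1 : (bu l c).1 ∈ ap k c :=
        (ap k c).add_mem fst_ap ((ap k c).mul_mem ((ap k c).algebraMap_mem l) snd_ap)
      refine (hB.off O (hsub (pts2 hO (ap_le w1 w2) (ap_le (le_fr a1) (mem_fr snd_ap a1 hu))))
        ?_).1
      rintro rfl
      exact n0.2 hu
    · have w2 : c.2 ∈ mx O := by rw [Stc.snd_eq hn]; exact mx_mul_left m2 hm
      have w1 : c.1 ∈ mx O := by
        rw [Stc.fst_eq l]; exact mx_sub' hO.1 hm (mx_mul_left (O.algebraMap_mem l) w2)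
      have hd := dom0 h0 h1 h2 hO.1 w1 w2
      rw [hB.eq]
      refine Or.inr (Set.mem_iUnion₂.2 ⟨(bu l c).1, ⟨n0, hn⟩, ?_⟩)
      refine Pts_of_le hO (ap_le (Algebra.subset_adjoin (Or.inl n0.1))
        (Algebra.subset_adjoin (Or.inr ⟨c.2, h2, rfl⟩))) (Algebra.adjoin_le ?_)
      rintro _ (hx | ⟨s, hs, rfl⟩)
      · exact hd.1 hx
      · refine Stc.div hc h1 h2 hs hd.1 ?_ m2
        have : c.1 / (bu l c).1 = 1 - algebraMap k M l * (bu l c).2 := by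
          rw [div_eq_iff hn, sub_mul, one_mul, mul_assoc, ← Stc.snd_eq hn]
          exact Stc.fst_eq l
        rw [this]
        exact O.sub_mem O.one_mem (O.mul_mem (O.algebraMap_mem l) m2)
  · have hl : ∀ O ∈ Y, IsLocalRing O := fun O hO => hB.nice.loc O (hY hO)
    have hp : ∀ O ∈ Y, Gn {c.1, c.2} O (gn {c.1, c.2} O) := fun O hO => by
      refine gn_spec ?_
      rcases hB.cases O (hY hO) with ⟨u, v⟩ | hd
      · refine (gn_one ?_ ?_).prin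
        · rintro _ (rfl | rfl)
          · exact hle O hO fst_ap
          · exact hle O hO snd_ap
        · by_contra hn
          refine v (hB.a1.nice.sep O u O₀ hB.mem O (hl O hO) (Dom.refl O) (dom0 h0 h1 h2 (hl O hO)
            ⟨hle O hO fst_ap, fun w => hn ⟨_, Or.inl rfl, w⟩⟩
            ⟨hle O hO snd_ap, fun w => hn ⟨_, Or.inr rfl, w⟩⟩))
      · have hG := (hB.ov O (hY hO) hd).2
        have k1 : ∀ s ∈ mx O₀, s / e O ∈ O := fun s hs =>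
          Stc.div hB.cht hB.ma hB.mb hs hd.1 (hG.1 _ (Or.inl rfl)) (hG.1 _ (Or.inr rfl))
        refine (hG.of_span (hl O hO) ?_ ?_).prin
        · rintro _ (rfl | rfl)
          · exact k1 _ h1
          · exact k1 _ h2
        · rintro _ (rfl | rfl)
          · exact Stc.span hc h1 h2 hB.ma hd.1
          · exact Stc.span hc h1 h2 hB.mb hd.1
    obtain ⟨l, hl'⟩ := exists_pencil (a := c.1) (b := c.2) hf (gn {c.1, c.2}) hl
      (fun O hO => (hp O hO).1 _ (Or.inl rfl)) fun O hO => (hp O hO).1 _ (Or.inr rfl)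
    refine ⟨l, fun O hO => ap_le ?_ ?_⟩
    · exact O.add_mem (hle O hO fst_ap) (O.mul_mem (O.algebraMap_mem l) (hle O hO snd_ap))
    · have hu := hl' O hO (by
        obtain ⟨_, rfl | rfl, w⟩ := (hp O hO).2
        · exact Or.inl w
        · exact Or.inr w)
      have := hu.div_mem ((hp O hO).1 _ (Or.inr rfl))
      rwa [div_div_div_cancel_right₀ (hp O hO).ne] at this

end Pool.Agent.MP_e8e0b6_ag.R2.C

end Part5

section Part6

-- part 6: C Stk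

/-!
Charts of the blow-up of a section are compatible.
-/

set_option autoImplicit false

namespace Pool.Agent.MP_e8e0b6_ag.R2.C

open Pool.Agent.MP_79c67d_ag Pool.Agent.MP_20d318_ag Pool.Agent.MP_20d318_ag.AG
  Pool.Agent.MP_20d318_ag.BV Pool.Agent.MP_20d318_ag.CB

namespace Stk

variable {k F : Type} [Field k] [Field F] [Algebra k F] {O P R W : Subalgebra k F} {d : F × F}
  {f : F}

/-- Functions that vanish along `W` lie in the ideal of the coordinates. -/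
theorem mem_span (hP : P ∈ Pts (pl R d)) (hW : IsVal W) (hle : pl R d ≤ W)
    (hR : ∀ g ∈ R, g ≠ 0 → IsU W g) (w1 : d.1 ∈ mx W) (w2 : d.2 ∈ mx W) (hf : f ∈ P)
    (hm : f ∈ mx W) : f ∈ Submodule.span P ({d.1, d.2} : Set F) := by
  have s1 : d.1 ∈ Submodule.span P ({d.1, d.2} : Set F) := Submodule.subset_span (Or.inl rfl)
  have s2 : d.2 ∈ Submodule.span P ({d.1, d.2} : Set F) := Submodule.subset_span (Or.inr rfl)
  rcases isU_or_mx (hP.2.1 fst_mem) with h1 | h1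
  · simpa [h1.ne] using span_mul (h1.div_mem hf) s1
  rcases isU_or_mx (hP.2.1 snd_mem) with h2 | h2
  · simpa [h2.ne] using span_mul (h2.div_mem hf) s2
  have hl := hW.isLocalRing
  obtain ⟨a, ha, b, hb, hu, rfl⟩ := hP.2.2 f hf
  have hbW : b ∈ W := hle hb
  obtain ⟨r, hr, p, hp, q, hq, rfl⟩ := pl_ker ha
  have h3 : r ∈ mx W := by
    have h4 := mx_mul_right hm hbW
    rw [div_mul_cancel₀ _ hu.ne] at h4
    simpa using mx_sub' hl (mx_sub' hl h4 (mx_mul_left (hle hq) w2)) (mx_mul_left (hle hp) w1)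
  obtain rfl : r = 0 := by_contra fun hn => h3.2 (hR r hr hn)
  have e : (0 + p * d.1 + q * d.2) / b = p / b * d.1 + q / b * d.2 := by ring
  rw [e]
  exact add_mem (span_mul (hu.div_mem (hP.2.1 hp)) s1) (span_mul (hu.div_mem (hP.2.1 hq)) s2)

/-- In a ring over a chart of the blow-up the ideal of the coordinates is principal. -/
theorem div_bu {l : k} (h0 : (bu l d).1 ≠ 0) (hO : pl R (bu l d) ≤ O) (hP : P ≤ O)
    (hf : f ∈ Submodule.span P ({d.1, d.2} : Set F)) : f / (bu l d).1 ∈ O := by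
  have h2 : d.2 / (bu l d).1 ∈ O := hO snd_mem
  refine span_div hP ?_ hf
  rintro _ (rfl | rfl)
  · have e : d.1 / (bu l d).1 = 1 - algebraMap k F l * (d.2 / (bu l d).1) := by
      rw [eq_sub_iff_add_eq, ← mul_div_assoc, ← add_div]
      exact div_self h0
    rw [e]
    exact O.sub_mem O.one_mem (O.mul_mem (O.algebraMap_mem l) h2)
  · exact h2

theorem fst_div {l : k} {u : F} (h1 : d.1 / u ∈ O) (h2 : d.2 / u ∈ O) : (bu l d).1 / u ∈ O := by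
  have e : (bu l d).1 / u = d.1 / u + algebraMap k F l * (d.2 / u) := by
    rw [← mul_div_assoc, ← add_div]; rfl
  rw [e]
  exact O.add_mem h1 (O.mul_mem (O.algebraMap_mem l) h2)

end Stk

open Stk in
theorem stk : StkStmt := by
  intro k F _ _ _ R W d d' l l' hc hc' hW hle hle' hR w1 w2 w1' w2' h0 h0' V hV hV' O hO hd
  have h1 : pl R d ≤ O := (pl_le_bu l h0).trans hO.2.1
  have h2 : pl R d' ≤ V := (pl_le_bu l' h0').trans hV'
  obtain ⟨P, hP, hPV⟩ := exists_ctr hV.isLocalRing (h1.trans hd.1)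
  obtain ⟨P', hP', hPV'⟩ := exists_ctr hV.isLocalRing h2
  have h3 : pl R d' ≤ P := hc V hV h2 P hP hPV
  have h4 : pl R d ≤ P' := hc' V hV (h1.trans hd.1) P' hP' hPV'
  have h5 : P ≤ O := Pts_le hP h1 hPV.1 hd
  have a1 := div_bu h0 hO.2.1 h5 (mem_span hP hW hle hR w1 w2 (h3 fst_mem) w1')
  have a2 := div_bu h0 hO.2.1 h5 (mem_span hP hW hle hR w1 w2 (h3 snd_mem) w2')
  have b1 := div_bu h0' hV' hPV'.1 (mem_span hP' hW hle' hR w1' w2' (h4 fst_mem) w1)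
  have b2 := div_bu h0' hV' hPV'.1 (mem_span hP' hW hle' hR w1' w2' (h4 snd_mem) w2)
  have h6 : (bu l' d').1 / (bu l d).1 ∈ O := fst_div a1 a2
  have h7 : IsU O ((bu l' d').1 / (bu l d).1) :=
    hd.2 _ h6 ⟨div_ne_zero h0' h0, hd.1 h6, by rw [inv_div]; exact fst_div b1 b2⟩
  refine pl_le (le_pl.trans h1) ?_ ?_
  · simpa [h0] using O.mul_mem h6 (hO.2.1 fst_mem)
  · have h8 := h7.div_mem a2
    rwa [div_div_div_cancel_right₀ h0] at h8

end Pool.Agent.MP_e8e0b6_ag.R2.C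

end Part6

section Part7

-- part 7: C Stp

/-!
The induction step: lifted charts of a blow-up.
-/

set_option autoImplicit false

namespace Pool.Agent.MP_e8e0b6_ag.R2.C

open Pool.Agent.MP_79c67d_ag Pool.Agent.MP_20d318_ag Pool.Agent.MP_20d318_ag.AG
  Pool.Agent.MP_20d318_ag.BV Pool.Agent.MP_20d318_ag.CB

theorem stp : StpStmt := by
  intro stc stk wex cen stv k F M I _ _ _ _ _ _ _ _ R H ξ ρ S L I₀ _ S₀ O₀ a b H' e t J 𝒞 hB hX hC
  obtain ⟨O, hO, hd⟩ := hX.ex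
  obtain ⟨W, hW, h1, h2, h3⟩ := wex k F M I R H ξ ρ S L O hO (t O)
    ((mx_iff L hO (hX.mem O hO).1).1 ((hX.gn O hO hd).mem_mx fun _ ha => hd.mx ha)) (hX.mem O hO).2
  have wv : Wv R H ξ ρ O₀ t W := ⟨hW, ⟨O, hO, hd, h1, h2⟩, h3⟩
  have C : ∀ {d}, Ck R H ξ ρ S₀.T d → Ce R H ξ ρ O₀ t W d → _ := fun {d} hk he =>
    stc k M I₀ S₀ O₀ a b H' e (ev2 ξ ρ d) hB hk.gen hk.sub he.pt he.o1 he.o2
  have V : ∀ {d} (l : k), Ck R H ξ ρ S₀.T d → Ce R H ξ ρ O₀ t W d → _ := fun {d} l hk he =>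
    stv k F M I R H ξ ρ S L O₀ S₀.T (S₀.blow H' e).T t J W d l hX hk he ((C hk he).1 l).1
      ((C hk he).1 l).2
  have ne : ∀ {d} (l : k), Ck R H ξ ρ S₀.T d → Ce R H ξ ρ O₀ t W d → (bu l d).1 ≠ 0 :=
    fun l hk he e0 => by
      have := (V l hk he).2.gen.x_ne 0
      rw [e0, evO_zero] at this
      simp at this
  refine ⟨{c' | ∃ l : k, ∃ d, ∃ c ∈ 𝒞, pl R d = pl R c ∧ Ck R H ξ ρ S₀.T d ∧
    Ce R H ξ ρ O₀ t W d ∧ c' = bu l d}, ?_, ?_, fun Y hY hf => ?_⟩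
  · rintro _ ⟨l, d, -, -, -, hk, he, rfl⟩
    exact (V l hk he).2
  · rintro _ ⟨l, d, c, hc, e1, hk, he, rfl⟩ _ ⟨l', d', c', hc', e1', hk', he', rfl⟩
    refine stk k F R W d d' l l' ?_ ?_ hW he.le he'.le h3 he.w1 he.w2 he'.w1 he'.w2 (ne l hk he)
      (ne l' hk' he') <;> rw [e1, e1']
    exacts [hC.cm c hc c' hc', hC.cm c' hc' c hc]
  · have bt : ∀ O ∈ Y, S₀.bt O ∈ S₀.T ∧ S₀.bt O ≤ O := fun O hO => by
      rcases hB.cases O (hY hO) with ⟨u, v⟩ | u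
      · rw [(hB.off O u v).2.1]
        exact ⟨u, le_rfl⟩
      · rw [(hB.ov O (hY hO) u).1]
        exact ⟨hB.mem, u.1⟩
    obtain ⟨c, hc, hle⟩ := hC.cov (insert O₀ (S₀.bt '' Y))
      (Set.insert_subset hB.mem (by rintro _ ⟨O, hO, rfl⟩; exact (bt O hO).1))
      ((hf.image _).insert _)
    have hk := hC.ck c hc
    have g := hB.a1.nice
    obtain ⟨P, hP, hd'⟩ := exists_ctr (g.loc _ hB.mem) (hle _ (Set.mem_insert _ _))
    rw [g.sep P (hk.sub hP) O₀ hB.mem O₀ (g.loc _ hB.mem) hd' (Dom.refl _)] at hP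
    obtain ⟨d, e1, e2, hk', he⟩ := cen k F M I R H ξ ρ S L O₀ S₀.T t J W c hX wv hk hB.rat hP
    obtain ⟨l, hl⟩ := (C hk' he).2 Y hY hf fun O hO =>
      e2 ▸ (hle _ (Set.mem_insert_of_mem _ ⟨O, hO, rfl⟩)).trans (bt O hO).2
    exact ⟨_, ⟨l, d, c, hc, e1, hk', he, rfl⟩, (V l hk' he).1 ▸ hl⟩

end Pool.Agent.MP_e8e0b6_ag.R2.C

end Part7

section Part8

-- part 8: C Stv

/-!
A chart of the blow-up of a section.
-/

set_option autoImplicit false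

namespace Pool.Agent.MP_e8e0b6_ag.R2.C

open Pool.Agent.MP_79c67d_ag Pool.Agent.MP_20d318_ag Pool.Agent.MP_20d318_ag.AG
  Pool.Agent.MP_20d318_ag.BV Pool.Agent.MP_20d318_ag.CB

namespace Stv

variable {k F : Type} [Field k] [Field F] [Algebra k F] {O V : Subalgebra k F} {d : F × F} {u : F}
  {l : k}

/-- The second coordinate of the chart is regular where a common divisor generates. -/
theorem snd (hd : Dom O V) (ha : (bu l d).1 ≠ 0) (hV : (bu l d).2 ∈ V) (h1 : d.1 / u ∈ O)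
    (h2 : d.2 / u ∈ O) (h : IsU O (d.1 / u) ∨ IsU O (d.2 / u)) : (bu l d).2 ∈ O := by
  have hu : u ≠ 0 := h.elim (fun h => (div_ne_zero_iff.1 h.ne).2) fun h => (div_ne_zero_iff.1 h.ne).2
  have ha' : d.1 + algebraMap k F l * d.2 ≠ 0 := ha
  have hm : (bu l d).1 / u ∈ O := by
    have := O.add_mem h1 (O.mul_mem (O.algebraMap_mem l) h2)
    rwa [← mul_div_assoc, ← add_div] at this
  have hU : IsU V ((bu l d).1 / u) := by
    rcases h with h | h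
    · refine IsU.of_mul (hd.1 hm) (V.sub_mem V.one_mem (V.mul_mem (V.algebraMap_mem l) hV)) ?_
      have e : (bu l d).1 / u * (1 - algebraMap k F l * (bu l d).2) = d.1 / u := by
        simp only [bu]
        field_simp
        ring
      rw [e]
      exact h.mono hd.1
    · refine IsU.of_mul (hd.1 hm) hV ?_
      have e : (bu l d).1 / u * (bu l d).2 = d.2 / u := by
        simp only [bu]
        field_simp
      rw [e]
      exact h.mono hd.1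
  have := (hd.2 _ hm hU).div_mem h2
  rwa [div_div_div_cancel_right₀ hu] at this

end Stv

theorem stv : StvStmt := by
  intro k F M I _ _ _ _ _ _ _ _ R H ξ ρ S L O₀ T₀ T₁ t J W d l hx hk he hg hs
  have m1 : (bu l d).1 ∈ ξ := ξ.add_mem hk.m1 (ξ.mul_mem (ξ.algebraMap_mem l) hk.m2)
  have e1 : evO ξ ρ (bu l d).1 = (bu l (ev2 ξ ρ d)).1 := by
    simp only [bu, ev2]
    rw [evO_add ρ hk.m1 (ξ.mul_mem (ξ.algebraMap_mem l) hk.m2),
      evO_mul ρ (ξ.algebraMap_mem l) hk.m2, evO_const]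
  have hu : IsU ξ (bu l d).1 := xi_unit L m1 (by rw [e1]; simpa using hg.x_ne 0)
  have e2 : evO ξ ρ (bu l d).2 = (bu l (ev2 ξ ρ d)).2 :=
    (evO_div ρ hk.m2 hu).trans (by rw [e1]; rfl)
  have e : ev2 ξ ρ (bu l d) = bu l (ev2 ξ ρ d) := Prod.ext e1 e2
  refine ⟨e, m1, hu.div_mem hk.m2, e1 ▸ e2 ▸ hg, e ▸ hs, hk.frac.mono (pl_le_bu l hu.ne),
    fun O hO V hV hd hle => ?_⟩
  have hO' : pl R d ≤ O := hk.val O hO V hV hd ((pl_le_bu l hu.ne).trans hle)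
  have d1 : d.1 ∈ O := hO' fst_mem
  have d2 : d.2 ∈ O := hO' snd_mem
  refine pl_le (xx_le hO.1) (O.add_mem d1 (O.mul_mem (O.algebraMap_mem l) d2)) ?_
  by_cases hc : IsU O d.1 ∨ IsU O d.2
  · exact Stv.snd (u := 1) hd hu.ne (hle snd_mem) (by rwa [div_one]) (by rwa [div_one])
      (by rwa [div_one, div_one])
  rw [not_or] at hc
  have hl := red_loc (ρ := ρ) (xs_le L hO) (xx_loc hO.1)
  have h0 : Dom O₀ (red ξ ρ O) := dom0 he.pt he.o1 he.o2 hl ((mx_iff L hO d1).2 ⟨d1, hc.1⟩)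
    ((mx_iff L hO d2).2 ⟨d2, hc.2⟩)
  obtain ⟨y1, y2⟩ := he.dv O hO h0
  refine Stv.snd hd hu.ne (hle snd_mem) y1 y2 (by_contra fun hn => ?_)
  rw [not_or] at hn
  obtain ⟨s, h1, h2⟩ := (hx.gn O hO h0).2
  obtain ⟨p, hp, q, hq, rfl⟩ := CB.Pb.gen ⟨hk.gen, he.pt⟩ he.o1 he.o2 h1
  have z1 := (mx_iff L hO y1).2 ⟨y1, hn.1⟩
  have z2 := (mx_iff L hO y2).2 ⟨y2, hn.2⟩
  rw [evO_div ρ hk.m1 (hx.mem O hO).2] at z1
  rw [evO_div ρ hk.m2 (hx.mem O hO).2] at z2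
  refine h2.not_mx ?_
  rw [add_div, mul_div_assoc, mul_div_assoc]
  exact mx_add hl (mx_mul_left (h0.1 hp) z1) (mx_mul_left (h0.1 hq) z2)

end Pool.Agent.MP_e8e0b6_ag.R2.C

end Part8

section Part9

-- part 9: C Top

/-!
Charts of the whole family.
-/

set_option autoImplicit false

namespace Pool.Agent.MP_e8e0b6_ag.R2.C

open Pool.Agent.MP_79c67d_ag Pool.Agent.MP_20d318_ag Pool.Agent.MP_20d318_ag.AG
  Pool.Agent.MP_20d318_ag.BV Pool.Agent.MP_20d318_ag.CB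

namespace Tp

variable {k F M I : Type} [Field k] [Field F] [Field M] [Algebra k F] [Algebra k M] [Fintype I]
  {R O P ξ : Subalgebra k F} {H : Set F} {ρ : ξ →ₐ[k] M} {S : Sd k M I} {c : F × F}

theorem red_pts (L : Lc R H ξ ρ S) (h1 : c.1 ∈ ξ) (h2 : c.2 ∈ ξ) (hP : P ∈ Pts (pl R c))
    (hle : P ≤ ξ) : red ξ ρ P ∈ Pts (ap k (ev2 ξ ρ c)) := by
  refine ⟨red_loc hle hP.1, ap_le (ev_mem hle (hP.2.1 fst_mem)) (ev_mem hle (hP.2.1 snd_mem)),
    fun m hm => ?_⟩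
  obtain ⟨f, hf, -, rfl⟩ := mem_red.1 hm
  obtain ⟨a, ha, b, hb, hu, rfl⟩ := hP.2.2 f hf
  exact ⟨_, ev_pl L h1 h2 ha, _, ev_pl L h1 h2 hb, ev_unit hle hu,
    evO_div ρ (hle (hP.2.1 ha)) (hu.mono hle)⟩

theorem red_dom (L : Lc R H ξ ρ S) (hO : O ∈ Xs R H) (h : Dom P O) :
    Dom (red ξ ρ P) (red ξ ρ O) := by
  refine ⟨red_mono h.1, fun m hm hu => ?_⟩
  obtain ⟨f, hf, -, rfl⟩ := mem_red.1 hm
  exact ev_unit (h.1.trans (xs_le L hO)) (h.2 f hf ((unit_iff L hO (h.1 hf)).1 hu))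

theorem t1 (L : Lc R H ξ ρ S) (hS : SAll S) (C : Ck R H ξ ρ S.T c)
    (hN : ∀ P ∈ Pts (pl R c), Nrm P) (hO : O ∈ Xs R H) (h : ap k (ev2 ξ ρ c) ≤ red ξ ρ O) :
    O ∈ Pts (pl R c) := by
  have hle := reg L C.m1 C.m2 C.val hO h
  obtain ⟨P, hP, hd⟩ := exists_ctr (xx_loc hO.1) hle
  have hT : red ξ ρ P ∈ S.T := C.sub (red_pts L C.m1 C.m2 hP (hd.1.trans (xs_le L hO)))
  have e : ∀ O' ∈ Xs R H, Dom P O' → red ξ ρ P = red ξ ρ O' := fun O' h' hd' =>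
    hS.a1.nice.sep _ hT _ (red_mem L h') _ (red_loc (xs_le L h') (xx_loc h'.1))
      (red_dom L h' hd') (Dom.refl _)
  have hR : Dom R P := hO.2.of_le (le_pl.trans hP.2.1) hd.1
  have : O ≤ P := fun f hf => by_contra fun hn => by
    obtain ⟨V, hV, h1, h2⟩ := exists_val_not_mem hP.1 (hN P hP) hn
    obtain ⟨O', h', h3⟩ := xs_ctr L.fm hV (hR.trans h1)
    have h4 := dom_of hP (C.val O' h' V hV h3 (hP.2.1.trans h1.1)) h1 h3
    rw [red_inj L hO h' ((e O hO hd).symm.trans (e O' h' h4))] at hf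
    exact h2 (h3.1 hf)
  rwa [le_antisymm this hd.1]

end Tp

open Tp in
theorem top : TopStmt := by
  intro hN k F M I _ _ _ _ _ _ _ _ R H ξ ρ S L hS 𝒞 C
  have N := fun c hc => hN k F M I R H ξ ρ S L c (C.ck c hc).m1 (C.ck c hc).m2 (C.ck c hc).gen
  have T : ∀ Y ⊆ Xs R H, Y.Finite → ∃ c ∈ 𝒞, ∀ O ∈ Y, O ∈ Pts (pl R c) := fun Y hY hf => by
    obtain ⟨c, hc, h⟩ := C.cov (red ξ ρ '' Y)
      (by rintro _ ⟨O, hO, rfl⟩; exact red_mem L (hY hO)) (hf.image _)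
    exact ⟨c, hc, fun O hO =>
      t1 L hS (C.ck c hc) ((N c hc).2 (C.ck c hc).frac) (hY hO) (h _ ⟨O, hO, rfl⟩)⟩
  intro Y hY hf hd
  obtain ⟨c, hc, h⟩ := T Y (fun O hO => ⟨hY hO, hd O hO⟩) hf
  refine ⟨c, (N c hc).1, (C.ck c hc).frac, h, fun O' h' => ?_⟩
  obtain ⟨V, hV, h1⟩ := AG.exists_val h'.1
  have h2 : pl R c ≤ V := h'.2.1.trans h1.1
  obtain ⟨O, hO, h3⟩ := xx_ctr L.fm hV (le_pl.trans h2)
  obtain ⟨O₁, h4, h5⟩ := xx_spec L.fm L.loc hO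
  obtain ⟨c', hc', h6⟩ := T {O₁} (Set.singleton_subset_iff.2 h4) (Set.finite_singleton _)
  have h7 := Pts_trans (h6 O₁ rfl) (xx_pts L.fm h4.1 hO h5)
  rwa [Pts_eq h' h7 (C.cm c' hc' c hc V hV h2 O h7 h3)
    (C.cm c hc c' hc' V hV (h7.2.1.trans h3.1) O' h' h1) h1 h3]

end Pool.Agent.MP_e8e0b6_ag.R2.C

end Part9

section Part10

-- part 10: C Wex

/-!
A horizontal valuation ring on a divisor that misses the generic point of the closed fibre.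
-/

set_option autoImplicit false

namespace Pool.Agent.MP_e8e0b6_ag.R2.C

open Pool.Agent.MP_79c67d_ag Pool.Agent.MP_20d318_ag Pool.Agent.MP_20d318_ag.AG
  Pool.Agent.MP_20d318_ag.BV Pool.Agent.MP_20d318_ag.CB

namespace Wex

variable {k F : Type} [Field k] [Field F] [Algebra k F] {R R' ξ : Subalgebra k F}

/-- The localization at a prime ideal. -/
theorem loc (q : Ideal ξ) (hq : q.IsPrime) : ∃ O ∈ Pts ξ, ∀ b : ξ, IsU O b ↔ b ∉ q := by
  have e : ∀ b : ξ, (b : F) ∈ Subtype.val '' (q : Set ξ) ↔ b ∈ q := fun b =>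
    Subtype.val_injective.mem_set_image
  obtain ⟨O, hO, h⟩ := exists_loc ξ (Subtype.val '' (q : Set ξ)) ((e 0).2 q.zero_mem)
    (fun h => hq.ne_top ((Ideal.eq_top_iff_one q).2 ((e 1).1 h)))
    (fun a ha b hb h1 h2 => (e (⟨a, ha⟩ + ⟨b, hb⟩)).2
      (q.add_mem ((e ⟨a, ha⟩).1 h1) ((e ⟨b, hb⟩).1 h2)))
    fun a ha b hb => (e (⟨a, ha⟩ * ⟨b, hb⟩)).trans
      (hq.mul_mem_iff_mem_or_mem.trans (or_congr (e ⟨a, ha⟩).symm (e ⟨b, hb⟩).symm))
  exact ⟨O, hO, fun b => (h b b.2).trans (not_congr (e b))⟩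

/-- Flat local inclusions are surjective on points. -/
theorem surj (hR : IsLocalRing R) (hξ : IsLocalRing ξ) (hd : Dom R ξ)
    (hf : (Subalgebra.inclusion hd.1).toRingHom.Flat) (h : R' ∈ Pts R) :
    ∃ O ∈ Pts ξ, Dom R' O := by
  letI := (Subalgebra.inclusion hd.1).toRingHom.toAlgebra
  haveI : Module.Flat R ξ := hf
  haveI : IsLocalHom (algebraMap R ξ) := ⟨fun a ha => (isU_iff_isUnit a).1
    (hd.2 a a.2 ((isU_iff_isUnit (algebraMap R ξ a)).2 ha))⟩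
  haveI : Module.FaithfullyFlat R ξ := .of_flat_of_isLocalHom
  haveI := h.1
  let p : Ideal R := (IsLocalRing.maximalIdeal R').comap (Subalgebra.inclusion h.2.1).toRingHom
  haveI : p.IsPrime := Ideal.comap_isPrime _ _
  obtain ⟨q, hq, hl⟩ := Ideal.exists_isPrime_liesOver_of_faithfullyFlat (B := ξ) p
  obtain ⟨O, hO, hU⟩ := loc q hq
  have key : ∀ b ∈ R, IsU O b ↔ IsU R' b := fun b hb => by
    have h1 : algebraMap R ξ ⟨b, hb⟩ ∈ q ↔ b ∈ mx R' :=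
      (Ideal.mem_of_liesOver q p ⟨b, hb⟩).symm.trans (mem_mx_iff (⟨b, h.2.1 hb⟩ : R')).symm
    exact (hU (algebraMap R ξ ⟨b, hb⟩)).trans ((not_congr h1).trans
      ⟨isU_of_not_mx (h.2.1 hb), IsU.not_mx⟩)
  have hle : R ≤ O := hd.1.trans hO.2.1
  refine ⟨O, hO, fun f hf => ?_, fun f hf hu => ?_⟩ <;>
    obtain ⟨a, ha, b, hb, hb', rfl⟩ := h.2.2 f hf
  · exact ((key b hb).2 hb').div_mem (hle ha)
  · have := hu.mul ((key b hb).2 hb')
    rw [div_mul_cancel₀ _ hb'.ne] at this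
    exact ((key a ha).1 this).div hb'

end Wex

theorem wex : WexStmt := by
  intro k F M I _ _ _ _ _ _ _ _ R H ξ ρ S L O hO t ht hu
  haveI := L.fm.ufd O hO.1
  obtain ⟨τ, hτ, s, hs⟩ := WfDvdMonoid.exists_irreducible_factor (a := (⟨t, ht.1⟩ : O))
    (fun h => ht.2 ((isU_iff_isUnit ⟨t, ht.1⟩).2 h)) fun h => hu.ne (congrArg Subtype.val h)
  have hs' : t = τ * s := congrArg Subtype.val hs
  obtain ⟨D, hD, hU⟩ := Wex.loc (Ideal.span {τ})
    ((Ideal.span_singleton_prime hτ.ne_zero).2 hτ.prime)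
  simp only [Ideal.mem_span_singleton] at hU
  obtain ⟨W, hW, hd⟩ := AG.exists_val hD.1
  refine ⟨W, hW, hD.2.1.trans hd.1, hd.mx ⟨hD.2.1 ht.1, fun h => (hU ⟨t, ht.1⟩).1 h ⟨s, hs⟩⟩,
    fun g hg g0 => ?_⟩
  have hRD : R ≤ D := (xx_le hO.1).trans hD.2.1
  obtain ⟨R', hR', h1⟩ := exists_ctr hD.1 hRD
  obtain ⟨ξ', f'⟩ := L.fm.fib R' hR'
  have h2 : D ≤ ξ' := f'.le D (xx_base (xx_trans hO.1 hD) hR'.2.1 h1.1) h1
  obtain ⟨O', hO', h3⟩ := Wex.surj L.loc (xx_loc L.fib.mem) L.fib.dom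
    (L.fm.flat ξ L.fib.mem _) hR'
  have h4 : ξ ≤ ξ' :=
    hO'.2.1.trans (f'.le O' (xx_base (xx_trans L.fib.mem hO') hR'.2.1 h3.1) h3)
  have h5 : IsU ξ' τ := (IsU.of_mul (xs_le L hO τ.2) (xs_le L hO s.2) (hs' ▸ hu)).mono h4
  obtain ⟨n, a, h6, h7⟩ := WfDvdMonoid.max_power_factor (a₀ := (⟨g, xx_le hO.1 hg⟩ : O))
    (fun h => g0 (congrArg Subtype.val h)) hτ
  have h8 : g = τ ^ n * a := congrArg Subtype.val h7
  have h9 : IsU ξ' g := h8 ▸ (h5.pow n).mul (((hU a).2 h6).mono h2)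
  exact (f'.dom.2 g (hR'.2.1 hg) h9).mono (h1.1.trans hd.1)

end Pool.Agent.MP_e8e0b6_ag.R2.C

end Part10
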