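import Pool.Agent.MP_e8e0b6_ag.R2.C.GSpec
import Pool.Agent.MP_19ffc6_ag.Res.Cover
import Pool.Agent.MP_e8e0b6_ag.SB.Gal
import Mathlib.RingTheory.Etale.Locus
import Mathlib.RingTheory.Etale.StandardEtale
import Mathlib.RingTheory.Valuation.LocalSubring
import Mathlib.FieldTheory.Minpoly.IsIntegrallyClosed

section Part1

-- part 1: C Aje

/-!
Purity of the branch locus on a chart.
-/

set_option autoImplicit false

namespace Pool.Agent.MP_e8e0b6_ag.R2.C

open Pool.Agent.MP_19ffc6_ag.Res (Fix Dv In)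
open Polynomial

namespace Aje

theorem fin (A L G : Type) [CommRing A] [IsDomain A]
    [IsIntegrallyClosed A] [IsNoetherianRing A] [Field L]
    [Algebra A L] [Group G] [Finite G] [MulSemiringAction G L] [FaithfulSMul G L]
    (hi : Function.Injective (algebraMap A L)) (hf : ∀ r, Fix G (algebraMap A L r))
    (hr : ∀ z : L, Fix G z → ∃ a b : A, b ≠ 0 ∧ algebraMap A L b * z = algebraMap A L a) :
    Module.Finite A (integralClosure A L) := by
  let K := FixedPoints.subfield G L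
  let : Algebra A K := ((algebraMap A L).codRestrict K fun r g => hf r g).toAlgebra
  have : IsScalarTower A K L := IsScalarTower.of_algebraMap_eq fun _ => rfl
  have : FaithfulSMul A K := (faithfulSMul_iff_algebraMap_injective A K).2 fun a b h =>
    hi (congrArg Subtype.val h)
  have : IsFractionRing A K := IsFractionRing.of_field A K fun z => by
    obtain ⟨a, b, hb, h⟩ := hr z.1 z.2
    refine ⟨a, b, Subtype.ext ?_⟩
    have h0 : algebraMap A L b ≠ 0 := fun e => hb (hi (e.trans (map_zero _).symm))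
    exact (eq_div_iff h0).2 ((mul_comm _ _).trans h)
  exact IsIntegralClosure.finite A K L (integralClosure A L)

theorem cl {A L : Type} [CommRing A] [Field L] [Algebra A L] (a : L) (T : Set L)
    (hT : ∀ t ∈ T, t = a ∨ t ∈ (algebraMap A L).range) {z : L} (hz : z ∈ Subring.closure T) :
    ∃ r : A[X], aeval a r = z := by
  have : Subring.closure T ≤ (aeval a : A[X] →ₐ[A] L).range.toSubring :=
    Subring.closure_le.2 fun t ht => by
      rcases hT t ht with rfl | ⟨r, rfl⟩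
      · exact ⟨X, aeval_X _⟩
      · exact ⟨C r, aeval_C _ _⟩
  exact this hz

end Aje

theorem aje : AjeStmt := by
  intro eta k A L G _ _ _ _ _ _ _ _ _ _ _ _ hc hi hf hr hI
  have := hc.dom
  have := hc.sm
  have := hc.nrm
  have : IsNoetherianRing A := Algebra.FiniteType.isNoetherianRing k A
  have hfin := Aje.fin A L G hi hf hr
  refine ⟨hfin, eta A L hi hfin fun O hO => ?_⟩
  obtain ⟨n, x, hx, halg⟩ := hc.ex
  let φ := IsScalarTower.toAlgHom k A L
  let R := φ.range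
  let e : A ≃ₐ[k] R := AlgEquiv.ofInjective φ hi
  have he : ∀ a, (e a).1 = algebraMap A L a := fun _ => rfl
  have : IsNoetherianRing R := isNoetherianRing_of_ringEquiv A e.toRingEquiv
  have hint : ∀ s : L, IsIntegral A s ↔ IsIntegral R s := fun s =>
    RingEquiv.isIntegral_iff e.toRingEquiv (RingHom.ext fun _ => rfl) s
  obtain ⟨-, a, f, f1, f2, f3, f4, -, u, u1, u2, u3⟩ := Pool.Agent.MP_19ffc6_ag.Res.aj (G := G) R
    (by rintro _ ⟨r, rfl⟩; exact hf r)
    (fun z hz => by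
      obtain ⟨a, b, hb, h⟩ := hr z hz
      exact ⟨_, ⟨b, rfl⟩, fun e => hb (hi (e.trans (map_zero _).symm)), ⟨a, h.symm⟩⟩)
    (fun z hz h => by
      obtain ⟨a, b, hb, h1⟩ := hr z hz
      have h0 : algebraMap A L b ≠ 0 := fun e => hb (hi (e.trans (map_zero _).symm))
      let ψ : FractionRing A →ₐ[A] L := IsFractionRing.liftAlgHom (g := Algebra.ofId A L) hi
      have h2 : ψ (algebraMap A _ a / algebraMap A _ b) = z := by
        rw [map_div₀, AlgHom.commutes, AlgHom.commutes, div_eq_iff h0, mul_comm, h1]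
      obtain ⟨c, hc⟩ := IsIntegrallyClosed.algebraMap_eq_of_integral
        ((isIntegral_algHom_iff ψ ψ.injective).1 (h2 ▸ (hint z).2 h))
      exact ⟨c, by rw [← h2, ← hc, AlgHom.commutes]; rfl⟩)
    (fun i => e (x i))
    (by
      have : MvPolynomial.aeval (fun i => e (x i)) =
          e.toAlgHom.comp (MvPolynomial.aeval x) := MvPolynomial.algHom_ext fun i => by simp
      rw [this]
      exact hx.comp (RingHom.FormallySmooth.of_bijective (f := e.toAlgHom.toRingHom) e.bijective))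
    (by
      rintro _ ⟨r, rfl⟩
      set B := Algebra.adjoin k (Set.range x)
      have hB : B.map φ = Algebra.adjoin k (Set.range fun i => (e (x i)).1) := by
        rw [AlgHom.map_adjoin, ← Set.range_comp]; rfl
      rw [← hB]
      exact IsAlgebraic.ringHom_of_comp_eq (B.equivMapOfInjective φ hi).toAlgHom.toRingHom
        φ.toRingHom (halg r) (B.equivMapOfInjective φ hi).injective (RingHom.ext fun _ => rfl))
    (fun _ => 1) (by simp) (fun i => (e (x i)).1) (by simp) (fun _ h => (h rfl).elim)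
    (fun W hW _ g hg _ => hI W hW g hg) (fun _ _ _ h => (h rfl).elim) O
    (by rintro _ ⟨r, rfl⟩; exact hO r)
  have hT : ∀ t ∈ insert a (R : Set L) ∪ Set.range fun i => (e (x i)).1,
      t = a ∨ t ∈ (algebraMap A L).range := by
    rintro t ((rfl | ⟨r, rfl⟩) | ⟨i, rfl⟩)
    exacts [Or.inl rfl, Or.inr ⟨r, rfl⟩, Or.inr ⟨x i, rfl⟩]
  obtain ⟨p, hp⟩ := Aje.cl a _ hT u1
  obtain ⟨F, F1, -, F3⟩ := lifts_and_natDegree_eq_and_monic
    ((lifts_iff_coeff_lifts (f := algebraMap A L) f).2 f2) f1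
  refine ⟨a, F, p, F3, ?_, ?_, hp ▸ u2, fun s hs => ?_⟩
  · rw [← eval_map_algebraMap, F1, f3]
  · rw [← eval_map_algebraMap, ← derivative_map, F1, f4]
  · obtain ⟨r, hr⟩ := Aje.cl a _ hT (u3 s ((hint s).1 hs))
    exact ⟨r, by rw [hp, hr]⟩

end Pool.Agent.MP_e8e0b6_ag.R2.C

end Part1

section Part2

-- part 2: C Chs

/-!
Charts with etale coordinates on a smooth variety.
-/

set_option autoImplicit false

open AlgebraicGeometry CategoryTheory IsLocalRing

namespace Pool.Agent.MP_e8e0b6_ag.R2.C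

open Pool.Agent.MP_79c67d_ag Pool.Agent.MP_20d318_ag Pool.Agent.MP_20d318_ag.AG
  Pool.Agent.MP_20d318_ag.BV Pool.Agent.MP_20d318_ag.CB

namespace Chs

variable {k K A : Type} [Field k] [Field K] [Algebra k K] [CommRing A] [Algebra k A]
  {S : Scheme.{0}} [IsIntegral S] {q : Spec (.of K) ⟶ S}

/-- The field of a chart is the function field. -/
theorem ff {g : A →ₐ[k] K} {j : Spec (.of A) ⟶ S} (h : Ct q g j) :
    ∃ φ : S.functionField →+* K, sp φ ≫ gen S = q ∧ Function.Surjective φ := by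
  have := h.opn
  have := h.inj.isDomain (g : A →+* K)
  obtain ⟨φ, hφ⟩ := exists_gen_factor q (by
    rw [← h.eq, ← genericPoint_eq_of_isOpenImmersion j, genericPoint_eq_bot_of_affine]
    refine congrArg j (PrimeSpectrum.ext ?_)
    change (maximalIdeal K).comap (g : A →+* K) = ⊥
    rw [maximalIdeal_eq_bot, Ideal.comap_bot_of_injective (g : A →+* K) h.inj])
  obtain ⟨κ, hκ, -, -⟩ := exists_chart j
  have e : φ.comp κ = (g : A →+* K) := sp_cancel j (by rw [← sp_comp_assoc, hκ, hφ, h.eq])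
  refine ⟨φ, hφ, fun z => ?_⟩
  obtain ⟨_, ⟨a, rfl⟩, _, ⟨b, rfl⟩, -, rfl⟩ := h.frac z
  exact ⟨κ a / κ b, by rw [map_div₀]; exact congrArg₂ _ (DFunLike.congr_fun e a) (DFunLike.congr_fun e b)⟩

/-- Every affine open over `k` is a chart. -/
theorem ct [IsDomain A] {f : S ⟶ Spec (.of k)} (hq : q ≫ f = sp (algebraMap k K))
    {φ : S.functionField →+* K} (hφ : sp φ ≫ gen S = q) (hs : Function.Surjective φ)
    (j : Spec (.of A) ⟶ S) [hj : IsOpenImmersion j] (hf : j ≫ f = sp (algebraMap k A)) :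
    ∃ g : A →ₐ[k] K, Ct q g j := by
  obtain ⟨κ, hκ, h1, h2⟩ := exists_chart j
  have e : sp (φ.comp κ) ≫ j = q := by rw [← sp_comp_assoc, hκ, hφ]
  have e' : (φ.comp κ).comp (algebraMap k A) = algebraMap k K :=
    sp_inj (by rw [← sp_comp, ← hf, ← Category.assoc, e, hq])
  refine ⟨⟨φ.comp κ, DFunLike.congr_fun e'⟩, hj, e, φ.injective.comp h1, fun z => ?_⟩
  obtain ⟨y, rfl⟩ := hs z
  obtain ⟨a, s, h0, h3⟩ := h2 y
  have h4 : φ (κ s) ≠ 0 := fun h => h0 (h1 (φ.injective (by rw [h, map_zero, map_zero])))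
  exact ⟨_, ⟨a, rfl⟩, _, ⟨s, rfl⟩, h4, (eq_div_iff h4).2 (by
    change φ y * φ (κ s) = φ (κ a)
    rw [← map_mul, h3])⟩

end Chs

theorem chs : ChsStmt := by
  intro coo k K A _ _ _ _ _ _ _ S f q g j hf hq h x
  have := hf.integral
  have := hf.smooth
  obtain ⟨φ, hφ, hs⟩ := Chs.ff h
  obtain ⟨B, jB, hB, y, rfl⟩ := Scheme.exists_Spec_apply_eq x
  obtain ⟨ψ, hψ⟩ := sp_surj (R := k) (T := B) (jB ≫ f)
  let _ := ψ.toAlgebra
  have hsm : Algebra.Smooth k B := by
    have h1 : Smooth (sp ψ) := by rw [hψ]; exact smooth_comp jB f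
    exact (HasRingHomProperty.Spec_iff (P := @Smooth)).1 h1
  have := y.isPrime
  obtain ⟨r, hr, n, _, _, he⟩ :=
    Algebra.IsSmoothAt.exists_isStandardEtale_mvPolynomial (R := k) (p := y.asIdeal)
  let j' : Spec (.of (Localization.Away r)) ⟶ S := sp (algebraMap B (Localization.Away r)) ≫ jB
  have hj' : IsOpenImmersion j' := IsOpenImmersion.comp _ _
  obtain ⟨y', hy'⟩ : y ∈ Set.range (PrimeSpectrum.comap (algebraMap B (Localization.Away r))) := by
    rw [PrimeSpectrum.localization_away_comap_range _ r]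
    exact hr
  have : Nontrivial (Localization.Away r) := PrimeSpectrum.nontrivial y'
  have := isDomain_chart j'
  obtain ⟨g', hg'⟩ := Chs.ct hq hφ hs j' (by
    rw [Category.assoc]
    exact (congrArg _ hψ.symm).trans (sp_comp _ _))
  exact ⟨_, _, _, g', j', hg', coo k _ n he, y', congrArg jB hy'⟩

end Pool.Agent.MP_e8e0b6_ag.R2.C

end Part2

section Part3

-- part 3: C Coo

set_option autoImplicit false

namespace Pool.Agent.MP_e8e0b6_ag.R2.C

theorem coo : CooStmt := by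
  intro k A _ _ _ _ _ _ n _ _ h
  have : Algebra.Smooth k (MvPolynomial (Fin n) k) := {}
  have sm : Algebra.Smooth k A := Algebra.Smooth.comp k (MvPolynomial (Fin n) k) A
  have e : (MvPolynomial.aeval fun i => algebraMap (MvPolynomial (Fin n) k) A (MvPolynomial.X i) :
      MvPolynomial (Fin n) k →ₐ[k] A) = IsScalarTower.toAlgHom k _ A :=
    MvPolynomial.algHom_ext fun i => by simp
  refine ⟨inferInstance, sm, IsIntegrallyClosed.of_localization_maximal fun p _ _ => ?_, n,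
    fun i => algebraMap _ A (MvPolynomial.X i : MvPolynomial (Fin n) k), ?_, fun a => ?_⟩
  · have := Pool.Agent.MP_e8e0b6_ag.SB.ufd_smooth (k := k) p
    infer_instance
  · rw [e]
    exact RingHom.formallySmooth_algebraMap.2 inferInstance
  · rw [Algebra.adjoin_range_eq_range_aeval, e]
    obtain ⟨P⟩ := h.nonempty_standardEtalePresentation
    obtain ⟨p, m, hp⟩ := P.exists_mul_aeval_x_g_pow_eq_aeval_x a
    have i : ∀ z : A, IsIntegral (MvPolynomial (Fin n) k) z →
        IsIntegral (IsScalarTower.toAlgHom k (MvPolynomial (Fin n) k) A).range z := fun z hz =>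
      hz.map_of_comp_eq (IsScalarTower.toAlgHom k (MvPolynomial (Fin n) k) A).rangeRestrict.toRingHom
        (RingHom.id A) rfl
    have hx : IsIntegral (MvPolynomial (Fin n) k) P.x := ⟨P.f, P.monic_f, P.hasMap.1⟩
    have j : ∀ q : Polynomial (MvPolynomial (Fin n) k),
        IsIntegral (MvPolynomial (Fin n) k) (Polynomial.aeval P.x q) := fun q =>
      IsIntegral.of_mem_of_fg _ hx.fg_adjoin_singleton _ (Polynomial.aeval_mem_adjoin_singleton _ _)
    refine IsAlgebraic.of_mul (y := Polynomial.aeval P.x P.g ^ m)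
      (mem_nonZeroDivisors_of_ne_zero (P.hasMap.2.pow m).ne_zero) (i _ ((j _).pow m)).isAlgebraic ?_
    rw [mul_comm, hp]
    exact (i _ (j p)).isAlgebraic

end Pool.Agent.MP_e8e0b6_ag.R2.C

end Part3

section Part4

-- part 4: C Dvr

/-!
The local ring of the integral closure at the centre of a valuation.
-/

set_option autoImplicit false

namespace Pool.Agent.MP_e8e0b6_ag.R2.C

open Pool.Agent.MP_79c67d_ag Pool.Agent.MP_20d318_ag Pool.Agent.MP_20d318_ag.AG
  Pool.Agent.MP_20d318_ag.BV Pool.Agent.MP_20d318_ag.CB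
open Pool.Agent.MP_19ffc6_ag.Res (Fix Dv In)

theorem dvr : DvrStmt := by
  intro k L G _ _ _ _ _ R B W hB hF hI hfix hD
  have hRB : R ≤ B := fun r hr => (hI r).2 (isIntegral_algebraMap (x := (⟨r, hr⟩ : R)))
  have hBW : ∀ b ∈ B, W.valuation b ≤ 1 := fun b hb => by
    let : Algebra R W := ((algebraMap R L).codRestrict W.toSubring fun r => hD.le r r.2).toAlgebra
    have : IsScalarTower R W L := .of_algebraMap_eq fun _ => rfl
    obtain ⟨y, hy⟩ := IsIntegrallyClosed.isIntegral_iff.1 (((hI b).1 hb).tower_top (A := W))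
    exact (W.valuation_le_one_iff b).2 (hy ▸ y.2)
  obtain ⟨D, hP, hU⟩ := exists_loc B {b | W.valuation b < 1} (by simp) (by simp)
    (fun a _ b _ => W.valuation.map_add_lt) fun a ha b hb => by
      simp only [Set.mem_ofPred_eq, map_mul]
      refine ⟨fun h => by_contra fun hn => ?_, fun h => h.elim
        (fun h => mul_lt_one_of_nonneg_of_lt_one_left zero_le h (hBW b hb))
        fun h => mul_lt_one_of_nonneg_of_lt_one_right (hBW a ha) zero_le h⟩
      rw [not_or, not_lt, not_lt] at hn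
      exact absurd h (not_lt.2 (one_le_mul hn.1 hn.2))
  have hU' : ∀ b ∈ B, IsU D b ↔ W.valuation b = 1 := fun b hb =>
    (hU b hb).trans ⟨fun h => le_antisymm (hBW b hb) (not_lt.1 h), fun h => not_lt.2 h.ge⟩
  refine ⟨D, hP, hU', ?_⟩
  have := hP.1
  have := AG.Krull.noeth_pts hB hP
  let : Algebra R B := (Subalgebra.inclusion hRB).toRingHom.toAlgebra
  have : IsScalarTower R B L := .of_algebraMap_eq fun _ => rfl
  have hint : ∀ b : B, IsIntegral R b := fun b =>
    (isIntegral_algebraMap_iff (B := L) Subtype.val_injective).1 ((hI b).1 b.2)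
  have : Algebra.IsIntegral R B := ⟨hint⟩
  have hN : Nrm D := nrmLoc_stmt k L B D (fun f hf => (hI f).2 (isIntegral_trans f hf)) hP.2.1
    hP.2.2
  have := AG.Krull.isFractionRing (hF.mono hP.2.1)
  obtain ⟨π, hπ, h0, h1, h2⟩ := hD.unif
  have hRD : R ≤ D := hRB.trans hP.2.1
  have dv : ∀ P : Ideal D, P.IsPrime → ∀ (a b) (ha : a ∈ R) (hb : b ∈ R), b ≠ 0 →
      W.valuation a ≤ W.valuation b → (⟨b, hRD hb⟩ : D) ∈ P → (⟨a, hRD ha⟩ : D) ∈ P := by
    intro P hp a b ha hb hb0 hv hm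
    obtain ⟨u, hu, h3, h4⟩ := hD.loc (a / b) ((MP_19ffc6_ag.Res.val_le_iff W a hb0).1 hv)
      fun g => by rw [smul_div₀', hfix a ha, hfix b hb]
    have h5 := ((hU' u (hRB hu)).2 h3)
    have e : (⟨a, hRD ha⟩ : D) = ⟨_, h5.div_mem (hRD h4)⟩ * ⟨b, hRD hb⟩ := Subtype.ext (by
      have := h5.ne
      change a = u * (a / b) / u * b
      field_simp)
    exact e ▸ P.mul_mem_left _ hm
  have hc : IsIntegrallyClosed D ∧
      ∀ P : Ideal D, P ≠ ⊥ → P.IsPrime → P = IsLocalRing.maximalIdeal D :=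
    ⟨(isIntegrallyClosed_iff L).2 fun {x} hx => ⟨⟨x, hN x hx⟩, rfl⟩, fun P hne hp => by
      let ι := (Subalgebra.inclusion hP.2.1).toRingHom
      have num : ∀ x : D, ∃ (a : B) (u : D), IsUnit u ∧ ι a = x * u := fun x => by
        obtain ⟨a, ha, b, hb, hu, e⟩ := hP.2.2 x x.2
        exact ⟨⟨a, ha⟩, ⟨b, hu.mem⟩, (isU_iff_isUnit _).1 hu,
          Subtype.ext (by change a = x * b; rw [e, div_mul_cancel₀ _ hu.ne])⟩
      obtain ⟨x, hx, hx0⟩ := Submodule.exists_mem_ne_zero_of_ne_bot hne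
      obtain ⟨a, u, hu, e⟩ := num x
      have h3 := Ideal.comap_ne_bot_of_integral_mem (R := R) (I := P.comap ι) (x := a)
        (fun h => mul_ne_zero hx0 hu.ne_zero (by rw [← e, h, map_zero]))
        (by rw [Ideal.mem_comap, e]; exact P.mul_mem_right _ hx) (hint a)
      obtain ⟨r, hr, hr0⟩ := Submodule.exists_mem_ne_zero_of_ne_bot h3
      have hr1 : (r : L) ≠ 0 := fun h => hr0 (Subtype.ext h)
      obtain ⟨n, hn⟩ := h2 r r.2 hr1
      have h4 : (⟨π, hRD hπ⟩ : D) ∈ P := hp.mem_of_pow_mem n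
        (dv P hp (π ^ n) r (pow_mem hπ n) r.2 hr1 (by rw [map_pow, hn]) hr)
      have hle := IsLocalRing.le_maximalIdeal hp.ne_top
      refine le_antisymm hle fun y hy => by_contra fun hn => ?_
      obtain ⟨b, v, hv, e'⟩ := num y
      refine (Ideal.comap_lt_comap_of_integral_mem_sdiff (R := R) (Ideal.comap_mono (f := ι) hle)
        (x := b) ⟨?_, fun h => ?_⟩ (hint b)).not_ge fun s hs => ?_
      · exact Ideal.mem_comap.2 (e' ▸ Ideal.mul_mem_right _ _ hy)
      · exact hn ((Ideal.mul_unit_mem_iff_mem P hv).1 (e' ▸ Ideal.mem_comap.1 h))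
      · by_cases s0 : (s : L) = 0
        · rw [show s = 0 from Subtype.ext s0]; exact zero_mem _
        obtain ⟨m, hm⟩ := h2 s s.2 s0
        refine dv P hp s π s.2 hπ h0 ?_ h4
        have h5 : m ≠ 0 := by
          rintro rfl
          exact ((mem_mx_iff (⟨s, hRD s.2⟩ : D)).2 hs).2
            ((hU' s (hRB s.2)).2 (hm.trans (pow_zero _)))
        exact hm ▸ pow_le_of_le_one zero_le h1.le h5⟩
  have hpr : (IsLocalRing.maximalIdeal D).IsPrincipal :=
    ((tfae_of_isNoetherianRing_of_isLocalRing_of_isDomain D).out 3 4).1 hc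
  obtain ⟨ϖ, hϖ⟩ := hpr
  have key : ∀ a ∈ mx D, ∃ c : D, (c : L) * ϖ = a := fun a ha => by
    have := (mem_mx_iff (⟨a, ha.1⟩ : D)).1 ha
    rw [hϖ] at this
    obtain ⟨c, hc⟩ := Ideal.mem_span_singleton'.1 this
    exact ⟨c, congrArg Subtype.val hc⟩
  have h3 : (ϖ : L) ≠ 0 := fun h => by
    obtain ⟨c, hc⟩ := key π ⟨hRD hπ, fun hu => h1.ne ((hU' π (hRB hπ)).1 hu)⟩
    exact h0 (by rw [← hc, h, mul_zero])
  refine ⟨ϖ, (mem_mx_iff ϖ).2 (hϖ ▸ Submodule.mem_span_singleton_self ϖ), h3, fun a ha => ?_⟩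
  obtain ⟨c, rfl⟩ := key a ha
  rw [mul_div_cancel_right₀ _ h3]
  exact c.2

end Pool.Agent.MP_e8e0b6_ag.R2.C

end Part4

section Part5

-- part 5: C Eta

/-!
Row ETA: local primitive elements with unit different give an etale integral closure.
-/

set_option autoImplicit false

namespace Pool.Agent.MP_e8e0b6_ag.R2.C

namespace Eta

open Polynomial

/-- A localization of `B` that is generated by one element up to the denominator. -/
lemma away {A B : Type} [CommRing A] [IsDomain A] [IsIntegrallyClosed A] [CommRing B] [IsDomain B]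
    [Algebra A B] (hi : Function.Injective (algebraMap A B)) (a : B) (f p : A[X]) (hm : f.Monic)
    (h0 : aeval a f = 0) (ht : aeval a (derivative f * p) ≠ 0)
    (hs : ∀ s : B, ∃ r : A[X], aeval a p * s = aeval a r) :
    Algebra.FormallyEtale A (Localization.Away (aeval a (derivative f * p))) := by
  have : FaithfulSMul A B := (faithfulSMul_iff_algebraMap_injective A B).2 hi
  have hint : IsIntegral A a := ⟨f, hm, h0⟩
  obtain ⟨q, hq⟩ := minpoly.isIntegrallyClosed_dvd hint h0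
  let P : StandardEtalePair A := ⟨minpoly A a, minpoly.monic hint, derivative f * p,
    q * p, derivative q * p, 1, by
      have h := congrArg derivative hq
      rw [derivative_mul] at h
      rw [h]; ring⟩
  let T := Localization.Away (aeval a (derivative f * p))
  have hinj : Function.Injective (algebraMap B T) :=
    IsLocalization.injective T (powers_le_nonZeroDivisors_of_noZeroDivisors ht)
  have hu : IsUnit (algebraMap B T (aeval a (derivative f * p))) :=
    IsLocalization.Away.algebraMap_isUnit _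
  have hm' : P.HasMap (algebraMap B T a) := by
    refine ⟨?_, ?_⟩
    · rw [aeval_algebraMap_apply, show aeval a P.f = 0 from minpoly.aeval A a, map_zero]
    · rw [aeval_algebraMap_apply]; exact hu
  let φ := P.lift _ hm'
  have hev : ∀ g : A[X], φ (aeval P.X g) = algebraMap B T (aeval a g) := fun g => by
    rw [← aeval_algHom_apply, StandardEtalePair.lift_X, aeval_algebraMap_apply]
  let P' : StandardEtalePresentation A P.Ring :=
    ⟨P, P.X, P.hasMap_X, by rw [P.lift_X_left]; exact Function.bijective_id⟩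
  have hφ : Function.Injective φ := by
    rw [injective_iff_map_eq_zero]
    intro y hy
    obtain ⟨g, n, e⟩ := P'.exists_mul_aeval_x_g_pow_eq_aeval_x y
    have e' : y * aeval P.X P.g ^ n = aeval P.X g := e
    have h4 : aeval a g = 0 := hinj (by rw [← hev, ← e', map_mul, hy, zero_mul, map_zero])
    obtain ⟨q', hq'⟩ := minpoly.isIntegrallyClosed_dvd hint h4
    rw [hq', map_mul (aeval P.X) (minpoly A a), show aeval P.X (minpoly A a) = 0 from P.hasMap_X.1,
      zero_mul] at e'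
    exact (P.hasMap_X.2.pow n).mul_left_eq_zero.1 e'
  have hsur : Function.Surjective φ := by
    intro y
    obtain ⟨⟨s, ⟨_, n, rfl⟩⟩, e⟩ :=
      IsLocalization.surj (Submonoid.powers (aeval a (derivative f * p))) y
    obtain ⟨r, hr⟩ := hs s
    obtain ⟨u, hu'⟩ := (P.hasMap_X.2.pow (n + 1)).exists_right_inv
    refine ⟨aeval P.X (r * derivative f) * u, (hu.pow (n + 1)).mul_right_cancel ?_⟩
    have h1 : φ u * algebraMap B T (aeval a (derivative f * p)) ^ (n + 1) = 1 := by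
      have h2 := congrArg φ hu'
      rw [map_mul, map_pow, hev, map_one] at h2
      rw [mul_comm]; exact h2
    have e' : y * algebraMap B T (aeval a (derivative f * p)) ^ n = algebraMap B T s := by
      rw [← map_pow]; exact e
    have h5 : aeval a (r * derivative f) = s * aeval a (derivative f * p) := by
      rw [map_mul, map_mul, ← hr]; ring
    rw [map_mul φ, hev, mul_assoc, h1, mul_one, pow_succ, ← mul_assoc, e', h5, map_mul]
  exact Algebra.FormallyEtale.of_equiv (AlgEquiv.ofBijective φ ⟨hφ, hsur⟩)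

end Eta

open Polynomial in
theorem eta : EtaStmt := by
  intro A L _ _ _ _ _ _ hi hf h
  let B := integralClosure A L
  have hfp : Algebra.FinitePresentation A B :=
    Algebra.FinitePresentation.of_finiteType.1 inferInstance
  refine Algebra.etaleLocus_eq_univ_iff_etale.1 (Set.eq_univ_of_forall fun Q => ?_)
  obtain ⟨O, hO, hQ⟩ := Ideal.image_subset_nonunits_valuationSubring (A := B.toSubring)
    Q.asIdeal Q.isPrime.ne_top
  obtain ⟨a, f, p, hm, h0, h1, h2, h3⟩ := h O fun r => hO (B.algebraMap_mem r)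
  let a' : B := ⟨a, f, hm, h0⟩
  have hev : ∀ g : A[X], (aeval a' g : B).1 = aeval a g := fun g =>
    (aeval_algHom_apply B.val a' g).symm
  have hv : O.valuation (aeval a' (derivative f * p) : B).1 = 1 := by
    rw [hev, map_mul, map_mul, h1, h2, mul_one]
  have hn : aeval a' (derivative f * p) ∉ Q.asIdeal := fun hx => by
    have h4 := O.mem_nonunits_iff.1 (hQ ⟨_, hx, rfl⟩)
    exact h4.ne hv
  have hE := Eta.away (A := A) (B := B) (fun x y e => hi (congrArg Subtype.val e)) a' f p hm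
    (Subtype.ext ((hev f).trans h0)) (fun e => hn (e ▸ Q.asIdeal.zero_mem)) fun s => by
      obtain ⟨r, hr⟩ := h3 s.1 s.2
      exact ⟨r, Subtype.ext (by rw [hev, ← hr, ← hev]; rfl)⟩
  exact Algebra.basicOpen_subset_etaleLocus_iff.2 hE hn

end Pool.Agent.MP_e8e0b6_ag.R2.C

end Part5

section Part6

-- part 6: C Ext

/-!
Automorphisms of the constants extend to the function field.
-/

set_option autoImplicit false

namespace Pool.Agent.MP_e8e0b6_ag.R2.C

open Pool.Agent.MP_79c67d_ag Pool.Agent.MP_20d318_ag Pool.Agent.MP_20d318_ag.AG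
  Pool.Agent.MP_20d318_ag.BV Pool.Agent.MP_20d318_ag.CB
open scoped TensorProduct

namespace Ext

theorem core {K F Ω E : Type} [Field K] [Field F] [Field Ω] [Field E] [Algebra K F] [Algebra K Ω]
    [Algebra K E] [Algebra Ω E] [IsScalarTower K Ω E] (ν : F →ₐ[K] E)
    (ld : ∀ (ι : Type) (v : ι → F), LinearIndependent K v → LinearIndependent Ω fun i => ν (v i))
    (hf : ∀ B : Subalgebra Ω E, (∀ z, ν z ∈ B) → ∀ f : E, ∃ a ∈ B, ∃ b ∈ B, f = a / b)
    (g : Ω ≃ₐ[K] Ω) : ∃ τ : E ≃+* E,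
      (∀ a, τ (algebraMap Ω E a) = algebraMap Ω E (g a)) ∧ ∀ z, τ (ν z) = ν z := by
  let Ψ : Ω ⊗[K] F →ₐ[Ω] E :=
    Algebra.TensorProduct.lift (Algebra.ofId Ω E) ν fun _ _ => Commute.all _ _
  have hΨ : ∀ a z, Ψ (a ⊗ₜ z) = algebraMap Ω E a * ν z := fun a z => rfl
  let b := Module.Basis.ofVectorSpace K F
  have hinj : Function.Injective Ψ := by
    refine LinearMap.injective_of_linearIndependent (f := Ψ.toLinearMap)
      (b.baseChange Ω).span_eq ?_
    have e : Ψ.toLinearMap ∘ b.baseChange Ω = fun i => ν (b i) := by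
      funext i
      change Ψ (b.baseChange Ω i) = _
      rw [Module.Basis.baseChange_apply, hΨ, map_one, one_mul]
    rw [e]
    exact ld _ _ b.linearIndependent
  let _ : Algebra (Ω ⊗[K] F) E := Ψ.toRingHom.toAlgebra
  have : FaithfulSMul (Ω ⊗[K] F) E := (faithfulSMul_iff_algebraMap_injective _ _).2 hinj
  have : IsFractionRing (Ω ⊗[K] F) E := IsFractionRing.of_field _ _ fun f => by
    obtain ⟨_, ⟨a, rfl⟩, _, ⟨c, rfl⟩, e⟩ := hf Ψ.range (fun z => ⟨1 ⊗ₜ z, by
      change Ψ _ = _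
      rw [hΨ, map_one, one_mul]⟩) f
    exact ⟨a, c, e⟩
  let θ := (Algebra.TensorProduct.congr g (AlgEquiv.refl : F ≃ₐ[K] F)).toRingEquiv
  have key : ∀ a z, IsFractionRing.ringEquivOfRingEquiv (K := E) (L := E) θ
      (algebraMap Ω E a * ν z) = algebraMap Ω E (g a) * ν z := fun a z =>
    IsFractionRing.ringEquivOfRingEquiv_algebraMap (K := E) (L := E) θ (a ⊗ₜ z)
  refine ⟨IsFractionRing.ringEquivOfRingEquiv (K := E) (L := E) θ, fun a => ?_, fun z => ?_⟩
  · simpa only [map_one, mul_one] using key a 1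
  · simpa only [map_one, one_mul] using key 1 z

end Ext

theorem ext : ExtStmt := by
  intro k F Ω E J _ _ _ _ _ _ _ _ C H μ S' gc ht g hg
  let K : Subfield F := ((RingHom.eqLocusField (g : Ω →+* Ω) (RingHom.id Ω)).map
    (algebraMap Ω E)).comap (μ : F →+* E)
  have hK : ∀ z : K, ∃ a : Ω, g a = a ∧ algebraMap Ω E a = μ z := fun z => z.2
  have hC : ∀ c ∈ C, c ∈ K := fun c hc => by
    obtain ⟨a, ha⟩ := gc.base c hc
    exact ⟨a, hg a ⟨c, hc, ha.symm⟩, ha⟩
  choose φ h1 h2 using hK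
  have inj := (algebraMap Ω E).injective
  let φ' : K →+* Ω :=
    { toFun := φ
      map_one' := inj (by simp [h2])
      map_mul' := fun a b => inj (by simp [h2])
      map_zero' := inj (by simp [h2])
      map_add' := fun a b => inj (by simp [h2]) }
  let _ : Algebra K Ω := φ'.toAlgebra
  let _ : Algebra K E := ((μ : F →+* E).comp K.subtype).toAlgebra
  have : IsScalarTower K Ω E := IsScalarTower.of_algebraMap_eq fun z => (h2 z).symm
  refine Ext.core (K := K) { (μ : F →+* E) with commutes' := fun _ => rfl } (fun ι v hv => ?_)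
    (fun B hB f => ?_) { g with commutes' := h1 }
  · refine gc.ld ι v (linearIndependent_iff'.2 fun s c hc i hi => ?_)
    have := linearIndependent_iff'.1 hv s (fun i => ⟨c i, hC _ (c i).2⟩) hc i hi
    exact Subtype.ext (congrArg (fun z : K => (z : F)) this)
  · rw [gc.eq] at ht
    obtain ⟨j, hj, -, -, h6⟩ := ht
    have h7 : cht Ω (fun _ : Unit => μ '' H) j ≤ B := Algebra.adjoin_le (by
      intro z hz
      obtain ⟨l, _, ⟨a, ha, rfl⟩, rfl⟩ := Set.mem_iUnion.1 hz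
      obtain ⟨c, hc, e⟩ := hj l
      have := hB (a / c)
      change μ (a / c) ∈ B at this
      rwa [map_div₀, e] at this)
    obtain ⟨a, ha, c, hc, -, rfl⟩ := h6 f trivial
    exact ⟨a, h7 ha, c, h7 hc, rfl⟩

end Pool.Agent.MP_e8e0b6_ag.R2.C

end Part6

section Part7

-- part 7: C Fx1

/-!
An automorphism that fixes the base point acts trivially on the closed fibre.
-/

set_option autoImplicit false

namespace Pool.Agent.MP_e8e0b6_ag.R2.C

open Pool.Agent.MP_79c67d_ag Pool.Agent.MP_20d318_ag Pool.Agent.MP_20d318_ag.AG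
  Pool.Agent.MP_20d318_ag.BV Pool.Agent.MP_20d318_ag.CB

namespace Fx1

variable {k F : Type} [Field k] [Field F] [Algebra k F] {R O : Subalgebra k F} {H : Set F}
  {θ : F ≃ₐ[k] F} {a j : F}

theorem symH (hH : ∀ a ∈ H, θ a = a) : ∀ a ∈ H, θ.symm a = a := fun a ha =>
  θ.symm_apply_eq.2 (hH a ha).symm

theorem symR (hR : ∀ a, a ∈ R ↔ θ a ∈ R) : ∀ a, a ∈ R ↔ θ.symm a ∈ R := fun a => by
  rw [hR (θ.symm a), θ.apply_symm_apply]

theorem st (hH : ∀ a ∈ H, θ a = a) (hR : ∀ a, a ∈ R ↔ θ a ∈ R) (hj : j ∈ H)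
    (ha : a ∈ ch R H j) : θ a ∈ ch R H j :=
  ch_le (O := (ch R H j).comap (θ : F →ₐ[k] F))
    (fun r hr => (le_sup_left : R ≤ ch R H j) ((hR r).1 hr))
    (fun b hb => by
      change θ (b / j) ∈ ch R H j
      rw [map_div₀, hH b hb, hH j hj]
      exact div_mem_ch hb) ha

theorem isU : IsU (O.comap (θ : F →ₐ[k] F)) a ↔ IsU O (θ a) := by
  refine and_congr (by simp) (and_congr Iff.rfl ?_)
  rw [← map_inv₀]
  exact Iff.rfl

theorem dif (hH : ∀ a ∈ H, θ a = a) (hR : ∀ a, a ∈ R ↔ θ a ∈ R) (hr : RatPt R)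
    (hl : IsLocalRing R) (hj : j ∈ H) (hO : O ∈ Pts (ch R H j)) (hd : AG.Dom R O)
    (ha : a ∈ ch R H j) : θ a - a ∈ mx O := by
  let T : Subalgebra k F :=
    { carrier := {a | a ∈ ch R H j ∧ θ a - a ∈ mx O}
      mul_mem' := by
        rintro a b ⟨h1, h2⟩ ⟨h3, h4⟩
        refine ⟨mul_mem h1 h3, ?_⟩
        have := mx_add hO.1 (mx_mul_right h2 (hO.2.1 (st hH hR hj h3))) (mx_mul_left (hO.2.1 h1) h4)
        rwa [show (θ a - a) * θ b + a * (θ b - b) = θ (a * b) - a * b by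
          rw [map_mul]; ring] at this
      add_mem' := by
        rintro a b ⟨h1, h2⟩ ⟨h3, h4⟩
        refine ⟨add_mem h1 h3, ?_⟩
        have := mx_add hO.1 h2 h4
        rwa [show θ a - a + (θ b - b) = θ (a + b) - (a + b) by rw [map_add]; ring] at this
      algebraMap_mem' := fun c =>
        ⟨Subalgebra.algebraMap_mem _ c, by rw [θ.commutes, sub_self]; exact zero_mem_mx⟩ }
  refine (ch_le (O := T) (fun r h => ⟨(le_sup_left : R ≤ ch R H j) h, ?_⟩)
    (fun b hb => ⟨div_mem_ch hb, ?_⟩) ha).2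
  · obtain ⟨c, hc⟩ := hr r h
    have h1 : θ (r - algebraMap k F c) ∈ mx R := ⟨(hR _).1 hc.1, fun hu => hc.2
      ⟨fun h0 => hu.ne (by rw [h0, map_zero]), hc.1, (hR _).2 (by rw [map_inv₀]; exact hu.inv_mem)⟩⟩
    have := hd.mx (mx_sub' hl h1 hc)
    rwa [map_sub, θ.commutes, sub_sub_sub_cancel_right] at this
  · rw [map_div₀, hH b hb, hH j hj, sub_self]
    exact zero_mem_mx

theorem un (hO : IsLocalRing O) (hu : IsU O a) (h : θ a - a ∈ mx O) : IsU O (θ a) := by
  simpa using hu.add_mx hO h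

theorem fw (hH : ∀ a ∈ H, θ a = a) (hR : ∀ a, a ∈ R ↔ θ a ∈ R) (hr : RatPt R)
    (hl : IsLocalRing R) (hO : O ∈ Xs R H) (ha : a ∈ O) : θ a ∈ O := by
  obtain ⟨⟨j, hj, h⟩, hd⟩ := hO
  obtain ⟨p, hp, q, hq, hu, rfl⟩ := h.2.2 a ha
  rw [map_div₀]
  exact (un h.1 hu (dif hH hR hr hl hj h hd hq)).div_mem (h.2.1 (st hH hR hj hp))

end Fx1

theorem fx1 : Fx1Stmt := by
  intro k F M I _ _ _ _ _ _ _ _ R H ξ ρ S L θ hH hR
  refine ⟨?_, fun O hO => ?_, fun a ha => ?_⟩
  · rintro O ⟨j, hj, h⟩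
    refine ⟨j, hj, isLocalRing_of fun a ha b hb => ⟨add_mem ha.1 hb.1, fun hu => ?_⟩,
      fun a ha => h.2.1 (Fx1.st hH hR hj ha), fun f hf => ?_⟩
    · rw [Fx1.isU, map_add] at hu
      exact (mx_add h.1 ⟨ha.1, fun w => ha.2 (Fx1.isU.2 w)⟩ ⟨hb.1, fun w => hb.2 (Fx1.isU.2 w)⟩).2 hu
    · obtain ⟨p, hp, q, hq, hu, e⟩ := h.2.2 (θ f) hf
      refine ⟨_, Fx1.st (Fx1.symH hH) (Fx1.symR hR) hj hp, _,
        Fx1.st (Fx1.symH hH) (Fx1.symR hR) hj hq, Fx1.isU.2 (by rwa [θ.apply_symm_apply]), ?_⟩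
      rw [← map_div₀, ← e, θ.symm_apply_apply]
  · ext a
    refine ⟨fun h => ?_, fun h => Fx1.fw hH hR L.rat L.loc hO h⟩
    have := Fx1.fw (a := θ a) (Fx1.symH hH) (Fx1.symR hR) L.rat L.loc hO h
    rwa [θ.symm_apply_apply] at this
  · obtain ⟨j, hj, h⟩ := L.fib.mem
    obtain ⟨p, hp, q, hq, hu, rfl⟩ := h.2.2 a ha
    have key : ∀ b ∈ ch R H j, evO ξ ρ (θ b) = evO ξ ρ b := fun b hb => by
      have h1 := Fx1.dif hH hR L.rat L.loc hj h L.fib.dom hb
      have h2 := (L.lh.eq_zero_iff h1.1).2 h1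
      rwa [evO_sub ρ (h.2.1 (Fx1.st hH hR hj hb)) (h.2.1 hb), sub_eq_zero] at h2
    rw [map_div₀, evO_div ρ (h.2.1 (Fx1.st hH hR hj hp))
      (Fx1.un h.1 hu (Fx1.dif hH hR L.rat L.loc hj h L.fib.dom hq)), evO_div ρ (h.2.1 hp) hu,
      key p hp, key q hq]

end Pool.Agent.MP_e8e0b6_ag.R2.C

end Part7

section Part8

-- part 8: C Fx2

/-!
Row FX2: an automorphism that fixes the base point acts trivially on classes.
-/

set_option autoImplicit false

namespace Pool.Agent.MP_e8e0b6_ag.R2.C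

open Pool.Agent.MP_79c67d_ag Pool.Agent.MP_20d318_ag Pool.Agent.MP_20d318_ag.AG
  Pool.Agent.MP_20d318_ag.BV Pool.Agent.MP_20d318_ag.CB

namespace Fx2

variable {Ω E J : Type} [Field Ω] [Field E] [Algebra Ω E] [Fintype J] {O O' : Subalgebra Ω E}
  {U : Set E} {g : E}

theorem gn_tau (τ : E ≃+* E) (h : ∀ a, a ∈ O' ↔ τ a ∈ O) (hg : Gn U O' g) :
    Gn (τ '' U) O (τ g) := by
  obtain ⟨a, ha, h0, h1, h2⟩ := hg.2
  refine ⟨?_, τ a, ⟨a, ha, rfl⟩, ?_⟩
  · rintro _ ⟨b, hb, rfl⟩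
    rw [← map_div₀]; exact (h _).1 (hg.1 b hb)
  · rw [← map_div₀]
    exact ⟨(map_ne_zero τ).2 h0, (h _).1 h1, by rw [← map_inv₀]; exact (h _).1 h2⟩

/-- A finite set that is principal at all points has a class. -/
theorem exists_cl {S' : Sd Ω E J} (hS : SAll S') (hU : U.Finite) (h : ∀ O ∈ S'.T, Prin U O) :
    ∃ c, Cl S' U c := by
  obtain ⟨c, φ, h0, h1⟩ := hS.a2.pic _ (isCart_of_gn hU fun O hO => gn_spec (h O hO))
  exact ⟨-c, φ, h0, fun O hO => by
    rw [S'.lb_neg, inv_inv]; exact (gn_spec (h O hO)).of_unit (h1 O hO)⟩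

/-- Transport of a line bundle. -/
theorem dt_map {X : Set (Subalgebra Ω E)} {γ : Subalgebra Ω E → E} (θ : E →ₐ[Ω] E)
    (hX : ∀ O ∈ X, O.comap θ ∈ X) (h : Dt X γ) : Dt X fun O => θ (γ (O.comap θ)) := by
  obtain ⟨U, V, h1, h2, h⟩ := h
  have s : ∀ W, Sys X W → Sys X (θ '' W) := fun W hW => ⟨hW.1.image _, fun O hO =>
    (hW.2 _ (hX O hO)).elim fun a ha => ⟨_, (gn_map θ).2 ha⟩⟩
  refine ⟨_, _, s U h1, s V h2, fun O hO => ?_⟩
  obtain ⟨a, b, ha, hb, hu⟩ := h _ (hX O hO)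
  refine ⟨_, _, (gn_map θ).2 ha, (gn_map θ).2 hb, ?_⟩
  simpa only [map_div₀, map_mul] using (isU_comap θ).1 hu

end Fx2

open Fx2 in
theorem fx2 : Fx2Stmt := by
  intro mk2 dt sp tw fx1 k F M Ω E I J _ _ _ _ _ _ _ _ _ _ _ _ _ _ _ R H ξ ρ S μ S' τ θ L G hR hP
    hτ hH hθ U c hU ⟨φ', hφ', hG⟩
  have hS := (mk2 k M I S L.mrk).all
  have hS' := (mk2 Ω E J S' G.mrk).all
  obtain ⟨f1, f2, f3⟩ := fx1 k F M I R H ξ ρ S L θ hH hθ
  have hw : ∀ O ∈ S'.T, ∃ O' ∈ S'.T, ∀ a, a ∈ O' ↔ τ a ∈ O := by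
    rw [G.eq]
    exact tw Ω E _ τ hP (by rintro _ ⟨a, ha, rfl⟩; rw [hτ, hH a ha])
  obtain ⟨c', ψ, hψ, hG'⟩ := exists_cl hS' (hU.image τ) fun O hO =>
    (hw O hO).elim fun O' h => (gn_tau τ h.2 (hG O' h.1)).prin
  obtain ⟨γ, hD, φ, hφ, hL⟩ := dt k F Ω E J R H μ S' L.fm G hR c
  obtain ⟨-, σ, hσ⟩ := sp k F M Ω E I J R H ξ ρ S μ S' L G hR
  have hL' : Lg (XX R H) μ S' c' fun O => (θ : F →ₐ[k] F) (γ (O.comap (θ : F →ₐ[k] F))) := by
    have h0 : τ (φ' * φ) ≠ 0 := (map_ne_zero τ).2 (mul_ne_zero hφ' hφ)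
    refine ⟨τ (φ' * φ) / ψ, div_ne_zero h0 hψ, fun O' hO' O hO hle => ?_⟩
    obtain ⟨O'', hO'', e⟩ := hw O' hO'
    have h1 := hL O'' hO'' _ (f1 O hO) fun a ha => (e _).2 (by rw [hτ]; exact hle _ ha)
    have h2 : Gn U O'' (φ' * φ / μ (γ (O.comap (θ : F →ₐ[k] F)))) := (hG O'' hO'').of_unit (by
      convert h1.inv using 1
      field_simp)
    have h3 := (hG' O' hO').unit (gn_tau τ e h2)
    rw [map_div₀, hτ] at h3
    convert h3 using 1
    change μ (θ _) / _ = _
    field_simp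
  obtain ⟨u, -, hu⟩ := hσ.rel c γ hD ⟨φ, hφ, hL⟩
  obtain ⟨u', -, hu'⟩ := hσ.rel c' _ (dt_map _ f1 hD) hL'
  have e : σ c' - σ c = 0 := hS.a1.zero _ (evO ξ ρ (θ u / u')) fun O₁ hO₁ => by
    obtain ⟨O, hO, rfl⟩ := exists_red L hO₁
    obtain ⟨h1, h2⟩ := hu O hO.1 hO.2
    obtain ⟨h3, h4⟩ := hu' O hO.1 hO.2
    simp only [f2 O hO] at h3 h4
    have h5 : IsU ξ (θ (u * γ O)) :=
      (isU_comap (θ : F →ₐ[k] F)).1 (by rwa [f2 ξ (xi_mem L)])
    have h6 : θ u / u' = θ (u * γ O) / (u' * (θ : F →ₐ[k] F) (γ O)) := by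
      rw [map_mul]
      exact (mul_div_mul_right _ _ (right_ne_zero_of_mul h3.ne)).symm
    rw [h6, evO_div ρ h5.mem h3, f3 (u * γ O) h1.mem, S.lb_sub (hS.a1.gne _ hO₁)]
    convert h2.div h4 using 1
    field_simp
  obtain rfl : c' = c := σ.injective (sub_eq_zero.1 e)
  exact ⟨ψ, hψ, hG'⟩

end Pool.Agent.MP_e8e0b6_ag.R2.C

end Part8

section Part9

-- part 9: C GGlue

/-!
The monodromy on divisor classes is trivial: the assembly.
-/

set_option autoImplicit false

open AlgebraicGeometry CategoryTheory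

namespace Pool.Agent.MP_e8e0b6_ag.R2.C

open Pool.Agent.MP_79c67d_ag Pool.Agent.MP_20d318_ag Pool.Agent.MP_20d318_ag.AG
  Pool.Agent.MP_20d318_ag.BV Pool.Agent.MP_20d318_ag.CB

namespace GGlue

variable {k Ω E J : Type} [Field k] [Field Ω] [Field E] [Algebra k E] [Algebra Ω E] [Fintype J]

theorem fix_adjoin (τ : E ≃+* E) {T : Set E} (h0 : ∀ c, τ (algebraMap k E c) = algebraMap k E c)
    (h : ∀ a ∈ T, τ a = a) {z : E} (hz : z ∈ IntermediateField.adjoin k T) : τ z = z := by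
  induction hz using IntermediateField.adjoin_induction with
  | mem a ha => exact h a ha
  | algebraMap c => exact h0 c
  | add a b _ _ ha hb => rw [map_add, ha, hb]
  | inv a _ ha => rw [map_inv₀, ha]
  | mul a b _ _ ha hb => rw [map_mul, ha, hb]

theorem pres_trans {τ τ' : E ≃+* E} (h : Pres Ω τ) (h' : Pres Ω τ') : Pres Ω (τ.trans τ') := by
  unfold Pres at *
  rw [RingEquiv.coe_trans, Set.image_comp, h, h']

theorem pres_symm {τ : E ≃+* E} (h : Pres Ω τ) : Pres Ω τ.symm := by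
  unfold Pres at *
  conv_lhs => rw [← h]
  exact τ.toEquiv.symm_image_image _

theorem tv_trans {S' : Sd Ω E J} {τ τ' : E ≃+* E} (h : Tv S' τ) (h' : Tv S' τ') :
    Tv S' (τ.trans τ') := fun U c hU hc => by
  rw [RingEquiv.coe_trans, Set.image_comp]
  exact h' _ c (hU.image _) (h U c hU hc)

theorem img_H {L : Type} [Field L] [Algebra k L] (ι : L →ₐ[k] E) (H₀ : Set E) :
    (fl ι H₀).val '' ((fl ι H₀).val ⁻¹' H₀) = H₀ :=
  Set.image_preimage_eq_of_subset fun a ha =>
    ⟨⟨a, IntermediateField.subset_adjoin _ _ (Or.inr ha)⟩, rfl⟩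

end GGlue

open GGlue in
theorem gal_of (mk2 : Mk2Stmt) (ext : ExtStmt) (chs : Chs) (pur : Pur) (ptf : Ptf) (tw : TwStmt)
    (one : OneStmt) (rat : RatStmt) (gdf : GdfStmt) (ine : Ine) : GalStmt' := by
  intro k Ω E J _ _ _ _ _ _ _ _ _ _ _ S f s H₀ S' hf hsc hs h1 hnz hU A _ j _ g hg hinj halg
  obtain ⟨φ, hφ⟩ := sp_surj (j ≫ f)
  have hgφ : g.comp φ = algebraMap k Ω := sp_inj (by
    rw [← sp_comp, hφ, ← Category.assoc, hg, hs])
  let _ : Algebra k A := φ.toAlgebra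
  let gA : A →ₐ[k] Ω := { g with commutes' := DFunLike.congr_fun hgφ }
  let K : IntermediateField k Ω := IntermediateField.adjoin k (Set.range g)
  have hK : ∀ a, g a ∈ K := fun a => IntermediateField.subset_adjoin _ _ ⟨a, rfl⟩
  let gK : A →ₐ[k] K := gA.codRestrict K.toSubalgebra hK
  let q : Spec (.of K) ⟶ S := sp (gK : A →+* K) ≫ j
  have hq : sp (algebraMap K Ω) ≫ q = s := by
    rw [← Category.assoc, sp_comp]; exact hg
  have hqf : q ≫ f = sp (algebraMap k K) := by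
    rw [Category.assoc, ← hφ, sp_comp]
    exact congrArg sp gK.comp_algebraMap
  have hct : Ct q gK j := ⟨‹_›, rfl, fun a b h => hinj (congrArg Subtype.val h), fun z => by
    obtain ⟨r, hr, t, ht, e⟩ := IntermediateField.mem_adjoin_iff_div.1 z.2
    rw [show Algebra.adjoin k (Set.range g) = gA.range from
      Algebra.adjoin_eq (S := gA.range)] at hr ht
    obtain ⟨a, rfl⟩ := hr
    obtain ⟨b, rfl⟩ := ht
    by_cases hb : gK b = 0
    · refine ⟨0, zero_mem _, 1, one_mem _, one_ne_zero, Subtype.ext ?_⟩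
      have : gA b = 0 := congrArg Subtype.val hb
      simpa [this] using e
    · exact ⟨_, ⟨a, rfl⟩, _, ⟨b, rfl⟩, hb, Subtype.ext e⟩⟩
  have : CharZero Ω := charZero_of_injective_algebraMap (algebraMap k Ω).injective
  have : Algebra.IsAlgebraic K Ω := ⟨fun a => by
    have hle : g.range ≤ K.toSubalgebra.toSubring := by rintro _ ⟨a, rfl⟩; exact hK a
    let ψ : g.range →+* K := Subring.inclusion hle
    exact (halg a).ringHom_of_comp_eq ψ (RingHom.id Ω) (Subring.inclusion_injective hle) rfl⟩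
  have : IsAlgClosure K Ω := ⟨inferInstance, inferInstance⟩
  have : IsGalois K Ω := inferInstance
  have uni : ∀ (A' : Type) [CommRing A'] [Algebra k A'] (g' : A' →ₐ[k] K)
      (j' : Spec (.of A') ⟶ S), Ct q g' j' →
      Uni ((IsScalarTower.toAlgHom k Ω E).comp (K.val.comp g')).range H₀ S' :=
    fun A' _ _ g' j' h => hU A' (K.val.comp g') j' (Subtype.val_injective.comp h.inj) (by
      rw [← hq, ← h.eq, ← Category.assoc, sp_comp]; rfl)
  have := hf.integral
  obtain ⟨A₁, _, _, g₁, j₁, c₁, o₁, -⟩ := chs k K A S f q gK j hf hqf hct (genericPoint S)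
  let ιK : K →ₐ[k] E := (IsScalarTower.toAlgHom k Ω E).comp K.val
  have := o₁.sm
  have G₀ := gdf k K Ω E J ιK H₀ S' _ g₁.range (fun a => ⟨a, rfl⟩) h1 hnz (uni A₁ g₁ j₁ c₁)
    (by rintro _ ⟨a, rfl⟩; exact ⟨_, ⟨a, rfl⟩, rfl⟩)
    (.of_equiv (AlgEquiv.ofInjective g₁ c₁.inj)) c₁.frac
  have hS := (mk2 Ω E J S' G₀.gc.mrk).all
  have hT : S'.T = mp Ω fun _ : Unit => H₀ := by rw [G₀.gc.eq, img_H]
  obtain ⟨Z, hZ, hR⟩ := rat k Ω E J H₀ S' hS hT
  have := hZ.to_subtype
  let L : IntermediateField K Ω := (FiniteGaloisIntermediateField.adjoin K Z).toIntermediateField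
  have : IsScalarTower k L Ω := .of_algebraMap_eq fun c => (IsScalarTower.algebraMap_apply k K Ω c)
  let ιL : L →ₐ[k] E := (IsScalarTower.toAlgHom k Ω E).comp (IsScalarTower.toAlgHom k L Ω)
  have hrat : Rat (fl ιL H₀).val S' := hR _ _
    (fun z hz => ⟨⟨_, IntermediateField.subset_adjoin _ _ (Or.inl
      ⟨⟨z, FiniteGaloisIntermediateField.subset_adjoin K Z hz⟩, rfl⟩)⟩, rfl⟩)
    fun a ha => ⟨⟨a, IntermediateField.subset_adjoin _ _ (Or.inr ha)⟩, rfl⟩
  let N₀ : Submonoid (L ≃ₐ[K] L) :=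
    { carrier := {γ | ∃ τ : E ≃+* E, Pres Ω τ ∧ (∀ a, τ (ιL a) = ιL (γ a)) ∧
        (∀ a ∈ H₀, τ a = a) ∧ Tv S' τ}
      one_mem' := ⟨RingEquiv.refl E, by simp [Pres], fun _ => rfl, fun _ _ => rfl,
        fun U c _ h => by simpa using h⟩
      mul_mem' := by
        rintro γ γ' ⟨τ, a1, a2, a3, a4⟩ ⟨τ', b1, b2, b3, b4⟩
        exact ⟨τ'.trans τ, pres_trans b1 a1, fun a => by simp [a2, b2],
          fun a ha => by simp [a3 a ha, b3 a ha], tv_trans b4 a4⟩ }
  let N : Subgroup (L ≃ₐ[K] L) :=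
    { N₀ with
      inv_mem' := fun {γ} h => by
        have := N₀.pow_mem h (orderOf γ - 1)
        rwa [eq_inv_of_mul_eq_one_left (show γ ^ (orderOf γ - 1) * γ = 1 by
          rw [← pow_succ, Nat.sub_add_cancel (orderOf_pos γ), pow_orderOf_eq_one])] at this }
  have hN : N = ⊤ := pur k K L A S f q gK j N hf hsc hqf hct fun A' _ _ g' j' c' o' W hW γ hγ => by
    obtain ⟨τ, t1, t2⟩ := ext k _ Ω E J _ _ _ S' G₀.gc hS.a1.nice.toFine.top
      (γ.liftNormal Ω).toRingEquiv (by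
        rintro a ⟨z, ⟨b, -, hb⟩, hz⟩
        obtain rfl : (b : Ω) = a := (algebraMap Ω E).injective (hb.trans hz)
        exact (γ.liftNormal Ω).commutes b)
    have p1 : Pres Ω τ := by
      unfold Pres
      rw [← Set.range_comp, show τ ∘ algebraMap Ω E = algebraMap Ω E ∘ γ.liftNormal Ω from
        funext t1, (γ.liftNormal Ω).surjective.range_comp]
    have p2 : ∀ a, τ (ιL a) = ιL (γ a) := fun a =>
      (t1 a).trans (congrArg _ (γ.liftNormal_commutes Ω a))
    have p3 : ∀ a ∈ H₀, τ a = a := fun a ha =>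
      t2 ⟨a, IntermediateField.subset_adjoin _ _ (Or.inr ha)⟩
    have := o'.sm
    have := o'.nrm
    have := o'.dom
    have e := AlgEquiv.ofInjective g' c'.inj
    obtain ⟨C, R', q1, q2, q3, q4, q5, q6⟩ := ptf k K L g'.range W γ c'.frac
      (.equiv inferInstance e) (.of_equiv e.toRingEquiv) hW hγ
    exact ⟨τ, p1, p2, p3, ine k L Ω E J ιL H₀ S' C R' (γ.restrictScalars k) τ
      (gdf k L Ω E J ιL H₀ S' _ C (fun a => ⟨a, rfl⟩) h1 hnz (uni A' g' j' c')
        (by rintro _ ⟨a, rfl⟩; exact ⟨_, q1 ⟨_, ⟨a, rfl⟩, rfl⟩, rfl⟩) q2 q3)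
      (fun a => ⟨a, rfl⟩) hrat q4 q5 q6 p1 p2 p3⟩
  intro τ hp hfix
  have hk : ∀ c, τ (algebraMap k E c) = algebraMap k E c := fun c =>
    hfix _ (Or.inl ⟨_, ⟨φ c, DFunLike.congr_fun hgφ c⟩, (IsScalarTower.algebraMap_apply ..).symm⟩)
  choose σ hσ using fun a : Ω =>
    (hp ▸ ⟨_, ⟨a, rfl⟩, rfl⟩ : τ (algebraMap Ω E a) ∈ Set.range (algebraMap Ω E))
  have inj := (algebraMap Ω E).injective
  let σ' : Ω →ₐ[K] Ω :=
    { toFun := σ
      map_one' := inj (by simp [hσ])
      map_mul' := fun a b => inj (by simp [hσ])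
      map_zero' := inj (by simp [hσ])
      map_add' := fun a b => inj (by simp [hσ])
      commutes' := fun a => inj ((hσ a).trans (fix_adjoin τ hk (T := algebraMap Ω E '' Set.range g)
        (fun z hz => hfix z (Or.inl hz)) (by
          rw [show algebraMap Ω E '' Set.range g =
            IsScalarTower.toAlgHom k Ω E '' Set.range g from rfl, ← IntermediateField.adjoin_map]
          exact ⟨a, a.2, rfl⟩))) }
  let γ := (AlgEquiv.ofBijective σ' (Algebra.IsAlgebraic.algHom_bijective σ')).restrictNormal L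
  obtain ⟨τ', b1, b2, b3, b4⟩ : γ ∈ N := hN ▸ Subgroup.mem_top γ
  have e1 : ∀ a, τ (ιL a) = τ' (ιL a) := fun a => (hσ a).symm.trans ((b2 a).trans
    (congrArg (algebraMap Ω E) (AlgEquiv.restrictNormal_commutes _ L a))).symm
  have e2 : ∀ a ∈ H₀, (τ.trans τ'.symm) a = a := fun a ha => by
    rw [RingEquiv.trans_apply, hfix a (Or.inr ha), RingEquiv.symm_apply_eq, b3 a ha]
  have e3 : ∀ a, (τ.trans τ'.symm) (ιL a) = ιL a := fun a => by
    rw [RingEquiv.trans_apply, e1, RingEquiv.symm_apply_apply]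
  have := tv_trans (one tw k _ Ω E J (fl ιL H₀).val H₀ S' (τ.trans τ'.symm) hS hT hrat
    (pres_trans hp (pres_symm b1)) e2 fun z => fix_adjoin _
      (fun c => by rw [← ιL.commutes, e3]) (by
        rintro a (⟨b, rfl⟩ | ha)
        exacts [e3 b, e2 a ha]) z.2) b4
  rwa [show (τ.trans τ'.symm).trans τ' = τ from RingEquiv.ext fun a => by simp] at this

end Pool.Agent.MP_e8e0b6_ag.R2.C

end Part9

section Part10

-- part 10: C Gdf

/-!
The family over a smooth ring inside a field of constants is good.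
-/

set_option autoImplicit false

namespace Pool.Agent.MP_e8e0b6_ag.R2.C

open Pool.Agent.MP_79c67d_ag Pool.Agent.MP_20d318_ag Pool.Agent.MP_20d318_ag.AG
  Pool.Agent.MP_20d318_ag.BV Pool.Agent.MP_20d318_ag.CB

namespace GdfA

variable {k L E : Type} [Field k] [Field L] [Field E] [Algebra k L] [Algebra k E]

theorem frac_of {D : Subalgebra k L} (h : ∀ f, f ∈ IntermediateField.adjoin k (D : Set L)) :
    Frac D := fun f => by
  obtain ⟨a, ha, b, hb, rfl⟩ := IntermediateField.mem_adjoin_iff_div.1 (h f)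
  rw [Algebra.adjoin_eq] at ha hb
  by_cases h0 : b = 0
  · exact ⟨0, zero_mem _, 1, one_mem _, one_ne_zero, by rw [h0, div_zero, zero_div]⟩
  · exact ⟨a, ha, b, hb, h0, rfl⟩

theorem mem_l (ι : L →ₐ[k] E) (H₀ : Set E) (a : L) : ι a ∈ fl ι H₀ :=
  IntermediateField.subset_adjoin _ _ (Or.inl ⟨a, rfl⟩)

theorem mem_r (ι : L →ₐ[k] E) {H₀ : Set E} {a : E} (h : a ∈ H₀) : a ∈ fl ι H₀ :=
  IntermediateField.subset_adjoin _ _ (Or.inr h)

theorem smooth (ι : L →ₐ[k] E) (H₀ : Set E) (C : Subalgebra k L) [Algebra.Smooth k C] :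
    Algebra.Smooth k (fu ι H₀ C) := by
  let φ : C →ₐ[k] fu ι H₀ C :=
    (((ι.comp C.val).codRestrict (fl ι H₀).toSubalgebra fun a => mem_l ι H₀ a) :
      C →ₐ[k] fl ι H₀).codRestrict _ fun a => ⟨a, a.2, rfl⟩
  refine Algebra.Smooth.of_equiv (AlgEquiv.ofBijective φ ⟨fun a b e => ?_, ?_⟩)
  · exact Subtype.ext (ι.injective (congrArg (fun z : fu ι H₀ C => (z.1 : E)) e))
  · rintro ⟨z, c, hc, e⟩
    exact ⟨⟨c, hc⟩, Subtype.ext (Subtype.ext e)⟩

end GdfA

open GdfA

theorem gdf : GdfStmt := by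
  intro k L Ω E J _ _ _ _ _ _ _ _ ι H₀ S' C₀ C hι h1 h0 hU hC hs hf
  refine hU (fl ι H₀) (fl ι H₀).val _ _
    (Set.image_preimage_eq_of_subset fun a ha => ⟨⟨a, mem_r ι ha⟩, rfl⟩) (fun x hx => ?_)
    (fun c hc => ?_) (smooth ι H₀ C) fun j hj => frac_of fun f => ?_
  · obtain ⟨c, hc, rfl⟩ := hC hx
    exact ⟨⟨ι c, mem_l ι H₀ c⟩, ⟨c, hc, rfl⟩, rfl⟩
  · obtain ⟨a, -, e⟩ := hc
    exact e ▸ hι a
  · set D := ch (fu ι H₀ C) ((fl ι H₀).val ⁻¹' H₀) j
    have hD : ∀ z ∈ D, z ∈ IntermediateField.adjoin k (D : Set (fl ι H₀)) := fun z hz =>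
      IntermediateField.subset_adjoin _ _ hz
    have hr : ∀ z ∈ (fl ι H₀).val ⁻¹' H₀, z / j ∈ D := fun z hz =>
      (le_sup_right : _ ≤ D) (Algebra.subset_adjoin ⟨z, hz, rfl⟩)
    have hl : ∀ c ∈ C, (⟨ι c, mem_l ι H₀ c⟩ : fl ι H₀) ∈ D := fun c hc =>
      (le_sup_left : _ ≤ D) (show _ ∈ fu ι H₀ C from ⟨c, hc, rfl⟩)
    have hj0 : j ≠ 0 := fun e => h0 _ hj (by rw [e, map_zero])
    have : fl ι H₀ ≤ (IntermediateField.adjoin k (D : Set (fl ι H₀))).map (fl ι H₀).val := by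
      refine IntermediateField.adjoin_le_iff.2 ?_
      rintro _ (⟨a, rfl⟩ | ha)
      · obtain ⟨a, ha, b, hb, -, rfl⟩ := hf a
        have := div_mem (hD _ (hl a ha)) (hD _ (hl b hb))
        exact ⟨_, this, (map_div₀ ι a b).symm⟩
      · refine ⟨⟨_, mem_r ι ha⟩, ?_, rfl⟩
        have := div_mem (hD _ (hr ⟨_, mem_r ι ha⟩ ha)) (hD _ (hr 1 (by simpa using h1)))
        rwa [div_div_div_cancel_right₀ hj0, div_one] at this
    obtain ⟨z, hz, e⟩ := this f.2
    exact (Subtype.ext e : z = f) ▸ hz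

end Pool.Agent.MP_e8e0b6_ag.R2.C

end Part10
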