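import Pool.Agent.MP_e8e0b6_ag.R2.C.GSpec
import Mathlib.RingTheory.Invariant.Basic
import Mathlib.RingTheory.Valuation.LocalSubring
import Mathlib.AlgebraicGeometry.Normalization
import Mathlib.AlgebraicGeometry.Noetherian
import Mathlib.AlgebraicGeometry.Morphisms.IsIso
import Mathlib.RingTheory.Jacobson.Ring
import Mathlib.RingTheory.DedekindDomain.IntegralClosure

section Part1

-- part 1: C Ine

/-!
Row INE: an automorphism that fixes a smooth rational point acts trivially on classes.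
-/

set_option autoImplicit false

namespace Pool.Agent.MP_e8e0b6_ag.R2.C

open Pool.Agent.MP_79c67d_ag Pool.Agent.MP_20d318_ag Pool.Agent.MP_20d318_ag.AG
  Pool.Agent.MP_20d318_ag.BV Pool.Agent.MP_20d318_ag.CB

namespace Ine

variable {k L F : Type} [Field k] [Field L] [Field F] [Algebra k L] [Algebra k F]
  {C R : Subalgebra k L} (j : L →ₐ[k] F) {a : L}

theorem isU_map : IsU (R.map j) (j a) ↔ IsU R a := by
  rw [← isU_comap, Subalgebra.comap_map_eq_self_of_injective j.injective]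

theorem mx_map : j a ∈ mx (R.map j) ↔ a ∈ mx R := by
  rw [← mem_mx_comap, Subalgebra.comap_map_eq_self_of_injective j.injective]

theorem pts_map (h : R ∈ Pts C) : R.map j ∈ Pts (C.map j) := by
  refine ⟨isLocalRing_of fun a ha b hb => ?_, Subalgebra.map_mono h.2.1, ?_⟩
  · obtain ⟨a, -, rfl⟩ := ha.1
    obtain ⟨b, -, rfl⟩ := hb.1
    have := (mx_map j).2 (mx_add h.1 ((mx_map j).1 ha) ((mx_map j).1 hb))
    rwa [map_add] at this
  · rintro _ ⟨f, hf, rfl⟩
    obtain ⟨a, ha, b, hb, hu, rfl⟩ := h.2.2 f hf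
    exact ⟨_, ⟨a, ha, rfl⟩, _, ⟨b, hb, rfl⟩, (isU_map j).2 hu, map_div₀ j a b⟩

theorem rat_map (h : RatPt R) : RatPt (R.map j) := by
  rintro _ ⟨f, hf, rfl⟩
  obtain ⟨c, hc⟩ := h f hf
  have := (mx_map j).2 hc
  rw [map_sub, j.commutes] at this
  exact ⟨c, this⟩

theorem li_mono (h : C ≤ R) {ι : Type} {v : ι → L} (hv : LinearIndependent R v) :
    LinearIndependent C v := by
  rw [linearIndependent_iff'] at hv ⊢
  exact fun s g e i hi => Subtype.ext (congrArg (fun x : R => (x : L))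
    (hv s (fun i => Subalgebra.inclusion h (g i)) e i hi))

theorem fu_eq (H₀ : Set F) : ∃ i : L →ₐ[k] fl j H₀, ∀ C : Subalgebra k L, fu j H₀ C = C.map i :=
  ⟨j.codRestrict (fl j H₀).toSubalgebra fun a =>
    IntermediateField.subset_adjoin k _ (Or.inl ⟨a, rfl⟩), fun _ => Subalgebra.ext fun _ =>
      ⟨fun ⟨a, ha, e⟩ => ⟨a, ha, Subtype.ext e⟩, fun ⟨a, ha, e⟩ => ⟨a, ha, congrArg Subtype.val e⟩⟩⟩

/-- The restriction of an automorphism to the field of definition. -/
theorem exists_res (H₀ : Set F) (γ : L ≃ₐ[k] L) (τ : F ≃+* F) (h : ∀ a, τ (j a) = j (γ a))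
    (hH : ∀ a ∈ H₀, τ a = a) :
    ∃ θ : fl j H₀ ≃ₐ[k] fl j H₀, ∀ z : fl j H₀, τ z = θ z := by
  let τ' : F ≃ₐ[k] F := { τ with
    commutes' := fun c => by
      have := h (algebraMap k L c)
      rwa [γ.commutes, j.commutes] at this }
  have e : (fl j H₀).map τ'.toAlgHom = fl j H₀ := by
    rw [fl, IntermediateField.adjoin_map]
    congr 1
    refine Set.ext fun z => ⟨?_, ?_⟩
    · rintro ⟨_, ⟨a, rfl⟩ | hw, rfl⟩
      · exact Or.inl ⟨γ a, (h a).symm⟩
      · exact Or.inr ((hH _ hw).symm ▸ hw : τ _ ∈ H₀)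
    · rintro (⟨a, rfl⟩ | hz)
      · exact ⟨_, Or.inl ⟨γ.symm a, rfl⟩, (h _).trans (by rw [γ.apply_symm_apply])⟩
      · exact ⟨z, Or.inr hz, hH z hz⟩
  exact ⟨(IntermediateField.intermediateFieldMap τ' _).trans (IntermediateField.equivOfEq e),
    fun _ => rfl⟩

end Ine

open Ine in
theorem ine : IneStmt := by
  intro fx k L Ω E J _ _ _ _ _ _ _ _ _ _ _ _ ι H₀ S' C R' γ τ G hι hR hP hr hγ hτ h1 h2
  obtain ⟨i, hi⟩ := fu_eq ι H₀
  obtain ⟨θ, hθ⟩ := exists_res ι H₀ γ τ h1 h2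
  have hp : fu ι H₀ R' ∈ Pts (fu ι H₀ C) := by rw [hi, hi]; exact pts_map i hP
  obtain ⟨M, _, _, I, _, ξ, ρ, S, hL⟩ := G.lc _ hp (by rw [hi]; exact rat_map i hr)
  refine fx k _ M Ω E I J _ _ ξ ρ S _ S' τ θ hL ⟨G.gc.mrk, G.gc.eq, ?_, fun _ v hv =>
    G.gc.ld _ v (li_mono hp.2.1 hv)⟩ hR hτ hθ (fun a ha => Subtype.ext ((hθ a).symm.trans (h2 _ ha)))
    fun a => ⟨?_, ?_⟩
  · rintro c ⟨a, -, e⟩
    exact e ▸ hι a
  · rintro ⟨b, hb, e⟩
    exact ⟨γ b, (hγ b).1 hb, ((h1 b).symm.trans (congrArg τ e)).trans (hθ a)⟩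
  · rintro ⟨b, hb, e⟩
    obtain ⟨b, rfl⟩ := γ.surjective b
    exact ⟨b, (hγ b).2 hb, τ.injective (((h1 b).trans e).trans (hθ a).symm)⟩

end Pool.Agent.MP_e8e0b6_ag.R2.C

end Part1

section Part2

-- part 2: C Inl

/-!
Inertia elements lift to a larger Galois extension.
-/

set_option autoImplicit false

namespace Pool.Agent.MP_e8e0b6_ag.R2.C

open Pool.Agent.MP_19ffc6_ag.Res (In in_of_core)
open Polynomial

namespace Inl

theorem one {B Ω : Type} (G : Type) [CommRing B] [CommRing Ω] [IsDomain Ω] [Group G] [Finite G]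
    [MulSemiringAction G B] (φ ψ : B →+* Ω) (h : ∀ b, (∀ g : G, g • b = b) → ψ b = φ b) (b : B) :
    ∃ g : G, ψ b = φ (g • b) := by
  cases nonempty_fintype G
  have e : (MulSemiringAction.charpoly G b).map ψ = (MulSemiringAction.charpoly G b).map φ :=
    Polynomial.ext fun n => by
      rw [coeff_map, coeff_map]
      exact h _ (MulSemiringAction.smul_coeff_charpoly b n)
  have h1 : ((MulSemiringAction.charpoly G b).map ψ).eval (ψ b) = 0 := by
    rw [eval_map, eval₂_hom, MulSemiringAction.eval_charpoly, map_zero]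
  rw [e, MulSemiringAction.charpoly_eq, Polynomial.map_prod, eval_prod,
    Finset.prod_eq_zero_iff] at h1
  obtain ⟨g, -, hg⟩ := h1
  exact ⟨g, by simpa [sub_eq_zero] using hg⟩

/-- Two maps to a domain that agree on the invariants are conjugate. -/
theorem all {B Ω : Type} (G : Type) [CommRing B] [CommRing Ω] [IsDomain Ω] [Group G] [Finite G]
    [MulSemiringAction G B] (φ ψ : B →+* Ω) (h : ∀ b, (∀ g : G, g • b = b) → ψ b = φ b) :
    ∃ g : G, ∀ b, ψ b = φ (g • b) := by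
  classical
  by_contra hn
  push Not at hn
  choose b hb using hn
  cases nonempty_fintype G
  let i : G → ℕ := fun g => (Fintype.equivFin G g : ℕ)
  have hi : Function.Injective i := fun g g' e => (Fintype.equivFin G).injective (Fin.ext e)
  have hc : ∀ g, (∑ g', monomial (i g') (b g')).coeff (i g) = b g := fun g => by
    rw [finsetSum_coeff, Finset.sum_eq_single g (fun g' _ hg => by
      rw [coeff_monomial, if_neg fun e => hg (hi e)]) (by simp), coeff_monomial, if_pos rfl]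
  obtain ⟨g, hg⟩ := one G (mapRingHom φ) (mapRingHom ψ) (fun p hp => Polynomial.ext fun n => by
    rw [coe_mapRingHom, coe_mapRingHom, coeff_map, coeff_map]
    exact h _ fun g => by rw [← coeff_smul, hp]) (∑ g', monomial (i g') (b g'))
  have := congrArg (fun p => coeff p (i g)) hg
  simp only [coe_mapRingHom, coeff_map, coeff_smul, hc] at this
  exact hb g this

theorem exists_over {L' L : Type} [Field L'] [Field L] (f : L' →+* L) (W' : ValuationSubring L') :
    ∃ W : ValuationSubring L, W.comap f = W' := by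
  obtain ⟨W, h, hl⟩ := IsLocalRing.exists_factor_valuationRing (f.comp W'.subtype)
  refine ⟨W, SetLike.ext fun z => ⟨fun hz => by_contra fun hn => ?_, fun hz => h ⟨z, hz⟩⟩⟩
  have h0 : z ≠ 0 := fun e => hn (e ▸ W'.zero_mem)
  have h1 := (W'.mem_or_inv_mem z).resolve_left hn
  obtain ⟨u, hu⟩ := isUnit_iff_exists_inv.1 (hl.1 ⟨z⁻¹, h1⟩ (isUnit_iff_exists_inv.2
    ⟨⟨f z, hz⟩, Subtype.ext (by
      change f z⁻¹ * f z = 1
      rw [← map_mul, inv_mul_cancel₀ h0, map_one])⟩))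
  have h2 : z⁻¹ * (u : L') = 1 := congrArg Subtype.val hu
  rw [inv_mul_eq_one₀ h0] at h2
  exact hn (h2 ▸ u.2)

end Inl

theorem inl : InlStmt := by
  intro K L' L _ _ _ _ _ _ _ _ _ W' g' hg'
  obtain ⟨W, rfl⟩ := Inl.exists_over (algebraMap L' L) W'
  let B : Subring L :=
    { carrier := {s | ∀ g : L ≃ₐ[K] L, g • s ∈ W}
      mul_mem' := fun ha hb g => by rw [smul_mul']; exact mul_mem (ha g) (hb g)
      one_mem' := fun g => by rw [smul_one]; exact one_mem _
      add_mem' := fun ha hb g => by rw [smul_add]; exact add_mem (ha g) (hb g)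
      zero_mem' := fun g => by rw [smul_zero]; exact zero_mem _
      neg_mem' := fun ha g => by rw [smul_neg]; exact neg_mem (ha g) }
  have : IsInvariantSubring (L ≃ₐ[K] L) B := ⟨fun m x hx g => by rw [← mul_smul]; exact hx _⟩
  let φ : B →+* IsLocalRing.ResidueField W := (IsLocalRing.residue W).comp
    (B.subtype.codRestrict W fun s => by simpa using s.2 1)
  have hφ : ∀ a b : B, φ a = φ b ↔ W.valuation ((a : L) - b) < 1 := fun a b => by
    rw [← sub_eq_zero, ← map_sub]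
    exact (IsLocalRing.residue_eq_zero_iff _).trans (W.valuation_lt_one_iff _)
  let E := (IsScalarTower.toAlgHom K L' L).fieldRange
  let g₀ : L ≃ₐ[K] L := g'.liftNormal L
  have h0 : ∀ z, g₀ (algebraMap L' L z) = algebraMap L' L (g' z) := g'.liftNormal_commutes L
  obtain ⟨h, hh⟩ := Inl.all E.fixingSubgroup φ
    (φ.comp (MulSemiringAction.toRingHom _ B g₀)) fun b hb => by
      have h1 : (b : L) ∈ E := by
        rw [← IsGalois.fixedField_fixingSubgroup E, IntermediateField.mem_fixedField_iff]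
        exact fun f hf => congrArg Subtype.val (hb ⟨f, hf⟩)
      obtain ⟨z, hz⟩ := h1
      have hz' : algebraMap L' L z = b := hz
      have h2 := hg' z (by
        rw [ValuationSubring.mem_comap, hz']
        simpa using b.2 1)
      refine (hφ _ _).2 ?_
      change W.valuation (g₀ (b : L) - b) < 1
      rw [← hz', h0, ← map_sub]
      rw [← ValuationSubring.mem_nonunits_iff, ValuationSubring.mem_nonunits_iff_or] at h2 ⊢
      rwa [← map_inv₀, map_eq_zero]
  refine ⟨W, g₀ * h.1⁻¹, rfl, in_of_core W _ fun s hs => ?_, fun z => ?_⟩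
  · have h1 := hh (h⁻¹ • (⟨s, hs⟩ : B))
    rw [smul_inv_smul] at h1
    exact (hφ _ _).1 h1
  · rw [AlgEquiv.mul_apply, (IntermediateField.mem_fixingSubgroup_iff E _).1 (inv_mem h.2)
      (algebraMap L' L z) ⟨z, rfl⟩, h0]

end Pool.Agent.MP_e8e0b6_ag.R2.C

end Part2

section Part3

-- part 3: C Nor

/-!
The normalization of a simply connected scheme in an unramified extension.
-/

set_option autoImplicit false

open AlgebraicGeometry CategoryTheory

namespace Pool.Agent.MP_e8e0b6_ag.R2.C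

open Pool.Agent.MP_79c67d_ag Pool.Agent.MP_20d318_ag Pool.Agent.MP_20d318_ag.AG
  Pool.Agent.MP_20d318_ag.BV Pool.Agent.MP_20d318_ag.CB
open Pool.Agent.MP_19ffc6_ag.Res (Fix Dv In)

namespace Nor

/-- Integral closures of isomorphic extensions are isomorphic. -/
theorem exists_equiv {R T A L : Type} [CommRing R] [CommRing T] [CommRing A] [CommRing L]
    [Algebra R T] [Algebra A L] (α : R ≃+* A) (β : T ≃+* L)
    (h : ∀ r, β (algebraMap R T r) = algebraMap A L (α r)) :
    ∃ γ : integralClosure R T ≃+* integralClosure A L,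
      ∀ r, γ (algebraMap R _ r) = algebraMap A _ (α r) := by
  have h' : ∀ a, β.symm (algebraMap A L a) = algebraMap R T (α.symm a) := fun a => by
    rw [β.symm_apply_eq, h, α.apply_symm_apply]
  refine ⟨{ toFun := fun x => ⟨β x, IsIntegral.map_of_comp_eq (α : R →+* A) (β : T →+* L)
              (RingHom.ext fun r => (h r).symm) x.2⟩
            invFun := fun x => ⟨β.symm x, IsIntegral.map_of_comp_eq (α.symm : A →+* R)
              (β.symm : L →+* T) (RingHom.ext fun r => (h' r).symm) x.2⟩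
            left_inv := fun x => Subtype.ext (β.symm_apply_apply _)
            right_inv := fun x => Subtype.ext (β.apply_symm_apply _)
            map_mul' := fun x y => Subtype.ext (map_mul β _ _)
            map_add' := fun x y => Subtype.ext (map_add β _ _) }, fun r => Subtype.ext (h r)⟩

set_option backward.isDefEq.respectTransparency false in
/-- The normalization over an affine open set. -/
theorem restrict_iff {X Y : Scheme.{0}} (f : X ⟶ Y) [QuasiCompact f] [QuasiSeparated f]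
    (P : MorphismProperty Scheme.{0}) [P.RespectsIso] {U : Y.Opens} (hU : IsAffineOpen U) :
    P (f.fromNormalization ∣_ U) ↔ P (Spec.map (f.normalizationDiagramMap.app (.op U))) := by
  let e := IsOpenImmersion.isoOfRangeEq (f.fromNormalization ⁻¹ᵁ U).ι
    (f.normalizationOpenCover.f ⟨U, hU⟩)
      (by simpa using congr($(f.fromNormalization_preimage ⟨U, hU⟩).1))
  have key : (e.inv ≫ f.fromNormalization ∣_ U) ≫ hU.isoSpec.hom =
      Spec.map (f.normalizationDiagramMap.app (.op U)) := by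
    rw [← cancel_mono hU.fromSpec]
    refine Eq.trans ?_ (f.ι_fromNormalization ⟨U, hU⟩)
    simp [IsAffineOpen.isoSpec_hom, e]
  rw [← key, P.cancel_right_of_respectsIso, P.cancel_left_of_respectsIso]

/-- The sections over a chart. -/
theorem chart {A L : Type} [CommRing A] [CommRing L] {S : Scheme.{0}} (φ : A →+* L)
    (j : Spec (.of A) ⟶ S) [IsOpenImmersion j] :
    ∃ (α : Γ(S, j ''ᵁ ⊤) ≅ .of A) (β : Γ(Spec (.of L), (sp φ ≫ j) ⁻¹ᵁ j ''ᵁ ⊤) ≅ .of L),
      (sp φ ≫ j).app (j ''ᵁ ⊤) ≫ β.hom = α.hom ≫ CommRingCat.ofHom φ := by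
  have h : (⊤ : (Spec (.of L)).Opens) = (sp φ ≫ j) ⁻¹ᵁ j ''ᵁ ⊤ := by
    rw [Scheme.Hom.comp_preimage, Scheme.Hom.preimage_image_eq]
    rfl
  refine ⟨j.appIso ⊤ ≪≫ Scheme.ΓSpecIso _,
    (Spec (.of L)).presheaf.mapIso (eqToIso h).op ≪≫ Scheme.ΓSpecIso _, ?_⟩
  simp only [Iso.trans_hom, Category.assoc, Functor.mapIso_hom, Iso.op_hom, eqToIso.hom]
  rw [← Scheme.ΓSpecIso_naturality, Scheme.Hom.appIso_hom', ← Category.assoc, ← Category.assoc]
  congr 1

set_option backward.isDefEq.respectTransparency false in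
/-- The normalization over a chart. -/
theorem key {A L : Type} [CommRing A] [Field L] [Algebra A L] {S : Scheme.{0}}
    (q : Spec (.of L) ⟶ S) (j : Spec (.of A) ⟶ S) [IsOpenImmersion j]
    (h : sp (algebraMap A L) ≫ j = q) (P : MorphismProperty Scheme.{0}) [P.RespectsIso] :
    P (q.fromNormalization ∣_ (j ''ᵁ ⊤)) ↔ P (sp (algebraMap A (integralClosure A L))) := by
  subst h
  rw [restrict_iff _ P ((isAffineOpen_top _).image_of_isOpenImmersion j)]
  obtain ⟨α, β, e⟩ := chart (algebraMap A L) j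
  let := ((sp (algebraMap A L) ≫ j).app (j ''ᵁ ⊤)).hom.toAlgebra
  obtain ⟨γ, hγ⟩ := exists_equiv α.commRingCatIsoToRingEquiv β.commRingCatIsoToRingEquiv
    fun r => congrArg (fun g => g.hom r) e
  have e2 : (sp (algebraMap A L) ≫ j).normalizationDiagramMap.app (.op (j ''ᵁ ⊤)) ≫
      γ.toCommRingCatIso.hom =
        α.hom ≫ CommRingCat.ofHom (algebraMap A (integralClosure A L)) :=
    CommRingCat.hom_ext (RingHom.ext hγ)
  have e3 := congrArg Spec.map e2
  rw [Spec.map_comp, Spec.map_comp] at e3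
  rw [← P.cancel_left_of_respectsIso (Spec.map γ.toCommRingCatIso.hom), e3,
    P.cancel_right_of_respectsIso]

end Nor

theorem nor : NorStmt := by
  intro L _ S q hS hc A _ _ j hj hq z hz
  have hm : ∀ {A : Type} [CommRing A] (j : Spec (.of A) ⟶ S) [IsOpenImmersion j] (x : S),
      x ∈ Set.range j → x ∈ j ''ᵁ ⊤ := by
    rintro A _ j _ _ ⟨y, rfl⟩
    exact ⟨y, trivial, rfl⟩
  have h1 : IsFinite q.fromNormalization := by
    refine IsZariskiLocalAtTarget.of_forall_exists_morphismRestrict (P := @IsFinite) fun x => ?_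
    obtain ⟨B, _, _, i, hi, hx, e, hf, -⟩ := hc x
    exact ⟨_, hm i x hx, (Nor.key q i e @IsFinite).2
      ((IsFinite.SpecMap_iff _).2 (RingHom.finite_algebraMap.2 hf))⟩
  have h2 : Etale q.fromNormalization := by
    refine IsZariskiLocalAtTarget.of_forall_exists_morphismRestrict (P := @Etale) fun x => ?_
    obtain ⟨B, _, _, i, hi, hx, e, -, hf⟩ := hc x
    exact ⟨_, hm i x hx, (Nor.key q i e @Etale).2
      ((HasRingHomProperty.Spec_iff (P := @Etale)).2 (RingHom.etale_algebraMap.2 hf))⟩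
  have h3 := hS _ _ h1 h2 inferInstance
  have h4 : IsIso (sp (algebraMap A (integralClosure A L))) :=
    (Nor.key q j hq (.isomorphisms _)).1
      (inferInstanceAs (IsIso (q.fromNormalization ∣_ (j ''ᵁ ⊤))))
  obtain ⟨a, ha⟩ := (isIso_SpecMap_iff.1 h4).2 ⟨z, hz⟩
  exact ⟨a, congrArg Subtype.val ha⟩

end Pool.Agent.MP_e8e0b6_ag.R2.C

end Part3

section Part4

-- part 4: C One

/-!
Row ONE: automorphisms over a field of definition act trivially on classes.
-/

set_option autoImplicit false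

namespace Pool.Agent.MP_e8e0b6_ag.R2.C

open Pool.Agent.MP_79c67d_ag Pool.Agent.MP_20d318_ag Pool.Agent.MP_20d318_ag.AG
  Pool.Agent.MP_20d318_ag.BV Pool.Agent.MP_20d318_ag.CB

namespace One

theorem tr {Ω E : Type} [Field Ω] [Field E] [Algebra Ω E] {τ : E ≃+* E} {O O' : Subalgebra Ω E}
    (h : ∀ a, a ∈ O' ↔ τ a ∈ O) {S : Set E} {g : E} (hg : Gn S O' g) : Gn (τ '' S) O (τ g) := by
  obtain ⟨h1, a, ha, h2⟩ := hg
  refine ⟨?_, τ a, ⟨a, ha, rfl⟩, ?_⟩
  · rintro _ ⟨b, hb, rfl⟩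
    rw [← map_div₀]
    exact (h _).1 (h1 b hb)
  · rw [← map_div₀]
    refine ⟨(map_ne_zero _).2 h2.1, (h _).1 h2.2.1, ?_⟩
    rw [← map_inv₀]
    exact (h _).1 h2.2.2

end One

theorem one : OneStmt := by
  intro tw k F Ω E J _ _ _ _ _ _ _ _ μ H₀ S' τ hS hT hR hP hH hμ U' c _ hc
  obtain ⟨φ, h0, hφ⟩ := hc
  obtain ⟨U, V, c₁, c₂, -, -, ⟨φ₁, n1, h1⟩, ⟨φ₂, n2, h2⟩, rfl⟩ := hR c
  have fx : ∀ W : Set F, τ '' (μ '' W) = μ '' W := fun W => by
    rw [Set.image_image]
    exact Set.image_congr fun z _ => hμ z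
  have p0 : τ (φ * φ₂ / φ₁) ≠ 0 := (map_ne_zero _).2 (div_ne_zero (mul_ne_zero h0 n2) n1)
  refine ⟨τ (φ * φ₂ / φ₁) * φ₁ / φ₂, div_ne_zero (mul_ne_zero p0 n1) n2, fun O hO => ?_⟩
  obtain ⟨O', hO', ht⟩ := tw Ω E H₀ τ hP hH O (hT ▸ hO)
  rw [← hT] at hO'
  have g0 := One.tr ht (hφ O' hO')
  have g1 := One.tr ht (h1 O' hO')
  have g2 := One.tr ht (h2 O' hO')
  rw [fx] at g1 g2
  have u := ((h1 O hO).unit g1).mul (g2.unit (h2 O hO))
  have l1 := S'.lb_ne (hS.a1.gne O hO) c₁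
  have l2 := S'.lb_ne (hS.a1.gne O hO) c₂
  have m1 := S'.lb_ne (hS.a1.gne O' hO') c₁
  have m2 := S'.lb_ne (hS.a1.gne O' hO') c₂
  have e : φ * (S'.lb (c₁ - c₂) O')⁻¹ =
      φ * φ₂ / φ₁ * (φ₁ * (S'.lb c₁ O')⁻¹ / (φ₂ * (S'.lb c₂ O')⁻¹)) := by
    rw [S'.lb_sub (hS.a1.gne O' hO')]
    field_simp
  refine g0.of_unit ?_
  have t1 := g1.ne
  have t2 := g2.ne
  rw [e, map_mul, map_div₀ τ (φ₁ * _), S'.lb_sub (hS.a1.gne O hO)]
  generalize τ (φ * φ₂ / φ₁) = ψ at p0 ⊢
  generalize τ (φ₁ * (S'.lb c₁ O')⁻¹) = a₁ at t1 u ⊢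
  generalize τ (φ₂ * (S'.lb c₂ O')⁻¹) = a₂ at t2 u ⊢
  have e2 : ψ * φ₁ / φ₂ * (S'.lb c₁ O / S'.lb c₂ O)⁻¹ / (ψ * (a₁ / a₂)) =
      φ₁ * (S'.lb c₁ O)⁻¹ / a₁ * (a₂ / (φ₂ * (S'.lb c₂ O)⁻¹)) := by
    field_simp
  rw [e2]
  exact u

end Pool.Agent.MP_e8e0b6_ag.R2.C

end Part4

section Part5

-- part 5: C Pt

/-!
An inertia element fixes a smooth rational point.
-/

set_option autoImplicit false

namespace Pool.Agent.MP_e8e0b6_ag.R2.C

open Pool.Agent.MP_79c67d_ag Pool.Agent.MP_20d318_ag Pool.Agent.MP_20d318_ag.AG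
  Pool.Agent.MP_20d318_ag.BV Pool.Agent.MP_20d318_ag.CB
open Pool.Agent.MP_19ffc6_ag.Res (Fix Dv In)

namespace Pt

variable {k L : Type} [Field k] [Field L] [Algebra k L]

/-- A rational point in the closure of a point, outside a hypersurface. -/
theorem exists_rat [IsAlgClosed k] {B D : Subalgebra k L} [Algebra.FiniteType k B]
    (hD : D ∈ Pts B) {f : L} (hf : f ∈ B) (hu : IsU D f) :
    ∃ O ∈ Pts B, RatPt O ∧ IsU O f ∧ ∀ b ∈ B, b ∈ mx D → b ∈ mx O := by
  have := hD.1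
  have : IsJacobsonRing B := isJacobsonRing_of_finiteType (A := k)
  let q : Ideal B := (IsLocalRing.maximalIdeal D).comap (Subalgebra.inclusion hD.2.1)
  have hq : ∀ b : B, b ∈ q ↔ (b : L) ∈ mx D := fun b =>
    (mem_mx_iff (Subalgebra.inclusion hD.2.1 b)).symm
  have hj : q.jacobson = q := IsJacobsonRing.out inferInstance
    (Ideal.IsPrime.isRadical (Ideal.comap_isPrime _ _))
  have h1 : (⟨f, hf⟩ : B) ∉ q.jacobson := by
    rw [hj, hq]
    exact hu.not_mx
  obtain ⟨m, ⟨hle, hm⟩, hfm⟩ : ∃ m : Ideal B, (q ≤ m ∧ m.IsMaximal) ∧ (⟨f, hf⟩ : B) ∉ m := by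
    by_contra hn
    exact h1 (Ideal.mem_sInf.2 fun {m} hm => by_contra fun h => hn ⟨m, hm, h⟩)
  obtain ⟨O, hO, hU⟩ := exists_loc B {x | ∃ h : x ∈ B, (⟨x, h⟩ : B) ∈ m} ⟨B.zero_mem, m.zero_mem⟩
    (fun ⟨_, h⟩ => hm.ne_top ((Ideal.eq_top_iff_one _).2 h))
    (fun a ha b hb ⟨_, h1⟩ ⟨_, h2⟩ => ⟨B.add_mem ha hb, m.add_mem h1 h2⟩)
    (fun a ha b hb => ⟨fun ⟨_, h1⟩ => (hm.isPrime.mem_or_mem (x := ⟨a, ha⟩) (y := ⟨b, hb⟩) h1).imp
      (fun h => ⟨ha, h⟩) fun h => ⟨hb, h⟩, fun h1 => ⟨B.mul_mem ha hb, h1.elim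
        (fun ⟨_, h⟩ => m.mul_mem_right (⟨b, hb⟩ : B) h) fun ⟨_, h⟩ =>
          m.mul_mem_left (⟨a, ha⟩ : B) h⟩⟩)
  have hmx : ∀ b : B, b ∈ m → (b : L) ∈ mx O := fun b hb =>
    ⟨hO.2.1 b.2, fun h => (hU b b.2).1 h ⟨b.2, hb⟩⟩
  refine ⟨O, hO, ratPt_of hO (Algebra.adjoin_eq B).symm fun g hg => ?_,
    (hU f hf).2 fun ⟨_, h⟩ => hfm h, fun b hb h => hmx ⟨b, hb⟩ (hle ((hq _).2 h))⟩
  let := Ideal.Quotient.field m
  have : Module.Finite k (B ⧸ m) := finite_of_finite_type_of_isJacobsonRing k (B ⧸ m)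
  obtain ⟨c, hc⟩ := (IsAlgClosed.algebraMap_bijective_of_isIntegral (k := k) (K := B ⧸ m)).2
    (Ideal.Quotient.mk m ⟨g, hg⟩)
  exact ⟨c, hmx (⟨g, hg⟩ - algebraMap k B c) (Ideal.Quotient.eq.1 hc.symm)⟩

theorem map_mem {B O : Subalgebra k L} (hO : O ∈ Pts B) (σ : L →+* L) (h1 : ∀ b ∈ B, σ b ∈ B)
    (h2 : ∀ b ∈ B, IsU O b → IsU O (σ b)) {a : L} (ha : a ∈ O) : σ a ∈ O := by
  obtain ⟨p, hp, q, hq, hu, rfl⟩ := hO.2.2 a ha
  rw [map_div₀]
  exact (h2 q hq hu).div_mem (hO.2.1 (h1 p hp))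

end Pt

theorem pt : PtStmt := by
  intro dvr smo k K L _ _ _ _ _ _ _ _ _ _ _ R W γ hF hT hN hD hI
  have : CharZero K := charZero_of_injective_algebraMap (algebraMap k K).injective
  have : IsFractionRing R K := IsFractionRing.of_field R K fun z => by
    obtain ⟨a, ha, b, hb, -, e⟩ := hF z
    exact ⟨⟨a, ha⟩, ⟨b, hb⟩, e⟩
  have : IsNoetherianRing R := Algebra.FiniteType.isNoetherianRing k R
  have h1 : Module.Finite R (integralClosure R L) := IsIntegralClosure.finite R K L _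
  have h2 : Algebra.FiniteType k (integralClosure R L) :=
    Algebra.FiniteType.trans hT inferInstance
  have h3 : IsFractionRing (integralClosure R L) L :=
    integralClosure.isFractionRing_of_finite_extension K L
  obtain ⟨B, hB⟩ : ∃ B : Subalgebra k L, B = (integralClosure R L).restrictScalars k := ⟨_, rfl⟩
  have hm : ∀ z, z ∈ B ↔ IsIntegral R z := fun z => by rw [hB]; rfl
  have h4 : Algebra.FiniteType k B := by rw [hB]; exact h2
  have h5 : Frac B := fun z => by
    obtain ⟨a, b, hb, e⟩ := IsFractionRing.div_surjective (integralClosure R L) z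
    exact ⟨a, (hm _).2 a.2, b, (hm _).2 b.2, fun h => nonZeroDivisors.ne_zero hb (Subtype.ext h),
      e.symm⟩
  have h6 : ∀ z : L, z ∈ B ↔ IsIntegral (R.map (IsScalarTower.toAlgHom k K L)) z := fun z =>
    (hm z).trans (RingEquiv.isIntegral_iff (R.equivMapOfInjective (IsScalarTower.toAlgHom k K L)
      (algebraMap K L).injective).toRingEquiv (RingHom.ext fun _ => rfl) z)
  obtain ⟨D, hD1, hU, ϖ, hϖ, h0, hd⟩ := dvr k L (L ≃ₐ[K] L) _ B W
    (Algebra.FiniteType.isNoetherianRing k B) h5 h6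
    (by rintro _ ⟨r, -, rfl⟩ g; exact g.commutes r) hD
  obtain ⟨f, hf, hfu, hsm⟩ := smo k L B D ϖ h4 hD1 hϖ h0 hd
  obtain ⟨O, hO, hr, hOf, hmx⟩ := Pt.exists_rat hD1 hf hfu
  have hW : ∀ b ∈ B, b ∈ W := by
    intro b hb
    rcases isU_or_mx (hD1.2.1 hb) with h | h
    · exact (W.valuation_le_one_iff b).1 ((hU b hb).1 h).le
    · have := (W.valuation_le_one_iff _).1
        ((hU _ (B.add_mem B.one_mem hb)).1 (isU_one.add_mx hD1.1 h)).le
      simpa using W.toSubring.sub_mem this W.one_mem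
  have hσ : ∀ σ : L ≃ₐ[K] L, ∀ b ∈ B, σ b ∈ B := fun σ b hb =>
    (hm _).2 (((hm b).1 hb).map (σ.restrictScalars R : L →ₐ[R] L))
  have hγ : ∀ b ∈ B, γ b - b ∈ mx O := fun b hb => by
    have hb' := B.sub_mem (hσ γ b hb) hb
    exact hmx _ hb' ⟨hD1.2.1 hb', fun h => (hI b (hW b hb)).ne ((hU _ hb').1 h)⟩
  refine ⟨B ⊔ Algebra.adjoin k {f⁻¹}, O, le_trans (fun z hz => (h6 z).2
    (isIntegral_algebraMap (x := (⟨z, hz⟩ : R.map (IsScalarTower.toAlgHom k K L))))) le_sup_left,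
    hsm, fun z => ?_, Pts_of_le hO le_sup_left (sup_le hO.2.1 (Algebra.adjoin_le ?_)), hr,
    fun a => ⟨fun ha => ?_, fun ha => ?_⟩⟩
  · obtain ⟨a, ha, b, hb, h⟩ := h5 z
    have hle : B ≤ B ⊔ Algebra.adjoin k {f⁻¹} := le_sup_left
    exact ⟨a, hle ha, b, hle hb, h⟩
  · rintro _ rfl
    exact hOf.inv_mem
  · refine Pt.map_mem hO (γ : L →+* L) (hσ γ) (fun b hb hu => ?_) ha
    have := hu.add_mx hO.1 (hγ b hb)
    rwa [add_sub_cancel] at this
  · have := Pt.map_mem hO (γ.symm : L →+* L) (hσ γ.symm) (fun b hb hu => by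
      have h := hu.add_mx hO.1 (mx_neg (hγ _ (hσ γ.symm b hb)))
      rwa [γ.apply_symm_apply, neg_sub, add_sub_cancel] at h) ha
    exact (γ.symm_apply_apply a) ▸ this

end Pool.Agent.MP_e8e0b6_ag.R2.C

end Part5

section Part6

-- part 6: C Pur

/-!
The Galois group is generated by divisorial inertia.
-/

set_option autoImplicit false

open AlgebraicGeometry CategoryTheory

namespace Pool.Agent.MP_e8e0b6_ag.R2.C

open Pool.Agent.MP_79c67d_ag Pool.Agent.MP_20d318_ag Pool.Agent.MP_20d318_ag.AG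
  Pool.Agent.MP_20d318_ag.BV Pool.Agent.MP_20d318_ag.CB
open Pool.Agent.MP_19ffc6_ag.Res (Fix Dv In val_le_iff val_conj)

namespace PurA

variable {K L' L : Type} [Field K] [Field L'] [Field L] [Algebra K L'] [Algebra L' L] [Algebra K L]

theorem in_conj {G : Type} [Group G] [MulSemiringAction G L] {W W₁ : ValuationSubring L} {γ b : G}
    (h : In W γ) (e : ∀ z, z ∈ W₁ ↔ b⁻¹ • z ∈ W) : In W₁ (b * γ * b⁻¹) := fun z hz => by
  have h1 := h _ ((e z).1 hz)
  have h2 := val_conj e 1 ((b * γ * b⁻¹) • z - z)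
  rw [smul_one, map_one, map_one, smul_sub, mul_smul, mul_smul, inv_smul_smul] at h2
  rwa [mul_smul, mul_smul, ← not_le, h2, not_le]

theorem val_up (W : ValuationSubring L) (a b : L') :
    (W.comap (algebraMap L' L)).valuation a ≤ (W.comap (algebraMap L' L)).valuation b ↔
      W.valuation (algebraMap L' L a) ≤ W.valuation (algebraMap L' L b) := by
  by_cases hb : b = 0
  · simp [hb]
  · rw [val_le_iff _ _ hb, val_le_iff _ _ ((map_ne_zero _).2 hb), ← map_div₀]
    rfl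

variable [IsScalarTower K L' L] [FiniteDimensional K L] [IsGalois K L]

theorem dv_up {R : Subring L'} {W : ValuationSubring L}
    (h : Dv (L' ≃ₐ[K] L') R (W.comap (algebraMap L' L))) :
    Dv (L ≃ₐ[K] L) (R.map (algebraMap L' L)) W := by
  have he : ∀ a b, (W.comap (algebraMap L' L)).valuation a =
      (W.comap (algebraMap L' L)).valuation b →
        W.valuation (algebraMap L' L a) = W.valuation (algebraMap L' L b) := fun a b e =>
    le_antisymm ((val_up W a b).1 e.le) ((val_up W b a).1 e.ge)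
  refine ⟨?_, fun z hz hf => ?_, ?_⟩
  · rintro _ ⟨r, hr, rfl⟩
    exact h.le r hr
  · obtain ⟨c, rfl⟩ := (IsGalois.mem_range_algebraMap_iff_fixed (F := K) z).2 hf
    rw [IsScalarTower.algebraMap_apply K L' L] at hz ⊢
    obtain ⟨u, u1, u2, u3⟩ := h.loc _ hz fun g => g.commutes c
    exact ⟨_, ⟨u, u1, rfl⟩, by simpa using he u 1 (by rw [u2, map_one]), _, u3, map_mul _ _ _⟩
  · obtain ⟨π, p1, p2, p3, p4⟩ := h.unif
    refine ⟨_, ⟨π, p1, rfl⟩, (map_ne_zero _).2 p2, ?_, ?_⟩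
    · have := val_up W 1 π
      rw [map_one, map_one, map_one] at this
      rwa [← not_le, ← this, not_le]
    · rintro _ ⟨r, hr, rfl⟩ h0
      refine (p4 r hr ((map_ne_zero _).1 h0)).imp fun n hn => ?_
      rw [← map_pow, ← map_pow]
      exact he _ _ (by rw [hn, map_pow])

theorem core (h1 : Chs) (h2 : NorStmt) (h3 : Aje) (h4 : InlStmt) {k A : Type} [Field k]
    [CharZero k] [IsAlgClosed k] [Algebra k K] [Algebra k L] [IsScalarTower k K L] [Algebra k L']
    [IsScalarTower k K L'] [IsGalois K L'] [CommRing A] [Algebra k A] {S : Scheme.{0}}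
    {f : S ⟶ Spec (.of k)} {q : Spec (.of K) ⟶ S} {g : A →ₐ[k] K} {j : Spec (.of A) ⟶ S}
    {N : Subgroup (L ≃ₐ[K] L)} (hf : SmoothVariety f) (hS : SimplyConnected S)
    (hq : q ≫ f = sp (algebraMap k K)) (hc : Ct q g j)
    (hN : ∀ (A' : Type) [CommRing A'] [Algebra k A'] (g' : A' →ₐ[k] K) (j' : Spec (.of A') ⟶ S),
      Ct q g' j' → Co k A' → ∀ W, Dv (L ≃ₐ[K] L)
        (g'.range.map (IsScalarTower.toAlgHom k K L)).toSubring W → ∀ γ, In W γ → γ ∈ N)
    (hL : ∀ γ ∈ N.normalCore, ∀ z, γ (algebraMap L' L z) = algebraMap L' L z) (z : L') :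
    z ∈ Set.range (algebraMap K L') := by
  have : FiniteDimensional K L' := FiniteDimensional.left K L' L
  let _ : Algebra A K := (g : A →+* K).toAlgebra
  let _ : Algebra A L' := ((algebraMap K L').comp (g : A →+* K)).toAlgebra
  have : IsScalarTower A K L' := .of_algebraMap_eq fun _ => rfl
  have : IsDomain A := hc.inj.isDomain (g : A →+* K)
  have : FaithfulSMul A K := (faithfulSMul_iff_algebraMap_injective A K).2 hc.inj
  have : IsFractionRing A K := .of_field A K fun c => by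
    obtain ⟨_, ⟨a, rfl⟩, _, ⟨b, rfl⟩, -, e⟩ := hc.frac c
    exact ⟨a, b, e⟩
  obtain ⟨y, hy, hi⟩ := ((IsFractionRing.isAlgebraic_iff A K L').2
    (Algebra.IsAlgebraic.isAlgebraic z)).exists_integral_multiple
  obtain ⟨a, ha⟩ := h2 L' S (sp (algebraMap K L') ≫ q) hS (fun x => by
    obtain ⟨A', _, _, g', j', c1, c2, c3⟩ := h1 k K A S f q g j hf hq hc x
    let _ : Algebra A' L' := ((algebraMap K L').comp (g' : A' →+* K)).toAlgebra
    have e : ∀ r, algebraMap A' L' r = algebraMap K L' (g' r) := fun _ => rfl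
    have : IsScalarTower k A' L' := .of_algebraMap_eq fun c => by
      rw [e, g'.commutes, IsScalarTower.algebraMap_apply k K L']
    refine ⟨A', _, _, j', c1.opn, c3, by rw [← c1.eq, sp_comp_assoc],
      h3 k A' L' (L' ≃ₐ[K] L') c2 ((algebraMap K L').injective.comp c1.inj)
        (fun r σ => σ.commutes _) (fun w hw => ?_) fun W' hW σ hσ => ?_⟩
    · obtain ⟨c, rfl⟩ := (IsGalois.mem_range_algebraMap_iff_fixed (F := K) w).2 hw
      obtain ⟨_, ⟨a, rfl⟩, _, ⟨b, rfl⟩, hb, rfl⟩ := c1.frac c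
      exact ⟨a, b, fun h0 => hb (by rw [h0, map_zero]), by
        rw [e, e, ← map_mul]; exact congrArg _ (mul_div_cancel₀ _ hb)⟩
    · obtain ⟨W, γ, rfl, i1, i2⟩ := h4 K L' L W' σ hσ
      have e2 : (algebraMap A' L').range.map (algebraMap L' L) =
          (g'.range.map (IsScalarTower.toAlgHom k K L)).toSubring := by
        ext w
        constructor
        · rintro ⟨_, ⟨r, rfl⟩, rfl⟩
          exact ⟨_, ⟨r, rfl⟩, IsScalarTower.algebraMap_apply K L' L _⟩
        · rintro ⟨_, ⟨r, rfl⟩, rfl⟩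
          exact ⟨_, ⟨r, rfl⟩, (IsScalarTower.algebraMap_apply K L' L _).symm⟩
      have d := e2 ▸ dv_up (K := K) hW
      have hγ : γ ∈ N.normalCore := fun b => by
        obtain ⟨W₁, d1, d2⟩ := d.conj (by
          rintro _ ⟨c, -, rfl⟩ τ
          exact τ.commutes c) b⁻¹
        exact hN A' g' j' c1 c2 W₁ d1 _ (in_conj i1 d2)
      exact AlgEquiv.ext fun w => (algebraMap L' L).injective ((i2 w).symm.trans (hL γ hγ w)))
    A j hc.opn (by rw [← hc.eq, sp_comp_assoc]) _ hi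
  have h0 : algebraMap A L' y ≠ 0 := fun e =>
    hy (((algebraMap K L').injective.comp hc.inj) (e.trans (map_zero (algebraMap A L')).symm))
  refine ⟨g a / g y, ?_⟩
  rw [map_div₀]
  exact (div_eq_iff h0).2 (ha.trans ((Algebra.smul_def y z).trans (mul_comm _ _)))

end PurA

theorem pur : PurStmt := by
  intro h1 h2 h3 h4 k K L A _ _ _ _ _ _ _ _ _ _ _ _ _ S f q g j N hf hS hq hc hN
  have h5 := PurA.core (L' := IntermediateField.fixedField N.normalCore) h1 h2 h3 h4 hf hS hq hc hN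
    fun γ hγ z => (IntermediateField.mem_fixedField_iff _ _).1 z.2 γ hγ
  refine eq_top_iff.2 fun γ _ => N.normalCore_le ?_
  rw [← IntermediateField.fixingSubgroup_fixedField N.normalCore,
    IntermediateField.mem_fixingSubgroup_iff]
  intro z hz
  obtain ⟨c, hc⟩ := h5 ⟨z, hz⟩
  rw [show z = algebraMap K L c from (congrArg Subtype.val hc).symm]
  exact γ.commutes c

end Pool.Agent.MP_e8e0b6_ag.R2.C

end Part6

section Part7

-- part 7: C Rat

/-!
A finite set of constants over which all classes are defined.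
-/

set_option autoImplicit false

namespace Pool.Agent.MP_e8e0b6_ag.R2.C

open Pool.Agent.MP_79c67d_ag Pool.Agent.MP_20d318_ag Pool.Agent.MP_20d318_ag.AG
  Pool.Agent.MP_20d318_ag.BV Pool.Agent.MP_20d318_ag.CB

namespace Rat

variable {Ω E : Type} [Field Ω] [Field E] [Algebra Ω E] {H₀ : Set E}

/-- `f` is a rational function of finitely many constants and of `H₀`. -/
def Df (Ω : Type) [Field Ω] [Algebra Ω E] (H₀ : Set E) (f : E) : Prop :=
  ∃ Z : Set Ω, Z.Finite ∧ ∀ K : Subfield E, (∀ z ∈ Z, algebraMap Ω E z ∈ K) → H₀ ⊆ K → f ∈ K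

theorem Df.op {a b c : E} (ha : Df Ω H₀ a) (hb : Df Ω H₀ b)
    (h : ∀ K : Subfield E, a ∈ K → b ∈ K → c ∈ K) : Df Ω H₀ c := by
  obtain ⟨Z, hZ, h1⟩ := ha
  obtain ⟨Z', hZ', h2⟩ := hb
  exact ⟨Z ∪ Z', hZ.union hZ', fun K h3 h4 =>
    h K (h1 K (fun z hz => h3 z (Or.inl hz)) h4) (h2 K (fun z hz => h3 z (Or.inr hz)) h4)⟩

theorem df_all (h : (⊤ : Subalgebra Ω E) ∈ mp Ω fun _ : Unit => H₀) (f : E) : Df Ω H₀ f := by
  obtain ⟨j, hj, hP⟩ := h
  let T : Subalgebra Ω E :=
    { carrier := {f | Df Ω H₀ f}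
      mul_mem' := fun ha hb => Df.op ha hb fun _ => mul_mem
      add_mem' := fun ha hb => Df.op ha hb fun _ => add_mem
      algebraMap_mem' := fun c => ⟨{c}, Set.finite_singleton c, fun _ h _ => h c rfl⟩ }
  have hle : cht Ω (fun _ : Unit => H₀) j ≤ T := Algebra.adjoin_le fun x hx => by
    obtain ⟨l, a, ha, rfl⟩ := Set.mem_iUnion.1 hx
    exact ⟨∅, Set.finite_empty, fun K _ h => div_mem (h ha) (h (hj l))⟩
  obtain ⟨a, ha, b, hb, -, rfl⟩ := hP.2.2 f trivial
  exact Df.op (hle ha) (hle hb) fun _ => div_mem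

end Rat

theorem rat : RatStmt := by
  classical
  intro k Ω E J _ _ _ _ _ _ H₀ S' hS hT
  have htop : (⊤ : Subalgebra Ω E) ∈ mp Ω fun _ : Unit => H₀ := hT ▸ hS.a1.nice.top
  choose Zf hZf hK using Rat.df_all htop
  choose c' h1 h2 using fun i : J => hS.s.dif fun j => if i = j then (1 : ℤ) else 0
  choose V hV _ hV' using h1
  choose U hU _ hU' using h2
  refine ⟨⋃ i, ⋃ f ∈ U i ∪ V i, Zf f, Set.finite_iUnion fun i =>
    ((hU i).union (hV i)).biUnion fun f _ => hZf f, fun F _ _ μ h3 h4 => ?_⟩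
  have h5 : ∀ i, ∀ W ⊆ U i ∪ V i, μ '' (μ ⁻¹' W) = W := fun i W hW =>
    Set.image_preimage_eq_of_subset fun f hf => hK f (μ : F →+* E).fieldRange
      (fun z hz => h3 z (Set.mem_iUnion.2 ⟨i, Set.mem_biUnion (hW hf) hz⟩)) h4
  have hm : ∀ (U U' : Set F) c c', Cl S' (μ '' U) c → Cl S' (μ '' U') c' →
      Cl S' (μ '' Set.image2 (· * ·) U U') (c + c') := by
    rintro U U' c c' ⟨φ, h0, h⟩ ⟨φ', h0', h'⟩
    refine ⟨φ * φ', mul_ne_zero h0 h0', fun O hO => ?_⟩
    rw [Set.image_image2_distrib (map_mul μ), S'.lb_add (hS.a1.gne O hO), mul_inv,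
      mul_mul_mul_comm]
    exact gn_mul (h O hO) (h' O hO)
  have h6 : Cl S' (μ '' {1}) 0 := ⟨1, one_ne_zero, fun O _ => by
    rw [Set.image_singleton, map_one, S'.lb_zero, inv_one, mul_one]
    exact gn_of_mem rfl one_ne_zero (by simp)⟩
  let A : AddSubgroup (J → ℤ) :=
    { carrier := {c | ∃ (U V : Set F) (c₁ c₂ : J → ℤ), U.Finite ∧ V.Finite ∧ Cl S' (μ '' U) c₁ ∧
        Cl S' (μ '' V) c₂ ∧ c = c₁ - c₂}
      add_mem' := by
        rintro _ _ ⟨U, V, c₁, c₂, a1, a2, a3, a4, rfl⟩ ⟨U', V', c₁', c₂', b1, b2, b3, b4, rfl⟩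
        exact ⟨_, _, _, _, a1.image2 _ b1, a2.image2 _ b2, hm _ _ _ _ a3 b3, hm _ _ _ _ a4 b4,
          by abel⟩
      zero_mem' := ⟨_, _, _, _, Set.finite_singleton 1, Set.finite_singleton 1, h6, h6, by simp⟩
      neg_mem' := by
        rintro _ ⟨U, V, c₁, c₂, a1, a2, a3, a4, rfl⟩
        exact ⟨V, U, c₂, c₁, a2, a1, a4, a3, neg_sub _ _⟩ }
  intro c
  change c ∈ A
  rw [pi_eq_sum_univ c]
  refine sum_mem fun i _ => A.zsmul_mem ⟨μ ⁻¹' U i, μ ⁻¹' V i, _, c' i,
    (hU i).preimage μ.injective.injOn, (hV i).preimage μ.injective.injOn,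
    ⟨1, one_ne_zero, fun O hO => ?_⟩, ⟨1, one_ne_zero, fun O hO => ?_⟩,
    (add_sub_cancel_left _ _).symm⟩ _
  · rw [h5 i _ Set.subset_union_left, one_mul]
    exact hU' i O hO
  · rw [h5 i _ Set.subset_union_right, one_mul]
    exact hV' i O hO

end Pool.Agent.MP_e8e0b6_ag.R2.C

end Part7

section Part8

-- part 8: C Sm1

/-!
Discrete valuation rings essentially of finite type in characteristic zero are formally smooth.
-/

set_option autoImplicit false

namespace Pool.Agent.MP_e8e0b6_ag.R2.C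

open scoped TensorProduct Polynomial
open IsLocalRing

namespace Sm1

theorem aux {R D : Type} [CommRing R] [IsDedekindDomain R] [IsLocalRing R]
    [CommRing D] [IsDomain D] [IsLocalRing D] [Algebra R D] [IsLocalHom (algebraMap R D)]
    [FaithfulSMul R D] [Algebra.EssFiniteType R D] [PerfectField (ResidueField R)]
    (h : (maximalIdeal R).map (algebraMap R D) = maximalIdeal D) : Algebra.FormallySmooth R D := by
  have hF : IsField (ResidueField R ⊗[R] D) := by
    have h1 : IsField (D ⧸ (maximalIdeal R).map (algebraMap R D)) := by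
      rw [h]; exact Field.toIsField (ResidueField D)
    exact (Algebra.TensorProduct.quotIdealMapEquivQuotTensor D
      (maximalIdeal R)).symm.toMulEquiv.isField h1
  have : Algebra.FormallySmooth (ResidueField R) (ResidueField R ⊗[R] D) := by
    let _ := hF.toField
    exact Algebra.FormallySmooth.of_perfectField
  have : Algebra.FinitePresentation R (Algebra.EssFiniteType.subalgebra R D) :=
    Algebra.FinitePresentation.of_finiteType.1 inferInstance
  exact Algebra.FormallySmooth.of_formallySmooth_residueField_tensor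
    (Algebra.EssFiniteType.submonoid R D)

end Sm1

theorem sm1 : Sm1Stmt := by
  intro k D _ _ _ _ _ _ _ ϖ h0 hm
  have hϖ : ¬ IsUnit ϖ := (mem_maximalIdeal ϖ).1 (hm ▸ Ideal.mem_span_singleton_self ϖ)
  let φ : k[X] →+* D := (Polynomial.aeval ϖ : k[X] →ₐ[k] D)
  have hφ : Function.Injective φ := transcendental_iff_injective.1 fun h =>
    hϖ (h.isIntegral.isUnit h0)
  let p : Ideal k[X] := (maximalIdeal D).comap φ
  have hu : ∀ y : p.primeCompl, IsUnit (φ y) := fun y => by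
    by_contra hn
    exact y.2 ((mem_maximalIdeal _).2 hn)
  let _ : Algebra (Localization.AtPrime p) D := (IsLocalization.lift hu).toAlgebra
  have he : ∀ a, algebraMap (Localization.AtPrime p) D (algebraMap k[X] _ a) = φ a :=
    fun a => IsLocalization.lift_eq hu a
  have hk : ∀ (a : k[X]) (s : p.primeCompl), algebraMap (Localization.AtPrime p) D
      (IsLocalization.mk' _ a s) * φ s = φ a := fun a s => by
    rw [← he, ← map_mul, IsLocalization.mk'_spec, he]
  have : IsLocalHom (algebraMap (Localization.AtPrime p) D) := ⟨fun z hz => by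
    obtain ⟨a, s, rfl⟩ := IsLocalization.exists_mk'_eq p.primeCompl z
    refine (IsLocalization.AtPrime.isUnit_mk'_iff _ p a s).2 fun ha => ?_
    exact (mem_maximalIdeal _).1 ha (hk a s ▸ hz.mul (hu s))⟩
  have : FaithfulSMul (Localization.AtPrime p) D :=
    (faithfulSMul_iff_algebraMap_injective _ _).2 ((injective_iff_map_eq_zero _).2 fun z hz => by
      obtain ⟨a, s, rfl⟩ := IsLocalization.exists_mk'_eq p.primeCompl z
      have h1 := hk a s
      rw [hz, zero_mul, eq_comm, map_eq_zero_iff _ hφ] at h1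
      rw [h1, IsLocalization.mk'_zero])
  have : IsScalarTower k (Localization.AtPrime p) D := .of_algebraMap_eq fun c => by
    rw [IsScalarTower.algebraMap_apply k k[X] (Localization.AtPrime p), he]
    exact ((Polynomial.aeval ϖ).commutes c).symm
  have : Algebra.EssFiniteType (Localization.AtPrime p) D := .of_comp k _ _
  have : CharZero (ResidueField (Localization.AtPrime p)) :=
    charZero_of_injective_algebraMap (algebraMap k _).injective
  have hX : algebraMap (Localization.AtPrime p) D (algebraMap k[X] _ Polynomial.X) = ϖ :=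
    (he _).trans (Polynomial.aeval_X ϖ)
  have : Algebra.FormallySmooth (Localization.AtPrime p) D := Sm1.aux (le_antisymm
    (Ideal.map_le_iff_le_comap.2 fun z hz => map_nonunit _ z hz) (by
      refine hm.le.trans ((Ideal.span_singleton_le_iff_mem _).2 ?_)
      have h2 := Ideal.mem_map_of_mem (algebraMap (Localization.AtPrime p) D)
        ((mem_maximalIdeal (algebraMap k[X] _ Polynomial.X)).2 fun h => hϖ (by
          have h3 := h.map (algebraMap (Localization.AtPrime p) D)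
          rwa [hX] at h3))
      rwa [hX] at h2))
  have : Algebra.FormallySmooth k[X] (Localization.AtPrime p) := .of_isLocalization p.primeCompl
  have : Algebra.FormallySmooth k (Localization.AtPrime p) := .comp k k[X] _
  exact .comp k (Localization.AtPrime p) D

end Pool.Agent.MP_e8e0b6_ag.R2.C

end Part8

section Part9

-- part 9: C Sm2

/-!
A smooth neighbourhood of a discrete valuation ring.
-/

set_option autoImplicit false

namespace Pool.Agent.MP_e8e0b6_ag.R2.C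

open Pool.Agent.MP_79c67d_ag Pool.Agent.MP_20d318_ag Pool.Agent.MP_20d318_ag.AG
  Pool.Agent.MP_20d318_ag.BV Pool.Agent.MP_20d318_ag.CB

theorem sm2 : Sm2Stmt := by
  intro h1 k L _ _ _ _ B D ϖ hB hP hϖ h0 hd
  have := hP.1
  let : Algebra B D := (Subalgebra.inclusion hP.2.1).toRingHom.toAlgebra
  have : IsScalarTower k B D := .of_algebraMap_eq fun _ => rfl
  let q := (IsLocalRing.maximalIdeal D).comap (algebraMap B D)
  have hq : ∀ b : B, b ∉ q ↔ IsU D b := fun b =>
    IsLocalRing.notMem_maximalIdeal.trans (isU_iff_isUnit (algebraMap B D b)).symm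
  have : IsLocalization.AtPrime D q := by
    refine ⟨fun m => IsLocalRing.notMem_maximalIdeal.1 m.2, fun z => ?_, fun {a b} hab => ⟨1, ?_⟩⟩
    · obtain ⟨a, ha, b, hb, hu, e⟩ := hP.2.2 z z.2
      exact ⟨(⟨a, ha⟩, ⟨⟨b, hb⟩, (hq ⟨b, hb⟩).2 hu⟩), Subtype.ext (by
        change (z : L) * b = a
        rw [e, div_mul_cancel₀ _ hu.ne])⟩
    · rw [show a = b from Subtype.ext (congrArg Subtype.val hab :)]
  have : Algebra.EssFiniteType B D := .of_isLocalization D q.primeCompl
  have : Algebra.EssFiniteType k D := .comp k B D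
  have := h1 k D ⟨ϖ, hϖ.1⟩ (fun h => h0 (congrArg Subtype.val h)) (le_antisymm
    (fun a ha => Ideal.mem_span_singleton'.2
      ⟨⟨a / ϖ, hd a ((mem_mx_iff a).2 ha)⟩, Subtype.ext (div_mul_cancel₀ _ h0)⟩)
    ((Ideal.span_singleton_le_iff_mem _).2 ((mem_mx_iff ⟨ϖ, hϖ.1⟩).1 hϖ)))
  have : Algebra.FinitePresentation k B := Algebra.FinitePresentation.of_finiteType.1 hB
  have : Algebra.IsSmoothAt k q := Algebra.FormallySmooth.of_equiv
    ((IsLocalization.algEquiv q.primeCompl D _).restrictScalars k)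
  obtain ⟨f, hf, hs⟩ := Algebra.IsSmoothAt.exists_notMem_smooth k q
  have hu := (hq f).1 hf
  have hu' : IsUnit (B.val f) := IsUnit.mk0 _ hu.ne
  let φ : Localization.Away f →ₐ[k] L := IsLocalization.Away.liftAlgHom f hu'
  have h2 : ∀ a : B, φ (algebraMap B _ a) = a := fun a => IsLocalization.Away.lift_eq f hu' a
  have h3 : Function.Injective φ := (IsLocalization.lift_injective_iff _).2 fun x y =>
    ⟨fun h => (h2 x).symm.trans ((congrArg φ h).trans (h2 y)),
      fun h => congrArg _ (Subtype.ext h)⟩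
  have E : φ.range = B ⊔ Algebra.adjoin k {(f : L)⁻¹} := by
    refine le_antisymm ?_ (sup_le (fun a ha => ⟨_, h2 ⟨a, ha⟩⟩) (Algebra.adjoin_le ?_))
    · rintro _ ⟨z, rfl⟩
      obtain ⟨n, a, e⟩ := IsLocalization.Away.surj f z
      have h4 := congrArg φ e
      rw [map_mul, map_pow, h2, h2, ← eq_mul_inv_iff_mul_eq₀ (pow_ne_zero n hu.ne), ← inv_pow] at h4
      change φ z ∈ _
      rw [h4]
      exact mul_mem ((le_sup_left : B ≤ _) a.2)
        (pow_mem ((le_sup_right : _ ≤ B ⊔ _) (Algebra.self_mem_adjoin_singleton k _)) n)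
    · rintro _ rfl
      have h4 := congrArg φ (IsLocalization.Away.mul_invSelf (S := Localization.Away f) f)
      rw [map_mul, h2, map_one] at h4
      exact ⟨_, eq_inv_of_mul_eq_one_right h4⟩
  exact ⟨f, f.2, hu, E ▸ .of_equiv (AlgEquiv.ofInjective φ h3)⟩

end Pool.Agent.MP_e8e0b6_ag.R2.C

end Part9

section Part10

-- part 10: C Tw

/-!
A semilinear automorphism that fixes the coordinates permutes the points.
-/

set_option autoImplicit false

namespace Pool.Agent.MP_e8e0b6_ag.R2.C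

open Pool.Agent.MP_79c67d_ag Pool.Agent.MP_20d318_ag Pool.Agent.MP_20d318_ag.AG
  Pool.Agent.MP_20d318_ag.BV Pool.Agent.MP_20d318_ag.CB

namespace Tw

variable {Ω E : Type} [Field Ω] [Field E] [Algebra Ω E] {H : Set E} {τ : E ≃+* E}

theorem symm (h : Pres Ω τ) : Pres Ω τ.symm := by
  unfold Pres at h ⊢
  conv_lhs => rw [← h]
  rw [Set.image_image]
  simp

/-- The preimage of a subalgebra. -/
def cm (h : Pres Ω τ) (O : Subalgebra Ω E) : Subalgebra Ω E where
  carrier := {a | τ a ∈ O}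
  mul_mem' ha hb := by simpa using O.mul_mem ha hb
  add_mem' ha hb := by simpa using O.add_mem ha hb
  algebraMap_mem' c := by
    obtain ⟨c', e⟩ : τ (algebraMap Ω E c) ∈ Set.range (algebraMap Ω E) := h ▸ ⟨_, ⟨c, rfl⟩, rfl⟩
    exact show τ _ ∈ O from e ▸ O.algebraMap_mem c'

theorem isU_cm (h : Pres Ω τ) {O : Subalgebra Ω E} {a : E} : IsU (cm h O) a ↔ IsU O (τ a) :=
  and_congr (map_ne_zero τ).symm (and_congr Iff.rfl (by rw [← map_inv₀]; rfl))

theorem cht_le (h : Pres Ω τ) (fix : ∀ a ∈ H, τ a = a) {j : Unit → E} (hj : ∀ l, j l ∈ H) :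
    cht Ω (fun _ => H) j ≤ cm h (cht Ω (fun _ => H) j) := by
  refine Algebra.adjoin_le ?_
  rintro _ ⟨_, ⟨u, rfl⟩, b, hb, rfl⟩
  show τ (b / j u) ∈ cht Ω (fun _ => H) j
  rw [map_div₀, fix b hb, fix _ (hj u)]
  exact Algebra.subset_adjoin (Set.mem_iUnion.2 ⟨u, b, hb, rfl⟩)

theorem half (h : Pres Ω τ) (fix : ∀ a ∈ H, τ a = a) {O : Subalgebra Ω E}
    (hO : O ∈ mp Ω fun _ : Unit => H) : cm h O ∈ mp Ω fun _ : Unit => H := by
  obtain ⟨j, hj, hl, le, fr⟩ := hO
  have h' := cht_le (symm h) (fun a ha => τ.symm_apply_eq.2 (fix a ha).symm) hj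
  refine ⟨j, hj, isLocalRing_of fun f hf g hg => ?_, fun a ha => le (cht_le h fix hj ha),
    fun f hf => ?_⟩
  · have := mx_add hl ⟨hf.1, fun u => hf.2 ((isU_cm h).2 u)⟩ ⟨hg.1, fun u => hg.2 ((isU_cm h).2 u)⟩
    rw [← map_add] at this
    exact ⟨this.1, fun u => this.2 ((isU_cm h).1 u)⟩
  · obtain ⟨a, ha, b, hb, u, e⟩ := fr _ hf
    refine ⟨_, h' ha, _, h' hb, (isU_cm h).2 (by rwa [τ.apply_symm_apply]), ?_⟩
    rw [← map_div₀, ← e, τ.symm_apply_apply]

end Tw

theorem tw : TwStmt := fun _ _ _ _ _ _ _ h fix _ hO => ⟨_, Tw.half h fix hO, fun _ => Iff.rfl⟩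

end Pool.Agent.MP_e8e0b6_ag.R2.C

end Part10
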