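import Pool.Agent.MP_e8e0b6_ag.R2.CSpec

section Part1

-- part 1: Avoid

/-! A general member of a system is a generator at finitely many given points. -/

set_option autoImplicit false

namespace Pool.Agent.MP_e8e0b6_ag.R2

open Pool.Agent.MP_20d318_ag.AG Pool.Agent.MP_20d318_ag.BV Pool.Agent.MP_20d318_ag.CB

/-- The elements whose quotient by `d` lies in the maximal ideal. -/
def avoidSub {k N : Type} [Field k] [Field N] [Algebra k N] {O : Subalgebra k N}
    (hO : IsLocalRing O) (d : N) : Submodule k N where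
  carrier := {a | a / d ∈ mx O}
  add_mem' ha hb := by
    rw [Set.mem_ofPred_eq, add_div]
    exact mx_add hO ha hb
  zero_mem' := by
    rw [Set.mem_ofPred_eq, zero_div]
    exact zero_mem_mx
  smul_mem' c a ha := by
    rw [Set.mem_ofPred_eq, Algebra.smul_def, mul_div_assoc]
    exact mx_mul_left (O.algebraMap_mem c) ha

theorem avoid_stmt : AvoidStmt := by
  intro k N _ _ _ _ U Φ δ hΦ h
  have := hΦ.to_subtype
  obtain ⟨a, ha⟩ := Submodule.exists_forall_notMem_of_forall_ne_top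
    (fun O : Φ => (avoidSub (h O O.2).1 (δ O)).comap (Submodule.span k U).subtype) fun O e => by
      obtain ⟨b, hb, hu⟩ := (h O O.2).2.2
      have : (⟨b, Submodule.subset_span hb⟩ : Submodule.span k U) ∈
        (avoidSub (h O O.2).1 (δ O)).comap (Submodule.span k U).subtype := e ▸ Submodule.mem_top
      exact hu.not_mx this
  refine ⟨a, a.2, fun O hO => isU_of_not_mx ?_ (ha ⟨O, hO⟩)⟩
  obtain ⟨a, h0⟩ := a
  clear ha
  induction h0 using Submodule.span_induction with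
  | mem x hx => exact (h O hO).2.1 x hx
  | zero => simp
  | add x y _ _ hx hy => simpa only [add_div] using O.add_mem hx hy
  | smul c x _ hx => simpa only [smul_div_assoc] using O.smul_mem hx c

end Pool.Agent.MP_e8e0b6_ag.R2

end Part1

section Part2

-- part 2: Cone

/-! Row CONE: an exceptional curve of least degree is contracted by a nef class. -/

set_option autoImplicit false

namespace Pool.Agent.MP_e8e0b6_ag.R2

open Pool.Agent.MP_79c67d_ag Pool.Agent.MP_20d318_ag.AG Pool.Agent.MP_20d318_ag.BV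
open Pool.Agent.MP_20d318_ag.CB

namespace ConeL

/-- The first zero of a continuous function. -/
theorem first {f : ℝ → ℝ} (hf : Continuous f) (h0 : 0 < f 0) {s : ℝ} (hs : 0 ≤ s) (h : f s ≤ 0) :
    ∃ t, 0 ≤ t ∧ t ≤ s ∧ f t = 0 ∧ ∀ u, 0 ≤ u → u < t → 0 < f u := by
  obtain ⟨t, ⟨⟨t0, t1⟩, t2⟩, ht⟩ :=
    (isCompact_Icc.inter_right (isClosed_le hf continuous_const)).exists_isLeast
      (⟨s, ⟨hs, le_rfl⟩, h⟩ : (Set.Icc 0 s ∩ {u | f u ≤ 0}).Nonempty)
  obtain ⟨u, ⟨u0, u1⟩, u2⟩ := intermediate_value_Icc' t0 hf.continuousOn ⟨t2, h0.le⟩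
  refine ⟨t, t0, t1, ?_, fun v v0 v1 => lt_of_not_ge fun e => v1.not_ge (ht ⟨⟨v0, ?_⟩, e⟩)⟩
  · rw [← le_antisymm u1 (ht ⟨⟨u0, u1.trans t1⟩, u2.le⟩), u2]
  · exact v1.le.trans t1

variable {k M I : Type} [Field k] [Field M] [Algebra k M] [Fintype I] (S : Sd k M I) (h : I → ℤ)

theorem cont : Continuous (Sq S h) := by
  unfold Sq Dh
  simp only [ip_add_left, ip_add_right, ip_smul_left, ip_smul_right]
  fun_prop

theorem zero : Sq S h 0 = (S.i h h : ℤ) := by
  rw [Sq, Dh, zero_smul, add_zero, ip_toR]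

end ConeL

theorem cone_stmt : ConeStmt := by
  intro hC hI hR k M I _ _ _ _ _ _ S h h1 h2 h3 h4 h5
  obtain ⟨e₀, a1, a2⟩ := h3.neg h5
  obtain ⟨τ, ⟨e, e1, e2, rfl⟩, hτ⟩ := Int.exists_least_of_bdd
    (P := fun z => ∃ e ∈ S.PP, Mo S e ∧ S.i h e = z)
    ⟨0, fun z ⟨e, e1, _, e3⟩ => e3 ▸ (h4.pos e e1).le⟩ ⟨_, e₀, a1, a2, rfl⟩
  have hl : Low S h (S.i h e) := fun c c1 c2 => hτ _ ⟨c, c1, c2, rfl⟩
  have h0 : (0 : ℝ) ≤ (S.i h e : ℤ) := by exact_mod_cast (h4.pos e e1).le
  have hp : ∀ s : ℝ, 0 ≤ s → s < (S.i h e : ℤ) → 0 < Sq S h s := fun s s0 s1 => by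
    by_contra hc
    obtain ⟨t, t0, t1, t2, t3⟩ := ConeL.first (ConeL.cont S h)
      (by rw [ConeL.zero]; exact_mod_cast h4.sq) s0 (not_lt.1 hc)
    have t4 := t1.trans_lt s1
    have n := hC k M I S h _ t h1 h2 h4 hl t0 t4.le t3
    by_cases hi : Irrational t
    · exact hI k M I S h _ t h1 h2 h4 hl h5 ⟨e, e1, e2⟩ t0 t4 hi n t2
    · exact hR k M I S h _ t h1 h2 h4 hl h5 ⟨e, e1, e2⟩ t0 t4 hi n t2
  refine ⟨e, e1, e2, fun c hc => ?_⟩
  have n := hC k M I S h _ _ h1 h2 h4 hl h0 le_rfl hp c hc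
  rw [Sd.i, ip_add_left, ip_smul_left]
  exact_mod_cast n

end Pool.Agent.MP_e8e0b6_ag.R2

end Part2

section Part3

-- part 3: ConeA

/-! Effectivity by Riemann-Roch, and effective classes `q h + j K` are nef. -/

set_option autoImplicit false

namespace Pool.Agent.MP_e8e0b6_ag.R2

open Pool.Agent.MP_79c67d_ag Pool.Agent.MP_20d318_ag.AG Pool.Agent.MP_20d318_ag.BV
open Pool.Agent.MP_20d318_ag.CB
open scoped IntermediateField

namespace ConeA

variable {k M I : Type} [Field k] [Field M] [Algebra k M] [Fintype I] {S : Sd k M I}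

theorem nef_ef {c D : I → ℤ} (hc : c ∈ S.Ef) (hD : Nef S D) : 0 ≤ S.i D c := by
  induction hc using AddSubmonoid.closure_induction with
  | mem c hc => exact hD c hc
  | zero => exact (ip_zero_right D).ge
  | add a b _ _ ha hb => exact (add_nonneg ha hb).trans_eq (ip_add_right D a b).symm

theorem neg_sq (h : SAll S) {c G : I → ℤ} (hc : c ∈ S.PP) (h0 : 0 ≤ S.i c c) (hG : G ∈ S.Ef) :
    0 ≤ S.i G c := by
  rw [Sd.i, ip_comm h.s.sym]
  refine nef_ef hG fun c' hc' => ?_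
  by_cases e : c = c'
  · exact e ▸ h0
  · exact h.a2.pos c hc c' hc' e

theorem split (h : SAll S) {c : I → ℤ} (hc : c ∈ S.PP) (h0 : S.i c c < 0) :
    0 ≤ S.i S.K c ∨ Mo S c := by
  have := h.a4.adj c hc
  unfold Mo Sd.i at *
  omega

end ConeA

open ConeA in
theorem coneA_stmt : ConeAStmt := by
  intro k M I _ _ _ _ _ _ S h hS hA
  refine ⟨fun c h1 h2 => ?_, fun c hc D hD => nef_ef hc hD, fun τ q j hL hq hj hτ hG c hc => ?_,
    fun τ t hL h0 ht c hc hn => ?_⟩
  · have h3 := hS.a4.rr2 c fun e => by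
      have := nef_ef e fun c' hc' => (hA.pos c' hc').le
      rw [Sd.i, ip_sub_right] at this
      unfold Sd.i at h2
      omega
    have h4 : Nontrivial (S.Sec c) := Module.nontrivial_of_finrank_pos (R := k) (by
      unfold Sd.h0 at h3
      omega)
    obtain ⟨φ, h5⟩ := exists_ne (0 : S.Sec c)
    exact hS.a2.eff1 c φ φ.2 fun e => h5 (Subtype.ext e)
  · rcases le_or_gt 0 (S.i c c) with h0 | h0
    · exact neg_sq hS hc h0 hG
    have h1 := hA.pos c hc
    rw [Sd.i, ip_add_left, ip_smul_left, ip_smul_left]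
    rcases split hS hc h0 with h2 | h2
    · exact add_nonneg (mul_nonneg hq.le h1.le) (mul_nonneg hj h2)
    · have h3 := mul_le_mul_of_nonneg_left (hL c hc h2) hq.le
      have h4 := h2.2
      unfold Sd.i at h3 h4
      rw [h4]
      linarith
  · have h1 : (0 : ℝ) < S.i h c := by exact_mod_cast hA.pos c hc
    rcases split hS hc hn with h2 | h2
    · exact add_pos_of_pos_of_nonneg h1 (mul_nonneg h0 (by exact_mod_cast h2))
    · have h3 : (τ : ℝ) ≤ S.i h c := by exact_mod_cast hL c hc h2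
      rw [h2.2]
      push_cast
      linarith

end Pool.Agent.MP_e8e0b6_ag.R2

end Part3

section Part4

-- part 4: ConeB

/-! One-sided approximation of an irrational number. -/

set_option autoImplicit false

namespace Pool.Agent.MP_e8e0b6_ag.R2

namespace ConeB

theorem pos {t δ : ℝ} (ht : Irrational t) (hδ : 0 < δ) :
    ∃ r m : ℤ, 0 < r ∧ 0 < (m : ℝ) - r * t ∧ (m : ℝ) - r * t < δ := by
  have hd : Dense (AddSubgroup.closure {t, (1 : ℝ)} : Set ℝ) :=
    dense_addSubgroupClosure_pair_iff.2 (by simpa using ht)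
  obtain ⟨z, hz, h0, h1⟩ := hd.exists_between (lt_min hδ one_pos)
  obtain ⟨a, m, rfl⟩ := AddSubgroup.mem_closure_pair.1 hz
  rw [zsmul_eq_mul, zsmul_eq_mul, mul_one] at h0 h1
  obtain ⟨h2, h3⟩ := lt_min_iff.1 h1
  rcases lt_trichotomy a 0 with ha | rfl | ha
  · exact ⟨-a, m, by omega, by push_cast; linarith, by push_cast; linarith⟩
  · simp only [Int.cast_zero, zero_mul, zero_add] at h0 h3
    have h4 : 0 < m := by exact_mod_cast h0
    have h5 : m < 1 := by exact_mod_cast h3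
    omega
  · set z := (a : ℝ) * t + m with hz'
    have c1 : 1 / z ≤ (⌈1 / z⌉ : ℤ) := Int.le_ceil _
    have c2 : ((⌈1 / z⌉ : ℤ) : ℝ) < 1 / z + 1 := Int.ceil_lt_add_one _
    have c3 : 1 < ⌈1 / z⌉ := Int.lt_ceil.2 (by rw [Int.cast_one, lt_div_iff₀ h0]; linarith)
    rw [div_le_iff₀ h0] at c1
    rw [← sub_lt_iff_lt_add, lt_div_iff₀ h0] at c2
    have e : ((1 - (⌈1 / z⌉ - 1) * m : ℤ) : ℝ) - ((⌈1 / z⌉ - 1) * a : ℤ) * t =
        1 - ((⌈1 / z⌉ : ℤ) - 1) * z := by
      push_cast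
      rw [hz']; ring
    exact ⟨(⌈1 / z⌉ - 1) * a, 1 - (⌈1 / z⌉ - 1) * m, mul_pos (by omega) ha, by rw [e]; linarith,
      by rw [e]; linarith⟩

end ConeB

theorem coneB_stmt : ConeBStmt := by
  intro t ε n ht hε
  have hN : (0 : ℝ) < ((|n| + 1 : ℤ) : ℝ) := by positivity
  obtain ⟨r, m, h1, h2, h3⟩ := ConeB.pos ht (div_pos hε hN)
  have e : (((|n| + 1) * m : ℤ) : ℝ) - ((|n| + 1) * r : ℤ) * t =
      ((|n| + 1 : ℤ) : ℝ) * ((m : ℝ) - r * t) := by push_cast; ring
  refine ⟨(|n| + 1) * r, (|n| + 1) * m, ?_, by rw [e]; positivity, ?_⟩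
  · nlinarith [le_abs_self n, abs_nonneg n]
  · rw [e, mul_comm]; exact (lt_div_iff₀ hN).1 h3

end Pool.Agent.MP_e8e0b6_ag.R2

end Part4

section Part5

-- part 5: ConeC

/-! The class `h + t K` is nef as long as its square is positive. -/

set_option autoImplicit false

namespace Pool.Agent.MP_e8e0b6_ag.R2

open Pool.Agent.MP_20d318_ag.CB

namespace ConeCL

variable {k M I : Type} [Field k] [Field M] [Algebra k M] [Fintype I] {S : Sd k M I} {h : I → ℤ}

lemma dh_h (s : ℝ) : ip S.B (Dh S h s) (toR h) = S.i h h + s * S.i S.K h := by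
  rw [Dh, ip_add_left, ip_smul_left, ip_toR, ip_toR]

lemma sq_eq (hs : ∀ i j, S.B i j = S.B j i) (s : ℝ) :
    Sq S h s = S.i h h + 2 * s * S.i S.K h + s ^ 2 * S.i S.K S.K := by
  simp only [Sq, Dh, ip_add_left, ip_add_right, ip_smul_left, ip_smul_right, ip_toR, Sd.i]
  rw [ip_comm hs h S.K]
  ring

lemma lin_pos (hg : Hg S.B) (ha : 0 < S.i h h) {s : ℝ} (h0 : 0 ≤ s)
    (hq : ∀ s', 0 ≤ s' → s' ≤ s → 0 < Sq S h s') : (0 : ℝ) < S.i h h + s * S.i S.K h := by
  by_contra hn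
  have ha' : (0 : ℝ) < S.i h h := by exact_mod_cast ha
  have hb : (S.i S.K h : ℝ) < 0 := by
    by_contra hb
    exact hn (add_pos_of_pos_of_nonneg ha' (mul_nonneg h0 (not_lt.1 hb)))
  have hb' : (0 : ℝ) < -(S.i S.K h : ℝ) := neg_pos.2 hb
  have p := hq (S.i h h / -(S.i S.K h : ℝ)) (div_pos ha' hb').le
    ((div_le_iff₀ hb').2 (by linarith [not_lt.1 hn]))
  refine lt_asymm p (hg.neg (toR h) _ (by rw [ip_toR]; exact ha') ?_ fun e => ?_)
  · rw [dh_h, div_neg, neg_mul, div_mul_cancel₀ _ hb.ne, add_neg_cancel]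
  · rw [Sq, e, ip_zero_left] at p
    exact lt_irrefl _ p

lemma quad {A B n : ℤ} (hA : 0 < A) (hn : |B| < n) : 0 < n * (n * A) - n * B + 2 := by
  have h0 : 0 < n := (abs_nonneg B).trans_lt hn
  have h1 : B < n * A := ((le_abs_self B).trans_lt hn).trans_le (le_mul_of_one_le_right h0.le hA)
  have := mul_pos h0 (sub_pos.2 h1)
  linarith

end ConeCL

theorem coneC_stmt : ConeCStmt := by
  intro hA k M I _ _ _ _ _ _ S h τ t hS hg ha hl h0 ht hq c hc
  obtain ⟨a1, -, a3, -⟩ := hA k M I S h hS ha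
  have hs := hS.s.sym
  by_contra hn
  have hx : (0 : ℝ) < S.i h c := by exact_mod_cast ha.pos c hc
  have hy : (0 : ℝ) < -(S.i S.K c : ℝ) := by
    by_contra hy
    exact hn (add_nonneg hx.le (mul_nonneg h0 (by linarith [not_lt.1 hy])))
  obtain ⟨r, r1, r2⟩ := exists_rat_btwn (show S.i h c / -(S.i S.K c : ℝ) < t from
    (div_lt_iff₀ hy).2 (by linarith [not_le.1 hn]))
  have r0 : (0 : ℝ) < r := (div_pos hx hy).trans r1
  obtain ⟨q, j, q0, hr⟩ : ∃ q j : ℤ, 0 < q ∧ (j : ℝ) = r * q :=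
    ⟨r.den, r.num, by exact_mod_cast r.pos, by exact_mod_cast (Rat.mul_den_eq_num r).symm⟩
  have q0' : (0 : ℝ) < q := by exact_mod_cast q0
  have j0 : 0 ≤ j := by
    have : (0 : ℝ) ≤ j := hr ▸ (mul_pos r0 q0').le
    exact_mod_cast this
  have jτ : j ≤ τ * q := by
    have : (j : ℝ) ≤ τ * q := hr ▸ mul_le_mul_of_nonneg_right (r2.le.trans ht) q0'.le
    exact_mod_cast this
  have hL : 0 < q * S.i h h + j * S.i S.K h := by
    have := mul_pos q0' (ConeCL.lin_pos hg ha.sq r0.le fun s h1 h2 => hq s h1 (h2.trans_lt r2))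
    have e : (0 : ℝ) < q * S.i h h + j * S.i S.K h := by rw [hr]; linarith
    exact_mod_cast e
  have hQ : 0 < q ^ 2 * S.i h h + 2 * q * j * S.i S.K h + j ^ 2 * S.i S.K S.K := by
    have := mul_pos (pow_pos q0' 2) (hq r r0.le r2)
    rw [ConeCL.sq_eq hs] at this
    have e : (0 : ℝ) < q ^ 2 * S.i h h + 2 * q * j * S.i S.K h + j ^ 2 * S.i S.K S.K := by
      rw [hr]; linarith
    exact_mod_cast e
  obtain ⟨n, n1, n2⟩ : ∃ n : ℤ, |q * S.i S.K h + j * S.i S.K S.K| < n ∧ |S.i S.K h| < n :=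
    ⟨|q * S.i S.K h + j * S.i S.K S.K| + |S.i S.K h| + 1, by linarith [abs_nonneg (S.i S.K h)],
      by linarith [abs_nonneg (q * S.i S.K h + j * S.i S.K S.K)]⟩
  have n0 : 0 < n := (abs_nonneg _).trans_lt n2
  have e : S.i h S.K = S.i S.K h := ip_comm hs _ _
  have ef : (n * q) • h + (n * j) • S.K ∈ S.Ef := by
    refine a1 _ ?_ ?_
    · have := ConeCL.quad hQ n1
      simp only [chi2, ip_add_left, ip_add_right, ip_smul_left, ip_smul_right]
      simp only [Sd.i] at this e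
      rw [e]
      linarith
    · have := ((le_abs_self _).trans_lt n2).trans_le (le_mul_of_one_le_right n0.le hL)
      simp only [Sd.i, ip_add_right, ip_smul_right] at this e ⊢
      rw [e]
      linarith
  have nf := a3 τ _ _ hl (mul_pos n0 q0) (mul_nonneg n0.le j0)
    (by linarith [mul_le_mul_of_nonneg_left jτ n0.le]) ef c hc
  have n3 : 0 ≤ q * S.i h c + j * S.i S.K c := by
    refine nonneg_of_mul_nonneg_right (a := n) ?_ n0
    simp only [Sd.i, ip_add_left, ip_smul_left] at nf ⊢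
    linarith
  have n4 : (0 : ℝ) ≤ q * S.i h c + j * S.i S.K c := by exact_mod_cast n3
  have := mul_lt_mul_of_pos_left ((div_lt_iff₀ hy).1 r1) q0'
  rw [hr] at n4
  linarith

end Pool.Agent.MP_e8e0b6_ag.R2

end Part5

section Part6

-- part 6: ConeI

/-! Row CONEI: no nef class `h + t K` of square zero with `t` irrational. -/

set_option autoImplicit false

namespace Pool.Agent.MP_e8e0b6_ag.R2

open Pool.Agent.MP_79c67d_ag Pool.Agent.MP_20d318_ag.AG Pool.Agent.MP_20d318_ag.BV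
open Pool.Agent.MP_20d318_ag.CB

namespace ConeI

theorem num {a b c t τ q j : ℝ} (h0 : a + 2 * t * b + t ^ 2 * c = 0) (ht : 0 < t)
    (hx : b + t * c < 0) (hy : 0 < a + t * b) (hτ : t < τ) (d0 : 0 < j - q * t)
    (d1 : j - q * t < 1 / 3)
    (hq : 3 * |c| / -(b + t * c) + |b| / (a + t * b) + 1 / (τ - t) < q) :
    0 < q ∧ 0 ≤ j ∧ j ≤ τ * q ∧ b < q * a + j * b ∧
      0 < q * (q * a + j * b) + j * (q * b + j * c) - (q * b + j * c) + 2 ∧
      q * (q * a + j * b) + j * (q * b + j * c) < 0 := by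
  obtain ⟨d, rfl⟩ : ∃ d, j = q * t + d := ⟨j - q * t, by ring⟩
  rw [add_sub_cancel_left] at d0 d1
  have hx' : 0 < -(b + t * c) := by linarith
  have hτ' : 0 < τ - t := by linarith
  have p1 : 0 ≤ 3 * |c| / -(b + t * c) := by positivity
  have p2 : 0 ≤ |b| / (a + t * b) := by positivity
  have p3 : 0 < 1 / (τ - t) := by positivity
  have q0 : 0 < q := by linarith
  have q1 : 3 * |c| < q * -(b + t * c) := (div_lt_iff₀ hx').1 (by linarith)
  have q2 : |b| < q * (a + t * b) := (div_lt_iff₀ hy).1 (by linarith)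
  have q3 : 1 < q * (τ - t) := (div_lt_iff₀ hτ').1 (by linarith)
  have b1 := le_abs_self b
  have b2 := abs_nonneg b
  have c1 := le_abs_self c
  have c2 := abs_nonneg c
  have e : q * (q * a + (q * t + d) * b) + (q * t + d) * (q * b + (q * t + d) * c) =
      d * (2 * q * (b + t * c) + d * c) := by linear_combination q ^ 2 * h0
  have dc : d * c ≤ |c| := by nlinarith
  refine ⟨q0, by positivity, by linarith, by nlinarith, ?_, ?_⟩
  · rw [e]
    have f1 : 0 ≤ (1 / 3 - d) * (q * -(b + t * c)) := mul_nonneg (by linarith) (by linarith)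
    have f2 : d * (1 - d) * c ≤ |c| := by
      have : d * (1 - d) ≤ 1 := by nlinarith
      have : 0 ≤ d * (1 - d) := mul_nonneg d0.le (by linarith)
      nlinarith
    nlinarith
  · rw [e]
    exact mul_neg_of_pos_of_neg d0 (by linarith)

end ConeI

theorem coneI_stmt : ConeIStmt := by
  intro hA hB k M I _ _ _ _ _ _ S h τ t hS _ ha hl _ _ ht hτ hi hn h0
  obtain ⟨a1, a2, a3, -⟩ := hA k M I S h hS ha
  have sy : ip S.B h S.K = ip S.B S.K h := ip_comm hS.s.sym _ _
  have aa : 0 < ip S.B h h := ha.sq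
  have t0 : 0 < t := ht.lt_of_ne' hi.ne_zero
  have h1 : ((ip S.B h h : ℤ) : ℝ) + 2 * t * (ip S.B S.K h : ℤ) + t ^ 2 * (ip S.B S.K S.K : ℤ) = 0 := by
    simp only [Sq, Dh, ip_add_left, ip_add_right, ip_smul_left, ip_smul_right, ip_toR, sy] at h0
    linear_combination h0
  have hE : ∀ c ∈ S.Ef, (0 : ℝ) ≤ (ip S.B h c : ℤ) + t * (ip S.B S.K c : ℤ) := fun c hc => by
    induction hc using AddSubmonoid.closure_induction with
    | mem x hx => exact hn x hx
    | zero => simp [ip_zero_right]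
    | add x y _ _ p q =>
      rw [ip_add_right, ip_add_right]
      push_cast
      linarith
  have hy : (0 : ℝ) < (ip S.B h h : ℤ) + t * (ip S.B S.K h : ℤ) := by
    have n1 := le_abs_self (ip S.B S.K h)
    have n2 := abs_nonneg (ip S.B S.K h)
    have n3 : ip S.B S.K h < (|ip S.B S.K h| + 1) * ip S.B h h := by nlinarith
    have := hE _ (a1 ((|ip S.B S.K h| + 1) • h) (by
      rw [chi2, ip_smul_left, ip_smul_right, ip_smul_right]
      nlinarith) (by
      rw [Sd.i, Sd.i, ip_smul_right, sy]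
      exact n3))
    rw [ip_smul_right, ip_smul_right, Int.cast_mul, Int.cast_mul, mul_left_comm, ← mul_add] at this
    have n4 : (0 : ℝ) < ((|ip S.B S.K h| + 1 : ℤ) : ℝ) := by exact_mod_cast (by omega)
    refine (nonneg_of_mul_nonneg_right this n4).lt_of_ne' fun e => ?_
    by_cases hb : ip S.B S.K h = 0
    · rw [hb, Int.cast_zero, mul_zero, add_zero] at e
      exact aa.ne' (by exact_mod_cast e)
    · exact ((hi.mul_intCast hb).intCast_add _).ne_zero e
  have hx : ((ip S.B S.K h : ℤ) : ℝ) + t * (ip S.B S.K S.K : ℤ) < 0 := by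
    by_contra hc
    have := mul_nonneg t0.le (not_lt.1 hc)
    nlinarith
  obtain ⟨n, hn'⟩ := exists_int_gt (3 * |((ip S.B S.K S.K : ℤ) : ℝ)| /
    -(((ip S.B S.K h : ℤ) : ℝ) + t * (ip S.B S.K S.K : ℤ)) +
    |((ip S.B S.K h : ℤ) : ℝ)| / ((ip S.B h h : ℤ) + t * (ip S.B S.K h : ℤ)) + 1 / (τ - t))
  obtain ⟨q, j, q1, q2, q3⟩ := hB t (1 / 3) n hi (by norm_num)
  obtain ⟨r1, r2, r3, r4, r5, r6⟩ := ConeI.num h1 t0 hx hy hτ q2 q3
    (hn'.trans (by exact_mod_cast q1))
  have hG : q • h + j • S.K ∈ S.Ef := a1 _ (by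
    simp only [chi2, ip_add_left, ip_add_right, ip_smul_left, ip_smul_right, sy]
    have : (0 : ℤ) < q * (q * ip S.B h h + j * ip S.B S.K h) +
      j * (q * ip S.B S.K h + j * ip S.B S.K S.K) - (q * ip S.B S.K h + j * ip S.B S.K S.K) + 2 := by
      exact_mod_cast r5
    linarith) (by
    simp only [Sd.i, ip_add_right, ip_smul_right, sy]
    exact_mod_cast r4)
  have := a2 _ hG _ (a3 τ q j hl (by exact_mod_cast r1) (by exact_mod_cast r2)
    (by exact_mod_cast r3) hG)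
  simp only [Sd.i, ip_add_left, ip_add_right, ip_smul_left, ip_smul_right, sy] at this
  have r7 : q * (q * ip S.B h h + j * ip S.B S.K h) +
      j * (q * ip S.B S.K h + j * ip S.B S.K S.K) < 0 := by exact_mod_cast r6
  linarith

end Pool.Agent.MP_e8e0b6_ag.R2

end Part6

section Part7

-- part 7: ConeR

/-! No nef class of square zero below the bound, rational case. -/

set_option autoImplicit false

namespace Pool.Agent.MP_e8e0b6_ag.R2

open Pool.Agent.MP_20d318_ag.CB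

namespace ConeR

lemma exB {I : Type} [Fintype I] (B : I → I → ℤ) (h K : I → ℤ) (h3 : 3 ≤ Fintype.card I) :
    ∃ z : I → ℤ, z ≠ 0 ∧ ip B z h = 0 ∧ ip B z K = 0 := by
  let φ : (I → ℤ) →ₗ[ℤ] ℤ × ℤ :=
    { toFun := fun z => (ip B z h, ip B z K)
      map_add' := fun a b => by simp [ip_add_left]
      map_smul' := fun r a => Prod.ext (ip_smul_left r a h) (ip_smul_left r a K) }
  by_contra hn
  have hi : Function.Injective φ := by
    rw [injective_iff_map_eq_zero]
    intro z hz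
    by_contra h0
    exact hn ⟨z, h0, congrArg Prod.fst hz, congrArg Prod.snd hz⟩
  have := LinearMap.finrank_le_finrank_of_injective hi
  simp at this
  omega

end ConeR

open ConeR in
theorem coneR_stmt : ConeRStmt := by
  intro hA k M I _ _ _ _ _ _ S h τ t hS hg ha hl h3 ⟨e, he, he'⟩ t0 t1 hr hn hsq
  obtain ⟨A1, A2, -, A4⟩ := hA k M I S h hS ha
  have sy : ∀ a b : I → ℤ, ip S.B a b = ip S.B b a := ip_comm hS.s.sym
  obtain ⟨r, rfl⟩ : t ∈ Set.range ((↑) : ℚ → ℝ) := not_not.1 hr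
  obtain ⟨b, a, b0, a0, hab⟩ : ∃ b a : ℤ, 0 < b ∧ 0 ≤ a ∧ (r : ℝ) * b = a :=
    ⟨r.den, r.num, by exact_mod_cast r.den_pos, Rat.num_nonneg.2 (by exact_mod_cast t0), by
      exact_mod_cast r.mul_den_eq_num⟩
  have b1 : (0 : ℝ) < b := by exact_mod_cast b0
  obtain ⟨D, hD⟩ : ∃ D : I → ℤ, D = b • h + a • S.K := ⟨_, rfl⟩
  have e1 : ∀ c, ip S.B D c = b * ip S.B h c + a * ip S.B S.K c := fun c => by
    rw [hD, ip_add_left, ip_smul_left, ip_smul_left]
  have e2 : ∀ c, ((ip S.B D c : ℤ) : ℝ) = b * ((S.i h c : ℝ) + r * S.i S.K c) := fun c => by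
    rw [e1]
    push_cast
    rw [← hab]
    ring
  have DD : ip S.B D D = 0 := by
    have e3 : toR D = (b : ℝ) • Dh S h r := by
      rw [hD, toR_add, toR_zsmul, toR_zsmul, Dh, smul_add, smul_smul, ← hab, mul_comm]
    have := ip_toR S.B D D
    rw [e3, ip_smul_left, ip_smul_right, show ip S.B (Dh S h r) (Dh S h r) = 0 from hsq] at this
    exact_mod_cast (by simpa using this.symm : ((ip S.B D D : ℤ) : ℝ) = 0)
  have nef : Nef S D := fun c hc => by
    have := mul_nonneg b1.le (hn c hc)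
    rw [← e2] at this
    exact_mod_cast this
  have pos : ∀ c ∈ S.PP, S.i c c < 0 → 0 < ip S.B D c := fun c hc h0 => by
    have := mul_pos b1 (A4 τ r hl t0 t1 c hc h0)
    rw [← e2] at this
    exact_mod_cast this
  have hh : 0 < ip S.B h h := ha.sq
  have neg : ∀ z : I → ℤ, z ≠ 0 → ip S.B z h = 0 → ip S.B z z < 0 := fun z z0 hz => by
    have := hg.neg (toR h) (toR z) (by rw [ip_toR]; exact_mod_cast hh)
      (by rw [ip_toR]; exact_mod_cast hz) fun h0 => z0 (toR_inj (h0.trans toR_zero.symm))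
    rw [ip_toR] at this
    exact_mod_cast this
  have D0 : D ≠ 0 := fun h0 => by
    have := pos e he (by rw [he'.1]; norm_num)
    rw [h0, ip_zero_left] at this
    exact this.false
  have Dh0 : 0 < ip S.B D h := by
    obtain ⟨n, n0, n1, n2⟩ : ∃ n : ℤ, 0 < n ∧ ip S.B S.K h < n ∧ n ≤ n * ip S.B h h :=
      ⟨|ip S.B S.K h| + 1, by positivity, by linarith [le_abs_self (ip S.B S.K h)],
        le_mul_of_one_le_right (by positivity) hh⟩
    have m1 : n • h ∈ S.Ef := A1 _ (by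
      rw [chi2, ip_smul_left, ip_smul_right, ip_smul_right]
      nlinarith) (by
      rw [Sd.i, Sd.i, ip_smul_right, sy h]
      linarith)
    have m2 := A2 _ m1 D nef
    rw [Sd.i, ip_smul_right] at m2
    refine lt_of_le_of_ne ((mul_nonneg_iff_of_pos_left n0).1 m2) fun h0 => ?_
    exact (neg D D0 h0.symm).ne DD
  have DK : ip S.B S.K D < 0 := by
    have := e1 D
    rw [DD, sy h] at this
    by_contra h0
    nlinarith [mul_pos b0 Dh0, mul_nonneg a0 (not_lt.1 h0)]
  obtain ⟨z, z0, z1, z2⟩ := exB S.B h S.K h3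
  have zz := neg z z0 z1
  have Dz : ip S.B D z = 0 := by rw [e1, sy h, sy S.K, z1, z2]; ring
  obtain ⟨n, n0, n1, n2⟩ : ∃ n : ℤ, 0 < n ∧ ip S.B h S.K < n ∧ -ip S.B z z ≤ n :=
    ⟨|ip S.B h S.K| + 1 - ip S.B z z, by linarith [abs_nonneg (ip S.B h S.K)],
      by linarith [le_abs_self (ip S.B h S.K)], by linarith [abs_nonneg (ip S.B h S.K)]⟩
  have GG : ip S.B (z + n • D) (z + n • D) = ip S.B z z := by
    rw [ip_add_left, ip_add_right, ip_add_right, ip_smul_left, ip_smul_left, ip_smul_right,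
      ip_smul_right, sy z D, Dz, DD]
    ring
  have m1 : z + n • D ∈ S.Ef := A1 _ (by
    rw [chi2, GG, ip_add_right, ip_smul_right, sy S.K z, z2]
    nlinarith) (by
    rw [Sd.i, Sd.i, ip_add_right, ip_smul_right, sy h z, z1, sy h D]
    nlinarith)
  have key : ∀ c ∈ S.Ef, ip S.B D c = 0 → Nef S c := fun c hc => by
    induction hc using AddSubmonoid.closure_induction with
    | mem c hc =>
      intro h0 c' hc'
      by_cases q : c = c'
      · subst q
        exact not_lt.1 fun h1 => (pos c hc h1).ne' h0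
      · exact hS.a2.pos c hc c' hc' q
    | zero => exact fun _ c' _ => (ip_zero_left c').ge
    | add x y hx hy ix iy =>
      intro h0 c' hc'
      have p1 : 0 ≤ ip S.B D x := A2 x hx D nef
      have p2 : 0 ≤ ip S.B D y := A2 y hy D nef
      rw [ip_add_right] at h0
      rw [Sd.i, ip_add_left]
      exact add_nonneg (ix (by omega) c' hc') (iy (by omega) c' hc')
  have m2 : 0 ≤ ip S.B (z + n • D) (z + n • D) := A2 _ m1 _ (key _ m1 (by
    rw [ip_add_right, ip_smul_right, Dz, DD]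
    ring))
  omega

end Pool.Agent.MP_e8e0b6_ag.R2

end Part7

section Part8

-- part 8: Deg1

/-! The components of the first member of a net. -/

set_option autoImplicit false

namespace Pool.Agent.MP_e8e0b6_ag.R2

open Pool.Agent.MP_79c67d_ag Pool.Agent.MP_20d318_ag.AG Pool.Agent.MP_20d318_ag.BV
open Pool.Agent.MP_20d318_ag.CB
open scoped IntermediateField

theorem deg1_stmt : Deg1Stmt := by
  intro k M I _ _ _ _ _ _ S G a₀ a₁ a₂ h hN P hP ho
  obtain ⟨φ, hφ⟩ := h.a2.cl P hP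
  have pos : ip S.B G (S.cl P) ≠ 0 := (hN.pos _ ⟨φ, P, hφ⟩).ne'
  have sec : ∀ a ∈ ({a₀, a₁, a₂} : Set M), a ∈ S.Sec G := fun a ha O hO => by
    simpa only [div_inv_eq_mul] using (hN.gn O hO).1 a ha
  have s0 := sec a₀ (by simp)
  have s1 := sec a₁ (by simp)
  have s2 := sec a₂ (by simp)
  have ne : ∀ O ∈ S.T, S.lb G O ≠ 0 := fun O hO => S.lb_ne (h.a1.gne O hO) G
  have down : ∀ ψ ∈ S.Sec G, ψ * S.lb G (plO P) ∈ mx (plO P) → ∀ O ∈ S.T, O ≤ plO P →
      ψ * S.lb G O ∈ mx O := fun ψ hψ hm O hO hle => by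
    refine mx_of_le hle (hψ O hO) ?_
    have := mx_mul_right hm ((h.a1.cart G).unit hO hP hle).mem
    rwa [mul_assoc, mul_div_cancel₀ _ (ne _ hP)] at this
  have h0 := (mx_plO (mul_ne_zero hN.ne (ne _ hP))).2 ho
  have two : ∀ O ∈ S.T, O ≤ plO P → IsU O (a₁ * S.lb G O) ∨ IsU O (a₂ * S.lb G O) :=
    fun O hO hle => by
      obtain ⟨a, ha, hu⟩ := (hN.gn O hO).2
      rw [div_inv_eq_mul] at hu
      rcases ha with rfl | rfl | rfl
      · exact absurd (down _ s0 h0 O hO hle) hu.not_mx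
      · exact Or.inl hu
      · exact Or.inr hu
  have u1 : IsU (plO P) (a₁ * S.lb G (plO P)) := isU_of_not_mx (s1 _ hP) fun hm => by
    have k2 : ∀ O ∈ S.T, O ≤ plO P → IsU O (a₂ * S.lb G O) := fun O hO hle =>
      (two O hO hle).resolve_left fun hu => hu.not_mx (down _ s1 hm O hO hle)
    exact pos ((h.a2.nn _ φ P hφ G a₂ s2 (k2 _ hP le_rfl)).2.2 k2)
  have n1 : a₁ ≠ 0 := left_ne_zero_of_mul u1.1
  have w : a₂ / a₁ ∈ plO P := by
    have := u1.div_mem (s2 _ hP)
    rwa [mul_div_mul_right _ _ (ne _ hP)] at this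
  have ind : Ind (plO P) ![a₂ / a₁] := (h.a1.ind P hP _ w).resolve_right fun ⟨l, hl⟩ => by
    refine pos ((h.a2.nn _ φ P hφ G a₁ s1 u1).2.2 fun O hO hle => ?_)
    refine isU_of_not_mx (s1 O hO) fun hm => ?_
    have k3 := down (a₂ - l • a₁) (sub_mem s2 ((S.Sec G).smul_mem l s1)) (by
      have := mx_mul_right hl u1.mem
      rwa [← mul_assoc, sub_mul, div_mul_cancel₀ _ n1, ← Algebra.smul_def] at this) O hO hle
    have k4 := mx_add (h.a1.nice.loc O hO) k3 (mx_mul_left (O.algebraMap_mem l) hm)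
    rw [← Algebra.smul_def, sub_mul, smul_mul_assoc, sub_add_cancel] at k4
    exact (two O hO hle).elim (fun hu => hu.not_mx hm) fun hu => hu.not_mx k4
  refine ⟨u1, ind, ?_⟩
  obtain ⟨ν, hg, hnu, hs⟩ := h.a1.cur P hP
  have gn : ∀ O ∈ S.T, O ≤ plO P → Gn {a₂, a₁} O (S.lb (-G) O) := fun O hO hle => by
    rw [S.lb_neg]
    refine ⟨?_, ?_⟩
    · rintro a (rfl | rfl) <;> rw [div_inv_eq_mul]
      · exact s2 O hO
      · exact s1 O hO
    · rcases two O hO hle with hu | hu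
      · exact ⟨a₁, Or.inr rfl, by rwa [div_inv_eq_mul]⟩
      · exact ⟨a₂, Or.inl rfl, by rwa [div_inv_eq_mul]⟩
  have d1 := h.s.deg _ φ P hφ ν hg (-G)
  rw [← hg] at w ind hs gn ⊢
  rw [deg_gn_pair ν (gn _ ν.gen_mem le_rfl) (fun Q => gn _ (ν.pt_mem Q) (ν.pt_le Q)) n1 w,
    pdeg_eq (ev_transcendental ν w fun c => (ind_one ind c).not_mx), hnu, ip_neg_left,
    Nat.cast_one, one_mul, neg_inj] at d1
  refine ⟨ν.L, inferInstance, inferInstance, ν.ρ, fun z => ?_, ν.locHom, d1⟩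
  obtain ⟨a, ha, e⟩ := hs z
  exact ⟨⟨a, ha⟩, (dif_pos ha).symm.trans e⟩

end Pool.Agent.MP_e8e0b6_ag.R2

end Part8

section Part9

-- part 9: Deg2

/-! Row DEG2: the fundamental equality over the place `u = 0` of `k(w, u)`. -/

set_option autoImplicit false

namespace Pool.Agent.MP_e8e0b6_ag.R2

open Pool.Agent.MP_79c67d_ag Pool.Agent.MP_20d318_ag.AG Pool.Agent.MP_20d318_ag.BV
open scoped IntermediateField
open Polynomial IsDedekindDomain

namespace Deg2

theorem fr_eq {A B k L : Type} [CommRing A] [CommRing B] [Algebra A B] [Field k] [Field L]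
    [Algebra k L] (p : Ideal A) (q : Ideal B) [q.LiesOver p] (E : IntermediateField k L)
    (ρ : B →+* L) (hs : Function.Surjective ρ) (hk : ∀ b, ρ b = 0 ↔ b ∈ q)
    (hr : ∀ y, y ∈ E ↔ ∃ a, ρ (algebraMap A B a) = y) :
    Module.finrank (A ⧸ p) (B ⧸ q) = Module.finrank E L := by
  let τ : A →+* E := (ρ.comp (algebraMap A B)).codRestrict E fun a => (hr _).2 ⟨a, rfl⟩
  have h1 : Function.Surjective τ := fun y =>
    let ⟨a, h⟩ := (hr y).1 y.2
    ⟨a, Subtype.ext h⟩
  have e1 : p = RingHom.ker τ := Ideal.ext fun a => by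
    rw [RingHom.mem_ker, Subtype.ext_iff, Ideal.mem_of_liesOver q p, ← hk]
    rfl
  have e2 : q = RingHom.ker ρ := Ideal.ext fun b => (hk b).symm
  refine Algebra.finrank_eq_of_equiv_equiv
    ((Ideal.quotEquivOfEq e1).trans (RingHom.quotientKerEquivOfSurjective h1))
    ((Ideal.quotEquivOfEq e2).trans (RingHom.quotientKerEquivOfSurjective hs)) ?_
  exact Ideal.Quotient.ringHom_ext (RingHom.ext fun a => rfl)

theorem core {k K L F : Type} [Field k] [Field K] [Field L] [Field F] [Algebra k F] [Algebra K L]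
    [Algebra L F] [Algebra K F] [IsScalarTower K L F] [FiniteDimensional L F] [CharZero K]
    (hk : ∀ c : k, ∃ c' : K, algebraMap K F c' = algebraMap k F c) {x : L} (hx : FF.IsRat K x)
    (s : Finset (Place k F)) (f : Place k F → ℤ)
    (hs : ∀ P, P ∈ s ↔ 0 < P.ord (algebraMap L F x) ∧ ∀ c : K, P.v (algebraMap K F c) ≤ 1)
    (hf : ∀ P ∈ s, ∃ (L' : Type) (_ : Field L') (_ : Algebra k L') (ρ : plO P →ₐ[k] L')
      (E : IntermediateField k L'), Function.Surjective ρ ∧ LocHom (plO P) ρ ∧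
      (∀ y, y ∈ E ↔ ∃ c : K, evO (plO P) ρ (algebraMap K F c) = y) ∧
      (Module.finrank E L' : ℤ) = f P) :
    ∑ P ∈ s, P.ord (algebraMap L F x) * f P = Module.finrank L F := by
  refine hx.elim F fun B _ _ _ _ _ _ _ _ _ _ e => ?_
  have x0 : algebraMap L F x ≠ 0 := by
    rw [_root_.map_ne_zero]
    rintro rfl
    exact hx.trans isAlgebraic_zero
  rw [← e] at hs x0 ⊢
  let p : Ideal K[X] := Ideal.span {X}
  have p0 : p ≠ ⊥ := by simp [p]
  have : p.IsMaximal := PrincipalIdealRing.isMaximal_of_irreducible irreducible_X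
  have lo : ∀ q : HeightOneSpectrum B,
      q.asIdeal.LiesOver p ↔ q.valuation F (algebraMap K[X] F X) < 1 := fun q => by
    have := q.isPrime
    rw [FF.alg_tower B]
    refine Iff.trans ⟨fun h => ?_, fun h => ⟨?_⟩⟩ (q.valuation_lt_one_iff_mem _).symm
    · exact (Ideal.mem_of_liesOver q.asIdeal p X).1 (Ideal.mem_span_singleton_self _)
    · exact ‹p.IsMaximal›.eq_of_le (Ideal.IsPrime.under K[X] q.asIdeal).ne_top
        ((Ideal.span_singleton_le_iff_mem _).2 h)
  have ex : ∀ P ∈ s, ∃ q : HeightOneSpectrum B, q.valuation F = P.v := fun P hP => by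
    have : (⟨P.v, P.surj, ((hs P).1 hP).2⟩ : Place K F) ∈ Set.range (FF.toPlace K F (B := B)) := by
      rw [FF.range_toPlace]
      exact ((FF.v_lt_one_iff P x0).2 ((hs P).1 hP).1).le
    obtain ⟨q, h⟩ := this
    exact ⟨q, congrArg Place.v h⟩
  choose q hq using ex
  have lq : ∀ P hP, (q P hP).asIdeal.LiesOver p := fun P hP =>
    (lo _).2 (hq P hP ▸ (FF.v_lt_one_iff P x0).2 ((hs P).1 hP).1)
  rw [← Ideal.sum_ramification_inertia B L F p0, Nat.cast_sum]
  refine Finset.sum_bij (fun P hP => (q P hP).asIdeal)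
    (fun P hP => (IsDedekindDomain.mem_primesOverFinset_iff p0 B).2
      ⟨(q P hP).isPrime, lq P hP⟩)
    (fun P hP P' hP' h => Place.ext' ?_) (fun Q hQ => ?_) fun P hP => ?_
  · rw [← hq P hP, ← hq P' hP', HeightOneSpectrum.ext h]
  · obtain ⟨h1, h2⟩ := (IsDedekindDomain.mem_primesOverFinset_iff p0 B).1 hQ
    let Q' : HeightOneSpectrum B := ⟨Q, h1, Ideal.ne_bot_of_liesOver_of_ne_bot p0 Q⟩
    let P : Place k F := ⟨Q'.valuation F, Q'.valuation_surjective F, fun c => by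
      obtain ⟨c', h⟩ := hk c
      exact h ▸ (FF.toPlace K F Q').triv c'⟩
    have hP : P ∈ s := (hs P).2 ⟨(FF.v_lt_one_iff P x0).1 ((lo Q').1 h2), (FF.toPlace K F Q').triv⟩
    refine ⟨P, hP, congrArg HeightOneSpectrum.asIdeal
      (HeightOneSpectrum.eq_of_valuation_isEquiv_valuation (K := F) (q := Q') ?_)⟩
    rw [hq P hP]
  · obtain ⟨L', _, _, ρ, E, r1, r2, r3, r4⟩ := hf P hP
    have := lq P hP
    have hv := hq P hP
    have hc := ((hs P).1 hP).2
    have hX := (FF.v_lt_one_iff P x0).2 ((hs P).1 hP).1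
    generalize q P hP = Q at this hv
    have b0 : algebraMap K[X] B X ≠ 0 := fun h => x0 (by rw [FF.alg_tower B, h, map_zero])
    have hB : ∀ b : B, algebraMap B F b ∈ plO P := fun b => by
      rw [mem_plO, ← hv]
      exact Q.valuation_le_one b
    let σ : B →+* L' := (ρ : plO P →+* L').comp ((algebraMap B F).codRestrict (plO P) hB)
    have hσ : ∀ b, σ b = evO (plO P) ρ (algebraMap B F b) := fun b => (evO_of_mem ρ (hB b)).symm
    have cl : ∀ a ∈ plO P, ∀ b ∈ plO P, P.v (a - b) < 1 → evO (plO P) ρ a = evO (plO P) ρ b :=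
      fun a ha b hb h => by
        rw [← sub_eq_zero, ← evO_sub ρ ha hb, r2.eq_zero_iff (sub_mem ha hb)]
        exact (mem_mx_plO P).2 h
    rw [Nat.cast_mul, Ideal.inertiaDeg'_algebraMap, fr_eq p Q.asIdeal E σ (fun y => ?_)
      (fun b => ?_) fun y => ?_, r4, Ideal.IsDedekindDomain.ramificationIdx'_eq_multiplicity
        (Ideal.map_ne_bot_of_ne_bot p0) Q.isPrime, Ideal.map_span, Set.image_singleton,
      ← FF.ord_toPlace (K := K) (F := F) B Q b0, ← FF.alg_tower B, Place.ord, Place.ord,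
      FF.toPlace_v, hv]
    · obtain ⟨g, rfl⟩ := r1 y
      obtain ⟨a, ha⟩ := Q.exists_valuation_sub_lt_of_integer (K := F) (x := g) (hv ▸ g.2) 1
      exact ⟨a, by rw [hσ, cl _ (hB a) _ g.2 (hv ▸ ha), evO_coe]⟩
    · rw [hσ, r2.eq_zero_iff (hB b), mem_mx_plO, ← hv]
      exact Q.valuation_lt_one_iff_mem b
    · rw [r3]
      refine ⟨fun ⟨c, h⟩ => ⟨C c, by rw [hσ, ← FF.alg_tower B, FF.alg_C, h]⟩,
        fun ⟨a, h⟩ => ⟨a.eval 0, ?_⟩⟩
      rw [← h, hσ]
      refine (cl _ (hB _) _ (hc _) ?_).symm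
      rw [← FF.alg_tower B, FF.alg_aeval]
      exact FF.v_aeval_sub_lt (P := ⟨P.v, P.surj, hc⟩) (by rwa [map_zero, sub_zero]) a

variable {k M : Type} [Field k] [Field M] [Algebra k M] {w : M}

theorem ind_iff (hw : AlgebraicIndependent k ![w]) (P : Place k M) :
    Ind (plO P) ![w] ↔ ∀ c : k⟮w⟯, P.v (algebraMap k⟮w⟯ M c) ≤ 1 := by
  refine ⟨fun h c => ?_, fun h => ⟨fun i => ?_, fun p hp => ?_⟩⟩
  · obtain ⟨r, s, e⟩ := (IntermediateField.mem_adjoin_simple_iff k _).1 c.2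
    change (c : M) ∈ plO P
    rw [e]
    by_cases hs : s = 0
    · simp [hs]
    have := h.2 (s.toMvPolynomial 0) fun e =>
      hs (Polynomial.toMvPolynomial_injective 0 (e.trans (map_zero _).symm))
    rw [MvPolynomial.aeval_toMvPolynomial] at this
    exact this.div_mem (FF.v_aeval_le (h.1 0) r)
  · obtain rfl := Subsingleton.elim i 0
    exact h (IntermediateField.AdjoinSimple.gen k w)
  · have h1 : MvPolynomial.aeval ![w] p ∈ k⟮w⟯ := by
      apply IntermediateField.algebra_adjoin_le_adjoin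
      rw [← Matrix.range_cons_empty w ![], Algebra.adjoin_range_eq_range_aeval]
      exact ⟨p, rfl⟩
    exact ⟨fun e => hp (hw (e.trans (map_zero _).symm)), h ⟨_, h1⟩, h ⟨_, inv_mem h1⟩⟩

theorem mem_iff {L : Type} [Field L] [Algebra k L] (hw : Transcendental k w) {O : Subalgebra k M}
    (h : ∀ c : k⟮w⟯, algebraMap k⟮w⟯ M c ∈ O) (ρ : O →ₐ[k] L) (y : L) :
    y ∈ k⟮evO O ρ w⟯ ↔ ∃ c : k⟮w⟯, evO O ρ (algebraMap k⟮w⟯ M c) = y := by
  let θ : k⟮w⟯ →ₐ[k] L := ρ.comp (k⟮w⟯.val.codRestrict O h)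
  have e : ∀ c, evO O ρ (algebraMap k⟮w⟯ M c) = θ c := fun c => evO_of_mem ρ (h c)
  have e1 : evO O ρ w = θ (IntermediateField.AdjoinSimple.gen k w) :=
    e (IntermediateField.AdjoinSimple.gen k w)
  simp only [e, e1]
  refine ⟨fun hy => ?_, ?_⟩
  · exact (IntermediateField.adjoin_simple_le_iff (K := θ.fieldRange)).2 ⟨_, rfl⟩ hy
  · rintro ⟨c, rfl⟩
    obtain ⟨p, q, -, rfl⟩ := (FF.isRat_adjoin hw).gen c
    rw [map_div₀, ← aeval_algHom_apply, ← aeval_algHom_apply]
    exact (IntermediateField.mem_adjoin_simple_iff k _).2 ⟨p, q, rfl⟩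

end Deg2

open Deg2 in
theorem deg2_stmt : Deg2Stmt := by
  intro k M _ _ _ _ w u s f hi hfin hs hf
  have hw : AlgebraicIndependent k ![w] := by
    have := hi.comp (fun _ : Fin 1 => 0) fun _ _ _ => Subsingleton.elim _ _
    rwa [show (![w, u] ∘ fun _ : Fin 1 => 0) = ![w] from funext fun i => by
      obtain rfl := Subsingleton.elim i 0
      rfl] at this
  have hu : Transcendental k⟮w⟯ u := by
    have := hi.transcendental_adjoin (s := {0}) (i := 1) (by simp)
    rw [Set.image_singleton] at this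
    exact IntermediateField.transcendental_adjoin_iff.2 this
  rw [← IntermediateField.adjoin_simple_adjoin_simple] at hfin ⊢
  have : FiniteDimensional k⟮w⟯⟮u⟯ M := hfin
  have : CharZero k⟮w⟯ := charZero_of_injective_algebraMap (algebraMap k k⟮w⟯).injective
  have hs' : ∀ P, P ∈ s ↔ 0 < P.ord u ∧ ∀ c : k⟮w⟯, P.v (algebraMap k⟮w⟯ M c) ≤ 1 := fun P => by
    rw [hs, ind_iff hw]
  refine core (K := k⟮w⟯) (L := k⟮w⟯⟮u⟯) (fun c => ⟨algebraMap k _ c, rfl⟩) (FF.isRat_adjoin hu)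
    s f hs' fun P hP => ?_
  obtain ⟨L, _, _, ρ, h1, h2, h3⟩ := hf P hP
  exact ⟨L, _, _, ρ, _, h1, h2, mem_iff (w := w) (hi.transcendental 0) ((hs' P).1 hP).2 ρ, h3⟩

end Pool.Agent.MP_e8e0b6_ag.R2

end Part9
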