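import Pool.Agent.MP_e8e0b6_ag.R2.CSpec
import Pool.Agent.MP_e8e0b6_ag.R2.Spec1

section Part1

-- part 1: Deg3

set_option autoImplicit false

namespace Pool.Agent.MP_e8e0b6_ag.R2

open Pool.Agent.MP_79c67d_ag Pool.Agent.MP_20d318_ag.AG Pool.Agent.MP_20d318_ag.BV
open Pool.Agent.MP_20d318_ag.CB
open scoped IntermediateField

namespace Deg3

variable {k M : Type} [Field k] [Field M] [Algebra k M]

theorem range_two {α : Type} (a b : α) : Set.range ![a, b] = {a, b} := by
  rw [Matrix.range_cons_cons_empty]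

/-- A function with a transcendental residue and a nonzero function that vanishes are
independent. -/
theorem indep {O : Subalgebra k M} (hO : IsLocalRing O) {w u : M} (hw : Ind O ![w])
    (hu : u ∈ mx O) (h0 : u ≠ 0) : AlgebraicIndependent k ![w, u] := by
  have h1 : AlgebraicIndependent k ![w] :=
    algebraicIndependent_iff.2 fun p hp => by_contra fun hn => (hw.2 p hn).1 hp
  have hA : ∀ a : Algebra.adjoin k (Set.range ![w]), (a : M) ∈ O := fun a =>
    Algebra.adjoin_le (Set.range_subset_iff.2 hw.1) a.2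
  have hU : ∀ a : Algebra.adjoin k (Set.range ![w]), a ≠ 0 → IsU O (a : M) := by
    rintro ⟨a, ha⟩ hn
    rw [Algebra.adjoin_range_eq_range_aeval] at ha
    obtain ⟨p, rfl⟩ := ha
    exact hw.2 p fun e => hn (Subtype.ext (by simp [e]))
  have hP : ∀ q : Polynomial (Algebra.adjoin k (Set.range ![w])), Polynomial.aeval u q ∈ O := by
    intro q
    rw [Polynomial.aeval_eq_sum_range]
    exact O.sum_mem fun i _ => O.mul_mem (hA _) (O.pow_mem hu.1 i)
  have h2 : Transcendental (Algebra.adjoin k (Set.range ![w])) u := by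
    rintro ⟨q, hq, hq0⟩
    obtain ⟨r, e, hr⟩ := Polynomial.exists_eq_pow_rootMultiplicity_mul_and_not_dvd q hq 0
    rw [map_zero, sub_zero] at e hr
    rw [e, map_mul, map_pow, Polynomial.aeval_X] at hq0
    have h3 := (mul_eq_zero.1 hq0).resolve_left (pow_ne_zero _ h0)
    rw [← r.divX_mul_X_add, map_add, map_mul, Polynomial.aeval_X, Polynomial.aeval_C,
      add_comm] at h3
    exact ((hU _ (mt Polynomial.X_dvd_iff.2 hr)).add_mx hO (mx_mul_left (hP _) hu)).1 h3
  have h3 := ((h1.option_iff_transcendental u).2 h2).comp ![some 0, none] (by decide)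
  have e : ((fun o : Option (Fin 1) => o.elim u ![w]) ∘ ![some 0, none]) = ![w, u] := by
    funext i
    fin_cases i <;> rfl
  rwa [e] at h3

theorem basis {x y : M} (h : GenP k x y) : IsTranscendenceBasis k ![x, y] := by
  refine h.ind.isTranscendenceBasis_iff_isAlgebraic.2 ?_
  rw [← IntermediateField.isAlgebraic_adjoin_iff_top, range_two, h.top]
  exact ⟨fun a => isAlgebraic_algebraMap (⟨a, trivial⟩ : (⊤ : IntermediateField k M))⟩

theorem fin {x y w u : M} (h : GenP k x y) (hi : AlgebraicIndependent k ![w, u]) :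
    FiniteDimensional k⟮w, u⟯ M := by
  have h3 := (hi.isTranscendenceBasis_of_trdeg_le_of_finite
    (basis h).cardinalMk_eq_trdeg.ge).isAlgebraic_field
  rw [range_two] at h3
  have h4 : FiniteDimensional k⟮w, u⟯ (IntermediateField.adjoin k⟮w, u⟯ ({x, y} : Set M)) :=
    IntermediateField.finiteDimensional_adjoin fun a _ => Algebra.IsIntegral.isIntegral a
  have h5 : IntermediateField.adjoin k⟮w, u⟯ ({x, y} : Set M) = ⊤ := by
    rw [eq_top_iff]
    intro a _
    have h6 : a ∈ IntermediateField.adjoin k ({x, y} : Set M) := h.top ▸ trivial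
    exact (IntermediateField.adjoin_le_iff (T := (IntermediateField.adjoin k⟮w, u⟯
      ({x, y} : Set M)).restrictScalars k)).2 (IntermediateField.subset_adjoin k⟮w, u⟯ _) h6
  rw [h5] at h4
  exact IntermediateField.topEquiv.toLinearEquiv.finiteDimensional

theorem indep' {x y a b : M} (h : GenP k x y) (hf : FiniteDimensional k⟮a, b⟯ M) :
    AlgebraicIndependent k ![a, b] := by
  have : Algebra.IsAlgebraic (Algebra.adjoin k (Set.range ![a, b])) M := by
    rw [← IntermediateField.isAlgebraic_adjoin_iff_top, range_two]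
    infer_instance
  exact (Algebra.IsAlgebraic.isTranscendenceBasis_of_le_trdeg_of_finite k ![a, b]
    (basis h).cardinalMk_eq_trdeg.le).1

theorem field_eq {a₀ a₁ a₂ : M} (h0 : a₀ ≠ 0) (h1 : a₁ ≠ 0) :
    k⟮a₁ / a₀, a₂ / a₀⟯ = k⟮a₂ / a₁, a₀ / a₁⟯ := by
  refine le_antisymm (IntermediateField.adjoin_le_iff.2 ?_) (IntermediateField.adjoin_le_iff.2 ?_)
  · have e1 := IntermediateField.subset_adjoin k {a₂ / a₁, a₀ / a₁} (Or.inl rfl)
    have e2 := IntermediateField.subset_adjoin k {a₂ / a₁, a₀ / a₁} (Or.inr rfl)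
    rintro _ (rfl | rfl)
    · simpa using inv_mem e2
    · have := div_mem e1 e2
      rwa [div_div_div_cancel_right₀ h1] at this
  · have e1 := IntermediateField.subset_adjoin k {a₁ / a₀, a₂ / a₀} (Or.inl rfl)
    have e2 := IntermediateField.subset_adjoin k {a₁ / a₀, a₂ / a₀} (Or.inr rfl)
    rintro _ (rfl | rfl)
    · have := div_mem e2 e1
      rwa [div_div_div_cancel_right₀ h0] at this
    · simpa using inv_mem e1

/-- A point below a ring where `w` has a transcendental residue is not rational. -/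
theorem not_rat {O V : Subalgebra k M} (hd : Dom O V) {w : M} (hw : Ind V ![w])
    (h : w ∈ O ∨ w⁻¹ ∈ O) : ¬ RatPt O := fun hr => by
  rcases h with h | h
  · obtain ⟨c, hc⟩ := hr w h
    exact (hd.mx hc).2 (ind_one hw c)
  · obtain ⟨c, hc⟩ := hr _ h
    have h0 : IsU V w := by simpa using ind_one hw 0
    have h1 := mx_mul_left h0.mem (hd.mx hc)
    rw [mul_sub, mul_inv_cancel₀ h0.1] at h1
    refine h1.2 ?_
    have h2 := hw.2 (1 - MvPolynomial.X 0 * MvPolynomial.C c) fun e => by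
      simpa using congrArg (MvPolynomial.eval fun _ => 0) e
    simpa using h2

end Deg3

open Deg3 in
theorem deg3_stmt : Deg3Stmt := by
  intro h1 h2 k M I _ _ _ _ _ _ S G a₀ a₁ a₂ h N
  have hF := h.a1.nice.toFine
  have hl : ∀ O ∈ S.T, S.lb G O ≠ 0 := fun O hO => S.lb_ne (h.a1.gne O hO) G
  have hm : ∀ O ∈ S.T, ∀ a ∈ ({a₀, a₁, a₂} : Set M), a * S.lb G O ∈ O := fun O hO a ha => by
    simpa using (N.gn O hO).1 a ha
  have hfin := hF.fin_cart (h.a1.pcart G a₀ N.ne)
  have hs : ∀ P, P ∈ hfin.toFinset ↔ plO P ∈ S.T ∧ 0 < P.ord (a₀ * S.lb G (plO P)) := fun P => by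
    rw [Set.Finite.mem_toFinset]
    exact and_congr_right fun hP => ⟨fun e => lt_of_le_of_ne
      (mem_plO_ord.1 (hm _ hP a₀ (by simp))) (Ne.symm e), fun e => e.ne'⟩
  have hdv := h.a2.dv G a₀ hfin.toFinset N.ne (fun P hP => ((hs P).1 hP).1) fun P hP hn =>
    by_contra fun e => hn (hfin.mem_toFinset.2 ⟨hP, e⟩)
  generalize hfin.toFinset = s at hs hdv
  have hd := fun P (hP : P ∈ s) => h1 k M I S G a₀ a₁ a₂ h N P ((hs P).1 hP).1 ((hs P).1 hP).2
  obtain ⟨P₀, hP₀⟩ : s.Nonempty := by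
    refine Finset.nonempty_iff_ne_empty.2 fun e => ?_
    rw [e, Finset.sum_empty] at hdv
    have h3 := h.s.span S.A fun c hc => absurd (N.pos c hc) (by
      rw [hdv]; exact (ip_zero_left c).le.not_gt)
    have h4 := h.s.Af
    rw [h3, ip_zero_left] at h4
    exact h4.false
  have ha₁ : a₁ ≠ 0 := left_ne_zero_of_mul (hd P₀ hP₀).1.1
  have ho : ∀ P : Place k M, plO P ∈ S.T → P.ord (a₀ / a₁) =
      P.ord (a₀ * S.lb G (plO P)) - P.ord (a₁ * S.lb G (plO P)) := fun P hP => by
    rw [← P.ord_div (mul_ne_zero N.ne (hl _ hP)) (mul_ne_zero ha₁ (hl _ hP)),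
      mul_div_mul_right _ _ (hl _ hP)]
  have ho' : ∀ P ∈ s, P.ord (a₀ / a₁) = P.ord (a₀ * S.lb G (plO P)) := fun P hP => by
    rw [ho P ((hs P).1 hP).1, ((isU_plO' P).1 (hd P hP).1).2, sub_zero]
  have hiff : ∀ P, P ∈ s ↔ 0 < P.ord (a₀ / a₁) ∧ Ind (plO P) ![a₂ / a₁] := fun P => by
    refine ⟨fun hP => ⟨ho' P hP ▸ ((hs P).1 hP).2, (hd P hP).2.1⟩, fun ⟨e, hw⟩ => ?_⟩
    obtain ⟨O, hO, hdom⟩ := hF.cpl _ (plO_isVal P)
    have h3 : a₂ / a₁ ∈ O ∨ (a₂ / a₁)⁻¹ ∈ O := by
      obtain ⟨b, hb, hg⟩ := (N.gn O hO).exists_mem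
      rcases hb with rfl | rfl | rfl
      · have h4 := mem_plO_ord.1 (hdom.1 (hg.1 a₁ (by simp)))
        rw [← inv_div, P.ord_inv] at h4
        omega
      · exact Or.inl (hg.1 a₂ (by simp))
      · exact Or.inr (by rw [inv_div]; exact hg.1 a₁ (by simp))
    have hP : plO P ∈ S.T := by
      rcases h.a1.tri O hO with rfl | h4 | ⟨P', rfl⟩
      · exact absurd (top_le_iff.1 hdom.1) (plO_ne_top P)
      · exact absurd h4 (not_rat hdom hw h3)
      · exact (plO_isVal P').eq_of_dom hdom ▸ hO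
    have h4 := mem_plO_ord.1 (hm _ hP a₁ (by simp))
    have h5 := ho P hP
    exact (hs P).2 ⟨hP, by omega⟩
  have hu : a₀ / a₁ ≠ 0 := div_ne_zero N.ne ha₁
  have hi := indep (plO_isVal P₀).isLocalRing (hd P₀ hP₀).2.1
    ((mx_plO hu).2 ((hiff P₀).1 hP₀).1) hu
  obtain ⟨x, y, hxy, -⟩ := h.a1.chart ⊤ hF.top
  have hf := fin hxy hi
  have h3 := h2 k M _ _ s (fun P => S.i G (S.cl P)) hi hf hiff fun P hP => (hd P hP).2.2
  rw [← field_eq N.ne ha₁] at hf h3
  refine ⟨indep' hxy hf, hf, ?_⟩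
  rw [← h3]
  refine ((congrArg (ip S.B G) hdv).trans ?_).symm
  rw [ip_sum_right]
  exact Finset.sum_congr rfl fun P hP => by rw [ip_smul_right, ho' P hP]

end Pool.Agent.MP_e8e0b6_ag.R2

end Part1

section Part2

-- part 2: Gr1

/-! Row GR1: semicontinuity of the kernel of a matrix over a local domain. -/

set_option autoImplicit false

namespace Pool.Agent.MP_e8e0b6_ag.R2

namespace Gr1

open Matrix Module

lemma ker_dim {F n r : Type} [Field F] [Fintype n] [Fintype r] [DecidableEq r] (C : Matrix r n F)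
    (V : Matrix n r F) (h : C * V = 1) :
    finrank F (LinearMap.ker C.mulVecLin) + Fintype.card r = Fintype.card n := by
  have h1 := LinearMap.finrank_range_add_finrank_ker C.mulVecLin
  have h2 : LinearMap.range C.mulVecLin = ⊤ := LinearMap.range_eq_top.2 fun y =>
    ⟨V *ᵥ y, by rw [mulVecLin_apply, mulVec_mulVec, h, one_mulVec]⟩
  rw [h2, finrank_top, finrank_fintype_fun_eq_card, finrank_fintype_fun_eq_card] at h1
  omega

lemma split {k n n' : Type} [Field k] [Fintype n] [Fintype n'] (A : Matrix n' n k) :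
    ∃ (r : ℕ) (B : Matrix (Fin r) n' k) (V : Matrix n (Fin r) k), B * A * V = 1 ∧
      finrank k (LinearMap.ker A.mulVecLin) + r = Fintype.card n := by
  classical
  obtain ⟨s, hs⟩ := A.mulVecLin.rangeRestrict.exists_rightInverse_of_surjective
    A.mulVecLin.range_rangeRestrict
  obtain ⟨t, ht⟩ := (LinearMap.range A.mulVecLin).subtype.exists_leftInverse_of_injective
    (Submodule.ker_subtype _)
  let φ := (Module.finBasis k (LinearMap.range A.mulVecLin)).equivFun
  refine ⟨_, LinearMap.toMatrix' (φ.toLinearMap ∘ₗ t), LinearMap.toMatrix' (s ∘ₗ φ.symm.toLinearMap),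
    ?_, ?_⟩
  · refine Matrix.toLin'.injective (LinearMap.ext fun y => ?_)
    have e1 : A *ᵥ s (φ.symm y) = (φ.symm y : n' → k) :=
      congrArg Subtype.val (LinearMap.congr_fun hs (φ.symm y))
    have e2 : t (φ.symm y : n' → k) = φ.symm y := LinearMap.congr_fun ht (φ.symm y)
    rw [toLin'_mul, toLin'_mul, toLin'_toMatrix', toLin'_toMatrix', toLin'_one]
    show φ (t (A *ᵥ s (φ.symm y))) = y
    rw [e1, e2, LinearEquiv.apply_symm_apply]
  · have h1 := LinearMap.finrank_range_add_finrank_ker A.mulVecLin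
    rw [finrank_fintype_fun_eq_card] at h1
    omega

lemma lift_mat {k R a b : Type} [Field k] [CommRing R] {e : R →+* k} (he : Function.Surjective e)
    (X : Matrix a b k) : ∃ Y : Matrix a b R, Y.map e = X := by
  choose g hg using he
  exact ⟨X.map g, by ext i l; simp [hg]⟩

lemma split' {k R n n' : Type} [Field k] [CommRing R] [IsLocalRing R] [Fintype n] [Fintype n']
    {e : R →+* k} (he : Function.Surjective e) (A : Matrix n' n R) :
    ∃ (r : ℕ) (B : Matrix (Fin r) n' R) (V : Matrix n (Fin r) R), B * A * V = 1 ∧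
      finrank k (LinearMap.ker (A.map e).mulVecLin) + r = Fintype.card n := by
  obtain ⟨r, B0, V0, h1, h2⟩ := split (A.map e)
  obtain ⟨B, rfl⟩ := lift_mat he B0
  obtain ⟨V, rfl⟩ := lift_mat he V0
  have := IsLocalHom.of_surjective e he
  have hu : IsUnit (B * A * V).det := by
    refine isUnit_of_map_unit e _ ?_
    rw [RingHom.map_det, RingHom.mapMatrix_apply, Matrix.map_mul, Matrix.map_mul, h1, det_one]
    exact isUnit_one
  exact ⟨r, (B * A * V)⁻¹ * B, V, by
    rw [Matrix.mul_assoc _ B, Matrix.mul_assoc _ (B * A), nonsing_inv_mul _ hu], h2⟩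

lemma red_mulVec {k R a b : Type} [CommRing k] [CommRing R] [Fintype b] (e : R →+* k)
    (X : Matrix a b R) (w : b → R) : (fun i => e ((X *ᵥ w) i)) = X.map e *ᵥ fun i => e (w i) :=
  funext fun i => RingHom.map_mulVec e X w i

end Gr1

open Matrix Module in
theorem gr1_stmt : Gr1Stmt := by
  intro k R Ω n n' _ _ _ _ _ _ e j A he hj
  classical
  obtain ⟨r, B, V, h1, h2⟩ := Gr1.split' he A
  have h3 := Gr1.ker_dim ((B * A).map j) (V.map j)
    (by rw [← Matrix.map_mul, h1, Matrix.map_one _ (map_zero j) (map_one j)])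
  rw [Fintype.card_fin] at h3
  have hle : LinearMap.ker (A.map j).mulVecLin ≤ LinearMap.ker ((B * A).map j).mulVecLin := by
    rw [Matrix.map_mul, mulVecLin_mul]
    exact LinearMap.ker_le_ker_comp _ _
  have h4 := Submodule.finrank_mono hle
  refine ⟨by omega, fun h5 => ?_⟩
  have heq := Submodule.eq_of_le_of_finrank_le hle (by omega)
  obtain ⟨P, hP⟩ : ∃ P : Matrix n n R, P = 1 - V * (B * A) := ⟨_, rfl⟩
  have hAP : ∀ w, A *ᵥ (P *ᵥ w) = 0 := by
    intro w
    have e1 : (B * A) *ᵥ (P *ᵥ w) = 0 := by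
      rw [mulVec_mulVec, hP, Matrix.mul_sub, Matrix.mul_one, ← Matrix.mul_assoc, h1,
        Matrix.one_mul, sub_self, zero_mulVec]
    have e2 : (fun i => j ((P *ᵥ w) i)) ∈ LinearMap.ker (A.map j).mulVecLin := by
      rw [heq, LinearMap.mem_ker, mulVecLin_apply, ← Gr1.red_mulVec, e1]
      exact funext fun _ => map_zero j
    rw [LinearMap.mem_ker, mulVecLin_apply, ← Gr1.red_mulVec] at e2
    exact funext fun i => hj ((congrFun e2 i).trans (map_zero j).symm)
  have hPw : ∀ w, P *ᵥ w = w - (V * B) *ᵥ (A *ᵥ w) := fun w => by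
    rw [hP, sub_mulVec, one_mulVec, mulVec_mulVec, Matrix.mul_assoc]
  refine ⟨fun v hv => ?_, fun W hW hsp w hw => ?_⟩
  · choose g hg using he
    refine ⟨P *ᵥ fun i => g (v i), hAP _, fun i => ?_⟩
    have e1 := congrFun (Gr1.red_mulVec e (V * B) (A *ᵥ fun i => g (v i))) i
    rw [Gr1.red_mulVec e A] at e1
    simp only [hg, hv, mulVec_zero, Pi.zero_apply] at e1
    rw [hPw, Pi.sub_apply, map_sub, hg, e1, sub_zero]
  · have hN : LinearMap.ker A.mulVecLin = LinearMap.range P.mulVecLin := by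
      apply le_antisymm
      · exact fun x hx => ⟨x, by
          rw [mulVecLin_apply, hPw, show A *ᵥ x = 0 from hx, mulVec_zero, sub_zero]⟩
      · rintro _ ⟨x, rfl⟩
        exact hAP x
    have hWN : Submodule.span R W ≤ LinearMap.ker A.mulVecLin := Submodule.span_le.2 hW
    refine Submodule.le_of_le_smul_of_le_jacobson_bot (I := RingHom.ker e)
      (N' := LinearMap.ker A.mulVecLin) ?_ ?_ (fun x hx => ?_) hw
    · rw [hN, ← Submodule.map_top]
      exact Module.Finite.fg_top.map _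
    · rw [IsLocalRing.jacobson_eq_maximalIdeal ⊥ bot_ne_top]
      exact IsLocalRing.le_maximalIdeal (RingHom.ker_ne_top e)
    · have key : ∀ v ∈ Submodule.span k ((fun w i => e (w i)) '' W),
          ∃ y ∈ Submodule.span R W, (fun i => e (y i)) = v := by
        intro v hv
        induction hv using Submodule.span_induction with
        | mem v hv =>
          obtain ⟨y, hy, rfl⟩ := hv
          exact ⟨y, Submodule.subset_span hy, rfl⟩
        | zero => exact ⟨0, zero_mem _, funext fun _ => map_zero e⟩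
        | add u v _ _ hu hv =>
          obtain ⟨y, hy, rfl⟩ := hu
          obtain ⟨z, hz, rfl⟩ := hv
          exact ⟨y + z, add_mem hy hz, funext fun _ => map_add e _ _⟩
        | smul c v _ hv =>
          obtain ⟨y, hy, rfl⟩ := hv
          obtain ⟨c, rfl⟩ := he c
          exact ⟨c • y, Submodule.smul_mem _ _ hy, funext fun _ => map_mul e _ _⟩
      obtain ⟨y, hy, hxy⟩ := key _ (hsp (fun i => e (x i)) (by
        rw [← Gr1.red_mulVec, show A *ᵥ x = 0 from hx]
        exact funext fun _ => map_zero e))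
      have hd : A *ᵥ (x - y) = 0 := sub_mem hx (hWN hy)
      have e1 : x - y = ∑ i, (x - y) i • P *ᵥ Pi.single i 1 := by
        conv_lhs => rw [← sub_zero (x - y), ← mulVec_zero (V * B), ← hd, ← hPw,
          ← Finset.univ_sum_single (x - y), mulVec_sum]
        exact Finset.sum_congr rfl fun i _ => by
          rw [← mulVec_smul, ← Pi.single_smul', smul_eq_mul, mul_one]
      rw [← add_sub_cancel y x]
      refine Submodule.add_mem_sup hy ?_
      rw [e1]
      refine Submodule.sum_mem _ fun i _ => Submodule.smul_mem_smul ?_ (hAP _)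
      rw [RingHom.mem_ker, Pi.sub_apply, map_sub, sub_eq_zero]
      exact (congrFun hxy i).symm

end Pool.Agent.MP_e8e0b6_ag.R2

end Part2

section Part3

-- part 3: Hcl

/-! The hyperplane class of any projective embedding is ample. -/

set_option autoImplicit false

namespace Pool.Agent.MP_e8e0b6_ag.R2

open Pool.Agent.MP_79c67d_ag Pool.Agent.MP_20d318_ag.AG Pool.Agent.MP_20d318_ag.BV
open Pool.Agent.MP_20d318_ag.CB

theorem hcl_stmt : HclStmt := by
  intro k M I _ _ _ _ _ _ S H h μ s hT hG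
  have e : ∀ a O, a / μ * S.lb h O = a / (μ / S.lb h O) := fun a O => by
    rw [div_div_eq_mul_div, div_mul_eq_mul_div]
  have sec : ∀ a ∈ H, a / μ ∈ S.Sec h := fun a ha O hO => e a O ▸ (hG O hO).1 a ha
  have pos : ∀ c ∈ S.PP, 0 < S.i h c := by
    rintro c ⟨φ, P, hp⟩
    have hP : plO P ∈ S.T := hp.2.1
    obtain ⟨j, hj, hpt⟩ : plO P ∈ mp k (fun _ : Unit => H) := hT ▸ hP
    have hm : ∀ a ∈ H, a / j () ∈ plO P := fun a ha =>
      hpt.2.1 (Algebra.subset_adjoin (Set.mem_iUnion.2 ⟨(), a, ha, rfl⟩))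
    obtain ⟨a, ha, hn⟩ : ∃ a ∈ H, ∀ l : k, a / j () - algebraMap k M l ∉ mx (plO P) := by
      by_contra hc
      refine (s.a1.dim P hP).1 (ratPt_of hpt rfl fun g hg => ?_)
      obtain ⟨⟨⟩, a, ha, rfl⟩ := Set.mem_iUnion.1 hg
      by_contra k1
      exact hc ⟨a, ha, fun l hl => k1 ⟨l, hl⟩⟩
    have j0 : j () ≠ 0 := fun h0 => hn 0 (by
      rw [h0, div_zero, map_zero, sub_zero]
      exact zero_mem_mx)
    have u1 : IsU (plO P) (j () / μ * S.lb h (plO P)) :=
      e _ _ ▸ (gn_of_mem (hj ()) j0 hm).unit (hG _ hP)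
    obtain ⟨n1, n2⟩ := s.a2.nn c φ P hp h _ (sec _ (hj ())) u1
    refine lt_of_le_of_ne n1 fun h0 => ?_
    obtain ⟨ν, hν, -⟩ := s.a1.cur P hP
    obtain ⟨Q⟩ := exists_pl ν
    have hle : ν.pt Q ≤ plO P := hν ▸ ν.pt_le Q
    have u2 := n2.1 h0.symm _ (ν.pt_mem Q) hle
    have e2 : ∀ (l : k) O, (a / μ - l • (j () / μ)) * S.lb h O =
        (a / j () - algebraMap k M l) * (j () / μ * S.lb h O) := fun l O => by
      rw [Algebra.smul_def, ← mul_assoc, sub_mul (a / j ()), div_mul_div_cancel₀ j0]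
    have m1 : a / j () ∈ ν.pt Q := by
      have := u2.div_mem (sec a ha _ (ν.pt_mem Q))
      have e3 := e2 0 (ν.pt Q)
      rw [zero_smul, sub_zero, map_zero, sub_zero] at e3
      rwa [e3, mul_div_cancel_right₀ _ u2.1] at this
    obtain ⟨l, hl⟩ := pt_rat ν Q _ m1
    have u3 := (s.a2.nn c φ P hp h _ ((S.Sec h).sub_mem (sec a ha)
      ((S.Sec h).smul_mem l (sec _ (hj ())))) (e2 l _ ▸ (isU_of_not_mx
        ((plO P).sub_mem (hm a ha) ((plO P).algebraMap_mem l)) (hn l)).mul u1)).2.1 h0.symm _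
      (ν.pt_mem Q) hle
    rw [e2] at u3
    exact u3.not_mx (mx_mul_right hl u2.mem)
  refine ⟨pos, ?_⟩
  obtain ⟨a, ha, hu⟩ := (hG ⊤ s.a1.nice.toFine.top).2
  have ef := s.a2.eff1 h _ (sec a ha) (left_ne_zero_of_mul (e a ⊤ ▸ hu.1))
  have key : ∀ c ∈ S.Ef, c = 0 ∨ 0 < S.i h c := fun c hc => by
    induction hc using AddSubmonoid.closure_induction with
    | mem x hx => exact Or.inr (pos x hx)
    | zero => exact Or.inl rfl
    | add x y _ _ hx hy =>
      rcases hx with rfl | hx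
      · rwa [zero_add]
      · rcases hy with rfl | hy
        · exact Or.inr (by rwa [add_zero])
        · exact Or.inr (by rw [Sd.i, ip_add_right]; exact add_pos hx hy)
  refine (key h ef).resolve_left fun h0 => ?_
  have z : ∀ c : I → ℤ, c = 0 := fun c => s.s.span c fun c' hc' => by
    have := pos c' hc'
    rw [h0, Sd.i, ip_zero_left] at this
    exact absurd this (lt_irrefl _)
  have n := s.s.noe
  rw [z S.K, ip_zero_left] at n
  obtain ⟨i⟩ := Fintype.card_pos_iff.1 (by omega : 0 < Fintype.card I)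
  exact one_ne_zero (congrFun (z 1) i)

end Pool.Agent.MP_e8e0b6_ag.R2

end Part3

section Part4

-- part 4: Lat

/-! Row LAT: a group of pairs of classes with equal squares is the graph of an isometry. -/

set_option autoImplicit false

namespace Pool.Agent.MP_e8e0b6_ag.R2

open Pool.Agent.MP_79c67d_ag Pool.Agent.MP_20d318_ag.AG Pool.Agent.MP_20d318_ag.BV
open Pool.Agent.MP_20d318_ag.CB

namespace Lat

theorem nd {I : Type} [Fintype I] {B : I → I → ℤ} (h : Hg B) {c : I → ℤ}
    (hc : ∀ y, ip B c y = 0) : c = 0 :=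
  toR_inj ((h.nd (toR c) fun y => by rw [ip_toR, hc y, Int.cast_zero]).trans toR_zero.symm)

theorem main {J I : Type} [Fintype J] [Fintype I] {B' : J → J → ℤ} {B : I → I → ℤ}
    (Γ : AddSubgroup ((J → ℤ) × (I → ℤ))) (s' : ∀ i j, B' i j = B' j i) (s : ∀ i j, B i j = B j i)
    (g' : Hg B') (g : Hg B) (uni : ∀ d : (J → ℤ) →+ ℤ, ∃ z : J → ℤ, ∀ c, ip B' c z = d c)
    (A : J → ℤ) (hA : 0 < ip B' A A) (h1 : ∀ c', ∃ c, (c', c) ∈ Γ)
    (h2 : ∀ p ∈ Γ, ip B p.2 p.2 = ip B' p.1 p.1) :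
    ∃ β : (J → ℤ) →+ (I → ℤ), (∀ p ∈ Γ, β p.1 = p.2) ∧ (∀ c c', ip B (β c) (β c') = ip B' c c') ∧
      Function.Injective β ∧ (Fintype.card J = Fintype.card I → Function.Surjective β) := by
  have pol : ∀ p ∈ Γ, ∀ q ∈ Γ, ip B p.2 q.2 = ip B' p.1 q.1 := fun p hp q hq => by
    have e := h2 _ (Γ.add_mem hp hq)
    simp only [Prod.fst_add, Prod.snd_add, ip_add_left, ip_add_right] at e
    have e1 := h2 p hp
    have e2 := h2 q hq
    have e3 := ip_comm s p.2 q.2
    have e4 := ip_comm s' p.1 q.1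
    omega
  have ker : ∀ d, ((0 : J → ℤ), d) ∈ Γ → d = 0 := fun d hd => by
    obtain ⟨a, ha⟩ := h1 A
    have e1 : ip B a a = ip B' A A := h2 _ ha
    have e2 : ip B d a = 0 := (pol _ hd _ ha).trans (ip_zero_left _)
    have e3 : ip B d d = 0 := (h2 _ hd).trans (ip_zero_left _)
    by_contra h0
    have := g.neg (toR a) (toR d) (by rw [ip_toR, e1]; exact_mod_cast hA)
      (by rw [ip_toR, e2, Int.cast_zero]) fun h => h0 (toR_inj (h.trans toR_zero.symm))
    rw [ip_toR, e3, Int.cast_zero] at this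
    exact lt_irrefl _ this
  choose b hb using h1
  have uq : ∀ p ∈ Γ, b p.1 = p.2 := fun p hp => by
    have := Γ.sub_mem (hb p.1) hp
    rw [show ((p.1, b p.1) - p : (J → ℤ) × (I → ℤ)) = (0, b p.1 - p.2) from
      Prod.ext (sub_self _) rfl] at this
    exact sub_eq_zero.1 (ker _ this)
  let β : (J → ℤ) →+ (I → ℤ) := AddMonoidHom.mk' b fun c c' => uq _ (Γ.add_mem (hb c) (hb c'))
  have iso : ∀ c c', ip B (β c) (β c') = ip B' c c' := fun c c' => pol _ (hb c) _ (hb c')
  have inj : Function.Injective β := (injective_iff_map_eq_zero β).2 fun c hc =>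
    nd g' fun y => by rw [← iso, hc, ip_zero_left]
  refine ⟨β, uq, iso, inj, fun hc c => ?_⟩
  obtain ⟨z, hz⟩ := uni (AddMonoidHom.mk' (fun c' => ip B (β c') c) fun u v => by
    rw [map_add, ip_add_left])
  refine ⟨z, (sub_eq_zero.1 (nd g fun y => ?_))⟩
  have hr : Module.finrank ℤ (LinearMap.range β.toIntLinearMap) = Module.finrank ℤ (I → ℤ) := by
    rw [LinearMap.finrank_range_of_inj inj, Module.finrank_fintype_fun_eq_card,
      Module.finrank_fintype_fun_eq_card, hc]
  have ht : Module.IsTorsion ℤ ((I → ℤ) ⧸ LinearMap.range β.toIntLinearMap) := by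
    rw [← Module.finrank_eq_zero_iff_isTorsion]
    have := Submodule.finrank_quotient_add_finrank (LinearMap.range β.toIntLinearMap)
    omega
  obtain ⟨n, hn⟩ := @ht (Submodule.Quotient.mk y)
  rw [Submonoid.smul_def, ← Submodule.Quotient.mk_smul, Submodule.Quotient.mk_eq_zero] at hn
  obtain ⟨w, hw⟩ := hn
  have e : ip B (β z - c) ((n : ℤ) • y) = 0 := by
    rw [← hw, ip_sub_left, ip_comm s c]
    have e1 : ip B' w z = ip B (β w) c := hz w
    have e2 : ip B (β z) (β w) = ip B' z w := iso z w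
    exact sub_eq_zero.2 (e2.trans ((ip_comm s' z w).trans e1))
  rw [ip_smul_right] at e
  exact (mul_eq_zero.1 e).resolve_left (nonZeroDivisors.coe_ne_zero n)

end Lat

theorem lat_stmt : LatStmt := by
  intro Ω N J k M I _ _ _ _ _ _ _ _ S' S Γ a' a g' g l h1 h2 hK
  obtain ⟨β, b1, b2, b3, b4⟩ := Lat.main Γ a'.s.sym a.s.sym g' g l.uni S'.A l.AA h1 h2
  have e : ip S.B S.K S.K = ip S'.B S'.K S'.K := h2 _ hK
  have e1 := a'.s.noe
  have e2 := a.s.noe
  exact ⟨AddEquiv.ofBijective β ⟨b3, b4 (by omega)⟩, b1, b2⟩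

end Pool.Agent.MP_e8e0b6_ag.R2

end Part4

section Part5

-- part 5: Prime

/-! An exceptional curve contracted by a nef class stays prime under specialisation. -/

set_option autoImplicit false

namespace Pool.Agent.MP_e8e0b6_ag.R2

open Pool.Agent.MP_79c67d_ag Pool.Agent.MP_20d318_ag.AG Pool.Agent.MP_20d318_ag.BV
open Pool.Agent.MP_20d318_ag.CB

namespace Prime

variable {k M I : Type} [Field k] [Field M] [Algebra k M] [Fintype I] {S : Sd k M I}

theorem nn {D c : I → ℤ} (h : Nef S D) (hc : c ∈ S.Ef) : 0 ≤ S.i D c := by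
  induction hc using AddSubmonoid.closure_induction with
  | mem x hx => exact h x hx
  | zero => exact (ip_zero_right D).ge
  | add x y _ _ hx hy => exact (add_nonneg hx hy).trans (ip_add_right D x y).ge

theorem core {D c : I → ℤ} (h : Nef S D) (h0 : ∀ x ∈ S.PP, S.i D x = 0 → S.i S.K x ≤ -1)
    (hc : c ∈ S.Ef) : S.i D c = 0 → c = 0 ∨ (S.i S.K c ≤ -1 ∧ (S.i S.K c = -1 → c ∈ S.PP)) := by
  induction hc using AddSubmonoid.closure_induction with
  | mem x hx => exact fun e => .inr ⟨h0 x hx e, fun _ => hx⟩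
  | zero => exact fun _ => .inl rfl
  | add x y hx hy ix iy =>
    intro e
    have a := nn h hx
    have b := nn h hy
    have e1 : S.i D (x + y) = S.i D x + S.i D y := ip_add_right D x y
    have e2 : S.i S.K (x + y) = S.i S.K x + S.i S.K y := ip_add_right S.K x y
    rcases ix (by omega) with rfl | ⟨p, p'⟩
    · rw [zero_add]; exact iy (by omega)
    rcases iy (by omega) with rfl | ⟨q, -⟩
    · rw [add_zero]; exact .inr ⟨p, p'⟩
    · exact .inr ⟨by omega, fun _ => by omega⟩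

end Prime

theorem prime_stmt : PrimeStmt := by
  intro Ω N J k M I _ _ _ _ _ _ _ _ _ _ _ _ S' S β h e hS' hS hL hβ hA he hM hN
  have ef : β e ∈ S.Ef := hβ.ef e (AddSubmonoid.subset_closure he)
  set τ := S'.i h e with hτ
  have τ0 : 0 ≤ τ := by
    rw [hτ, ← hβ.ip]
    exact Prime.nn (fun c hc => (hA.pos c hc).le) ef
  have ex : ∀ c, S.i (β (h + τ • S'.K)) c = S.i (β h) c + τ * S.i S.K c := fun c => by
    rw [map_add, map_zsmul, hβ.can]
    exact (ip_add_left _ _ _).trans (congrArg _ (ip_smul_left τ S.K c))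
  have nef : Nef S (β (h + τ • S'.K)) := by
    intro c hc
    by_cases hK : 0 ≤ S.i S.K c
    · rw [ex]
      exact add_nonneg (hA.pos c hc).le (mul_nonneg τ0 hK)
    obtain ⟨c', rfl⟩ := β.surjective c
    have a : -2 ≤ S.i (β c') (β c') + S.i S.K (β c') := hS.a4.adj _ hc
    have b : S'.i S'.K c' ≤ S'.i c' c' := by
      rw [← hβ.ip, ← hβ.ip, hβ.can]
      omega
    rcases hS'.a4.rr c' b with q | q
    · rw [hβ.ip]
      exact Prime.nn hN q
    · have q' := S.Ef.add_mem (hβ.ef _ q) (AddSubmonoid.subset_closure hc)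
      rw [map_sub, sub_add_cancel, hβ.can] at q'
      have f0 : 0 ≤ S.i S.f S.K := Prime.nn (hS.a2.gg _ hL.ggf) q'
      have f1 : S.i S.f S.K = S.i S.K S.f := ip_comm hS.s.sym _ _
      have := hL.Kf
      omega
  have kK : S.i S.K (β e) = -1 := by rw [← hβ.can, hβ.ip]; exact hM.2
  rcases Prime.core nef (fun x hx e0 => by
    by_contra hK
    rw [ex] at e0
    have := hA.pos x hx
    have := mul_nonneg τ0 (show 0 ≤ S.i S.K x by omega)
    omega) ef (by rw [ex, kK, hβ.ip]; omega) with z | ⟨-, p⟩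
  · rw [z] at kK
    exact absurd (kK.symm.trans (ip_zero_right S.K)) (by norm_num)
  · exact p kK

end Pool.Agent.MP_e8e0b6_ag.R2

end Part5

section Part6

-- part 6: Three

/-! Three members of a system without base points have no common zero. -/

set_option autoImplicit false

namespace Pool.Agent.MP_e8e0b6_ag.R2

open Pool.Agent.MP_79c67d_ag Pool.Agent.MP_20d318_ag.AG Pool.Agent.MP_20d318_ag.BV
open Pool.Agent.MP_20d318_ag.CB

namespace Three

variable {k M : Type} [Field k] [CharZero k] [IsAlgClosed k] [Field M] [Algebra k M]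
  {X : Set (Subalgebra k M)} {f : Subalgebra k M → M}

/-- A divisor that does not contain a curve meets it in finitely many points. -/
theorem fin_pt (hX : Good X) (hf : IsCart X f) (ν : Curve X) (hu : IsU ν.gen (f ν.gen)) :
    {Q | f (ν.pt Q) ∈ mx (ν.pt Q)}.Finite := by
  refine ((hf.finite hX ν).union (FF.finite_ord (K := k) (ν.ev (f ν.gen)))).subset fun Q hQ => ?_
  by_contra hn
  simp only [Set.mem_union, Function.mem_support, not_or, not_not] at hn
  have h1 := hf.unit (ν.pt_mem Q) ν.gen_mem (ν.pt_le Q)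
  have e : ν.ev (f (ν.pt Q)) = ν.ev (f (ν.pt Q) / f ν.gen) * ν.ev (f ν.gen) := by
    rw [ν.ev_eq, ν.ev_eq, ν.ev_eq, ← evO_mul _ h1.2.1 hu.2.1, div_mul_cancel₀ _ hu.1]
  refine hQ.2 ((ν.v_eq_one_iff Q hQ.1).1 ((isU_plO Q).1 ?_))
  rw [e]
  exact ((isU_plO' Q).2 ⟨evO_ne _ h1, hn.1⟩).mul ((isU_plO' Q).2 ⟨evO_ne _ hu, hn.2⟩)

end Three

theorem three_stmt : ThreeStmt := by
  intro av k M I _ _ _ _ _ _ S G U h hU
  have hG := h.a1.nice.toFine.toGood
  have hT := h.a1.nice.toFine.top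
  have mem : ∀ a ∈ Submodule.span k U, ∀ O ∈ S.T, a * S.lb G O ∈ O := fun a ha =>
    (Submodule.span_le (p := S.Sec G)).2 (fun b hb O hO => by
      simpa only [div_inv_eq_mul] using (hU O hO).1 b hb) ha
  have av' : ∀ Φ : Set (Subalgebra k M), Φ.Finite → Φ ⊆ S.T →
      ∃ a ∈ Submodule.span k U, ∀ O ∈ Φ, IsU O (a * S.lb G O) := fun Φ h1 h2 => by
    simpa only [div_inv_eq_mul] using av k M U Φ (fun O => (S.lb G O)⁻¹) h1
      fun O hO => ⟨hG.loc O (h2 hO), hU O (h2 hO)⟩
  obtain ⟨a₀, m₀, u₀⟩ := av' {⊤} (Set.finite_singleton _) (Set.singleton_subset_iff.2 hT)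
  have n₀ : a₀ ≠ 0 := left_ne_zero_of_mul (u₀ ⊤ rfl).1
  have c₀ := h.a1.pcart G a₀ n₀
  have f₀ := h.a1.nice.toFine.fin_cart c₀
  obtain ⟨a₁, m₁, u₁⟩ := av' _ ((f₀.image plO).insert ⊤) (Set.insert_subset hT (by
    rintro _ ⟨P, hP, rfl⟩
    exact hP.1))
  have c₁ := h.a1.pcart G a₁ (left_ne_zero_of_mul (u₁ ⊤ (Set.mem_insert _ _)).1)
  have f₁ : ∀ P : Place k M, plO P ∈ S.T ∧ P.ord (a₀ * S.lb G (plO P)) ≠ 0 →
      {O | O ∈ S.T ∧ O ≤ plO P ∧ a₁ * S.lb G O ∈ mx O}.Finite := fun P hP => by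
    obtain ⟨ν, e, -⟩ := h.a1.cur P hP.1
    have u := u₁ _ (Set.mem_insert_of_mem _ ⟨P, hP, rfl⟩)
    rw [← e] at u ⊢
    refine ((Three.fin_pt hG c₁ ν u).image ν.pt).subset ?_
    rintro O ⟨h1, h2, h3⟩
    obtain ⟨Q, rfl⟩ := h.a1.pt ν O h1 h2 fun c => u.not_mx (c ▸ h3)
    exact ⟨Q, h3, rfl⟩
  obtain ⟨a₂, m₂, u₂⟩ := av' _ (f₀.biUnion f₁) (Set.iUnion₂_subset fun P _ O hO => hO.1)
  refine ⟨a₀, m₀, a₁, m₁, a₂, m₂, n₀, fun O hO => ⟨?_, ?_⟩⟩
  · rintro a (rfl | rfl | rfl) <;> rw [div_inv_eq_mul]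
    exacts [mem _ m₀ O hO, mem _ m₁ O hO, mem _ m₂ O hO]
  · simp only [div_inv_eq_mul]
    by_cases b₀ : IsU O (a₀ * S.lb G O)
    · exact ⟨a₀, .inl rfl, b₀⟩
    by_cases b₁ : IsU O (a₁ * S.lb G O)
    · exact ⟨a₁, .inr (.inl rfl), b₁⟩
    refine ⟨a₂, .inr (.inr rfl), u₂ O ?_⟩
    by_contra hn
    refine b₀ (h.a1.nice.unit c₀ hO fun P h1 h2 => by_contra fun h3 => hn ?_)
    exact Set.mem_iUnion₂.2 ⟨P, ⟨h1, h3⟩, hO, h2, mem _ m₁ O hO, b₁⟩

end Pool.Agent.MP_e8e0b6_ag.R2

end Part6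

section Part7

-- part 7: Vn

/-! Row VN: a local ring dominated by all valuation rings over `P` is finite over `P`. -/

set_option autoImplicit false

namespace Pool.Agent.MP_e8e0b6_ag.R2

open Pool.Agent.MP_20d318_ag.AG

namespace Vn

open Polynomial Algebra IsLocalRing in
set_option backward.isDefEq.respectTransparency.types false in
theorem exists_dom {K : Type} [Field K] {x : K} {R : LocalSubring K}
    (hxR : ¬ IsIntegral R.toSubring x) :
    ∃ V : ValuationSubring K, R ≤ V.toLocalSubring ∧ x ∉ V := by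
  obtain rfl | hx0 := eq_or_ne x 0
  · exact (hxR isIntegral_zero).elim
  let := invertibleOfNonzero hx0
  let B := Algebra.adjoin R.toSubring {x⁻¹}
  let xinv : B.toSubring := ⟨x⁻¹, subset_adjoin rfl⟩
  have : (maximalIdeal R.toSubring).map (algebraMap _ B) + .span {xinv} ≠ ⊤ := fun eq ↦ hxR <|
    have ⟨p, hp, hpx⟩ := exists_aeval_invOf_eq_zero_of_idealMap_adjoin_sup_span_eq_top _ _
      (maximalIdeal.isMaximal R.toSubring).ne_top eq
    have H : IsUnit p.leadingCoeff := of_not_not fun h ↦ by simpa using sub_mem h hp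
    ⟨.C H.unit⁻¹.1 * p, by simp [Polynomial.Monic], by simpa using .inr hpx⟩
  have ⟨V, hV⟩ := Ideal.image_subset_nonunits_valuationSubring (A := B.toSubring) _ this
  refine ⟨V, ⟨fun r hr ↦ hV.1 (B.algebraMap_mem ⟨r, hr⟩),
    ((local_hom_TFAE _).out 3 0).mp fun r hr ↦ ?_⟩, (V.inv_mem_nonunits_iff.mp <|
      hV.2 ⟨_, le_add_self (α := Ideal B) (Ideal.subset_span rfl), rfl⟩).resolve_left hx0⟩
  rw [← V.image_maximalIdeal] at hV
  obtain ⟨⟨r, _⟩, hr, rfl⟩ :=
    hV.2 ⟨_, le_self_add (α := Ideal B) (Ideal.mem_map_of_mem _ hr), rfl⟩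
  exact hr

variable {k N : Type} [Field k] [Field N] [Algebra k N]

theorem integral {P O : Subalgebra k N} (hw : IsLocalRing P)
    (h : ∀ V : Subalgebra k N, IsVal V → Dom P V → Dom O V) {f : N} (hf : f ∈ O) :
    IsIntegral P f := by
  by_contra hn
  obtain ⟨B, h1, h2⟩ := exists_dom (R := @LocalSubring.mk N _ P.toSubring hw) hn
  obtain ⟨V, h3, h4, h5⟩ := dom_of_le_valuationSubring hw B h1
  exact h2 ((h5 f).1 ((h V h3 h4).1 hf))

theorem inv_mem {R : Type} [CommRing R] [Algebra R N] {A : Subalgebra R N} {b : N} (hb : b ∈ A)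
    (h0 : b ≠ 0) (hi : IsIntegral A b⁻¹) : b⁻¹ ∈ A := by
  have h1 : Function.Injective (algebraMap A (integralClosure A N)) := fun x y h =>
    Subtype.ext (congrArg (fun z : integralClosure A N => (z : N)) h)
  have h2 := RingHom.IsIntegral.isLocalHom (f := algebraMap A (integralClosure A N))
    (fun x => Algebra.IsIntegral.isIntegral x) h1
  obtain ⟨c, hc⟩ := isUnit_iff_exists_inv.1 (h2.1 ⟨b, hb⟩
    (isUnit_iff_exists_inv.2 ⟨⟨b⁻¹, hi⟩, Subtype.ext (mul_inv_cancel₀ h0)⟩))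
  exact eq_inv_of_mul_eq_one_right (congrArg Subtype.val hc : b * c = 1) ▸ c.2

end Vn

theorem vn : VnStmt := by
  intro k F _ _ _ P O G hl hG ⟨_, h1, h2⟩ hV
  have hP : P ≤ O := le_sup_left.trans h1
  have hO : G ⊆ O := fun g hg => (le_sup_right.trans h1) (Algebra.subset_adjoin hg)
  obtain ⟨W, hW, e⟩ := Submodule.fg_def.1
    (fg_adjoin_of_finite hG fun g hg => Vn.integral hl hV (hO hg))
  have h3 : P ⊔ Algebra.adjoin k G ≤ (Algebra.adjoin P G).restrictScalars k :=
    sup_le (fun a ha => (Algebra.adjoin P G).algebraMap_mem ⟨a, ha⟩)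
      (Algebra.adjoin_le (Algebra.subset_adjoin (R := P)))
  refine ⟨W, hW, fun z => ?_⟩
  rw [e, Subalgebra.mem_toSubmodule]
  refine ⟨fun hz => ?_, fun hz => ?_⟩
  · obtain ⟨a, ha, b, hb, hu, rfl⟩ := h2 z hz
    rw [div_eq_mul_inv]
    exact mul_mem (h3 ha) (Vn.inv_mem (h3 hb) hu.1 (Vn.integral hl hV hu.2.2).tower_top)
  · induction hz using Algebra.adjoin_induction with
    | mem x hx => exact hO hx
    | algebraMap r => exact hP r.2
    | add x y _ _ hx hy => exact O.add_mem hx hy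
    | mul x y _ _ hx hy => exact O.mul_mem hx hy

end Pool.Agent.MP_e8e0b6_ag.R2

end Part7
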