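import Pool.Agent.MP_e8e0b6_ag.R2.SpecS

section Part1

-- part 1: Atl

/-!
The standard charts as an atlas.
-/

set_option autoImplicit false

open Polynomial TensorProduct

namespace Pool.Agent.MP_e8e0b6_ag.R2

namespace AtlX

variable {A κ : Type} [CommRing A] [Field κ] [Algebra A κ]

theorem adj_le {S : Set κ} {O : Subring κ} (hA : ∀ c, algebraMap A κ c ∈ O) (hS : ∀ x ∈ S, x ∈ O) :
    ∀ x ∈ Algebra.adjoin A S, x ∈ O := fun _ hx =>
  Algebra.adjoin_induction hS hA (fun _ _ _ _ => O.add_mem) (fun _ _ _ _ => O.mul_mem) hx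

/-- the chart where `j` generates -/
abbrev chart (A : Type) [CommRing A] [Algebra A κ] (H : Set κ) (j : κ) : Subalgebra A κ :=
  Algebra.adjoin A ((fun a => a / j) '' H)

theorem div_mem {H : Set κ} {a : κ} (ha : a ∈ H) (j : κ) : a / j ∈ chart A H j :=
  Algebra.subset_adjoin ⟨a, ha, rfl⟩

theorem le_cen {H : Set κ} {i j : κ} {W : Subring κ} (hj : j ∈ H) (hi0 : i ≠ 0) (hj0 : j ≠ 0)
    (h1 : j / i ∈ W) (h2 : i / j ∈ W) :
    ∀ x ∈ chart A H j, x ∈ cen ((chart A H i).val : chart A H i →+* κ) W := by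
  refine adj_le (fun c => map_mem_cen (r := ((chart A H i).val : chart A H i →+* κ))
    (algebraMap A _ c)) ?_
  rintro _ ⟨a, ha, rfl⟩
  refine ⟨⟨_, div_mem ha i⟩, ⟨_, div_mem hj i⟩, ⟨h1, div_ne_zero hj0 hi0, ?_⟩, ?_⟩
  · change (j / i)⁻¹ ∈ W
    rwa [inv_div]
  · change a / j * (j / i) = a / i
    field_simp

end AtlX

open AtlX in
theorem atl_stmt : AtlStmt := by
  intro A κ _ _ _ _ H w hH h1 hfr hw hq
  refine ⟨{ A := fun j => chart A H j.1
            κ := fun j => (chart A H j.1).val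
            inj := fun j => Subtype.val_injective
            frac := fun j ω => ?_
            ft := fun j => Algebra.FiniteType.adjoin_of_finite (hH.image _)
            sep := fun i j W _ hi hj a => le_cen j.2.1 i.2.2 j.2.2 (hi ⟨_, div_mem j.2.1 _⟩)
              (hj ⟨_, div_mem i.2.1 _⟩) a.1 a.2
            gi := fun D _ _ _ _ _ => ?_ }, fun O hO => ?_⟩
  · obtain ⟨a, ha, s, hs, hs0, e⟩ := hfr ω
    have key := le_cen (A := A) (W := ⊤) h1 j.2.2 one_ne_zero (Subring.mem_top _) (Subring.mem_top _)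
    have e1 : chart A H 1 = Algebra.adjoin A H := by simp [chart]
    rw [e1] at key
    obtain ⟨a1, s1, u1, f1⟩ := key a ha
    obtain ⟨a2, s2, u2, f2⟩ := key s hs
    change a * s1.1 = a1.1 at f1
    change s * s2.1 = a2.1 at f2
    have n1 : s1.1 ≠ 0 := u1.2.1
    have n2 : s2.1 ≠ 0 := u2.2.1
    refine ⟨a1 * s2, a2 * s1, fun h0 => ?_, ?_⟩
    · have h3 : a2.1 * s1.1 = 0 := congrArg Subtype.val h0
      rw [← f2] at h3
      exact mul_ne_zero (mul_ne_zero hs0 n2) n1 h3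
    · change ω * (a2.1 * s1.1) = a1.1 * s2.1
      rw [← f1, ← f2, ← e]
      ring
  · have : IsDomain (D ⊗[A] A[X]) := (polyEquivTensor A D).symm.toMulEquiv.isDomain
    exact isDomain_tensor (r := aeval w) (transcendental_iff_injective.1 hw) hq
  · constructor
    · rintro ⟨j, hj⟩
      exact ⟨j.1, j.2.1, j.2.2, fun a ha => hj ⟨_, div_mem ha _⟩⟩
    · rintro ⟨j, hj, hj0, h⟩
      refine ⟨⟨j, hj, hj0⟩, fun a => adj_le hO ?_ a.1 a.2⟩
      rintro _ ⟨b, hb, rfl⟩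
      exact h b hb

end Pool.Agent.MP_e8e0b6_ag.R2

end Part1

section Part2

-- part 2: Ats

/-!
The class of rational curves on all fibres, and the charts.
-/

set_option autoImplicit false

namespace Pool.Agent.MP_e8e0b6_ag.R2

open Pool.Agent.MP_79c67d_ag Pool.Agent.MP_20d318_ag Pool.Agent.MP_20d318_ag.AG
  Pool.Agent.MP_20d318_ag.BV Pool.Agent.MP_20d318_ag.CB

theorem ats_stmt (h1 : Mk2Stmt) (h2 : AmpStmt) (h3 : GoodStmt) (h4 : DtStmt) (h5 : SpStmt)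
    (h6 : ChStmt) (h7 : LzStmt) : AtsStmt := by
  intro k F Ω E J _ _ _ _ _ _ _ _ _ _ _ _ C H μ S' gd hr
  obtain ⟨h', cl, ef, pos⟩ := h2 Ω E J S' (μ '' H) (h1 Ω E J S' gd.gc.mrk).all
    (gd.fm.fin.image _) (by
      rintro _ ⟨a, ha, rfl⟩
      exact (map_ne_zero μ).2 (gd.fm.nz a ha)) gd.gc.eq
  obtain ⟨ε, hε⟩ := h3 Ω E J S' h' gd.gc.mrk ef pos
  obtain ⟨γ, dt, lg⟩ := h4 k F Ω E J C H μ S' gd.fm gd.gc hr ε
  refine ⟨γ, dt, fun R hR rat => ?_⟩
  have sub := (h7 k F C R H ⟨hR.2.1, hR.2.2⟩).1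
  have gc : Gc R H μ S' := ⟨gd.gc.mrk, gd.gc.eq, fun c hc => by
      obtain ⟨a, ha, b, hb, -, rfl⟩ := hR.2.2 c hc
      obtain ⟨a', e⟩ := gd.gc.base a ha
      obtain ⟨b', e'⟩ := gd.gc.base b hb
      exact ⟨a' / b', by rw [map_div₀, map_div₀, e, e']⟩,
    fun ι v hv => gd.gc.ld ι v (linearIndependent_iff'.2 fun s g hg i hi => Subtype.ext
      (congrArg Subtype.val (linearIndependent_iff'.1 hv s
        (fun i => Subalgebra.inclusion hR.2.1 (g i)) hg i hi) :))⟩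
  obtain ⟨M, _, _, I, _, ξ, ρ, S, lc⟩ := gd.lc R hR rat
  obtain ⟨la, σ, sp⟩ := h5 k F M Ω E I J R H ξ ρ S μ S' lc gc hr
  obtain ⟨U, V, hU, hV, h⟩ := dt
  obtain ⟨φ, h0, hφ⟩ := lg
  obtain ⟨u, hu, lb⟩ := sp.rel ε γ ⟨U, V, ⟨hU.1, fun O hO => hU.2 O (sub hO)⟩,
    ⟨hV.1, fun O hO => hV.2 O (sub hO)⟩, fun O hO => h O (sub hO)⟩
    ⟨φ, h0, fun O' hO' O hO => hφ O' hO' O (sub hO)⟩
  exact ⟨⟨M, _, _, I, _, ξ, ρ, S, σ ε, u, lc, (h1 k M I S lc.mrk).all, la,
    hε k M I S σ lc.mrk sp.iso sp.can sp.eff (sp.amp h' cl), hu, lb⟩, h6 k F M I R H ξ ρ S lc la⟩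

end Pool.Agent.MP_e8e0b6_ag.R2

end Part2

section Part3

-- part 3: AzR

/-!
Row AZ: the divisor of a section.
-/

set_option autoImplicit false

namespace Pool.Agent.MP_e8e0b6_ag.R2

open Pool.Agent.MP_79c67d_ag Pool.Agent.MP_20d318_ag Pool.Agent.MP_20d318_ag.AG
  Pool.Agent.MP_20d318_ag.BV Pool.Agent.MP_20d318_ag.CB

namespace AzA

variable {k F : Type} [Field k] [Field F] [Algebra k F]

theorem dt_const (X : Set (Subalgebra k F)) {a : F} (ha : a ≠ 0) : Dt X fun _ => a := by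
  have h : ∀ b : F, b ≠ 0 → ∀ O : Subalgebra k F, Gn {b} O b := fun b hb O =>
    gn_of_mem rfl hb (by
      rintro _ rfl
      rw [div_self hb]
      exact O.one_mem)
  refine ⟨{1}, {a}, ⟨Set.finite_singleton _, fun O _ => ⟨_, h 1 one_ne_zero O⟩⟩,
    ⟨Set.finite_singleton _, fun O _ => ⟨_, h a ha O⟩⟩,
    fun O _ => ⟨1, a, h 1 one_ne_zero O, h a ha O, ?_⟩⟩
  rw [mul_one, div_self ha]
  exact isU_one

end AzA

theorem az_stmt (h1 : CrdStmt) : AzStmt := by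
  intro k F _ _ _ _ _ R H γ ψ hA hγ hψ hU
  obtain ⟨M, _, _, I, _, ξ, ρ, S, d, u, L, hS, hL, hN, hu, hb⟩ := hA
  have h2 := hU ξ L.fib
  have e : ∀ O, ψ * γ O = ψ / u * (u * γ O) := fun O => by
    rw [← mul_assoc, div_mul_cancel₀ _ hu]
  have h3 : IsU ξ (ψ / u) := by
    have h4 := (hb ξ L.fib.mem L.fib.dom).1
    have h5 := h2.div h4
    rwa [e, mul_div_cancel_right₀ _ h4.ne] at h5
  have h0 := evO_ne ρ h3
  have h4 : ∀ O ∈ XX R H, AG.Dom R O → IsU (red ξ ρ O)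
      (evO ξ ρ (ψ * γ O) / (evO ξ ρ (ψ / u) * S.lb d (red ξ ρ O))) := fun O hO hd => by
    rw [e, evO_mul ρ h3.mem (hb O hO hd).1.mem, mul_div_mul_left _ _ h0]
    exact (hb O hO hd).2
  have h5 : evO ξ ρ (ψ / u) ∈ S.Sec d := fun O₁ hO₁ => by
    obtain ⟨O, hO, rfl⟩ := C.exists_red L hO₁
    have h6 := h4 O hO.1 hO.2
    have h7 := h6.div_mem (C.ev_mem (ρ := ρ) (C.xs_le L hO) (hψ O hO.1))
    rwa [div_div_cancel₀ (div_ne_zero_iff.1 h6.ne).1] at h7
  obtain ⟨P, hP⟩ := hN.prm _ h5 h0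
  obtain ⟨D, d1, d2, d3⟩ := hN.one
  obtain ⟨s, hs, s', hs', s0, s0', c1, c2, c3⟩ := h1 k M I S d D _ P hS hP d1 d3
  obtain ⟨δ, l1, l2⟩ := hL.ex D
  obtain ⟨z, hz, rfl⟩ := hL.surj D δ l1 l2 d2 s hs
  obtain ⟨z', hz', rfl⟩ := hL.surj D δ l1 l2 d2 s' hs'
  have u1 := C.xi_unit L (C.sc_mem L l2 hz) s0
  have u2 := C.xi_unit L (C.sc_mem L l2 hz') s0'
  refine ⟨M, _, _, I, _, ξ, ρ, S, d, _, P, z / z', ⟨L, hS, hP,
    C.dt_mul (AzA.dt_const _ (left_ne_zero_of_mul h2.ne)) hγ, hψ, h4⟩, u1.div u2, ?_, ?_,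
    fun O hO hd hle => ?_⟩
  · rwa [evO_div ρ u1.mem u2]
  · rwa [inv_div, evO_div ρ u2.mem u1]
  · rcases c3 _ (C.red_mem L ⟨hO, hd⟩) hle with h | h
    · have h6 := (C.sc_unit L l2 hz ⟨hO, hd⟩).2 h
      have h7 := h6.div_mem (hz' O hO)
      rw [mul_div_mul_right _ _ (right_ne_zero_of_mul h6.ne)] at h7
      exact Or.inr (by rwa [inv_div])
    · have h6 := (C.sc_unit L l2 hz' ⟨hO, hd⟩).2 h
      have h7 := h6.div_mem (hz O hO)
      rw [mul_div_mul_right _ _ (right_ne_zero_of_mul h6.ne)] at h7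
      exact Or.inl h7

end Pool.Agent.MP_e8e0b6_ag.R2

end Part3

section Part4

-- part 4: CellS

/-!
A family whose finite sets of points lie in affine planes is cellular.
-/

set_option autoImplicit false

open AlgebraicGeometry CategoryTheory

namespace Pool.Agent.MP_e8e0b6_ag.R2

open Pool.Agent.MP_79c67d_ag Pool.Agent.MP_20d318_ag Pool.Agent.MP_20d318_ag.AG
  Pool.Agent.MP_20d318_ag.BV Pool.Agent.MP_20d318_ag.CB

namespace CellP

variable {k A F : Type} [Field k] [CommRing A] [Algebra k A] [Field F] [Algebra k F]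
  {g : A →ₐ[k] F} {H : Set F} {Y : Scheme.{0}} {q : Y ⟶ Spec (.of A)} {η : Spec (.of F) ⟶ Y}
  {j : ∀ a : H, Spec (.of (ch g.range H a)) ⟶ Y} {e : A →ₐ[k] k}

/-- The local ring of a rational point. -/
theorem pt (h1 : PtsStmt) (L : Lk g H q η j) (y : Spec (.of k) ⟶ Y)
    (hy : y ≫ q = sp (e : A →+* k)) : ∃ O ∈ XX (lp g e) H, AG.Dom (lp g e) O ∧
      ∃ (ρ : O →+* k) (ψ : Spec (.of O) ⟶ Y), sp (O.val : O →+* F) ≫ ψ = η ∧ sp ρ ≫ ψ = y := by
  obtain ⟨a, θ, rfl, hθ⟩ := h1 k A F g H Y q η j L k y e hy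
  have m : ∀ p, g p ∈ ch g.range H a := fun p => le_sup_left (α := Subalgebra k F) ⟨p, rfl⟩
  let θ' : ch g.range H a →ₐ[k] k :=
    { θ with
      commutes' := fun c => by
        have := hθ (algebraMap k A c) (m _)
        simp only [AlgHom.commutes, RingHom.coe_coe] at this
        exact this }
  obtain ⟨O, hO, ρ, lh, hρ⟩ := exists_ext θ'
  have ev : ∀ p, evO O ρ (g p) = e p := fun p => by
    rw [hρ _ (m p), evO_of_mem θ' (m p)]
    exact hθ p (m p)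
  have un : ∀ p, IsU O (g p) ↔ e p ≠ 0 := fun p => by
    rw [← ev, ne_eq, lh.eq_zero_iff (hO.2.1 (m p))]
    exact ⟨fun h => h.not_mx, isU_of_not_mx (hO.2.1 (m p))⟩
  have le : lp g e ≤ O := by
    rintro f ⟨p, r, hr, h⟩
    have hu := (un r).2 hr
    rw [eq_div_of_mul_eq hu.ne h]
    exact hu.div_mem (hO.2.1 (m p))
  refine ⟨O, C.xx_base ⟨a, a.2, hO⟩ range_le_lp le, ⟨le, ?_⟩, ρ,
    sp (Subalgebra.inclusion hO.2.1 : ch g.range H a →+* O) ≫ j a, ?_, ?_⟩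
  · rintro f ⟨p, r, hr, h⟩ hf
    have hu := (un r).2 hr
    have h2 := hf.mul hu
    rw [show f * g r = g p from h, un] at h2
    rw [eq_div_of_mul_eq hu.ne h]
    exact ((isU_lp L.inj).2 h2).div ((isU_lp L.inj).2 hr)
  · rw [sp_comp_assoc]
    exact L.gen a
  · rw [sp_comp_assoc]
    congr 2
    ext z
    have := hρ z z.2
    rw [evO_of_mem ρ (hO.2.1 z.2), evO_coe] at this
    exact this

/-- The plane over a basic open subset of the base. -/
theorem iso (hg : Function.Injective g) {t : A} (ht : e t ≠ 0) {c : F × F}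
    (hc : AlgebraicIndependent (lp g e) ![c.1, c.2]) (B : Subalgebra k F)
    (hB : B = g.range ⊔ Algebra.adjoin k {(g t)⁻¹, c.1, c.2}) :
    ∃ β : MvPolynomial (Fin 2) (Localization.Away t) ≃+* B,
      ∀ a, (β (MvPolynomial.C (algebraMap A _ a)) : F) = g a := by
  have hu : IsU (lp g e) (g t) := (isU_lp hg).2 ht
  let g' : Localization.Away t →+* F :=
    IsLocalization.Away.lift t (g := (g : A →+* F)) (Ne.isUnit hu.ne)
  have h0 : ∀ a, g' (algebraMap A _ a) = g a := fun a => IsLocalization.Away.lift_eq _ _ _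
  have h1 : ∀ z, ∃ (n : ℕ) (a : A), g' z = g a * (g t)⁻¹ ^ n ∧ (a = 0 → z = 0) := fun z => by
    obtain ⟨n, a, h⟩ := IsLocalization.Away.surj t z
    refine ⟨n, a, ?_, fun h2 => ?_⟩
    · have := congrArg g' h
      rw [map_mul, map_pow, h0, h0] at this
      rw [inv_pow, ← div_eq_mul_inv, eq_div_iff (pow_ne_zero n hu.ne), this]
    · rw [h2, map_zero] at h
      exact ((IsLocalization.Away.algebraMap_isUnit t).pow n).mul_left_eq_zero.1 h
  have gi : Function.Injective g' := (injective_iff_map_eq_zero _).2 fun z hz => by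
    obtain ⟨n, a, h, h2⟩ := h1 z
    rw [hz, eq_comm, mul_eq_zero, or_iff_left (pow_ne_zero n (inv_ne_zero hu.ne))] at h
    exact h2 (hg (h.trans (map_zero g).symm))
  have mem : ∀ D : Subalgebra k F, g.range ≤ D → (g t)⁻¹ ∈ D → ∀ z, g' z ∈ D := fun D a b z => by
    obtain ⟨n, p, h, -⟩ := h1 z
    exact h ▸ D.mul_mem (a ⟨p, rfl⟩) (D.pow_mem b n)
  let β : MvPolynomial (Fin 2) (Localization.Away t) →+* F := MvPolynomial.eval₂Hom g' ![c.1, c.2]
  have bi : Function.Injective β := by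
    let r : Localization.Away t →+* lp g e := g'.codRestrict (lp g e) (mem _ range_le_lp hu.inv_mem)
    have e1 : β = (MvPolynomial.aeval ![c.1, c.2] : _ →ₐ[lp g e] F).toRingHom.comp
        (MvPolynomial.map r) := by
      refine MvPolynomial.ringHom_ext (fun z => ?_) fun i => by simp [β]
      simp [β, r]
    rw [e1, RingHom.coe_comp]
    exact Function.Injective.comp (algebraicIndependent_iff_injective_aeval.1 hc)
      (MvPolynomial.map_injective r fun x y h => gi (congrArg Subtype.val h))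
  have l1 : g.range ≤ B := hB ▸ le_sup_left
  have l2 : ∀ z ∈ ({(g t)⁻¹, c.1, c.2} : Set F), z ∈ B := fun z hz =>
    hB ▸ le_sup_right (α := Subalgebra k F) (Algebra.subset_adjoin hz)
  have bm : ∀ p, β p ∈ B := fun p => by
    induction p using MvPolynomial.induction_on with
    | C z => simpa [β] using mem B l1 (l2 _ (by simp)) z
    | add p r hp hr => rw [map_add]; exact B.add_mem hp hr
    | mul_X p i hp =>
      rw [map_mul]
      refine B.mul_mem hp (l2 _ ?_)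
      fin_cases i <;> simp [β]
  have bC : ∀ a, β (MvPolynomial.C (algebraMap A _ a)) = g a := fun a => by simp [β, h0]
  let D : Subalgebra k F :=
    { β.range with
      algebraMap_mem' := fun x => ⟨_, (bC (algebraMap k A x)).trans (g.commutes x)⟩ }
  have bs : B ≤ D := by
    rw [hB]
    refine sup_le (by rintro _ ⟨a, rfl⟩; exact ⟨_, bC a⟩) (Algebra.adjoin_le ?_)
    rintro _ (rfl | rfl | rfl)
    · refine ⟨MvPolynomial.C (IsLocalization.Away.invSelf t), ?_⟩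
      have := congrArg g' (IsLocalization.Away.mul_invSelf (S := Localization.Away t) t)
      rw [map_mul, h0, map_one] at this
      simpa [β] using eq_inv_of_mul_eq_one_right this
    · exact ⟨MvPolynomial.X 0, by simp [β]⟩
    · exact ⟨MvPolynomial.X 1, by simp [β]⟩
  exact ⟨RingEquiv.ofBijective (β.codRestrict B bm) ⟨fun x y h => bi (congrArg Subtype.val h),
    fun z => (bs z.2).imp fun p h => Subtype.ext h⟩, bC⟩

end CellP

open CellP in
theorem cell_stmt (h1 : PtsStmt) (h2 : OiStmt) (h3 : CellrStmt) : CellStmt := by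
  intro k A F _ _ _ _ _ _ g H Y q η j et L fm cho s hs Ys hY hYs
  obtain ⟨e₀, rfl⟩ := sp_surj s
  rw [sp_comp, ← sp_id] at hs
  let e : A →ₐ[k] k := { e₀ with commutes' := DFunLike.congr_fun (sp_inj hs) }
  choose O hO hd ρ ψ hψ hρ using fun y : Ys => pt (e := e) h1 L y (hYs y y.2)
  have := hY.to_subtype
  obtain ⟨c, ai, fc, pc, sub⟩ := cho e (Set.range O) (by rintro _ ⟨y, rfl⟩; exact hO y)
    (Set.finite_range O) (by rintro _ ⟨y, rfl⟩; exact hd y)
  have lz := lp_lz (e := e) L.inj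
  obtain ⟨_, ⟨t, rfl⟩, hu, hx⟩ := h3 k F g.range (lp g e) H c fm lz sub
  change IsU (lp g e) (g t) at hu
  have ht : e t ≠ 0 := (isU_lp L.inj).1 hu
  obtain ⟨B, hB⟩ : ∃ B, B = g.range ⊔ Algebra.adjoin k {(g t)⁻¹, c.1, c.2} := ⟨_, rfl⟩
  have l1 : g.range ≤ B := hB ▸ le_sup_left
  have l2 : ∀ z ∈ ({(g t)⁻¹, c.1, c.2} : Set F), z ∈ B := fun z hz =>
    hB ▸ le_sup_right (α := Subalgebra k F) (Algebra.subset_adjoin hz)
  have l3 : pl g.range c ≤ B := C.pl_le l1 (l2 _ (by simp)) (l2 _ (by simp))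
  have l4 : ∀ D : Subalgebra k F, g.range ≤ D → (g t)⁻¹ ∈ D → c.1 ∈ D → c.2 ∈ D → B ≤ D :=
    fun D a1 a2 a3 a4 => hB ▸ sup_le a1 (Algebra.adjoin_le (by
      rintro _ (rfl | rfl | rfl) <;> assumption))
  have fB : Frac B := fun f => by
    have k1 : pl (lp g e) c ≤ fr B ⊤ := by
      refine C.pl_le (fun z hz => ?_) (C.le_fr (l2 _ (by simp))) (C.le_fr (l2 _ (by simp)))
      obtain ⟨a, ha, b, hb, u, rfl⟩ := lz.2 z hz
      exact C.mem_fr (l1 ha) (l1 hb) (u.mono le_top)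
    obtain ⟨a, ha, b, hb, h0, rfl⟩ := fc f
    obtain ⟨x, hx, y, hy, u, h⟩ := div_mem_fr (k1 ha) (k1 hb) le_top
      ⟨h0, Algebra.mem_top, Algebra.mem_top⟩
    exact ⟨x, hx, y, hy, u.ne, h⟩
  obtain ⟨Φ, oΦ, hΦ⟩ := h2 k A F g H Y q η j L B _ (Set.toFinite _) hB fB fun P hP => by
    have u : IsU P (g t) := ⟨hu.ne, hP.2.1 (l1 ⟨t, rfl⟩), hP.2.1 (l2 _ (by simp))⟩
    refine hx P (C.pts2 hP (l3.trans hP.2.1) (l4 _ (C.le_pl.trans C.le_fr) ?_
      (C.le_fr C.fst_mem) (C.le_fr C.snd_mem))) u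
    exact inv_mem_fr (C.le_fr (C.le_pl ⟨t, rfl⟩)) (l3.trans hP.2.1) u
  obtain ⟨β, hβ⟩ := iso L.inj ht ai B hB
  have le := powers_le_nonZeroDivisors_of_noZeroDivisors fun h : t = 0 => ht (by rw [h, map_zero])
  have : IsDomain (Localization.Away t) := IsLocalization.isDomain_of_le_nonZeroDivisors _ le
  have : IsIso (sp (β.symm : B →+* MvPolynomial (Fin 2) (Localization.Away t))) :=
    inferInstanceAs (IsIso (Spec.map β.symm.toCommRingCatIso.hom))
  have := L.sep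
  let x : Localization.Away t →ₐ[k] k := IsLocalization.liftAlgHom (M := .powers t) (f := e) (by
    rintro ⟨_, i, rfl⟩
    exact Ne.isUnit (by rw [map_pow]; exact pow_ne_zero _ ht))
  have hx : sp (x : Localization.Away t →+* k) ≫ sp (algebraMap A (Localization.Away t)) =
      sp e₀ := by
    rw [sp_comp]
    congr 1
    ext a
    exact IsLocalization.lift_eq _ _
  let cl : T.Cell (sp (algebraMap k A)) q 2 :=
    { B := Localization.Away t
      et := et.away t _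
      e := x
      j := sp (algebraMap A (Localization.Away t))
      h := sp (β.symm : B →+* MvPolynomial (Fin 2) (Localization.Away t)) ≫ Φ
      base := by rw [sp_comp, ← IsScalarTower.algebraMap_eq]
      proj := by
        obtain ⟨r, hr⟩ := sp_surj (Φ ≫ q)
        have k1 := L.base
        rw [← hΦ, Category.assoc, ← hr, sp_comp] at k1
        rw [Category.assoc, ← hr, sp_comp, sp_comp]
        congr 1
        refine RingHom.ext fun a => β.injective (Subtype.ext ?_)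
        refine Eq.trans ?_ (hβ a).symm
        rw [← show (r a : F) = g a from DFunLike.congr_fun (sp_inj k1) a]
        simp }
  refine ⟨cl, hx, fun y hy => cl.has_of_range ?_ ((hYs y hy).trans hx.symm)⟩
  have hP := pc _ ⟨⟨y, hy⟩, rfl⟩
  have hle : B ≤ O ⟨y, hy⟩ := l4 _ (range_le_lp.trans (hd _).1) (hu.mono (hd _).1).inv_mem
    (hP.2.1 C.fst_mem) (hP.2.1 C.snd_mem)
  have k1 : sp (Subalgebra.inclusion hle : B →+* O ⟨y, hy⟩) ≫ Φ = ψ ⟨y, hy⟩ :=
    ext_sp (r := ((O ⟨y, hy⟩).val : O ⟨y, hy⟩ →+* F)) Subtype.val_injective (by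
      rw [hψ, sp_comp_assoc]
      exact hΦ)
  have k2 : sp (((ρ ⟨y, hy⟩).comp (Subalgebra.inclusion hle : B →+* O ⟨y, hy⟩)).comp
      (β : MvPolynomial (Fin 2) (Localization.Away t) →+* B)) ≫ cl.h = y := by
    change _ ≫ _ ≫ Φ = y
    rw [sp_comp_assoc, RingHom.comp_assoc, RingEquiv.comp_symm, RingHom.comp_id, ← sp_comp_assoc,
      k1]
    exact hρ _
  rw [← k2]
  exact ⟨_, rfl⟩

end Pool.Agent.MP_e8e0b6_ag.R2

end Part4

section Part5

-- part 5: Cellr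

/-!
Row CELLR: an affine plane over a ring of fractions spreads out.
-/

set_option autoImplicit false

namespace Pool.Agent.MP_e8e0b6_ag.R2

open Pool.Agent.MP_79c67d_ag Pool.Agent.MP_20d318_ag Pool.Agent.MP_20d318_ag.AG
  Pool.Agent.MP_20d318_ag.BV Pool.Agent.MP_20d318_ag.CB

theorem cellr_stmt (h1 : LzStmt) (h2 : SprStmt) (h3 : Spr2Stmt) : CellrStmt := by
  intro k F _ _ _ C R H c hF hL hP
  classical
  have hR := (h1 k F C R H hL).2.2 hF
  obtain ⟨s₀, m₀, u₀, p₀⟩ := h2 k F C R {c.1, c.2} H hL hF.fin fun O hO hle => by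
    obtain ⟨P, hP', hd⟩ := exists_ctr hO hle
    obtain ⟨j, hj, h⟩ := hP hP'
    exact (gn_of_mem hj (hF.nz j hj) fun a ha => hd.1 (h.2.1 (R2.C.div_mem_ch ha))).prin
  choose s m u p using fun j : H => h3 k F C R ((fun a => a / (j : F)) '' H) {c.1, c.2} hL
    (Set.toFinite _) fun O hO hle => by
      rw [Algebra.adjoin_union, sup_le_iff, sup_le_iff] at hle
      obtain ⟨P, hP', hd⟩ := exists_ctr hO (sup_le hle.1 hle.2.2)
      obtain ⟨P', hP'', hd'⟩ := exists_ctr hO (sup_le hle.1 hle.2.1)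
      obtain rfl := R2.C.xx_sep hR (hP hP') ⟨j, j.2, hP''⟩ hd hd'
      intro z hz
      obtain ⟨a, ha, b, hb, hu, rfl⟩ := hP''.2.2 z
        (hP'.2.1 ((le_sup_right : _ ≤ pl R c) (Algebra.subset_adjoin hz)))
      exact R2.C.mem_fr ha hb (hu.mono hd.1)
  have := hF.fin.fintype
  refine ⟨s₀ * ∏ j, s j, C.mul_mem m₀ (C.prod_mem fun j _ => m j), u₀.mul (isU_prod fun j _ => u j),
    fun O hO hu => ?_⟩
  have hC : C ≤ O := le_sup_left.trans hO.2.1
  have mp : ∀ t : Finset H, ∏ j ∈ t, s j ∈ O := fun t => hC (C.prod_mem fun j _ => m j)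
  obtain ⟨j, hj, hg⟩ := (p₀ O hO.1 hO.2.1 (IsU.of_mul (hC m₀) (mp _) hu)).exists_mem
  have hle : ch C H j ≤ O := R2.C.ch_le hC hg.1
  have h4 : IsU O (s ⟨j, hj⟩) := by
    rw [mul_comm, ← Finset.mul_prod_erase _ _ (Finset.mem_univ ⟨j, hj⟩), mul_assoc] at hu
    exact IsU.of_mul (hC (m _)) (O.mul_mem (mp _) (hC m₀)) hu
  have h5 := p ⟨j, hj⟩ O hO.1 (by
    rw [Algebra.adjoin_union]
    exact sup_le hC (sup_le (le_sup_right.trans hle) (le_sup_right.trans hO.2.1))) h4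
  exact ⟨j, hj, R2.C.pts2 hO hle (R2.C.pl_le (le_sup_left.trans R2.C.le_fr) (h5 (Or.inl rfl))
    (h5 (Or.inr rfl)))⟩

end Pool.Agent.MP_e8e0b6_ag.R2

end Part5

section Part6

-- part 6: Crd

/-!
A coordinate on a curve with a line bundle of degree one.
-/

set_option autoImplicit false

open Polynomial AlgebraicGeometry CategoryTheory

namespace Pool.Agent.MP_e8e0b6_ag.R2

open Pool.Agent.MP_79c67d_ag Pool.Agent.MP_20d318_ag Pool.Agent.MP_20d318_ag.AG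
  Pool.Agent.MP_20d318_ag.BV Pool.Agent.MP_20d318_ag.CB
open scoped IntermediateField

namespace CrdA

theorem eq_of_sum {α : Type} {g : α → ℤ} (h0 : ∀ x, 0 ≤ g x) (h1 : ∑ᶠ x, g x = 1) {a b : α}
    (ha : 0 < g a) (hb : 0 < g b) : a = b := by
  have hf : (Function.support g).Finite := by_contra fun hn => by
    rw [finsum_of_infinite_support hn] at h1
    exact zero_ne_one h1
  rw [finsum_eq_sum _ hf] at h1
  by_contra hne
  have := Finset.add_le_sum (s := hf.toFinset) (fun x _ => h0 x) (by simpa using ha.ne')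
    (by simpa using hb.ne') hne
  omega

variable {k M I : Type} [Field k] [CharZero k] [IsAlgClosed k] [Field M] [Algebra k M] [Fintype I]
  {S : Sd k M I} {D : I → ℤ} {ν : Curve S.T} {s s' : M}

omit [CharZero k] [IsAlgClosed k] in
theorem unit_pt (h : SAll S) (u : IsU ν.gen (s * S.lb D ν.gen)) (Q : Place k ν.L) :
    IsU ν.gen (s * S.lb D (ν.pt Q)) := by
  have := u.mul ((h.a1.cart D).unit (ν.pt_mem Q) ν.gen_mem (ν.pt_le Q))
  rwa [mul_assoc, mul_div_cancel₀ _ (right_ne_zero_of_mul u.1)] at this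

theorem uniq (h : SAll S) (hd : ν.deg (S.lb D) = 1) (hs : s ∈ S.Sec D)
    (u : IsU ν.gen (s * S.lb D ν.gen)) {Q Q' : Place k ν.L}
    (h1 : s * S.lb D (ν.pt Q) ∈ mx (ν.pt Q)) (h2 : s * S.lb D (ν.pt Q') ∈ mx (ν.pt Q')) :
    Q = Q' := by
  have s0 : s ≠ 0 := left_ne_zero_of_mul u.1
  have hX := h.a1.nice.toFine.toGood
  rw [← deg_cmul hX (h.a1.cart D) s0, deg_of_unit hX (h.a1.pcart D s s0) ν u] at hd
  have p : ∀ Q, s * S.lb D (ν.pt Q) ∈ mx (ν.pt Q) → 0 < Q.ord (ν.ev (s * S.lb D (ν.pt Q))) :=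
    fun Q hQ => (FF.v_lt_one_iff Q (evO_ne ν.ρ (unit_pt h u Q))).1 ((ν.v_lt_one_iff Q hQ.1).2 hQ)
  exact eq_of_sum (fun Q => FF.ord_nonneg (ν.v_le Q (hs _ (ν.pt_mem Q)))) hd (p Q h1) (p Q' h2)

theorem zero (h : SAll S) (hd : ν.deg (S.lb D) = 1) (hs : s ∈ S.Sec D) (hs' : s' ∈ S.Sec D)
    (u : IsU ν.gen (s * S.lb D ν.gen)) (u' : IsU ν.gen (s' * S.lb D ν.gen))
    (tr : Transcendental k (ν.ev (s / s'))) {Q : Place k ν.L}
    (h1 : s * S.lb D (ν.pt Q) ∈ mx (ν.pt Q)) : 0 < Q.ord (ν.ev (s / s')) := by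
  obtain ⟨Q', hQ⟩ := exists_place_pos tr
  refine uniq h hd hs u (Q := Q') (by_contra fun hn => ?_) h1 ▸ hQ
  have v := unit_pt h u Q'
  have v' := unit_pt h u' Q'
  have e0 := ν.ord_unit Q' (isU_of_not_mx (hs _ (ν.pt_mem Q')) hn)
  have e1 : 0 ≤ Q'.ord (ν.ev (s' * S.lb D (ν.pt Q'))) :=
    FF.ord_nonneg (ν.v_le Q' (hs' _ (ν.pt_mem Q')))
  rw [← mul_div_mul_right _ _ (right_ne_zero_of_mul v.1), ev_div ν v.mem v',
    Q'.ord_div (f := ν.ev _) (g := ν.ev _) (evO_ne ν.ρ v) (evO_ne ν.ρ v')] at hQ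
  omega

omit [CharZero k] [IsAlgClosed k] in
theorem tr_inv (u : IsU ν.gen (s * S.lb D ν.gen)) (u' : IsU ν.gen (s' * S.lb D ν.gen)) :
    IsU ν.gen (s / s') ∧ ν.ev (s' / s) = (ν.ev (s / s'))⁻¹ := by
  have := u.div u'
  rw [mul_div_mul_right _ _ (right_ne_zero_of_mul u.1)] at this
  exact ⟨this, by rw [← inv_div]; exact evO_inv ν.ρ this⟩

theorem two (h : SAll S) (hd : ν.deg (S.lb D) = 1) (hs : s ∈ S.Sec D) (hs' : s' ∈ S.Sec D)
    (u : IsU ν.gen (s * S.lb D ν.gen)) (u' : IsU ν.gen (s' * S.lb D ν.gen))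
    (tr : Transcendental k (ν.ev (s / s'))) : ∀ O ∈ S.T, O ≤ ν.gen →
      IsU O (s * S.lb D O) ∨ IsU O (s' * S.lb D O) := by
  intro O hO hle
  by_cases e : O = ν.gen
  · exact Or.inl (e ▸ u)
  obtain ⟨Q, rfl⟩ := h.a1.pt ν O hO hle e
  by_contra hn
  have h1 := zero h hd hs hs' u u' tr (Q := Q) ⟨hs _ hO, fun x => hn (Or.inl x)⟩
  have e' := (tr_inv u u').2
  have h2 := zero h hd hs' hs u' u (by rw [e']; exact fun x => tr (IsAlgebraic.inv_iff.1 x))
    (Q := Q) ⟨hs' _ hO, fun x => hn (Or.inr x)⟩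
  rw [e', Q.ord_inv] at h2
  omega

theorem cw (h : SAll S) (hd : ν.deg (S.lb D) = 1) (hs : s ∈ S.Sec D) (hs' : s' ∈ S.Sec D)
    (u : IsU ν.gen (s * S.lb D ν.gen)) (u' : IsU ν.gen (s' * S.lb D ν.gen))
    (tr : Transcendental k (ν.ev (s / s'))) {P : Place k M} (hg : ν.gen = plO P) :
    Cw S.T P (s / s') := by
  have t := two h hd hs hs' u u' tr
  have uw := (tr_inv u u').1
  have s0 : s ≠ 0 := left_ne_zero_of_mul u.1
  have s0' : s' ≠ 0 := left_ne_zero_of_mul u'.1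
  have ne : ∀ O ∈ S.T, S.lb D O ≠ 0 := fun O hO => S.lb_ne (h.a1.gne O hO) D
  have nc : ∀ c : k, s / s' - algebraMap k M c ∉ mx ν.gen := fun c hc =>
    transcendental_iff_ne.1 tr c (ev_const_of ν hc)
  refine ⟨?_, ?_, ?_, ?_⟩
  · refine (h.a1.ind P (hg ▸ ν.gen_mem) _ (hg ▸ uw.mem)).resolve_right fun ⟨c, hc⟩ => nc c ?_
    rwa [hg]
  · intro O hO hle
    rcases t O hO (hg ▸ hle) with v | v
    · have := v.div_mem (hs' O hO)
      rw [mul_div_mul_right _ _ (ne O hO)] at this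
      exact Or.inr (by rwa [inv_div])
    · have := v.div_mem (hs O hO)
      rw [mul_div_mul_right _ _ (ne O hO)] at this
      exact Or.inl this
  · have gn : ∀ O ∈ S.T, O ≤ ν.gen → Gn {s, s'} O (S.lb D O)⁻¹ := fun O hO hle => by
      refine ⟨?_, ?_⟩
      · rintro a (rfl | rfl) <;> rw [div_inv_eq_mul]
        · exact hs O hO
        · exact hs' O hO
      · rcases t O hO hle with hu | hu
        · exact ⟨s, Or.inl rfl, by rwa [div_inv_eq_mul]⟩
        · exact ⟨s', Or.inr rfl, by rwa [div_inv_eq_mul]⟩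
    have d1 := deg_gn_pair (f := (S.lb D)⁻¹) ν (gn _ ν.gen_mem le_rfl)
      (fun Q => gn _ (ν.pt_mem Q) (ν.pt_le Q)) s0' uw.mem
    rw [deg_inv h.a1.nice.toFine.toGood (h.a1.cart D), hd, pdeg_eq tr, neg_inj] at d1
    have top : k⟮ν.ev (s / s')⟯ = ⊤ :=
      IntermediateField.finrank_eq_one_iff_eq_top.1 (by exact_mod_cast d1.symm)
    rw [← hg]
    intro a ha
    have ev : ∀ q : k[X], aeval (s / s') q ∈ ν.gen ∧
        ν.ev (aeval (s / s') q) = aeval (ν.ev (s / s')) q := fun q => by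
      have e := aeval_subalgebra_coe q ν.gen ⟨s / s', uw.mem⟩
      refine ⟨e ▸ Subtype.mem _, ?_⟩
      rw [ν.ev_eq, ν.ev_eq, ← e, evO_coe, evO_of_mem ν.ρ uw.mem, aeval_algHom_apply]
    obtain ⟨p, q, e⟩ := (IntermediateField.mem_adjoin_simple_iff k (ν.ev a)).1
      (top ▸ IntermediateField.mem_top (x := ν.ev a) : ν.ev a ∈ k⟮ν.ev (s / s')⟯)
    by_cases hq : q = 0
    · refine ⟨0, 1, one_ne_zero, ?_⟩
      simpa using (ev_eq_zero ν ha).1 (by simpa [hq] using e)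
    · have m := ν.gen.mul_mem ha (ev q).1
      refine ⟨p, q, hq, (ev_eq_zero ν (ν.gen.sub_mem m (ev p).1)).1 ?_⟩
      rw [ν.ev_eq, evO_sub ν.ρ m (ev p).1, ← ν.ev_eq, ← ν.ev_eq, ev_mul ν ha (ev q).1, (ev p).2,
        (ev q).2, e, div_mul_cancel₀ _ fun x => tr ⟨q, hq, x⟩, sub_self]
  · rw [← hg]
    have key : ∀ t ∈ S.Sec D, IsU ν.gen (t * S.lb D ν.gen) → ∀ O ∈ S.T, ∀ O' ∈ S.T, O ≤ ν.gen →
        O' ≤ ν.gen → t * S.lb D O ∈ mx O → t * S.lb D O' ∈ mx O' → O = O' := by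
      intro t ht v O hO O' hO' hle hle' m m'
      obtain ⟨Q, rfl⟩ := h.a1.pt ν O hO hle fun e => v.not_mx (e ▸ m)
      obtain ⟨Q', rfl⟩ := h.a1.pt ν O' hO' hle' fun e => v.not_mx (e ▸ m')
      rw [uniq h hd ht v m m']
    rintro O hO O' hO' hle hle' (⟨c, m, m'⟩ | ⟨m, m'⟩)
    · have e : ∀ W, (s - c • s') * S.lb D W = (s / s' - algebraMap k M c) * (s' * S.lb D W) :=
        fun W => by rw [Algebra.smul_def]; field_simp
      refine key (s - c • s') (sub_mem hs ((S.Sec D).smul_mem c hs')) ?_ O hO O' hO' hle hle' ?_ ?_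
      · rw [e]
        exact (isU_of_not_mx (ν.gen.sub_mem uw.mem (ν.gen.algebraMap_mem c)) (nc c)).mul u'
      · rw [e]; exact mx_mul_right m (hs' O hO)
      · rw [e]; exact mx_mul_right m' (hs' O' hO')
    · have e : ∀ W, s' * S.lb D W = (s / s')⁻¹ * (s * S.lb D W) := fun W => by field_simp
      refine key s' hs' u' O hO O' hO' hle hle' ?_ ?_
      · rw [e]; exact mx_mul_right m (hs O hO)
      · rw [e]; exact mx_mul_right m' (hs O' hO')

end CrdA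

open CrdA in
theorem crd_stmt : CrdStmt := by
  intro k M I _ _ _ _ _ _ S d D φ P h hφ h1 h2
  obtain ⟨s, hs, s', hs', u', ind⟩ := h.a3.res2 d φ P hφ D h2
  obtain ⟨ν, hg, hnu, -⟩ := h.a1.cur P hφ.2.1
  have hd := h.s.deg _ φ P hφ ν hg D
  rw [hnu, h1, Nat.cast_one, one_mul] at hd
  rw [← hg] at u' ind
  have s0' : s' ≠ 0 := left_ne_zero_of_mul u'.1
  have uw : IsU ν.gen (s / s') := by simpa using ind_one ind 0
  have u : IsU ν.gen (s * S.lb D ν.gen) := by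
    have := uw.mul u'
    rwa [← mul_assoc, div_mul_cancel₀ _ s0'] at this
  have tr := ev_transcendental ν uw.mem fun c => (ind_one ind c).not_mx
  refine ⟨s, hs, s', hs', left_ne_zero_of_mul u.1, s0', cw h hd hs hs' u u' tr hg,
    cw h hd hs' hs u' u ?_ hg, hg ▸ two h hd hs hs' u u' tr⟩
  rw [(tr_inv u u').2]
  exact fun x => tr (IsAlgebraic.inv_iff.1 x)

end Pool.Agent.MP_e8e0b6_ag.R2

end Part6

section Part7

-- part 7: Crv

/-!
The divisor is a projective line over the base.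
-/

set_option autoImplicit false

open Polynomial AlgebraicGeometry CategoryTheory

namespace Pool.Agent.MP_e8e0b6_ag.R2

open Pool.Agent.MP_79c67d_ag Pool.Agent.MP_20d318_ag Pool.Agent.MP_20d318_ag.AG
  Pool.Agent.MP_20d318_ag.BV Pool.Agent.MP_20d318_ag.CB

namespace CrvZ

variable {k F κ : Type} [Field k] [Field F] [Field κ] [Algebra k F] [Algebra k κ]
  {R D : Subalgebra k F} {ρ : D →ₐ[k] κ}

theorem red_rat (h : R ≤ D) (hR : IsLocalRing R) (hr : RatPt R) : RatPt (red D ρ R) := by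
  intro f hf
  obtain ⟨a, ha, -, rfl⟩ := C.mem_red.1 hf
  obtain ⟨c, hc⟩ := hr a ha
  have e : evO D ρ a - algebraMap k κ c = evO D ρ (a - algebraMap k F c) := by
    rw [evO_sub ρ (h ha) (D.algebraMap_mem c), evO_const]
  refine ⟨c, e ▸ ⟨C.ev_mem h hc.1, fun hu => ?_⟩⟩
  obtain ⟨b, hb, -, h1⟩ := C.mem_red.1 hu.inv_mem
  have h2 := mx_mul_left hb hc
  have h3 : IsU R (1 - b * (a - algebraMap k F c)) := by
    simpa [sub_eq_add_neg] using isU_one.add_mx hR (mx_neg h2)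
  refine evO_ne ρ (h3.mono h) ?_
  rw [evO_sub ρ D.one_mem (h h2.1), evO_one, evO_mul ρ (h hb) (h hc.1), h1,
    inv_mul_cancel₀ hu.ne, sub_self]

theorem not_alg (h : R ≤ D) {r : F} (hr : r ∈ D)
    (hu : ∀ p : R[X], p ≠ 0 → IsU D (aeval r p)) : ¬ IsAlgebraic (red D ρ R) (evO D ρ r) := by
  rintro ⟨q, hq, h0⟩
  let φ : R →ₐ[k] red D ρ R := (ρ.comp (Subalgebra.inclusion h)).codRestrict _
    fun a => ⟨Subalgebra.inclusion h a, a.2, rfl⟩
  have hφ : Function.Surjective (φ : R →+* red D ρ R) := by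
    rintro ⟨_, a, ha, rfl⟩
    exact ⟨⟨a, ha⟩, rfl⟩
  obtain ⟨p, rfl⟩ := Polynomial.map_surjective _ hφ q
  have hp : p ≠ 0 := fun e => hq (by rw [e, Polynomial.map_zero])
  refine evO_ne ρ (hu p hp) ?_
  have e1 : aeval r p = ((p.eval₂ (Subalgebra.inclusion h : R →+* D) ⟨r, hr⟩ : D) : F) :=
    (Polynomial.hom_eval₂ p (Subalgebra.inclusion h : R →+* D) (D.val : D →+* F) ⟨r, hr⟩).symm
  rw [e1, evO_coe]
  rw [aeval_def, eval₂_map, evO_of_mem ρ hr] at h0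
  exact (Polynomial.hom_eval₂ p (Subalgebra.inclusion h : R →+* D) (ρ : D →+* κ) ⟨r, hr⟩).trans h0

theorem exists_alg (B : Subalgebra k κ) : ∃ O : Subalgebra k κ, IsLocalRing O ∧ B ≤ O ∧
    (∀ a, a ∈ O ↔ IsAlgebraic B a) ∧ ∀ a ∈ O, a⁻¹ ∈ O := by
  let O : Subalgebra k κ := (Subalgebra.algebraicClosure B κ).restrictScalars k
  have hm : ∀ a, a ∈ O ↔ IsAlgebraic B a := fun _ => Iff.rfl
  have hi : ∀ a ∈ O, a⁻¹ ∈ O := fun a ha => (hm _).2 ((hm a).1 ha).inv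
  have h0 : ∀ a ∈ mx O, a = 0 := fun a ha => by_contra fun hn => ha.2 ⟨hn, ha.1, hi a ha.1⟩
  refine ⟨O, isLocalRing_of fun a ha b hb => ?_,
    fun a ha => (hm a).2 (isAlgebraic_algebraMap (⟨a, ha⟩ : B)), hm, hi⟩
  rw [h0 a ha, h0 b hb, add_zero]
  exact zero_mem_mx

end CrvZ

open CrvZ in
theorem crv_stmt (h1 : CrvAStmt) (h2 : CrvBStmt) (h3 : CrvCStmt) (h4 : HtStmt)
    (h5 : C.NrmStmt) : CrvStmt := by
  intro k F M κ I _ _ _ _ _ _ _ _ _ _ R H ξ ρ S d φ P z w D ρ' j H' hZ hW hD hR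
  have L := hZ.lc
  have hle : R ≤ D := C.xx_le hD.mem
  obtain ⟨hw, hA⟩ := h1 k F M κ I R H ξ ρ S d φ P z w D ρ' j H' hZ hW hD hR
  have hW' : Wd R H ξ ρ S P w⁻¹ :=
    ⟨hW.un.inv, hW.cw', by rw [inv_inv]; exact hW.cw, fun O hO a b => by
      rw [inv_inv]; exact (hW.reg O hO a b).symm⟩
  have hB : ∀ O : Subalgebra k κ, IsLocalRing O → red D ρ' R ≤ O →
      evO D ρ' w ∈ O ∨ (evO D ρ' w)⁻¹ ∈ O → Prin H' O := by
    refine h3 k κ (red D ρ' R) H' (evO D ρ' w) (C.red_loc hle L.loc) (red_rat hle L.loc L.rat) ?_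
    rintro u (rfl | rfl) c O hO hd hm
    · exact h2 k F M κ I R H ξ ρ S d φ P z w D ρ' j H' hZ hW hD hR c O hO hd hm
    · rw [← evO_inv ρ' hw] at hO hm
      exact h2 k F M κ I R H ξ ρ S d φ P z w⁻¹ D ρ' j H' hZ hW' hD hR c O hO hd hm
  refine ⟨fun halg => ?_, fun O hO hl => ⟨hA O hO hl, hB O hO hl⟩⟩
  obtain ⟨O, hO, hl, hm, hi⟩ := exists_alg (red D ρ' R)
  obtain ⟨b, -, hb⟩ := (hB O hO hl (Or.inl ((hm _).2 halg))).exists_mem
  have hj := L.fm.nz j hR.mem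
  have hH : ∀ a ∈ H, evO D ρ' (a / j) ∈ O := by
    have e : ∀ a ∈ H, evO D ρ' (a / j) / b ∈ O := fun a ha => hb.1 _ (hR.eq ▸ ⟨a, ha, rfl⟩)
    have e1 := hi _ (e j hR.mem)
    rw [div_self hj, evO_one, one_div, inv_inv] at e1
    intro a ha
    have := O.mul_mem (e a ha) e1
    rwa [div_mul_cancel₀ _ hb.ne] at this
  obtain ⟨j0, hj0, hP⟩ := hD.mem
  have hu : IsU D (j0 / j) := ⟨div_ne_zero (L.fm.nz j0 hj0) hj, hR.gen j0 hj0, by
    rw [inv_div]; exact hP.2.1 (C.div_mem_ch hR.mem)⟩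
  have hT : ch R H j0 ≤ (O.comap ρ').map D.val := by
    refine C.ch_le (fun a ha => ⟨⟨a, hle ha⟩, hl ⟨⟨a, hle ha⟩, ha, rfl⟩, rfl⟩) fun a ha => ?_
    have hm' : a / j0 ∈ D := hP.2.1 (C.div_mem_ch ha)
    refine ⟨⟨_, hm'⟩, ?_, rfl⟩
    change ρ' ⟨_, hm'⟩ ∈ O
    rw [← evO_of_mem ρ' hm', ← div_div_div_cancel_right₀ hj a j0, evO_div ρ' (hR.gen a ha) hu,
      div_eq_mul_inv]
    exact O.mul_mem (hH a ha) (hi _ (hH j0 hj0))
  have hT' : ∀ a ∈ ch R H j0, evO D ρ' a ∈ O := fun a ha => by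
    obtain ⟨x, hx, rfl⟩ := hT ha
    exact (evO_coe ρ' x).symm ▸ hx
  obtain ⟨a0, b0, hg, -⟩ := hZ.all.a1.chart ⊤ hZ.all.a1.nice.toFine.top
  obtain ⟨x, rfl⟩ := L.surj a0
  obtain ⟨y, rfl⟩ := L.surj b0
  have hind := (h5 k F M I R H ξ ρ S L ((x : F), (y : F)) x.2 y.2
    (by rw [evO_coe, evO_coe]; exact hg)).1
  obtain ⟨r, hr, hr'⟩ := h4 k F R D ((fun a => a / j0) '' H) x y (L.fm.fin.image _)
    (L.fm.frac j0 hj0) hP hD.hor hind hD.rk
  refine not_alg (ρ := ρ') hle hr hr' ((hm _).1 ?_)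
  obtain ⟨a, ha, e, he, hu', rfl⟩ := hP.2.2 r hr
  rw [evO_div ρ' (hP.2.1 ha) hu', div_eq_mul_inv]
  exact O.mul_mem (hT' a ha) (hi _ (hT' e he))

end Pool.Agent.MP_e8e0b6_ag.R2

end Part7

section Part8

-- part 8: CrvA

/-!
The coordinate on the divisor is a morphism to the projective line.
-/

set_option autoImplicit false

open Polynomial AlgebraicGeometry CategoryTheory

namespace Pool.Agent.MP_e8e0b6_ag.R2

open Pool.Agent.MP_79c67d_ag Pool.Agent.MP_20d318_ag Pool.Agent.MP_20d318_ag.AG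
  Pool.Agent.MP_20d318_ag.BV Pool.Agent.MP_20d318_ag.CB

namespace CrvAA

variable {k F M I : Type} [Field k] [Field F] [Field M] [Algebra k F] [Algebra k M] [Fintype I]
  {R ξ D O : Subalgebra k F} {H : Set F} {ρ : ξ →ₐ[k] M} {S : Sd k M I} {d : I → ℤ} {φ : M}
  {P : Place k M} {z : Subalgebra k F → F}

/-- The points of the closed fibre on the divisor. -/
theorem le_iff (hZ : Zd R H ξ ρ S d φ P z) (hD : Dd R H z D) (hO : O ∈ XX R H)
    (hd : AG.Dom R O) : O ≤ D ↔ red ξ ρ O ≤ plO P := by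
  have hu := hZ.red O hO hd
  have h0 := (div_ne_zero_iff.1 hu.ne).2
  have h1 := (div_ne_zero_iff.1 hu.ne).1
  rw [← hD.iff O hO, ← C.mx_iff hZ.lc ⟨hO, hd⟩ (hZ.mem O hO),
    ← hZ.all.a1.pmx d φ P hZ.prm _ (C.red_mem hZ.lc ⟨hO, hd⟩)]
  constructor
  · intro hm
    have := mx_mul_left hu.inv_mem hm
    rwa [inv_div, div_mul_cancel₀ _ h1] at this
  · intro hm
    have := mx_mul_left hu.mem hm
    rwa [div_mul_cancel₀ _ h0] at this

end CrvAA

theorem crvA_stmt (h1 : ZcStmt) : CrvAStmt := by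
  intro k F M κ I _ _ _ _ _ _ _ _ _ _ R H ξ ρ S d φ P z w D ρ' j H' hZ hW hD hR
  have hw : IsU D w := by
    obtain ⟨O, hO, e⟩ := C.exists_red hZ.lc hZ.prm.2.1
    have hu : IsU (red ξ ρ O) (evO ξ ρ w) := by
      rw [e]
      simpa using hW.cw.ind.2 (MvPolynomial.X 0) (MvPolynomial.X_ne_zero 0)
    refine IsU.mono ?_ ((CrvAA.le_iff hZ hD hO.1 hO.2).2 e.le)
    rcases hW.reg O hO.1 hO.2 e.le with h | h
    · exact (C.unit_iff hZ.lc hO h).1 hu
    · have := ((C.unit_iff hZ.lc hO h).1 (by rw [evO_inv ρ hW.un]; exact hu.inv)).inv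
      rwa [inv_inv] at this
  refine ⟨hw, fun O hO hle hp => ?_⟩
  obtain ⟨O₁, h2, h3, h4⟩ := (h1 k F κ R D H ρ' j H' hZ.lc.fm.nz (C.xx_le hD.mem) hR).1 O hO hle hp
  obtain ⟨O₂, h5, h6⟩ := C.xx_spec hZ.lc.fm hZ.lc.loc h2
  rcases hW.reg O₂ h5.1 h5.2 ((CrvAA.le_iff hZ hD h5.1 h5.2).1 (h6.trans h3)) with h | h
  · exact Or.inl (h4.1 (C.ev_mem h3 (h6 h)))
  · refine Or.inr ?_
    rw [← evO_inv ρ' hw]
    exact h4.1 (C.ev_mem h3 (h6 h))

end Pool.Agent.MP_e8e0b6_ag.R2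

end Part8

section Part9

-- part 9: CrvB

/-!
CRVB: the inverse morphism at the rational points of the closed fibre.
-/

set_option autoImplicit false

open Polynomial AlgebraicGeometry CategoryTheory

namespace Pool.Agent.MP_e8e0b6_ag.R2

open Pool.Agent.MP_79c67d_ag Pool.Agent.MP_20d318_ag Pool.Agent.MP_20d318_ag.AG
  Pool.Agent.MP_20d318_ag.BV Pool.Agent.MP_20d318_ag.CB

namespace CrvBA

variable {k F κ : Type} [Field k] [Field F] [Field κ] [Algebra k F] [Algebra k κ]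
  {O D : Subalgebra k F} {ρ : D →ₐ[k] κ} {a w : F}

theorem coe_aeval (h : w ∈ O) (p : k[X]) : ((aeval (⟨w, h⟩ : O) p : O) : F) = aeval w p :=
  (aeval_algHom_apply O.val (⟨w, h⟩ : O) p).symm

theorem aev_mem (h : w ∈ O) (p : k[X]) : aeval w p ∈ O :=
  coe_aeval h p ▸ (aeval (⟨w, h⟩ : O) p).2

theorem ev_aeval (ρ : D →ₐ[k] κ) (h : w ∈ D) (p : k[X]) :
    evO D ρ (aeval w p) = aeval (evO D ρ w) p := by
  rw [← coe_aeval h p, evO_coe, evO_of_mem ρ h, aeval_algHom_apply]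

/-- Units lift from the image in the residue field. -/
theorem lift_unit (hl : LocHom D ρ) (hO : IsLocalRing O) (hle : O ≤ D) (ha : a ∈ O)
    (hu : IsU (red D ρ O) (evO D ρ a)) : IsU O a := by
  obtain ⟨e, he, -, h1⟩ := C.mem_red.1 hu.inv_mem
  have h0 : a * e - 1 ∈ O := O.sub_mem (O.mul_mem ha he) O.one_mem
  have h2 : a * e - 1 ∈ mx O := mx_of_le hle h0 ((hl.eq_zero_iff (hle h0)).1 (by
    rw [evO_sub ρ (hle (O.mul_mem ha he)) D.one_mem, evO_mul ρ (hle ha) (hle he), h1, evO_one,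
      mul_inv_cancel₀ hu.ne, sub_self]))
  have h3 := isU_one.add_mx hO h2
  rw [add_sub_cancel] at h3
  exact IsU.of_mul ha he h3

theorem unit_aeval {c : k} (hO : IsLocalRing O) (h : w - algebraMap k F c ∈ mx O) {q : k[X]}
    (hq : q.eval c ≠ 0) : IsU O (aeval w q) := by
  have hw : w ∈ O := by simpa using O.add_mem h.1 (O.algebraMap_mem c)
  obtain ⟨r, hr⟩ := X_sub_C_dvd_sub_C_eval (a := c) (p := q)
  have e := congrArg (aeval w) hr
  rw [map_sub, map_mul, map_sub, aeval_C, aeval_C, aeval_X, sub_eq_iff_eq_add'] at e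
  rw [e]
  exact (isU_const hq).add_mx hO (mx_mul_right h (aev_mem hw r))

end CrvBA

open CrvBA in
theorem crvB_stmt (h1 : ZcStmt) (h2 : CrvAStmt) (h3 : Cw2Stmt) (h4 : VnStmt) : CrvBStmt := by
  intro k F M κ I _ _ _ _ _ _ _ _ _ _ R H ξ ρ S d φ P z w D ρ' j H' hZ hW hD hR c O hO hdom hc
  have L := hZ.lc
  have hRD : R ≤ D := C.xx_le hD.mem
  obtain ⟨zc1, zc2⟩ := h1 k F κ R D H ρ' j H' L.fm.nz hRD hR
  have hw : IsU D w := (h2 k F M κ I R H ξ ρ S d φ P z w D ρ' j H' hZ hW hD hR).1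
  have hwO : evO D ρ' w ∈ O := by simpa using O.add_mem hc.1 (O.algebraMap_mem c)
  have hfin : H'.Finite := hR.eq ▸ L.fm.fin.image _
  have hne : ∃ a ∈ H', a ≠ 0 := ⟨1, hR.eq ▸ ⟨j, hR.mem, by
    simp only [div_self (L.fm.nz j hR.mem), evO_one]⟩, one_ne_zero⟩
  have ctr : ∀ V : Subalgebra k κ, IsVal V → AG.Dom O V → ∃ O₁ ∈ C.Xs R H, O₁ ≤ D ∧
      AG.Dom (red D ρ' O₁) V ∧ red ξ ρ O₁ ≤ plO P ∧ w ∈ O₁ ∧
      evO ξ ρ w - algebraMap k M c ∈ mx (red ξ ρ O₁) := by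
    intro V hV hd
    obtain ⟨O₁, m1, l1, d1⟩ := zc1 V hV.isLocalRing (hdom.1.trans hd.1) (hV.prin hfin hne)
    have loc := C.xx_loc m1
    have x1 : O₁ ∈ C.Xs R H := ⟨m1, C.xx_le m1, fun u hu h => lift_unit hR.lh L.loc hRD hu
      ((hdom.trans hd).2 _ (C.ev_mem hRD hu) ((C.ev_unit l1 h).mono d1.1))⟩
    have p1 : red ξ ρ O₁ ≤ plO P := by
      refine (hZ.all.a1.pmx d φ P hZ.prm _ (C.red_mem L x1)).1 ?_
      have hu := hZ.red O₁ m1 x1.2
      have := mx_div ((C.mx_iff L x1 (hZ.mem O₁ m1)).2 ((hD.iff O₁ m1).2 l1)) hu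
      rwa [div_div_cancel₀ (div_ne_zero_iff.1 hu.ne).1] at this
    have w1 : w ∈ O₁ := (hW.reg O₁ m1 x1.2 p1).elim id fun h => by
      have hu : IsU V (evO D ρ' w⁻¹) := by
        refine ⟨evO_ne ρ' hw.inv, d1.1 (C.ev_mem l1 h), ?_⟩
        rw [evO_inv ρ' hw, inv_inv]
        exact hd.1 hwO
      simpa using (lift_unit hR.lh loc l1 h (d1.2 _ (C.ev_mem l1 h) hu)).inv_mem
    have w2 : w - algebraMap k F c ∈ O₁ := O₁.sub_mem w1 (O₁.algebraMap_mem c)
    refine ⟨O₁, x1, l1, d1, p1, w1, ?_⟩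
    rw [← evO_const ρ c, ← evO_sub ρ hW.un.mem (ξ.algebraMap_mem c)]
    refine (C.mx_iff L x1 w2).2 ⟨w2, fun hu => ?_⟩
    have := (C.ev_unit (ρ := ρ') l1 hu).mono d1.1
    rw [evO_sub ρ' hw.mem (D.algebraMap_mem c), evO_const] at this
    exact this.not_mx (hd.mx hc)
  obtain ⟨V₀, hV₀, d₀⟩ := AG.exists_val hO.1
  obtain ⟨Q, xQ, lQ, dQ, pQ, wQ, cQ⟩ := ctr V₀ hV₀ d₀
  have all : ∀ V : Subalgebra k κ, IsVal V → AG.Dom O V → AG.Dom (red D ρ' Q) V := by
    intro V hV hd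
    obtain ⟨O₁, x1, -, d1, p1, -, c1⟩ := ctr V hV hd
    rwa [C.red_inj L xQ x1 (hW.cw.inj _ (C.red_mem L xQ) _ (C.red_mem L x1) pQ p1
      (Or.inl ⟨c, cQ, c1⟩))]
  have hOB : O ≤ red D ρ' Q := Pts_le hO (sup_le (C.red_mono (C.xx_le xQ.1))
    (Algebra.adjoin_le (Set.singleton_subset_iff.2 (C.ev_mem lQ wQ)))) d₀.1 dQ
  obtain ⟨pr, G, fG, hG⟩ := zc2 Q xQ.1 lQ
  obtain ⟨W, fW, hWs⟩ := h4 k κ O (red D ρ' Q) G hO.1 (fG L.fm.fin)
    (Pts_of_le hG (sup_le_sup_right hdom.1 _) (sup_le hOB (le_sup_right.trans hG.2.1))) all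
  refine pr.mono fun b hb => ?_
  have := hO.1
  have zD : evO D ρ' (z Q) = 0 := by
    have hu := C.dt_unit hZ.dt xQ.1 hD.mem lQ le_rfl
    have h5 := mx_mul_left hu.mem ((hD.iff D hD.mem).2 le_rfl)
    rw [div_mul_cancel₀ _ (div_ne_zero_iff.1 hu.ne).2] at h5
    exact (hR.lh.eq_zero_iff h5.1).2 h5
  have sp : ∀ y ∈ Submodule.span Q (mx R), ∀ b ∈ red D ρ' Q,
      b * evO D ρ' y ∈ IsLocalRing.maximalIdeal O • Submodule.span O W := by
    have mm : ∀ y ∈ Submodule.span Q (mx R), y ∈ D := fun y hy =>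
      C.span_mem lQ (fun _ h => hRD h.1) hy
    intro y hy
    induction hy using Submodule.span_induction with
    | mem r hr =>
      intro b hb
      have h5 : evO D ρ' r ∈ mx O := hdom.mx
        ⟨C.ev_mem hRD hr.1, fun hu => hr.2 (lift_unit hR.lh L.loc hRD hr.1 hu)⟩
      rw [mul_comm]
      exact Submodule.smul_mem_smul ((mem_mx_iff (⟨_, h5.1⟩ : O)).1 h5) ((hWs b).1 hb)
    | zero => intro b _; rw [evO_zero, mul_zero]; exact zero_mem _
    | add y y' hy hy' i1 i2 =>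
      intro b hb
      rw [evO_add ρ' (mm y hy) (mm y' hy'), mul_add]
      exact add_mem (i1 b hb) (i2 b hb)
    | smul e y hy i1 =>
      intro b hb
      have h5 : e • y = (e : F) * y := rfl
      rw [h5, evO_mul ρ' (lQ e.2) (mm y hy), ← mul_assoc]
      exact i1 _ (mul_mem hb (C.ev_mem lQ e.2))
  have nak : Submodule.span O W ≤ Submodule.span O {(1 : κ)} := by
    refine Submodule.le_of_le_smul_of_le_jacobson_bot (Submodule.fg_span fW)
      (IsLocalRing.maximalIdeal_le_jacobson ⊥) fun b hb => ?_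
    obtain ⟨a, ha, -, rfl⟩ := C.mem_red.1 ((hWs b).2 hb)
    have lξ := C.xs_le L xQ
    obtain ⟨p, q, hq, hy⟩ := h3 k M I S d φ (evO ξ ρ w) P c hZ.all hZ.prm hW.cw _
      (C.red_mem L xQ) pQ cQ _ (C.ev_mem lξ ha)
    have hu := hZ.red Q xQ.1 xQ.2
    obtain ⟨e, he, -, e1⟩ := C.mem_red.1 (hu.div_mem hy)
    obtain ⟨n1, n2⟩ := div_ne_zero_iff.1 hu.ne
    rw [div_div_div_cancel_right₀ n2] at e1
    have zQ := hZ.mem Q xQ.1
    have m1 := Q.mul_mem ha (aev_mem wQ q)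
    have m2 := Q.sub_mem m1 (aev_mem wQ p)
    have m3 := Q.mul_mem zQ he
    have h5 : a * aeval w q - aeval w p - z Q * e ∈ Submodule.span Q (mx R) := by
      refine L.fib.red Q xQ.1 xQ.2 _ (Q.sub_mem m2 m3)
        ((L.lh.eq_zero_iff (lξ (Q.sub_mem m2 m3))).1 ?_)
      rw [evO_sub ρ (lξ m2) (lξ m3), evO_sub ρ (lξ m1) (lξ (aev_mem wQ p)),
        evO_mul ρ (lξ ha) (lξ (aev_mem wQ q)), evO_mul ρ (lξ zQ) (lξ he), e1,
        ev_aeval ρ hW.un.mem, ev_aeval ρ hW.un.mem, mul_div_cancel₀ _ n1, sub_self]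
    have uq := unit_aeval hO.1 hc hq
    have h6 := sp _ h5 _ (hOB uq.inv_mem)
    rw [evO_sub ρ' (lQ m2) (lQ m3), evO_sub ρ' (lQ m1) (lQ (aev_mem wQ p)),
      evO_mul ρ' (lQ ha) (lQ (aev_mem wQ q)), evO_mul ρ' (lQ zQ) (lQ he), zD,
      ev_aeval ρ' hw.mem, ev_aeval ρ' hw.mem, zero_mul, sub_zero] at h6
    have h7 : aeval (evO D ρ' w) p / aeval (evO D ρ' w) q ∈ Submodule.span O {(1 : κ)} := by
      simpa using C.span_mul (uq.div_mem (aev_mem hwO p))
        (Submodule.subset_span (Set.mem_singleton (1 : κ)))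
    have h8 := Submodule.add_mem_sup h7 h6
    have n3 := uq.ne
    rwa [show aeval (evO D ρ' w) p / aeval (evO D ρ' w) q + (aeval (evO D ρ' w) q)⁻¹ *
      (evO D ρ' a * aeval (evO D ρ' w) q - aeval (evO D ρ' w) p) = evO D ρ' a by
        field_simp; ring] at h8
  exact C.span_mem le_rfl (Set.singleton_subset_iff.2 O.one_mem) (nak ((hWs b).1 hb))

end Pool.Agent.MP_e8e0b6_ag.R2

end Part9

section Part10

-- part 10: CrvC

/-!
Row CRVC: it is enough to look at the rational points of the closed fibre of the line.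
-/

set_option autoImplicit false

open Polynomial

namespace Pool.Agent.MP_e8e0b6_ag.R2

open Pool.Agent.MP_79c67d_ag Pool.Agent.MP_20d318_ag Pool.Agent.MP_20d318_ag.AG
  Pool.Agent.MP_20d318_ag.BV Pool.Agent.MP_20d318_ag.CB

namespace CrvCA

variable {k κ : Type} [Field k] [Field κ] [Algebra k κ] {R V : Subalgebra k κ} {u : κ}

theorem ev_mem (hu : u ∈ V) (p : k[X]) : aeval u p ∈ V :=
  Algebra.adjoin_le (Set.singleton_subset_iff.2 hu) (aeval_mem_adjoin_singleton k u)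

/-- a common root of the polynomials that vanish at the centre -/
theorem root [IsAlgClosed k] (hV : IsLocalRing V) (hu : u ∈ V) :
    ∃ c : k, ∀ p : k[X], aeval u p ∈ mx V → p.eval c = 0 := by
  let I : Ideal k[X] :=
    { carrier := {p | aeval u p ∈ mx V}
      add_mem' := fun {p q} hp hq => by
        show aeval u (p + q) ∈ mx V
        rw [map_add]; exact mx_add hV hp hq
      zero_mem' := by
        show aeval u (0 : k[X]) ∈ mx V
        rw [map_zero]; exact zero_mem_mx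
      smul_mem' := fun p q hq => by
        show aeval u (p * q) ∈ mx V
        rw [map_mul]; exact mx_mul_left (ev_mem hu p) hq }
  obtain ⟨f, hf⟩ := (IsPrincipalIdealRing.principal I).principal
  have hm : ∀ p, aeval u p ∈ mx V ↔ f ∣ p := fun p => by
    rw [← Ideal.mem_span_singleton]
    exact SetLike.ext_iff.1 hf p
  obtain ⟨c, hc⟩ := IsAlgClosed.exists_root f fun h0 => by
    have := (hm 1).2 (isUnit_iff_degree_eq_zero.2 h0).dvd
    rw [map_one] at this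
    exact one_not_mem_mx this
  exact ⟨c, fun p hp => hc.dvd ((hm p).1 hp)⟩

theorem mul (hV : IsLocalRing V) (hu : u ∈ V) {a b : κ} {p q : k[X]} (hb : b ∈ V)
    (h1 : a - aeval u p ∈ mx V) (h2 : b - aeval u q ∈ mx V) :
    a * b - aeval u (p * q) ∈ mx V := by
  have := mx_add hV (mx_mul_right h1 hb) (mx_mul_left (ev_mem hu p) h2)
  rw [map_mul]
  convert this using 1
  ring

theorem add (hV : IsLocalRing V) {a b : κ} {p q : k[X]}
    (h1 : a - aeval u p ∈ mx V) (h2 : b - aeval u q ∈ mx V) :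
    a + b - aeval u (p + q) ∈ mx V := by
  have := mx_add hV h1 h2
  rw [map_add]
  convert this using 1
  ring

/-- elements of the ring of the line are polynomials modulo the centre -/
theorem poly (hV : IsLocalRing V) (hu : u ∈ V) (hd : AG.Dom R V) (hR : RatPt R) {b : κ}
    (hb : b ∈ R ⊔ Algebra.adjoin k {u}) : b ∈ V ∧ ∃ p : k[X], b - aeval u p ∈ mx V := by
  let S : Subalgebra k κ :=
    { carrier := {b | b ∈ V ∧ ∃ p : k[X], b - aeval u p ∈ mx V}
      mul_mem' := fun ⟨ha, p, hp⟩ ⟨hb, q, hq⟩ => ⟨V.mul_mem ha hb, _, mul hV hu hb hp hq⟩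
      add_mem' := fun ⟨ha, p, hp⟩ ⟨hb, q, hq⟩ => ⟨V.add_mem ha hb, _, add hV hp hq⟩
      algebraMap_mem' := fun c => ⟨V.algebraMap_mem c, C c, by simpa using zero_mem_mx⟩ }
  have : R ⊔ Algebra.adjoin k {u} ≤ S := sup_le (fun f hf => by
    obtain ⟨c, hc⟩ := hR f hf
    exact ⟨hd.1 hf, C c, by simpa using hd.mx hc⟩)
    (Algebra.adjoin_le (Set.singleton_subset_iff.2 ⟨hu, X, by simpa using zero_mem_mx⟩))
  exact this hb

/-- a rational point of the closed fibre below the centre -/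
theorem point [IsAlgClosed k] (hV : IsLocalRing V) (hu : u ∈ V) (hd : AG.Dom R V) (hR : RatPt R) :
    ∃ c : k, ∃ O ∈ Pts (R ⊔ Algebra.adjoin k {u}), AG.Dom R O ∧ u - algebraMap k κ c ∈ mx O ∧
      O ≤ V := by
  obtain ⟨c, hc⟩ := root hV hu
  have uq : ∀ {a : κ} {p q : k[X]}, a - aeval u p ∈ mx V → a - aeval u q ∈ mx V →
      p.eval c = q.eval c := fun {a p q} h1 h2 => by
    have := hc (p - q) (by
      have := mx_sub' hV h2 h1
      rw [map_sub]
      convert this using 1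
      ring)
    rwa [eval_sub, sub_eq_zero] at this
  obtain ⟨O, hO, hU⟩ := exists_loc (R ⊔ Algebra.adjoin k {u})
    {b | ∃ p : k[X], p.eval c = 0 ∧ b - aeval u p ∈ mx V} ⟨0, by simp, by simpa using zero_mem_mx⟩
    (fun ⟨p, h0, hp⟩ => by
      have := uq (q := 1) hp (by simpa using zero_mem_mx)
      simp [h0] at this)
    (fun a _ b _ ⟨p, h0, hp⟩ ⟨q, h1, hq⟩ => ⟨p + q, by simp [h0, h1], add hV hp hq⟩)
    fun a ha b hb => by
      obtain ⟨-, p, hp⟩ := poly hV hu hd hR ha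
      obtain ⟨hb', q, hq⟩ := poly hV hu hd hR hb
      have hpq := mul hV hu hb' hp hq
      constructor
      · rintro ⟨r, h0, hr⟩
        have := uq hpq hr
        rw [h0, eval_mul, mul_eq_zero] at this
        exact this.imp (fun h => ⟨p, h, hp⟩) fun h => ⟨q, h, hq⟩
      · rintro (⟨r, h0, hr⟩ | ⟨r, h0, hr⟩)
        · exact ⟨_, by rw [eval_mul, uq hp hr, h0, zero_mul], hpq⟩
        · exact ⟨_, by rw [eval_mul, uq hq hr, h0, mul_zero], hpq⟩
  have hl : R ≤ R ⊔ Algebra.adjoin k {u} := le_sup_left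
  have hc' : u - algebraMap k κ c ∈ R ⊔ Algebra.adjoin k {u} :=
    sub_mem (le_sup_right (a := R) (Algebra.self_mem_adjoin_singleton k u))
      (Subalgebra.algebraMap_mem _ c)
  refine ⟨c, O, hO, ⟨hl.trans hO.2.1, fun a ha h => isU_of_not_mx ha fun h' =>
    (hU a (hl ha)).1 h ⟨0, by simp, by simpa using hd.mx h'⟩⟩, ⟨hO.2.1 hc', fun h =>
      (hU _ hc').1 h ⟨X - C c, by simp, by simpa using zero_mem_mx⟩⟩, fun f hf => ?_⟩
  obtain ⟨a, ha, b, hb, h, rfl⟩ := hO.2.2 f hf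
  exact (isU_of_not_mx (poly hV hu hd hR hb).1 fun h' =>
    (hU b hb).1 h ⟨0, by simp, by simpa using h'⟩).div_mem (poly hV hu hd hR ha).1

end CrvCA

theorem crvC_stmt : CrvCStmt := by
  intro k κ _ _ _ _ R H w hR hr h O hO hle hw
  obtain ⟨V, hV, hd⟩ := AG.exists_val hO
  obtain ⟨V', hV', hd', hVV, -⟩ := C.exists_val_le hR hV (hle.trans hd.1)
  have key : ∀ u, u = w ∨ u = w⁻¹ → u ∈ V' → u ∈ O ∨ u⁻¹ ∈ O → Prin H O := fun u h1 h2 h3 => by
    have hu : u ∈ O := h3.elim id fun h4 => by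
      by_cases h0 : u = 0
      · exact h0 ▸ O.zero_mem
      · simpa using (hd.2 _ h4 ⟨inv_ne_zero h0, hd.1 h4, by simpa using hVV h2⟩).inv_mem
    obtain ⟨c, P, hP, g1, g2, g3⟩ := CrvCA.point hV'.isLocalRing h2 hd' hr
    exact (h u h1 c P hP g1 g2).mono (Pts_le hP
      (sup_le hle (Algebra.adjoin_le (Set.singleton_subset_iff.2 hu))) (g3.trans hVV) hd)
  exact (hV' w).elim (fun h2 => key w (.inl rfl) h2 hw) fun h2 =>
    key w⁻¹ (.inr rfl) h2 (by simpa using hw.symm)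

end Pool.Agent.MP_e8e0b6_ag.R2

end Part10
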