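import Pool.Agent.MP_e8e0b6_ag.R2.SpecS
import Pool.Agent.MP_20d318_ag.BV.XAlg

section Part1

-- part 1: Cw2

/-!
Functions on a rational curve near a point.
-/

set_option autoImplicit false

open Polynomial AlgebraicGeometry CategoryTheory

namespace Pool.Agent.MP_e8e0b6_ag.R2

open Pool.Agent.MP_79c67d_ag Pool.Agent.MP_20d318_ag Pool.Agent.MP_20d318_ag.AG
  Pool.Agent.MP_20d318_ag.BV Pool.Agent.MP_20d318_ag.CB

namespace Cw2A

variable {k M : Type} [Field k] [Field M] [Algebra k M] {O W : Subalgebra k M} {w a : M} {c : k}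

theorem ev_mem (hw : w - algebraMap k M c ∈ mx O) (p : k[X]) : aeval w p ∈ O :=
  Algebra.adjoin_le (S := O) (Set.singleton_subset_iff.2 (by
    simpa using O.add_mem hw.1 (O.algebraMap_mem c))) (aeval_mem_adjoin_singleton k w)

theorem red (hO : IsLocalRing O) (hle : O ≤ W) (hw : w - algebraMap k M c ∈ mx O)
    (hu : IsU W (w - algebraMap k M c)) (ha : a ∈ O) (q : k[X]) : ∀ (m : ℕ) (p : k[X]),
    a * aeval w ((X - C c) ^ m * q) - aeval w p ∈ mx W →
      ∃ p' : k[X], a * aeval w q - aeval w p' ∈ mx W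
  | 0, p, h => ⟨p, by simpa using h⟩
  | m + 1, p, h => by
    obtain ⟨r, hr⟩ := X_sub_C_dvd_sub_C_eval (p := p) (a := c)
    have e : a * aeval w ((X - C c) ^ (m + 1) * q) - aeval w p = (a * aeval w ((X - C c) ^ m * q) -
        aeval w r) * (w - algebraMap k M c) - algebraMap k M (p.eval c) := by
      have := congrArg (aeval w) hr
      simp only [map_sub, map_mul, map_pow, aeval_X, aeval_C] at this ⊢
      linear_combination -this
    have h1 := mx_mul_left (O.sub_mem (O.mul_mem ha (ev_mem hw ((X - C c) ^ m * q))) (ev_mem hw r)) hw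
    rw [e] at h
    have h2 := mx_sub' hO h1 (mx_of_le hle (O.sub_mem h1.1 (O.algebraMap_mem _)) h)
    rw [sub_sub_cancel] at h2
    rw [show p.eval c = 0 from by_contra fun h0 => h2.2 (isU_const h0), map_zero, sub_zero] at h
    exact red hO hle hw hu ha q m r (by simpa only [mul_div_cancel_right₀ _ hu.ne] using mx_div h hu)

end Cw2A

theorem cw2_stmt : Cw2Stmt := by
  intro k M I _ _ _ _ _ _ S d φ w P c h hp hw O hO hle hc a ha
  obtain ⟨p, q, q0, h1⟩ := hw.gen a (hle ha)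
  obtain ⟨q', e, hq⟩ := exists_eq_pow_rootMultiplicity_mul_and_not_dvd q q0 c
  obtain ⟨p', h2⟩ := Cw2A.red (h.a1.nice.loc O hO) hle hc (ind_one hw.ind c) ha q' _ p (e ▸ h1)
  refine ⟨p', q', fun h0 => hq (dvd_iff_isRoot.2 h0), ?_⟩
  have h3 := O.sub_mem (O.mul_mem ha (Cw2A.ev_mem hc q')) (Cw2A.ev_mem hc p')
  generalize a * aeval w q' - aeval w p' = b at h2 h3
  rcases eq_or_ne b 0 with rfl | b0
  · rw [zero_div]; exact O.zero_mem
  have ca := h.a1.pcart d φ hp.1
  refine h.a1.nice.krull hO fun P' hP' hle' => mem_plO_ord.2 ?_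
  rw [P'.ord_div b0 (ca.ne hO), B2.ord_eq ca hO hP' hle', hp.2.2 P' hP']
  split_ifs with e'
  · have := (mx_plO b0).1 (e' ▸ h2)
    omega
  · simpa using mem_plO_ord.1 (hle' h3)

end Pool.Agent.MP_e8e0b6_ag.R2

end Part1

section Part2

-- part 2: DdR

/-!
The generic point of a divisor on the family that restricts to a prime divisor.
-/

set_option autoImplicit false

open Polynomial AlgebraicGeometry CategoryTheory

namespace Pool.Agent.MP_e8e0b6_ag.R2

open Pool.Agent.MP_79c67d_ag Pool.Agent.MP_20d318_ag Pool.Agent.MP_20d318_ag.AG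
  Pool.Agent.MP_20d318_ag.BV Pool.Agent.MP_20d318_ag.CB

namespace DdA

variable {k F M I : Type} [Field k] [Field F] [Field M] [Algebra k F] [Algebra k M] [Fintype I]
  {R O O' ξ : Subalgebra k F} {H : Set F} {ρ : ξ →ₐ[k] M} {S : Sd k M I} {d : I → ℤ} {φ : M}
  {P : Place k M} {z : Subalgebra k F → F} {t : F}

theorem dvd_iff (ht : t ∈ O) (h0 : t ≠ 0) (a : O) : (⟨t, ht⟩ : O) ∣ a ↔ (a : F) / t ∈ O :=
  ⟨fun ⟨c, e⟩ => by
    rw [e]
    change t * c / t ∈ O
    rw [mul_div_cancel_left₀ _ h0]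
    exact c.2, fun h => ⟨⟨_, h⟩, Subtype.ext (mul_div_cancel₀ _ h0).symm⟩⟩

/-- An irreducible element of a factorial ring. -/
theorem ufd (hU : UniqueFactorizationMonoid O) (ht : t ∈ mx O) (h0 : t ≠ 0)
    (hi : ∀ a ∈ O, ∀ b ∈ O, t = a * b → IsU O a ∨ IsU O b) :
    (∀ a ∈ O, ∀ b ∈ O, a * b / t ∈ O → a / t ∈ O ∨ b / t ∈ O) ∧
      ∀ a ∈ O, a ≠ 0 → ∃ n : ℕ, a / t ^ n ∈ O ∧ a / t ^ n / t ∉ O := by
  have hir : Irreducible (⟨t, ht.1⟩ : O) :=
    ⟨fun h => ht.2 ((isU_iff_isUnit (⟨t, ht.1⟩ : O)).2 h), fun a b e =>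
      (hi a a.2 b b.2 (congrArg Subtype.val e)).imp (isU_iff_isUnit a).1 (isU_iff_isUnit b).1⟩
  refine ⟨fun a ha b hb h => ?_, fun a ha h => ?_⟩
  · exact (hir.prime.dvd_or_dvd ((dvd_iff ht.1 h0 (⟨a, ha⟩ * ⟨b, hb⟩)).2 h)).imp
      (dvd_iff ht.1 h0 ⟨a, ha⟩).1 (dvd_iff ht.1 h0 ⟨b, hb⟩).1
  · obtain ⟨n, c, hc, e⟩ := WfDvdMonoid.max_power_factor (a₀ := (⟨a, ha⟩ : O))
      (fun e => h (congrArg Subtype.val e)) hir
    have e' : a / t ^ n = c := by
      rw [div_eq_iff (pow_ne_zero n h0), mul_comm]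
      exact congrArg Subtype.val e
    exact ⟨n, e' ▸ c.2, e' ▸ fun h => hc ((dvd_iff ht.1 h0 c).2 h)⟩

theorem rle (L : Lc R H ξ ρ S) (h : O ∈ C.Xs R H) (h' : O' ∈ C.Xs R H)
    (e : red ξ ρ O ≤ red ξ ρ O') : O ≤ O' := by
  obtain ⟨V, -, h1, h2⟩ := C.exists_val_red L h'
  exact C.xx_le_of L.fm h.1 h'.1
    (fun a ha => (h2 a (C.xs_le L h ha)).1 (e (C.ev_mem (C.xs_le L h) ha))) h1

variable (Z : Zd R H ξ ρ S d φ P z)
include Z

theorem zne (h : O ∈ C.Xs R H) : evO ξ ρ (z O) ≠ 0 := (div_ne_zero_iff.1 (Z.red O h.1 h.2).ne).1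

theorem zmx (h : O ∈ C.Xs R H) : z O ∈ mx O ↔ red ξ ρ O ≤ plO P := by
  have u := Z.red O h.1 h.2
  obtain ⟨h1, h2⟩ := div_ne_zero_iff.1 u.ne
  rw [← C.mx_iff Z.lc h (Z.mem O h.1), ← Z.all.a1.pmx d φ P Z.prm _ (C.red_mem Z.lc h)]
  refine ⟨fun hm => ?_, fun hm => ?_⟩
  · have := mx_div hm u
    rwa [div_div_cancel₀ h1] at this
  · have := mx_mul_left u.mem hm
    rwa [div_mul_cancel₀ _ h2] at this

theorem zirr (h : O ∈ C.Xs R H) : ∀ a ∈ O, ∀ b ∈ O, z O = a * b → IsU O a ∨ IsU O b := by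
  classical
  intro a ha b hb e
  have hle := C.xs_le Z.lc h
  have hT := C.red_mem Z.lc h
  have u := Z.red O h.1 h.2
  obtain ⟨h1, h2⟩ := div_ne_zero_iff.1 u.ne
  have e1 : evO ξ ρ (z O) = evO ξ ρ a * evO ξ ρ b := by rw [e, evO_mul ρ (hle ha) (hle hb)]
  obtain ⟨a0, b0⟩ := mul_ne_zero_iff.1 (e1 ▸ h1)
  have key : ∀ Q : Place k M, plO Q ∈ S.T → red ξ ρ O ≤ plO Q → 0 ≤ Q.ord (evO ξ ρ a) ∧
      0 ≤ Q.ord (evO ξ ρ b) ∧
      Q.ord (evO ξ ρ a) + Q.ord (evO ξ ρ b) = if Q = P then 1 else 0 := fun Q hQ hl => by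
    refine ⟨mem_plO_ord.1 (hl (C.ev_mem hle ha)), mem_plO_ord.1 (hl (C.ev_mem hle hb)), ?_⟩
    have h3 := ((isU_plO' Q).1 (u.mono hl)).2
    have h4 := B2.ord_eq (Z.all.a1.pcart d φ Z.prm.1) hT hQ hl
    rw [Q.ord_div h1 h2, h4, Z.prm.2.2 Q hQ, e1, Q.ord_mul a0 b0] at h3
    omega
  have fin : ∀ c ∈ O, evO ξ ρ c ≠ 0 → (∀ Q : Place k M, plO Q ∈ S.T → red ξ ρ O ≤ plO Q →
      Q.ord (evO ξ ρ c) = 0) → IsU O c := fun c hc c0 h5 =>
    (C.unit_iff Z.lc h hc).1 ⟨c0, C.ev_mem hle hc, Z.all.a1.nice.krull hT fun Q hQ hl =>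
      mem_plO_ord.2 (by rw [Q.ord_inv, h5 Q hQ hl, neg_zero])⟩
  by_cases hP : P.ord (evO ξ ρ a) = 0
  · refine Or.inl (fin a ha a0 fun Q hQ hl => ?_)
    obtain ⟨k1, k2, k3⟩ := key Q hQ hl
    split_ifs at k3 with hq
    · rwa [hq]
    · omega
  · refine Or.inr (fin b hb b0 fun Q hQ hl => ?_)
    obtain ⟨k1, k2, k3⟩ := key Q hQ hl
    split_ifs at k3 with hq
    · subst hq; omega
    · omega

theorem zufd (h : O ∈ C.Xs R H) (hm : z O ∈ mx O) :
    (∀ a ∈ O, ∀ b ∈ O, a * b / z O ∈ O → a / z O ∈ O ∨ b / z O ∈ O) ∧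
      ∀ a ∈ O, a ≠ 0 → ∃ n : ℕ, a / z O ^ n ∈ O ∧ a / z O ^ n / z O ∉ O :=
  ufd (Z.lc.fm.ufd O h.1) hm (fun e => zne Z h (by rw [e, evO_zero])) (zirr Z h)

end DdA

open DdA in
theorem dd_stmt (h1 : C.WexStmt) : DdStmt := by
  intro k F M I _ _ _ _ _ _ _ _ R H ξ ρ S d φ P z Z
  have L := Z.lc
  obtain ⟨Q, hQ, eQ⟩ := C.exists_red L Z.prm.2.1
  have tm : z Q ∈ mx Q := (zmx Z hQ).2 eQ.le
  have tu : IsU ξ (z Q) := C.xi_unit L (C.xs_le L hQ tm.1) (zne Z hQ)
  have t0 := tu.ne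
  obtain ⟨p1, p2⟩ := zufd Z hQ tm
  obtain ⟨D, hD, hU⟩ := AG.exists_loc Q {a | a / z Q ∈ Q} (by simp)
    (fun h => tm.2 ⟨t0, tm.1, by simpa using h⟩)
    (fun a _ b _ ha hb => by
      change (a + b) / z Q ∈ Q
      rw [add_div]
      exact Q.add_mem ha hb)
    (fun a ha b hb => ⟨p1 a ha b hb, fun h => h.elim (fun h => by
      change a * b / z Q ∈ Q
      rw [mul_div_right_comm]
      exact Q.mul_mem h hb) fun h => by
      change a * b / z Q ∈ Q
      rw [mul_div_assoc]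
      exact Q.mul_mem ha h⟩)
  have hle : Q ≤ D := hD.2.1
  have hm : ∀ a ∈ Q, a ∈ mx D → a / z Q ∈ Q := fun a ha h => by_contra fun hn =>
    h.2 ((hU a ha).2 hn)
  have tD : z Q ∈ mx D := ⟨hle tm.1, fun h => (hU _ tm.1).1 h (by simp [t0])⟩
  have back : ∀ O ∈ XX R H, O ≤ D → z O ∈ mx O := fun O hO h => by
    have := mx_mul_left (C.dt_unit Z.dt hO hQ.1 h hle).mem tD
    rw [div_mul_cancel₀ _ t0] at this
    exact mx_of_le h (Z.mem O hO) this
  have up : ∀ O ∈ C.Xs R H, z O ∈ mx O → O ≤ Q := fun O hO h =>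
    rle L hO hQ (eQ ▸ (zmx Z hO).1 h)
  have dv : ∀ O ∈ XX R H, AG.Dom R O → O ≤ D → ∀ a ∈ O, a ∈ mx D → a / z O ∈ O := by
    intro O hO hd h a ha hx
    have zm := back O hO h
    have hOQ := up O ⟨hO, hd⟩ zm
    have u := C.dt_unit Z.dt hO hQ.1 hOQ le_rfl
    have z0 := (div_ne_zero_iff.1 u.ne).1
    have h2 := u.div_mem (hm a (hOQ ha) hx)
    rw [div_div_div_cancel_right₀ t0] at h2
    obtain ⟨a', ha', s, hs, su, e⟩ := (C.xx_pts L.fm hO hQ.1 hOQ).2.2 _ h2
    refine ((zufd Z ⟨hO, hd⟩ zm).1 a ha s hs ?_).resolve_right fun h3 => su.not_mx ?_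
    · rwa [mul_div_right_comm, e, div_mul_cancel₀ _ su.ne]
    · have h4 := mx_mul_left (Q.mul_mem (hOQ h3) u.mem) tm
      rwa [div_mul_div_cancel₀ z0, div_mul_cancel₀ _ t0] at h4
  have pw : ∀ b ∈ D, b ≠ 0 → ∃ n : ℕ, IsU D (b / z Q ^ n) := fun b hb b0 => by
    obtain ⟨a, ha, s, hs, su, rfl⟩ := hD.2.2 b hb
    obtain ⟨n, n1, n2⟩ := p2 a ha (div_ne_zero_iff.1 b0).1
    exact ⟨n, by rw [div_right_comm]; exact ((hU _ n1).2 n2).div su⟩
  refine ⟨D, C.xx_trans hQ.1 hD, fun O hO => ⟨fun h f hf => ?_, back O hO⟩, fun c hc c0 => ?_,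
    fun a ha b hb b0 => ?_, dv⟩
  · obtain ⟨O₁, h1, h2⟩ := C.xx_spec L.fm L.loc hO
    have u := C.dt_unit Z.dt h1.1 hO h2 le_rfl
    obtain ⟨z1, z0⟩ := div_ne_zero_iff.1 u.ne
    have h3 := mx_mul_left u.mem h
    rw [div_mul_cancel₀ _ z0] at h3
    have h4 := (up O₁ h1 (mx_of_le h2 (Z.mem O₁ h1.1) h3)).trans hle
    obtain ⟨a, ha, b, hb, bu, rfl⟩ := (C.xx_pts L.fm h1.1 hO h2).2.2 f hf
    refine (isU_of_not_mx (h4 hb) fun h5 => bu.not_mx ?_).div_mem (h4 ha)
    have h6 := mx_mul_left (h2 (dv O₁ h1.1 h1.2 h4 b hb h5)) h3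
    rwa [div_mul_cancel₀ _ z1] at h6
  · obtain ⟨W, -, w1, w2, w3⟩ := h1 k F M I R H ξ ρ S L Q hQ _ tm tu
    refine isU_of_not_mx (hle (hQ.2.1 hc)) fun h => (w3 c hc c0).not_mx ?_
    have h6 := mx_mul_left (w1 (hm c (hQ.2.1 hc) h)) w2
    rwa [div_mul_cancel₀ _ t0] at h6
  · obtain ⟨n, hn⟩ := pw b hb b0
    have h2 : a / z Q ∈ D := by
      by_cases a0 : a = 0
      · simp [a0]
      obtain ⟨m, hm⟩ := pw a ha.1 a0
      rcases m with _ | m
      · exact absurd (by simpa using hm) ha.2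
      · have := D.mul_mem hm.mem (D.pow_mem tD.1 m)
        convert this using 1
        field_simp
        ring
    refine ⟨n, ?_⟩
    have := hn.div_mem (D.pow_mem h2 n)
    rwa [div_pow, div_div_div_cancel_right₀ (pow_ne_zero n t0)] at this

end Pool.Agent.MP_e8e0b6_ag.R2

end Part2

section Part3

-- part 3: FinR

/-!
Finiteness of the module of sections of a line bundle on a projective family.
-/

set_option autoImplicit false

open Polynomial

namespace Pool.Agent.MP_e8e0b6_ag.R2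

open Pool.Agent.MP_79c67d_ag Pool.Agent.MP_20d318_ag Pool.Agent.MP_20d318_ag.AG
  Pool.Agent.MP_20d318_ag.BV Pool.Agent.MP_20d318_ag.CB

namespace FinA

/-- Finiteness of the integral closure of an affine domain in characteristic zero. -/
theorem icl (k D K : Type) [Field k] [CharZero k] [CommRing D] [IsDomain D] [Algebra k D]
    [Algebra.FiniteType k D] [Field K] [Algebra k K] [Algebra D K] [IsScalarTower k D K]
    [IsFractionRing D K] : Module.Finite D (integralClosure D K) := by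
  have : Algebra.EssFiniteType D K := .of_isLocalization K (nonZeroDivisors D)
  have : Algebra.EssFiniteType k K := .comp k D K
  have : Algebra.IsAlgebraic D K := IsLocalization.isAlgebraic K (nonZeroDivisors D)
  obtain ⟨s, g, hg, hg'⟩ := exists_finite_inj_algHom_of_fg k D
  let P := MvPolynomial (Fin s) k
  let _ : Algebra P D := g.toRingHom.toAlgebra
  let _ : Algebra P K := ((algebraMap D K).comp g.toRingHom).toAlgebra
  have : IsScalarTower P D K := .of_algebraMap_eq fun _ => rfl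
  have : IsScalarTower k P K := .of_algebraMap_eq fun c => by
    rw [IsScalarTower.algebraMap_apply k D K, ← g.commutes]; rfl
  have : Module.Finite P D := hg'
  have : FaithfulSMul P D := (faithfulSMul_iff_algebraMap_injective _ _).2 hg
  have : FaithfulSMul P K := (faithfulSMul_iff_algebraMap_injective _ _).2
    ((FaithfulSMul.algebraMap_injective D K).comp hg)
  let _ := FractionRing.liftAlgebra P K
  have : Algebra.IsAlgebraic P K := .trans P D K
  have : Algebra.IsAlgebraic (FractionRing P) K := .extendScalars (R := P)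
    (IsFractionRing.injective P _)
  have : IsScalarTower k (FractionRing P) K := .to₁₃₄ k P _ _
  have : Algebra.EssFiniteType (FractionRing P) K := .of_comp k _ _
  have : FiniteDimensional (FractionRing P) K := Algebra.finite_of_essFiniteType_of_isAlgebraic
  have : CharZero (FractionRing P) :=
    charZero_of_injective_algebraMap (algebraMap k (FractionRing P)).injective
  have h : Module.Finite P (integralClosure P K) :=
    IsIntegralClosure.finite P (FractionRing P) K _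
  have : Module.Finite P (integralClosure D K) := Module.Finite.of_surjective
    (M := integralClosure P K) (LinearMap.codRestrict
      ((integralClosure D K).toSubmodule.restrictScalars P) (integralClosure P K).val.toLinearMap
      fun x => x.2.tower_top) fun x => ⟨⟨x.1, isIntegral_trans _ x.2⟩, rfl⟩
  exact Module.Finite.of_restrictScalars_finite P _ _

variable {k F : Type} [Field k] [Field F] [Algebra k F]

/-- Polynomials whose `n`-th coefficient lies in the `n`-th power of `N`. -/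
def rees (A : Subalgebra k F) (N : Submodule A F) : Subalgebra k F[X] where
  carrier := {p | ∀ n, p.coeff n ∈ N ^ n}
  mul_mem' {p q} hp hq n := by
    rw [coeff_mul]
    refine sum_mem fun x hx => ?_
    rw [← Finset.HasAntidiagonal.mem_antidiagonal.1 hx, pow_add]
    exact Submodule.mul_mem_mul (hp _) (hq _)
  add_mem' {p q} hp hq n := by rw [coeff_add]; exact add_mem (hp n) (hq n)
  algebraMap_mem' c n := by
    rw [Polynomial.algebraMap_apply, coeff_C]
    split_ifs with h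
    · rw [h, pow_zero]; exact Submodule.mem_one.2 ⟨⟨_, A.algebraMap_mem c⟩, rfl⟩
    · exact zero_mem _

/-- Functions that are bounded by `U` along all valuations lie in a finite module. -/
theorem core [CharZero k] (A : Subalgebra k F) (hA : Algebra.FiniteType k A) (U : Set F)
    (hU : U.Finite) (u₀ : F) (h0 : u₀ ∈ U) (hne : u₀ ≠ 0)
    (hF : ∀ W : Subfield F, (∀ a ∈ A, a ∈ W) → (∀ u ∈ U, u / u₀ ∈ W) → ∀ f, f ∈ W) :
    ∃ N : Submodule A F, N.FG ∧ ∀ y : F,
      (∀ V : Subalgebra k F, IsVal V → A ≤ V → ∃ u ∈ U, u ≠ 0 ∧ y / u ∈ V) → y ∈ N := by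
  obtain ⟨G, hG, hG'⟩ := Subalgebra.fg_def.1 (A.fg_top.1 hA.out)
  let K := FractionRing F[X]
  let B : Subalgebra k F[X] := Algebra.adjoin k (C '' G ∪ (fun u => C u * X) '' U)
  have hBA : ∀ a ∈ A, C a ∈ B := fun a ha => by
    have : A ≤ B.comap (IsScalarTower.toAlgHom k F F[X]) :=
      hG' ▸ Algebra.adjoin_le fun g hg => Algebra.subset_adjoin (Or.inl ⟨g, hg, rfl⟩)
    exact this ha
  have hBU : ∀ u ∈ U, C u * X ∈ B := fun u hu => Algebra.subset_adjoin (Or.inr ⟨u, hu, rfl⟩)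
  have : Algebra.FiniteType k B := (Subalgebra.fg_iff_finiteType _).1
    (Subalgebra.fg_def.2 ⟨_, (hG.image _).union (hU.image _), rfl⟩)
  have hi : Function.Injective (algebraMap F[X] K) := IsFractionRing.injective _ _
  have : FaithfulSMul B K := (faithfulSMul_iff_algebraMap_injective _ _).2
    (hi.comp Subtype.val_injective)
  let γ : F →+* K := (algebraMap F[X] K).comp C
  have hX : algebraMap F[X] K X ≠ 0 := fun h => X_ne_zero (hi (h.trans (map_zero _).symm))
  have hγ : ∀ u, algebraMap F[X] K (C u * X) = γ u * algebraMap F[X] K X := fun u => map_mul _ _ _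
  have : IsFractionRing B K := by
    let W := Subfield.closure (Set.range (algebraMap B K))
    have h1 : ∀ p ∈ B, algebraMap F[X] K p ∈ W := fun p hp => Subfield.subset_closure ⟨⟨p, hp⟩, rfl⟩
    have h2 : ∀ f, γ f ∈ W := hF (W.comap γ) (fun a ha => h1 _ (hBA a ha)) fun u hu => by
      have := W.div_mem (h1 _ (hBU u hu)) (h1 _ (hBU u₀ h0))
      rwa [hγ, hγ, mul_div_mul_right _ _ hX, ← map_div₀] at this
    have h3 : algebraMap F[X] K X ∈ W := by
      have := W.div_mem (h1 _ (hBU u₀ h0)) (h2 u₀)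
      rwa [hγ, mul_div_cancel_left₀ _ ((map_ne_zero γ).2 hne)] at this
    have h4 : ∀ p, algebraMap F[X] K p ∈ W := fun p => by
      induction p using Polynomial.induction_on' with
      | add p q hp hq => rw [map_add]; exact add_mem hp hq
      | monomial n c =>
        rw [← C_mul_X_pow_eq_monomial, map_mul, map_pow]
        exact mul_mem (h2 c) (pow_mem h3 n)
    refine IsFractionRing.of_field B K fun z => ?_
    obtain ⟨p, q, -, rfl⟩ := IsFractionRing.div_surjective (A := F[X]) z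
    obtain ⟨a, ha, b, hb, e⟩ := Subfield.mem_closure_iff.1 (W.div_mem (h4 p) (h4 q))
    rw [← RingHom.coe_range, Subring.closure_eq] at ha hb
    obtain ⟨a, rfl⟩ := ha
    obtain ⟨b, rfl⟩ := hb
    exact ⟨a, b, e.symm⟩
  have hfin := icl k B K
  obtain ⟨f, hf0, hf⟩ := FractionalIdeal.isFractional_of_fg (S := nonZeroDivisors B)
    (I := (integralClosure B K).toSubmodule) (Module.Finite.iff_fg.1 hfin)
  have hf1 : (f : F[X]).leadingCoeff ≠ 0 := leadingCoeff_ne_zero.2 fun h =>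
    nonZeroDivisors.ne_zero hf0 (Subtype.ext h)
  have hB : B ≤ rees A (Submodule.span A U) := by
    refine Algebra.adjoin_le ?_
    rintro _ (⟨g, hg, rfl⟩ | ⟨u, hu, rfl⟩) n
    · rw [coeff_C]
      split_ifs with h
      · rw [h, pow_zero]
        exact Submodule.mem_one.2 ⟨⟨g, hG' ▸ Algebra.subset_adjoin hg⟩, rfl⟩
      · exact zero_mem _
    · rw [coeff_C_mul_X]
      split_ifs with h
      · rw [h, pow_one]; exact Submodule.subset_span hu
      · exact zero_mem _
  refine ⟨(Submodule.span A U ^ ((f : F[X]).natDegree + 1)).map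
    (LinearMap.mulLeft A (f : F[X]).leadingCoeff⁻¹),
    ((Submodule.fg_span hU).pow _).map _, fun y hy => ?_⟩
  have h1 : algebraMap F[X] K (C y * X) ∈ (integralClosure B K).toSubmodule := by
    have h2 : algebraMap F[X] K (C y * X) ∈
        (integralClosure (Subring.closure (Set.range (algebraMap B K))) K).toSubring := by
      rw [← iInf_valuationSubring_superset, Subring.mem_iInf]
      rintro ⟨V, hV⟩
      have h3 : ∀ p ∈ B, algebraMap F[X] K p ∈ V := fun p hp => hV ⟨⟨p, hp⟩, rfl⟩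
      let V₀ : Subalgebra k F :=
        { (V.toSubring.comap γ).toSubsemiring with
          algebraMap_mem' := fun c => h3 _ (hBA _ (A.algebraMap_mem c)) }
      obtain ⟨u, hu, hu0, h4⟩ := hy V₀
        (fun f => (V.mem_or_inv_mem (γ f)).imp_right fun h => by
          change γ f⁻¹ ∈ V
          rwa [map_inv₀])
        fun a ha => h3 _ (hBA a ha)
      have h5 := V.mul_mem _ _ (show γ (y / u) ∈ V from h4) (h3 _ (hBU u hu))
      rwa [hγ, ← mul_assoc, ← map_mul, div_mul_cancel₀ _ hu0, ← hγ] at h5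
    rw [← RingHom.coe_range, Subring.closure_eq] at h2
    let e := RingEquiv.ofBijective (algebraMap B K).rangeRestrict
      ⟨fun a b h => FaithfulSMul.algebraMap_injective B K (congrArg Subtype.val h),
        RingHom.rangeRestrict_surjective _⟩
    exact IsIntegral.map_of_comp_eq e.symm.toRingHom (RingHom.id K)
      (RingHom.ext fun x => congrArg Subtype.val (e.apply_symm_apply x)) h2
  obtain ⟨b, hb⟩ := hf _ h1
  have h2 : (b : F[X]) = (f : F[X]) * (C y * X) :=
    hi (by rw [map_mul]; exact hb.trans (Algebra.smul_def _ _))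
  have h3 := hB b.2 ((f : F[X]).natDegree + 1)
  rw [h2, ← mul_assoc, coeff_mul_X, coeff_mul_C] at h3
  exact ⟨_, h3, inv_mul_cancel_left₀ hf1 y⟩

end FinA

theorem fin_stmt : FinStmt := by
  intro k F _ _ _ _ A H γ hF hA ⟨U, V, hU, hV, h⟩
  obtain ⟨O₀, hO₀, -⟩ := C.xx_ctr hF (V := ⊤) (fun _ => Or.inl trivial) le_top
  obtain ⟨a₀, b₀, ⟨-, u₀, hu₀, ha₀⟩, ⟨-, v, hv, hb₀⟩, -⟩ := h O₀ hO₀
  have hu0 : u₀ ≠ 0 := (div_ne_zero_iff.1 ha₀.ne).1
  have hv0 : v ≠ 0 := (div_ne_zero_iff.1 hb₀.ne).1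
  obtain ⟨j, hj⟩ := hF.ne
  have hj0 := hF.nz j hj
  obtain ⟨N, hN, key⟩ := FinA.core A hA (Set.image2 (· * ·) U H) (hU.1.image2 _ hF.fin) (u₀ * j)
    ⟨u₀, hu₀, j, hj, rfl⟩ (mul_ne_zero hu0 hj0) fun W h1 h2 f => by
      let T : Subalgebra k F :=
        { W.toSubring.toSubsemiring with algebraMap_mem' := fun c => h1 _ (A.algebraMap_mem c) }
      have hT : ch A H j ≤ T := C.ch_le h1 fun a ha => by
        have := h2 _ ⟨u₀, hu₀, a, ha, rfl⟩
        rwa [mul_div_mul_left _ _ hu0] at this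
      obtain ⟨a, ha, b, hb, -, rfl⟩ := hF.frac j hj f
      exact W.div_mem (hT ha) (hT hb)
  obtain ⟨W, hW, hW'⟩ := Submodule.fg_def.1 (hN.map (LinearMap.mulLeft A (v * j)⁻¹))
  refine ⟨W, hW, fun z hz => hW' ▸ ⟨v * j * z, key _ fun V' hV' hle => ?_,
    inv_mul_cancel_left₀ (mul_ne_zero hv0 hj0) z⟩⟩
  obtain ⟨O, hO, hd⟩ := C.xx_ctr hF hV' hle
  obtain ⟨a, b, ha, hb, hu⟩ := h O hO
  obtain ⟨u, hu1, hu2⟩ := ha.2
  obtain ⟨j', hj', hO'⟩ := id hO
  have h1 : u ≠ 0 := (div_ne_zero_iff.1 hu2.ne).1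
  refine ⟨_, ⟨u, hu1, j', hj', rfl⟩, mul_ne_zero h1 (hF.nz j' hj'), hd.1 ?_⟩
  have h2 := O.mul_mem (hu2.div_mem (hu.div_mem (O.mul_mem (hz O hO) (hb.1 v hv))))
    (hO'.2.1 (C.div_mem_ch hj))
  have h3 := ha.ne
  have h4 := hb.ne
  have h5 : γ O ≠ 0 := left_ne_zero_of_mul (div_ne_zero_iff.1 hu.ne).1
  have h6 := hF.nz j' hj'
  convert h2 using 1
  field_simp

end Pool.Agent.MP_e8e0b6_ag.R2

end Part3

section Part4

-- part 4: Frame

/-!
A section that vanishes on no fibre near a line.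
-/

set_option autoImplicit false

open Polynomial AlgebraicGeometry CategoryTheory

namespace Pool.Agent.MP_e8e0b6_ag.R2

open Pool.Agent.MP_79c67d_ag Pool.Agent.MP_20d318_ag Pool.Agent.MP_20d318_ag.AG
  Pool.Agent.MP_20d318_ag.BV Pool.Agent.MP_20d318_ag.CB

namespace FrameA

variable {k F : Type} [Field k] [Field F] [Algebra k F] {B R : Subalgebra k F}

theorem li_lz (lz : Lz B R) {m : ℕ} {ψ : Fin m → F} (li : LinearIndependent B ψ) :
    LinearIndependent R ψ := by
  rw [Fintype.linearIndependent_iff] at li ⊢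
  intro c hc l
  choose a ha b hb hu e using fun l => lz.2 (c l) (c l).2
  have hm : ∀ l, (∏ j, b j) * (c l : F) ∈ B := fun l => by
    rw [← Finset.prod_erase_mul _ _ (Finset.mem_univ l), e l, mul_assoc, mul_div_cancel₀ _ (hu l).ne]
    exact mul_mem (prod_mem fun j _ => hb j) (ha l)
  have h1 := li (fun l => ⟨_, hm l⟩) (by
    have := congrArg ((∏ j, b j) * ·) hc
    simpa [Finset.mul_sum, Subalgebra.smul_def, mul_assoc] using this) l
  exact Subtype.ext ((mul_eq_zero.1 (congrArg Subtype.val h1)).resolve_left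
    (Finset.prod_ne_zero_iff.2 fun j _ => (hu j).ne))

/-- A member of a basis is a unimodular combination of any generating family. -/
theorem exists_unit (hR : IsLocalRing R) {m n : ℕ} {ψ : Fin m → F} {w : Fin n → F}
    (li : LinearIndependent R ψ) (hw : ∀ i, w i ∈ Submodule.span R (Set.range ψ)) (l : Fin m)
    (r : Fin n → R) (hr : ∑ i, r i • w i = ψ l) : ∃ i, IsU R (r i) := by
  by_contra hn
  choose a ha using fun i => (Submodule.mem_span_range_iff_exists_fun R).1 (hw i)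
  have h1 := Fintype.linearIndependent_iffₛ.1 li (fun j => ∑ i, r i * a i j) (Pi.single l 1) (by
    simp only [Finset.sum_smul, mul_smul]
    rw [Finset.sum_comm]
    simp only [← Finset.smul_sum, ha, hr]
    simp [Pi.single_apply]) l
  have h2 : ∑ i, (r i : F) * a i l ∈ mx R :=
    mx_sum hR fun i _ => mx_mul_right ⟨(r i).2, fun u => hn ⟨i, u⟩⟩ (a i l).2
  have h3 : ∑ i, (r i : F) * a i l = 1 := by simpa using congrArg Subtype.val h1
  exact one_not_mem_mx (h3 ▸ h2)

theorem mem_span {N : Set F} {s z : F} (hs : IsU R s) (h : s * z ∈ Submodule.span R N) :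
    z ∈ Submodule.span R N := by
  have := C.span_mul hs.inv_mem h
  rwa [inv_mul_cancel_left₀ hs.ne] at this

end FrameA

open FrameA in
theorem frame_stmt (h1 : FinStmt) (h2 : SclStmt) (h3 : LocfStmt) (h4 : FrmStmt) (h5 : LzStmt) :
    FrameStmt := by
  intro k A F _ _ _ _ _ _ _ _ g x H γ et hg fm dt hA
  have := et.finiteType
  have ft : Algebra.FiniteType k g.range := by
    have : Algebra.FiniteType k A[X] := .trans (S := A) inferInstance inferInstance
    exact Algebra.FiniteType.of_surjective g.rangeRestrict g.rangeRestrict_surjective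
  let N : Submodule g.range F :=
    { carrier := Sc (XX g.range H) γ
      add_mem' := fun ha hb O hO => by rw [add_mul]; exact add_mem (ha O hO) (hb O hO)
      zero_mem' := fun O _ => by rw [zero_mul]; exact zero_mem _
      smul_mem' := fun c z hz O hO => by
        rw [smul_mul_assoc]; exact mul_mem (C.xx_le hO c.2) (hz O hO) }
  obtain ⟨W, hW, sW⟩ := h1 k F _ H γ fm ft dt
  have sub := fun e => (h5 k F _ _ H (lp_lz (e := e) hg)).1
  have loc := fun e => h3 k F (lp g e) H γ (hA e) (by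
    obtain ⟨U, V, u, v, h⟩ := dt
    exact ⟨U, V, ⟨u.1, fun O hO => u.2 O (sub e hO)⟩, ⟨v.1, fun O hO => v.2 O (sub e hO)⟩,
      fun O hO => h O (sub e hO)⟩)
  choose n w li iff un using loc
  have hw : ∀ e i, ∃ s, IsU (lp g e) s ∧ s * w e i ∈ N := fun e i => by
    obtain ⟨s, -, u⟩ := h2 k F _ _ H γ fm (lp_lz hg) dt (w e i)
      ((iff e _).2 (Submodule.subset_span ⟨i, rfl⟩))
    exact ⟨s, u⟩
  have hN : ∀ e, ∀ z ∈ N, z ∈ Submodule.span (lp g e) (Set.range (w e)) := fun e z hz =>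
    (iff e z).1 fun O hO => hz O (sub e hO)
  obtain ⟨h, m, ψ, hx, mem, lψ, sp⟩ := h4 k A F g x N W et hg hW sW fun e => ⟨_, w e, li e,
    le_antisymm (Submodule.span_le.2 (hN e)) (Submodule.span_le.2 (by
      rintro _ ⟨i, rfl⟩
      obtain ⟨s, u, v⟩ := hw e i
      exact mem_span u (Submodule.subset_span v)))⟩
  have hw' : ∀ e : A[X] →ₐ[k] k, e (C h) ≠ 0 → ∀ i,
      w e i ∈ Submodule.span (lp g e) (Set.range ψ) := fun e he i => by
    obtain ⟨s, u, v⟩ := hw e i
    exact mem_span u (mem_span ((isU_lp hg).2 he) (C.span_up range_le_lp (sp _ v)))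
  obtain rfl | ⟨m, rfl⟩ : m = 0 ∨ ∃ m', m = m' + 1 := by rcases m with _ | m <;> simp
  · have := hw' (SB.basePt x) (by rwa [SB.basePt_apply, eval_C]) 0
    rw [Set.range_eq_empty, Submodule.span_empty, Submodule.mem_bot] at this
    exact ((li _).ne_zero 0 this).elim
  refine ⟨h, ψ 0, hx, lψ.ne_zero 0, mem 0, fun e he ξ hξ => ?_⟩
  obtain ⟨r, hr⟩ := (Submodule.mem_span_range_iff_exists_fun _).1 (hN e _ (mem 0))
  rw [← hr]
  exact un e ξ hξ (fun i => r i) (fun i => (r i).2)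
    (exists_unit (lp_pts hg).1 (li_lz (lp_lz hg) lψ) (hw' e he) 0 r hr)

end Pool.Agent.MP_e8e0b6_ag.R2

end Part4

section Part5

-- part 5: Frm

/-!
A locally free submodule of a field over `A[X]` is free near the line over a rational point.
-/

set_option autoImplicit false

open Polynomial AlgebraicGeometry CategoryTheory

namespace Pool.Agent.MP_e8e0b6_ag.R2

open Pool.Agent.MP_79c67d_ag Pool.Agent.MP_20d318_ag Pool.Agent.MP_20d318_ag.AG
  Pool.Agent.MP_20d318_ag.BV Pool.Agent.MP_20d318_ag.CB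

namespace FrmA

variable {k B F : Type} [Field k] [CommRing B] [Algebra k B] [Field F] [Algebra k F]
  [Algebra B F] {g : B →ₐ[k] F} (hB : ∀ a, algebraMap B F a = g a)
include hB

theorem mem_span (s : Set F) (y : F) :
    y ∈ Submodule.span B s ↔ y ∈ Submodule.span g.range s := by
  constructor
  · intro hy
    induction hy using Submodule.span_induction with
    | mem y h => exact Submodule.subset_span h
    | zero => exact zero_mem _
    | add a b _ _ ha hb => exact add_mem ha hb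
    | smul c a _ ha =>
      rw [Algebra.smul_def, hB]
      exact Submodule.smul_mem _ (⟨g c, c, rfl⟩ : g.range) ha
  · intro hy
    induction hy using Submodule.span_induction with
    | mem y h => exact Submodule.subset_span h
    | zero => exact zero_mem _
    | add a b _ _ ha hb => exact add_mem ha hb
    | smul c a _ ha =>
      obtain ⟨_, c, rfl⟩ := c
      have := Submodule.smul_mem _ c ha
      rwa [Algebra.smul_def, hB] at this

theorem indep {m : ℕ} {ψ : Fin m → F} (h : LinearIndependent B ψ) :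
    LinearIndependent g.range ψ := by
  rw [Fintype.linearIndependent_iff] at h ⊢
  intro c hc i
  choose a ha using fun i => (c i).2
  have := h a (by
    rw [← hc]
    refine Finset.sum_congr rfl fun i _ => ?_
    rw [Algebra.smul_def, hB]
    exact congrArg (· * ψ i) (ha i)) i
  exact Subtype.ext ((ha i).symm.trans (by rw [this]; exact map_zero _))

theorem flat [IsAlgClosed k] [IsDomain B] [Algebra.FiniteType k B] (hg : Function.Injective g)
    (N : Submodule B F) (hl : ∀ e : B →ₐ[k] k, ∃ (n : ℕ) (w : Fin n → F),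
      LinearIndependent (lp g e) w ∧
        Submodule.span (lp g e) (N : Set F) = Submodule.span (lp g e) (Set.range w)) :
    Module.Flat B N := by
  refine flat_of_local_ext fun m hm => ?_
  obtain ⟨e, he⟩ := exists_point (k := k) m hm.ne_top
  obtain ⟨n, w, h1, h2⟩ := hl e
  let : Algebra B (lp g e) :=
    ((g : B →+* F).codRestrict (lp g e) fun a => range_le_lp ⟨a, rfl⟩).toAlgebra
  have : IsLocalization.AtPrime (lp g e) (kerPt e) :=
    isLocalization_locS (r := (g : B →+* F)) hg (kerPt e)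
  have : IsScalarTower B (lp g e) F := .of_algebraMap_eq fun a => hB a
  have := IsLocalization.flat (lp g e) (kerPt e).primeCompl
  have hj : Function.Injective ((LinearMap.id : F →ₗ[B] F).liftBaseChange (lp g e)) := by
    have : (LinearMap.id : F →ₗ[B] F).liftBaseChange (lp g e) =
        (IsLocalization.moduleLid (kerPt e).primeCompl (lp g e) F).toLinearMap := by
      ext y
      exact (one_smul (lp g e) y).trans
        ((IsLocalization.moduleLid (kerPt e).primeCompl (lp g e) F).symm_apply_eq.1 rfl)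
    rw [this]
    exact (IsLocalization.moduleLid (kerPt e).primeCompl (lp g e) F).injective
  have h3 : Submodule.span (lp g e) ((LinearMap.id : F →ₗ[B] F) '' N) =
      Submodule.span (lp g e) (Set.range w) := by
    rw [← h2]
    simp
  have : Module.Free (lp g e) (Submodule.span (lp g e) ((LinearMap.id : F →ₗ[B] F) '' N)) :=
    h3 ▸ .of_basis (.span h1)
  refine ⟨lp g e, inferInstance, inferInstance, inferInstance, fun h => ?_,
    .of_linearEquiv (spanEquiv (lp g e) LinearMap.id hj N)⟩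
  have := IsLocalization.AtPrime.isLocalRing (lp g e) (kerPt e)
  have h4 := (Ideal.map_mono (f := algebraMap B (lp g e)) he).trans
    (IsLocalization.AtPrime.map_eq_maximalIdeal (kerPt e) (lp g e)).le
  exact (IsLocalRing.maximalIdeal.isMaximal _).ne_top (top_le_iff.1 (h ▸ h4))

end FrmA

open FrmA in
theorem frm_stmt : FrmStmt := by
  intro k A F _ _ _ _ _ _ _ _ g x N W hE hg hW hN hl
  obtain ⟨d, z, hz⟩ := hE
  have := finiteType_of_etale z hz
  have : Algebra.FiniteType k A[X] := .trans (S := A) inferInstance inferInstance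
  have := Algebra.FiniteType.isNoetherianRing k A[X]
  let : Algebra A[X] F := (g : A[X] →+* F).toAlgebra
  have hB : ∀ a, algebraMap A[X] F a = g a := fun _ => rfl
  let N' : Submodule A[X] F :=
    { carrier := N
      add_mem' := N.add_mem
      zero_mem' := N.zero_mem
      smul_mem' := fun c _ hy => N.smul_mem (⟨g c, c, rfl⟩ : g.range) hy }
  have := Module.Finite.span_of_finite A[X] hW
  have : Module.Finite A[X] N' := .of_injective (Submodule.inclusion
    (p' := Submodule.span A[X] W) fun y hy => (mem_span hB W y).2 (hN hy))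
      (Submodule.inclusion_injective _)
  have := flat hB hg N' hl
  obtain ⟨m, ψ, h, h1, h2, h3, h4⟩ := SB.exists_frame x
    (lindel z hz x (Localization.AtPrime (kerPt x))) hg N'
  exact ⟨h, m, ψ, h1, h2, indep hB h3, fun y hy => (mem_span hB _ _).1 (h4 y hy)⟩

end Pool.Agent.MP_e8e0b6_ag.R2

end Part5

section Part6

-- part 6: Germ

/-!
Cells and a section give a line through a given section with a given derivative.
-/

set_option autoImplicit false

open Polynomial AlgebraicGeometry CategoryTheory IsLocalRing TrivSqZeroExt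

namespace Pool.Agent.MP_e8e0b6_ag.R2

theorem germ_stmt : GermStmt := by
  intro k A _ _ _ _ _ _ Y q x n s₀ v hsep hft hA h hsec h0 hv h6
  have := hA.finiteType
  have : LocallyOfFiniteType (sp (algebraMap k A[X])) :=
    (HasRingHomProperty.Spec_iff (P := @LocallyOfFiniteType)
      (φ := CommRingCat.ofHom (algebraMap k A[X]))).2
      (RingHom.finiteType_algebraMap.2 inferInstance)
  obtain ⟨A₁, _, _, _, ε₁, x₁, s, f1, _, f2, f3⟩ := hsec
  have f4 : (x₁ : A₁ →+* k).comp (ε₁ : A →+* A₁) = (x : A →+* k) :=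
    RingHom.ext fun a => DFunLike.congr_fun f2 a
  have f5 : sp constantCoeff ≫ s ≫ q = sp (ε₁ : A →+* A₁) ≫ s₀ ≫ q := by
    rw [f3, h0, sp_comp, sp_comp]
    congr 1
    ext <;> simp
  obtain ⟨c, -, hc⟩ := h (sp (x : A →+* k) ≫ s₀ ≫ q) (by
      rw [h0, sp_comp, sp_comp, ← sp_id]
      exact congrArg sp (RingHom.ext fun b => by simp))
    {sp (x₁ : A₁ →+* k) ≫ sp (ε₁ : A →+* A₁) ≫ s₀, sp ((x₁ : A₁ →+* k).comp constantCoeff) ≫ s}
    (Set.toFinite _) (by
      rintro _ (rfl | rfl)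
      · rw [sp_comp_assoc, f4, Category.assoc]
      · rw [← sp_comp_assoc, Category.assoc, Category.assoc, f5, sp_comp_assoc, f4])
  have key : ∀ {D : Type} [CommRing D] (y : D →+* k) (g : Spec (.of D) ⟶ Y), c.Has (sp y ≫ g) →
      ∃ p, y p ≠ 0 ∧ ∀ w : PrimeSpectrum D, p ∉ w.asIdeal → g w ∈ c.h.opensRange :=
    fun y g ⟨a, ha⟩ => by
      obtain ⟨p, g1, g2⟩ := Z.exists_basic (σ := g) (U := c.h.opensRange) (sp y (closedPoint k))
        ⟨_, congrArg (fun u => u (closedPoint k)) ha⟩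
      exact ⟨p, fun e => g1 (by change y p ∈ maximalIdeal k; rw [e]; exact zero_mem _), g2⟩
  obtain ⟨g, g1, g2⟩ := key _ _ (hc _ (.inl rfl))
  obtain ⟨p, g3, g4⟩ := key _ _ (hc _ (.inr rfl))
  obtain ⟨A₂, _, _, _, ε₂, x₂, -, _, f6, -, f7, -⟩ := f1.loc x₁ (t := g * p.coeff 0)
    (by rw [map_mul]; exact mul_ne_zero g1 g3)
  have f8 : (x₂ : A₂ →+* k).comp (ε₂ : A₁ →+* A₂) = (x₁ : A₁ →+* k) :=
    RingHom.ext fun a => DFunLike.congr_fun f6 a
  rw [map_mul] at f7
  obtain ⟨κ, hκ⟩ := T.exists_lift c.h (sp (ε₂ : A₁ →+* A₂) ≫ sp (ε₁ : A →+* A₁) ≫ s₀)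
    (Z.mem_of_unit g2 (isUnit_of_mul_isUnit_left f7))
  have f9 : sp (fstR k) ≫ v = sp ((x₂ : A₂ →+* k).comp κ) ≫ c.h := by
    rw [← sp_comp_assoc, hκ, sp_comp_assoc, sp_comp_assoc, f8, f4]
    exact h6
  obtain ⟨κ', hκ'⟩ := exists_factor v c.h (by
    rw [← sp_closedPoint (fstR k) fun _ => isUnit_iff_isUnit_fst.2]
    exact ⟨_, congrArg (fun u => u (closedPoint k)) f9.symm⟩)
  obtain ⟨Φ, h7, h8, h9⟩ := T.exists_germ c (sp (mapRingHom (ε₂ : A₁ →+* A₂)) ≫ s) (by
      rw [Category.assoc, reassoc_of% f3, sp_comp, sp_comp]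
      exact congrArg sp (RingHom.ext fun b => by simp))
    (p := p.map (ε₂ : A₁ →+* A₂)) (by rw [coeff_map]; exact isUnit_of_mul_isUnit_right f7)
    (fun w hw => g4 (PrimeSpectrum.comap (mapRingHom (ε₂ : A₁ →+* A₂)) w) hw) x₂ κ κ'
    (sp_cancel c.h (by rw [← sp_comp_assoc, hκ', f9])) (by
      rw [reassoc_of% hκ, ← f5, Category.assoc, sp_comp_assoc, sp_comp_assoc]
      congr 2
      ext <;> simp) (by
      rw [reassoc_of% hκ', hv, Category.assoc, f3, sp_comp, sp_comp, ← f4, ← f8]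
      congr 2
      ext <;> simp)
  have e : sp ((ε₂.comp ε₁ : A →ₐ[k] A₂) : A →+* A₂) =
      sp (ε₂ : A₁ →+* A₂) ≫ sp (ε₁ : A →+* A₁) := (sp_comp _ _).symm
  refine ⟨A₂, _, _, ε₂.comp ε₁, x₂, Φ, ?_, h7, ?_, h9.trans hκ'⟩
  · rw [e]; infer_instance
  · rw [e, Category.assoc]; exact h8.trans hκ

end Pool.Agent.MP_e8e0b6_ag.R2

end Part6

section Part7

-- part 7: Ht

/-!
The residue field of a divisor on a family of surfaces is transcendental over the base.
-/

set_option autoImplicit false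

open Polynomial AlgebraicGeometry CategoryTheory

namespace Pool.Agent.MP_e8e0b6_ag.R2

open Pool.Agent.MP_79c67d_ag Pool.Agent.MP_20d318_ag Pool.Agent.MP_20d318_ag.AG
  Pool.Agent.MP_20d318_ag.BV Pool.Agent.MP_20d318_ag.CB

namespace HtA

theorem core {k K : Type} [Field k] [Field K] [Algebra k K] (G : Set K) (c : Fin 2 → K)
    (D : Subalgebra k K) (hG : G.Finite) (hF : Frac (Algebra.adjoin k G))
    (hc : AlgebraicIndependent k c) (hP : D ∈ Pts (Algebra.adjoin k G))
    (hrk : ∀ a ∈ mx D, ∀ b ∈ D, b ≠ 0 → ∃ n : ℕ, a ^ n / b ∈ D) :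
    ∃ r ∈ D, ∀ p : k[X], p ≠ 0 → IsU D (aeval r p) := by
  set A := Algebra.adjoin k G with hA
  have : Algebra.FiniteType k A := Algebra.FiniteType.adjoin_of_finite hG
  obtain ⟨s, g, hinj, hint⟩ := exists_integral_inj_algHom_of_fg k A
  have hs := Ht1.card_le hF g hint hc
  have := hP.1
  let p : Ideal A := (IsLocalRing.maximalIdeal D).comap (Subalgebra.inclusion hP.2.1)
  have hp : ∀ a : A, a ∈ p ↔ (a : K) ∈ mx D := fun a => by
    rw [Ideal.mem_comap, ← mem_mx_iff]; rfl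
  have : p.IsPrime := Ideal.comap_isPrime _ _
  let : Algebra (MvPolynomial (Fin s) k) A := g.toRingHom.toAlgebra
  have : Algebra.IsIntegral (MvPolynomial (Fin s) k) A := ⟨hint⟩
  have : FaithfulSMul (MvPolynomial (Fin s) k) A :=
    (faithfulSMul_iff_algebraMap_injective _ _).2 hinj
  have key : ∃ e : Fin (0 + 1) → Fin s,
      ∀ F : MvPolynomial (Fin (0 + 1)) k, F ≠ 0 → g (MvPolynomial.rename e F) ∉ p := by
    by_cases hq : p.under (MvPolynomial (Fin s) k) = ⊥
    · refine ⟨Fin.castLE (by omega), fun F hF0 h => hF0 ?_⟩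
      have h1 : MvPolynomial.rename (Fin.castLE (show 0 + 1 ≤ s by omega)) F ∈
          p.under (MvPolynomial (Fin s) k) := h
      rw [hq, Ideal.mem_bot] at h1
      exact MvPolynomial.rename_injective _ (Fin.castLE_injective _) (by rw [h1, map_zero])
    obtain ⟨π, hπq, hπ⟩ := Ideal.IsPrime.exists_mem_prime_of_ne_bot inferInstance hq
    have : (Ideal.span {π}).IsPrime := (Ideal.span_singleton_prime hπ.ne_zero).2 hπ
    obtain ⟨p', hle, hp', hov⟩ := Ideal.exists_ideal_le_liesOver_of_le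
      (p := Ideal.span {π}) (q := p.under (MvPolynomial (Fin s) k)) p
      ((Ideal.span_singleton_le_iff_mem _).2 hπq)
    have hmem : ∀ F, g F ∈ p' ↔ π ∣ F := fun F => by
      rw [← Ideal.mem_span_singleton, hov.over]; rfl
    obtain ⟨e, -, he⟩ := Ht1.avoid (n := 0) hs hπ
    refine ⟨e, fun F hF0 h => he F hF0 ((hmem _).1 ?_)⟩
    have h0 : (g π : K) ≠ 0 := fun h0 =>
      hπ.ne_zero (hinj (by rw [map_zero]; exact Subtype.ext h0))
    obtain ⟨m, h1⟩ := hrk _ ((hp _).1 h) _ (hP.2.1 (g π).2) h0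
    obtain ⟨a, ha, b, hb, hu, hab⟩ := hP.2.2 _ h1
    have h2 : (⟨b, hb⟩ : A) * g (MvPolynomial.rename e F) ^ m = g π * ⟨a, ha⟩ := by
      apply Subtype.ext
      rw [div_eq_div_iff h0 hu.1] at hab
      push_cast
      linear_combination hab
    have h3 : (⟨b, hb⟩ : A) * g (MvPolynomial.rename e F) ^ m ∈ p' :=
      h2 ▸ p'.mul_mem_right _ ((hmem π).2 dvd_rfl)
    rcases hp'.mem_or_mem h3 with h4 | h4
    · exact absurd ((hp _).1 (hle h4)) hu.not_mx
    · exact hp'.mem_of_pow_mem _ h4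
  obtain ⟨e, he⟩ := key
  refine ⟨(g (MvPolynomial.X (e 0)) : K), hP.2.1 (g _).2, fun F hF0 => ?_⟩
  let φ : k[X] →ₐ[k] MvPolynomial (Fin (0 + 1)) k := aeval (MvPolynomial.X 0)
  have hφ : φ F ≠ 0 := fun h => hF0 (by
    have h1 : (MvPolynomial.aeval fun _ : Fin (0 + 1) => (X : k[X])).comp φ = AlgHom.id k _ := by
      ext1; simp [φ]
    have h2 := DFunLike.congr_fun h1 F
    rw [AlgHom.comp_apply, h, map_zero] at h2
    exact h2.symm)
  have h1 : aeval (g (MvPolynomial.X (e 0)) : K) F = (g (MvPolynomial.rename e (φ F)) : K) := by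
    have : aeval (g (MvPolynomial.X (e 0)) : K) =
        A.val.comp (g.comp ((MvPolynomial.rename e).comp φ)) := by
      ext1; simp [φ]
    rw [this]; rfl
  rw [h1]
  exact isU_of_not_mx (hP.2.1 (g _).2) fun h => he _ hφ ((hp _).2 h)

end HtA

theorem ht_stmt : HtStmt := by
  intro k F _ _ _ R D G a b hG hF hD hR hab hrk
  let K := FractionRing R
  let : Algebra K F := FractionRing.liftAlgebra R F
  have : IsScalarTower R K F := FractionRing.isScalarTower_liftAlgebra R F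
  have hRD : R ≤ D := le_sup_left.trans hD.2.1
  have hK : ∀ c : K, algebraMap K F c ∈ D := fun c => by
    obtain ⟨x, y, hy, rfl⟩ := IsFractionRing.div_surjective (A := R) c
    rw [map_div₀, ← IsScalarTower.algebraMap_apply, ← IsScalarTower.algebraMap_apply]
    exact (hR _ y.2 fun h => nonZeroDivisors.ne_zero hy (Subtype.ext h)).div_mem (hRD x.2)
  let D' : Subalgebra K F := { D.toSubring with algebraMap_mem' := hK }
  have hsub : ∀ x ∈ R ⊔ Algebra.adjoin k G, x ∈ Algebra.adjoin K G := by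
    have hRA : ∀ x ∈ R, x ∈ Algebra.adjoin K G := fun x hx => by
      have := (Algebra.adjoin K G).algebraMap_mem (algebraMap R K ⟨x, hx⟩)
      rwa [← IsScalarTower.algebraMap_apply] at this
    let A' : Subalgebra k F := { (Algebra.adjoin K G).toSubring with
      algebraMap_mem' := fun c => hRA _ (R.algebraMap_mem c) }
    have h1 : R ⊔ Algebra.adjoin k G ≤ A' :=
      sup_le hRA (Algebra.adjoin_le (Algebra.subset_adjoin (R := K)))
    exact fun x hx => h1 hx
  have : Algebra.IsAlgebraic R K := IsLocalization.isAlgebraic K (nonZeroDivisors R)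
  have hc : AlgebraicIndependent K ![a, b] := hab.extendScalars K
  have hle : Algebra.adjoin K G ≤ D' :=
    Algebra.adjoin_le fun x hx => hD.2.1 (le_sup_right (a := R) (Algebra.subset_adjoin hx))
  obtain ⟨r, hr, h⟩ := HtA.core G ![a, b] D' hG (fun f => by
      obtain ⟨x, hx, y, hy, h0, h⟩ := hF f
      exact ⟨x, hsub x hx, y, hsub y hy, h0, h⟩) hc
    ⟨isLocalRing_of fun x hx y hy => mx_add (O := D) hD.1 hx hy, hle, fun f hf => by
      obtain ⟨x, hx, y, hy, h0, h⟩ := hD.2.2 f hf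
      exact ⟨x, hsub x hx, y, hsub y hy, h0, h⟩⟩ hrk
  refine ⟨r, hr, fun p hp => ?_⟩
  have h1 := h (p.map (algebraMap R K))
    ((Polynomial.map_ne_zero_iff (IsFractionRing.injective R K)).2 hp)
  rwa [aeval_map_algebraMap] at h1

end Pool.Agent.MP_e8e0b6_ag.R2

end Part7

section Part8

-- part 8: Lne

/-!
Row LN: a line on the family.
-/

set_option autoImplicit false

open Polynomial AlgebraicGeometry CategoryTheory

namespace Pool.Agent.MP_e8e0b6_ag.R2

open Pool.Agent.MP_79c67d_ag Pool.Agent.MP_20d318_ag Pool.Agent.MP_20d318_ag.AG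
  Pool.Agent.MP_20d318_ag.BV Pool.Agent.MP_20d318_ag.CB

namespace LneA

variable {k B F κ : Type} [Field k] [CommRing B] [Field F] [Field κ] [Algebra k B] [Algebra k F]
  [Algebra k κ] {g : B →ₐ[k] F} {e e' : B →ₐ[k] k} {H : Set F} {z : Subalgebra k F → F}
  {D D' : Subalgebra k F}

theorem dt_mono {X Y : Set (Subalgebra k F)} (h : Y ⊆ X) (hd : Dt X z) : Dt Y z := by
  obtain ⟨U, V, h1, h2, h3⟩ := hd
  exact ⟨U, V, ⟨h1.1, fun O hO => h1.2 O (h hO)⟩, ⟨h2.1, fun O hO => h2.2 O (h hO)⟩,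
    fun O hO => h3 O (h hO)⟩

theorem unit_of (hg : Function.Injective g) (h : Dd (lp g e) H z D) {b : B} (hb : b ≠ 0) :
    IsU D (g b) :=
  h.hor _ (range_le_lp ⟨b, rfl⟩) fun h0 => hb (hg (h0.trans (map_zero g).symm))

theorem range_le (h : Dd (lp g e) H z D) : g.range ≤ D := range_le_lp.trans (C.xx_le h.mem)

theorem lp_le (hg : Function.Injective g) (h : Dd (lp g e) H z D) : lp g e' ≤ D := fun f hf => by
  obtain ⟨a, b, hb, h1⟩ := mem_lp.1 hf
  have hu := unit_of hg h (b := b) (fun h0 => hb (by rw [h0, map_zero]))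
  rw [eq_div_of_mul_eq hu.ne h1]
  exact hu.div_mem (range_le h ⟨a, rfl⟩)

theorem dd_le (h6 : LzStmt) (hg : Function.Injective g) (h : Dd (lp g e) H z D)
    (h' : Dd (lp g e') H z D') : D ≤ D' :=
  (h'.iff D ((h6 k F _ _ H (lp_lz hg)).2.1 D ((h6 k F _ _ H (lp_lz hg)).1 h.mem)
    (lp_le hg h))).1 ((h.iff D h.mem).2 le_rfl)

theorem red_lp (hg : Function.Injective g) (h : Dd (lp g e) H z D) (ρ : D →ₐ[k] κ)
    (g' : B →ₐ[k] κ) (hg' : ∀ p, evO D ρ (g p) = g' p) : red D ρ (lp g e') = lp g' e' := by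
  refine le_antisymm (fun m hm => ?_) fun m hm => ?_
  · obtain ⟨f, hf, hfD, rfl⟩ := C.mem_red.1 hm
    obtain ⟨a, b, hb, h1⟩ := mem_lp.1 hf
    refine mem_lp.2 ⟨a, b, hb, ?_⟩
    have hb' : g b ∈ D := range_le h ⟨b, rfl⟩
    rw [← hg', ← hg', ← evO_mul ρ hfD hb', h1]
  · obtain ⟨a, b, hb, h1⟩ := mem_lp.1 hm
    have hu := unit_of hg h (b := b) (fun h0 => hb (by rw [h0, map_zero]))
    have ha : g a ∈ D := range_le h ⟨a, rfl⟩
    refine C.mem_red.2 ⟨g a / g b, mem_lp.2 ⟨a, b, hb, div_mul_cancel₀ _ hu.ne⟩, hu.div_mem ha, ?_⟩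
    rw [evO_div ρ ha hu, hg', hg', ← h1]
    exact mul_div_cancel_right₀ _ (hg' b ▸ evO_ne ρ hu)

theorem frac_red {ρ : D →ₐ[k] κ} {j : F} {H' : Set κ} (hR : Rd H D ρ j H')
    (hD : D ∈ Pts (ch g.range H j)) (g' : B →ₐ[k] κ) (hg' : ∀ p, evO D ρ (g p) = g' p) :
    Frac (ch g'.range H' 1) := by
  have key : ch g.range H j ≤ ((ch g'.range H' 1).comap ρ).map D.val := by
    refine C.ch_le ?_ fun a ha => ⟨⟨a / j, hR.gen a ha⟩, ?_, rfl⟩
    · rintro _ ⟨p, rfl⟩
      have hp : g p ∈ D := hD.2.1 ((le_sup_left : g.range ≤ ch g.range H j) ⟨p, rfl⟩)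
      refine ⟨⟨g p, hp⟩, ?_, rfl⟩
      change ρ _ ∈ ch g'.range H' 1
      rw [← evO_of_mem ρ hp, hg']
      exact (le_sup_left : g'.range ≤ ch g'.range H' 1) ⟨p, rfl⟩
    · change ρ _ ∈ ch g'.range H' 1
      rw [← evO_of_mem ρ (hR.gen a ha), ← div_one (evO D ρ (a / j))]
      exact C.div_mem_ch (hR.eq ▸ ⟨a, ha, rfl⟩)
  have k2 : ∀ a ∈ ch g.range H j, evO D ρ a ∈ ch g'.range H' 1 := fun a ha => by
    obtain ⟨b, hb, rfl⟩ := key ha
    change evO D ρ (b : F) ∈ _
    rw [evO_coe]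
    exact hb
  intro f
  obtain ⟨u, rfl⟩ := hR.surj f
  obtain ⟨a, ha, b, hb, hu, h1⟩ := hD.2.2 u u.2
  refine ⟨_, k2 a ha, _, k2 b hb, evO_ne ρ hu, ?_⟩
  rw [← evO_coe, h1, evO_div ρ (hD.2.1 ha) hu]

end LneA

theorem lne_stmt (h1 : FrameStmt) (h2 : AzStmt) (h3 : DdStmt) (h4 : CrvStmt) (h5 : SecbStmt)
    (h6 : LzStmt) : LneStmt := by
  intro k A F _ _ _ _ _ _ _ _ g x H γ hEt hg hF hDt hAt
  obtain ⟨h, ψ, hxh, -, hψ, hu⟩ := h1 k A F g x H γ hEt hg hF hDt hAt
  have hAz : ∀ e : A[X] →ₐ[k] k, e (Polynomial.C h) ≠ 0 → Az (lp g e) H fun O => ψ * γ O :=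
    fun e he =>
      have hs := (h6 k F _ _ H (lp_lz (e := e) hg)).1
      h2 k F _ H γ ψ (hAt e) (LneA.dt_mono hs hDt) (fun O hO => hψ O (hs hO)) (hu e he)
  let e₀ : A[X] →ₐ[k] k := x.comp ((aeval (0 : A) : A[X] →ₐ[A] A).restrictScalars k)
  have he₀ : e₀ (Polynomial.C h) ≠ 0 := by simpa [e₀] using hxh
  obtain ⟨D, hD⟩ : ∃ D, Dd (lp g e₀) H (fun O => ψ * γ O) D := by
    obtain ⟨M, _, _, I, _, ξ, ρ, S, d, φ, P, w, hZ, -⟩ := hAz e₀ he₀
    exact h3 k F M I _ H ξ ρ S d φ P _ hZ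
  obtain ⟨j, hj, hDj⟩ := (h6 k F _ _ H (lp_lz (e := e₀) hg)).1 hD.mem
  have : IsLocalRing D := hDj.1
  have hle : g.range ≤ D := LneA.range_le hD
  let g' : A[X] →ₐ[k] IsLocalRing.ResidueField D :=
    (resid D).comp (g.codRestrict D fun p => hle ⟨p, rfl⟩)
  have hg' : ∀ p, evO D (resid D) (g p) = g' p := fun p => evO_of_mem _ (hle ⟨p, rfl⟩)
  have hR : Rd H D (resid D) j ((fun a => evO D (resid D) (a / j)) '' H) :=
    ⟨resid_loc, resid_surj, hj, fun a ha => hDj.2.1 (C.div_mem_ch ha), rfl⟩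
  have hinj : Function.Injective g' := (injective_iff_map_eq_zero g').2 fun p hp =>
    by_contra fun h0 => evO_ne (resid D) (LneA.unit_of hg hD h0) ((hg' p).trans hp)
  obtain ⟨h', w, a1, a2, a3⟩ := h5 k A _ g' x _ h hEt hinj (hF.fin.image _)
    ⟨j, hj, by simp only [div_self (hF.nz j hj), evO_one]⟩ (LneA.frac_red hR hDj g' hg') hxh
    (fun e he => by
      obtain ⟨M, _, _, I, _, ξ, ρ, S, d, φ, P, w, hZ, hW⟩ := hAz e he
      obtain ⟨D', hD'⟩ := h3 k F M I _ H ξ ρ S d φ P _ hZ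
      obtain rfl : D = D' := le_antisymm (LneA.dd_le h6 hg hD hD') (LneA.dd_le h6 hg hD' hD)
      have h7 : Pw (red D (resid D) (lp g e)) _ (evO D (resid D) w) :=
        h4 k F M _ I _ H ξ ρ S d φ P _ w D (resid D) j _ hZ hW hD' hR
      rw [LneA.red_lp hg hD (resid D) g' hg'] at h7
      exact ⟨_, h7⟩)
  exact ⟨D, _, inferInstance, inferInstance, resid D, j, _, g', h', w, hR, hle, hg', hinj, a1, a2,
    a3⟩

end Pool.Agent.MP_e8e0b6_ag.R2

end Part8

section Part9

-- part 9: Locf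

/-!
Row LOCF: the module of sections over a local ring is free.
-/

set_option autoImplicit false

open Polynomial AlgebraicGeometry CategoryTheory

namespace Pool.Agent.MP_e8e0b6_ag.R2

open Pool.Agent.MP_79c67d_ag Pool.Agent.MP_20d318_ag Pool.Agent.MP_20d318_ag.AG
  Pool.Agent.MP_20d318_ag.BV Pool.Agent.MP_20d318_ag.CB

namespace LocfA

variable {k F M : Type} [Field k] [Field F] [Field M] [Algebra k F] [Algebra k M]

theorem dt_scal {X : Set (Subalgebra k F)} {γ : Subalgebra k F → F} {u : F} (h : Dt X γ)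
    (hu : u ≠ 0) : Dt X fun O => u * γ O := by
  obtain ⟨U, V, h1, h2, h⟩ := h
  refine ⟨U, (fun a => u * a) '' V, h1,
    ⟨h2.1.image _, fun O hO => (h2.2 O hO).elim fun b hb => ⟨_, hb.smul hu⟩⟩, fun O hO => ?_⟩
  obtain ⟨a, b, ha, hb, h3⟩ := h O hO
  refine ⟨a, _, ha, hb.smul hu, ?_⟩
  rwa [mul_assoc, mul_div_mul_left _ _ hu]

theorem ev_sum {ι : Type} {O : Subalgebra k F} (ρ : O →ₐ[k] M) {f : ι → F} (hf : ∀ i, f i ∈ O)
    (s : Finset ι) : evO O ρ (∑ i ∈ s, f i) = ∑ i ∈ s, evO O ρ (f i) := by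
  classical
  induction s using Finset.induction_on with
  | empty => simpa using evO_zero ρ
  | insert a s ha ih =>
    rw [Finset.sum_insert ha, Finset.sum_insert ha,
      evO_add ρ (hf a) (O.sum_mem fun i _ => hf i), ih]

end LocfA

theorem locf_stmt : LocfStmt := by
  rintro k F _ _ _ R H γ ⟨M, _, _, I, _, ξ, ρ, S, d, u, L, hS, hA, hN, hu, hb⟩ hγ
  have hD := LocfA.dt_scal hγ hu
  have := hS.s.fd d
  obtain ⟨φ, hφ, h0⟩ := hS.a2.eff2 d hN.eff
  have : Nontrivial (S.Sec d) := ⟨⟨⟨φ, hφ⟩, 0, fun e => h0 (congrArg Subtype.val e)⟩⟩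
  obtain ⟨n, hn⟩ : ∃ n, Module.finrank k (S.Sec d) = n + 1 :=
    Nat.exists_eq_succ_of_ne_zero Module.finrank_pos.ne'
  let b := Module.finBasisOfFinrankEq k (S.Sec d) hn
  choose z hz hev using fun i => hA.surj d _ hD hb hN.ex (b i) (b i).2
  have hzξ : ∀ i, z i ∈ ξ := fun i => C.sc_mem L hb (hz i)
  have hli : LinearIndependent k fun i => evO ξ ρ (z i) := by
    simp only [hev]
    exact b.linearIndependent.map' (S.Sec d).subtype (Submodule.ker_subtype _)
  have hsp : S.Sec d ≤ Submodule.span k (evO ξ ρ '' Set.range z) := fun s hs => by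
    have e : s = ∑ i, b.repr ⟨s, hs⟩ i • evO ξ ρ (z i) := by
      have := congrArg (S.Sec d).subtype (b.sum_repr ⟨s, hs⟩)
      simp only [map_sum, map_smul, Submodule.subtype_apply] at this
      simp only [hev]
      exact this.symm
    rw [e]
    exact Submodule.sum_mem _ fun i _ => Submodule.smul_mem _ _
      (Submodule.subset_span ⟨z i, ⟨i, rfl⟩, rfl⟩)
  refine ⟨n, fun i => z i * u, ?_, fun y => ⟨fun hy => ?_, fun hy O hO => ?_⟩, ?_⟩
  · exact (L.ind _ z hzξ hli).map' (LinearMap.mulRight R u)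
      (LinearMap.ker_eq_bot.2 (mul_left_injective₀ hu))
  · obtain ⟨c, hc⟩ := (Submodule.mem_span_range_iff_exists_fun R).1
      (hA.span d _ hD hb hN.ex (Set.range z) (by rintro _ ⟨i, rfl⟩; exact hz i) hsp (y / u)
        fun O hO => by
          have := hy O hO
          rwa [← mul_assoc, div_mul_cancel₀ _ hu])
    refine (Submodule.mem_span_range_iff_exists_fun R).2 ⟨c, ?_⟩
    simp only [← smul_mul_assoc]
    rw [← Finset.sum_mul, hc, div_mul_cancel₀ _ hu]
  · obtain ⟨c, rfl⟩ := (Submodule.mem_span_range_iff_exists_fun R).1 hy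
    rw [Finset.sum_mul]
    refine O.sum_mem fun i _ => ?_
    rw [smul_mul_assoc, mul_assoc]
    exact O.mul_mem (C.xx_le hO (c i).2) (hz i O hO)
  · rintro ξ' h' r hr ⟨i0, hi0⟩
    obtain rfl : ξ = ξ' :=
      le_antisymm (h'.le ξ L.fib.mem L.fib.dom) (L.fib.le ξ' h'.mem h'.dom)
    have hrξ : ∀ i, r i ∈ ξ := fun i => L.fib.dom.1 (hr i)
    choose c hc using fun i => L.rat (r i) (hr i)
    have he : ∀ i, evO ξ ρ (r i) = algebraMap k M (c i) := fun i => by
      have h1 := L.fib.dom.mx (hc i)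
      have h2 := (L.lh.eq_zero_iff h1.1).2 h1
      rwa [evO_sub ρ (hrξ i) (ξ.algebraMap_mem _), evO_const, sub_eq_zero] at h2
    have hU : IsU ξ (∑ i, r i * z i) := by
      refine C.xi_unit L (ξ.sum_mem fun i _ => ξ.mul_mem (hrξ i) (hzξ i)) fun h1 => ?_
      rw [LocfA.ev_sum ρ fun i => ξ.mul_mem (hrξ i) (hzξ i)] at h1
      have h2 : c i0 = 0 := Fintype.linearIndependent_iff.1 hli c (by
        rw [← h1]
        exact Finset.sum_congr rfl fun i _ => by
          rw [evO_mul ρ (hrξ i) (hzξ i), he, Algebra.smul_def]) i0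
      have h3 := hc i0
      rw [h2, map_zero, sub_zero] at h3
      exact hi0.not_mx h3
    have h4 := hU.mul (hb ξ L.fib.mem L.fib.dom).1
    simp only [← mul_assoc]
    rwa [← Finset.sum_mul, mul_assoc]

end Pool.Agent.MP_e8e0b6_ag.R2

end Part9
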