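import Pool.Agent.MP_e8e0b6_ag.R2.SpecT

section Part1

-- part 1: Act

/-!
The Galois group of the constants acts on the function field of the base change.
-/

set_option autoImplicit false

open Polynomial

namespace Pool.Agent.MP_e8e0b6_ag.R2

open Pool.Agent.MP_79c67d_ag Pool.Agent.MP_20d318_ag Pool.Agent.MP_20d318_ag.AG
  Pool.Agent.MP_20d318_ag.BV Pool.Agent.MP_20d318_ag.CB

namespace ActA

/-- A ring homomorphism with values in the image of a field factors through it. -/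
theorem fac {K F E : Type} [CommRing K] [Field F] [Field E] (μ : F →+* E) (φ : K →+* E)
    (h : ∀ x, φ x ∈ μ.fieldRange) : ∃ b : K →+* F, ∀ x, μ (b x) = φ x :=
  ⟨μ.rangeRestrictFieldEquiv.symm.toRingHom.comp (φ.codRestrict μ.fieldRange h), fun x =>
    congrArg Subtype.val (μ.rangeRestrictFieldEquiv.apply_symm_apply ⟨φ x, h x⟩)⟩

variable {k A L F F₀ Ω E : Type} [Field k] [CommRing A] [Field L] [Field F] [Field F₀] [Field Ω]
  [Field E] [Algebra k A] [Algebra k L] [Algebra A L] [Algebra k F] [Algebra k F₀] [Algebra k Ω]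
  [Algebra k E] [Algebra Ω E] {g : A[X] →ₐ[k] F} {H : Set F} {μ : F →ₐ[k] E} {e : L →ₐ[k] Ω}
  {g₀ : L[X] →ₐ[k] F₀} {ν : F →ₐ[k] F₀} {μ₀ : F₀ →ₐ[k] E}

/-- The function field of the base change is generated by the constants and the old field. -/
theorem gen (h1 : 1 ∈ H) (h : Lv g H μ e g₀ ν μ₀) (W : Subfield F₀) (hc : ∀ c, g₀ (C c) ∈ W)
    (hn : ∀ z, ν z ∈ W) (f : F₀) : f ∈ W := by
  let T : Subalgebra k F₀ :=
    { W.toSubring.toSubsemiring with algebraMap_mem' := fun c => ν.commutes c ▸ hn _ }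
  have hT : ch g₀.range (ν '' H) (ν 1) ≤ T := by
    refine sup_le ?_ (Algebra.adjoin_le ?_)
    · rintro _ ⟨p, rfl⟩
      change g₀ p ∈ W
      have hX : g₀ X ∈ W := by
        have := h.cmp X
        rw [map_X] at this
        exact this ▸ hn _
      induction p using Polynomial.induction_on' with
      | add p q hp hq => rw [map_add]; exact add_mem hp hq
      | monomial n c =>
        rw [← C_mul_X_pow_eq_monomial, map_mul, map_pow]
        exact mul_mem (hc c) (pow_mem hX n)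
    · rintro _ ⟨_, ⟨z, -, rfl⟩, rfl⟩
      exact W.div_mem (hn z) (hn 1)
  obtain ⟨a, ha, b, hb, -, rfl⟩ := h.frac 1 h1 f
  exact W.div_mem (hT ha) (hT hb)

theorem ext (h1 : 1 ∈ H) (h : Lv g H μ e g₀ ν μ₀) {b b' : F₀ →+* F₀}
    (hc : ∀ c, b (g₀ (C c)) = b' (g₀ (C c))) (hn : ∀ z, b (ν z) = b' (ν z)) (f : F₀) :
    b f = b' f := gen h1 h (b.eqLocusField b') hc hn f

end ActA

theorem act_stmt : ActStmt := by
  intro k A K L F F₀ Ω E _ _ _ _ _ _ _ _ _ _ _ _ _ _ _ _ _ _ _ _ _ _ _ _ g H μ e g₀ ν μ₀ h1 h hτ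
  choose τ hs hμ he using hτ
  have hm : ∀ z, μ₀ (ν z) = μ z := fun z => DFunLike.congr_fun h.mu z
  have hb : ∀ σ, ∃ b : F₀ →+* F₀, ∀ z, μ₀ (b z) = τ σ (μ₀ z) := fun σ =>
    ActA.fac μ₀.toRingHom ((τ σ).toRingHom.comp μ₀.toRingHom)
      (ActA.gen h1 h (μ₀.toRingHom.fieldRange.comap ((τ σ).toRingHom.comp μ₀.toRingHom))
        (fun c => ⟨g₀ (C (σ c)), by
          change μ₀ _ = τ σ (μ₀ _)
          rw [h.con, h.con, he]⟩)
        fun z => ⟨ν z, by
          change μ₀ _ = τ σ (μ₀ _)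
          rw [hm, hμ]⟩)
  choose b hb using hb
  have hc : ∀ σ c, b σ (g₀ (C c)) = g₀ (C (σ c)) := fun σ c =>
    μ₀.toRingHom.injective (by
      change μ₀ _ = μ₀ _
      rw [hb, h.con, h.con, he])
  have hn : ∀ σ z, b σ (ν z) = ν z := fun σ z =>
    μ₀.toRingHom.injective (by
      change μ₀ _ = μ₀ _
      rw [hb, hm, hμ])
  have hone : ∀ z, b 1 z = z :=
    ActA.ext h1 h (b' := RingHom.id _) (fun c => hc 1 c) fun z => hn 1 z
  have hmul : ∀ σ σ' z, b (σ * σ') z = b σ (b σ' z) := fun σ σ' =>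
    ActA.ext h1 h (b' := (b σ).comp (b σ'))
      (fun c => by rw [RingHom.comp_apply, hc, hc, hc]; rfl)
      fun z => by rw [RingHom.comp_apply, hn, hn, hn]
  let a : (L ≃ₐ[K] L) →* (F₀ ≃ₐ[k] F₀) :=
    { toFun := fun σ =>
        { b σ with
          invFun := b σ⁻¹
          left_inv := fun z => by
            change b σ⁻¹ (b σ z) = z
            rw [← hmul, inv_mul_cancel, hone]
          right_inv := fun z => by
            change b σ (b σ⁻¹ z) = z
            rw [← hmul, mul_inv_cancel, hone]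
          commutes' := fun c => by
            change b σ _ = _
            rw [← ν.commutes, hn] }
      map_one' := AlgEquiv.ext hone
      map_mul' := fun σ σ' => AlgEquiv.ext (hmul σ σ') }
  refine ⟨a, hc, hn, fun z hz => ?_, fun σ => ⟨τ σ, hs σ, fun z => (hb σ z).symm⟩⟩
  change ∀ σ, b σ z = z at hz
  let γ : L →+* F₀ := g₀.toRingHom.comp C
  obtain ⟨κ, hκ⟩ := ActA.fac ν.toRingHom (γ.comp (algebraMap K L)) fun x => by
    obtain ⟨p, q, -, rfl⟩ := IsFractionRing.div_surjective (A := A) x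
    have : ∀ p : A, (γ.comp (algebraMap K L)) (algebraMap A K p) ∈ ν.toRingHom.fieldRange :=
      fun p => ⟨g (C p), by
        change ν _ = g₀ (C (algebraMap K L (algebraMap A K p)))
        rw [← h.cmp, map_C, ← IsScalarTower.algebraMap_apply]⟩
    rw [map_div₀]
    exact div_mem (this p) (this q)
  let _ : Algebra F F₀ := ν.toRingHom.toAlgebra
  have hz1 : z ∈ Algebra.adjoin F (Set.range γ) := by
    rw [← IntermediateField.adjoin_toSubalgebra_of_isAlgebraic]
    · exact ActA.gen h1 h (IntermediateField.adjoin F (Set.range γ)).toSubfield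
        (fun c => IntermediateField.subset_adjoin _ _ ⟨c, rfl⟩)
        (fun z => IntermediateField.algebraMap_mem _ z) z
    · rintro _ ⟨c, rfl⟩
      exact ((Algebra.IsIntegral.isIntegral (R := K) c).map_of_comp_eq κ γ
        (RingHom.ext hκ)).isAlgebraic
  have hz2 : z ∈ Submodule.span F (Set.range γ) := by
    rw [← Algebra.adjoin_eq_span_of_subset (R := F) (s := Set.range γ)
      fun y hy => Submodule.subset_span
        ((Submonoid.closure_le (S := MonoidHom.mrange γ)).2 subset_rfl hy)]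
    exact hz1
  have key : ∀ y ∈ Submodule.span F (Set.range γ), ∑ σ, b σ y ∈ ν.toRingHom.fieldRange := by
    intro y hy
    induction hy using Submodule.span_induction with
    | mem y hy =>
      obtain ⟨c, rfl⟩ := hy
      refine ⟨κ (Algebra.trace K L c), (hκ _).trans ?_⟩
      rw [RingHom.comp_apply, trace_eq_sum_automorphisms, map_sum]
      exact Finset.sum_congr rfl fun σ _ => (hc σ c).symm
    | zero => simp
    | add y y' _ _ hy hy' =>
      simp only [map_add, Finset.sum_add_distrib]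
      exact add_mem hy hy'
    | smul c y _ hy =>
      have : ∀ σ, b σ (c • y) = ν c * b σ y := fun σ => by
        change b σ (ν c * y) = _
        rw [map_mul, hn]
      simp only [this, ← Finset.mul_sum]
      exact mul_mem ⟨c, rfl⟩ hy
  have h2 := key z hz2
  simp only [hz, Finset.sum_const, Finset.card_univ, nsmul_eq_mul] at h2
  have : CharZero F₀ := charZero_of_injective_algebraMap (algebraMap k F₀).injective
  have h3 : ((Fintype.card (L ≃ₐ[K] L) : ℕ) : F₀) ≠ 0 := Nat.cast_ne_zero.2 Fintype.card_ne_zero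
  have h4 := div_mem h2 (natCast_mem ν.toRingHom.fieldRange (Fintype.card (L ≃ₐ[K] L)))
  rwa [mul_div_cancel_left₀ _ h3] at h4

end Pool.Agent.MP_e8e0b6_ag.R2

end Part1

section Part2

-- part 2: Aut

/-!
Automorphisms of the constants extend to the function field of the geometric fibre.
-/

set_option autoImplicit false

open Polynomial

namespace Pool.Agent.MP_e8e0b6_ag.R2

open Pool.Agent.MP_79c67d_ag Pool.Agent.MP_20d318_ag Pool.Agent.MP_20d318_ag.AG
  Pool.Agent.MP_20d318_ag.BV Pool.Agent.MP_20d318_ag.CB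

namespace AutA

variable {A B L Ω E : Type} [CommRing A] [CommRing B] [Field L] [Field Ω] [Field E] [Algebra A L]

theorem inj [Algebra.IsAlgebraic A L] (e : L →+* Ω) (t : Ω)
    (h : Function.Injective ((eval₂RingHom e t).comp (mapRingHom (algebraMap A L)))) :
    Function.Injective (eval₂RingHom e t) := by
  let _ : Algebra L Ω := e.toAlgebra
  let _ : Algebra A Ω := (e.comp (algebraMap A L)).toAlgebra
  have : IsScalarTower A L Ω := IsScalarTower.of_algebraMap_eq fun _ => rfl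
  have h1 : Transcendental A t := transcendental_iff.2 fun p hp => h (by
    rw [map_zero, RingHom.comp_apply, coe_mapRingHom, coe_eval₂RingHom, eval₂_map]
    exact hp)
  exact transcendental_iff_injective.1 (h1.extendScalars L)

theorem ext_aut [IsAlgClosed Ω] [Algebra Ω E] [Algebra B E] (ι : L[X] →+* Ω)
    (hι : Function.Injective ι) (hA : Function.Injective (algebraMap A L)) (f : A[X] →+* B)
    (hf : Function.Surjective f) (h : (algebraMap B E).comp f =
      (algebraMap Ω E).comp (ι.comp (mapRingHom (algebraMap A L))))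
    (alg : ∀ a : Ω, IsAlgebraic B (algebraMap Ω E a)) (σ : L ≃+* L) :
    ∃ ω : Ω ≃+* Ω, ∀ q, ω (ι q) = ι (q.map (σ : L →+* L)) := by
  let _ : Algebra L[X] Ω := ι.toAlgebra
  let _ : Algebra A[X] Ω := (ι.comp (mapRingHom (algebraMap A L))).toAlgebra
  have : Module.IsTorsionFree L[X] Ω := Module.isTorsionFree_iff_algebraMap_injective.2 hι
  have : IsAlgClosure L[X] Ω := ⟨inferInstance, ⟨fun a =>
    ((alg a).of_ringHom_of_comp_eq f (algebraMap Ω E) hf (algebraMap Ω E).injective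
      h).ringHom_of_comp_eq (mapRingHom (algebraMap A L)) (RingHom.id Ω)
      (map_injective _ hA) rfl⟩⟩
  exact ⟨IsAlgClosure.equivOfEquiv Ω Ω (mapEquiv σ), fun q =>
    IsAlgClosure.equivOfEquiv_algebraMap Ω Ω (mapEquiv σ) q⟩

end AutA

theorem aut_stmt (h1 : ExtStmt) : AutStmt := by
  intro k A L F Ω E J _ _ _ _ _ _ _ _ _ _ _ _ _ _ _ _ g H μ S' e σ ts he hσ
  obtain ⟨t, ht⟩ := ts.gc.base (g X) ⟨X, rfl⟩
  obtain ⟨ι, hι⟩ : ∃ ι, ι = eval₂RingHom (e : L →+* Ω) t := ⟨_, rfl⟩
  have c1 : ∀ a, ι (C a) = e a := fun a => by simp [hι]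
  have cmp : (algebraMap Ω E).comp (ι.comp (mapRingHom (algebraMap A L))) =
      ((μ.comp g : A[X] →ₐ[k] E) : A[X] →+* E) :=
    ringHom_ext (fun a => by simpa [c1] using he a) (by simpa [hι] using ht)
  have cmp' : ∀ p, algebraMap Ω E (ι (p.map (algebraMap A L))) = μ (g p) :=
    fun p => RingHom.congr_fun cmp p
  have i0 : Function.Injective (ι.comp (mapRingHom (algebraMap A L))) := fun p q u =>
    ts.inj (μ.injective ((cmp' p).symm.trans ((congrArg _ u).trans (cmp' q))))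
  have i1 : Function.Injective ι := hι ▸ AutA.inj _ t (hι ▸ i0)
  have i2 : Function.Injective (algebraMap A L) := fun a b u =>
    C_injective (i0 (by simp [u]))
  obtain ⟨ω, hω⟩ := AutA.ext_aut ι i1 i2 (((μ.comp g : A[X] →ₐ[k] E) : A[X] →+* E).codRestrict
    (g.range.map μ) fun p => ⟨g p, ⟨p, rfl⟩, rfl⟩)
    (by rintro ⟨_, _, ⟨p, rfl⟩, rfl⟩; exact ⟨p, rfl⟩) (Eq.trans rfl cmp.symm) ts.alg σ
  obtain ⟨τ, h2, h3⟩ := h1 k F Ω E J g.range H μ S' ts.gc ts.all.a1.nice.toFine.top ω (by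
    rintro a ⟨_, ⟨p, rfl⟩, u⟩
    obtain rfl : ι (p.map (algebraMap A L)) = a := (algebraMap Ω E).injective ((cmp' p).trans u)
    rw [hω, Polynomial.map_map]
    congr 2
    exact RingHom.ext hσ)
  refine ⟨τ, Set.Subset.antisymm ?_ ?_, h3, fun a => ?_⟩
  · rintro _ ⟨_, ⟨a, rfl⟩, rfl⟩
    exact ⟨_, (h2 a).symm⟩
  · rintro _ ⟨a, rfl⟩
    exact ⟨_, ⟨ω.symm a, rfl⟩, by rw [h2, ω.apply_symm_apply]⟩
  · rw [h2, ← c1, hω, map_C, c1]
    rfl

end Pool.Agent.MP_e8e0b6_ag.R2

end Part2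

section Part3

-- part 3: Bcof

/-!
Linear disjointness gives a base change.
-/

set_option autoImplicit false

namespace Pool.Agent.MP_e8e0b6_ag.R2

open Pool.Agent.MP_79c67d_ag Pool.Agent.MP_20d318_ag Pool.Agent.MP_20d318_ag.AG
  Pool.Agent.MP_20d318_ag.BV Pool.Agent.MP_20d318_ag.CB

theorem bc_stmt : BcStmt := by
  intro C F D E _ _ _ _ _ _ _ _ _ μ hl hg
  refine ⟨⟨μ, ?_, fun ω => ?_⟩, rfl⟩
  · let b := Module.Basis.ofVectorSpace C F
    refine LinearMap.injective_of_linearIndependent (f := (tens D μ).toLinearMap)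
      (Algebra.TensorProduct.basis D b).span_eq ?_
    simpa [Function.comp_def] using hl _ b b.linearIndependent
  · have h : ω ∈ Subfield.closure ((tens D μ).toRingHom.range : Set E) := by
      refine (hg _ (fun d => ?_) fun f => ?_).ge trivial
      · exact Subfield.subset_closure ⟨d ⊗ₜ 1, by simp⟩
      · exact Subfield.subset_closure ⟨1 ⊗ₜ f, by simp⟩
    rw [Subfield.mem_closure_iff, Subring.closure_eq] at h
    obtain ⟨_, ⟨a, rfl⟩, _, ⟨s, rfl⟩, rfl⟩ := h
    by_cases h0 : tens D μ s = 0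
    · exact ⟨0, 1, fun h => by simpa using congrArg (tens D μ) h, by simp [h0]⟩
    · exact ⟨a, s, fun h => h0 (by rw [h, map_zero]), div_mul_cancel₀ _ h0⟩

end Pool.Agent.MP_e8e0b6_ag.R2

end Part3

section Part4

-- part 4: ClEx

/-!
A system has a class.
-/

set_option autoImplicit false

open Polynomial

namespace Pool.Agent.MP_e8e0b6_ag.R2

open Pool.Agent.MP_79c67d_ag Pool.Agent.MP_20d318_ag Pool.Agent.MP_20d318_ag.AG
  Pool.Agent.MP_20d318_ag.BV Pool.Agent.MP_20d318_ag.CB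

theorem clEx_stmt : ClExStmt := by
  intro k M I _ _ _ _ S U h hU hp
  obtain ⟨c, φ, h0, hu⟩ := h.a2.pic _
    (isCart_of_gn (f := gn U) hU fun O hO => gn_spec (hp O hO)).inv
  refine ⟨c, φ⁻¹, inv_ne_zero h0, fun O hO => (gn_spec (hp O hO)).of_unit ?_⟩
  have e : φ⁻¹ * (S.lb c O)⁻¹ / gn U O = (φ * S.lb c O / (gn U)⁻¹ O)⁻¹ := by
    rw [Pi.inv_apply, div_inv_eq_mul, mul_inv, mul_inv, div_eq_mul_inv]
  rw [e]
  exact (hu O hO).inv

end Pool.Agent.MP_e8e0b6_ag.R2

end Part4

section Part5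

-- part 5: Core

/-!
Row CORE: descent of a projectively invariant space over a `C1` field.
-/

set_option autoImplicit false

namespace Pool.Agent.MP_e8e0b6_ag.R2

namespace CoreA

variable {L L' E : Type} [Field L] [Field L'] [Field E] [Algebra L L'] [Algebra L' E]

theorem line [FiniteDimensional L L'] [IsGalois L L'] (a : (L' ≃ₐ[L] L') → (E →+* E))
    (W : Submodule L' E) (hL : C1 L)
    (hc : ∀ g c, a g (algebraMap L' E c) = algebraMap L' E (g c))
    (hm : ∀ g g' z, a (g * g') z = a g (a g' z)) (h1 : ∀ z, a 1 z = z) [FiniteDimensional L' W]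
    (hW : W ≠ ⊥) (h : (L' ≃ₐ[L] L') → E) (h0 : ∀ g, h g ≠ 0)
    (H : ∀ g z, z ∈ W ↔ a g z / h g ∈ W)
    (hs : ∀ m, (∀ z ∈ W, m * z ∈ W) → m ∈ Set.range (algebraMap L' E)) :
    ∃ l : E, l ≠ 0 ∧ ∀ g y, y * l ∈ W → a g y * l ∈ W := by
  have hinv : ∀ g z, a g (a g⁻¹ z) = z := fun g z => by rw [← hm, mul_inv_cancel, h1]
  let φ : (L' ≃ₐ[L] L') → W ≃+ W := fun g => AddEquiv.ofBijective
    ({ toFun w := ⟨_, (H g w).1 w.2⟩
       map_zero' := Subtype.ext (by simp)
       map_add' x y := Subtype.ext (by simp [add_div]) } : W →+ W)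
    ⟨fun x y e => Subtype.ext ((a g).injective ((div_left_inj' (h0 g)).1 (congrArg Subtype.val e))),
      fun w => ⟨⟨a g⁻¹ (w * h g), (H g _).2 (by
        rw [hinv, mul_div_cancel_right₀ _ (h0 g)]
        exact w.2)⟩, Subtype.ext (by
          show a g (a g⁻¹ (w * h g)) / h g = w
          rw [hinv, mul_div_cancel_right₀ _ (h0 g)])⟩⟩
  have hφ : ∀ g w, (φ g w : E) = a g w / h g := fun _ _ => rfl
  have : Nontrivial W := Submodule.nontrivial_iff_ne_bot.2 hW
  obtain ⟨l, hl0, hl⟩ := exists_stable_line hL φ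
    (fun g c w => Subtype.ext (by
      rw [hφ, Submodule.coe_smul, Submodule.coe_smul, hφ, Algebra.smul_def, Algebra.smul_def,
        map_mul, hc, mul_div_assoc])) fun g g' => by
      have e : ∀ w : W, (φ g (φ g' w) : E) =
          h (g * g') / (a g (h g') * h g) * (φ (g * g') w : E) := fun w => by
        have k1 := h0 g
        have k2 := h0 (g * g')
        have k3 : a g (h g') ≠ 0 := (map_ne_zero _).2 (h0 g')
        rw [hφ, hφ, hφ, map_div₀, ← hm]
        field_simp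
      obtain ⟨c, hc'⟩ := hs (h (g * g') / (a g (h g') * h g)) fun z hz => by
        obtain ⟨w, hw⟩ := (φ (g * g')).surjective ⟨z, hz⟩
        have k := e w
        rw [hw] at k
        exact k ▸ (φ g (φ g' w)).2
      exact ⟨c, fun w => Subtype.ext (by rw [e, Submodule.coe_smul, Algebra.smul_def, hc'])⟩
  refine ⟨l, fun e => hl0 (Subtype.ext e), fun g y hy => ?_⟩
  obtain ⟨c, hc'⟩ := hl g
  have c0 : c ≠ 0 := fun e => hl0 (by simpa [e] using hc')
  have k := congrArg Subtype.val hc'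
  rw [hφ, Submodule.coe_smul] at k
  have k2 := W.smul_mem c⁻¹ ((H g _).1 hy)
  rw [map_mul, mul_div_assoc, k, mul_smul_comm, smul_smul, inv_mul_cancel₀ c0, one_smul] at k2
  exact k2

end CoreA

theorem core_stmt : CoreStmt := by
  classical
  intro L L' E _ _ _ _ _ _ _ a W hL hc hm h1 _ hW hφ hs
  choose h h0 H using hφ
  obtain ⟨l, hl, st⟩ := CoreA.line a W hL hc hm h1 hW h h0 H hs
  obtain ⟨n, u, v, huv⟩ := speiser L L'
  obtain ⟨s, hsW⟩ : W.FG := Module.Finite.iff_fg.1 inferInstance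
  let t : Fin n × s → E := fun p => ∑ g, a g (algebraMap L' E (v p.1) * (p.2 / l))
  refine ⟨l, Set.range t, hl, Set.finite_range t, ?_, fun z => ⟨fun hz => ?_, fun hz => ?_⟩⟩
  · rintro _ ⟨p, rfl⟩ g
    simp only [t, map_sum, ← hm]
    exact Fintype.sum_equiv (Equiv.mulLeft g) _ _ fun _ => rfl
  · rw [← hsW] at hz
    induction hz using Submodule.span_induction with
    | mem w hw =>
      have e : w / l = ∑ i, u i • t (i, ⟨w, hw⟩) := by
        simp only [t, Algebra.smul_def, map_mul, hc, Finset.mul_sum, ← mul_assoc]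
        rw [Finset.sum_comm]
        simp only [← Finset.sum_mul, ← map_mul, ← map_sum, huv]
        rw [Finset.sum_eq_single 1 (fun g _ hg => by rw [if_neg hg, map_zero, zero_mul])
          (fun k => absurd (Finset.mem_univ _) k), if_pos rfl, map_one, one_mul, h1]
      rw [e]
      exact sum_mem fun i _ => Submodule.smul_mem _ _ (Submodule.subset_span ⟨_, rfl⟩)
    | zero =>
      rw [zero_div]
      exact zero_mem _
    | add x y _ _ hx hy =>
      rw [add_div]
      exact add_mem hx hy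
    | smul c x _ hx =>
      rw [smul_div_assoc]
      exact Submodule.smul_mem _ _ hx
  · have k : Submodule.span L' (Set.range t) ≤ W.comap (LinearMap.mulRight L' l) := by
      rw [Submodule.span_le]
      rintro _ ⟨p, rfl⟩
      show (∑ g, a g (algebraMap L' E (v p.1) * (p.2 / l))) * l ∈ W
      rw [Finset.sum_mul]
      refine sum_mem fun g _ => st g _ ?_
      rw [mul_assoc, div_mul_cancel₀ _ hl, ← Algebra.smul_def]
      exact W.smul_mem _ (hsW ▸ Submodule.subset_span p.2.2)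
    have k2 : z / l * l ∈ W := k hz
    rwa [div_mul_cancel₀ _ hl] at k2

end Pool.Agent.MP_e8e0b6_ag.R2

end Part5

section Part6

-- part 6: Ctr

/-!
Row CTR: a point of the geometric generic fibre lies over a point of the family.
-/

set_option autoImplicit false

namespace Pool.Agent.MP_e8e0b6_ag.R2

open Pool.Agent.MP_79c67d_ag Pool.Agent.MP_20d318_ag Pool.Agent.MP_20d318_ag.AG
  Pool.Agent.MP_20d318_ag.BV Pool.Agent.MP_20d318_ag.CB

theorem ctr_stmt : CtrStmt := by
  intro k F Ω E _ _ _ _ _ _ _ C H μ hC O' hO'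
  obtain ⟨j', hj', hO⟩ := hO'
  obtain ⟨j, hj, e⟩ := hj' ()
  have h1 : ∀ c ∈ C, μ c ∈ O' := fun c hc => by
    obtain ⟨w, hw⟩ := hC c hc
    exact hw ▸ O'.algebraMap_mem w
  let W : Subalgebra k F :=
    { carrier := {a | μ a ∈ O'}
      mul_mem' := fun {a b} ha hb => by
        change μ (a * b) ∈ O'
        rw [map_mul]
        exact O'.mul_mem ha hb
      add_mem' := fun {a b} ha hb => by
        change μ (a + b) ∈ O'
        rw [map_add]
        exact O'.add_mem ha hb
      algebraMap_mem' := fun c => h1 _ (C.algebraMap_mem c) }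
  have hu : ∀ a, IsU W a ↔ IsU O' (μ a) := fun a =>
    ⟨fun h => ⟨(_root_.map_ne_zero μ).2 h.1, h.2.1, by rw [← map_inv₀]; exact h.2.2⟩,
      fun h => ⟨(_root_.map_ne_zero μ).1 h.1, h.2.1, by
        change μ a⁻¹ ∈ O'
        rw [map_inv₀]
        exact h.2.2⟩⟩
  have hW : IsLocalRing W := isLocalRing_of fun a ha b hb => by
    have := mx_add hO.1 (a := μ a) (b := μ b) ⟨ha.1, fun h => ha.2 ((hu a).2 h)⟩
      ⟨hb.1, fun h => hb.2 ((hu b).2 h)⟩
    rw [← map_add] at this
    exact ⟨this.1, fun h => this.2 ((hu _).1 h)⟩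
  have hle : ch C H j ≤ W := sup_le h1 (Algebra.adjoin_le (by
    rintro _ ⟨a, ha, rfl⟩
    change μ (a / j) ∈ O'
    rw [map_div₀, e]
    exact hO.2.1 (Algebra.subset_adjoin (Set.mem_iUnion.2 ⟨(), _, ⟨a, ha, rfl⟩, rfl⟩))))
  obtain ⟨O, h2, h3⟩ := AG.exists_ctr hW hle
  exact ⟨O, ⟨j, hj, h2⟩, fun a ha => h3.1 ha⟩

end Pool.Agent.MP_e8e0b6_ag.R2

end Part6

section Part7

-- part 7: Dif

/-!
The class of a line bundle on the family is a difference of classes of systems.
-/

set_option autoImplicit false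

namespace Pool.Agent.MP_e8e0b6_ag.R2

open Pool.Agent.MP_79c67d_ag Pool.Agent.MP_20d318_ag Pool.Agent.MP_20d318_ag.AG
  Pool.Agent.MP_20d318_ag.BV Pool.Agent.MP_20d318_ag.CB

theorem dif_stmt (h1 : CtrStmt) (h2 : ClExStmt) : DifStmt := by
  intro k F Ω E J _ _ _ _ _ _ _ _ C H μ S' γ c hG hS ⟨U, V, hU, hV, h⟩ ⟨φ, φ0, hφ⟩
  have ctr : ∀ O' ∈ S'.T, ∃ O ∈ XX C H, ∀ a ∈ O, μ a ∈ O' :=
    fun O' hO' => h1 k F Ω E C H μ hG.base O' (hG.eq ▸ hO')
  have un : ∀ {O : Subalgebra k F} {O' : Subalgebra Ω E}, (∀ a ∈ O, μ a ∈ O') →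
      ∀ {u}, IsU O u → IsU O' (μ u) := fun hle u hu =>
    ⟨(map_ne_zero μ).2 hu.ne, hle _ hu.mem, map_inv₀ μ u ▸ hle _ hu.inv_mem⟩
  have up : ∀ {O : Subalgebra k F} {O' : Subalgebra Ω E}, (∀ a ∈ O, μ a ∈ O') →
      ∀ {W a}, Gn W O a → Gn (μ '' W) O' (μ a) := fun hle W a ha =>
    ⟨by rintro _ ⟨w, hw, rfl⟩; exact map_div₀ μ w a ▸ hle _ (ha.1 w hw), by
      obtain ⟨w, hw, hu⟩ := ha.2
      exact ⟨_, ⟨w, hw, rfl⟩, map_div₀ μ w a ▸ un hle hu⟩⟩
  have cl : ∀ W, Sys (XX C H) W → ∃ d, Cl S' (μ '' W) d := fun W hW =>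
    h2 Ω E J S' _ hS (hW.1.image μ) fun O' hO' => by
      obtain ⟨O, hO, hle⟩ := ctr O' hO'
      obtain ⟨a, ha⟩ := hW.2 O hO
      exact ⟨_, up hle ha⟩
  obtain ⟨c₁, φ₁, n1, g1⟩ := cl U hU
  obtain ⟨c₂, φ₂, n2, g2⟩ := cl V hV
  refine ⟨U, V, c₁, c₂, hU, hV, ⟨φ₁, n1, g1⟩, ⟨φ₂, n2, g2⟩, sub_eq_zero.1
    (hS.a1.zero _ (φ * φ₁ / φ₂) fun O' hO' => ?_)⟩
  obtain ⟨O, hO, hle⟩ := ctr O' hO'
  obtain ⟨a, b, ha, hb, hu⟩ := h O hO
  have g := hS.a1.gne O' hO'
  have u := (((un hle hu).div (hφ O' hO' O hO hle)).div ((up hle ha).unit (g1 O' hO'))).mul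
    ((up hle hb).unit (g2 O' hO'))
  have a0 := (up hle ha).ne
  have b0 := (up hle hb).ne
  have c0 := (div_ne_zero_iff.1 (hφ O' hO' O hO hle).ne).1
  have l := S'.lb_ne g
  have l0 := l c
  have l1 := l c₁
  have l2 := l c₂
  rw [S'.lb_sub g, S'.lb_sub g]
  convert u using 1
  rw [map_div₀, map_mul]
  field_simp

end Pool.Agent.MP_e8e0b6_ag.R2

end Part7

section Part8

-- part 8: Dsc

/-!
Descent of a multiplier between two spaces defined over a subfield.
-/

set_option autoImplicit false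

namespace Pool.Agent.MP_e8e0b6_ag.R2

open Pool.Agent.MP_79c67d_ag Pool.Agent.MP_20d318_ag Pool.Agent.MP_20d318_ag.AG
  Pool.Agent.MP_20d318_ag.BV Pool.Agent.MP_20d318_ag.CB

namespace DscA

variable {L Ω E' E : Type} [Field L] [Field Ω] [Field E'] [Field E] [Algebra L Ω]
  [Algebra L E'] [Algebra Ω E] [Algebra L E] [IsScalarTower L Ω E]

theorem half (β : BC L E' Ω E) {W W' : Submodule L E'} {φ : E} (fd : FiniteDimensional L W)
    (hW : W ≠ ⊥) (h0 : φ ≠ 0) (h : ∀ z ∈ W, φ * β.μ z ∈ Submodule.span Ω (β.μ '' W')) :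
    ∃ ψ : E', ψ ≠ 0 ∧ ∀ z ∈ W, ψ * z ∈ W' := by
  obtain ⟨n, w, hw⟩ := Submodule.fg_iff_exists_fin_generating_family.1
    ((Submodule.fg_iff_finiteDimensional W).2 fd)
  obtain ⟨w1, hw1, h1⟩ := (Submodule.ne_bot_iff W).1 hW
  have hm : ∀ y ∈ Submodule.span Ω (β.μ '' W'), y * β.μ w1⁻¹ ∈
      Submodule.span Ω (β.μ.toLinearMap '' (⊤ : Submodule L E')) := fun y hy => by
    induction hy using Submodule.span_induction with
    | mem y hy =>
      obtain ⟨v, -, rfl⟩ := hy
      exact Submodule.subset_span ⟨v * w1⁻¹, trivial, map_mul β.μ _ _⟩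
    | zero => simp
    | add a b _ _ ha hb => rw [add_mul]; exact add_mem ha hb
    | smul c a _ ha => rw [smul_mul_assoc]; exact Submodule.smul_mem _ c ha
  have hφ := hm _ (h w1 hw1)
  rw [mul_assoc, ← map_mul, mul_inv_cancel₀ h1, map_one, mul_one] at hφ
  have key := fbc_fin β.inj' (fun i => LinearMap.mulLeft L (w i))
    (fun i => LinearMap.mulLeft Ω (β.μ (w i))) (fun i v => by simp) (fun _ => W') hφ fun i => by
      have := h (w i) (hw ▸ Submodule.subset_span ⟨i, rfl⟩)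
      rwa [mul_comm] at this
  obtain ⟨ψ, hψ, p0⟩ : ∃ ψ : E', (∀ i, w i * ψ ∈ W') ∧ ψ ≠ 0 := by
    by_contra hn
    refine h0 ((Submodule.span_eq_bot.2 ?_).le key)
    rintro _ ⟨v, hv, rfl⟩
    have : v = 0 := by_contra fun c => hn ⟨v, hv, c⟩
    simp [this]
  refine ⟨ψ, p0, fun z hz => ?_⟩
  rw [← hw] at hz
  induction hz using Submodule.span_induction with
  | mem y hy =>
    obtain ⟨i, rfl⟩ := hy
    rw [mul_comm]
    exact hψ i
  | zero => simp
  | add a b _ _ ha hb => rw [mul_add]; exact add_mem ha hb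
  | smul c a _ ha => rw [mul_smul_comm]; exact Submodule.smul_mem _ c ha

end DscA

theorem dsc_stmt : DscStmt := by
  intro L Ω E' E _ _ _ _ _ _ _ _ _ β W W' φ fd fd' hW h0 h
  obtain ⟨ψ, p0, hψ⟩ := DscA.half β fd hW h0 fun z hz =>
    (h _).1 (Submodule.subset_span ⟨z, hz, rfl⟩)
  have hW' : W' ≠ ⊥ := by
    obtain ⟨w1, hw1, h1⟩ := (Submodule.ne_bot_iff W).1 hW
    exact (Submodule.ne_bot_iff W').2 ⟨_, hψ w1 hw1, mul_ne_zero p0 h1⟩
  obtain ⟨ψ', p1, hψ'⟩ := DscA.half β (W' := W) fd' hW' (inv_ne_zero h0) fun z hz =>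
    (h _).2 (by
      rw [mul_inv_cancel_left₀ h0]
      exact Submodule.subset_span ⟨z, hz, rfl⟩)
  refine ⟨ψ, p0, fun z => ⟨hψ z, fun hz => ?_⟩⟩
  have inj : Function.Injective (LinearMap.mulLeft L (ψ' * ψ)) :=
    mul_right_injective₀ (mul_ne_zero p1 p0)
  have e : W.map (LinearMap.mulLeft L (ψ' * ψ)) = W := Submodule.eq_of_le_of_finrank_le (by
    rintro _ ⟨y, hy, rfl⟩
    rw [LinearMap.mulLeft_apply, mul_assoc]
    exact hψ' _ (hψ y hy)) (Submodule.equivMapOfInjective _ inj W).finrank_eq.le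
  have h2 := hψ' _ hz
  rw [← e, ← mul_assoc] at h2
  obtain ⟨y, hy, e'⟩ := h2
  exact inj e' ▸ hy

end Pool.Agent.MP_e8e0b6_ag.R2

end Part8

section Part9

-- part 9: Fm0

/-!
A surface is a family over the ground field.
-/

set_option autoImplicit false

open Polynomial

namespace Pool.Agent.MP_e8e0b6_ag.R2

open Pool.Agent.MP_79c67d_ag Pool.Agent.MP_20d318_ag Pool.Agent.MP_20d318_ag.AG
  Pool.Agent.MP_20d318_ag.BV Pool.Agent.MP_20d318_ag.CB

namespace Fm0A

variable {k M : Type} [Field k] [Field M] [Algebra k M] {O A : Subalgebra k M} {H : Set M}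

theorem xx_eq (H : Set M) : XX (⊥ : Subalgebra k M) H = mp k fun _ : Unit => H := by
  ext O
  constructor
  · rintro ⟨j, hj, h⟩
    refine ⟨fun _ => j, fun _ => hj, ?_⟩
    rwa [cht, Set.iUnion_const, ← bot_sup_eq (Algebra.adjoin k _)]
  · rintro ⟨j, hj, h⟩
    refine ⟨j (), hj (), ?_⟩
    rw [ch, bot_sup_eq]
    obtain ⟨j, rfl⟩ : ∃ j₀ : M, j = fun _ => j₀ := ⟨j (), rfl⟩
    rwa [cht, Set.iUnion_const] at h

theorem bot_unit {u : M} (hu : u ∈ (⊥ : Subalgebra k M)) (h0 : u ≠ 0) : IsU O u := by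
  obtain ⟨c, rfl⟩ := Algebra.mem_bot.1 hu
  exact isU_const fun e => h0 (by rw [e, map_zero])

theorem bot_dom : AG.Dom ⊥ O := ⟨bot_le, fun _ hu h => bot_unit hu h.ne⟩

theorem bot_field : IsField (⊥ : Subalgebra k M) :=
  (Algebra.botEquiv k M).toMulEquiv.isField (Field.toIsField k)

theorem bot_loc : IsLocalRing (⊥ : Subalgebra k M) :=
  letI := (bot_field (k := k) (M := M)).toField
  inferInstance

theorem eq_bot (h : O ∈ Pts (⊥ : Subalgebra k M)) : O = ⊥ :=
  le_antisymm (fun f hf => by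
    obtain ⟨a, ha, b, hb, hu, rfl⟩ := h.2.2 f hf
    exact (bot_unit hb hu.ne).div_mem ha) bot_le

/-- A localisation of a factorial ring is factorial. -/
theorem ufd_of (h : O ∈ Pts A) (hA : UniqueFactorizationMonoid A) :
    UniqueFactorizationMonoid O := by
  let _ : Algebra A O := (Subalgebra.inclusion h.2.1).toRingHom.toAlgebra
  let N : Submonoid A :=
    { carrier := {b | IsU O (b : M)}
      mul_mem' := fun ha hb => ha.mul hb
      one_mem' := isU_one }
  have : IsLocalization N O := by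
    refine (isLocalization_iff _ _).2 ⟨fun b => (isU_iff_isUnit _).1 b.2, fun f => ?_,
      fun {a b} e => ⟨1, ?_⟩⟩
    · obtain ⟨a, ha, b, hb, hu, e⟩ := h.2.2 f f.2
      refine ⟨(⟨a, ha⟩, ⟨⟨b, hb⟩, hu⟩), Subtype.ext ?_⟩
      change (f : M) * b = a
      rw [e, div_mul_cancel₀ _ hu.ne]
    · rw [Subalgebra.inclusion_injective h.2.1 e]
  exact UniqueFactorizationMonoid.of_isLocalization N O

theorem ufd_cht {a b : M} (h : Cht O a b) : UniqueFactorizationMonoid O := by
  refine ufd_of h.2 ?_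
  rw [← Matrix.range_cons_cons_empty a b ![]]
  exact h.1.ind.aevalEquiv.toMulEquiv.uniqueFactorizationMonoid inferInstance

theorem frac_ch (hz : ∀ a ∈ H, a ≠ 0) (ht : ⊤ ∈ XX (⊥ : Subalgebra k M) H) {j : M} (hj : j ∈ H) :
    Frac (ch (⊥ : Subalgebra k M) H j) := by
  obtain ⟨j₀, h0, h⟩ := ht
  have hm : ∀ a ∈ H, a / j ∈ ch (⊥ : Subalgebra k M) H j := fun a ha =>
    (le_sup_right : _ ≤ ch ⊥ H j) (Algebra.subset_adjoin ⟨a, ha, rfl⟩)
  have hle : ch ⊥ H j₀ ≤ fr (ch (⊥ : Subalgebra k M) H j) ⊤ := by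
    refine sup_le bot_le (Algebra.adjoin_le ?_)
    rintro _ ⟨a, ha, rfl⟩
    exact ⟨_, hm a ha, _, hm j₀ h0, isU_top.2 (div_ne_zero (hz _ h0) (hz _ hj)),
      (div_div_div_cancel_right₀ (hz _ hj) a j₀).symm⟩
  intro f
  obtain ⟨a, ha, b, hb, hu, rfl⟩ := h.2.2 f trivial
  obtain ⟨a1, ha1, a2, ha2, hu1, rfl⟩ := hle ha
  obtain ⟨b1, hb1, b2, hb2, -, rfl⟩ := hle hb
  exact ⟨a1 * b2, mul_mem ha1 hb2, a2 * b1, mul_mem ha2 hb1,
    mul_ne_zero hu1.ne (div_ne_zero_iff.1 hu.ne).1, by rw [div_div_div_eq]⟩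

theorem fib (ht : ⊤ ∈ XX (⊥ : Subalgebra k M) H) : Fib (⊥ : Subalgebra k M) H ⊤ :=
  ⟨ht, bot_dom, fun _ _ _ => le_top, fun _ _ _ _ _ h => mem_mx_top.1 h ▸ zero_mem _⟩

theorem ev_top (u : M) : evO ⊤ (⊤ : Subalgebra k M).val u = u := evO_of_mem _ Algebra.mem_top

theorem red_top (O : Subalgebra k M) : red ⊤ (⊤ : Subalgebra k M).val O = O := by
  ext a
  exact ⟨fun ⟨b, hb, e⟩ => e ▸ hb, fun h => ⟨⟨a, trivial⟩, h, rfl⟩⟩

theorem li_bot {ι : Type} {v : ι → M} (h : LinearIndependent k v) :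
    LinearIndependent (⊥ : Subalgebra k M) v := by
  refine linearIndependent_iff'.2 fun s g hg i hi => ?_
  choose c hc using fun i => Algebra.mem_bot.1 (g i).2
  have h1 := linearIndependent_iff'.1 h s c (by
    rw [← hg]
    exact Finset.sum_congr rfl fun i _ => by rw [Algebra.smul_def, hc]; rfl) i hi
  exact Subtype.ext (by rw [← hc, h1, map_zero]; rfl)

end Fm0A

open Fm0A in
theorem fm0_stmt : Fm0Stmt := by
  intro k M I _ _ _ _ S H h hT hfin hz
  have e : XX ⊥ H = S.T := (xx_eq H).trans hT.symm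
  have ht : ⊤ ∈ XX (⊥ : Subalgebra k M) H := e ▸ h.a1.nice.toFine.top
  have hfm : Fm (⊥ : Subalgebra k M) H :=
    { fin := hfin
      ne := ⟨_, ht.choose_spec.1⟩
      nz := hz
      frac := fun j hj => frac_ch hz ht hj
      noeth := isNoetherianRing_of_ringEquiv k (Algebra.botEquiv k M).symm.toRingEquiv
      ufdC := fun R hR => eq_bot hR ▸
        (Algebra.botEquiv k M).symm.toMulEquiv.uniqueFactorizationMonoid inferInstance
      ufd := fun O hO => (h.a1.chart O (e ▸ hO)).elim fun _ h1 => h1.elim fun _ => ufd_cht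
      fib := fun R hR => ⟨⊤, eq_bot hR ▸ fib ht⟩
      flat := fun O _ _ => RingHom.Flat.of_isField bot_field _ }
  refine ⟨e, hfm, fun hm => ⟨hfm, bot_loc, fun f hf => ?_, fib ht, fun u hu => isU_top.2 hu,
    fun a => ⟨⟨a, trivial⟩, rfl⟩, fun ι v _ hv => li_bot (by simpa only [ev_top] using hv), hm,
    ?_⟩, fun d => ⟨?_, fun O hO _ => ?_⟩⟩
  · obtain ⟨c, rfl⟩ := Algebra.mem_bot.1 hf
    exact ⟨c, by rw [sub_self]; exact zero_mem_mx⟩
  · ext O
    exact ⟨fun hO => ⟨O, ⟨e ▸ hO, bot_dom⟩, red_top O⟩,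
      fun ⟨O', hO, e'⟩ => e' ▸ (red_top O').symm ▸ e ▸ hO.1⟩
  · obtain ⟨c, ⟨V, hV, -, gV⟩, U, hU, -, gU⟩ := h.s.dif d
    rw [e]
    refine ⟨U, V, ⟨hU, fun O hO => (gU O hO).prin⟩, ⟨hV, fun O hO => (gV O hO).prin⟩,
      fun O hO => ⟨_, _, gU O hO, gV O hO, ?_⟩⟩
    have h1 := S.lb_ne (h.a1.gne O hO) c
    have h2 := S.lb_ne (h.a1.gne O hO) d
    rw [S.lb_add (h.a1.gne O hO), show S.lb d O * (S.lb c O * S.lb d O)⁻¹ / (S.lb c O)⁻¹ = 1 by
      field_simp]
    exact isU_one
  · have h2 := S.lb_ne (h.a1.gne O (e ▸ hO)) d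
    rw [ev_top, red_top, div_self h2]
    exact ⟨isU_top.2 h2, isU_one⟩

end Pool.Agent.MP_e8e0b6_ag.R2

end Part9

section Part10

-- part 10: GcUp

/-! GCUP: linear disjointness for an intermediate base. -/

set_option autoImplicit false

open Polynomial

namespace Pool.Agent.MP_e8e0b6_ag.R2

open Pool.Agent.MP_79c67d_ag Pool.Agent.MP_20d318_ag Pool.Agent.MP_20d318_ag.AG
  Pool.Agent.MP_20d318_ag.BV Pool.Agent.MP_20d318_ag.CB

namespace GcUpA

theorem core {K Ω V E A ι : Type} [Field K] [Field Ω] [AddCommGroup V] [Module K V] [Algebra K Ω]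
    [AddCommGroup E] [Module K E] [Module Ω E] [IsScalarTower K Ω E] (f : V →ₗ[K] E) (u : A → V)
    (hu : LinearIndependent Ω fun a => f (u a)) (v : ι → V) (hv : LinearIndependent K v)
    (h : ∀ i, v i ∈ Submodule.span K (Set.range u)) : LinearIndependent Ω fun i => f (v i) := by
  have h1 : LinearIndependent K u := LinearIndependent.of_comp f (hu.restrict_scalars' K)
  let W := Submodule.span K (Set.range u)
  let Φ := LinearMap.liftBaseChange Ω (f.comp W.subtype)
  let b := Algebra.TensorProduct.basis Ω (Module.Basis.span h1)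
  have e : Φ = b.constr ℕ fun a => f (u a) := b.ext fun a => by
    rw [Module.Basis.constr_basis]
    simp [Φ, b, Module.Basis.span_apply]
  have inj : Function.Injective Φ := e ▸ b.injective_constr_of_linearIndependent hu
  have h2 : LinearIndependent K fun i => (⟨v i, h i⟩ : W) := LinearIndependent.of_comp W.subtype hv
  have h3 := (Module.Flat.linearIndependent_one_tmul (S := Ω) h2).map' Φ
    (LinearMap.ker_eq_bot.2 inj)
  have e2 : (fun i => f (v i)) = Φ ∘ fun i => (1 : Ω) ⊗ₜ[K] (⟨v i, h i⟩ : W) := by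
    funext i
    simp [Φ]
  rwa [e2]

end GcUpA

theorem gcUp_stmt : GcUpStmt := by
  intro k F F' Ω E J _ _ _ _ _ _ _ _ _ _ C H μ S' ν μ' C' hG hμ hC hb ⟨j, _, hF⟩
  have hμ' : ∀ a, μ' (ν a) = μ a := fun a => DFunLike.congr_fun hμ a
  refine ⟨hG.mrk, ?_, hb, fun ι v hv => ?_⟩
  · rw [hG.eq, Set.image_image]
    simp only [hμ']
  let g : C' →+* Ω := ((algebraMap Ω E).rangeRestrictFieldEquiv.symm : _ →+* Ω).comp
    (((μ' : F' →+* E).comp C'.val.toRingHom).codRestrict (algebraMap Ω E).fieldRange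
      fun c => hb c c.2)
  have hg : ∀ c : C', algebraMap Ω E (g c) = μ' c := fun c =>
    (algebraMap Ω E).rangeRestrictFieldEquiv_apply_symm_apply _
  let _ : Algebra C' Ω := g.toAlgebra
  have _ : FaithfulSMul C' Ω := (faithfulSMul_iff_algebraMap_injective _ _).2 fun a b e =>
    Subtype.ext (μ'.injective ((hg a).symm.trans ((congrArg _ e).trans (hg b))))
  let K := FractionRing C'
  let _ : Algebra K F' := FractionRing.liftAlgebra C' F'
  let _ : Algebra K Ω := FractionRing.liftAlgebra C' Ω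
  have _ : IsScalarTower C' K F' := FractionRing.isScalarTower_liftAlgebra C' F'
  have _ : IsScalarTower C' K Ω := FractionRing.isScalarTower_liftAlgebra C' Ω
  let _ : Algebra K E := ((algebraMap Ω E).comp (algebraMap K Ω)).toAlgebra
  have _ : IsScalarTower K Ω E := IsScalarTower.of_algebraMap_eq' rfl
  have hK : (μ' : F' →+* E).comp (algebraMap K F') = algebraMap K E :=
    IsLocalization.ringHom_ext (nonZeroDivisors C') (RingHom.ext fun c => by
      change μ' (algebraMap K F' (algebraMap C' K c)) =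
        algebraMap Ω E (algebraMap K Ω (algebraMap C' K c))
      rw [← IsScalarTower.algebraMap_apply C' K F', ← IsScalarTower.algebraMap_apply C' K Ω]
      exact (hg c).symm)
  let f : F' →ₐ[K] E := ⟨μ', fun c => DFunLike.congr_fun hK c⟩
  let K₀ := FractionRing C
  let _ : Algebra K₀ F := FractionRing.liftAlgebra C F
  have _ : IsScalarTower C K₀ F := FractionRing.isScalarTower_liftAlgebra C F
  let b := Module.Basis.ofVectorSpace K₀ F
  have hu := hG.ld _ b ((LinearIndependent.iff_fractionRing C K₀).2 b.linearIndependent)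
  have hW : ∀ a, ν a ∈ Submodule.span K (Set.range fun i => ν (b i)) := fun a => by
    have ha : a ∈ Submodule.span K₀ (Set.range b) := b.span_eq ▸ Submodule.mem_top
    induction ha using Submodule.span_induction with
    | mem x hx =>
      obtain ⟨i, rfl⟩ := hx
      exact Submodule.subset_span ⟨i, rfl⟩
    | zero => rw [map_zero]; exact Submodule.zero_mem _
    | add x y _ _ hx hy => rw [map_add]; exact Submodule.add_mem _ hx hy
    | smul c x _ hx =>
      obtain ⟨p, q, -, rfl⟩ := IsFractionRing.div_surjective (A := C) c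
      have e : ν ((algebraMap C K₀ p / algebraMap C K₀ q) • x) =
          (algebraMap C' K ⟨ν p, hC ⟨p, p.2, rfl⟩⟩ / algebraMap C' K ⟨ν q, hC ⟨q, q.2, rfl⟩⟩) •
            ν x := by
        rw [Algebra.smul_def, Algebra.smul_def, map_div₀, map_div₀,
          ← IsScalarTower.algebraMap_apply, ← IsScalarTower.algebraMap_apply,
          ← IsScalarTower.algebraMap_apply, ← IsScalarTower.algebraMap_apply, map_mul, map_div₀]
        rfl
      rw [e]
      exact Submodule.smul_mem _ _ hx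
  let T : Subalgebra k F' :=
    { (Algebra.adjoin K (Set.range ν)).toSubsemiring with
      algebraMap_mem' := fun c => Algebra.subset_adjoin ⟨algebraMap k F c, ν.commutes c⟩ }
  have hT : ch C' (ν '' H) (ν j) ≤ T := sup_le (fun c hc => by
      have := (Algebra.adjoin K (Set.range ν)).algebraMap_mem (algebraMap C' K ⟨c, hc⟩)
      rwa [← IsScalarTower.algebraMap_apply] at this)
    (Algebra.adjoin_le (by
      rintro _ ⟨_, ⟨a, -, rfl⟩, rfl⟩
      exact Algebra.subset_adjoin ⟨a / j, map_div₀ ν a j⟩))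
  have hT' : ∀ z ∈ T, z ∈ Submodule.span K (Set.range fun i => ν (b i)) := fun z hz => by
    have h1 : z ∈ Subalgebra.toSubmodule (Algebra.adjoin K (Set.range ν)) := hz
    rw [Algebra.adjoin_eq_span] at h1
    refine Submodule.span_le.2 (fun y hy => ?_) h1
    obtain ⟨a, rfl⟩ : y ∈ ν.range.toSubmonoid := (Submonoid.closure_le (S := ν.range.toSubmonoid)).2
      (fun _ h => h) hy
    exact hW a
  rw [linearIndependent_iff_finset_linearIndependent]
  intro s
  classical
  choose p hp q hq hq0 e using fun i : s => hF (v i)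
  have d0 : ∏ i, q i ≠ 0 := Finset.prod_ne_zero_iff.2 fun i _ => hq0 i
  have h1 : LinearIndependent K fun i : s => (∏ i, q i) * v i :=
    (((LinearIndependent.iff_fractionRing C' K).1 hv).comp _ Subtype.val_injective).map'
      (LinearMap.mulLeft K (∏ i, q i)) (LinearMap.ker_eq_bot.2 (mul_right_injective₀ d0))
  simp only [← hμ'] at hu
  have h2 := GcUpA.core f.toLinearMap (fun i => ν (b i)) hu _ h1 fun i => hT' _ (hT (by
      rw [e i, ← Finset.mul_prod_erase _ _ (Finset.mem_univ i), mul_comm (q i), mul_assoc,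
        mul_div_cancel₀ _ (hq0 i)]
      exact mul_mem (prod_mem fun l _ => hq l) (hp i)))
  refine LinearIndependent.of_comp (LinearMap.mulLeft Ω (μ' (∏ i, q i))) ?_
  have e2 : (LinearMap.mulLeft Ω (μ' (∏ i, q i)) ∘ (fun i => μ' (v i)) ∘ (Subtype.val : s → ι)) =
      fun i : s => f.toLinearMap ((∏ i, q i) * v i) := funext fun i => (map_mul μ' _ _).symm
  rwa [e2]

end Pool.Agent.MP_e8e0b6_ag.R2

end Part10

section Part11

-- part 11: Gs

/-!
Generic smoothness.
-/

set_option autoImplicit false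

namespace Pool.Agent.MP_e8e0b6_ag.R2

open Pool.Agent.MP_79c67d_ag Pool.Agent.MP_20d318_ag Pool.Agent.MP_20d318_ag.AG
  Pool.Agent.MP_20d318_ag.BV Pool.Agent.MP_20d318_ag.CB

theorem gs_stmt : GsStmt := by
  intro k L _ _ _ _ G hG hF
  let A := Algebra.adjoin k G
  have : Algebra.FiniteType k A :=
    (Subalgebra.fg_iff_finiteType A).1 (Subalgebra.fg_def.2 ⟨G, hG, rfl⟩)
  have : Algebra.FinitePresentation k A := Algebra.FinitePresentation.of_finiteType.1 this
  have : IsFractionRing A L := IsFractionRing.of_field A L fun z => by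
    obtain ⟨a, ha, b, hb, -, e⟩ := hF z
    exact ⟨⟨a, ha⟩, ⟨b, hb⟩, e⟩
  have : Algebra.EssFiniteType A L := .of_isLocalization L (nonZeroDivisors A)
  have : Algebra.EssFiniteType k L := .comp k A L
  have : IsLocalization (⊥ : Ideal A).primeCompl L := by
    rw [Ideal.primeCompl_bot]; infer_instance
  have : Algebra.IsSmoothAt k (⊥ : Ideal A) := Algebra.FormallySmooth.of_equiv
    ((IsLocalization.algEquiv (⊥ : Ideal A).primeCompl L _).restrictScalars k)
  obtain ⟨f, hf, hs⟩ := Algebra.IsSmoothAt.exists_notMem_smooth k (⊥ : Ideal A)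
  have hu : IsUnit (A.val f) := IsUnit.mk0 _ fun h => hf (Subtype.ext h)
  let φ : Localization.Away f →ₐ[k] L := IsLocalization.Away.liftAlgHom f hu
  have h1 : ∀ a : A, φ (algebraMap A _ a) = a := fun a => IsLocalization.Away.lift_eq f hu a
  have h2 : Function.Injective φ := (IsLocalization.lift_injective_iff _).2 fun x y =>
    ⟨fun h => (h1 x).symm.trans ((congrArg φ h).trans (h1 y)),
      fun h => congrArg _ (Subtype.ext h)⟩
  exact ⟨φ.range, fun a ha => ⟨_, h1 ⟨a, ha⟩⟩, .of_equiv (AlgEquiv.ofInjective φ h2)⟩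

end Pool.Agent.MP_e8e0b6_ag.R2

end Part11

section Part12

-- part 12: LvR

/-!
Existence of the base change to `L[X]`.
-/

set_option autoImplicit false

open Polynomial

namespace Pool.Agent.MP_e8e0b6_ag.R2

open Pool.Agent.MP_79c67d_ag Pool.Agent.MP_20d318_ag Pool.Agent.MP_20d318_ag.AG
  Pool.Agent.MP_20d318_ag.BV Pool.Agent.MP_20d318_ag.CB

namespace LvA

/-- An injective map on `A[X]` extends to an injective map on `L[X]`. -/
theorem inj_ext {A L E : Type} [CommRing A] [Field L] [Field E] [Algebra A L]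
    [Algebra.IsAlgebraic A L] (G : L[X] →+* E)
    (h : Function.Injective fun p : A[X] => G (p.map (algebraMap A L))) : Function.Injective G := by
  let _ : Algebra L E := (G.comp C).toAlgebra
  let _ : Algebra A E := ((G.comp C).comp (algebraMap A L)).toAlgebra
  have : IsScalarTower A L E := IsScalarTower.of_algebraMap_eq fun _ => rfl
  have e1 : ∀ p : L[X], aeval (G X) p = G p := fun p => by
    induction p using Polynomial.induction_on' with
    | add p q hp hq => rw [map_add, map_add, hp, hq]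
    | monomial n a =>
      rw [aeval_monomial, ← C_mul_X_pow_eq_monomial, map_mul, map_pow]
      rfl
  have e2 : ∀ p : A[X], aeval (G X) p = G (p.map (algebraMap A L)) := fun p => by
    rw [← e1 (p.map (algebraMap A L)), aeval_map_algebraMap]
  have t1 : Transcendental A (G X) := by
    rw [transcendental_iff_injective]
    intro p q hpq
    rw [e2, e2] at hpq
    exact h hpq
  have t2 := transcendental_iff_injective.1 (t1.extendScalars L)
  intro p q hpq
  rw [← e1 p, ← e1 q] at hpq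
  exact t2 hpq

/-- A map of fields factors through a map with larger range. -/
theorem factor {k F F₀ E : Type} [Field k] [Field F] [Field F₀] [Field E] [Algebra k F]
    [Algebra k F₀] [Algebra k E] (μ : F →ₐ[k] E) (μ₀ : F₀ →ₐ[k] E) (h : ∀ z, μ z ∈ μ₀.range) :
    ∃ ν : F →ₐ[k] F₀, μ₀.comp ν = μ := by
  refine ⟨(AlgEquiv.ofInjective μ₀ μ₀.toRingHom.injective).symm.toAlgHom.comp
    (μ.codRestrict μ₀.range h), AlgHom.ext fun z => ?_⟩
  have := AlgEquiv.ofInjective_apply μ₀ μ₀.toRingHom.injective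
    ((AlgEquiv.ofInjective μ₀ μ₀.toRingHom.injective).symm (μ.codRestrict μ₀.range h z))
  rw [AlgEquiv.apply_symm_apply] at this
  exact this.symm

end LvA

open LvA in
theorem lv_stmt (h1 : MkfStmt) (h2 : GcUpStmt) : LvStmt := by
  intro k A L F Ω E J _ _ _ _ _ _ _ _ _ _ _ _ _ _ _ _ _ g H μ S' e ts he
  let φ : L →ₐ[k] E := (IsScalarTower.toAlgHom k Ω E).comp e
  let G : L[X] →ₐ[k] E := eval₂AlgHom φ (μ (g X)) fun a => Commute.all _ _
  have GC : ∀ a, G (C a) = algebraMap Ω E (e a) := fun a => eval₂_C _ _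
  have GX : G X = μ (g X) := eval₂_X _ _
  have Gm : ∀ p : A[X], G (p.map (algebraMap A L)) = μ (g p) := fun p => by
    induction p using Polynomial.induction_on' with
    | add p q hp hq => rw [Polynomial.map_add, map_add, map_add, map_add, hp, hq]
    | monomial n a =>
      rw [map_monomial, ← C_mul_X_pow_eq_monomial, ← C_mul_X_pow_eq_monomial]
      simp only [map_mul, map_pow, GC, GX, he]
  have μi : Function.Injective μ := μ.toRingHom.injective
  have Gi : Function.Injective G := inj_ext (A := A) G.toRingHom fun p q hpq =>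
    ts.inj (μi ((Gm p).symm.trans (hpq.trans (Gm q))))
  obtain ⟨F₀, _, _, μ₀, g₀, H', hH, hg, fr⟩ := h1 k L[X] E G (μ '' H) ⟨1, ts.one, map_one μ⟩ (by
    rintro _ ⟨a, ha, rfl⟩
    exact (map_ne_zero μ).2 (ts.fm.nz a ha))
  have μ₀i : Function.Injective μ₀ := μ₀.toRingHom.injective
  have hg' : ∀ p, μ₀ (g₀ p) = G p := fun p => DFunLike.congr_fun hg p
  have le : ch g.range H 1 ≤ μ₀.range.comap μ := by
    refine sup_le ?_ (Algebra.adjoin_le ?_)
    · rintro _ ⟨p, rfl⟩
      exact ⟨g₀ (p.map (algebraMap A L)), (hg' _).trans (Gm p)⟩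
    · rintro _ ⟨a, ha, rfl⟩
      obtain ⟨b, -, hb⟩ : μ a ∈ μ₀ '' H' := hH ▸ ⟨a, ha, rfl⟩
      exact ⟨b, hb.trans (congrArg μ (div_one a).symm)⟩
  obtain ⟨ν, hν⟩ := factor μ μ₀ fun z => by
    obtain ⟨a, ha, b, hb, -, rfl⟩ := ts.fm.frac 1 ts.one z
    obtain ⟨a', ha'⟩ := le ha
    obtain ⟨b', hb'⟩ := le hb
    refine ⟨a' / b', ?_⟩
    change μ₀ a' = μ a at ha'
    change μ₀ b' = μ b at hb'
    change μ₀ (a' / b') = μ (a / b)
    rw [map_div₀, map_div₀, ha', hb']
  have hν' : ∀ z, μ₀ (ν z) = μ z := fun z => DFunLike.congr_fun hν z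
  have eH : ν '' H = H' := by
    apply μ₀i.image_injective
    rw [hH, Set.image_image]
    simp only [hν']
  subst eH
  have cmp : ∀ p, g₀ (p.map (algebraMap A L)) = ν (g p) := fun p =>
    μ₀i ((hg' _).trans ((Gm p).trans (hν' _).symm))
  have fr' : ∀ j ∈ H, Frac (ch g₀.range (ν '' H) (ν j)) := fun j hj => fr _ ⟨j, hj, rfl⟩
  refine ⟨F₀, _, _, g₀, ν, μ₀, ⟨fun p q hpq => Gi ?_, cmp, hν, fun a => (hg' _).trans (GC a), fr'⟩,
    h2 k F F₀ Ω E J g.range H μ S' ν μ₀ g₀.range ts.gc hν ?_ ?_ ⟨1, ts.one, fr' 1 ts.one⟩⟩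
  · rw [← hg', ← hg', hpq]
  · rintro _ ⟨_, ⟨p, rfl⟩, rfl⟩
    exact ⟨_, cmp p⟩
  · rintro _ ⟨p, rfl⟩
    obtain ⟨t, ht⟩ := ts.gc.base (g X) ⟨X, rfl⟩
    change μ₀ (g₀ p) ∈ _
    rw [hg']
    induction p using Polynomial.induction_on' with
    | add p q hp hq =>
      obtain ⟨a, ha⟩ := hp
      obtain ⟨b, hb⟩ := hq
      exact ⟨a + b, by rw [map_add, map_add, ha, hb]⟩
    | monomial n a =>
      refine ⟨e a * t ^ n, ?_⟩
      rw [← C_mul_X_pow_eq_monomial, map_mul, map_mul, map_pow, map_pow, GC, GX, ht]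

end Pool.Agent.MP_e8e0b6_ag.R2

end Part12
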