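import Pool.Agent.MP_e8e0b6_ag.R2.SpecT

section Part1

-- part 1: LzR

/-!
Localisation of the base of a family.
-/

set_option autoImplicit false

namespace Pool.Agent.MP_e8e0b6_ag.R2

open Pool.Agent.MP_79c67d_ag Pool.Agent.MP_20d318_ag Pool.Agent.MP_20d318_ag.AG
  Pool.Agent.MP_20d318_ag.BV Pool.Agent.MP_20d318_ag.CB

namespace LzA

variable {k F : Type} [Field k] [Field F] [Algebra k F] {C D : Subalgebra k F}

/-- Fractions with numerator in `B` and denominator in `B` invertible in `B'`. -/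
def fr (B B' : Subalgebra k F) : Subalgebra k F where
  carrier := {f | ∃ a ∈ B, ∃ b ∈ B, IsU B' b ∧ f = a / b}
  mul_mem' := by
    rintro _ _ ⟨a, ha, b, hb, u, rfl⟩ ⟨a', ha', b', hb', u', rfl⟩
    exact ⟨a * a', B.mul_mem ha ha', b * b', B.mul_mem hb hb', u.mul u', div_mul_div_comm _ _ _ _⟩
  add_mem' := by
    rintro _ _ ⟨a, ha, b, hb, u, rfl⟩ ⟨a', ha', b', hb', u', rfl⟩
    exact ⟨a * b' + b * a', B.add_mem (B.mul_mem ha hb') (B.mul_mem hb ha'), b * b',
      B.mul_mem hb hb', u.mul u', div_add_div _ _ u.1 u'.1⟩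
  algebraMap_mem' c := ⟨_, B.algebraMap_mem c, 1, B.one_mem, isU_one, (div_one _).symm⟩

theorem sup (h : Lz C D) (A : Subalgebra k F) : Lz (C ⊔ A) (D ⊔ A) := by
  refine ⟨sup_le_sup_right h.1 A, ?_⟩
  have : D ⊔ A ≤ fr (C ⊔ A) (D ⊔ A) := sup_le
    (fun f hf => by
      obtain ⟨a, ha, b, hb, u, e⟩ := h.2 f hf
      exact ⟨a, le_sup_left (a := C) ha, b, le_sup_left (a := C) hb, u.mono le_sup_left, e⟩)
    fun f hf => ⟨f, le_sup_right (a := C) hf, 1, one_mem _, isU_one, (div_one _).symm⟩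
  exact fun f hf => this hf

theorem pts (h : Lz C D) {O : Subalgebra k F} (hO : O ∈ Pts D) : O ∈ Pts C := by
  refine ⟨hO.1, h.1.trans hO.2.1, fun f hf => ?_⟩
  obtain ⟨a, ha, b, hb, u, rfl⟩ := hO.2.2 f hf
  obtain ⟨a1, ha1, a2, ha2, u1, rfl⟩ := h.2 a ha
  obtain ⟨b1, hb1, b2, hb2, u2, rfl⟩ := h.2 b hb
  have u3 : IsU O b1 := by
    have := u.mul (u2.mono hO.2.1)
    rwa [div_mul_cancel₀ _ u2.1] at this
  exact ⟨a1 * b2, C.mul_mem ha1 hb2, a2 * b1, C.mul_mem ha2 hb1, (u1.mono hO.2.1).mul u3,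
    div_div_div_eq _ _ _ _⟩

/-- The elements of `C` that are invertible in `D`. -/
def den (C D : Subalgebra k F) : Submonoid C where
  carrier := {c | IsU D c}
  mul_mem' ha hb := ha.mul hb
  one_mem' := isU_one

theorem loc (h : Lz C D) : @IsLocalization C _ (den C D) D _
    (Subalgebra.inclusion h.1).toRingHom.toAlgebra := by
  letI := (Subalgebra.inclusion h.1).toRingHom.toAlgebra
  refine (isLocalization_iff _ _).2 ⟨fun y => (isU_iff_isUnit _).1 y.2, fun z => ?_,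
    fun {x y} e => ⟨1, ?_⟩⟩
  · obtain ⟨a, ha, b, hb, u, e⟩ := h.2 z z.2
    refine ⟨(⟨a, ha⟩, ⟨⟨b, hb⟩, u⟩), Subtype.ext ?_⟩
    show (z : F) * b = a
    rw [e, div_mul_cancel₀ _ u.1]
  · rw [Subalgebra.inclusion_injective h.1 e]

theorem flat (h : Lz C D) {O : Subalgebra k F} (hD : D ≤ O)
    (hf : (Subalgebra.inclusion (h.1.trans hD)).toRingHom.Flat) :
    (Subalgebra.inclusion hD).toRingHom.Flat := by
  letI := (Subalgebra.inclusion h.1).toRingHom.toAlgebra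
  letI := (Subalgebra.inclusion hD).toRingHom.toAlgebra
  letI := (Subalgebra.inclusion (h.1.trans hD)).toRingHom.toAlgebra
  haveI : IsScalarTower C D O := IsScalarTower.of_algebraMap_eq fun _ => rfl
  haveI := loc h
  exact (Module.flat_iff_of_isLocalization D (den C D) O).2 hf

end LzA

theorem lz_stmt : LzStmt := by
  intro k F _ _ _ C D H h
  have h1 : XX D H ⊆ XX C H := fun O ⟨j, hj, hO⟩ => ⟨j, hj, LzA.pts (LzA.sup h _) hO⟩
  refine ⟨h1, fun O ⟨j, hj, hO⟩ hD => ⟨j, hj, Pts_of_le hO (sup_le_sup_right h.1 _)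
    (sup_le hD (le_sup_right.trans hO.2.1))⟩, fun fm => ⟨fm.fin, fm.ne, fm.nz,
    fun j hj => (fm.frac j hj).mono (sup_le_sup_right h.1 _), ?_,
    fun R hR => fm.ufdC R (LzA.pts h hR), fun O hO => fm.ufd O (h1 hO),
    fun R hR => fm.fib R (LzA.pts h hR), fun O hO hD => LzA.flat h hD (fm.flat O (h1 hO) _)⟩⟩
  letI := (Subalgebra.inclusion h.1).toRingHom.toAlgebra
  haveI := LzA.loc h
  exact IsLocalization.isNoetherianRing (LzA.den C D) D fm.noeth

end Pool.Agent.MP_e8e0b6_ag.R2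

end Part1

section Part2

-- part 2: Mkf

/-!
The function field of the family over a given base.
-/

set_option autoImplicit false

namespace Pool.Agent.MP_e8e0b6_ag.R2

open Pool.Agent.MP_79c67d_ag Pool.Agent.MP_20d318_ag Pool.Agent.MP_20d318_ag.AG
  Pool.Agent.MP_20d318_ag.BV Pool.Agent.MP_20d318_ag.CB

theorem mkf_stmt : MkfStmt := by
  intro k A E _ _ _ _ _ g H₀ h1 h0
  let F := IntermediateField.adjoin k (Set.range g ∪ H₀)
  have hH : ∀ a ∈ H₀, a ∈ F := fun a ha => IntermediateField.subset_adjoin k _ (Or.inr ha)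
  let g' : A →ₐ[k] F := g.codRestrict F.toSubalgebra fun a =>
    IntermediateField.subset_adjoin k _ (Or.inl ⟨a, rfl⟩)
  refine ⟨F, inferInstance, inferInstance, F.val, g', F.val ⁻¹' H₀,
    Set.image_preimage_eq_of_subset fun a ha => ⟨⟨a, hH a ha⟩, rfl⟩, rfl, fun j hj f => ?_⟩
  let R := ch g'.range (F.val ⁻¹' H₀) j
  let T := IntermediateField.adjoin k (R : Set F)
  have h2 : ∀ a ∈ F.val ⁻¹' H₀, a / j ∈ T := fun a ha => IntermediateField.subset_adjoin k _
    ((le_sup_right : _ ≤ R) (Algebra.subset_adjoin ⟨a, ha, rfl⟩))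
  have hj0 : j ≠ 0 := fun e => h0 _ hj (by rw [e, map_zero])
  have h3 : F ≤ T.map F.val := IntermediateField.adjoin_le_iff.2 (by
    rintro _ (⟨a, rfl⟩ | ha)
    · exact ⟨g' a, IntermediateField.subset_adjoin k _ ((le_sup_left : _ ≤ R) ⟨a, rfl⟩), rfl⟩
    · refine ⟨⟨_, hH _ ha⟩, ?_, rfl⟩
      have := div_mem (h2 ⟨_, hH _ ha⟩ ha) (h2 1 h1)
      rwa [div_div_div_cancel_right₀ hj0, div_one] at this)
  obtain ⟨f', h4, h5⟩ := h3 f.2
  obtain rfl : f' = f := Subtype.ext h5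
  obtain ⟨r, hr, s, hs, rfl⟩ := IntermediateField.mem_adjoin_iff_div.1 h4
  rw [Algebra.adjoin_eq] at hr hs
  by_cases e : s = 0
  · exact ⟨0, zero_mem _, 1, one_mem _, one_ne_zero, by rw [e, div_zero, zero_div]⟩
  · exact ⟨r, hr, s, hs, e, rfl⟩

end Pool.Agent.MP_e8e0b6_ag.R2

end Part2

section Part3

-- part 3: Pt

/-!
The fixed point.
-/

set_option autoImplicit false

open Polynomial
open scoped TensorProduct

namespace Pool.Agent.MP_e8e0b6_ag.R2

open Pool.Agent.MP_79c67d_ag Pool.Agent.MP_20d318_ag Pool.Agent.MP_20d318_ag.AG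
  Pool.Agent.MP_20d318_ag.BV Pool.Agent.MP_20d318_ag.CB

namespace PtA

variable {k A K L B F₀ : Type} [Field k] [CommRing A] [Field K] [Field L] [CommRing B] [Field F₀]
  [Algebra k K] [Algebra k L] [Algebra A L] [Algebra A K] [IsFractionRing A K] [Algebra K L]
  [IsScalarTower A K L] [FiniteDimensional K L] [IsGalois K L] [Algebra k B] [Algebra k F₀]

/-- Linear disjointness by means of the trace. -/
theorem ker_le (i : L →ₐ[k] F₀) (n : B →ₐ[k] F₀) (hn : Function.Injective n) (e : K →ₐ[k] L)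
    (he : ∀ c, e c = algebraMap K L c) (θ : B →ₐ[k] K) (γ : A → B)
    (h1 : ∀ α, n (γ α) = i (algebraMap A L α)) (h2 : ∀ α, θ (γ α) = algebraMap A K α)
    (a : (L ≃ₐ[K] L) → (F₀ ≃ₐ[k] F₀)) (h3 : ∀ σ c, a σ (i c) = i (σ c))
    (h4 : ∀ σ b, a σ (n b) = n b) (t : L ⊗[k] B)
    (h : Algebra.TensorProduct.productMap i n t = 0) :
    Algebra.TensorProduct.productMap (AlgHom.id k L) (e.comp θ) t = 0 := by
  have key : ∀ (v : L) (t : L ⊗[k] B), ∃ β : A, algebraMap A K β ≠ 0 ∧ ∃ b : B,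
      n (γ β) * ∑ σ, a σ (i v * Algebra.TensorProduct.productMap i n t) = n b ∧
      algebraMap A K β * Algebra.trace K L
        (v * Algebra.TensorProduct.productMap (AlgHom.id k L) (e.comp θ) t) = θ b := by
    intro v t
    induction t using TensorProduct.induction_on with
    | zero => exact ⟨1, by simp, 0, by simp⟩
    | tmul c b =>
      obtain ⟨⟨α, β⟩, hab⟩ := IsLocalization.surj (nonZeroDivisors A) (Algebra.trace K L (v * c))
      refine ⟨β, (IsLocalization.map_units K β).ne_zero, γ α * b, ?_, ?_⟩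
      · simp only [Algebra.TensorProduct.productMap_apply_tmul, ← mul_assoc, ← map_mul i,
          map_mul (a _), h3, h4]
        rw [← Finset.sum_mul, ← map_sum, ← trace_eq_sum_automorphisms, map_mul n, h1, h1,
          ← mul_assoc, ← map_mul i, IsScalarTower.algebraMap_apply A K L,
          ← map_mul (algebraMap K L), mul_comm _ (Algebra.trace K L _), hab,
          ← IsScalarTower.algebraMap_apply]
      · rw [Algebra.TensorProduct.productMap_apply_tmul, AlgHom.id_apply, AlgHom.comp_apply, he,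
          ← mul_assoc, mul_comm (v * c), ← Algebra.smul_def (θ b), map_smul, smul_eq_mul,
          map_mul θ, h2, ← hab]
        ring
    | add t t' ht ht' =>
      obtain ⟨β, h0, b, e1, e2⟩ := ht
      obtain ⟨β', h0', b', e1', e2'⟩ := ht'
      have h5 : n (γ (β * β')) = n (γ β) * n (γ β') := by rw [h1, h1, h1, map_mul, map_mul]
      refine ⟨β * β', by rw [map_mul]; exact mul_ne_zero h0 h0', γ β' * b + γ β * b', ?_, ?_⟩
      · simp only [map_add, mul_add, Finset.sum_add_distrib, map_mul n, h5, ← e1, ← e1']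
        ring
      · simp only [map_add, mul_add, map_mul θ, map_mul (algebraMap A K), h2, ← e2, ← e2']
        ring
  refine (traceForm_nondegenerate K L).1 _ fun v => ?_
  obtain ⟨β, h0, b, e1, e2⟩ := key v t
  obtain rfl : b = 0 := hn (by simpa [h] using e1.symm)
  rw [map_zero, mul_eq_zero, mul_comm] at e2
  exact e2.resolve_left h0

end PtA

theorem pt_stmt : PtStmt := by
  intro k A K L F F₀ _ _ _ _ _ _ _ _ _ _ _ _ _ _ _ _ _ _ _ _ g H g₀ ν a j θ hg hν ha hz hj hθ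
  let e : K →ₐ[k] L := ⟨algebraMap K L, fun c => by
    change algebraMap K L _ = _
    rw [IsScalarTower.algebraMap_apply k A K, ← IsScalarTower.algebraMap_apply,
      ← IsScalarTower.algebraMap_apply]⟩
  have hm : ∀ p, g p ∈ ch g.range H j := fun p => (le_sup_left : _ ≤ ch _ H j) ⟨p, rfl⟩
  let i : L →ₐ[k] F₀ := g₀.comp CAlgHom
  let n := ν.comp (ch g.range H j).val
  let Φ := Algebra.TensorProduct.productMap i n
  let Ψ := Algebra.TensorProduct.productMap (AlgHom.id k L) (e.comp θ)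
  have hk : ∀ t, Φ t = 0 → Ψ t = 0 := PtA.ker_le i n (ν.injective.comp Subtype.val_injective) e
    (fun _ => rfl) θ (fun α => ⟨g (C α), hm _⟩)
    (fun α => (hν (C α)).symm.trans (congrArg g₀ (map_C _))) (fun α => by rw [hθ, eval_C]) a ha
    fun σ b => hz σ b
  have hi : ∀ c, Φ (c ⊗ₜ 1) = g₀ (C c) := fun c => Algebra.TensorProduct.productMap_left_apply i n c
  have hn : ∀ b, Φ (1 ⊗ₜ b) = ν b := fun b => Algebra.TensorProduct.productMap_right_apply i n b
  have E : ch g₀.range (ν '' H) (ν j) = Φ.range := by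
    refine le_antisymm (sup_le ?_ (Algebra.adjoin_le ?_)) ?_
    · rintro _ ⟨p, rfl⟩
      change g₀ p ∈ _
      induction p using Polynomial.induction_on' with
      | add p q hp hq => rw [map_add]; exact add_mem hp hq
      | monomial m c =>
        rw [← C_mul_X_pow_eq_monomial, map_mul, map_pow]
        have h1 : g₀ X ∈ Φ.range :=
          ⟨_, (hn ⟨_, hm X⟩).trans ((hν X).symm.trans (congrArg g₀ (map_X _)))⟩
        exact mul_mem ⟨_, hi c⟩ (pow_mem h1 m)
    · rintro _ ⟨_, ⟨x, hx, rfl⟩, rfl⟩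
      exact ⟨_, (hn ⟨x / j, (le_sup_right : _ ≤ ch _ H j)
        (Algebra.subset_adjoin ⟨x, hx, rfl⟩)⟩).trans (map_div₀ ν x j)⟩
    · have h1 : ch g.range H j ≤ (ch g₀.range (ν '' H) (ν j)).comap ν := by
        refine sup_le ?_ (Algebra.adjoin_le ?_)
        · rintro _ ⟨p, rfl⟩
          exact (le_sup_left : _ ≤ ch g₀.range (ν '' H) (ν j)) ⟨_, hν p⟩
        · rintro _ ⟨x, hx, rfl⟩
          exact (le_sup_right : _ ≤ ch g₀.range (ν '' H) (ν j))
            (Algebra.subset_adjoin ⟨_, ⟨x, hx, rfl⟩, (map_div₀ ν x j).symm⟩)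
      rintro _ ⟨t, rfl⟩
      change Φ t ∈ _
      induction t using TensorProduct.induction_on with
      | zero => rw [map_zero]; exact zero_mem _
      | tmul c b => exact mul_mem ((le_sup_left : _ ≤ ch _ _ _) ⟨C c, rfl⟩) (h1 b.2)
      | add t t' ht ht' => rw [map_add]; exact add_mem ht ht'
  have act : ∀ σ t, ∃ t', Φ t' = a σ (Φ t) ∧ Ψ t' = σ (Ψ t) := fun σ t => by
    induction t using TensorProduct.induction_on with
    | zero => exact ⟨0, by simp⟩
    | tmul c b =>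
      refine ⟨σ c ⊗ₜ b, ?_, ?_⟩
      · change g₀ (C (σ c)) * ν b = a σ (g₀ (C c) * ν b)
        rw [map_mul, ha, hz]
      · change σ c * algebraMap K L (θ b) = σ (c * algebraMap K L (θ b))
        rw [map_mul, σ.commutes]
    | add t s ht hs =>
      obtain ⟨t', h1, h2⟩ := ht
      obtain ⟨s', h3, h4⟩ := hs
      exact ⟨t' + s', by simp only [map_add, h1, h3], by simp only [map_add, h2, h4]⟩
  let θ₀ : Φ.range →ₐ[k] L := AlgHom.liftOfSurjective Φ.rangeRestrict Φ.rangeRestrict_surjective Ψ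
    fun t ht => hk t (congrArg Subtype.val ht)
  obtain ⟨O, hO, ρ, hρ, h1⟩ := exists_ext θ₀
  have h2 : ∀ t, Φ t ∈ O := fun t => hO.2.1 ⟨t, rfl⟩
  have h3 : ∀ t, evO O ρ (Φ t) = Ψ t := fun t => by
    rw [h1 (Φ t) ⟨t, rfl⟩, evO_of_mem θ₀ (u := Φ t) ⟨t, rfl⟩]
    exact AlgHom.liftOfSurjective_apply _ _ _ _ t
  refine ⟨O, ⟨ν j, ⟨j, hj, rfl⟩, E ▸ hO⟩, (i.comp ρ : O →ₐ[k] F₀), fun z => ⟨C (ρ z), rfl⟩,
    ?_, fun σ z => ?_⟩
  · rintro z ⟨h0, ⟨p, hp⟩, q, hq⟩
    have h4 : p * q = 1 := hg (by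
      rw [map_mul, map_one]
      exact (congrArg₂ (· * ·) hp hq).trans (mul_inv_cancel₀ h0))
    obtain ⟨c, -, rfl⟩ := Polynomial.isUnit_iff.1 (IsUnit.of_mul_eq_one q h4)
    have h5 : (z : F₀) = Φ (c ⊗ₜ 1) := hp.symm.trans (hi c).symm
    change g₀ (C (ρ z)) = z
    rw [← evO_coe, h5, h3, hi, Algebra.TensorProduct.productMap_left_apply]
    rfl
  · obtain ⟨_, ⟨t, rfl⟩, _, ⟨s, rfl⟩, hu, hts⟩ := hO.2.2 z z.2
    obtain ⟨t', e1, e2⟩ := act σ t
    obtain ⟨s', e3, e4⟩ := act σ s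
    have hu : IsU O (Φ s) := hu
    have hu' : IsU O (Φ s') := hρ ⟨_, h2 s'⟩ (by
      rw [← evO_of_mem, h3, e4, _root_.map_ne_zero, ← h3]; exact evO_ne ρ hu)
    have h4 : (z : F₀) = Φ t / Φ s := hts
    have h5 : a σ z = Φ t' / Φ s' := by rw [h4, map_div₀, e1, e3]
    refine ⟨h5 ▸ hu'.div_mem (h2 t'), ?_⟩
    change g₀ (C (ρ _)) = a σ (g₀ (C (ρ z)))
    rw [ha, ← evO_of_mem, ← evO_coe, h5, h4, evO_div ρ (h2 t') hu', evO_div ρ (h2 t) hu, h3, h3, h3,
      h3, map_div₀ σ, e2, e4]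

end Pool.Agent.MP_e8e0b6_ag.R2

end Part3

section Part4

-- part 4: RatGen

set_option autoImplicit false

open Polynomial

namespace Pool.Agent.MP_e8e0b6_ag.R2

open Pool.Agent.MP_79c67d_ag Pool.Agent.MP_20d318_ag Pool.Agent.MP_20d318_ag.AG
  Pool.Agent.MP_20d318_ag.BV Pool.Agent.MP_20d318_ag.CB

namespace RatGenA
variable {k F Ω E J : Type} [Field k] [Field F] [Field Ω] [Field E] [Algebra k F]
  [Algebra k E] [Algebra Ω E] [Fintype J] {μ : F →ₐ[k] E} {S : Sd Ω E J}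

theorem one : Cl S (μ '' {1}) 0 := ⟨1, one_ne_zero, fun O _ => by
  rw [Sd.lb_zero, inv_one, mul_one]
  exact gn_one (by simp) ⟨1, by simp, isU_one⟩⟩

theorem mul (h : SAll S) {U V : Set F} {c c' : J → ℤ} (a : Cl S (μ '' U) c) (b : Cl S (μ '' V) c') :
    Cl S (μ '' Set.image2 (· * ·) U V) (c + c') := by
  obtain ⟨φ, h1, g⟩ := a
  obtain ⟨ψ, h2, g'⟩ := b
  refine ⟨φ * ψ, mul_ne_zero h1 h2, fun O hO => ?_⟩
  rw [S.lb_add (h.a1.gne O hO), mul_inv, mul_mul_mul_comm]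
  constructor
  · rintro _ ⟨_, ⟨x, hx, y, hy, rfl⟩, rfl⟩
    rw [map_mul, mul_div_mul_comm]
    exact O.mul_mem ((g O hO).1 _ ⟨x, hx, rfl⟩) ((g' O hO).1 _ ⟨y, hy, rfl⟩)
  · obtain ⟨_, ⟨x, hx, rfl⟩, u⟩ := (g O hO).2
    obtain ⟨_, ⟨y, hy, rfl⟩, v⟩ := (g' O hO).2
    refine ⟨_, ⟨_, ⟨x, hx, y, hy, rfl⟩, rfl⟩, ?_⟩
    rw [map_mul, mul_div_mul_comm]
    exact u.mul v

/-- The differences of classes of systems. -/
def sub (μ : F →ₐ[k] E) (h : SAll S) : AddSubgroup (J → ℤ) where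
  carrier := {c | ∃ (U V : Set F) (c₁ c₂ : J → ℤ), U.Finite ∧ V.Finite ∧ Cl S (μ '' U) c₁ ∧
    Cl S (μ '' V) c₂ ∧ c = c₁ - c₂}
  zero_mem' := ⟨{1}, {1}, 0, 0, Set.finite_singleton _, Set.finite_singleton _, one, one, by simp⟩
  add_mem' := by
    rintro _ _ ⟨U, V, c₁, c₂, f1, f2, a1, a2, rfl⟩ ⟨U', V', d₁, d₂, g1, g2, b1, b2, rfl⟩
    exact ⟨_, _, _, _, f1.image2 _ g1, f2.image2 _ g2, mul h a1 b1, mul h a2 b2, by abel⟩
  neg_mem' := by
    rintro _ ⟨U, V, c₁, c₂, f1, f2, a1, a2, rfl⟩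
    exact ⟨V, U, c₂, c₁, f2, f1, a2, a1, neg_sub _ _⟩

end RatGenA

theorem ratGen_stmt : RatGenStmt := by
  intro k F Ω E J _ _ _ _ _ _ _ _ _ μ S h hi c
  have e : c = ∑ i, c i • (Pi.single i 1 : J → ℤ) := by
    ext j
    simp [Finset.sum_apply, Pi.single_apply]
  have : c ∈ RatGenA.sub μ h := by
    rw [e]
    exact sum_mem fun i _ => zsmul_mem (show Pi.single i 1 ∈ RatGenA.sub μ h from hi i) _
  exact this

end Pool.Agent.MP_e8e0b6_ag.R2

end Part4

section Part5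

-- part 5: Reg

/-!
Global functions on the family come from the base.
-/

set_option autoImplicit false

namespace Pool.Agent.MP_e8e0b6_ag.R2

open Pool.Agent.MP_79c67d_ag Pool.Agent.MP_20d318_ag Pool.Agent.MP_20d318_ag.AG
  Pool.Agent.MP_20d318_ag.BV Pool.Agent.MP_20d318_ag.CB

namespace RegA

variable {k F : Type} [Field k] [Field F] [Algebra k F] {C R O : Subalgebra k F} {H : Set F}

theorem xx_le (h : O ∈ XX C H) : C ≤ O := le_sup_left.trans h.choose_spec.2.2.1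

theorem xx_of (hR : R ∈ Pts C) (h : O ∈ XX R H) : O ∈ XX C H := by
  have hRO := xx_le h
  obtain ⟨j, hj, hO⟩ := h
  have h1 : ch C H j ≤ O := (sup_le_sup_right hR.2.1 _).trans hO.2.1
  have h2 : ch R H j ≤ fr (ch C H j) O := sup_le (fun r hr => by
    obtain ⟨a, ha, b, hb, hu, rfl⟩ := hR.2.2 r hr
    exact ⟨a, (le_sup_left : C ≤ _) ha, b, (le_sup_left : C ≤ _) hb, hu.mono hRO, rfl⟩)
    (le_sup_right.trans le_fr)
  refine ⟨j, hj, hO.1, h1, fun f hf => ?_⟩
  obtain ⟨a, ha, b, hb, hu, rfl⟩ := hO.2.2 f hf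
  exact div_mem_fr (h2 ha) (h2 hb) h1 hu

/-- A fraction that lies in a flat local extension has a denominator that is a unit there. -/
theorem den (hO : IsLocalRing O) (h : C ≤ O) (hf : (Subalgebra.inclusion h).toRingHom.Flat)
    {m : F} (hm : m ∈ O) {s t : C} (ht : t ≠ 0) (e : (s : F) + t * m = 0) :
    ∃ c ∈ C, IsU O c ∧ c * m ∈ C := by
  let _ := (Subalgebra.inclusion h).toRingHom.toAlgebra
  have : Module.Flat C O := hf
  obtain ⟨n, a, y, h1, h2⟩ := Module.Flat.isTrivialRelation_of_sum_smul_eq_zero (R := C) (M := O)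
    (f := ![s, t]) (x := ![1, ⟨m, hm⟩]) (Subtype.ext (by
      rw [Fin.sum_univ_two]
      exact (congrArg (· + _) (mul_one (s : F))).trans e))
  by_contra hn
  have h3 : ∀ j, (a 0 j : F) ∈ mx O := fun j => ⟨h (a 0 j).2, fun hu => hn ⟨_, (a 0 j).2, hu, by
    have e2 : (s : F) * a 0 j + t * a 1 j = 0 := by
      have := congrArg Subtype.val (h2 j)
      rwa [Fin.sum_univ_two] at this
    rw [show (a 0 j : F) * m = a 1 j from mul_left_cancel₀ (fun h0 => ht (Subtype.ext h0))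
      (by linear_combination (a 0 j : F) * e - e2 : (t : F) * _ = t * _)]
    exact (a 1 j).2⟩⟩
  have h4 : (1 : F) = ∑ j, (a 0 j : F) * y j :=
    (congrArg Subtype.val (h1 0)).trans (AddSubmonoidClass.coe_finsetSum _ _)
  exact one_not_mem_mx (h4 ▸ mx_sum hO fun j _ => mx_mul_right (h3 j) (y j).2)

end RegA

open RegA in
theorem reg_stmt (h1 : CtrStmt) : RegStmt := by
  intro k F Ω E J _ _ _ _ _ _ _ _ C H μ S' fm gc all m hm
  obtain ⟨a, ha⟩ := all.a2.const (μ m) fun O' hO' => by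
    obtain ⟨O, hO, h⟩ := h1 k F Ω E C H μ gc.base O' (gc.eq ▸ hO')
    exact h m (hm O hO)
  obtain ⟨s, t, e, ht⟩ : ∃ s t : C, (s : F) + t * m = 0 ∧ t ≠ 0 := by
    by_contra hn
    have := Fintype.linearIndependent_iff.1 (gc.ld _ ![1, m] (LinearIndependent.pair_iff.2
      fun s t e => by
        have e' : (s : F) + t * m = 0 := (congrArg (· + _) (mul_one (s : F))).symm.trans e
        obtain rfl : t = 0 := by_contra fun h => hn ⟨s, t, e', h⟩
        exact ⟨Subtype.ext (by simpa using e'), rfl⟩)) ![-a, 1]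
      (by simp [ha, Algebra.smul_def]) 1
    simp at this
  let I : Ideal C :=
    { carrier := {c | (c : F) * m ∈ C}
      add_mem' := fun {a b} ha hb => by simpa [add_mul] using C.add_mem ha hb
      zero_mem' := by simp
      smul_mem' := fun c a ha => by simpa [mul_assoc] using C.mul_mem c.2 ha }
  by_contra hn
  obtain ⟨M, hM, hI⟩ := I.exists_le_maximal fun h => hn (by
    simpa using show ((1 : C) : F) * m ∈ C from (I.eq_top_iff_one).1 h)
  have mem : ∀ c : C, (c : F) ∈ Subtype.val '' (M : Set C) ↔ c ∈ M := fun c =>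
    Subtype.val_injective.mem_set_image
  obtain ⟨R, hR, hU⟩ := exists_loc C (Subtype.val '' (M : Set C)) ((mem 0).2 M.zero_mem)
    (fun h => hM.ne_top ((M.eq_top_iff_one).2 ((mem 1).1 h)))
    (fun a ha b hb u v => (mem (⟨a, ha⟩ + ⟨b, hb⟩)).2
      (M.add_mem ((mem ⟨a, ha⟩).1 u) ((mem ⟨b, hb⟩).1 v)))
    fun a ha b hb => (mem (⟨a, ha⟩ * ⟨b, hb⟩)).trans (hM.isPrime.mul_mem_iff_mem_or_mem.trans
      (or_congr (mem ⟨a, ha⟩) (mem ⟨b, hb⟩)).symm)
  obtain ⟨ξ, hξ⟩ := fm.fib R hR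
  have hx := xx_of hR hξ.mem
  obtain ⟨c, hc, hu, h⟩ := RegA.den hx.choose_spec.2.1 (xx_le hx) (fm.flat ξ hx _) (hm ξ hx) ht e
  exact (hU c hc).1 (hξ.dom.2 c (hR.2.1 hc) hu) ((mem ⟨c, hc⟩).2 (hI h))

end Pool.Agent.MP_e8e0b6_ag.R2

end Part5

section Part6

-- part 6: SemiR

/-!
A semilinear automorphism that fixes the coordinates permutes the points.
-/

set_option autoImplicit false

open Polynomial

namespace Pool.Agent.MP_e8e0b6_ag.R2

open Pool.Agent.MP_79c67d_ag Pool.Agent.MP_20d318_ag Pool.Agent.MP_20d318_ag.AG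
  Pool.Agent.MP_20d318_ag.BV Pool.Agent.MP_20d318_ag.CB

namespace SemiA

variable {Ω E : Type} [Field Ω] [Field E] [Algebra Ω E] {H : Set E} {τ : E ≃+* E}

theorem symm (h : Semi Ω τ) : Semi Ω τ.symm := by
  unfold Semi at h ⊢
  conv_lhs => rw [← h]
  rw [Set.image_image]
  simp

/-- The preimage of a subalgebra. -/
def cm (h : Semi Ω τ) (O : Subalgebra Ω E) : Subalgebra Ω E where
  carrier := {a | τ a ∈ O}
  mul_mem' ha hb := by simpa using O.mul_mem ha hb
  add_mem' ha hb := by simpa using O.add_mem ha hb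
  algebraMap_mem' c := by
    obtain ⟨c', e⟩ : τ (algebraMap Ω E c) ∈ Set.range (algebraMap Ω E) := h ▸ ⟨_, ⟨c, rfl⟩, rfl⟩
    exact show τ _ ∈ O from e ▸ O.algebraMap_mem c'

theorem isU_cm (h : Semi Ω τ) {O : Subalgebra Ω E} {a : E} : IsU (cm h O) a ↔ IsU O (τ a) :=
  and_congr (map_ne_zero τ).symm (and_congr Iff.rfl (by rw [← map_inv₀]; rfl))

theorem cht_le (h : Semi Ω τ) (fix : ∀ a ∈ H, τ a = a) {j : Unit → E} (hj : ∀ l, j l ∈ H) :
    cht Ω (fun _ => H) j ≤ cm h (cht Ω (fun _ => H) j) := by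
  refine Algebra.adjoin_le ?_
  rintro _ ⟨_, ⟨u, rfl⟩, b, hb, rfl⟩
  show τ (b / j u) ∈ cht Ω (fun _ => H) j
  rw [map_div₀, fix b hb, fix _ (hj u)]
  exact Algebra.subset_adjoin (Set.mem_iUnion.2 ⟨u, b, hb, rfl⟩)

theorem half (h : Semi Ω τ) (fix : ∀ a ∈ H, τ a = a) {O : Subalgebra Ω E}
    (hO : O ∈ mp Ω fun _ : Unit => H) : cm h O ∈ mp Ω fun _ : Unit => H := by
  obtain ⟨j, hj, hl, le, fr⟩ := hO
  have h' := cht_le (symm h) (fun a ha => τ.symm_apply_eq.2 (fix a ha).symm) hj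
  refine ⟨j, hj, isLocalRing_of fun f hf g hg => ?_, fun a ha => le (cht_le h fix hj ha),
    fun f hf => ?_⟩
  · have := mx_add hl ⟨hf.1, fun u => hf.2 ((isU_cm h).2 u)⟩ ⟨hg.1, fun u => hg.2 ((isU_cm h).2 u)⟩
    rw [← map_add] at this
    exact ⟨this.1, fun u => this.2 ((isU_cm h).1 u)⟩
  · obtain ⟨a, ha, b, hb, u, e⟩ := fr _ hf
    refine ⟨_, h' ha, _, h' hb, (isU_cm h).2 (by rwa [τ.apply_symm_apply]), ?_⟩
    rw [← map_div₀, ← e, τ.symm_apply_apply]

end SemiA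

open SemiA in
theorem semi_stmt : SemiStmt := fun _ _ _ _ _ _ τ h fix O hO =>
  ⟨⟨_, half h fix hO, fun _ => Iff.rfl⟩, _,
    half (symm h) (fun a ha => τ.symm_apply_eq.2 (fix a ha).symm) hO,
    fun a => by
      show τ.symm (τ a) ∈ O ↔ _
      rw [τ.symm_apply_apply]⟩

end Pool.Agent.MP_e8e0b6_ag.R2

end Part6

section Part7

-- part 7: T0

/-!
The sections of an invariant class.
-/

set_option autoImplicit false

open Polynomial

namespace Pool.Agent.MP_e8e0b6_ag.R2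

open Pool.Agent.MP_79c67d_ag Pool.Agent.MP_20d318_ag Pool.Agent.MP_20d318_ag.AG
  Pool.Agent.MP_20d318_ag.BV Pool.Agent.MP_20d318_ag.CB

namespace T0A

variable {Ω E : Type} [Field Ω] [Field E] [Algebra Ω E] {O O' : Subalgebra Ω E} {τ : E ≃+* E}
  {U : Set E} {p q l l' : E}

theorem gn_tau (h : ∀ a, a ∈ O' ↔ τ a ∈ O) (hg : Gn U O' p) : Gn (τ '' U) O (τ p) := by
  refine ⟨?_, ?_⟩
  · rintro _ ⟨a, ha, rfl⟩
    rw [← map_div₀]
    exact (h _).1 (hg.1 a ha)
  · obtain ⟨a, ha, hu⟩ := hg.2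
    refine ⟨_, ⟨a, ha, rfl⟩, ?_⟩
    rw [← map_div₀]
    exact ⟨(map_ne_zero τ).2 hu.ne, (h _).1 hu.mem, by
      rw [← map_inv₀]; exact (h _).1 hu.inv_mem⟩

theorem key (h : ∀ a, a ∈ O' ↔ τ a ∈ O) (h1 : Gn U O' (p * l'⁻¹)) (h2 : Gn (τ '' U) O (q * l⁻¹))
    (z : E) : z * l' ∈ O' ↔ τ z / (q / τ p) * l ∈ O := by
  have hu := (gn_tau h h1).unit h2
  have h3 : τ l' ≠ 0 := (map_ne_zero τ).2 fun h0 => right_ne_zero_of_mul h1.ne (inv_eq_zero.2 h0)
  have e : τ z / (q / τ p) * l = τ (z * l') * (τ (p * l'⁻¹) / (q * l⁻¹)) := by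
    rw [map_mul, map_mul, map_inv₀]
    field_simp
  rw [h, e]
  refine ⟨fun hz => O.mul_mem hz hu.mem, fun hz => ?_⟩
  have := hu.div_mem hz
  rwa [mul_div_cancel_right₀ _ hu.ne] at this

end T0A

theorem t0_stmt (h1 : SemiStmt) : T0Stmt := by
  intro Ω E J _ _ _ _ S' H τ U c hT hs hH ⟨p, hp, g1⟩ ⟨q, hq, g2⟩
  have h2 := h1 Ω E H τ hs hH
  rw [← hT] at h2
  refine ⟨q / τ p, div_ne_zero hq ((map_ne_zero τ).2 hp), fun z => ⟨fun hz O hO => ?_,
    fun hz O' hO' => ?_⟩⟩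
  · obtain ⟨O', hO', h⟩ := (h2 O hO).1
    exact (T0A.key h (g1 O' hO') (g2 O hO) z).1 (hz O' hO')
  · obtain ⟨O, hO, h⟩ := (h2 O' hO').2
    exact (T0A.key (fun a => (h a).symm) (g1 O' hO') (g2 O hO) z).2 (hz O hO)

end Pool.Agent.MP_e8e0b6_ag.R2

end Part7

section Part8

-- part 8: T1

/-!
Descent of a globally generated class to the function field of a line.
-/

set_option autoImplicit false

open Polynomial

namespace Pool.Agent.MP_e8e0b6_ag.R2

open Pool.Agent.MP_79c67d_ag Pool.Agent.MP_20d318_ag Pool.Agent.MP_20d318_ag.AG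
  Pool.Agent.MP_20d318_ag.BV Pool.Agent.MP_20d318_ag.CB

namespace T1A

open TensorProduct

theorem exists_factor {A B E : Type} [CommRing A] [CommRing B] [CommRing E] (f : A →+* E)
    {j : B →+* E} (hj : Function.Injective j) (h : ∀ a, f a ∈ Set.range j) :
    ∃ ι : A →+* B, ∀ a, j (ι a) = f a := by
  choose ι hι using h
  exact ⟨⟨⟨⟨ι, hj (by simp [hι])⟩, fun a b => hj (by simp [hι])⟩, hj (by simp [hι]),
    fun a b => hj (by simp [hι])⟩, hι⟩

variable {L F Ω E : Type} [Field L] [Field F] [Field Ω] [Field E] [Algebra L F] [Algebra L Ω]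
  [Algebra Ω E] [Algebra L E] [IsScalarTower L Ω E]

theorem exists_fin (β : BC L F Ω E) (x : E) : ∃ Λ : Set Ω, Λ.Finite ∧ ∀ K : Subfield E,
    (∀ a ∈ Λ, algebraMap Ω E a ∈ K) → (∀ f, β.μ f ∈ K) → x ∈ K := by
  have key : ∀ y, ∃ Λ : Set Ω, Λ.Finite ∧ ∀ K : Subfield E,
      (∀ a ∈ Λ, algebraMap Ω E a ∈ K) → (∀ f, β.μ f ∈ K) → tens Ω β.μ y ∈ K := fun y => by
    induction y using TensorProduct.induction_on with
    | zero => exact ⟨∅, Set.finite_empty, fun K _ _ => by simp⟩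
    | tmul d f => exact ⟨{d}, Set.finite_singleton d, fun K h h' => K.mul_mem (h d rfl) (h' f)⟩
    | add a b ha hb =>
      obtain ⟨A, hA, h1⟩ := ha
      obtain ⟨B, hB, h2⟩ := hb
      exact ⟨A ∪ B, hA.union hB, fun K h h' => by
        rw [map_add]
        exact K.add_mem (h1 K (fun a ha => h a (Or.inl ha)) h')
          (h2 K (fun a ha => h a (Or.inr ha)) h')⟩
  obtain ⟨a, s, hs, e⟩ := β.frac x
  obtain ⟨A, hA, h1⟩ := key a
  obtain ⟨B, hB, h2⟩ := key s
  refine ⟨A ∪ B, hA.union hB, fun K h h' => ?_⟩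
  rw [eq_div_of_mul_eq ((map_ne_zero_iff _ β.inj).2 hs) e]
  exact K.div_mem (h1 K (fun a ha => h a (Or.inl ha)) h') (h2 K (fun a ha => h a (Or.inr ha)) h')

theorem span_span (ν : F →ₐ[L] E) (S : Set F) :
    Submodule.span Ω (ν '' (Submodule.span L S : Set F)) = Submodule.span Ω (ν '' S) := by
  have h : ν '' (Submodule.span L S : Set F) = (Submodule.span L (ν '' S) : Set E) :=
    congrArg SetLike.coe (Submodule.map_span ν.toLinearMap S)
  rw [h, Submodule.span_span_of_tower]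

theorem act_iff (β : BC L F Ω E) (g : Ω ≃ₐ[L] Ω) {σ : Type} (x : σ → E) (w : E) :
    w ∈ Submodule.span Ω (Set.range x) ↔
      β.act g w ∈ Submodule.span Ω (Set.range fun l => β.act g (x l)) :=
  ⟨β.act_mem, fun h => by simpa [← BC.act_mul] using β.act_mem (g := g⁻¹) h⟩

theorem mem_range (β : BC L F Ω E) {m : F} (h : β.μ m ∈ Set.range (algebraMap Ω E)) :
    m ∈ Set.range (algebraMap L F) := by
  by_contra h0
  obtain ⟨a, ha⟩ := h
  have h1 := β.linearIndependent _ ![1, m] ((LinearIndependent.pair_iff' one_ne_zero).2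
    fun c hc => h0 ⟨c, by simpa [Algebra.smul_def] using hc⟩)
  have h2 : (fun i => (β.μ : F →+* E) (![1, m] i)) = ![1, β.μ m] := by
    funext i; fin_cases i <;> simp
  rw [h2] at h1
  exact (LinearIndependent.pair_iff' one_ne_zero).1 h1 a (by simpa [Algebra.smul_def] using ha)

theorem dom {L' : Type} [Field L'] [Algebra L L'] [Algebra L' Ω] [IsScalarTower L L' Ω]
    (β : BC L F Ω E) : IsDomain (L' ⊗[L] F) := by
  let r := Algebra.TensorProduct.map (IsScalarTower.toAlgHom L L' Ω) (AlgHom.id L F)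
  have hr : Function.Injective r :=
    Module.Flat.rTensor_preserves_injective_linearMap (M := F)
      (IsScalarTower.toAlgHom L L' Ω).toLinearMap (algebraMap L' Ω).injective
  have := β.inj.isDomain (tens Ω β.μ)
  exact hr.isDomain r

theorem desc2 (h2 : DscStmt) (h3 : CoreStmt) (hL : C1 L) [CharZero F] [Normal L Ω] {L' E' σ : Type}
    [Field L'] [Field E'] [Finite σ] [Algebra L L'] [Algebra L' Ω] [IsScalarTower L L' Ω]
    [FiniteDimensional L L'] [IsGalois L L'] [Algebra L' E'] [Algebra L E'] [IsScalarTower L L' E']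
    [Algebra L' E] [IsScalarTower L' Ω E] (β : BC L F Ω E) (β₂ : BC L F L' E') (β₃ : BC L' E' Ω E)
    (hβ : ∀ f, β₃.μ (β₂.μ f) = β.μ f) (x : σ → E') (W : Submodule Ω E)
    (hW : W = Submodule.span Ω (Set.range fun i => β₃.μ (x i))) (h0 : W ≠ ⊥)
    (hinv : ∀ g, ∃ φ : E, φ ≠ 0 ∧ ∀ z, z ∈ W ↔ β.act g z / φ ∈ W)
    (hmul : ∀ m, (∀ z ∈ W, m * z ∈ W) → m ∈ Set.range (algebraMap Ω E)) :
    ∃ (l : E) (U : Set F), l ≠ 0 ∧ U.Finite ∧ (∀ u ∈ U, l * β.μ u ∈ W) ∧
      ∀ z ∈ W, z / l ∈ Submodule.span Ω (β.μ '' U) := by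
  have e1 : ∀ y : σ → E', Submodule.span Ω (β₃.μ '' (Submodule.span L' (Set.range y) : Set E')) =
      Submodule.span Ω (Set.range fun i => β₃.μ (y i)) := fun y => by
    rw [span_span, ← Set.range_comp]; rfl
  have hm : ∀ z ∈ Submodule.span L' (Set.range x), β₃.μ z ∈ W := fun z hz => by
    rw [hW, ← e1]; exact Submodule.subset_span ⟨z, hz, rfl⟩
  have fd : ∀ y : σ → E', FiniteDimensional L' (Submodule.span L' (Set.range y)) := fun y =>
    Module.Finite.span_of_finite L' (Set.finite_range y)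
  have hne : ∃ i, x i ≠ 0 := by
    by_contra! h
    exact h0 (by simp [hW, h])
  obtain ⟨i, hi⟩ := hne
  obtain ⟨l, U, hl, hU, hfix, hz⟩ := h3 L L' E' β₂.act (Submodule.span L' (Set.range x)) hL
    (fun g c => β₂.act_alg c) (fun g g' z => β₂.act_mul z) β₂.act_one (fd x)
    (fun h => hi (h.le (Submodule.subset_span ⟨i, rfl⟩))) (fun g => by
      have e2 : ∀ z, β₃.μ (β₂.act g z) = β.act (g.liftNormal Ω) (β₃.μ z) :=
        DFunLike.congr_fun (β₂.ext' (φ := (β₃.μ : E' →+* E).comp (β₂.act g))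
          (ψ := (β.act (g.liftNormal Ω)).comp (β₃.μ : E' →+* E))
          (fun d => by simp [β₃.alg_alg, AlgEquiv.liftNormal_commutes]) fun f => by simp [hβ])
      obtain ⟨φ, hφ, h⟩ := hinv (g.liftNormal Ω)
      obtain ⟨ψ, hψ, h'⟩ := h2 L' Ω E' E β₃ (Submodule.span L' (Set.range fun i => β₂.act g (x i)))
        (Submodule.span L' (Set.range x)) φ⁻¹ (fd _) (fd _)
        (fun h => (map_ne_zero (β₂.act g)).2 hi (h.le (Submodule.subset_span ⟨i, rfl⟩)))
        (inv_ne_zero hφ) fun z => by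
          rw [e1, e1, ← hW, ← div_eq_inv_mul, ← β.act_inv (g := g.liftNormal Ω) z, ← h, hW]
          simp only [e2]
          exact (act_iff β _ _ _).symm
      exact ⟨ψ⁻¹, inv_ne_zero hψ, fun z => by
        rw [act_iff β₂ g, h', div_inv_eq_mul, mul_comm]⟩) fun m h => mem_range β₃ (hmul _ fun z hz => by
      rw [hW] at hz
      induction hz using Submodule.span_induction with
      | mem _ h' =>
        obtain ⟨j, rfl⟩ := h'
        rw [← map_mul]; exact hm _ (h _ (Submodule.subset_span ⟨j, rfl⟩))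
      | zero => simp
      | add _ _ _ _ a b => rw [mul_add]; exact W.add_mem a b
      | smul c _ _ a => rw [mul_smul_comm]; exact W.smul_mem c a)
  have hs : U ⊆ Set.range β₂.μ := fun z hz => β₂.fixed_mem (MonoidHom.id _) (fun d =>
    ⟨algebraMap L F (Algebra.trace L L' d), by
      rw [β₂.alg_alg, trace_eq_sum_automorphisms]; rfl⟩) (hfix z hz)
  obtain ⟨V, hV, rfl⟩ : ∃ V : Set F, V.Finite ∧ β₂.μ '' V = U :=
    ⟨_, hU.preimage β₂.μ.injective.injOn, Set.image_preimage_eq_of_subset hs⟩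
  have e3 : β₃.μ '' (β₂.μ '' V) = β.μ '' V := by simp only [Set.image_image, hβ]
  refine ⟨β₃.μ l, V, (_root_.map_ne_zero _).2 hl, hV, fun u hu => ?_, fun z hz' => ?_⟩
  · rw [← hβ, ← map_mul]
    refine hm _ ((hz _).2 ?_)
    rw [mul_div_cancel_left₀ _ hl]
    exact Submodule.subset_span ⟨u, hu, rfl⟩
  · rw [hW] at hz'
    induction hz' using Submodule.span_induction with
    | mem _ h' =>
      obtain ⟨j, rfl⟩ := h'
      rw [← map_div₀, ← e3, ← span_span]
      exact Submodule.subset_span ⟨_, (hz _).1 (Submodule.subset_span ⟨j, rfl⟩), rfl⟩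
    | zero => simp
    | add _ _ _ _ a b => rw [add_div]; exact add_mem a b
    | smul c _ _ a => rw [smul_div_assoc]; exact Submodule.smul_mem _ c a

theorem desc (h2 : DscStmt) (h3 : CoreStmt) (hL : C1 L) [CharZero F] [IsGalois L Ω]
    (β : BC L F Ω E) (W : Submodule Ω E) [FiniteDimensional Ω W] (h0 : W ≠ ⊥)
    (hinv : ∀ g, ∃ φ : E, φ ≠ 0 ∧ ∀ z, z ∈ W ↔ β.act g z / φ ∈ W)
    (hmul : ∀ m, (∀ z ∈ W, m * z ∈ W) → m ∈ Set.range (algebraMap Ω E)) :
    ∃ (l : E) (U : Set F), l ≠ 0 ∧ U.Finite ∧ (∀ u ∈ U, l * β.μ u ∈ W) ∧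
      ∀ z ∈ W, z / l ∈ Submodule.span Ω (β.μ '' U) := by
  obtain ⟨n, w, hw⟩ := Submodule.fg_iff_exists_fin_generating_family.1
    (Module.Finite.iff_fg.1 (inferInstance : Module.Finite Ω W))
  choose Λ hΛ h using fun i => exists_fin β (w i)
  have : Finite (⋃ i, Λ i) := Set.finite_iUnion hΛ
  let L' := FiniteGaloisIntermediateField.adjoin L (⋃ i, Λ i)
  have := dom (L' := L') β
  obtain ⟨E', _, _, _, _, ⟨β₂⟩⟩ := exists_bc (C := L) (D := L') (F := F)
  obtain ⟨β₃, hβ⟩ := β₂.factor (algebraMap L' Ω).injective β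
  have hx : ∀ i, w i ∈ (β₃.μ : E' →+* E).fieldRange := fun i => h i _
    (fun a ha => ⟨_, β₃.alg_alg ⟨a, FiniteGaloisIntermediateField.subset_adjoin L _
      (Set.mem_iUnion.2 ⟨i, ha⟩)⟩⟩) fun f => ⟨_, hβ f⟩
  choose x hx using hx
  exact desc2 h2 h3 hL β β₂ β₃ hβ x W (by rw [← hw, ← funext hx]; rfl) h0 hinv hmul

theorem geo (h1 : T0Stmt) (h2 : DscStmt) (h3 : CoreStmt) (hL : C1 L) [CharZero F] [IsGalois L Ω]
    (β : BC L F Ω E) {J : Type} [Fintype J] {S : Sd Ω E J} {H : Set F} (hS : SAll S)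
    (hT : S.T = mp Ω fun _ : Unit => β.μ '' H) (htr : Triv (Set.range β.μ) S) {c : J → ℤ}
    (hc : S.GG c) : ∃ U : Set F, U.Finite ∧ Cl S (β.μ '' U) c := by
  obtain ⟨U, hU, hU0, hg⟩ := hc
  have := hS.s.fd c
  have hm : ∀ a ∈ U, a ∈ S.Sec c := fun a ha O hO => by simpa using (hg O hO).1 a ha
  have hcl : Cl S U c := ⟨1, one_ne_zero, fun O hO => by simpa using hg O hO⟩
  obtain ⟨l, V, hl, hV, h4, h5⟩ := desc h2 h3 hL β (S.Sec c) (fun h => by
      obtain ⟨a, ha, -⟩ := (hg _ hS.a1.nice.toFine.top).2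
      exact hU0 a ha (h.le (hm a ha))) (fun g => by
      let τ : E ≃+* E := RingEquiv.ofRingHom (β.act g) (β.act g⁻¹)
        (RingHom.ext fun z => β.act_inv z) (RingHom.ext fun z => by simp [← BC.act_mul])
      have hτ : Semi Ω τ := Set.Subset.antisymm
        (by rintro _ ⟨_, ⟨a, rfl⟩, rfl⟩; exact ⟨g a, (β.act_alg a).symm⟩)
        (by rintro _ ⟨a, rfl⟩; exact ⟨_, ⟨g⁻¹ a, rfl⟩, by simp [τ]⟩)
      have hf : ∀ z ∈ Set.range β.μ, τ z = z := by rintro _ ⟨f, rfl⟩; exact β.act_μ f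
      exact h1 Ω E J S _ τ U c hT hτ (fun a ha => hf a (Set.image_subset_range _ _ ha)) hcl
        (htr τ hτ hf U c hU hcl)) fun m h => by
      obtain ⟨a, ha⟩ := hS.a2.const m fun O hO => by
        obtain ⟨a, ha, hu⟩ := (hg O hO).2
        have := hu.div_mem (h a (hm a ha) O hO)
        rwa [div_inv_eq_mul, mul_assoc, mul_div_cancel_right₀ _ (by simpa using hu.1)] at this
      exact ⟨a, ha.symm⟩
  refine ⟨V, hV, l⁻¹, inv_ne_zero hl, fun O hO => ((hg O hO).smul (inv_ne_zero hl)).of_span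
    ?_ ?_ ?_⟩
  · obtain ⟨j, -, h⟩ := hO
    exact h.1
  · rintro _ ⟨u, hu, rfl⟩
    rw [← mul_inv, div_inv_eq_mul, ← mul_assoc, mul_comm _ l]
    exact h4 u hu O hO
  · rintro _ ⟨a, ha, rfl⟩
    exact Submodule.span_le_restrictScalars Ω O _ (by
      simpa only [div_eq_inv_mul] using h5 a (hm a ha))

end T1A

theorem t1_stmt (h1 : T0Stmt) (h2 : DscStmt) (h3 : CoreStmt) (h4 : BcStmt) : T1Stmt := by
  intro k M F Ω E J _ _ _ _ _ _ _ _ _ _ _ _ _ g H μ S hg gc hS halg htr c hc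
  let L := FractionRing M[X]
  let j : L →+* F := IsFractionRing.lift (g := (g : M[X] →+* F)) hg
  have hj : ∀ p, j (algebraMap M[X] L p) = g p := fun p => IsFractionRing.lift_algebraMap hg p
  obtain ⟨ι, hι⟩ := T1A.exists_factor ((μ : F →+* E).comp j) (algebraMap Ω E).injective fun a => by
    obtain ⟨p, q, -, rfl⟩ := IsFractionRing.div_surjective (A := M[X]) a
    rw [RingHom.comp_apply, map_div₀, map_div₀, hj, hj]
    exact (algebraMap Ω E).fieldRange.div_mem (gc.base _ ⟨p, rfl⟩) (gc.base _ ⟨q, rfl⟩)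
  let := j.toAlgebra
  let := ι.toAlgebra
  let := ((μ : F →+* E).comp j).toAlgebra
  have : IsScalarTower L Ω E := .of_algebraMap_eq fun a => (hι a).symm
  obtain ⟨β, hβ⟩ := h4 L F Ω E ⟨μ, fun _ => rfl⟩ (fun I v hv => gc.ld I v (by
      obtain ⟨r, hr⟩ := T1A.exists_factor (g.range.val : g.range →+* F) j.injective
        (by rintro ⟨_, p, rfl⟩; exact ⟨_, hj p⟩)
      exact hv.map_of_injective_injective r (AddMonoidHom.id F)
        (fun a ha => Subtype.ext (by simpa [ha] using (hr a).symm)) (fun _ h => h)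
        fun a m => congrArg (· * m) (hr a))) fun W hW hW' => by
    have h := hS.a1.nice.toFine.top
    rw [gc.eq] at h
    obtain ⟨i, hi, -, -, h⟩ := h
    have h5 : cht Ω (fun _ : Unit => μ '' H) i ≤ (W.toIntermediateField hW).toSubalgebra := by
      refine Algebra.adjoin_le (Set.iUnion_subset fun u => ?_)
      rintro _ ⟨_, ⟨a, -, rfl⟩, rfl⟩
      obtain ⟨b, -, hb⟩ := hi u
      exact W.div_mem (hW' a) (hb ▸ hW' b)
    refine eq_top_iff.2 fun f _ => ?_
    obtain ⟨a, ha, b, hb, -, rfl⟩ := h f trivial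
    exact W.div_mem (h5 ha) (h5 hb)
  have e : ⇑β.μ = ⇑μ := by rw [hβ]; rfl
  have : CharZero F := charZero_of_injective_algebraMap (algebraMap L F).injective
  have : Algebra.IsAlgebraic L Ω := ⟨fun a => by
    obtain ⟨r, hr⟩ := T1A.exists_factor ((g.range.map μ).val : g.range.map μ →+* E)
      (algebraMap L E).injective (by
        rintro ⟨_, _, ⟨p, rfl⟩, rfl⟩; exact ⟨algebraMap M[X] L p, congrArg μ (hj p)⟩)
    exact (isAlgebraic_algebraMap_iff (algebraMap Ω E).injective).1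
      ((halg a).ringHom_of_comp_eq r (RingHom.id E)
        (fun a b h => Subtype.ext ((hr a).symm.trans ((congrArg _ h).trans (hr b))))
        (RingHom.ext hr))⟩
  have : IsAlgClosure L Ω := ⟨inferInstance, inferInstance⟩
  rw [← e] at htr ⊢
  exact T1A.geo h1 h2 h3 (tsen (K := M)) β hS (e ▸ gc.eq) htr hc

end Pool.Agent.MP_e8e0b6_ag.R2

end Part8

section Part9

-- part 9: T2

/-!
Two systems with the same class differ by a function.
-/

set_option autoImplicit false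

open Polynomial

namespace Pool.Agent.MP_e8e0b6_ag.R2

open Pool.Agent.MP_79c67d_ag Pool.Agent.MP_20d318_ag Pool.Agent.MP_20d318_ag.AG
  Pool.Agent.MP_20d318_ag.BV Pool.Agent.MP_20d318_ag.CB

namespace T2A

variable {k F Ω E J : Type} [Field k] [Field F] [Field Ω] [Field E] [Algebra k F]
  [Algebra k E] [Algebra Ω E] [Fintype J] {D : Subalgebra k F} {H : Set F} {μ : F →ₐ[k] E}
  {S' : Sd Ω E J} {V V' : Set F} {c : J → ℤ}

theorem up {O : Subalgebra k F} {O' : Subalgebra Ω E} (h : ∀ a ∈ O, μ a ∈ O') {a : F}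
    (ha : Gn V O a) : Gn (μ '' V) O' (μ a) := by
  obtain ⟨b, hb, hu⟩ := ha.2
  refine ⟨?_, μ b, ⟨b, hb, rfl⟩, ?_⟩
  · rintro _ ⟨d, hd, rfl⟩
    rw [← map_div₀]
    exact h _ (ha.1 d hd)
  · rw [← map_div₀]
    exact ⟨(map_ne_zero μ).2 hu.ne, h _ hu.mem, by rw [← map_inv₀]; exact h _ hu.inv_mem⟩

theorem dt {X : Set (Subalgebra k F)} (h : Sys X V) (h' : Sys X V') :
    Dt X fun O => gn V O / gn V' O :=
  ⟨V', V, h', h, fun O hO => ⟨_, _, gn_spec (h'.2 O hO), gn_spec (h.2 O hO), by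
    rw [div_mul_cancel₀ _ (gn_spec (h'.2 O hO)).ne, div_self (gn_spec (h.2 O hO)).ne]
    exact isU_one⟩⟩

theorem sec (h1 : S1Stmt) (fm : Fm D H) (gc : Gc D H μ S') (h : Sys (XX D H) V)
    (h' : Sys (XX D H) V') (hc : Cl S' (μ '' V) c) (hc' : Cl S' (μ '' V') c) :
    ∃ z ∈ Sc (XX D H) fun O => gn V O / gn V' O, z ≠ 0 := by
  obtain ⟨φ, h0, hφ⟩ := hc
  obtain ⟨φ', h0', hφ'⟩ := hc'
  have key := h1 k F Ω E J D H μ S' _ fm gc (dt h h') (φ' / φ) fun O' hO' O hO hle => by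
    have a1 := (up hle (gn_spec (h.2 O hO))).div_mem (hφ O' hO').1
    have a2 := (hφ' O' hO').div_mem (up hle (gn_spec (h'.2 O hO))).1
    have := inv_ne_zero (right_ne_zero_of_mul (hφ O' hO').ne)
    rw [inv_inv] at this
    convert O'.mul_mem a1 a2 using 1
    rw [map_div₀]
    field_simp
  by_contra hn
  refine div_ne_zero h0' h0 ((Submodule.mem_bot Ω).1 (Submodule.span_le.2 ?_ key))
  rintro _ ⟨z, hz, rfl⟩
  rw [show z = 0 from by_contra fun h => hn ⟨z, hz, h⟩, map_zero]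
  exact zero_mem _

end T2A

theorem t2_stmt (h1 : S1Stmt) (h2 : RegStmt) (h3 : TrivStmt) : T2Stmt := by
  intro k F Ω E J _ _ _ _ _ _ _ _ D H μ S' V V' c fm gc al pid h h' hc hc'
  obtain ⟨z, hz, z0⟩ := T2A.sec h1 fm gc h h' hc hc'
  obtain ⟨z', hz', z0'⟩ := T2A.sec h1 fm gc h' h hc' hc
  obtain ⟨φ, hφ⟩ := h3 k F D H _ z (z * z') fm pid (T2A.dt h h') hz z0
    (h2 k F Ω E J D H μ S' fm gc al _ fun O hO => by
      have := (gn_spec (h.2 O hO)).ne
      have := (gn_spec (h'.2 O hO)).ne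
      convert O.mul_mem (hz O hO) (hz' O hO) using 1
      field_simp) (mul_ne_zero z0 z0') fun O hO => by
      convert hz' O hO using 1
      field_simp
  refine ⟨φ, fun O hO a ha => (gn_spec (h'.2 O hO)).of_unit ?_⟩
  have := (gn_spec (h.2 O hO)).ne
  convert (hφ O hO).mul (ha.unit (gn_spec (h.2 O hO))) using 1
  field_simp

end Pool.Agent.MP_e8e0b6_ag.R2

end Part9
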