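import Pool.Agent.MP_e8e0b6_ag.R2.SpecT

section Part1

-- part 1: T3

/-!
Descent of a system along a finite group with a fixed point.
-/

set_option autoImplicit false

open Polynomial

namespace Pool.Agent.MP_e8e0b6_ag.R2

open Pool.Agent.MP_79c67d_ag Pool.Agent.MP_20d318_ag Pool.Agent.MP_20d318_ag.AG
  Pool.Agent.MP_20d318_ag.BV Pool.Agent.MP_20d318_ag.CB

namespace T3A

variable {k F G : Type} [Field k] [Field F] [Algebra k F] [Group G] {a : G →* (F ≃ₐ[k] F)}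
  {D O O₀ : Subalgebra k F} {H V : Set F} {X : Set (Subalgebra k F)}

theorem le_of (h : O ∈ XX D H) : D ≤ O := le_sup_left.trans h.choose_spec.2.2.1

theorem a_mul (g h : G) (z : F) : a (g * h) z = a g (a h z) := by rw [map_mul]; rfl

theorem perm (hD : ∀ g, ∀ d ∈ D, a g d ∈ D) (hH : ∀ g, ∀ z ∈ H, a g z = z) (g : G)
    (h : O ∈ XX D H) : O.comap (a g : F →ₐ[k] F) ∈ XX D H := by
  obtain ⟨j, hj, h1, h2, h3⟩ := h
  have st : ∀ g, ch D H j ≤ (ch D H j).comap (a g : F →ₐ[k] F) := fun g => by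
    refine sup_le (fun d hd => (le_sup_left : D ≤ ch D H j) (hD g d hd)) (Algebra.adjoin_le ?_)
    rintro _ ⟨z, hz, rfl⟩
    show a g (z / j) ∈ ch D H j
    rw [map_div₀, hH g z hz, hH g j hj]
    exact (le_sup_right : _ ≤ ch D H j) (Algebra.subset_adjoin ⟨z, hz, rfl⟩)
  have iv : ∀ z, a g (a g⁻¹ z) = z := fun z => by rw [← a_mul, mul_inv_cancel, map_one]; rfl
  refine ⟨j, hj, isLocalRing_comap _ h1, fun z hz => h2 (st g hz), fun f hf => ?_⟩
  obtain ⟨p, hp, q, hq, hu, e⟩ := h3 _ hf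
  refine ⟨a g⁻¹ p, st _ hp, a g⁻¹ q, st _ hq, (isU_comap _).2 ((iv q).symm ▸ hu), (a g).injective ?_⟩
  rw [map_div₀, iv, iv]
  exact e

theorem up {Ω E : Type} [Field Ω] [Field E] [Algebra k E] [Algebra Ω E] (μ : F →ₐ[k] E)
    {O' : Subalgebra Ω E} (hle : ∀ z ∈ O, μ z ∈ O') {b : F} (h : Gn V O b) :
    Gn (μ '' V) O' (μ b) := by
  obtain ⟨z, hz, hu⟩ := h.2
  refine ⟨?_, μ z, ⟨z, hz, rfl⟩, ?_⟩
  · rintro _ ⟨w, hw, rfl⟩
    rw [← map_div₀]
    exact hle _ (h.1 w hw)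
  · rw [← map_div₀]
    exact ⟨(_root_.map_ne_zero _).2 hu.ne, hle _ hu.mem, map_inv₀ μ _ ▸ hle _ hu.inv_mem⟩

/-- `φ` carries generators of `V` to generators of the translate of `V`. -/
def Ca (a : G →* (F ≃ₐ[k] F)) (X : Set (Subalgebra k F)) (V : Set F) (g : G) (φ : F) : Prop :=
  ∀ O ∈ X, ∀ b, Gn V O b → Gn (a g '' V) O (φ * b)

theorem tr (g : G) {b : F} (h : Gn V (O.comap (a g : F →ₐ[k] F)) b) : Gn (a g '' V) O (a g b) :=
  (gn_map (a g : F →ₐ[k] F)).2 h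

theorem Ca.mul (hp : ∀ g, ∀ O ∈ X, O.comap (a g : F →ₐ[k] F) ∈ X) (hV : Sys X V) {g h : G}
    {φ ψ : F} (h1 : Ca a X V g φ) (h2 : Ca a X V h ψ) : Ca a X V (g * h) (φ * a g ψ) := by
  intro O hO b hb
  obtain ⟨b', hb'⟩ := hV.2 _ (hp g O hO)
  have h3 := tr g (h2 _ (hp g O hO) b' hb')
  have h4 := (h1 O hO b hb).unit (tr g hb')
  have h5 := h3.ne
  rw [map_mul] at h3 h5
  rw [show a (g * h) '' V = a g '' (a h '' V) by
    rw [Set.image_image]; exact Set.image_congr fun z _ => a_mul g h z]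
  refine h3.of_unit ?_
  rwa [mul_comm φ, mul_assoc, mul_div_mul_left _ _ (left_ne_zero_of_mul h5)]

/-- A normalised family of multipliers is a cocycle. -/
theorem cocycle (hp : ∀ g, ∀ O ∈ X, O.comap (a g : F →ₐ[k] F) ∈ X) (hV : Sys X V)
    (hD : ∀ O ∈ X, D ≤ O) (hR : ∀ m, (∀ O ∈ X, m ∈ O) → m ∈ D) (h0 : O₀ ∈ X) (ev : O₀ →+* F)
    (e1 : ∀ z, ev z ∈ D) (e2 : ∀ z : O₀, IsU D z → ev z = z)
    (e3 : ∀ g (z : O₀), ∃ h : a g z ∈ O₀, ev ⟨_, h⟩ = a g (ev z))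
    (hφ : ∀ g, ∃ φ, Ca a X V g φ) :
    ∃ φ : G → F, (∀ g, φ g ≠ 0 ∧ Ca a X V g (φ g)) ∧ ∀ g h, φ (g * h) = φ g * a g (φ h) := by
  obtain ⟨b₀, hb₀⟩ := hV.2 _ h0
  have b0 := hb₀.ne
  have ne : ∀ {g φ}, Ca a X V g φ → φ ≠ 0 := fun h => left_ne_zero_of_mul (h _ h0 _ hb₀).ne
  have un : ∀ {g φ}, Ca a X V g φ → IsU O₀ (a g b₀ / (φ * b₀)) := fun {g φ} h =>
    (tr g (hb₀.mono fun z hz => (e3 g ⟨z, hz⟩).1)).unit (h _ h0 _ hb₀)
  have nm : ∀ g, ∃ φ, Ca a X V g φ ∧ ∃ r : O₀, (r : F) = a g b₀ / (φ * b₀) ∧ ev r = 1 := fun g => by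
    obtain ⟨φ, h⟩ := hφ g
    have hr := un h
    have hm : ev ⟨_, hr.mem⟩ * ev ⟨_, hr.inv_mem⟩ = 1 := by
      rw [← map_mul, ← map_one ev]
      exact congrArg ev (Subtype.ext (mul_inv_cancel₀ hr.ne))
    have hs : IsU D (ev ⟨_, hr.mem⟩) :=
      ⟨left_ne_zero_of_mul_eq_one hm, e1 _, eq_inv_of_mul_eq_one_right hm ▸ e1 _⟩
    refine ⟨φ * ev ⟨_, hr.mem⟩, fun O hO b hb => (h O hO b hb).of_unit ?_,
      ⟨_, hr.mem⟩ * ⟨_, hD _ h0 hs.inv_mem⟩, ?_, ?_⟩
    · rw [mul_right_comm, mul_div_cancel_left₀ _ (h O hO b hb).ne]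
      exact hs.mono (hD O hO)
    · refine (div_eq_mul_inv _ _).symm.trans ?_
      rw [div_div, mul_right_comm]
    · rw [map_mul, e2 ⟨_, hD _ h0 hs.inv_mem⟩ hs.inv]
      exact mul_inv_cancel₀ hs.ne
  choose φ c1 r c2 c3 using nm
  refine ⟨φ, fun g => ⟨ne (c1 g), c1 g⟩, fun g h => ?_⟩
  have c4 := (c1 g).mul hp hV (c1 h)
  have hu : ∀ O ∈ X, IsU O (φ g * a g (φ h) / φ (g * h)) := fun O hO => by
    obtain ⟨b, hb⟩ := hV.2 O hO
    have := (c4 O hO b hb).unit (c1 _ O hO b hb)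
    rwa [mul_div_mul_right _ _ hb.ne] at this
  have hm : IsU D (φ g * a g (φ h) / φ (g * h)) :=
    ⟨(hu _ h0).ne, hR _ fun O hO => (hu O hO).mem, hR _ fun O hO => (hu O hO).inv_mem⟩
  obtain ⟨m1, m2⟩ := e3 g (r h)
  have e : r (g * h) = ⟨_, m1⟩ * r g * ⟨_, (hu _ h0).mem⟩ := by
    refine Subtype.ext ?_
    show (r (g * h) : F) = a g (r h) * r g * (φ g * a g (φ h) / φ (g * h))
    have n1 := ne (c1 g)
    have n2 : a g (φ h) ≠ 0 := (_root_.map_ne_zero _).2 (ne (c1 h))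
    have n3 : a g b₀ ≠ 0 := (_root_.map_ne_zero _).2 b0
    have n4 := ne (c1 (g * h))
    rw [c2, c2, c2, a_mul, map_div₀, map_mul]
    field_simp
  have := c3 (g * h)
  rw [e, map_mul, map_mul, m2, c3, c3, map_one, one_mul, one_mul, e2 _ hm] at this
  exact ((div_eq_one_iff_eq (ne (c1 _))).1 this).symm

variable [Fintype G] [DecidableEq G]

/-- Hilbert 90. -/
theorem h90 {n : ℕ} {u v : Fin n → F} (huv : ∀ g, ∑ i, u i * a g (v i) = if g = 1 then 1 else 0)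
    {φ : G → F} (h1 : φ 1 ≠ 0) (hc : ∀ g h, φ (g * h) = φ g * a g (φ h)) :
    ∃ ψ : F, ψ ≠ 0 ∧ ∀ g, φ g * a g ψ = ψ := by
  have e : ∑ i, u i * ∑ h, φ h * a h (v i) = φ 1 := by
    simp only [Finset.mul_sum]
    rw [Finset.sum_comm]
    simp only [mul_left_comm (u _), ← Finset.mul_sum, huv]
    simp
  obtain ⟨i, -, hi⟩ := Finset.exists_ne_zero_of_sum_ne_zero (e ▸ h1)
  refine ⟨_, right_ne_zero_of_mul hi, fun g => ?_⟩
  rw [map_sum, Finset.mul_sum, ← Equiv.sum_comp (Equiv.mulLeft g) fun h => φ h * a h (v i)]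
  refine Finset.sum_congr rfl fun h _ => ?_
  rw [Equiv.coe_mulLeft, hc, a_mul, map_mul, mul_assoc]

end T3A

open T3A in
theorem t3_stmt (h1 : T2Stmt) (h2 : RegStmt) (h3 : CtrStmt) : T3Stmt := by
  intro k F Ω E G J _ _ _ _ _ _ _ _ _ _ _ a D H μ S' O₀ ev n u v fm gc all pid hD hH huv hs h0 e1 e2
    e3 V c hV hc
  have hp := fun g O => perm (O := O) hD hH g
  have hc1 : Cl S' (μ '' V) c := by simpa using hc 1
  obtain ⟨φ, c1, c2⟩ := cocycle hp hV (fun _ => le_of) (h2 k F Ω E J D H μ S' fm gc all) h0 ev e1 e2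
    e3 fun g => h1 k F Ω E J D H μ S' V (a g '' V) c fm gc all pid hV
      ⟨hV.1.image _, fun O hO => (hV.2 _ (hp g O hO)).elim fun _ hb => ⟨_, tr g hb⟩⟩ hc1 (hc g)
  obtain ⟨ψ, p0, p1⟩ := h90 hs (c1 1).1 c2
  let T : Fin n → F → F := fun i w => ∑ g, a g (v i * (ψ * w))
  have hU : ∀ O ∈ XX D H, ∀ b, Gn V O b → Gn (Set.image2 T Set.univ V) O (ψ * b) := by
    intro O hO b hb
    refine (hb.smul p0).of_span hO.choose_spec.2.1 ?_ ?_
    · rintro _ ⟨i, -, w, hw, rfl⟩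
      simp only [T, Finset.sum_div]
      refine sum_mem fun g _ => ?_
      have n1 : a g ψ ≠ 0 := (_root_.map_ne_zero _).2 p0
      have e : a g (v i * (ψ * w)) / (ψ * b) = a g (v i) * (a g w / (φ g * b)) := by
        rw [map_mul, map_mul, mul_div_assoc, ← mul_div_mul_left (a g w) _ n1, ← mul_assoc (a g ψ),
          mul_comm (a g ψ) (φ g), p1]
      rw [e]
      exact O.mul_mem (le_of hO (hD g _ (huv i).2)) (((c1 g).2 O hO b hb).1 _ ⟨w, hw, rfl⟩)
    · rintro _ ⟨w, hw, rfl⟩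
      have e : ψ * w = ∑ i, u i * T i w := by
        simp only [T, Finset.mul_sum]
        rw [Finset.sum_comm]
        simp only [map_mul (a _) (v _), ← mul_assoc (u _), ← Finset.sum_mul, hs]
        simp
      show ψ * w ∈ _
      rw [e]
      exact sum_mem fun i _ => Submodule.smul_mem _ (⟨u i, le_of hO (huv i).1⟩ : O)
        (Submodule.subset_span ⟨i, trivial, w, hw, rfl⟩)
  obtain ⟨χ, x0, x1⟩ := hc1
  refine ⟨Set.image2 T Set.univ V, Set.finite_univ.image2 _ hV.1, ?_, μ ψ * χ,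
    mul_ne_zero ((_root_.map_ne_zero _).2 p0) x0, fun O' hO' => ?_⟩
  · rintro _ ⟨i, -, w, -, rfl⟩ g
    simp only [T]
    rw [map_sum, ← Equiv.sum_comp (Equiv.mulLeft g) fun h => a h (v i * (ψ * w))]
    exact Finset.sum_congr rfl fun h _ => (a_mul g h _).symm
  · obtain ⟨O, hO, hle⟩ := h3 k F Ω E D H μ gc.base O' (gc.eq ▸ hO')
    obtain ⟨b, hb⟩ := hV.2 O hO
    refine (up μ hle (hU O hO b hb)).of_unit ?_
    rw [map_mul, mul_assoc, mul_div_mul_left _ _ ((_root_.map_ne_zero _).2 p0)]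
    exact (x1 O' hO').unit (up μ hle hb)

end Pool.Agent.MP_e8e0b6_ag.R2

end Part1

section Part2

-- part 2: T4b

/-! Row T4B: finitely many constants are enough. -/

set_option autoImplicit false

open Polynomial

namespace Pool.Agent.MP_e8e0b6_ag.R2

theorem t4b_stmt (h1 : RatGenStmt) : T4bStmt := by
  classical
  intro k A M F F₁ Ω E J _ _ _ _ _ _ _ _ _ _ _ _ _ _ _ _ g H μ S' e g₁ ν₁ μ₁ hT hL hR
  let Z : Set M → Subfield E := fun Λ =>
    Subfield.closure ((fun a => algebraMap Ω E (e a)) '' Λ ∪ Set.range μ)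
  have mono : ∀ {Λ Λ'}, Λ ⊆ Λ' → Z Λ ≤ Z Λ' := fun h =>
    Subfield.closure_mono (Set.union_subset_union_left _ (Set.image_mono h))
  have rg : ∀ Λ f, μ f ∈ Z Λ := fun Λ f => Subfield.subset_closure (.inr ⟨f, rfl⟩)
  let W₀ : Subfield F₁ :=
    { carrier := {z | ∃ Λ : Set M, Λ.Finite ∧ μ₁ z ∈ Z Λ}
      mul_mem' := fun ⟨Λ, a, b⟩ ⟨Λ', a', b'⟩ => ⟨Λ ∪ Λ', a.union a', by
        rw [map_mul]
        exact mul_mem (mono Set.subset_union_left b) (mono Set.subset_union_right b')⟩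
      one_mem' := ⟨∅, Set.finite_empty, by rw [map_one]; exact one_mem _⟩
      add_mem' := fun ⟨Λ, a, b⟩ ⟨Λ', a', b'⟩ => ⟨Λ ∪ Λ', a.union a', by
        rw [map_add]
        exact add_mem (mono Set.subset_union_left b) (mono Set.subset_union_right b')⟩
      zero_mem' := ⟨∅, Set.finite_empty, by rw [map_zero]; exact zero_mem _⟩
      neg_mem' := fun ⟨Λ, a, b⟩ => ⟨Λ, a, by rw [map_neg]; exact neg_mem b⟩
      inv_mem' := fun _ ⟨Λ, a, b⟩ => ⟨Λ, a, by rw [map_inv₀]; exact inv_mem b⟩ }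
  have nu : ∀ f, ν₁ f ∈ W₀ := fun f => ⟨∅, Set.finite_empty, by
    rw [show μ₁ (ν₁ f) = μ f from DFunLike.congr_fun hL.mu f]
    exact rg _ f⟩
  let W : IntermediateField k F₁ := W₀.toIntermediateField fun c => by
    rw [← ν₁.commutes]
    exact nu _
  have le : ch g₁.range (ν₁ '' H) (ν₁ 1) ≤ W.toSubalgebra := by
    refine sup_le ?_ (Algebra.adjoin_le ?_)
    · rintro _ ⟨p, rfl⟩
      change g₁ p ∈ W₀
      induction p using Polynomial.induction_on with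
      | C a => exact ⟨{a}, Set.finite_singleton a, by
          rw [hL.con]
          exact Subfield.subset_closure (.inl ⟨a, rfl, rfl⟩)⟩
      | add p q hp hq => rw [map_add]; exact add_mem hp hq
      | monomial n a ih =>
        rw [pow_succ, ← mul_assoc, map_mul]
        refine mul_mem ih ?_
        rw [← map_X (algebraMap A M), hL.cmp]
        exact nu _
    · rintro _ ⟨_, ⟨a, -, rfl⟩, rfl⟩
      exact W₀.div_mem (nu a) (nu 1)
  have all : ∀ z, ∃ Λ : Set M, Λ.Finite ∧ μ₁ z ∈ Z Λ := fun z => by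
    obtain ⟨a, ha, b, hb, -, rfl⟩ := hL.frac 1 hT.one z
    exact W₀.div_mem (le ha) (le hb)
  choose Λ hΛ hZ using all
  choose U V c₁ c₂ hU hV k1 k2 k3 using fun i : J => hR (Pi.single i 1)
  refine ⟨⋃ i, ⋃ z ∈ U i ∪ V i, Λ z, Set.finite_iUnion fun i =>
    ((hU i).union (hV i)).biUnion fun z _ => hΛ z, ?_⟩
  intro L F₀ _ _ _ _ _ e' g₀ ν μ₀ he hL₀
  have key : ∀ i, ∀ z ∈ U i ∪ V i, μ₁ z ∈ Set.range μ₀ := fun i z hz => by
    have : Z (Λ z) ≤ (μ₀ : F₀ →+* E).fieldRange := by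
      refine Subfield.closure_le.2 ?_
      rintro _ (⟨a, ha, rfl⟩ | ⟨f, rfl⟩)
      · obtain ⟨a', h⟩ := he a (Set.mem_iUnion.2 ⟨i, Set.mem_biUnion hz ha⟩)
        exact ⟨g₀ (C a'), (hL₀.con a').trans (by rw [h])⟩
      · exact ⟨ν f, DFunLike.congr_fun hL₀.mu f⟩
    exact this (hZ z)
  have fin : ∀ {X : Set F₁}, X.Finite → (μ₀ ⁻¹' (μ₁ '' X)).Finite := fun h =>
    (h.image _).preimage (μ₀ : F₀ →+* E).injective.injOn
  refine h1 k F₀ Ω E J μ₀ S' hT.all fun i => ⟨μ₀ ⁻¹' (μ₁ '' U i), μ₀ ⁻¹' (μ₁ '' V i), c₁ i, c₂ i,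
    fin (hU i), fin (hV i), ?_, ?_, k3 i⟩
  · rw [Set.image_preimage_eq_of_subset (by rintro _ ⟨z, hz, rfl⟩; exact key i z (.inl hz))]
    exact k1 i
  · rw [Set.image_preimage_eq_of_subset (by rintro _ ⟨z, hz, rfl⟩; exact key i z (.inr hz))]
    exact k2 i

end Pool.Agent.MP_e8e0b6_ag.R2

end Part2

section Part3

-- part 3: T4c

/-!
The family over `L[X]` for a finite extension `L`.
-/

set_option autoImplicit false

open Polynomial

namespace Pool.Agent.MP_e8e0b6_ag.R2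

open Pool.Agent.MP_79c67d_ag Pool.Agent.MP_20d318_ag Pool.Agent.MP_20d318_ag.AG
  Pool.Agent.MP_20d318_ag.BV Pool.Agent.MP_20d318_ag.CB

namespace T4cA

variable {k F : Type} [Field k] [Field F] [Algebra k F]

/-- The quotients `a / b` with `a` in `R` and `b` in a multiplicative part of `R`. -/
def quo (R : Subalgebra k F) (P : F → Prop) (h0 : ∀ b, P b → b ≠ 0) (hR : ∀ b, P b → b ∈ R)
    (h1 : P 1) (hm : ∀ b c, P b → P c → P (b * c)) : Subalgebra k F where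
  carrier := {f | ∃ a ∈ R, ∃ b, P b ∧ f = a / b}
  mul_mem' := by
    rintro _ _ ⟨a, ha, b, hb, rfl⟩ ⟨c, hc, d, hd, rfl⟩
    exact ⟨a * c, R.mul_mem ha hc, b * d, hm b d hb hd, div_mul_div_comm a b c d⟩
  add_mem' := by
    rintro _ _ ⟨a, ha, b, hb, rfl⟩ ⟨c, hc, d, hd, rfl⟩
    exact ⟨a * d + b * c, R.add_mem (R.mul_mem ha (hR d hd)) (R.mul_mem (hR b hb) hc), b * d,
      hm b d hb hd, div_add_div a c (h0 b hb) (h0 d hd)⟩
  algebraMap_mem' r := ⟨algebraMap k F r, R.algebraMap_mem r, 1, h1, (div_one _).symm⟩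

/-- All quotients of elements of `R`. -/
def quo0 (R : Subalgebra k F) : Subalgebra k F :=
  quo R (fun b => b ∈ R ∧ b ≠ 0) (fun _ h => h.2) (fun _ h => h.1) ⟨R.one_mem, one_ne_zero⟩
    fun _ _ hb hc => ⟨R.mul_mem hb.1 hc.1, mul_ne_zero hb.2 hc.2⟩

theorem mem_quo0 {R : Subalgebra k F} {f : F} :
    f ∈ quo0 R ↔ ∃ a ∈ R, ∃ b, (b ∈ R ∧ b ≠ 0) ∧ f = a / b := Iff.rfl

theorem le_quo0 (R : Subalgebra k F) : R ≤ quo0 R := fun a ha =>
  mem_quo0.2 ⟨a, ha, 1, ⟨R.one_mem, one_ne_zero⟩, (div_one a).symm⟩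

theorem frac_of_le {R D : Subalgebra k F} (h : D ≤ quo0 R) (hD : Frac D) : Frac R := by
  intro f
  obtain ⟨a, ha, b, hb, hb0, rfl⟩ := hD f
  obtain ⟨a1, ha1, a2, ⟨ha2, ha0⟩, rfl⟩ := mem_quo0.1 (h ha)
  obtain ⟨b1, hb1, b2, ⟨hb2, hb20⟩, rfl⟩ := mem_quo0.1 (h hb)
  have hb10 : b1 ≠ 0 := fun h0 => hb0 (by rw [h0, zero_div])
  refine ⟨a1 * b2, R.mul_mem ha1 hb2, a2 * b1, R.mul_mem ha2 hb1, mul_ne_zero ha0 hb10, ?_⟩
  field_simp

theorem frac_ch {C D : Subalgebra k F} (h : Lz C D) (H : Set F) (j : F) (hD : Frac (ch D H j)) :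
    Frac (ch C H j) := by
  refine frac_of_le (sup_le ?_ (le_sup_right.trans (le_quo0 (ch C H j)))) hD
  intro f hf
  obtain ⟨a, ha, b, hb, hu, rfl⟩ := h.2 f hf
  have hC : C ≤ ch C H j := le_sup_left
  exact mem_quo0.2 ⟨a, hC ha, b, ⟨hC hb, hu.1⟩, rfl⟩

/-- A finite extension of the fraction field of a finitely generated ring. -/
theorem exists_gen {A K L : Type} [CommRing A] [Field K] [Field L] [Algebra k A] [Algebra k L]
    [Algebra A L] [IsScalarTower k A L] [Algebra A K] [IsFractionRing A K] [Algebra K L]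
    [IsScalarTower A K L] [FiniteDimensional K L] [Algebra.FiniteType k A] :
    ∃ G : Set L, G.Finite ∧ Frac (Algebra.adjoin k G) ∧
      ∀ a, algebraMap A L a ∈ Algebra.adjoin k G := by
  obtain ⟨s, hs⟩ := (Algebra.FiniteType.out : (⊤ : Subalgebra k A).FG)
  obtain ⟨t, ht⟩ := (Module.Finite.fg_top : (⊤ : Submodule K L).FG)
  have hA : ∀ a, algebraMap A L a ∈ Algebra.adjoin k (algebraMap A L '' s ∪ (t : Set L)) := by
    intro a
    have ha : a ∈ Algebra.adjoin k (s : Set A) := by rw [hs]; trivial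
    have h2 : (Algebra.adjoin k (s : Set A)).map (IsScalarTower.toAlgHom k A L) ≤
        Algebra.adjoin k (algebraMap A L '' s ∪ (t : Set L)) := by
      rw [AlgHom.map_adjoin]
      exact Algebra.adjoin_mono Set.subset_union_left
    exact h2 ⟨a, ha, rfl⟩
  refine ⟨algebraMap A L '' s ∪ t, (s.finite_toSet.image _).union t.finite_toSet, ?_, hA⟩
  intro f
  have hf : f ∈ Submodule.span K (t : Set L) := by rw [ht]; trivial
  have : f ∈ quo0 (Algebra.adjoin k (algebraMap A L '' s ∪ (t : Set L))) := by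
    induction hf using Submodule.span_induction with
    | mem x hx => exact le_quo0 _ (Algebra.subset_adjoin (Or.inr hx))
    | zero => exact Subalgebra.zero_mem _
    | add x y _ _ hx hy => exact Subalgebra.add_mem _ hx hy
    | smul c x _ hx =>
      rw [Algebra.smul_def]
      refine Subalgebra.mul_mem _ ?_ hx
      obtain ⟨a, b, hb, rfl⟩ := IsFractionRing.div_surjective A c
      refine mem_quo0.2 ⟨_, hA a, _, ⟨hA b, ?_⟩, ?_⟩
      · rw [IsScalarTower.algebraMap_apply A K L, _root_.map_ne_zero]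
        exact (IsLocalization.map_units K (⟨b, hb⟩ : nonZeroDivisors A)).ne_zero
      · rw [map_div₀, ← IsScalarTower.algebraMap_apply, ← IsScalarTower.algebraMap_apply]
  obtain ⟨a, ha, b, hb, e⟩ := mem_quo0.1 this
  exact ⟨a, ha, b, hb.1, hb.2, e⟩

section

variable {L : Type} [Field L] [Algebra k L]

theorem smooth_range (B : Subalgebra k L) (hB : Algebra.Smooth k B) (g₀ : L[X] →ₐ[k] F)
    (hg : Function.Injective g₀) : Algebra.Smooth k (g₀.comp (mapAlgHom B.val)).range := by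
  have : Algebra.Smooth B B[X] := {}
  have : Algebra.Smooth k B[X] := Algebra.Smooth.comp k B B[X]
  refine Algebra.Smooth.of_equiv (AlgEquiv.ofInjective (g₀.comp (mapAlgHom B.val)) ?_)
  exact hg.comp (Polynomial.map_injective _ Subtype.val_injective)

theorem mem_C (B : Subalgebra k L) (g₀ : L[X] →ₐ[k] F) {a : L} (ha : a ∈ B) :
    g₀ (C a) ∈ (g₀.comp (mapAlgHom B.val)).range :=
  ⟨C ⟨a, ha⟩, by simp⟩

theorem mem_X (B : Subalgebra k L) (g₀ : L[X] →ₐ[k] F) :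
    g₀ X ∈ (g₀.comp (mapAlgHom B.val)).range :=
  ⟨X, by simp⟩

theorem isU_C (g₀ : L[X] →ₐ[k] F) {a : L} (ha : a ≠ 0) : IsU g₀.range (g₀ (C a)) := by
  have h : g₀ (C a) * g₀ (C a⁻¹) = 1 := by
    rw [← map_mul, ← C_mul, mul_inv_cancel₀ ha, C_1, map_one]
  refine ⟨left_ne_zero_of_mul_eq_one h, ⟨_, rfl⟩, C a⁻¹, ?_⟩
  exact eq_inv_of_mul_eq_one_right h

theorem lz_range (B : Subalgebra k L) (hB : Frac B) (g₀ : L[X] →ₐ[k] F) :
    Lz (g₀.comp (mapAlgHom B.val)).range g₀.range := by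
  refine ⟨?_, ?_⟩
  · rintro _ ⟨p, rfl⟩
    exact ⟨_, rfl⟩
  · rintro _ ⟨p, rfl⟩
    let Q := quo (g₀.comp (mapAlgHom B.val)).range
      (fun b => b ∈ (g₀.comp (mapAlgHom B.val)).range ∧ IsU g₀.range b) (fun _ h => h.2.1)
      (fun _ h => h.1) ⟨Subalgebra.one_mem _, one_ne_zero, Subalgebra.one_mem _, by
        rw [inv_one]; exact Subalgebra.one_mem _⟩
      fun b c hb hc => ⟨Subalgebra.mul_mem _ hb.1 hc.1, mul_ne_zero hb.2.1 hc.2.1,
        Subalgebra.mul_mem _ hb.2.2.1 hc.2.2.1, by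
          rw [mul_inv]; exact Subalgebra.mul_mem _ hb.2.2.2 hc.2.2.2⟩
    have hX : g₀ X ∈ Q := ⟨_, mem_X B g₀, g₀ (C 1), ⟨mem_C B g₀ B.one_mem, isU_C g₀ one_ne_zero⟩,
      by rw [C_1, map_one, div_one]⟩
    have hC : ∀ a, g₀ (C a) ∈ Q := by
      intro a
      obtain ⟨b, hb, c, hc, hc0, rfl⟩ := hB a
      refine ⟨_, mem_C B g₀ hb, g₀ (C c), ⟨mem_C B g₀ hc, isU_C g₀ hc0⟩, ?_⟩
      rw [eq_div_iff (isU_C g₀ hc0).1, ← map_mul, ← C_mul, div_mul_cancel₀ _ hc0]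
    have hp : g₀ p ∈ Q := by
      induction p using Polynomial.induction_on' with
      | add p q hp hq => rw [map_add]; exact Q.add_mem hp hq
      | monomial n a =>
        rw [← C_mul_X_pow_eq_monomial, map_mul, map_pow]
        exact Q.mul_mem (hC a) (Q.pow_mem hX n)
    obtain ⟨a, ha, b, hb, e⟩ := hp
    exact ⟨a, ha, b, hb.1, hb.2, e⟩

end

end T4cA

theorem t4c_stmt (h1 : GsStmt) (h2 : LzStmt) : T4cStmt := by
  intro k A K L F F₀ Ω E J _ _ _ _ _ _ _ _ _ _ _ _ _ _ _ _ _ _ _ _ _ _ _ _ g H μ S' e g₀ ν μ₀ ts lv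
  have := ts.sm
  obtain ⟨G, hG, hF, hA⟩ := T4cA.exists_gen (k := k) (A := A) (K := K) (L := L)
  obtain ⟨B, hB, hsm⟩ := h1 k L G hG hF
  have hBF : Frac B := T4cA.frac_of_le (hB.trans (T4cA.le_quo0 B)) hF
  have hlz := T4cA.lz_range B hBF g₀
  have hmu : ∀ z, μ₀ (ν z) = μ z := fun z => DFunLike.congr_fun lv.mu z
  have hgd := ts.uni F₀ μ₀ (g₀.comp (mapAlgHom B.val)).range (ν '' H) ?_ ?_ ?_
    (T4cA.smooth_range B hsm g₀ lv.inj) ?_
  · exact (h2 k F₀ _ _ (ν '' H) hlz).2.2 hgd.fm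
  · rw [Set.image_image]
    exact Set.image_congr fun z _ => hmu z
  · rintro _ ⟨_, ⟨p, rfl⟩, rfl⟩
    refine ⟨ν (g p), ?_, hmu _⟩
    rw [← lv.cmp]
    induction p using Polynomial.induction_on' with
    | add p q hp hq => rw [Polynomial.map_add, map_add]; exact Subalgebra.add_mem _ hp hq
    | monomial n a =>
      rw [Polynomial.map_monomial, ← C_mul_X_pow_eq_monomial, map_mul, map_pow]
      exact Subalgebra.mul_mem _ (T4cA.mem_C B g₀ (hB (hA a)))
        (Subalgebra.pow_mem _ (T4cA.mem_X B g₀) n)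
  · intro c hc
    obtain ⟨p, rfl⟩ := hlz.1 hc
    have hX : μ₀ (g₀ X) ∈ (algebraMap Ω E).range := by
      have := lv.cmp X
      rw [Polynomial.map_X] at this
      rw [this, hmu]
      exact ts.gc.base _ ⟨X, rfl⟩
    clear hc
    change μ₀ (g₀ p) ∈ (algebraMap Ω E).range
    induction p using Polynomial.induction_on' with
    | add p q hp hq => rw [map_add, map_add]; exact Subring.add_mem _ hp hq
    | monomial n a =>
      rw [← C_mul_X_pow_eq_monomial, map_mul, map_mul, map_pow, map_pow, lv.con]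
      exact Subring.mul_mem _ ⟨_, rfl⟩ (Subring.pow_mem _ hX n)
  · rintro _ ⟨j, hj, rfl⟩
    exact T4cA.frac_ch hlz _ _ (lv.frac j hj)

end Pool.Agent.MP_e8e0b6_ag.R2

end Part3

section Part4

-- part 4: Trf

/-!
Trivial monodromy passes to a larger field of constants.
-/

set_option autoImplicit false

open Polynomial

namespace Pool.Agent.MP_e8e0b6_ag.R2

open Pool.Agent.MP_79c67d_ag Pool.Agent.MP_20d318_ag Pool.Agent.MP_20d318_ag.AG
  Pool.Agent.MP_20d318_ag.BV Pool.Agent.MP_20d318_ag.CB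

namespace TrfA

variable {K M Ω E J : Type} [Field K] [Field M] [Field Ω] [Field E] [Algebra K M] [Algebra Ω E]
  [Fintype J]

theorem gn_hom {G : Type} [FunLike G M E] [RingHomClass G M E] (f : G) {O : Subalgebra K M}
    {O' : Subalgebra Ω E} (h : ∀ a ∈ O, f a ∈ O') {U : Set M} {a : M} (g : Gn U O a) :
    Gn (f '' U) O' (f a) := by
  refine ⟨?_, ?_⟩
  · rintro _ ⟨u, hu, rfl⟩
    rw [← map_div₀]
    exact h _ (g.1 u hu)
  · obtain ⟨u, hu, v⟩ := g.2
    refine ⟨_, ⟨u, hu, rfl⟩, ?_⟩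
    rw [← map_div₀]
    exact ⟨(map_ne_zero f).2 v.ne, h _ v.mem, by rw [← map_inv₀]; exact h _ v.inv_mem⟩

/-- Two systems of the same class differ by a function. -/
theorem exists_mul {S : Sd Ω E J} {U U' : Set E} {c : J → ℤ} (h : Cl S U c) (h' : Cl S U' c) :
    ∃ χ : E, χ ≠ 0 ∧ ∀ O ∈ S.T, ∀ a, Gn U O a → Gn U' O (χ * a) := by
  obtain ⟨φ, h0, h⟩ := h
  obtain ⟨φ', h0', h'⟩ := h'
  refine ⟨φ' / φ, div_ne_zero h0' h0, fun O hO a g => (h' O hO).of_unit ?_⟩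
  convert g.unit (h O hO) using 1
  field_simp

theorem cl_of_mul {S : Sd Ω E J} {U U' : Set E} {c : J → ℤ} (h : Cl S U c) {χ : E} (h0 : χ ≠ 0)
    (h' : ∀ O ∈ S.T, ∃ a, Gn U O a ∧ Gn U' O (χ * a)) : Cl S U' c := by
  obtain ⟨φ, h1, h⟩ := h
  refine ⟨χ * φ, mul_ne_zero h0 h1, fun O hO => ?_⟩
  obtain ⟨a, g, g'⟩ := h' O hO
  refine g'.of_unit ?_
  rw [mul_assoc, mul_div_mul_left _ _ h0]
  exact (h O hO).unit g

/-- The class `c` is invariant. -/
def Inv (S : Sd Ω E J) (τ : E ≃+* E) (c : J → ℤ) : Prop := ∃ ρ : E, ρ ≠ 0 ∧ ∀ O ∈ S.T, ∀ O' ∈ S.T,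
  (∀ a ∈ O', τ a ∈ O) → IsU O (ρ * τ (S.lb c O') / S.lb c O)

variable {S : Sd Ω E J} {τ : E ≃+* E} {U : Set E} {c c' : J → ℤ}

theorem inv_of (h : Cl S U c) (h' : Cl S (τ '' U) c) : Inv S τ c := by
  obtain ⟨φ, h0, h⟩ := h
  obtain ⟨φ', h0', h'⟩ := h'
  have h1 : τ φ ≠ 0 := (map_ne_zero τ).2 h0
  refine ⟨φ' / τ φ, div_ne_zero h0' h1, fun O hO O' hO' m => ?_⟩
  convert (h' O hO).unit (gn_hom τ m (h O' hO')) using 1
  rw [map_mul, map_inv₀]
  field_simp

theorem Inv.sub (hS : SAll S) (h : Inv S τ c) (h' : Inv S τ c') : Inv S τ (c - c') := by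
  obtain ⟨ρ, h0, h⟩ := h
  obtain ⟨ρ', h0', h'⟩ := h'
  refine ⟨ρ / ρ', div_ne_zero h0 h0', fun O hO O' hO' m => ?_⟩
  convert (h O hO O' hO' m).div (h' O hO O' hO' m) using 1
  rw [S.lb_sub (hS.a1.gne O hO), S.lb_sub (hS.a1.gne O' hO'), map_div₀]
  field_simp

theorem Inv.cl (h : Inv S τ c) (ex : ∀ O ∈ S.T, ∃ O' ∈ S.T, ∀ a ∈ O', τ a ∈ O) (hU : Cl S U c) :
    Cl S (τ '' U) c := by
  obtain ⟨ρ, h0, h⟩ := h
  obtain ⟨φ, h1, g⟩ := hU
  have h2 : τ φ ≠ 0 := (map_ne_zero τ).2 h1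
  refine ⟨ρ * τ φ, mul_ne_zero h0 h2, fun O hO => ?_⟩
  obtain ⟨O', hO', m⟩ := ex O hO
  refine (gn_hom τ m (g O' hO')).of_unit ?_
  convert h O hO O' hO' m using 1
  rw [map_mul, map_inv₀]
  field_simp

end TrfA

open TrfA in
theorem trf_stmt (h1 : Mk2Stmt) (h2 : RatOfStmt) (h3 : Fm0Stmt) (h4 : Trf1Stmt) (h5 : SemiStmt)
    (h6 : CtrStmt) (h7 : ClExStmt) (h8 : DifStmt) : TrfStmt := by
  intro K M Ω E I J _ _ _ _ _ _ _ _ _ _ _ _ _ H S ν S' Z hS eS fin nz gc alg tv τ hτ fix W c _ cl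
  have all := (h1 K M I S hS).all
  have all' := (h1 Ω E J S' gc.mrk).all
  obtain ⟨xx, fm, lc, db⟩ := h3 K M I S H all eS fin nz
  obtain ⟨γ, dt, lg⟩ := h2 K M M Ω E I J ⊥ H ⊤ _ S ν S' (lc hS) gc (fun d => ⟨_, db d⟩) c
  obtain ⟨U, V, c₁, c₂, hU, hV, u, v, rfl⟩ := h8 K M Ω E J ⊥ H ν S' γ c gc all' dt lg
  obtain ⟨τ', st, e⟩ := h4 K M E ν H Z τ (fm.ne.imp fun j hj => ⟨hj, fm.frac j hj⟩) alg fix
  have key : ∀ (U : Set M) (c : J → ℤ), Sys (XX (⊥ : Subalgebra K M) H) U → Cl S' (ν '' U) c →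
      Inv S' τ c := fun U c hU u => by
    obtain ⟨d, hd⟩ := h7 K M I S U all hU.1 (xx ▸ hU.2)
    obtain ⟨χ, h0, hχ⟩ := exists_mul hd (tv τ' st
      (fun z hz => ν.injective ((e z).trans (fix _ ⟨z, hz, rfl⟩))) U d hU.1 hd)
    refine inv_of u (cl_of_mul u ((map_ne_zero ν).2 h0) fun O' hO' => ?_)
    obtain ⟨O, hO, m⟩ := h6 K M Ω E ⊥ H ν gc.base O' (gc.eq ▸ hO')
    obtain ⟨a, g⟩ := hU.2 O hO
    have := gn_hom ν m (hχ O (xx ▸ hO) a g)
    rw [map_mul, Set.image_image] at this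
    simp only [e] at this
    exact ⟨_, gn_hom ν m g, by rwa [Set.image_image]⟩
  refine ((key U c₁ hU u).sub all' (key V c₂ hV v)).cl (fun O hO => ?_) cl
  obtain ⟨O', hO', m⟩ := (h5 Ω E (ν '' H) τ hτ
    (fun a ha => fix a (Set.image_mono Set.subset_union_right ha)) O (gc.eq ▸ hO)).1
  exact ⟨O', gc.eq ▸ hO', fun a ha => (m a).1 ha⟩

end Pool.Agent.MP_e8e0b6_ag.R2

end Part4

section Part5

-- part 5: Trf1

/-!
Restriction of an automorphism to a subfield with algebraically closed constants.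
-/

set_option autoImplicit false

open Polynomial

namespace Pool.Agent.MP_e8e0b6_ag.R2

open Pool.Agent.MP_79c67d_ag Pool.Agent.MP_20d318_ag Pool.Agent.MP_20d318_ag.AG
  Pool.Agent.MP_20d318_ag.BV Pool.Agent.MP_20d318_ag.CB

namespace Trf1A

variable {K M E : Type} [Field K] [IsAlgClosed K] [Field M] [Field E] [Algebra K M] [Algebra K E]
  {ν : M →ₐ[K] E} {H : Set M} {Z : Subring K}

/-- The restriction of an endomorphism. -/
theorem res (τ : E →+* E) (hF : ∃ j ∈ H, Frac (ch (⊥ : Subalgebra K M) H j))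
    (ha : ∀ a : K, IsAlgebraic Z a) (hτ : ∀ z ∈ ν '' (algebraMap K M '' Z ∪ H), τ z = z) :
    ∃ b : M →+* M, (∀ m, ν (b m) = τ (ν m)) ∧
      ∀ a, b (algebraMap K M a) ∈ Set.range (algebraMap K M) := by
  have h1 : ∀ a : K, ∃ a', algebraMap K E a' = τ (algebraMap K E a) := fun a => by
    have h2 : IsAlgebraic K ((τ.comp (algebraMap K E)) a) :=
      (ha a).ringHom_of_comp_eq Z.subtype (τ.comp (algebraMap K E)) Subtype.val_injective
        (RingHom.ext fun z => by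
          have := hτ _ ⟨_, Or.inl ⟨z, z.2, rfl⟩, rfl⟩
          rw [ν.commutes] at this
          exact this.symm)
    exact minpoly.mem_range_of_degree_eq_one K _
      (IsAlgClosed.degree_eq_one_of_irreducible K (minpoly.irreducible h2.isIntegral))
  obtain ⟨j, hj, hF⟩ := hF
  let W : Subfield M := ν.toRingHom.fieldRange.comap (τ.comp ν.toRingHom)
  have hH : ∀ h ∈ H, h ∈ W := fun h hh => ⟨h, (hτ _ ⟨h, Or.inr hh, rfl⟩).symm⟩
  let T : Subalgebra K M :=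
    { W.toSubring.toSubsemiring with
      algebraMap_mem' := fun a => (h1 a).elim fun a' e => ⟨algebraMap K M a', by
        change ν _ = τ (ν _)
        rw [ν.commutes, ν.commutes, e]⟩ }
  have hT : ch ⊥ H j ≤ T := sup_le bot_le (Algebra.adjoin_le (by
    rintro _ ⟨h, hh, rfl⟩
    exact W.div_mem (hH h hh) (hH j hj)))
  have hW : ∀ m, τ (ν m) ∈ ν.toRingHom.fieldRange := fun m => by
    obtain ⟨a, ha, b, hb, -, rfl⟩ := hF m
    exact W.div_mem (hT ha) (hT hb)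
  let b : M →+* M := ν.toRingHom.rangeRestrictFieldEquiv.symm.toRingHom.comp
    ((τ.comp ν.toRingHom).codRestrict ν.toRingHom.fieldRange hW)
  have hb : ∀ m, ν (b m) = τ (ν m) := fun m =>
    congrArg Subtype.val (ν.toRingHom.rangeRestrictFieldEquiv.apply_symm_apply ⟨τ (ν m), hW m⟩)
  refine ⟨b, hb, fun a => (h1 a).imp fun a' e => ν.toRingHom.injective ?_⟩
  change ν _ = ν _
  rw [hb, ν.commutes, ν.commutes, e]

end Trf1A

theorem trf1_stmt : Trf1Stmt := by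
  intro K M E _ _ _ _ _ _ ν H Z τ hF ha hτ
  obtain ⟨b, hb, hc⟩ := Trf1A.res τ.toRingHom hF ha hτ
  obtain ⟨b', hb', hc'⟩ := Trf1A.res τ.symm.toRingHom hF ha fun z hz =>
    τ.symm_apply_eq.2 (hτ z hz).symm
  have h1 : ∀ m, b' (b m) = m := fun m => ν.toRingHom.injective (by
    change ν _ = ν _
    rw [hb', hb]
    exact τ.symm_apply_apply _)
  have h2 : ∀ m, b (b' m) = m := fun m => ν.toRingHom.injective (by
    change ν _ = ν _
    rw [hb, hb']
    exact τ.apply_symm_apply _)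
  refine ⟨{ b with invFun := b', left_inv := h1, right_inv := h2 }, ?_, hb⟩
  refine subset_antisymm ?_ ?_
  · rintro _ ⟨_, ⟨a, rfl⟩, rfl⟩
    exact hc a
  · rintro _ ⟨a, rfl⟩
    exact ⟨_, hc' a, h2 _⟩

end Pool.Agent.MP_e8e0b6_ag.R2

end Part5

section Part6

-- part 6: TrivR

/-!
Over a principal ring a generically trivial line bundle is trivial.
-/

set_option autoImplicit false

namespace Pool.Agent.MP_e8e0b6_ag.R2

open Pool.Agent.MP_79c67d_ag Pool.Agent.MP_20d318_ag Pool.Agent.MP_20d318_ag.AG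
  Pool.Agent.MP_20d318_ag.BV Pool.Agent.MP_20d318_ag.CB

namespace TrivA

variable {k F : Type} [Field k] [Field F] [Algebra k F] {D O O' W : Subalgebra k F} {H : Set F}
  {γ : Subalgebra k F → F}

theorem xle (h : O ∈ XX D H) : D ≤ O := le_sup_left.trans h.choose_spec.2.2.1

theorem dtu {X : Set (Subalgebra k F)} (h : Dt X γ) (hO : O ∈ X) (hO' : O' ∈ X) (h1 : O ≤ O') :
    IsU O' (γ O / γ O') := by
  obtain ⟨U, V, -, -, h⟩ := h
  obtain ⟨a, b, ha, hb, hu⟩ := h O hO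
  obtain ⟨a', b', ha', hb', hu'⟩ := h O' hO'
  have := (((hu.mono h1).div hu').mul (ha'.unit (ha.mono h1))).mul ((hb.mono h1).unit hb')
  have h3 := ha.ne
  have h4 := ha'.ne
  have h5 := hb.ne
  have h6 := hb'.ne
  have h7 := left_ne_zero_of_mul (div_ne_zero_iff.1 hu'.ne).1
  convert this using 1
  field_simp

theorem key (h1 : LzStmt) (hF : Fm D H) [IsPrincipalIdealRing D] {π : D} (hπ : Prime π) :
    ∃ ξ ∈ XX D H, (π : F) ∈ mx ξ ∧ ∀ O ∈ XX D H, (π : F) ∈ mx O →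
      O ≤ ξ ∧ ∀ a ∈ O, a ∈ mx ξ → a / π ∈ O := by
  have π0 : (π : F) ≠ 0 := fun e => hπ.ne_zero (Subtype.ext e)
  have dv : ∀ a (ha : a ∈ D), a / π ∈ D ↔ π ∣ ⟨a, ha⟩ := fun a ha =>
    ⟨fun h => ⟨⟨_, h⟩, Subtype.ext (mul_div_cancel₀ a π0).symm⟩, fun ⟨c, e⟩ => by
      rw [show a = π * c from congrArg Subtype.val e, mul_div_cancel_left₀ _ π0]
      exact c.2⟩
  obtain ⟨R, hR, hU⟩ := exists_loc D {a | a / π ∈ D} (by simp)
    (fun h => hπ.not_dvd_one ((dv 1 D.one_mem).1 h))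
    (fun a _ b _ ha hb => by
      change (a + b) / π ∈ D
      rw [add_div]
      exact D.add_mem ha hb)
    (fun a ha b hb => by
      change a * b / π ∈ D ↔ a / π ∈ D ∨ b / π ∈ D
      rw [dv _ (D.mul_mem ha hb), dv a ha, dv b hb]
      exact hπ.dvd_mul (a := ⟨a, ha⟩) (b := ⟨b, hb⟩))
  obtain ⟨l1, l2, -⟩ := h1 k F D R H ⟨hR.2.1, hR.2.2⟩
  obtain ⟨ξ, hξ⟩ := hF.fib R hR
  refine ⟨ξ, l1 hξ.mem, hξ.dom.mx ⟨hR.2.1 π.2, fun hu => (hU _ π.2).1 hu ?_⟩, fun O hO hm => ?_⟩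
  · change (π : F) / π ∈ D
    rw [div_self π0]
    exact D.one_mem
  have hl : IsLocalRing O := hO.choose_spec.2.1
  have hD := xle hO
  have un : ∀ b ∈ D, IsU R b → IsU O b := fun b hb hu => by
    obtain ⟨u, v, e⟩ := hπ.coprime_iff_not_dvd.2 fun h => (hU b hb).1 hu ((dv b hb).2 h)
    have e' : (u : F) * π + v * b = 1 := congrArg Subtype.val e
    refine IsU.of_mul (hD hb) (hD v.2) ?_
    convert isU_one.add_mx hl (mx_neg (mx_mul_left (hD u.2) hm)) using 1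
    linear_combination e'
  have hRO : R ≤ O := fun f hf => by
    obtain ⟨a, ha, b, hb, hu, rfl⟩ := hR.2.2 f hf
    exact (un b hb hu).div_mem (hD ha)
  have hd : AG.Dom R O := ⟨hRO, fun f hf hu => by
    obtain ⟨a, ha, b, hb, hb', rfl⟩ := hR.2.2 f hf
    refine ((hU a ha).2 fun h => ?_).div hb'
    have := hu.mul (un b hb hb')
    rw [div_mul_cancel₀ _ hb'.ne] at this
    have h2 := mx_mul_left (hD h) hm
    rw [div_mul_cancel₀ _ π0] at h2
    exact h2.2 this⟩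
  have hO' := l2 O hO hRO
  refine ⟨hξ.le O hO' hd, fun a ha hx => ?_⟩
  have hs := hξ.red O hO' hd a ha hx
  clear ha hx
  induction hs using Submodule.span_induction with
  | mem g hg =>
    obtain ⟨a, ha, b, hb, hb', rfl⟩ := hR.2.2 g hg.1
    have h2 : a / π ∈ D := by_contra fun h => hg.2 (((hU a ha).2 h).div hb')
    rw [div_right_comm]
    exact (un b hb hb').div_mem (hD h2)
  | zero => rw [zero_div]; exact O.zero_mem
  | add b c _ _ hb hc => rw [add_div]; exact O.add_mem hb hc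
  | smul c b _ hb =>
    change (c : F) * b / π ∈ O
    rw [mul_div_assoc]; exact O.mul_mem c.2 hb

end TrivA

open TrivA

theorem triv_stmt (h1 : LzStmt) : TrivStmt := by
  intro k F _ _ _ D H γ z p hF hP hγ hz z0 hp p0 h
  have γ0 : ∀ O ∈ XX D H, γ O ≠ 0 := fun O hO => (div_ne_zero_iff.1 (dtu hγ hO hO le_rfl).ne).1
  lift p to D using hp
  induction p using UniqueFactorizationMonoid.induction_on_prime generalizing z with
  | h₁ => exact (p0 rfl).elim
  | h₂ x hx =>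
    refine ⟨z, fun O hO => ⟨mul_ne_zero z0 (γ0 O hO), hz O hO, ?_⟩⟩
    have := (((isU_iff_isUnit x).2 hx).mono (xle hO)).div_mem (h O hO)
    rwa [div_right_comm, div_self p0, one_div] at this
  | h₃ a π a0 hπ ih =>
    have π0 : (π : F) ≠ 0 := fun e => hπ.ne_zero (Subtype.ext e)
    have a1 : (a : F) ≠ 0 := fun e => a0 (Subtype.ext e)
    obtain ⟨ξ, hξ, hm, hk⟩ := key h1 hF hπ
    have e : ∀ O, z * γ O = z * γ ξ * (γ O / γ ξ) := fun O => by
      have := γ0 ξ hξ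
      field_simp
    rcases isU_or_mx (hz ξ hξ) with c | c
    · refine ih z hz z0 a1 fun O hO => ?_
      rw [show (a : F) / (z * γ O) = (π * a : D) / (z * γ O) / π by
        rw [div_right_comm, Subalgebra.coe_mul, mul_div_cancel_left₀ _ π0]]
      rcases isU_or_mx (xle hO π.2) with u | u
      · exact u.div_mem (h O hO)
      · refine (hk O hO u).2 _ (h O hO) (mx_div (mx_mul_right hm (xle hξ a.2)) ?_)
        rw [e]
        exact c.mul (dtu hγ hO hξ (hk O hO u).1)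
    · refine ih (z / π) (fun O hO => ?_) (div_ne_zero z0 π0) a1 fun O hO => ?_
      · rw [div_mul_eq_mul_div]
        rcases isU_or_mx (xle hO π.2) with u | u
        · exact u.div_mem (hz O hO)
        · refine (hk O hO u).2 _ (hz O hO) ?_
          rw [e]
          exact mx_mul_right c (dtu hγ hO hξ (hk O hO u).1).mem
      · convert h O hO using 1
        rw [Subalgebra.coe_mul, div_mul_eq_mul_div, div_div_eq_mul_div, mul_comm]

end Pool.Agent.MP_e8e0b6_ag.R2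

end Part6

section Part7

-- part 7: Tsen

/-!
All classes on the geometric generic fibre of a family with trivial monodromy are rational.
-/

set_option autoImplicit false

open Polynomial

namespace Pool.Agent.MP_e8e0b6_ag.R2

open Pool.Agent.MP_79c67d_ag Pool.Agent.MP_20d318_ag Pool.Agent.MP_20d318_ag.AG
  Pool.Agent.MP_20d318_ag.BV Pool.Agent.MP_20d318_ag.CB

namespace TsenA

/-- An embedding into an algebraically closed field extends to an algebraic extension. -/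
theorem exE {k K M Ω : Type} [Field k] [Field K] [Field M] [Field Ω] [IsAlgClosed Ω] [Algebra k K]
    [Algebra K M] [Algebra k M] [IsScalarTower k K M] [Algebra.IsAlgebraic K M] [Algebra k Ω]
    (ψ : K →ₐ[k] Ω) : ∃ e : M →ₐ[k] Ω, ∀ a, e (algebraMap K M a) = ψ a := by
  let : Algebra K Ω := ψ.toRingHom.toAlgebra
  let e0 : M →ₐ[K] Ω := IsAlgClosed.lift
  have h : ∀ a, e0 (algebraMap K M a) = ψ a := fun a => e0.commutes a
  exact ⟨{ e0.toRingHom with
    commutes' := fun r => by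
      have h2 := h (algebraMap k K r)
      rw [← IsScalarTower.algebraMap_apply, ψ.commutes] at h2
      exact h2 }, h⟩

/-- A finite set lies in a finite Galois extension. -/
theorem exL {K M : Type} [Field K] [Field M] [Algebra K M] [IsGalois K M] (Λ : Set M)
    (h : Λ.Finite) :
    ∃ L : IntermediateField K M, FiniteDimensional K L ∧ IsGalois K L ∧ Λ ⊆ L := by
  have : Finite Λ := h
  exact ⟨(FiniteGaloisIntermediateField.adjoin K Λ).toIntermediateField, inferInstance,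
    inferInstance, FiniteGaloisIntermediateField.subset_adjoin K Λ⟩

section
variable {k A K L F F₀ Ω E J : Type} [Field k] [CommRing A] [Field K] [Field L] [Field F]
  [Field F₀] [Field Ω] [Field E] [Algebra k A] [Algebra k L] [Algebra A L] [Algebra k F]
  [Algebra k F₀] [Algebra k Ω] [Algebra k E] [Algebra Ω E] [Fintype J] {g : A[X] →ₐ[k] F}
  {H : Set F} {μ : F →ₐ[k] E} {S' : Sd Ω E J} {e : L →ₐ[k] Ω} {g₀ : L[X] →ₐ[k] F₀}
  {ν : F →ₐ[k] F₀} {μ₀ : F₀ →ₐ[k] E}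

theorem mu_nu (V : Lv g H μ e g₀ ν μ₀) (z : F) : μ₀ (ν z) = μ z := by
  rw [← V.mu]; rfl

/-- The constants of the base lie in `Ω`. -/
theorem exPhi [IsScalarTower k Ω E] (T : Ts g H μ S') :
    ∃ φ : A →ₐ[k] Ω, Function.Injective φ ∧ ∀ a, algebraMap Ω E (φ a) = μ (g (C a)) := by
  have hi : Function.Injective (IsScalarTower.toAlgHom k Ω E) := (algebraMap Ω E).injective
  have hm : ∀ a : A, (μ.comp (g.comp CAlgHom)) a ∈ (IsScalarTower.toAlgHom k Ω E).range :=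
    fun a => T.gc.base _ ⟨C a, rfl⟩
  have key : ∀ a, algebraMap Ω E ((((AlgEquiv.ofInjective _ hi).symm : _ →ₐ[k] Ω).comp
      ((μ.comp (g.comp CAlgHom)).codRestrict _ hm)) a) = μ (g (C a)) := fun a =>
    congrArg Subtype.val ((AlgEquiv.ofInjective _ hi).apply_symm_apply ⟨_, hm a⟩)
  refine ⟨_, fun a b h => ?_, key⟩
  have h2 := key a
  rw [h, key b] at h2
  exact (C_injective (T.inj (μ.injective h2))).symm

/-- Over the algebraic closure all classes are rational. -/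
theorem ratM (h1 : T1Stmt) [CharZero L] [IsAlgClosed L] [IsAlgClosed Ω] (T : Ts g H μ S')
    (V : Lv g H μ e g₀ ν μ₀) (G : Gc g₀.range (ν '' H) μ₀ S') : Rat μ₀ S' := by
  have hle : g.range.map μ ≤ g₀.range.map μ₀ := by
    rintro _ ⟨_, ⟨p, rfl⟩, rfl⟩
    exact ⟨g₀ (p.map (algebraMap A L)), ⟨_, rfl⟩, by
      rw [V.cmp]; exact mu_nu V _⟩
  have key := h1 k L F₀ Ω E J g₀ (ν '' H) μ₀ S' V.inj G T.all
    (fun a => (T.alg a).tower_top_of_subalgebra_le hle)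
    (fun τ h h' => T.triv τ h (by
      rintro _ ⟨z, rfl⟩
      exact h' _ ⟨ν z, mu_nu V z⟩))
  intro c
  obtain ⟨c', hc, hc'⟩ := T.all.s.dif c
  obtain ⟨U, hU, hU'⟩ := key _ hc'
  obtain ⟨W, hW, hW'⟩ := key _ hc
  exact ⟨U, W, _, _, hU, hW, hU', hW', by abel⟩

/-- A finite set of fixed elements comes from `F`. -/
theorem pull (V : Lv g H μ e g₀ ν μ₀) {U : Set F₀} (hU : U.Finite) (h : U ⊆ Set.range ν)
    {c : J → ℤ} (hc : Cl S' (μ₀ '' U) c) : ∃ W : Set F, W.Finite ∧ Cl S' (μ '' W) c := by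
  refine ⟨ν ⁻¹' U, hU.preimage ν.injective.injOn, ?_⟩
  have : μ '' (ν ⁻¹' U) = μ₀ '' U := by
    conv_rhs => rw [← Set.image_preimage_eq_of_subset h, Set.image_image]
    exact Set.image_congr fun z _ => (mu_nu V z).symm
  rwa [this]

/-- Descent along a finite Galois extension. -/
theorem desc (h4 : T4cStmt) (h5 : AutStmt) (h6 : ActStmt) (h7 : PtStmt) (h8 : T3Stmt)
    (h9 : DtStmt) (h10 : DifStmt) [CharZero k] [IsDomain A] [IsAlgClosed Ω] [Algebra k K]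
    [IsScalarTower k A L] [Algebra A K] [IsScalarTower k A K] [IsFractionRing A K] [Algebra K L]
    [IsScalarTower A K L] [FiniteDimensional K L] [IsGalois K L] {j : F}
    (θ : ch g.range H j →ₐ[k] K) (T : Ts g H μ S') (hj : j ∈ H)
    (hθ : ∀ p (h : g p ∈ ch g.range H j), θ ⟨g p, h⟩ = algebraMap A K (p.eval 0))
    (he : ∀ a, algebraMap Ω E (e (algebraMap A L a)) = μ (g (C a))) (V : Lv g H μ e g₀ ν μ₀)
    (G : Gc g₀.range (ν '' H) μ₀ S') (R : Rat μ₀ S') : Rat μ S' := by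
  classical
  have : CharZero Ω := charZero_of_injective_algebraMap (algebraMap k Ω).injective
  have : Algebra.IsAlgebraic A L := IsFractionRing.comap_isAlgebraic_iff.mpr
    (inferInstance : Algebra.IsAlgebraic K L)
  have fm := h4 k A K L F F₀ Ω E J g H μ S' e g₀ ν μ₀ T V
  obtain ⟨a, a1, a2, a3, a4⟩ := h6 k A K L F F₀ Ω E g H μ e g₀ ν μ₀ T.one V fun σ =>
    h5 k A L F Ω E J g H μ S' e σ.toRingEquiv T he fun x => by
      rw [IsScalarTower.algebraMap_apply A K L]; exact σ.commutes _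
  obtain ⟨O₀, hO, ev, e1, e2, e3⟩ := h7 k A K L F F₀ g H g₀ ν a j θ V.inj V.cmp a1 a2 hj hθ
  obtain ⟨n, u, v, huv⟩ := speiser K L
  have pid : IsPrincipalIdealRing g₀.range :=
    IsPrincipalIdealRing.of_surjective g₀.rangeRestrict.toRingHom g₀.rangeRestrict_surjective
  have hX : g₀ X = ν (g X) := by rw [← V.cmp, Polynomial.map_X]
  have hD : ∀ σ, ∀ d ∈ g₀.range, a σ d ∈ g₀.range := by
    rintro σ _ ⟨p, rfl⟩
    induction p using Polynomial.induction_on' with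
    | add p q hp hq =>
      simp only [AlgHom.toRingHom_eq_coe, RingHom.coe_coe, map_add] at hp hq ⊢
      exact add_mem hp hq
    | monomial m c =>
      refine ⟨C (σ c) * X ^ m, ?_⟩
      simp only [AlgHom.toRingHom_eq_coe, RingHom.coe_coe, ← C_mul_X_pow_eq_monomial, map_mul,
        map_pow, a1, hX, a2]
  have key : ∀ (U : Set F₀) (c : J → ℤ), Sys (XX g₀.range (ν '' H)) U → Cl S' (μ₀ '' U) c →
      ∃ W : Set F, W.Finite ∧ Cl S' (μ '' W) c := by
    intro U c hU hc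
    obtain ⟨U', f1, f2, f3⟩ := h8 k F₀ Ω E (L ≃ₐ[K] L) J a g₀.range (ν '' H) μ₀ S' O₀ ev n
      (fun i => g₀ (C (u i))) (fun i => g₀ (C (v i))) fm G T.all pid hD
      (by rintro σ _ ⟨z, -, rfl⟩; exact a2 σ z) (fun i => ⟨⟨_, rfl⟩, ⟨_, rfl⟩⟩)
      (fun σ => by
        have h := congrArg (fun x => g₀ (C x)) (huv σ)
        simp only [map_sum, map_mul, ← a1] at h
        rw [h]
        split_ifs <;> simp)
      hO e1 e2 e3 U c hU (fun σ => by
        obtain ⟨τ, t1, t2⟩ := a4 σ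
        have h := T.triv τ t1 (by
          rintro _ ⟨z, rfl⟩
          rw [← mu_nu V, t2, a2]) _ c (hU.1.image μ₀) hc
        rw [Set.image_image] at h ⊢
        simpa only [t2] using h)
    exact pull V f1 (fun z hz => a3 z (f2 z hz)) f3
  intro c
  obtain ⟨γ, g1, g2⟩ := h9 k F₀ Ω E J g₀.range (ν '' H) μ₀ S' fm G R c
  obtain ⟨U, W, c₁, c₂, s1, s2, s3, s4, hc⟩ :=
    h10 k F₀ Ω E J g₀.range (ν '' H) μ₀ S' γ c G T.all g1 g2
  obtain ⟨U', u1, u2⟩ := key U c₁ s1 s3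
  obtain ⟨W', w1, w2⟩ := key W c₂ s2 s4
  exact ⟨U', W', c₁, c₂, u1, w1, u2, w2, hc⟩

end

end TsenA

open TsenA in
theorem tsen_stmt (h1 : T1Stmt) (h2 : LvStmt) (h3 : T4bStmt) (h4 : T4cStmt) (h5 : AutStmt)
    (h6 : ActStmt) (h7 : PtStmt) (h8 : T3Stmt) (h9 : DtStmt) (h10 : DifStmt) : TsenStmt := by
  intro k A F Ω E J _ _ _ _ _ _ _ _ _ _ _ _ _ _ _ g H μ S' j θ T hj hθ
  obtain ⟨φ, hφ, hφ'⟩ := exPhi T
  have : CharZero (FractionRing A) :=
    charZero_of_injective_algebraMap (algebraMap k (FractionRing A)).injective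
  obtain ⟨e, he⟩ := exE (M := AlgebraicClosure (FractionRing A))
    (IsFractionRing.liftAlgHom hφ : FractionRing A →ₐ[k] Ω)
  have he' : ∀ a, algebraMap Ω E (e (algebraMap A _ a)) = μ (g (C a)) := fun a => by
    rw [IsScalarTower.algebraMap_apply A (FractionRing A), he, IsFractionRing.liftAlgHom_apply,
      IsFractionRing.lift_algebraMap]
    exact hφ' a
  have : Algebra.IsAlgebraic A (AlgebraicClosure (FractionRing A)) :=
    IsFractionRing.comap_isAlgebraic_iff.mpr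
      (inferInstance : Algebra.IsAlgebraic (FractionRing A) _)
  obtain ⟨F₁, _, _, g₁, ν₁, μ₁, V₁, G₁⟩ := h2 k A _ F Ω E J g H μ S' e T he'
  obtain ⟨Λ, hΛ, hL⟩ := h3 k A _ F F₁ Ω E J g H μ S' e g₁ ν₁ μ₁ T V₁ (ratM h1 T V₁ G₁)
  obtain ⟨L, _, _, hs⟩ := exL (K := FractionRing A) Λ hΛ
  have : IsScalarTower k A L := IsScalarTower.of_algebraMap_eq fun x =>
    Subtype.ext (IsScalarTower.algebraMap_apply k A (AlgebraicClosure (FractionRing A)) x)
  have : Algebra.IsAlgebraic A L := IsFractionRing.comap_isAlgebraic_iff.mpr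
    (inferInstance : Algebra.IsAlgebraic (FractionRing A) L)
  have he2 : ∀ a, algebraMap Ω E ((e.comp (L.val.restrictScalars k)) (algebraMap A L a)) =
      μ (g (C a)) := he'
  obtain ⟨F₀, _, _, g₀, ν, μ₀, V, G⟩ := h2 k A L F Ω E J g H μ S' _ T he2
  exact desc h4 h5 h6 h7 h8 h9 h10 θ T hj hθ he2 V G
    (hL L F₀ _ g₀ ν μ₀ (fun a ha => ⟨⟨a, hs ha⟩, rfl⟩) V)

end Pool.Agent.MP_e8e0b6_ag.R2

end Part7
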