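import Pool.Agent.MP_e8e0b6_ag.RP.C2
import Pool.Agent.MP_e8e0b6_ag.RP.C3
import Pool.Agent.MP_e8e0b6_ag.RP.C1
import Pool.Agent.MP_e8e0b6_ag.RP.G1
import Pool.Agent.MP_e8e0b6_ag.RP.G2
import Pool.Agent.MP_e8e0b6_ag.RP.O1
import Pool.Agent.MP_e8e0b6_ag.RP.A1
import Pool.Agent.MP_e8e0b6_ag.RP.O2
import Pool.Agent.MP_e8e0b6_ag.RP.A2
import Pool.Agent.MP_e8e0b6_ag.RP.A3
import Pool.Agent.MP_e8e0b6_ag.RP.A4
import Pool.Agent.MP_e8e0b6_ag.RP.A5
import Pool.Agent.MP_e8e0b6_ag.RP.T1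
import Pool.Agent.MP_e8e0b6_ag.RP.T2
import Pool.Agent.MP_e8e0b6_ag.RP.T3
import Pool.Agent.MP_e8e0b6_ag.RP.S1
import Pool.Agent.MP_e8e0b6_ag.RP.S2
import Pool.Agent.MP_e8e0b6_ag.RP.S3
import Pool.Agent.MP_e8e0b6_ag.RP.B1
import Pool.Agent.MP_e8e0b6_ag.RP.B2

section Part1

-- part 1: C ChAll

/-!
The charts of a family of marked towers.
-/

namespace Pool.Agent.MP_e8e0b6_ag.R2.C

theorem ch_all (mk2 : Mk2Stmt) (vn : VnStmt) : ChStmt :=
  ch_of mk2 vn pbS p2c fnc fnr bz stc alg con del stk frc nrm wex sec pq cen stv stp p2f fns fng top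

end Pool.Agent.MP_e8e0b6_ag.R2.C

end Part1

section Part2

-- part 2: C GalAll

/-!
The monodromy on divisor classes is trivial.
-/

namespace Pool.Agent.MP_e8e0b6_ag.R2.C

theorem gal_all (mk2 : Mk2Stmt) (dt : DtStmt) (sp' : SpStmt) : GalStmt' :=
  gal_of mk2 ext (chs coo) (pur (chs coo) nor (aje eta) inl) (pt dvr (sm2 sm1)) tw one rat gdf
    (ine (fx2 mk2 dt sp' tw fx1))

end Pool.Agent.MP_e8e0b6_ag.R2.C

end Part2

section Part3

-- part 3: GlueA

/-! The specialization theorem and the facts about marked towers. -/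

set_option autoImplicit false

namespace Pool.Agent.MP_e8e0b6_ag.R2

theorem mfAll : MfAll := mfAll_of mka_stmt mkl_stmt nl_stmt exb_stmt exh_stmt

theorem mk2 : Mk2Stmt := fun k M I _ _ _ _ _ _ S h => (mfAll k M I S h).toMkF

theorem good : GoodStmt := goodA_stmt mfAll nl_stmt (rk_stmt nl_stmt)
  (cone_stmt (coneC_stmt coneA_stmt) (coneI_stmt coneA_stmt coneB_stmt) (coneR_stmt coneA_stmt))
  prime_stmt

theorem amp : AmpStmt := amp_of hcl_stmt

theorem inv : InvStmt := invA_stmt xb_stmt form_stmt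

theorem bg : Bg := bg_stmt dual_stmt

theorem gen : Gen := (dtA_stmt xb_stmt mfAll bg lwg_stmt inv).1

theorem dt : DtStmt := (dtA_stmt xb_stmt mfAll bg lwg_stmt inv).2

theorem s1 : S1Stmt := s1A_stmt xb_stmt dual_stmt bg

theorem del : Del := del_stmt vn

theorem gr : Gr := gr_stmt form_stmt gen (gbs_stmt form_stmt stab_stmt) (gra_stmt gr1_stmt)
  (twk_stmt form_stmt) (twg_stmt form_stmt) (cp1_stmt avoid_stmt) cp2_stmt

theorem spn : Spn := spn_stmt lat_stmt gr (iso3_stmt gen (iso2_stmt (three_stmt avoid_stmt)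
  (deg3_stmt deg1_stmt deg2_stmt) del iso1_stmt)) (can3_stmt can0_stmt (can2_stmt can1_stmt))

theorem sp_ : SpStmt := sp_of hcl_stmt mfAll ln_stmt bg lwg_stmt lwb_stmt dt spn

theorem ratOf : RatOfStmt := ratOf_of hcl_stmt mfAll ln_stmt bg lwg_stmt lwb_stmt spn

end Pool.Agent.MP_e8e0b6_ag.R2

end Part3

section Part4

-- part 4: GlueT

/-! Descent of divisor classes: the assembly. -/

set_option autoImplicit false

namespace Pool.Agent.MP_e8e0b6_ag.R2

theorem dif_all : DifStmt := dif_stmt ctr_stmt clEx_stmt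

theorem trf_all : TrfStmt :=
  trf_stmt mk2 ratOf fm0_stmt trf1_stmt semi_stmt ctr_stmt clEx_stmt dif_all

theorem t3_all : T3Stmt :=
  t3_stmt (t2_stmt s1 (reg_stmt ctr_stmt) (triv_stmt lz_stmt)) (reg_stmt ctr_stmt) ctr_stmt

theorem tsen_all : TsenStmt :=
  tsen_stmt (t1_stmt (t0_stmt semi_stmt) dsc_stmt core_stmt bc_stmt) (lv_stmt mkf_stmt gcUp_stmt)
    (t4b_stmt ratGen_stmt) (t4c_stmt gs_stmt lz_stmt) (aut_stmt C.ext) act_stmt pt_stmt t3_all dt
    dif_all

theorem ch_all : ChStmt := C.ch_all mk2 vn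

theorem gal_all : C.GalStmt' := C.gal_all mk2 dt sp_

end Pool.Agent.MP_e8e0b6_ag.R2

end Part4

section Part5

-- part 5: GlueS

/-! Sections and cells: the assembly. -/

set_option autoImplicit false

namespace Pool.Agent.MP_e8e0b6_ag.R2

theorem crv_all : CrvStmt :=
  crv_stmt (crvA_stmt zc_stmt) (crvB_stmt zc_stmt (crvA_stmt zc_stmt) cw2_stmt vn) crvC_stmt
    ht_stmt C.nrm

theorem lne_all : LneStmt :=
  lne_stmt (frame_stmt fin_stmt (scl_stmt lz_stmt) locf_stmt frm_stmt lz_stmt) (az_stmt crd_stmt)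
    (dd_stmt C.wex) crv_all (secb_stmt (secb0_stmt atl_stmt spr_stmt)) lz_stmt

theorem par_all : ParStmt :=
  par_stmt tsen_all (ats_stmt mk2 amp good dt sp_ ch_all lz_stmt) pts_stmt lne_all secc_stmt
    (cell_stmt pts_stmt oi_stmt (cellr_stmt lz_stmt spr_stmt spr2_stmt))

end Pool.Agent.MP_e8e0b6_ag.R2

end Part5

section Part6

-- part 6: GlueB

/-! Families of rational surfaces over an elliptic base: the assembly. -/

set_option autoImplicit false

open AlgebraicGeometry CategoryTheory Limits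

namespace Pool.Agent.MP_e8e0b6_ag.R2

theorem br2a_all : Br2aStmt := br2a_stmt br1_stmt stalk_stmt

theorem uni_all : UniStmt :=
  uni_stmt br1_stmt br2a_all br2b_stmt br3_stmt (br4_stmt ufds_stmt fibr_stmt)
    (br5_stmt mk1 mk2 fibr_stmt lz_stmt ind_stmt redt_stmt)

theorem m1_all : M1Stmt :=
  m1_stmt br2a_all (xf_stmt br1_stmt br2a_all br2b_stmt br3_stmt xfr_stmt mk1 mk2 fm0_stmt) uni_all
    gal_all trf_all mk1

theorem main_all : MainStmt :=
  main_stmt (m3_stmt m1_all uni_all mkf_stmt br1_stmt br2b_stmt br3_stmt br6_stmt mk2) par_all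
    germ_stmt

theorem elliptic_of_surfaces {k : Type} [Field k] [IsAlgClosed k] [CharZero k] {X S : Scheme.{0}}
    {f : S ⟶ Spec (.of k)} {π : X ⟶ S} {N : ℕ} {i : X ⟶ pullback (projStr k N) f}
    (hi : IsClosedImmersion i) (h : i ≫ pullback.snd _ _ = π) [Smooth π]
    (hX : SmoothVariety (π ≫ f)) (eS : Elliptic f) (hS : SimplyConnected S)
    (hF : ∀ (Ω : Type) [Field Ω] [IsAlgClosed Ω] (s : Spec (.of Ω) ⟶ S),
      RationalSurface (pullback.snd π s)) : Elliptic (π ≫ f) := by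
  have := hX.separated
  have h1 : (i ≫ pullback.fst _ _) ≫ projStr k N = π ≫ f := by
    rw [Category.assoc, pullback.condition, ← h, Category.assoc]
  have h2 : pullback.lift _ π h1 = i :=
    pullback.hom_ext (pullback.lift_fst ..) ((pullback.lift_snd ..).trans h.symm)
  exact main_all k N X S f π _ ⟨h1, by rwa [h2], inferInstance, IsSeparated.of_comp π f, hF⟩ hX eS hS

end Pool.Agent.MP_e8e0b6_ag.R2

end Part6
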